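import Pool.Agent.Lib.MP_66609f_al.Orient

namespace Pool.Agent.Lib.MP_66609f_al

open Matrix

/-- The Heisenberg type central extension attached to a bilinear form. -/
@[ext]
structure Orient2Heis {V : Type} [AddCommGroup V] (β : V →+ V →+ ℤ) where
  v : V
  s : ℤ

section Heis

variable {V : Type} [AddCommGroup V] {β : V →+ V →+ ℤ}

instance orient2_mul : Mul (Orient2Heis β) :=
  ⟨fun a b => ⟨a.v + b.v, a.s + b.s + β a.v b.v⟩⟩

instance orient2_one : One (Orient2Heis β) := ⟨⟨0, 0⟩⟩

instance orient2_inv : Inv (Orient2Heis β) := ⟨fun a => ⟨-a.v, -a.s + β a.v a.v⟩⟩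

theorem orient2_mul_v (a b : Orient2Heis β) : (a * b).v = a.v + b.v := rfl

theorem orient2_mul_s (a b : Orient2Heis β) : (a * b).s = a.s + b.s + β a.v b.v := rfl

theorem orient2_one_v : (1 : Orient2Heis β).v = 0 := rfl

theorem orient2_one_s : (1 : Orient2Heis β).s = 0 := rfl

theorem orient2_inv_v (a : Orient2Heis β) : a⁻¹.v = -a.v := rfl

theorem orient2_inv_s (a : Orient2Heis β) : a⁻¹.s = -a.s + β a.v a.v := rfl

instance orient2_group : Group (Orient2Heis β) :=
  Group.ofLeftAxioms
    (fun a b c => by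
      ext
      · simp only [orient2_mul_v, add_assoc]
      · simp only [orient2_mul_v, orient2_mul_s, map_add, AddMonoidHom.add_apply]
        ring)
    (fun a => by
      ext
      · simp only [orient2_mul_v, orient2_one_v, zero_add]
      · simp only [orient2_mul_s, orient2_one_v, orient2_one_s, map_zero,
          AddMonoidHom.zero_apply, zero_add, add_zero])
    (fun a => by
      ext
      · simp only [orient2_mul_v, orient2_inv_v, orient2_one_v, neg_add_cancel]
      · simp only [orient2_mul_s, orient2_inv_v, orient2_inv_s, orient2_one_s, map_neg,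
          AddMonoidHom.neg_apply]
        ring)

theorem orient2_comm (a b : Orient2Heis β) :
    a * b * a⁻¹ * b⁻¹ = ⟨0, β a.v b.v - β b.v a.v⟩ := by
  ext
  · simp only [orient2_mul_v, orient2_inv_v]
    abel
  · simp only [orient2_mul_v, orient2_mul_s, orient2_inv_v, orient2_inv_s, map_add, map_neg,
      AddMonoidHom.add_apply, AddMonoidHom.neg_apply]
    ring

theorem orient2_prod {n : ℕ} (c : Fin n → ℤ) :
    (List.ofFn fun i => (⟨0, c i⟩ : Orient2Heis β)).prod = ⟨0, ∑ i, c i⟩ := by
  induction n with
  | zero => rfl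
  | succ n ih =>
    rw [List.ofFn_succ, List.prod_cons, ih, Fin.sum_univ_succ]
    ext
    · simp only [orient2_mul_v, add_zero]
    · simp only [orient2_mul_s, map_zero, add_zero]

theorem orient2_lift {g : ℕ} (f : FreeGroup (Fin g × Bool) →* Orient2Heis β) :
    f (surfRel g) = ⟨0, ∑ i : Fin g,
      (β (f (FreeGroup.of (i, false))).v (f (FreeGroup.of (i, true))).v -
        β (f (FreeGroup.of (i, true))).v (f (FreeGroup.of (i, false))).v)⟩ := by
  rw [← orient2_prod]
  unfold surfRel
  rw [map_list_prod, List.map_ofFn]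
  congr 2
  funext i
  simp only [Function.comp_apply, map_mul, map_inv]
  exact orient2_comm _ _

end Heis

variable {g : ℕ}

/-- The vector of exponent sums. -/
def orient2_ex (x : SurfaceGroup g) : Fin g × Bool → ℤ := fun j => (expo g j x).toAdd

theorem orient2_ex_of (k : Fin g × Bool) :
    orient2_ex (PresentedGroup.of k : SurfaceGroup g) = Pi.single k 1 := by
  funext j
  unfold orient2_ex expo
  rw [PresentedGroup.toGroup.of, toAdd_ofAdd, Pi.single_apply]
  simp only [eq_comm]

theorem orient2_ex_mul (x y : SurfaceGroup g) :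
    orient2_ex (x * y) = orient2_ex x + orient2_ex y := by
  funext j
  simp only [orient2_ex, map_mul, toAdd_mul, Pi.add_apply]

theorem orient2_ex_inv (x : SurfaceGroup g) : orient2_ex x⁻¹ = -orient2_ex x := by
  funext j
  simp only [orient2_ex, map_inv, toAdd_inv, Pi.neg_apply]

theorem orient2_ex_one : orient2_ex (1 : SurfaceGroup g) = 0 := by
  funext j
  simp only [orient2_ex, map_one, toAdd_one, Pi.zero_apply]

theorem orient2_induction {p : SurfaceGroup g → Prop} (h1 : p 1)
    (h2 : ∀ k, p (PresentedGroup.of k)) (h3 : ∀ x y, p x → p y → p (x * y))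
    (h4 : ∀ x, p x → p x⁻¹) (x : SurfaceGroup g) : p x := by
  have hx : x ∈ Subgroup.closure
      (Set.range (PresentedGroup.of : Fin g × Bool → SurfaceGroup g)) := by
    rw [PresentedGroup.closure_range_of]
    trivial
  induction hx using Subgroup.closure_induction with
  | mem x hx =>
    obtain ⟨k, rfl⟩ := hx
    exact h2 k
  | one => exact h1
  | mul x y _ _ hx hy => exact h3 x y hx hy
  | inv x _ hx => exact h4 x hx

theorem orient2_hom (α : SurfaceGroup g →* Multiplicative ℤ) (x : SurfaceGroup g) :
    (α x).toAdd = (fun k => (α (PresentedGroup.of k)).toAdd) ⬝ᵥ orient2_ex x := by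
  induction x using orient2_induction with
  | h1 => rw [orient2_ex_one, dotProduct_zero, map_one, toAdd_one]
  | h2 k => rw [orient2_ex_of, dotProduct_single, mul_one]
  | h3 x y hx hy => rw [orient2_ex_mul, dotProduct_add, map_mul, toAdd_mul, hx, hy]
  | h4 x hx => rw [orient2_ex_inv, dotProduct_neg, map_inv, toAdd_inv, hx]

/-- The matrix of an automorphism on exponent sums. -/
def orient2_A (φ : MulAut (SurfaceGroup g)) : Matrix (Fin g × Bool) (Fin g × Bool) ℤ :=
  Matrix.of fun j k => orient2_ex (φ (PresentedGroup.of k)) j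

theorem orient2_ex_map (φ : MulAut (SurfaceGroup g)) (x : SurfaceGroup g) :
    orient2_ex (φ x) = orient2_A φ *ᵥ orient2_ex x := by
  funext j
  exact orient2_hom ((expo g j).comp φ.toMonoidHom) x

theorem orient2_A_inv (φ : MulAut (SurfaceGroup g)) : orient2_A φ⁻¹ * orient2_A φ = 1 := by
  ext j k
  have h := congrFun (orient2_ex_map φ⁻¹ (φ (PresentedGroup.of k))) j
  rw [MulAut.inv_apply_self, orient2_ex_of] at h
  rw [Matrix.one_apply, ← Pi.single_apply, h]
  rfl

/-- The standard symplectic matrix. -/
def orient2_J (g : ℕ) : Matrix (Fin g × Bool) (Fin g × Bool) ℤ :=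
  Matrix.of fun j k => if k = (j.1, !j.2) then (if j.2 then -1 else 1) else 0

theorem orient2_J_mulVec (w : Fin g × Bool → ℤ) (j : Fin g × Bool) :
    (orient2_J g *ᵥ w) j = (if j.2 then -1 else 1) * w (j.1, !j.2) := by
  simp [orient2_J, Matrix.mulVec, dotProduct]

theorem orient2_J_dot (v w : Fin g × Bool → ℤ) : v ⬝ᵥ (orient2_J g *ᵥ w) =
    ∑ i : Fin g, (v (i, false) * w (i, true) - v (i, true) * w (i, false)) := by
  rw [dotProduct, Fintype.sum_prod_type]
  refine Finset.sum_congr rfl fun i _ => ?_
  rw [Fintype.sum_bool, orient2_J_mulVec, orient2_J_mulVec]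
  simp only [if_true, Bool.not_true, Bool.false_eq_true, if_false, Bool.not_false]
  ring

theorem orient2_J_sq : orient2_J g * orient2_J g = -1 := by
  ext j k
  have h := orient2_J_mulVec (fun l => orient2_J g l k) j
  change (orient2_J g * orient2_J g) j k = _ at h
  rw [h]
  obtain ⟨i, b⟩ := j
  rw [Matrix.neg_apply, Matrix.one_apply]
  simp only [orient2_J, Matrix.of_apply, Bool.not_not]
  by_cases hk : k = (i, b)
  · rw [if_pos hk, if_pos hk.symm]
    cases b <;> simp
  · rw [if_neg hk, if_neg (Ne.symm hk)]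
    simp

theorem orient2_form (x y : SurfaceGroup g) :
    interForm g x y = orient2_ex x ⬝ᵥ (orient2_J g *ᵥ orient2_ex y) := by
  rw [orient2_J_dot]
  rfl

theorem orient2_key (φ : MulAut (SurfaceGroup g))
    (β : (Fin g × Bool → ℤ) →+ (Fin g × Bool → ℤ) →+ ℤ)
    (hβ : ∑ i : Fin g, (β (Pi.single (i, false) 1) (Pi.single (i, true) 1) -
      β (Pi.single (i, true) 1) (Pi.single (i, false) 1)) = 0) :
    ∑ i : Fin g, (β (orient2_ex (φ (PresentedGroup.of (i, false))))
        (orient2_ex (φ (PresentedGroup.of (i, true)))) -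
      β (orient2_ex (φ (PresentedGroup.of (i, true))))
        (orient2_ex (φ (PresentedGroup.of (i, false))))) = 0 := by
  let Θ : SurfaceGroup g →* Orient2Heis β :=
    PresentedGroup.toGroup (f := fun k => (⟨Pi.single k 1, 0⟩ : Orient2Heis β)) (by
      intro r hr
      rw [Set.mem_singleton_iff] at hr
      subst hr
      rw [orient2_lift]
      simp only [FreeGroup.lift_apply_of]
      rw [hβ]
      rfl)
  have hΘ : ∀ x, (Θ x).v = orient2_ex x := by
    intro x
    induction x using orient2_induction with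
    | h1 => rw [map_one, orient2_ex_one, orient2_one_v]
    | h2 k => rw [orient2_ex_of, PresentedGroup.toGroup.of]
    | h3 x y hx hy => rw [map_mul, orient2_mul_v, orient2_ex_mul, hx, hy]
    | h4 x hx => rw [map_inv, orient2_inv_v, orient2_ex_inv, hx]
  have h := orient2_lift ((Θ.comp φ.toMonoidHom).comp (PresentedGroup.mk {surfRel g}))
  have h1 : PresentedGroup.mk {surfRel g} (surfRel g) = 1 :=
    PresentedGroup.one_of_mem (Set.mem_singleton _)
  rw [MonoidHom.comp_apply, h1, map_one] at h
  have h2 := congrArg Orient2Heis.s h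
  simp only [MonoidHom.comp_apply, hΘ] at h2
  exact h2.symm

/-- The form `v j * w k`. -/
def orient2_el (j k : Fin g × Bool) : (Fin g × Bool → ℤ) →+ (Fin g × Bool → ℤ) →+ ℤ :=
  (AddMonoidHom.mul.comp (Pi.evalAddMonoidHom (fun _ => ℤ) j)).compl₂
    (Pi.evalAddMonoidHom (fun _ => ℤ) k)

theorem orient2_el_apply (j k : Fin g × Bool) (v w : Fin g × Bool → ℤ) :
    orient2_el j k v w = v j * w k := rfl

theorem orient2_conj (B : Matrix (Fin g × Bool) (Fin g × Bool) ℤ) (j k : Fin g × Bool) :
    (B * orient2_J g * Bᵀ) j k =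
      ∑ i : Fin g, (B j (i, false) * B k (i, true) - B j (i, true) * B k (i, false)) := by
  rw [← orient2_J_dot (B j) (B k), Matrix.mul_assoc]
  rfl

theorem orient2_AJA (i0 : Fin g) (φ : MulAut (SurfaceGroup g)) :
    ∃ e : ℤ, orient2_A φ * orient2_J g * (orient2_A φ)ᵀ = e • orient2_J g := by
  refine ⟨(orient2_A φ * orient2_J g * (orient2_A φ)ᵀ) (i0, false) (i0, true), ?_⟩
  ext j k
  have h0 : ∀ j k, ∑ i : Fin g,
      ((Pi.single (i, false) 1 : Fin g × Bool → ℤ) j * (Pi.single (i, true) 1 : Fin g × Bool → ℤ) k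
        - (Pi.single (i, true) 1 : Fin g × Bool → ℤ) j *
          (Pi.single (i, false) 1 : Fin g × Bool → ℤ) k) = orient2_J g j k := by
    intro j k
    have h := orient2_conj (1 : Matrix (Fin g × Bool) (Fin g × Bool) ℤ) j k
    rw [Matrix.one_mul, Matrix.transpose_one, Matrix.mul_one] at h
    rw [h]
    simp only [Matrix.one_apply, Pi.single_apply]
  have h1 : orient2_J g (i0, false) (i0, true) = 1 := by simp [orient2_J]
  have h := orient2_key φ
    (orient2_el j k - orient2_J g j k • orient2_el (i0, false) (i0, true)) (by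
      have e1 := h0 j k
      have e2 := h0 (i0, false) (i0, true)
      rw [h1] at e2
      have e3 : orient2_J g j k - orient2_J g j k * 1 = 0 := by ring
      rw [← e2, Finset.mul_sum] at e3
      nth_rewrite 1 [← e1] at e3
      rw [← Finset.sum_sub_distrib] at e3
      rw [← e3]
      refine Finset.sum_congr rfl fun i _ => ?_
      simp only [AddMonoidHom.sub_apply, AddMonoidHom.smul_apply, orient2_el_apply, smul_eq_mul]
      ring)
  rw [Matrix.smul_apply, smul_eq_mul, orient2_conj, orient2_conj, ← sub_eq_zero, Finset.sum_mul,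
    ← Finset.sum_sub_distrib, ← h]
  refine Finset.sum_congr rfl fun i _ => ?_
  simp only [AddMonoidHom.sub_apply, AddMonoidHom.smul_apply, orient2_el_apply, smul_eq_mul,
    orient2_A, Matrix.of_apply]
  ring

theorem orient2_scale (i0 : Fin g) (φ : MulAut (SurfaceGroup g)) :
    ∃ e : ℤ, ∀ x y, interForm g (φ x) (φ y) = e * interForm g x y := by
  obtain ⟨e, he⟩ := orient2_AJA i0 φ
  obtain ⟨e', he'⟩ := orient2_AJA i0 φ⁻¹
  have hA := orient2_A_inv φ
  set A := orient2_A φ
  set A' := orient2_A φ⁻¹
  set J := orient2_J g with hJ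
  have hJ2 : J * J = -1 := orient2_J_sq
  have h1 : J = (e * e') • J := by
    calc J = (A' * A) * J * (A' * A)ᵀ := by rw [hA]; simp
      _ = A' * (A * J * Aᵀ) * A'ᵀ := by simp only [Matrix.transpose_mul, Matrix.mul_assoc]
      _ = e • (A' * J * A'ᵀ) := by rw [he, Matrix.mul_smul, Matrix.smul_mul]
      _ = (e * e') • J := by rw [he', smul_smul]
  have h2 : e * e' = 1 := by
    have h := congrFun (congrFun h1 (i0, false)) (i0, true)
    have h3 : J (i0, false) (i0, true) = 1 := by simp [hJ, orient2_J]
    rw [Matrix.smul_apply, h3, smul_eq_mul, mul_one] at h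
    exact h.symm
  have h3 : J * Aᵀ = e • (A' * J) := by
    calc J * Aᵀ = (A' * A) * J * Aᵀ := by rw [hA, Matrix.one_mul]
      _ = A' * (A * J * Aᵀ) := by simp only [Matrix.mul_assoc]
      _ = e • (A' * J) := by rw [he, Matrix.mul_smul]
  have h4 : Aᵀ * J * A = e • J := by
    have h5 : J * (Aᵀ * J * A) = J * (e • J) := by
      calc J * (Aᵀ * J * A) = (J * Aᵀ) * J * A := by simp only [Matrix.mul_assoc]
        _ = e • (A' * (J * J) * A) := by
          rw [h3, Matrix.smul_mul, Matrix.smul_mul]
          simp only [Matrix.mul_assoc]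
        _ = J * (e • J) := by
          rw [Matrix.mul_smul, hJ2, Matrix.mul_neg, Matrix.mul_one, Matrix.neg_mul, hA]
    have h6 := congrArg (fun M => J * M) h5
    simp only [← Matrix.mul_assoc J J, hJ2, Matrix.neg_mul, Matrix.one_mul, neg_inj] at h6
    exact h6
  refine ⟨e, fun x y => ?_⟩
  rw [orient2_form, orient2_form, orient2_ex_map, orient2_ex_map, ← hJ, ← Matrix.vecMul_transpose,
    ← Matrix.dotProduct_mulVec, Matrix.mulVec_mulVec, Matrix.mulVec_mulVec]
  change _ ⬝ᵥ (Aᵀ * J * A) *ᵥ _ = _
  rw [h4, Matrix.smul_mulVec, dotProduct_smul, smul_eq_mul]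

theorem orient2_form_of (k : Fin g × Bool) (u : SurfaceGroup g) :
    interForm g (PresentedGroup.of k) u = (if k.2 then -1 else 1) * orient2_ex u (k.1, !k.2) := by
  rw [orient2_form, orient2_ex_of, single_dotProduct, one_mul, orient2_J_mulVec]

theorem exists_orData (g : ℕ) (hg : 1 ≤ g) : ∃ O : OrData (SurfaceGroup g),
    O.ω = interForm g ∧ O.ε.ker = AutPlus g := by
  let i0 : Fin g := ⟨0, hg⟩
  let a : SurfaceGroup g := PresentedGroup.of (i0, false)
  let b : SurfaceGroup g := PresentedGroup.of (i0, true)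
  have hab : interForm g a b = 1 := by
    rw [orient2_form_of, orient2_ex_of]
    simp
  have hmap : ∀ (φ : MulAut (SurfaceGroup g)) x y,
      interForm g (φ x) (φ y) = interForm g (φ a) (φ b) * interForm g x y := by
    intro φ x y
    obtain ⟨e, he⟩ := orient2_scale i0 φ
    rw [he, he, hab, mul_one]
  let e : MulAut (SurfaceGroup g) →* ℤ :=
    { toFun := fun φ => interForm g (φ a) (φ b)
      map_one' := hab
      map_mul' := fun φ ψ => hmap φ (ψ a) (ψ b) }
  refine ⟨⟨interForm g, e.toHomUnits, ?_, ?_, ?_, hmap⟩, rfl, ?_⟩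
  · intro x y z
    rw [orient2_form, orient2_form, orient2_form, orient2_ex_mul, add_dotProduct]
  · intro x y
    unfold interForm
    rw [← Finset.sum_neg_distrib]
    refine Finset.sum_congr rfl fun i _ => ?_
    ring
  · intro u hu α
    have h0 : orient2_ex u = 0 := by
      funext j
      have h := hu (PresentedGroup.of (j.1, !j.2))
      rw [orient2_form_of] at h
      simp only [Bool.not_not] at h
      rcases mul_eq_zero.1 h with h | h
      · split_ifs at h
        all_goals simp at h
      · exact h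
    have h := orient2_hom α u
    rw [h0, dotProduct_zero] at h
    exact toAdd_eq_zero.1 h
  · ext φ
    rw [MonoidHom.mem_ker, ← Units.val_eq_one]
    constructor
    · intro h x y
      rw [hmap φ x y]
      change interForm g (φ a) (φ b) = 1 at h
      rw [h, one_mul]
    · intro h
      change interForm g (φ a) (φ b) = 1
      rw [h a b, hab]

end Pool.Agent.Lib.MP_66609f_al
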