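import Pool.Agent.Lib.MP_66609f_al.A2Basic

namespace Pool.Agent.Lib.MP_66609f_al

theorem a2Low_pen_le (e : Ed) : e.pen ≤ 1 := by
  cases e <;> simp [Ed.pen]

theorem a2Low_penSum_le (l : List Ed) : penSum l ≤ l.length := by
  induction l with
  | nil => simp [penSum]
  | cons e l ih =>
    have h := a2Low_pen_le e
    simp only [penSum, List.map_cons, List.sum_cons, List.length_cons] at ih ⊢
    omega

theorem a2Low_split (v : ℕ) (hv : 1 ≤ v) (e : Ed) (l : List Ed) (J : ℕ)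
    (hJ : J + penSum (e :: l) ≤ (e :: l).length * v) :
    ∃ j J' : ℕ, J = j + J' ∧ j + e.pen ≤ v ∧ J' + penSum l ≤ l.length * v := by
  have h1 := a2Low_pen_le e
  have h2 := a2Low_penSum_le l
  have h3 : l.length ≤ l.length * v := Nat.le_mul_of_pos_right _ hv
  have h4 : penSum (e :: l) = e.pen + penSum l := by simp [penSum]
  have h5 : (e :: l).length * v = l.length * v + v := by
    simp [Nat.succ_mul]
  rw [h4, h5] at hJ
  by_cases h : J + e.pen ≤ v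
  · exact ⟨J, 0, by omega, h, by omega⟩
  · exact ⟨v - e.pen, J - (v - e.pen), by omega, by omega, by omega⟩

theorem a2Low_arith (v : ℕ) (hv : 5 ≤ v) (n : ℕ) (hn : 5 ≤ n) (p : ℕ) (hp : p ≤ 2) (k : ℤ)
    (h0 : 0 ≤ k) (hk : k ≤ (n : ℤ) * v - 2 - p) :
    ∃ J j : ℕ, k = (J : ℤ) + j ∧ J + p ≤ (n - 1) * v ∧ j + 2 ≤ v := by
  obtain ⟨m, rfl⟩ := Int.eq_ofNat_of_zero_le h0
  obtain ⟨n', rfl⟩ : ∃ n', n = n' + 1 := ⟨n - 1, by omega⟩
  have h1 : m + 2 + p ≤ n' * v + v := by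
    have : (m : ℤ) + 2 + p ≤ (n' : ℤ) * v + v := by
      push_cast at hk
      nlinarith
    exact_mod_cast this
  have h2 : v ≤ n' * v := Nat.le_mul_of_pos_left _ (by omega)
  simp only [Nat.add_sub_cancel]
  by_cases h : m + 2 ≤ v
  · exact ⟨0, m, by simp, by omega, h⟩
  · refine ⟨m - (v - 2), v - 2, ?_, by omega, by omega⟩
    have : m = m - (v - 2) + (v - 2) := by omega
    exact_mod_cast this

namespace Setup2

variable {G : Type*} [Group G] {S : Setup2 G} (D : S.Data) {v : ℕ}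

theorem a2Low_lift (f : ZMod 3) (w : FreeGroup Gen) :
    FreeGroup.lift (fun m => S.gn (m, f)) w = S.ev (fam3 f w) := by
  have h : FreeGroup.lift (fun m => S.gn (m, f)) = S.ev.comp (fam3 f) := by
    ext m
    simp [ev, fam3]
  rw [h]
  rfl

theorem a2Low_word (hv : 1 ≤ v) (l : List Ed) (J : ℕ)
    (hJ : J + penSum l ≤ l.length * v) :
    ∃ L : List (Let2 G), L.length = l.length ∧ (∀ a ∈ L, D.Valid v a) ∧
      (L.map S.value).prod = S.T ^ (J : ℤ) * S.ev (fam3 0 (valProd l)) := by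
  induction l generalizing J with
  | nil =>
    have hJ0 : J = 0 := by simpa [penSum] using hJ
    subst hJ0
    exact ⟨[], rfl, by simp, by simp [valProd]⟩
  | cons e l ih =>
    obtain ⟨j, J', rfl, hj, hJ'⟩ := a2Low_split v hv e l J hJ
    obtain ⟨L, hL, hval, hprod⟩ := ih J' hJ'
    refine ⟨Let2.one false 0 e j :: L, by simp [hL], ?_, ?_⟩
    · intro a ha
      rcases List.mem_cons.1 ha with rfl | ha
      · exact hj
      · exact hval a ha
    · have hv1 : valProd (e :: l) = e.val * valProd l := by simp [valProd]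
      rw [List.map_cons, List.prod_cons, hprod, hv1, map_mul, map_mul]
      have hx : S.value (Let2.one false 0 e j) = S.T ^ (j : ℤ) * S.ev (fam3 0 e.val) := rfl
      rw [hx, Nat.cast_add, zpow_add]
      calc S.T ^ (j : ℤ) * S.ev (fam3 0 e.val) * (S.T ^ (J' : ℤ) * S.ev (fam3 0 (valProd l)))
          = S.T ^ (j : ℤ) * (S.ev (fam3 0 e.val) * S.T ^ (J' : ℤ)) *
              S.ev (fam3 0 (valProd l)) := by
            simp only [mul_assoc]
        _ = _ := by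
            rw [← ((S.T_ev (fam3 0 e.val)).zpow_left (J' : ℤ)).eq]
            simp only [mul_assoc]

/-- A closed word of prescribed length and penalty. -/
theorem a2Low_closed (S : Setup2 G) (n p : ℕ) (hn : 4 ≤ n) (h : p = 2 ∨ (p = 1 ∧ n ∈ lenE)) :
    ∃ l : List Ed, l.length = n ∧ penSum l = p ∧ S.ev (fam3 0 (valProd l)) = 1 := by
  rcases h with rfl | ⟨rfl, hE⟩
  · obtain ⟨l, hl, hpen, hval⟩ := exists_pad n hn
    exact ⟨l, hl, hpen, by rw [hval, map_one, map_one]⟩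
  · obtain ⟨l, hl, hpen, hval⟩ := exists_E (fun m => S.gn (m, 0))
      (S.comm (.x, 0) (.y, 0) rfl rfl) (S.comm (.x, 0) (.u, 0) rfl rfl)
      (S.comm (.t, 0) (.y, 0) rfl rfl).symm n hE
    exact ⟨l, hl, hpen, by rw [← a2Low_lift, hval]⟩

theorem Data.lowB (hv : 5 ≤ v) (n : ℕ) (hn : 5 ≤ n) (k : ℤ) (h0 : 0 ≤ k)
    (h : k ≤ (n : ℤ) * v - 2 ∨ (k = (n : ℤ) * v - 1 ∧ n ∈ lenE)) : S.T ^ k ∈ D.setB v n := by
  obtain ⟨p, hp, hk⟩ : ∃ p : ℕ, (p = 2 ∨ (p = 1 ∧ n ∈ lenE)) ∧ k + p ≤ (n : ℤ) * v := by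
    rcases h with h | ⟨h, hE⟩
    · exact ⟨2, Or.inl rfl, by push_cast; linarith⟩
    · exact ⟨1, Or.inr ⟨rfl, hE⟩, by push_cast; linarith⟩
  obtain ⟨l, hl, hpen, hval⟩ := a2Low_closed S n p (by omega) hp
  obtain ⟨m, rfl⟩ := Int.eq_ofNat_of_zero_le h0
  obtain ⟨L, hL, hLv, hprod⟩ := a2Low_word D (by omega : 1 ≤ v) l m
    (by rw [hpen, hl]; exact_mod_cast hk)
  exact ⟨L, (hL.trans hl).le, hLv, by rw [hprod, hval, mul_one]⟩

theorem Data.lowA (hv : 5 ≤ v) (n : ℕ) (hn : 5 ≤ n) (k : ℤ) (h0 : 0 ≤ k)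
    (h : k ≤ (n : ℤ) * v - 4 ∨ (k = (n : ℤ) * v - 3 ∧ n - 1 ∈ lenE)) : S.T ^ k ∈ D.setA v n := by
  obtain ⟨p, hp, hp2, hk⟩ : ∃ p : ℕ, (p = 2 ∨ (p = 1 ∧ n - 1 ∈ lenE)) ∧ p ≤ 2 ∧
      k ≤ (n : ℤ) * v - 2 - p := by
    rcases h with h | ⟨h, hE⟩
    · exact ⟨2, Or.inl rfl, le_rfl, by push_cast; linarith⟩
    · exact ⟨1, Or.inr ⟨rfl, hE⟩, by omega, by push_cast; linarith⟩
  obtain ⟨l, hl, hpen, hval⟩ := a2Low_closed S (n - 1) p (by omega) hp
  obtain ⟨J, j, hk', hJ, hj⟩ := a2Low_arith v hv n hn p hp2 k h0 hk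
  obtain ⟨L, hL, hLv, hprod⟩ := a2Low_word D (by omega : 1 ≤ v) l J
    (by rw [hpen, hl]; exact hJ)
  refine ⟨L ++ [Let2.two (j : ℤ) 0], by simp [hL, hl]; omega, ?_,
    ⟨Let2.two (j : ℤ) 0, by simp, fun h => h⟩, ?_⟩
  · intro b hb
    rcases List.mem_append.1 hb with hb | hb
    · exact hLv b hb
    · rw [List.mem_singleton] at hb
      subst hb
      simpa [Data.Valid] using hj
  · rw [List.map_append, List.prod_append, hprod, hval, hk', zpow_add]
    simp [value]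

end Setup2

end Pool.Agent.Lib.MP_66609f_al
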