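import Pool.Agent.Lib.MP_66609f_al.A2Basic

namespace Pool.Agent.Lib.MP_66609f_al

namespace Setup2

variable {G : Type*} [Group G] {S : Setup2 G} (D : S.Data)

/-- Left multiplication by `s` increases `Θ` by at most `K`. -/
def a2Shape_Bd (S : Setup2 G) (K : ℕ) (s : G) : Prop := ∀ g, S.Θ (s * g) ≤ S.Θ g + K

theorem a2Shape_fin (F : Set G) (hF : F.Finite) :
    ∃ K, ∀ s ∈ F, a2Shape_Bd S K s ∧ a2Shape_Bd S K s⁻¹ := by
  choose C hC using S.th1
  obtain ⟨K, hK⟩ := (hF.image fun s => C s + C s⁻¹).bddAbove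
  refine ⟨K, fun s hs => ?_⟩
  have h : C s + C s⁻¹ ≤ K := hK ⟨s, hs, rfl⟩
  exact ⟨fun g => (hC s g).trans (by omega), fun g => (hC s⁻¹ g).trans (by omega)⟩

/-- A common bound for all the finitely many elements used in the letters. -/
structure a2Shape_K (K : ℕ) : Prop where
  zero : ∀ s ∈ D.L0, a2Shape_Bd S K s
  ed : ∀ f (e : Ed), a2Shape_Bd S K (S.ev (fam3 f e.val)) ∧ a2Shape_Bd S K (S.ev (fam3 f e.val))⁻¹
  kap : ∀ i : ZMod 3, a2Shape_Bd S K (S.κ ^ i.val)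

theorem a2Shape_exists_K : ∃ K, a2Shape_K D K := by
  obtain ⟨K, hK⟩ := a2Shape_fin (S := S) (D.L0 ∪
    Set.range (fun p : ZMod 3 × Ed => S.ev (fam3 p.1 p.2.val)) ∪
      Set.range fun i : ZMod 3 => S.κ ^ i.val)
    ((D.L0_fin.union (Set.finite_range _)).union (Set.finite_range _))
  exact ⟨K, fun s hs => (hK s (Or.inl (Or.inl hs))).1,
    fun f e => hK _ (Or.inl (Or.inr ⟨(f, e), rfl⟩)), fun i => (hK _ (Or.inr ⟨i, rfl⟩)).1⟩

variable {D}

theorem a2Shape_jz {v : ℕ} {a : Let2 G} (ha : D.Valid v a) : a.jz.natAbs ≤ v := by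
  rcases a with s | ⟨neg, f, e, j⟩ | ⟨j, i⟩
  · exact Nat.zero_le _
  · have hj : j + e.pen ≤ v := ha
    cases neg
    · change (j : ℤ).natAbs ≤ v
      omega
    · change (-(j : ℤ)).natAbs ≤ v
      omega
  · have hj : j.natAbs + 2 ≤ v := ha
    change j.natAbs ≤ v
    omega

theorem a2Shape_sum {v : ℕ} (l : List (Let2 G)) (hl : ∀ a ∈ l, D.Valid v a) :
    (l.map Let2.jz).sum.natAbs ≤ v * l.length := by
  induction l with
  | nil => simp
  | cons a l ih =>
    have h1 := a2Shape_jz (hl a List.mem_cons_self)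
    have h2 := ih fun b hb => hl b (List.mem_cons_of_mem _ hb)
    rw [List.map_cons, List.sum_cons, List.length_cons, Nat.mul_succ]
    have h3 := Int.natAbs_add_le a.jz (l.map Let2.jz).sum
    omega

theorem a2Shape_letter {K : ℕ} (hK : a2Shape_K D K) {a : Let2 G} (h0 : ¬ a.IsZero) :
    ∃ (j : ℤ) (s : G), S.value a = S.T ^ j * s ∧ a2Shape_Bd S K s ∧
      ∀ g, S.H (s * g) ↔ S.H g := by
  rcases a with s | ⟨neg, f, e, j⟩ | ⟨j, i⟩
  · exact (h0 trivial).elim
  · cases neg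
    · exact ⟨j, _, rfl, (hK.ed f e).1, S.H_ev _⟩
    · refine ⟨-(j : ℤ), _, rfl, (hK.ed f e).2, fun g => ?_⟩
      rw [← map_inv]
      exact S.H_ev _ g
  · exact ⟨j, _, rfl, hK.kap i, S.H_κpow _⟩

theorem a2Shape_notH {K C3 v : ℕ} (hK : a2Shape_K D K)
    (h3 : ∀ (j : ℤ) g, ¬ S.H g → S.Θ (S.T ^ j * g) ≤ S.Θ g + C3) (hv : C3 + K ≤ 4 * v)
    {g : G} (hg : ¬ S.H g) (l : List (Let2 G)) (h0 : ∀ a ∈ l, ¬ a.IsZero) :
    ¬ S.H ((l.map S.value).prod * g) ∧
      S.Θ ((l.map S.value).prod * g) ≤ S.Θ g + 4 * (v * l.length) := by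
  induction l with
  | nil => simpa using hg
  | cons a l ih =>
    obtain ⟨i1, i2⟩ := ih fun b hb => h0 b (List.mem_cons_of_mem _ hb)
    obtain ⟨j, s, e, hb, hH⟩ := a2Shape_letter hK (h0 a List.mem_cons_self)
    rw [List.map_cons, List.prod_cons, e, mul_assoc, mul_assoc, List.length_cons, Nat.mul_succ]
    have h1 : ¬ S.H (s * ((l.map S.value).prod * g)) := fun h => i1 ((hH _).1 h)
    refine ⟨fun h => h1 ((S.H_zpow _ _).1 h), ?_⟩
    have h4 := h3 j _ h1
    have h5 := hb ((l.map S.value).prod * g)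
    omega

theorem a2Shape_run {K C2 C3 v : ℕ} (hK : a2Shape_K D K)
    (h2 : ∀ (j : ℤ) (w : FT) g, S.H g →
      S.Θ (S.T ^ j * FreeGroup.lift S.gn w * g) ≤ S.Θ g + 4 * j.natAbs + C2)
    (h3 : ∀ (j : ℤ) g, ¬ S.H g → S.Θ (S.T ^ j * g) ≤ S.Θ g + C3) (hv : C3 + K ≤ 4 * v)
    (l : List (Let2 G)) (hl : ∀ a ∈ l, D.Valid v a) (h0 : ∀ a ∈ l, ¬ a.IsZero) (g : G) :
    S.Θ ((l.map S.value).prod * g) ≤ S.Θ g + 4 * (v * l.length) + (C2 + K) := by
  by_cases hg : S.H g
  · obtain ⟨w, i, e⟩ := S.run_val l h0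
    rw [e, mul_assoc]
    have h4 := h2 (l.map Let2.jz).sum w _ ((S.H_κpow i.val g).2 hg)
    have h5 := hK.kap i g
    have h6 := a2Shape_sum l hl
    change S.Θ (S.T ^ (l.map Let2.jz).sum * FreeGroup.lift S.gn w * (S.κ ^ i.val * g)) ≤ _
    omega
  · have := (a2Shape_notH hK h3 hv hg l h0).2
    omega

theorem a2Shape_all {K R W v : ℕ} (hK : a2Shape_K D K)
    (hR : ∀ l : List (Let2 G), (∀ a ∈ l, D.Valid v a) → (∀ a ∈ l, ¬ a.IsZero) → ∀ g,
      S.Θ ((l.map S.value).prod * g) ≤ S.Θ g + 4 * (v * l.length) + R)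
    (hW : W + K + R ≤ 4 * v) (l : List (Let2 G)) (hl : ∀ a ∈ l, D.Valid v a) :
    ∀ p : List (Let2 G), (∀ a ∈ p, D.Valid v a) → (∀ a ∈ p, ¬ a.IsZero) →
      S.Θ (((p ++ l).map S.value).prod) ≤ S.Θ 1 + 4 * (v * (p ++ l).length) + R ∧
      ((∃ a ∈ l, a.IsZero) →
        S.Θ (((p ++ l).map S.value).prod) + W ≤ S.Θ 1 + 4 * (v * (p ++ l).length) + R) := by
  induction l with
  | nil =>
    intro p hp h0
    have h := hR p hp h0 1
    rw [mul_one] at h
    rw [List.append_nil]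
    exact ⟨h, fun ⟨a, ha, _⟩ => absurd ha List.not_mem_nil⟩
  | cons a l ih =>
    intro p hp h0
    have ih' := ih fun b hb => hl b (List.mem_cons_of_mem _ hb)
    have ha := hl a List.mem_cons_self
    by_cases hz : a.IsZero
    · have h1 := (ih' [] (fun _ h => absurd h List.not_mem_nil)
        (fun _ h => absurd h List.not_mem_nil)).1
      rw [List.nil_append] at h1
      have h2 : a2Shape_Bd S K (S.value a) := by
        rcases a with s | ⟨neg, f, e, j⟩ | ⟨j, i⟩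
        · exact hK.zero s ha
        · exact hz.elim
        · exact hz.elim
      have h3 := h2 (l.map S.value).prod
      have h4 := hR p hp h0 (S.value a * (l.map S.value).prod)
      rw [List.map_append, List.prod_append, List.map_cons, List.prod_cons, List.length_append,
        List.length_cons, Nat.mul_add, Nat.mul_succ]
      exact ⟨by omega, fun _ => by omega⟩
    · have h1 := ih' (p ++ [a])
        (fun b hb => (List.mem_append.1 hb).elim (hp b) fun h => List.mem_singleton.1 h ▸ ha)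
        (fun b hb => (List.mem_append.1 hb).elim (h0 b) fun h => List.mem_singleton.1 h ▸ hz)
      rw [List.append_assoc, List.singleton_append] at h1
      refine ⟨h1.1, fun ⟨b, hb, hb0⟩ => h1.2 ?_⟩
      rcases List.mem_cons.1 hb with e | e
      · exact absurd (e ▸ hb0) hz
      · exact ⟨b, e, hb0⟩

variable (D)

theorem Data.exists_shape : ∃ v : ℕ, 5 ≤ v ∧ D.Shape v := by
  obtain ⟨K, hK⟩ := a2Shape_exists_K D
  obtain ⟨C0, h0⟩ := S.th0
  obtain ⟨C2, h2⟩ := S.th2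
  obtain ⟨C3, h3⟩ := S.th3
  refine ⟨C0 + C2 + C3 + K + S.Θ 1 + 17, by omega, ?_⟩
  generalize hv : C0 + C2 + C3 + K + S.Θ 1 + 17 = v
  intro l k hl e hk a ha hz
  have h4 := (a2Shape_all (W := C0 + C2 + K + S.Θ 1 + 17) hK
    (a2Shape_run hK h2 h3 (v := v) (by omega)) (by omega) l hl []
    (fun _ h => absurd h List.not_mem_nil) (fun _ h => absurd h List.not_mem_nil)).2 ⟨a, ha, hz⟩
  rw [List.nil_append, e] at h4
  have h5 := h0 k
  have h6 : ((v * l.length : ℕ) : ℤ) - 4 ≤ (k.natAbs : ℤ) := by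
    rw [Int.natCast_natAbs, Nat.cast_mul, mul_comm]
    exact hk
  omega

end Setup2

end Pool.Agent.Lib.MP_66609f_al
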