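import Pool.Agent.Lib.MP_66609f_al.A2Basic

namespace Pool.Agent.Lib.MP_66609f_al

/-- The edge of a positive letter of type one. -/
def a2Top_ed {G : Type*} : Let2 G → List Ed
  | .one false _ e _ => [e]
  | _ => []

/-- Indicator of the letters of type two. -/
def a2Top_two {G : Type*} : Let2 G → ℕ
  | .two _ _ => 1
  | _ => 0

/-- Indicator of the negative letters of type one. -/
def a2Top_neg {G : Type*} : Let2 G → ℕ
  | .one true _ _ _ => 1
  | _ => 0

/-- The word of a list of coloured edges. -/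
def a2Top_W (L : List (ZMod 3 × Ed)) : FT := (L.map fun a => fam3 a.1 a.2.val).prod

/-- The edges of one colour. -/
def a2Top_E (f : ZMod 3) (L : List (ZMod 3 × Ed)) : List Ed :=
  (L.filter fun a => a.1 = f).map fun a => a.2

theorem a2Top_sh (i f : ZMod 3) (w : FreeGroup Gen) : sh3 i (fam3 f w) = fam3 (f + i) w := by
  simp only [sh3, fam3, FreeGroup.map.comp]
  rfl

theorem a2Top_shW (i : ZMod 3) (L : List (ZMod 3 × Ed)) :
    sh3 i (a2Top_W L) = a2Top_W (L.map fun a => (a.1 + i, a.2)) := by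
  simp only [a2Top_W, map_list_prod, List.map_map, Function.comp_def, a2Top_sh]

theorem a2Top_split (L : List (ZMod 3 × Ed)) :
    L.length = (a2Top_E 0 L).length + (a2Top_E 1 L).length + (a2Top_E 2 L).length ∧
      penSum (L.map fun a => a.2) =
        penSum (a2Top_E 0 L) + penSum (a2Top_E 1 L) + penSum (a2Top_E 2 L) := by
  induction L with
  | nil => simp [a2Top_E, penSum]
  | cons a L ih =>
    obtain ⟨f, e⟩ := a
    obtain ⟨h1, h2⟩ := ih
    have h3 : ∀ f : ZMod 3, f = 0 ∨ f = 1 ∨ f = 2 := by decide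
    have d01 : ¬ (0 : ZMod 3) = 1 := by decide
    have d02 : ¬ (0 : ZMod 3) = 2 := by decide
    have d10 : ¬ (1 : ZMod 3) = 0 := by decide
    have d12 : ¬ (1 : ZMod 3) = 2 := by decide
    have d20 : ¬ (2 : ZMod 3) = 0 := by decide
    have d21 : ¬ (2 : ZMod 3) = 1 := by decide
    simp only [a2Top_E, penSum, List.length_map, List.map_map] at h1 h2 ⊢
    rcases h3 f with rfl | rfl | rfl <;>
      simp only [List.filter_cons, d01, d02, d10, d12, d20, d21, decide_true, decide_false,
        if_true, List.length_cons, List.map_cons, List.sum_cons, Function.comp_apply,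
        Bool.false_eq_true, if_false] <;> omega

theorem a2Top_an (E : List Ed) (h : Closed (valProd E)) :
    (E.length = 0 ∧ penSum E = 0) ∨ (1 ≤ penSum E ∧ (penSum E = 1 → E.length ∈ lenE)) := by
  by_cases hE : E = []
  · exact Or.inl (by rw [hE]; exact ⟨rfl, rfl⟩)
  · exact Or.inr (closed_analysis E hE h)

theorem a2Top_closed (L : List (ZMod 3 × Ed)) (hL : L.length ≠ 0)
    (h : ∀ c, pr3 c (a2Top_W L) = 1) :
    1 ≤ penSum (L.map fun a => a.2) ∧ (penSum (L.map fun a => a.2) = 1 → L.length ∈ lenE) := by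
  have hc : ∀ f, Closed (valProd (a2Top_E f L)) := by
    intro f
    have h1 := closed_fam3 (L.map fun a => (a.1, a.2.val))
      (fun c => by simpa only [List.map_map, Function.comp_def, a2Top_W] using h c) f
    simpa only [List.filter_map, List.map_map, Function.comp_def, valProd, a2Top_E] using h1
  obtain ⟨e1, e2⟩ := a2Top_split L
  rcases a2Top_an _ (hc 0) with a0 | a0 <;> rcases a2Top_an _ (hc 1) with a1 | a1 <;>
    rcases a2Top_an _ (hc 2) with a2 | a2
  · omega
  · exact ⟨by omega, fun h1 => by rw [show L.length = (a2Top_E 2 L).length by omega]; exact a2.2 (by omega)⟩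
  · exact ⟨by omega, fun h1 => by rw [show L.length = (a2Top_E 1 L).length by omega]; exact a1.2 (by omega)⟩
  · exact ⟨by omega, fun h1 => by omega⟩
  · exact ⟨by omega, fun h1 => by rw [show L.length = (a2Top_E 0 L).length by omega]; exact a0.2 (by omega)⟩
  · exact ⟨by omega, fun h1 => by omega⟩
  · exact ⟨by omega, fun h1 => by omega⟩
  · exact ⟨by omega, fun h1 => by omega⟩

namespace Setup2

variable {G : Type*} [Group G] {S : Setup2 G} (D : S.Data) {v : ℕ}

theorem a2Top_val (l : List (Let2 G)) (h : ∀ a ∈ l, ¬ a.IsZero) (hn : (l.map a2Top_neg).sum = 0) :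
    ∃ (L : List (ZMod 3 × Ed)) (i : ZMod 3), (L.map fun a => a.2) = l.flatMap a2Top_ed ∧
      (l.map S.value).prod = S.T ^ (l.map Let2.jz).sum * S.ev (a2Top_W L) * S.κ ^ i.val := by
  induction l with
  | nil => exact ⟨[], 0, rfl, by simp [a2Top_W]⟩
  | cons a l ih =>
    rw [List.map_cons, List.sum_cons] at hn
    obtain ⟨L, i, e1, e2⟩ := ih (fun b hb => h b (List.mem_cons_of_mem _ hb)) (by omega)
    have ha := h a List.mem_cons_self
    rw [List.map_cons, List.prod_cons, e2, List.map_cons, List.sum_cons, List.flatMap_cons, ← e1,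
      zpow_add]
    rcases a with s | ⟨_ | _, f, e, j⟩ | ⟨j, i0⟩
    · exact (ha trivial).elim
    · refine ⟨(f, e) :: L, i, rfl, ?_⟩
      have e3 : a2Top_W ((f, e) :: L) = fam3 f e.val * a2Top_W L := by simp [a2Top_W]
      rw [e3, map_mul]
      simp only [value, Let2.jz, mul_assoc]
      rw [← mul_assoc (S.ev _), ← ((S.T_ev _).zpow_left _).eq, mul_assoc]
    · simp [a2Top_neg] at hn
    · refine ⟨L.map fun a => (a.1 + i0, a.2), i0 + i, ?_, ?_⟩
      · simp [a2Top_ed, Function.comp_def]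
      · rw [← a2Top_shW, S.κ_add]
        simp only [value, Let2.jz, mul_assoc]
        rw [← mul_assoc (S.κ ^ i0.val), ((S.κT.pow_left _).zpow_right _).eq, mul_assoc,
          ← mul_assoc (S.κ ^ i0.val), S.κ_ev, mul_assoc]

theorem a2Top_count (l : List (Let2 G)) (h : ∀ a ∈ l, ¬ a.IsZero) (hval : ∀ a ∈ l, D.Valid v a) :
    l.length = (l.flatMap a2Top_ed).length + (l.map a2Top_two).sum + (l.map a2Top_neg).sum ∧
      (l.map Let2.jz).sum + penSum (l.flatMap a2Top_ed) + 2 * (l.map a2Top_two).sum ≤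
        ((l.flatMap a2Top_ed).length + (l.map a2Top_two).sum : ℕ) * (v : ℤ) := by
  induction l with
  | nil => simp [penSum]
  | cons a l ih =>
    obtain ⟨e1, e2⟩ := ih (fun b hb => h b (List.mem_cons_of_mem _ hb))
      (fun b hb => hval b (List.mem_cons_of_mem _ hb))
    have ha := h a List.mem_cons_self
    have hb := hval a List.mem_cons_self
    simp only [List.map_cons, List.sum_cons, List.flatMap_cons, List.length_cons,
      List.length_append, machMain_penSum_append]
    generalize penSum (l.flatMap a2Top_ed) = P at e2 ⊢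
    generalize (l.map a2Top_two).sum = Q at e1 e2 ⊢
    push_cast at e2 ⊢
    rcases a with s | ⟨_ | _, f, e, j⟩ | ⟨j, i0⟩
    · exact (ha trivial).elim
    · have hb' : j + e.pen ≤ v := hb
      have hb'' : (j : ℤ) + e.pen ≤ v := by exact_mod_cast hb'
      simp only [a2Top_ed, a2Top_two, a2Top_neg, Let2.jz, machMain_penSum_one,
        List.length_singleton]
      push_cast
      exact ⟨by omega, by linarith⟩
    · have hj : (0 : ℤ) ≤ j := Int.natCast_nonneg j
      simp only [a2Top_ed, a2Top_two, a2Top_neg, Let2.jz, List.length_nil, penSum, List.map_nil,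
        List.sum_nil]
      push_cast
      exact ⟨by omega, by linarith⟩
    · have hb' : j.natAbs + 2 ≤ v := hb
      have hb'' : j + 2 ≤ v := by omega
      simp only [a2Top_ed, a2Top_two, a2Top_neg, Let2.jz, List.length_nil, penSum, List.map_nil,
        List.sum_nil]
      push_cast
      exact ⟨by omega, by linarith⟩

/-- The analysis of a word of small deficiency. -/
theorem a2Top_main (hv : 5 ≤ v) (hs : D.Shape v) (n : ℕ) (hn : 2 ≤ n) (k : ℤ)
    (l : List (Let2 G)) (hl : l.length ≤ n) (hval : ∀ a ∈ l, D.Valid v a)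
    (hp : (l.map S.value).prod = S.T ^ k) (hk : (n : ℤ) * v - 3 ≤ k) :
    (∀ a ∈ l, ¬ a.IsZero) ∧ ∃ p : ℕ, 1 ≤ p ∧ k + p + 2 * (l.map a2Top_two).sum ≤ (n : ℤ) * v ∧
      (p = 1 → n - (l.map a2Top_two).sum ∈ lenE) := by
  have hv0 : (5 : ℤ) ≤ v := by exact_mod_cast hv
  have hl' : (l.length : ℤ) * v ≤ n * v :=
    mul_le_mul_of_nonneg_right (by exact_mod_cast hl) (by linarith)
  have hz := hs l k hval hp (le_trans (by linarith) (le_abs_self k))
  obtain ⟨w, i, hw⟩ := S.run_val l hz
  have hJ := (S.nf_unique _ _ _ _ (hw.symm.trans hp)).1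
  obtain ⟨e1, e2⟩ := a2Top_count D l hz hval
  rw [hJ] at e2
  have hm : (l.flatMap a2Top_ed).length + (l.map a2Top_two).sum = n := by
    by_contra hne
    have h1 : (l.flatMap a2Top_ed).length + (l.map a2Top_two).sum + 1 ≤ n := by omega
    have h2 : (((l.flatMap a2Top_ed).length + (l.map a2Top_two).sum : ℕ) : ℤ) + 1 ≤ n := by
      exact_mod_cast h1
    have h3 := mul_le_mul_of_nonneg_right h2 (show (0 : ℤ) ≤ v by linarith)
    have h4 : (0 : ℤ) ≤ penSum (l.flatMap a2Top_ed) := Int.natCast_nonneg _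
    have h5 : (0 : ℤ) ≤ ((l.map a2Top_two).sum : ℕ) := Int.natCast_nonneg _
    linarith
  rw [hm] at e2
  obtain ⟨L, i', f1, f2⟩ := a2Top_val (S := S) l hz (by omega)
  have f3 := (S.nf_unique _ _ _ _ (f2.symm.trans hp)).2.2
  have f4 : L.length = (l.flatMap a2Top_ed).length := by rw [← f1, List.length_map]
  have f5 := a2Top_closed L (by omega) (S.det _ f3)
  rw [f1] at f5
  refine ⟨hz, _, f5.1, e2, fun h1 => ?_⟩
  rw [show n - (l.map a2Top_two).sum = L.length by omega]
  exact f5.2 h1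

theorem Data.topB (hv : 5 ≤ v) (hs : D.Shape v) (n : ℕ) (hn : 2 ≤ n) (k : ℤ)
    (h : S.T ^ k ∈ D.setB v n) : k ≤ (n : ℤ) * v - 1 ∧ (k = (n : ℤ) * v - 1 → n ∈ lenE) := by
  by_cases hk : (n : ℤ) * v - 3 ≤ k
  swap
  · exact ⟨by linarith, fun h1 => by linarith⟩
  obtain ⟨l, hl, hval, hp⟩ := h
  obtain ⟨-, p, h1, h2, h3⟩ := a2Top_main D hv hs n hn k l hl hval hp hk
  generalize (n : ℤ) * v = N at hk h2 ⊢
  refine ⟨by omega, fun h4 => ?_⟩
  have h5 := h3 (by omega)
  rwa [show (l.map a2Top_two).sum = 0 by omega] at h5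

theorem Data.topA (hv : 5 ≤ v) (hs : D.Shape v) (n : ℕ) (hn : 2 ≤ n) (k : ℤ)
    (h : S.T ^ k ∈ D.setA v n) : k ≤ (n : ℤ) * v - 3 ∧ (k = (n : ℤ) * v - 3 → n - 1 ∈ lenE) := by
  by_cases hk : (n : ℤ) * v - 3 ≤ k
  swap
  · exact ⟨by linarith, fun h1 => by linarith⟩
  obtain ⟨l, hl, hval, ⟨a, ha, ha'⟩, hp⟩ := h
  obtain ⟨hz, p, h1, h2, h3⟩ := a2Top_main D hv hs n hn k l hl hval hp hk
  have h6 : 1 ≤ (l.map a2Top_two).sum := by
    have h7 : a2Top_two a = 1 := by
      rcases a with s | ⟨b, f, e, j⟩ | ⟨j, i0⟩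
      · exact (hz _ ha trivial).elim
      · exact (ha' trivial).elim
      · rfl
    exact h7 ▸ List.single_le_sum (fun _ _ => Nat.zero_le _) _ (List.mem_map_of_mem ha)
  generalize (n : ℤ) * v = N at hk h2 ⊢
  refine ⟨by omega, fun h4 => ?_⟩
  have h5 := h3 (by omega)
  rwa [show (l.map a2Top_two).sum = 1 by omega] at h5

end Setup2

end Pool.Agent.Lib.MP_66609f_al
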