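import Pool.Agent.Lib.MP_66609f_al.A2Ball
import Pool.Agent.Lib.MP_66609f_al.A2Shape
import Pool.Agent.Lib.MP_66609f_al.A2Top
import Pool.Agent.Lib.MP_66609f_al.A2Low

namespace Pool.Agent.Lib.MP_66609f_al

namespace Setup2

variable {G : Type*} [Group G] {S : Setup2 G}

theorem a2Main_symm (P : Set G) (hinv : ∀ g ∈ P, g⁻¹ ∈ P) (b : ℤ)
    (hup : ∀ k : ℤ, S.T ^ k ∈ P → k ≤ b) (hlow : ∀ k : ℤ, 0 ≤ k → k ≤ b → S.T ^ k ∈ P) (k : ℤ) :
    S.T ^ k ∈ P ↔ -b ≤ k ∧ k ≤ b := by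
  constructor
  · intro h
    have h1 := hinv _ h
    rw [← zpow_neg] at h1
    have h2 := hup _ h1
    exact ⟨by omega, hup k h⟩
  · rintro ⟨h1, h2⟩
    rcases le_total 0 k with h | h
    · exact hlow k h h2
    · have h3 := hinv _ (hlow (-k) (by omega) (by omega))
      rwa [← zpow_neg, neg_neg] at h3

theorem a2Main_card (a b : ℤ) (d : ℕ) (ha : 0 ≤ a) (hd : b = a + d) :
    {k : ℤ | (-b ≤ k ∧ k ≤ b) ∧ ¬ (-a ≤ k ∧ k ≤ a)}.ncard = 2 * d := by
  have h1 : {k : ℤ | (-b ≤ k ∧ k ≤ b) ∧ ¬ (-a ≤ k ∧ k ≤ a)} =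
      ((Finset.Ioc a b ∪ Finset.Ico (-b) (-a) : Finset ℤ) : Set ℤ) := by
    ext k
    simp only [Set.mem_ofPred_eq, Finset.coe_union, Finset.coe_Ioc, Finset.coe_Ico, Set.mem_union,
      Set.mem_Ioc, Set.mem_Ico]
    omega
  have h2 : Disjoint (Finset.Ioc a b) (Finset.Ico (-b) (-a)) := by
    rw [Finset.disjoint_left]
    intro k hk hk'
    rw [Finset.mem_Ioc] at hk
    rw [Finset.mem_Ico] at hk'
    omega
  rw [h1, Set.ncard_coe_finset, Finset.card_union_of_disjoint h2, Int.card_Ioc, Int.card_Ico]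
  omega

open Classical in
theorem Data.count_line (D : S.Data) {v : ℕ} (hv : 5 ≤ v) (hs : D.Shape v) (n : ℕ) (hn : 5 ≤ n) :
    ({k : ℤ | S.T ^ k ∈ D.setB v n ∧ S.T ^ k ∉ D.setA v n}.ncard : ZMod 3) =
      1 + (if n ∈ lenE then 2 else 0) + (if n - 1 ∈ lenE then 1 else 0) := by
  have hM : (25 : ℤ) ≤ (n : ℤ) * v := by
    have h1 : (5 : ℤ) ≤ n := by exact_mod_cast hn
    have h2 : (5 : ℤ) ≤ v := by exact_mod_cast hv
    nlinarith
  have hB : ∀ k : ℤ, S.T ^ k ∈ D.setB v n ↔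
      -((n : ℤ) * v - 2 + if n ∈ lenE then 1 else 0) ≤ k ∧
        k ≤ (n : ℤ) * v - 2 + if n ∈ lenE then 1 else 0 := by
    refine a2Main_symm _ (D.setB_inv v n) _ (fun k hk => ?_) (fun k h0 hk => ?_)
    · obtain ⟨h1, h2⟩ := D.topB hv hs n (by omega) k hk
      split_ifs with hE
      · omega
      · have h3 : k ≠ (n : ℤ) * v - 1 := fun h => hE (h2 h)
        omega
    · refine D.lowB hv n hn k h0 ?_
      split_ifs at hk with hE
      · by_cases h : k ≤ (n : ℤ) * v - 2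
        · exact Or.inl h
        · exact Or.inr ⟨by omega, hE⟩
      · exact Or.inl (by omega)
  have hA : ∀ k : ℤ, S.T ^ k ∈ D.setA v n ↔
      -((n : ℤ) * v - 4 + if n - 1 ∈ lenE then 1 else 0) ≤ k ∧
        k ≤ (n : ℤ) * v - 4 + if n - 1 ∈ lenE then 1 else 0 := by
    refine a2Main_symm _ (D.setA_inv v n) _ (fun k hk => ?_) (fun k h0 hk => ?_)
    · obtain ⟨h1, h2⟩ := D.topA hv hs n (by omega) k hk
      split_ifs with hE
      · omega
      · have h3 : k ≠ (n : ℤ) * v - 3 := fun h => hE (h2 h)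
        omega
    · refine D.lowA hv n hn k h0 ?_
      split_ifs at hk with hE
      · by_cases h : k ≤ (n : ℤ) * v - 4
        · exact Or.inl h
        · exact Or.inr ⟨by omega, hE⟩
      · exact Or.inl (by omega)
  simp only [hA, hB]
  by_cases h1 : n ∈ lenE <;> by_cases h2 : n - 1 ∈ lenE
  · simp only [if_pos h1, if_pos h2]
    rw [a2Main_card _ _ 2 (by omega) (by omega)]
    decide
  · simp only [if_pos h1, if_neg h2]
    rw [a2Main_card _ _ 3 (by omega) (by omega)]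
    decide
  · simp only [if_neg h1, if_pos h2]
    rw [a2Main_card _ _ 1 (by omega) (by omega)]
    decide
  · simp only [if_neg h1, if_neg h2]
    rw [a2Main_card _ _ 2 (by omega) (by omega)]
    decide

theorem abstract_main (S : Setup2 G) (S0 : Finset G)
    (h0 : Subgroup.closure (S0 : Set G) = ⊤) :
    ∃ S1 : Finset G, S0 ⊆ S1 ∧ Subgroup.closure (S1 : Set G) = ⊤ ∧
      ¬ IsRational (growthSeries (S1 : Set G)) := by
  obtain ⟨D, hD⟩ := S.exists_data S0
  obtain ⟨v, hv, hS⟩ := D.exists_shape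
  have hsub : (S0 : Set G) ⊆ D.gens v := fun x hx => ⟨.zero x, hD hx, rfl⟩
  refine ⟨(D.gens_finite v).toFinset, fun x hx => (Set.Finite.mem_toFinset _).2 (hsub hx), ?_, ?_⟩
  · rw [Set.Finite.coe_toFinset]
    exact top_unique (h0 ▸ Subgroup.closure_mono hsub)
  · rw [Set.Finite.coe_toFinset]
    intro h
    refine not_evPer3_of_lenE _ 5 (fun n hn => ?_)
      (evPer3_of_rational (fun n => (ball (D.gens v) n).ncard) h)
    rw [← D.count_line hv hS n hn, ← D.count_mod v n, D.ball_eq v n]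

end Setup2

end Pool.Agent.Lib.MP_66609f_al
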