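import Pool.Agent.Lib.MP_66609f_al.FGMain

namespace Pool.Agent.Lib.MP_66609f_al

/-- The value of the relator is a product of two conjugates of the relator or its inverse. -/
def TwoQ {X : Type*} (R : List (X × Bool)) (f : X → FreeGroup X) : Prop :=
  ∃ a b : FreeGroup X, (IsConj (FreeGroup.mk R) a ∨ IsConj (FreeGroup.mk R)⁻¹ a) ∧
    (IsConj (FreeGroup.mk R) b ∨ IsConj (FreeGroup.mk R)⁻¹ b) ∧
    FreeGroup.lift f (FreeGroup.mk R) = a * b

theorem fg2_end {X ι V : Type} [DecidableEq ι] [DecidableEq V] [Fintype X] [DecidableEq X]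
    {S : FSt X ι V} {R : List (X × Bool)} {f0 : X → FreeGroup X}
    (hR : GoodQ R) (h4 : 4 ≤ Fintype.card X) (h : S.Valid R f0) (hD : S.D = []) :
    ∃ f : X → FreeGroup X, (ShortQ R f ∨ TwoQ R f) ∧
      ∀ x, (f0 x)⁻¹ * f x ∈ Subgroup.normalClosure {FreeGroup.mk R} := by
  classical
  have hlen : ∀ r ∈ S.faces, r.2.length = R.length := by
    intro r hr
    have h1 := (h.face_lab r hr).perm.length_eq
    rw [List.length_map, (FSt.fgCancel_good hR r.1).length_eq] at h1
    rw [h1, hR.length_eq]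
  have hE : 2 * S.E.card = S.faces.length * R.length := by
    have h1 : S.darts.toFinset = S.E ×ˢ (Finset.univ : Finset Bool) := by
      ext e
      rw [List.mem_toFinset, h.mem, Finset.mem_product]
      simp
    have h2 := List.toFinset_card_of_nodup h.nodup
    rw [h1, Finset.card_product, Finset.card_univ, Fintype.card_bool, FSt.darts, hD,
      List.nil_append, List.length_flatten, List.map_map] at h2
    have h3 : S.faces.map (List.length ∘ Prod.snd) = S.faces.map fun _ => R.length :=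
      List.map_congr_left hlen
    rw [h3, List.map_const', List.sum_replicate, smul_eq_mul] at h2
    omega
  obtain ⟨x0⟩ : Nonempty X := Fintype.card_pos_iff.1 (by omega)
  have hV : S.verts.card ≤ S.faces.length := by
    let g : Bool × List (ι × Bool) → Option V := fun r =>
      if hr : ∃ e ∈ r.2, S.dl e = (x0, true) then some (S.src hr.choose) else none
    have h1 : S.verts.image some ⊆ (S.faces.map g).toFinset := by
      intro o ho
      obtain ⟨v, hv, rfl⟩ := Finset.mem_image.1 ho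
      obtain ⟨r, hr, e, he, h3, h4⟩ := FSt.fgCancel_label hR h hD hv (x0, true)
      refine List.mem_toFinset.2 (List.mem_map.2 ⟨r, hr, ?_⟩)
      have hex : ∃ e ∈ r.2, S.dl e = (x0, true) := ⟨e, he, h4⟩
      have hnd : (r.2.map S.dl).Nodup :=
        (h.face_lab r hr).perm.nodup_iff.2 (FSt.fgCancel_good hR r.1).1
      have h6 : hex.choose = e := List.inj_on_of_nodup_map hnd hex.choose_spec.1 he
        (hex.choose_spec.2.trans h4.symm)
      simp only [g, dif_pos hex, h6, h3]
    have h2 := (Finset.card_le_card h1).trans (List.toFinset_card_le _)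
    rwa [Finset.card_image_of_injective _ (Option.some_injective V), List.length_map] at h2
  have hm : S.faces.length ≤ 2 := by
    have h1 := h.count'
    rw [hR.length_eq] at hE
    by_contra hc
    have h2 : 3 ≤ S.faces.length := by omega
    nlinarith
  obtain ⟨fh, h1, h2⟩ := h.alg
  refine ⟨fun x => S.labH (fh x), ?_, h1⟩
  have e : FreeGroup.lift (fun x => S.labH (fh x)) = S.labH.comp (FreeGroup.lift fh) := by
    ext x
    simp
  rw [hD] at h2
  obtain ⟨l', hl, hx⟩ := (ConjProd.drop_one h2).map S.labH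
  unfold ShortQ TwoQ
  rw [e, MonoidHom.comp_apply, ← hx]
  have hl2 := hl.length_eq
  rw [List.length_map, List.length_map, List.length_map] at hl2
  have hface : ∀ p ∈ l', IsConj (FreeGroup.mk R) (p.1 * p.2 * p.1⁻¹) ∨
      IsConj (FreeGroup.mk R)⁻¹ (p.1 * p.2 * p.1⁻¹) := by
    intro p hp
    have h3 := hl.subset (List.mem_map_of_mem (f := Prod.snd) hp)
    obtain ⟨y, hy, h4⟩ := List.mem_map.1 h3
    obtain ⟨r, hr, rfl⟩ := List.mem_map.1 hy
    have h5 := (isConj_mk_of_isRotated (h.face_lab r hr)).symm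
    rw [← S.labH_mk, h4] at h5
    have h6 : IsConj p.2 (p.1 * p.2 * p.1⁻¹) := isConj_iff.2 ⟨p.1, rfl⟩
    cases hr1 : r.1
    · right
      rw [hr1] at h5
      rw [FreeGroup.inv_mk]
      exact h5.trans h6
    · left
      rw [hr1] at h5
      exact h5.trans h6
  match l', hl, hl2, hface with
  | [], _, _, _ => exact Or.inl ⟨1, 1, by simp, by simp⟩
  | [p], hl, _, _ =>
    refine Or.inl ⟨p.1, p.2, by simp, ?_⟩
    have h3 := hl.subset (List.mem_singleton_self p.2)
    obtain ⟨y, hy, h4⟩ := List.mem_map.1 h3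
    obtain ⟨r, hr, rfl⟩ := List.mem_map.1 hy
    rw [← h4, S.labH_mk]
    refine FreeGroup.norm_mk_le.trans ?_
    rw [List.length_map, hlen r hr]
  | [p, q], _, _, hface =>
    exact Or.inr ⟨_, _, hface p (by simp), hface q (by simp), by simp⟩
  | _ :: _ :: _ :: _, _, hl2, _ =>
    simp only [List.length_cons] at hl2
    omega

theorem fg2_ind {X ι V : Type} [DecidableEq ι] [DecidableEq V] [Fintype X] [DecidableEq X]
    {R : List (X × Bool)} {f0 : X → FreeGroup X} (hR : GoodQ R) (h4 : 4 ≤ Fintype.card X) (n : ℕ) :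
    ∀ S : FSt X ι V, S.meas R.length < n → S.Valid R f0 → ∃ f : X → FreeGroup X,
      (ShortQ R f ∨ TwoQ R f) ∧
      ∀ x, (f0 x)⁻¹ * f x ∈ Subgroup.normalClosure {FreeGroup.mk R} := by
  induction n with
  | zero => exact fun S hS => absurd hS (Nat.not_lt_zero _)
  | succ n ih =>
    intro S hS h
    by_cases hD : S.D = []
    · exact fg2_end hR h4 h hD
    · obtain ⟨S', h1, h2⟩ := fgMain_step hR h hD
      exact ih S' (by omega) h1

theorem exists_short_lift2 {X : Type} [Fintype X] [DecidableEq X] {R : List (X × Bool)}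
    (hR : GoodQ R) (h4 : 4 ≤ Fintype.card X) (f0 : X → FreeGroup X) (hne : ∀ x, f0 x ≠ 1)
    (h : FreeGroup.lift f0 (FreeGroup.mk R) ∈ Subgroup.normalClosure {FreeGroup.mk R}) :
    ∃ f : X → FreeGroup X, (ShortQ R f ∨ TwoQ R f) ∧
      ∀ x, (f0 x)⁻¹ * f x ∈ Subgroup.normalClosure {FreeGroup.mk R} := by
  obtain ⟨ι, V, S, hS⟩ := exists_init hR f0 hne h
  classical
  exact fg2_ind hR h4 _ S (Nat.lt_succ_self _) hS

theorem fg2_surfRel {H : Type*} [Group H] (f : Fin 2 × Bool → H) :
    FreeGroup.lift f (surfRel 2) =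
      f (0, false) * f (0, true) * (f (0, false))⁻¹ * (f (0, true))⁻¹ *
        (f (1, false) * f (1, true) * (f (1, false))⁻¹ * (f (1, true))⁻¹) := by
  simp [surfRel, List.ofFn_succ]

/-- The test homomorphism to the dihedral group of order eight. -/
def fg2_chi : FreeGroup (Fin 2 × Bool) →* DihedralGroup 4 :=
  FreeGroup.lift fun y => if y.1 = 0 then (if y.2 then .sr 0 else .r 1) else 1

theorem fg2_chi_rel : fg2_chi (surfRel 2) = .r 2 := by
  rw [fg2_chi, fg2_surfRel]
  decide

theorem fg2_chi_ncl (n : FreeGroup (Fin 2 × Bool))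
    (hn : n ∈ Subgroup.normalClosure {surfRel 2}) : fg2_chi n = 1 ∨ fg2_chi n = .r 2 := by
  let Z : Subgroup (DihedralGroup 4) :=
    { carrier := {x | x = 1 ∨ x = .r 2}
      one_mem' := Or.inl rfl
      mul_mem' := by rintro _ _ (rfl | rfl) (rfl | rfl) <;> simp only [Set.mem_ofPred_eq] <;> decide
      inv_mem' := by rintro _ (rfl | rfl) <;> simp only [Set.mem_ofPred_eq] <;> decide }
  have hZ : Z.Normal := ⟨by
    rintro _ (rfl | rfl) g
    · exact Or.inl (by simp)
    · exact Or.inr (by revert g; decide)⟩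
  have h1 : Subgroup.normalClosure {surfRel 2} ≤ Z.comap fg2_chi := by
    apply Subgroup.normalClosure_le_normal
    rintro _ rfl
    exact Or.inr fg2_chi_rel
  exact h1 hn

theorem fg2_not_two (f g0 : Fin 2 × Bool → FreeGroup (Fin 2 × Bool))
    (h1 : FreeGroup.lift g0 (surfRel 2) ∈ Subgroup.normalClosure {surfRel 2})
    (h2 : ∀ y, (FreeGroup.of y)⁻¹ * FreeGroup.lift f (g0 y) ∈ Subgroup.normalClosure {surfRel 2}) :
    ¬ TwoQ (surfWord 2) f := by
  rintro ⟨a, b, ha, hb, h⟩
  rw [mk_surfWord] at ha hb h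
  have hc : ∀ a, (IsConj (surfRel 2) a ∨ IsConj (surfRel 2)⁻¹ a) → fg2_chi a = .r 2 := by
    intro a ha
    rcases ha with ha | ha <;> obtain ⟨c, rfl⟩ := isConj_iff.1 ha
    · rw [map_mul, map_mul, map_inv, fg2_chi_rel]
      generalize fg2_chi c = x
      revert x
      decide
    · rw [map_mul, map_mul, map_inv, map_inv, fg2_chi_rel]
      generalize fg2_chi c = x
      revert x
      decide
  have h3 : Subgroup.normalClosure {surfRel 2} ≤ (fg2_chi.comp (FreeGroup.lift f)).ker := by
    apply Subgroup.normalClosure_le_normal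
    rintro _ rfl
    show fg2_chi (FreeGroup.lift f (surfRel 2)) = 1
    rw [h, map_mul, hc a ha, hc b hb]
    decide
  have h4 : fg2_chi (FreeGroup.lift f (FreeGroup.lift g0 (surfRel 2))) = 1 := h3 h1
  have h5 : ∀ y, fg2_chi (FreeGroup.lift f (g0 y)) = fg2_chi (FreeGroup.of y) ∨
      fg2_chi (FreeGroup.lift f (g0 y)) = fg2_chi (FreeGroup.of y) * .r 2 := by
    intro y
    have h6 := fg2_chi_ncl _ (h2 y)
    rw [map_mul, map_inv, inv_mul_eq_iff_eq_mul, inv_mul_eq_iff_eq_mul, mul_one] at h6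
    exact h6
  rw [fg2_surfRel] at h4
  simp only [map_mul, map_inv] at h4
  have e1 : fg2_chi (FreeGroup.of (0, false)) = .r 1 := by simp [fg2_chi]
  have e2 : fg2_chi (FreeGroup.of (0, true)) = .sr 0 := by simp [fg2_chi]
  have e3 : fg2_chi (FreeGroup.of (1, false)) = 1 := by simp [fg2_chi]
  have e4 : fg2_chi (FreeGroup.of (1, true)) = 1 := by simp [fg2_chi]
  rcases h5 (0, false) with k1 | k1 <;> rcases h5 (0, true) with k2 | k2 <;>
    rcases h5 (1, false) with k3 | k3 <;> rcases h5 (1, true) with k4 | k4 <;>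
    rw [k1, k2, k3, k4, e1, e2, e3, e4] at h4 <;> exact absurd h4 (by decide)

theorem fg_mulAut_surface_two : Group.FG (MulAut (SurfaceGroup 2)) := by
  have : Nonempty (Fin 2 × Bool) := ⟨(0, false)⟩
  have hR := goodQ_surfWord 2
  have hx := fgMain_marking 2
  have hcomp : ∀ (φ : MulAut (SurfaceGroup 2)) (f0 : Fin 2 × Bool → FreeGroup (Fin 2 × Bool)),
      (∀ y, FreeGroup.lift (PresentedGroup.of : Fin 2 × Bool → SurfaceGroup 2) (f0 y) =
        φ (PresentedGroup.of y)) → ∀ w,
      FreeGroup.lift (PresentedGroup.of : Fin 2 × Bool → SurfaceGroup 2)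
        (FreeGroup.lift f0 w) = φ (FreeGroup.lift PresentedGroup.of w) := by
    intro φ f0 hf0 w
    have h : (FreeGroup.lift (PresentedGroup.of : Fin 2 × Bool → SurfaceGroup 2)).comp
        (FreeGroup.lift f0) = φ.toMonoidHom.comp (FreeGroup.lift PresentedGroup.of) := by
      ext y
      simp [hf0]
    exact DFunLike.congr_fun h w
  have hmem : ∀ (φ : MulAut (SurfaceGroup 2)) (f0 : Fin 2 × Bool → FreeGroup (Fin 2 × Bool)),
      (∀ y, FreeGroup.lift (PresentedGroup.of : Fin 2 × Bool → SurfaceGroup 2) (f0 y) =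
        φ (PresentedGroup.of y)) → FreeGroup.lift f0 (FreeGroup.mk (surfWord 2)) ∈
      Subgroup.normalClosure {FreeGroup.mk (surfWord 2)} := by
    intro φ f0 hf0
    have h1 : FreeGroup.mk (surfWord 2) ∈
        (FreeGroup.lift (PresentedGroup.of : Fin 2 × Bool → SurfaceGroup 2)).ker := by
      rw [hx.2]
      exact Subgroup.subset_normalClosure rfl
    rw [← hx.2, MonoidHom.mem_ker, hcomp φ f0 hf0, MonoidHom.mem_ker.1 h1, map_one]
  refine fg_of_lifts hR hx fun φ => ?_
  choose f0 hf0 using fun y => hx.1 (φ (PresentedGroup.of y))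
  choose g0 hg0 using fun y => hx.1 (φ⁻¹ (PresentedGroup.of y))
  have hne : ∀ y, f0 y ≠ 1 := by
    intro y hy
    have h1 := hf0 y
    rw [hy, map_one] at h1
    exact (hx.comp φ).ne_one hR y h1.symm
  obtain ⟨f, h1, h2⟩ := exists_short_lift2 hR
    (by rw [Fintype.card_prod, Fintype.card_fin, Fintype.card_bool]) f0 hne (hmem φ f0 hf0)
  have hf : ∀ y, FreeGroup.lift (PresentedGroup.of : Fin 2 × Bool → SurfaceGroup 2) (f y) =
      φ (PresentedGroup.of y) := by
    intro y
    have h3 := h2 y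
    rw [← hx.2, MonoidHom.mem_ker, map_mul, map_inv, hf0, inv_mul_eq_one] at h3
    exact h3.symm
  refine ⟨f, h1.resolve_right (fg2_not_two f g0 ?_ fun y => ?_), hf⟩
  · have h3 := hmem φ⁻¹ g0 hg0
    rwa [mk_surfWord] at h3
  · rw [← mk_surfWord, ← hx.2, MonoidHom.mem_ker, map_mul, map_inv, hcomp φ f hf, hg0]
    simp

end Pool.Agent.Lib.MP_66609f_al
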