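import Pool.Agent.Lib.MP_66609f_al.Mach
import Pool.Agent.Lib.MP_66609f_al.MachEq

namespace Pool.Agent.Lib.MP_66609f_al

/-- Lamp change of an edge in a coordinate. -/
def machRun_a : Bool → Ed → ℤ
  | false, .aa => -1 | false, .bb => 1 | false, .cc => -1 | false, .da => 1
  | false, .q1 => 1 | false, .q2 => 2
  | true, .aa => 2 | true, .bb => -1
  | _, _ => 0

/-- Position change of an edge in a coordinate. -/
def machRun_b : Bool → Ed → ℤ
  | false, .ab => 1 | false, .dd => -1
  | true, .ba => 1 | true, .bc => 1 | true, .dd => -1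
  | _, _ => 0

/-- One step on configurations. -/
def machRun_mv (a b : ℤ) (σ : (ℤ → ℤ) × ℤ) : (ℤ → ℤ) × ℤ :=
  (fun q => if q = σ.2 then σ.1 q + a else σ.1 q, σ.2 + b)

theorem machRun_mv_lamp (a a' b : ℤ) (σ : (ℤ → ℤ) × ℤ) :
    machRun_mv a b (machRun_mv a' 0 σ) = machRun_mv (a' + a) b σ := by
  refine Prod.ext (funext fun q => ?_) (by simp [machRun_mv])
  simp only [machRun_mv, add_zero]
  split_ifs <;> ring

theorem machRun_mv_shift (b b' : ℤ) (σ : (ℤ → ℤ) × ℤ) :
    machRun_mv 0 b (machRun_mv 0 b' σ) = machRun_mv 0 (b' + b) σ := by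
  refine Prod.ext (funext fun q => ?_) (by simp [machRun_mv, add_assoc])
  simp [machRun_mv]

theorem machRun_mv_zero (σ : (ℤ → ℤ) × ℤ) : machRun_mv 0 0 σ = σ := by
  refine Prod.ext (funext fun q => ?_) (by simp [machRun_mv])
  simp [machRun_mv]

def machRun_L : Equiv.Perm ((ℤ → ℤ) × ℤ) where
  toFun := machRun_mv (-1) 0
  invFun := machRun_mv 1 0
  left_inv σ := by rw [machRun_mv_lamp]; exact machRun_mv_zero σ
  right_inv σ := by rw [machRun_mv_lamp]; exact machRun_mv_zero σ

def machRun_S : Equiv.Perm ((ℤ → ℤ) × ℤ) where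
  toFun := machRun_mv 0 (-1)
  invFun := machRun_mv 0 1
  left_inv σ := by rw [machRun_mv_shift]; exact machRun_mv_zero σ
  right_inv σ := by rw [machRun_mv_shift]; exact machRun_mv_zero σ

def machRun_g : Bool → Gen → Equiv.Perm ((ℤ → ℤ) × ℤ)
  | false, .x => machRun_L | false, .t => machRun_S
  | true, .y => machRun_L | true, .u => machRun_S
  | _, _ => 1

def machRun_phi (c : Bool) : FreeGroup Gen →* Equiv.Perm ((ℤ → ℤ) × ℤ) :=
  FreeGroup.lift (machRun_g c)

theorem machRun_phi_pr (c : Bool) (w : FreeGroup Gen) :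
    machRun_phi c (pr c w) = machRun_phi c w := by
  have : (machRun_phi c).comp (pr c) = machRun_phi c := by
    refine FreeGroup.ext_hom _ _ fun m => ?_
    cases c <;> cases m <;> simp [machRun_phi, pr, Gen.crd, machRun_g]
  exact DFunLike.congr_fun this w

theorem machRun_L_apply (σ : (ℤ → ℤ) × ℤ) : machRun_L σ = machRun_mv (-1) 0 σ := rfl
theorem machRun_L_inv (σ : (ℤ → ℤ) × ℤ) : machRun_L⁻¹ σ = machRun_mv 1 0 σ := rfl
theorem machRun_S_apply (σ : (ℤ → ℤ) × ℤ) : machRun_S σ = machRun_mv 0 (-1) σ := rfl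
theorem machRun_S_inv (σ : (ℤ → ℤ) × ℤ) : machRun_S⁻¹ σ = machRun_mv 0 1 σ := rfl

theorem machRun_step (c : Bool) (e : Ed) (σ : (ℤ → ℤ) × ℤ) :
    (machRun_phi c e.lab)⁻¹ σ = machRun_mv (machRun_a c e) (machRun_b c e) σ := by
  cases c <;> cases e <;>
    simp only [machRun_phi, Ed.lab, map_mul, map_inv, map_one, FreeGroup.lift_apply_of,
      machRun_g, machRun_a, machRun_b, mul_inv_rev, inv_inv, inv_one, mul_one, one_mul,
      Equiv.Perm.mul_apply, Equiv.Perm.one_apply, machRun_L_apply, machRun_L_inv,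
      machRun_S_apply, machRun_S_inv, machRun_mv_lamp, machRun_mv_zero] <;> rfl

/-- Running a list of edges. -/
def machRun_run (c : Bool) : List Ed → (ℤ → ℤ) × ℤ → (ℤ → ℤ) × ℤ
  | [], σ => σ
  | e :: l, σ => machRun_run c l (machRun_mv (machRun_a c e) (machRun_b c e) σ)

theorem machRun_run_eq (c : Bool) (l : List Ed) (σ : (ℤ → ℤ) × ℤ) :
    (machRun_phi c (labProd l))⁻¹ σ = machRun_run c l σ := by
  induction l generalizing σ with
  | nil => simp [labProd, machRun_run]
  | cons e l ih =>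
    have : labProd (e :: l) = e.lab * labProd l := by simp [labProd]
    rw [this, map_mul, mul_inv_rev, Equiv.Perm.mul_apply, machRun_step, ih, machRun_run]

theorem machRun_fix {c : Bool} {l : List Ed} (h : pr c (labProd l) = 1) (σ : (ℤ → ℤ) × ℤ) :
    machRun_run c l σ = σ := by
  rw [← machRun_run_eq, ← machRun_phi_pr, h, map_one, inv_one, Equiv.Perm.one_apply]

/-- Exponent sums of `x` and `t`. -/
def machRun_ab : FreeGroup Gen →* Multiplicative (ℤ × ℤ) :=
  FreeGroup.lift fun m => match m with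
    | .x => Multiplicative.ofAdd (1, 0)
    | .t => Multiplicative.ofAdd (0, 1)
    | _ => 1

theorem machRun_ab_pr (w : FreeGroup Gen) : machRun_ab (pr false w) = machRun_ab w := by
  have : machRun_ab.comp (pr false) = machRun_ab := by
    refine FreeGroup.ext_hom _ _ fun m => ?_
    cases m <;> simp [machRun_ab, pr, Gen.crd]
  exact DFunLike.congr_fun this w

def machRun_X (l : List Ed) : ℤ := (l.map (machRun_a false)).sum
def machRun_T (l : List Ed) : ℤ := (l.map (machRun_b false)).sum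

theorem machRun_ab_lab (l : List Ed) :
    machRun_ab (labProd l) = Multiplicative.ofAdd (machRun_X l, machRun_T l) := by
  induction l with
  | nil => simp [labProd, machRun_X, machRun_T, Prod.mk_zero_zero]
  | cons e l ih =>
    have h1 : labProd (e :: l) = e.lab * labProd l := by simp [labProd]
    have h2 : machRun_ab e.lab = Multiplicative.ofAdd (machRun_a false e, machRun_b false e) := by
      cases e <;>
        simp only [machRun_ab, Ed.lab, map_mul, map_inv, map_one, FreeGroup.lift_apply_of,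
          machRun_a, machRun_b] <;> rfl
    rw [h1, map_mul, ih, h2, ← ofAdd_add]
    simp [machRun_X, machRun_T]

theorem machRun_pen_cons (e : Ed) (l : List Ed) : penSum (e :: l) = e.pen + penSum l := by
  simp [penSum]

theorem machRun_zero (l : List Ed) : ∀ (s s' : St), IsPath s l s' → penSum l = 0 →
    (s = .Q → s' = .Q ∧ (l.length : ℤ) ≤ machRun_X l) ∧
    (s = .D → s' = .D ∧ machRun_T l = -l.length) ∧
    (s = .C → s' = .D ∨ (s' = .C ∧ machRun_X l = -l.length)) ∧
    (s = .A → s' = .C ∨ s' = .D ∨ ((s' = .A ∨ s' = .B) ∧ 0 ≤ machRun_T l ∧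
      (machRun_T l = 0 → s' = .A ∧ machRun_X l = -l.length))) ∧
    (s = .B → s' = .C ∨ s' = .D ∨ ((s' = .A ∨ s' = .B) ∧ 0 ≤ machRun_T l ∧
      (machRun_T l = 0 → s' = .A ∨ machRun_X l = l.length))) := by
  induction l with
  | nil =>
    intro s s' h _
    obtain rfl : s = s' := h
    cases s <;> simp [machRun_X, machRun_T]
  | cons e l ih =>
    intro s s' h hp
    obtain ⟨rfl, h⟩ := h
    rw [machRun_pen_cons] at hp
    have hX : machRun_X (e :: l) = machRun_a false e + machRun_X l := by simp [machRun_X]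
    have hT : machRun_T (e :: l) = machRun_b false e + machRun_T l := by simp [machRun_T]
    have := ih _ _ h (by omega)
    rw [hX, hT, List.length_cons]
    cases e <;> cases s' <;>
      simp [Ed.src, Ed.tgt, Ed.pen, machRun_a, machRun_b] at this hp ⊢ <;> omega

theorem loop_pen_zero (s : St) (l : List Ed) (h : IsPath s l s) (hl : l ≠ [])
    (hp : penSum l = 0) : pr false (labProd l) ≠ 1 := by
  intro e
  have h1 := machRun_ab_pr (labProd l)
  rw [e, map_one, machRun_ab_lab, ← ofAdd_zero, Multiplicative.ofAdd.apply_eq_iff_eq,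
    Prod.ext_iff] at h1
  obtain ⟨hX, hT⟩ := h1
  have h2 := machRun_zero l s s h hp
  have h3 : 0 < l.length := List.length_pos_iff.2 hl
  simp only [Prod.fst_zero, Prod.snd_zero] at hX hT
  rw [← hX, ← hT] at h2
  cases s <;> simp at h2 <;> first | omega | exact hl h2

theorem machRun_main (l : List Ed) : ∀ (s : St) (f g : ℤ → ℤ) (p r : ℤ), IsPath s l .D →
    penSum l = 0 → machRun_run false l (f, p) = (0, 0) → machRun_run true l (g, r) = (0, 0) →
    (s = .D → (∀ q, f q = 0) ∧ (∀ q, g q = 0) ∧ p = l.length) ∧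
    (s = .C → (∀ q, q ≠ p → f q = 0) ∧ (∀ q, g q = 0) ∧ (l.length : ℤ) = f p + 1 + p) ∧
    (s = .A → (∀ q < p, f q = 0) ∧ (∀ q < r, g q = 0) ∧
      ((∀ q, p < q → f q = 0) → (∀ q, r < q → g q = 0) → ∃ j : ℕ, (l.length : ℤ) =
        f p + (4 * 2 ^ j - 2) * (g r + 2 * f p) + 3 * j + 4 + p)) ∧
    (s = .B → (∀ q < p, f q = 0) ∧ (∀ q < r, g q = 0) ∧
      ((∀ q, p < q → f q = 0) → (∀ q, r < q → g q = 0) → ∃ j : ℕ, (l.length : ℤ) =
        g r + (4 * 2 ^ j - 3) * (f p + g r) + 3 * j + 2 + p)) := by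
  induction l with
  | nil =>
    intro s f g p r h _ h1 h2
    obtain rfl : s = .D := h
    simp only [machRun_run, Prod.mk.injEq] at h1 h2
    simp [h1.1, h1.2, h2.1]
  | cons e l ih =>
    intro s f g p r h hp h1 h2
    obtain ⟨rfl, h⟩ := h
    rw [machRun_pen_cons] at hp
    obtain ⟨iD, iC, iA, iB⟩ := ih _ _ _ _ _ h (by omega) h1 h2
    rw [List.length_cons]
    push_cast
    cases e <;>
      simp only [Ed.src, Ed.tgt, Ed.pen, machRun_a, machRun_b, reduceCtorEq, false_imp_iff,
        true_and, and_true, forall_const, add_zero, ite_self, if_true] at iD iC iA iB hp ⊢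
    · obtain ⟨a1, a2, a3⟩ := iA
      refine ⟨fun q hq => by simpa [hq.ne] using a1 q hq, fun q hq => by simpa [hq.ne] using a2 q hq,
        fun b1 b2 => ?_⟩
      obtain ⟨j, hj⟩ := a3 (fun q hq => by rw [if_neg hq.ne']; exact b1 q hq)
        (fun q hq => by rw [if_neg hq.ne']; exact b2 q hq)
      exact ⟨j, by rw [hj]; ring⟩
    · obtain ⟨a1, a2, a3⟩ := iB
      refine ⟨fun q hq => a1 q (by omega), a2, fun b1 b2 => ?_⟩
      obtain ⟨j, hj⟩ := a3 (fun q hq => b1 q (by omega)) b2
      exact ⟨j, by rw [hj, a1 p (by omega), b1 (p + 1) (by omega)]; ring⟩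
    · obtain ⟨a1, a2, a3⟩ := iB
      refine ⟨fun q hq => by simpa [hq.ne] using a1 q hq, fun q hq => by simpa [hq.ne] using a2 q hq,
        fun b1 b2 => ?_⟩
      obtain ⟨j, hj⟩ := a3 (fun q hq => by rw [if_neg hq.ne']; exact b1 q hq)
        (fun q hq => by rw [if_neg hq.ne']; exact b2 q hq)
      exact ⟨j, by rw [hj]; ring⟩
    · obtain ⟨a1, a2, a3⟩ := iA
      refine ⟨a1, fun q hq => a2 q (by omega), fun b1 b2 => ?_⟩
      obtain ⟨j, hj⟩ := a3 b1 (fun q hq => b2 q (by omega))
      exact ⟨j + 1, by rw [hj, a2 r (by omega), b2 (r + 1) (by omega)]; push_cast; ring⟩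
    · obtain ⟨a1, a2, a3⟩ := iC
      refine ⟨fun q hq => a1 q hq.ne, fun q _ => a2 q, fun _ _ => ⟨0, ?_⟩⟩
      rw [a3, a2 r]; push_cast; ring
    · obtain ⟨a1, a2, a3⟩ := iC
      exact ⟨fun q hq => by simpa [hq] using a1 q hq, a2, by rw [a3]; ring⟩
    · obtain ⟨a1, a2, a3⟩ := iD
      exact ⟨fun q _ => a1 q, a2, by rw [a1 p, a3]; ring⟩
    · obtain ⟨a1, a2, a3⟩ := iD
      exact ⟨a1, a2, by omega⟩
    all_goals omega

theorem machRun_path_append {l l' : List Ed} {s s' : St} :
    IsPath s (l ++ l') s' ↔ ∃ m, IsPath s l m ∧ IsPath m l' s' := by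
  induction l generalizing s with
  | nil => simp [IsPath]
  | cons e l ih =>
    simp only [List.cons_append, IsPath, ih]
    exact ⟨fun ⟨a, m, b, c⟩ => ⟨m, ⟨a, b⟩, c⟩, fun ⟨m, ⟨a, b⟩, c⟩ => ⟨a, m, b, c⟩⟩

theorem machRun_split (l : List Ed) (hp : penSum l = 1) :
    ∃ l1 e l2, l = l1 ++ e :: l2 ∧ e.pen = 1 ∧ penSum l1 = 0 ∧ penSum l2 = 0 := by
  induction l with
  | nil => simp [penSum] at hp
  | cons e l ih =>
    rw [machRun_pen_cons] at hp
    by_cases h : e.pen = 0
    · obtain ⟨l1, e', l2, rfl, a, b, c⟩ := ih (by omega)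
      exact ⟨e :: l1, e', l2, rfl, a, by rw [machRun_pen_cons]; omega, c⟩
    · exact ⟨[], e, l, rfl, by omega, rfl, by omega⟩

theorem machRun_rot {c : Bool} {l1 l2 : List Ed} (h : pr c (labProd (l1 ++ l2)) = 1) :
    pr c (labProd (l2 ++ l1)) = 1 := by
  have e : ∀ a b : List Ed, labProd (a ++ b) = labProd a * labProd b := fun a b => by
    simp [labProd]
  rw [e, map_mul] at h ⊢
  exact mul_eq_one_comm.1 h

theorem loop_pen_one (s : St) (l : List Ed) (h : IsPath s l s) (hp : penSum l = 1)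
    (h1 : pr false (labProd l) = 1) (h2 : pr true (labProd l) = 1) : l.length ∈ lenE := by
  obtain ⟨l1, e, l2, rfl, a, b, c⟩ := machRun_split l hp
  obtain ⟨m, p1, rfl, p2⟩ := machRun_path_append.1 h
  have hpath : IsPath e.tgt (l2 ++ l1) e.src := machRun_path_append.2 ⟨s, p2, p1⟩
  have hpen : penSum (l2 ++ l1) = 0 := by
    simp only [penSum, List.map_append, List.sum_append] at b c ⊢
    omega
  have hz := machRun_zero _ _ _ hpath hpen
  have r1 := machRun_fix (machRun_rot h1) (0, 0)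
  have r2 := machRun_fix (machRun_rot h2) (0, 0)
  rw [List.cons_append, machRun_run] at r1 r2
  cases e <;> simp [Ed.pen, Ed.src, Ed.tgt] at a hz
  obtain ⟨-, -, h3⟩ := (machRun_main _ _ _ _ _ _ hpath hpen r1 r2).2.2.1 rfl
  simp only [machRun_a, machRun_b, add_zero, ite_self, if_true, Pi.zero_apply, zero_add] at h3
  obtain ⟨j, hj⟩ := h3 (fun q hq => if_neg hq.ne') (fun _ _ => trivial)
  refine ⟨j + 1, by omega, ?_⟩
  rw [List.length_append] at hj
  rw [List.length_append, List.length_cons]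
  zify at hj ⊢
  rw [pow_succ]
  linarith

end Pool.Agent.Lib.MP_66609f_al
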