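import Pool.Agent.Lib.MP_66609f_al.MachLoop
import Pool.Agent.Lib.MP_66609f_al.MachRun

namespace Pool.Agent.Lib.MP_66609f_al

theorem machMain_penSum_append (l l' : List Ed) : penSum (l ++ l') = penSum l + penSum l' := by
  simp [penSum]

theorem machMain_valProd_append (l l' : List Ed) : valProd (l ++ l') = valProd l * valProd l' := by
  simp [valProd]

theorem machMain_labProd_append (l l' : List Ed) : labProd (l ++ l') = labProd l * labProd l' := by
  simp [labProd]

theorem machMain_penSum_rep (k : ℕ) (e : Ed) : penSum (List.replicate k e) = k * e.pen := by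
  simp [penSum]

theorem machMain_labProd_rep (k : ℕ) (e : Ed) : labProd (List.replicate k e) = e.lab ^ k := by
  simp [labProd]

theorem machMain_penSum_one (e : Ed) : penSum [e] = e.pen := by
  simp [penSum]

theorem machMain_labProd_one (e : Ed) : labProd [e] = e.lab := by
  simp [labProd]

theorem machMain_isPath_append {l l' : List Ed} {s s' s'' : St} (h : IsPath s l s')
    (h' : IsPath s' l' s'') : IsPath s (l ++ l') s'' := by
  induction l generalizing s with
  | nil =>
    have h1 : s = s' := h
    subst h1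
    exact h'
  | cons e l ih => exact ⟨h.1, ih h.2⟩

theorem machMain_isPath_rep (k : ℕ) (e : Ed) (s : St) (h : e.src = s) (h' : e.tgt = s) :
    IsPath s (List.replicate k e) s := by
  induction k with
  | zero => rfl
  | succ k ih => exact ⟨h, by rw [h']; exact ih⟩

theorem machMain_isPath_one (e : Ed) : IsPath e.src [e] e.tgt := ⟨rfl, rfl⟩

theorem machMain_pen_pos (l : List Ed) (hl : l ≠ []) (h : pr false (valProd l) = 1) :
    1 ≤ penSum l := by
  obtain ⟨l1, l2, l3, s, rfl, h2, h3, h4⟩ := exists_loop l hl h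
  have h5 : penSum l2 ≠ 0 := fun h0 => loop_pen_zero s l2 h3 h2 h0 h4
  rw [machMain_penSum_append, machMain_penSum_append]
  omega

/-- One epoch, from `A` to `B`. -/
def machMain_ep (e : ℕ) : List Ed :=
  List.replicate (2 ^ e) Ed.aa ++ [Ed.ab] ++ List.replicate (2 ^ (e + 1)) Ed.bb

/-- The first `e + 1` epochs, from `D` to `B`. -/
def machMain_run : ℕ → List Ed
  | 0 => [Ed.da] ++ machMain_ep 0
  | e + 1 => machMain_run e ++ [Ed.ba] ++ machMain_ep (e + 1)

theorem machMain_ep_path (e : ℕ) : IsPath .A (machMain_ep e) .B :=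
  machMain_isPath_append (machMain_isPath_append (machMain_isPath_rep _ _ _ rfl rfl)
    (machMain_isPath_one .ab)) (machMain_isPath_rep _ _ _ rfl rfl)

theorem machMain_run_path (e : ℕ) : IsPath .D (machMain_run e) .B := by
  induction e with
  | zero => exact machMain_isPath_append (machMain_isPath_one .da) (machMain_ep_path 0)
  | succ e ih =>
    exact machMain_isPath_append (machMain_isPath_append ih (machMain_isPath_one .ba))
      (machMain_ep_path _)

theorem machMain_ep_pen (e : ℕ) : penSum (machMain_ep e) = 0 := by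
  simp [machMain_ep, penSum, Ed.pen]

theorem machMain_run_pen (e : ℕ) : penSum (machMain_run e) = 1 := by
  induction e with
  | zero => rw [machMain_run, machMain_penSum_append, machMain_ep_pen]; rfl
  | succ e ih =>
    rw [machMain_run, machMain_penSum_append, machMain_penSum_append, machMain_ep_pen, ih]; rfl

theorem machMain_ep_len (e : ℕ) : (machMain_ep e).length = 3 * 2 ^ e + 1 := by
  simp only [machMain_ep, List.length_append, List.length_replicate, List.length_singleton, pow_succ]
  omega

theorem machMain_run_len (e : ℕ) : (machMain_run e).length + 1 = 3 * 2 ^ (e + 1) + 2 * e := by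
  induction e with
  | zero => rw [machMain_run, List.length_append, machMain_ep_len]; rfl
  | succ e ih =>
    rw [machMain_run, List.length_append, List.length_append, machMain_ep_len,
      List.length_singleton, pow_succ 2 (e + 1)]
    omega

theorem machMain_ep_lab {H : Type*} [Group H] (f : Gen → H) (hxy : Commute (f .x) (f .y))
    (hyt : Commute (f .y) (f .t)) (e : ℕ) :
    FreeGroup.lift f (labProd (machMain_ep e)) =
      (f .x ^ 2 ^ e)⁻¹ * f .t * f .x ^ 2 ^ (e + 1) := by
  have h1 : ((f .x)⁻¹ * f .y * f .y) ^ 2 ^ e = (f .x ^ 2 ^ e)⁻¹ * f .y ^ 2 ^ (e + 1) := by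
    rw [mul_assoc, (hxy.inv_left.mul_right hxy.inv_left).mul_pow, inv_pow, ← sq, ← pow_mul,
      pow_succ' 2 e]
  have h2 : (f .x * (f .y)⁻¹) ^ 2 ^ (e + 1) = (f .y ^ 2 ^ (e + 1))⁻¹ * f .x ^ 2 ^ (e + 1) := by
    rw [hxy.inv_right.eq, hxy.symm.inv_left.mul_pow, inv_pow]
  rw [machMain_ep, machMain_labProd_append, machMain_labProd_append, machMain_labProd_rep,
    machMain_labProd_rep, machMain_labProd_one]
  simp only [Ed.lab, map_mul, map_pow, map_inv, FreeGroup.lift_apply_of]
  rw [h1, h2, mul_assoc (f .x ^ 2 ^ e)⁻¹, (hyt.pow_left _).eq]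
  group

theorem machMain_run_lab {H : Type*} [Group H] (f : Gen → H) (hxy : Commute (f .x) (f .y))
    (hxu : Commute (f .x) (f .u)) (hyt : Commute (f .y) (f .t)) (e : ℕ) :
    FreeGroup.lift f (labProd (machMain_run e)) * f .u =
      (f .t * f .u) ^ (e + 1) * f .x ^ 2 ^ (e + 1) := by
  induction e with
  | zero =>
    rw [machMain_run, machMain_labProd_append, map_mul, machMain_ep_lab f hxy hyt,
      machMain_labProd_one, mul_assoc, mul_assoc, (hxu.pow_left _).eq]
    simp [Ed.lab, mul_assoc]
  | succ e ih =>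
    rw [machMain_run, machMain_labProd_append, machMain_labProd_append, map_mul, map_mul,
      machMain_ep_lab f hxy hyt, machMain_labProd_one]
    simp only [Ed.lab, FreeGroup.lift_apply_of]
    rw [ih, mul_assoc, mul_assoc, mul_assoc, (hxu.pow_left _).eq, pow_succ (f .t * f .u) (e + 1)]
    simp [mul_assoc]

/-- The padding path from `C` to `Q`. -/
def machMain_pad (b1 b2 : ℕ) : List Ed :=
  List.replicate (b1 + 2 * b2) Ed.cc ++ [Ed.cq] ++ List.replicate b2 Ed.q2 ++
    List.replicate b1 Ed.q1

theorem machMain_pad_path (b1 b2 : ℕ) : IsPath .C (machMain_pad b1 b2) .Q :=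
  machMain_isPath_append (machMain_isPath_append (machMain_isPath_append
    (machMain_isPath_rep _ _ _ rfl rfl) (machMain_isPath_one .cq))
    (machMain_isPath_rep _ _ _ rfl rfl)) (machMain_isPath_rep _ _ _ rfl rfl)

theorem machMain_pad_pen (b1 b2 : ℕ) : penSum (machMain_pad b1 b2) = 1 := by
  simp [machMain_pad, penSum, Ed.pen]

theorem machMain_pad_len (b1 b2 : ℕ) : (machMain_pad b1 b2).length = 2 * b1 + 3 * b2 + 1 := by
  simp only [machMain_pad, List.length_append, List.length_replicate, List.length_singleton]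
  omega

theorem machMain_pad_lab (b1 b2 : ℕ) : labProd (machMain_pad b1 b2) = 1 := by
  rw [machMain_pad, machMain_labProd_append, machMain_labProd_append, machMain_labProd_append,
    machMain_labProd_rep, machMain_labProd_rep, machMain_labProd_rep, machMain_labProd_one]
  simp only [Ed.lab]
  rw [← sq, ← pow_mul, mul_one, mul_assoc, ← pow_add, inv_pow, add_comm, inv_mul_cancel]

theorem machMain_two_three (m : ℕ) (hm : 2 ≤ m) : ∃ b1 b2, 2 * b1 + 3 * b2 = m :=
  ⟨(m - 3 * (m % 2)) / 2, m % 2, by omega⟩

theorem closed_analysis (l : List Ed) (hl : l ≠ []) (h : Closed (valProd l)) :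
    1 ≤ penSum l ∧ (penSum l = 1 → l.length ∈ lenE) := by
  refine ⟨machMain_pen_pos l hl h.1, fun hp => ?_⟩
  obtain ⟨l1, l2, l3, s, rfl, h2, h3, h4⟩ := exists_loop l hl h.1
  have h5 : penSum l2 ≠ 0 := fun h0 => loop_pen_zero s l2 h3 h2 h0 h4
  rw [machMain_penSum_append, machMain_penSum_append] at hp
  have h6 : pr false (valProd l2) = 1 := by
    rw [valProd_of_isPath s s l2 h3, map_mul, map_mul, h4, map_inv, mul_one, inv_mul_cancel]
  have h7 : pr false (valProd (l1 ++ l3)) = 1 := by
    have h8 := h.1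
    rw [machMain_valProd_append, machMain_valProd_append, map_mul, map_mul, h6, mul_one] at h8
    rw [machMain_valProd_append, map_mul, h8]
  have h9 : l1 ++ l3 = [] := by
    by_contra hne
    have h10 := machMain_pen_pos _ hne h7
    rw [machMain_penSum_append] at h10
    omega
  obtain ⟨rfl, rfl⟩ := List.append_eq_nil_iff.1 h9
  rw [List.nil_append, List.append_nil] at h ⊢
  refine loop_pen_one s l2 h3 (by omega) h4 ?_
  have h11 := h.2
  have h12 : pr true (FreeGroup.of (.gs s)) = 1 := by
    simp [pr, Gen.crd]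
  rwa [valProd_of_isPath s s l2 h3, map_mul, map_mul, map_inv, h12, inv_one, one_mul,
    mul_one] at h11

theorem exists_E {H : Type*} [Group H] (f : Gen → H) (hxy : Commute (f .x) (f .y))
    (hxu : Commute (f .x) (f .u)) (hyt : Commute (f .y) (f .t)) (n : ℕ) (hn : n ∈ lenE) :
    ∃ l : List Ed, l.length = n ∧ penSum l = 1 ∧ FreeGroup.lift f (valProd l) = 1 := by
  obtain ⟨k, hk, hn⟩ := hn
  obtain ⟨e, rfl⟩ : ∃ e, k = e + 1 := ⟨k - 1, by omega⟩
  refine ⟨machMain_run e ++ [Ed.bc] ++ List.replicate (2 ^ (e + 1)) Ed.cc ++ [Ed.cd] ++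
    List.replicate (e + 1) Ed.dd, ?_, ?_, ?_⟩
  · have h1 := machMain_run_len e
    simp only [List.length_append, List.length_replicate, List.length_singleton]
    omega
  · simp only [machMain_penSum_append, machMain_run_pen, machMain_penSum_rep, machMain_penSum_one,
      Ed.pen]
    omega
  · have h2 : IsPath .D (machMain_run e ++ [Ed.bc] ++ List.replicate (2 ^ (e + 1)) Ed.cc ++
        [Ed.cd] ++ List.replicate (e + 1) Ed.dd) .D :=
      machMain_isPath_append (machMain_isPath_append (machMain_isPath_append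
        (machMain_isPath_append (machMain_run_path e) (machMain_isPath_one .bc))
        (machMain_isPath_rep _ _ _ rfl rfl)) (machMain_isPath_one .cd))
        (machMain_isPath_rep _ _ _ rfl rfl)
    have h3 : FreeGroup.lift f (labProd (machMain_run e ++ [Ed.bc] ++
        List.replicate (2 ^ (e + 1)) Ed.cc ++ [Ed.cd] ++ List.replicate (e + 1) Ed.dd)) = 1 := by
      simp only [machMain_labProd_append, machMain_labProd_rep, machMain_labProd_one, Ed.lab,
        map_mul, map_pow, map_inv, map_one, FreeGroup.lift_apply_of]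
      rw [machMain_run_lab f hxy hxu hyt, ← mul_inv_rev, inv_pow, inv_pow, mul_one,
        mul_inv_cancel_right, mul_inv_cancel]
    rw [valProd_of_isPath _ _ _ h2, map_mul, map_mul, h3, map_inv, mul_one, inv_mul_cancel]

theorem exists_pad (n : ℕ) (hn : 4 ≤ n) :
    ∃ l : List Ed, l.length = n ∧ penSum l = 2 ∧ valProd l = 1 := by
  obtain ⟨b1, b2, hb⟩ := machMain_two_three (n - 2) (by omega)
  refine ⟨machMain_pad b1 b2 ++ [Ed.qc], ?_, ?_, ?_⟩
  · rw [List.length_append, machMain_pad_len, List.length_singleton]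
    omega
  · rw [machMain_penSum_append, machMain_pad_pen]
    rfl
  · rw [valProd_of_isPath _ _ _ (machMain_isPath_append (machMain_pad_path b1 b2)
      (machMain_isPath_one .qc)), machMain_labProd_append, machMain_pad_lab, machMain_labProd_one]
    simp [Ed.lab, Ed.tgt]

theorem exists_eta (n : ℕ) (hn : 3 ≤ n) :
    ∃ l : List Ed, l.length = n ∧ penSum l = 1 ∧ valProd l = eta := by
  obtain ⟨b1, b2, hb⟩ := machMain_two_three (n - 1) (by omega)
  refine ⟨machMain_pad b1 b2, ?_, machMain_pad_pen b1 b2, ?_⟩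
  · rw [machMain_pad_len]
    omega
  · rw [valProd_of_isPath _ _ _ (machMain_pad_path b1 b2), machMain_pad_lab, mul_one, eta]

theorem phiQ_val (e : Ed) (h : e.pen = 0) : phiQ e.val = 1 := by
  cases e <;> simp [Ed.pen] at h <;> simp [Ed.val, Ed.lab, Ed.src, Ed.tgt, phiQ]

theorem phiQ_eta : phiQ eta = Multiplicative.ofAdd 1 := by
  simp [eta, phiQ]

theorem phiQ_of_closed (w : FreeGroup Gen) (h : Closed w) : phiQ w = 1 := by
  have h1 : phiQ.comp (pr false) = phiQ := by
    ext m
    cases m <;> simp [phiQ, pr, Gen.crd]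
  rw [← h1, MonoidHom.comp_apply, h.1, map_one]

open Classical in
theorem not_evPer_of_lenE (c : ℕ → ZMod 4) (a : ZMod 4) (N : ℕ)
    (h : ∀ n, N ≤ n → c n = a + if n - 1 ∈ lenE then 2 else 0) : ¬ EvPer c := by
  rintro ⟨p, M, hp, hper⟩
  set k := p + N + M + 1 with hk
  have hk2 : k < 2 ^ k := Nat.lt_two_pow_self
  have h1 : 4 * 2 ^ k + 3 * k - 1 ∈ lenE := ⟨k, by omega, by omega⟩
  have h2 : 4 * 2 ^ k + 3 * k + p - 1 ∉ lenE := by
    rintro ⟨j, -, hj⟩
    rcases le_or_gt j k with hjk | hjk
    · have : 2 ^ j ≤ 2 ^ k := Nat.pow_le_pow_right (by norm_num) hjk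
      omega
    · have : 2 ^ (k + 1) ≤ 2 ^ j := Nat.pow_le_pow_right (by norm_num) hjk
      rw [pow_succ] at this
      omega
  have h3 := hper (4 * 2 ^ k + 3 * k) (by omega)
  rw [h _ (by omega), h _ (by omega), if_pos h1, if_neg h2] at h3
  have h4 : (0 : ZMod 4) = 2 := add_left_cancel h3
  exact absurd h4 (by decide)

end Pool.Agent.Lib.MP_66609f_al
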