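import Pool.Agent.Lib.MP_66609f_al.AbsBall
import Pool.Agent.Lib.MP_66609f_al.MachMain

namespace Pool.Agent.Lib.MP_66609f_al

theorem absLow_pen_le (e : Ed) : e.pen ≤ 1 := by
  cases e <;> simp [Ed.pen]

theorem absLow_penSum_le (l : List Ed) : penSum l ≤ l.length := by
  induction l with
  | nil => simp [penSum]
  | cons e l ih =>
    have h := absLow_pen_le e
    simp only [penSum, List.map_cons, List.sum_cons, List.length_cons] at ih ⊢
    omega

theorem absLow_split (v : ℕ) (hv : 1 ≤ v) (e : Ed) (l : List Ed) (J : ℕ)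
    (hJ : J + penSum (e :: l) ≤ (e :: l).length * v) :
    ∃ j J' : ℕ, J = j + J' ∧ j + e.pen ≤ v ∧ J' + penSum l ≤ l.length * v := by
  have h1 := absLow_pen_le e
  have h2 := absLow_penSum_le l
  have h3 : l.length ≤ l.length * v := Nat.le_mul_of_pos_right _ hv
  have h4 : penSum (e :: l) = e.pen + penSum l := by simp [penSum]
  have h5 : (e :: l).length * v = l.length * v + v := by
    simp [Nat.succ_mul]
  rw [h4, h5] at hJ
  by_cases h : J + e.pen ≤ v
  · exact ⟨J, 0, by omega, h, by omega⟩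
  · exact ⟨v - e.pen, J - (v - e.pen), by omega, by omega, by omega⟩

namespace Setup

variable {G : Type*} [Group G] {S : Setup G} (D : S.Data) (q v : ℕ)

theorem absLow_mach_mul (f : Bool) (w w' : FreeGroup Gen) :
    S.mach f (w * w') = S.mach f w * S.mach f w' := by
  simp [mach]

theorem absLow_mach_one (f : Bool) : S.mach f 1 = 1 := by
  simp [mach]

theorem absLow_mach_lift (f : Bool) (w : FreeGroup Gen) :
    FreeGroup.lift (fun m => S.mach f (FreeGroup.of m)) w = S.mach f w := by
  have h : FreeGroup.lift (fun m => S.mach f (FreeGroup.of m)) =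
      (S.ev.comp (fam (f, false))).comp realH := by
    ext m
    simp [mach]
  rw [h]
  rfl

theorem absLow_comm (f : Bool) (w : FreeGroup Gen) (k : ℤ) :
    S.mach f w * S.T ^ k = S.T ^ k * S.mach f w :=
  ((S.ev_comm_T _).zpow_left k).eq.symm

theorem absLow_comm_inv (f : Bool) (w : FreeGroup Gen) (k : ℤ) :
    (S.mach f w)⁻¹ * S.T ^ k = S.T ^ k * (S.mach f w)⁻¹ :=
  (((S.ev_comm_T _).zpow_left k).inv_right).eq.symm

theorem absLow_pos_word (hv : 1 ≤ v) (l : List Ed) (J : ℕ)
    (hJ : J + penSum l ≤ l.length * v) :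
    ∃ L : List (Let G), L.length = l.length ∧ (∀ a ∈ L, D.Valid q v a) ∧
      (L.map S.value).prod = S.T ^ (J : ℤ) * S.mach false (valProd l) := by
  induction l generalizing J with
  | nil =>
    have hJ0 : J = 0 := by simpa [penSum] using hJ
    subst hJ0
    exact ⟨[], rfl, by simp, by simp [valProd, absLow_mach_one]⟩
  | cons e l ih =>
    obtain ⟨j, J', rfl, hj, hJ'⟩ := absLow_split v hv e l J hJ
    obtain ⟨L, hL, hval, hprod⟩ := ih J' hJ'
    refine ⟨Let.one false false e j false :: L, by simp [hL], ?_, ?_⟩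
    · intro a ha
      rcases List.mem_cons.1 ha with rfl | ha
      · exact hj
      · exact hval a ha
    · have hv1 : valProd (e :: l) = e.val * valProd l := by simp [valProd]
      rw [List.map_cons, List.prod_cons, hprod, hv1, absLow_mach_mul]
      have hx : S.value (Let.one false false e j false) = S.T ^ (j : ℤ) * S.mach false e.val := by
        simp [value, rr']
      rw [hx, Nat.cast_add, zpow_add]
      calc S.T ^ (j : ℤ) * S.mach false e.val * (S.T ^ (J' : ℤ) * S.mach false (valProd l))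
          = S.T ^ (j : ℤ) * (S.mach false e.val * S.T ^ (J' : ℤ)) * S.mach false (valProd l) := by
            simp only [mul_assoc]
        _ = _ := by
            rw [absLow_comm]
            simp only [mul_assoc]

theorem absLow_neg_word (hv : 1 ≤ v) (l : List Ed) (J : ℕ)
    (hJ : J + penSum l ≤ l.length * v) :
    ∃ L : List (Let G), L.length = l.length ∧ (∀ a ∈ L, D.Valid q v a) ∧
      (L.map S.value).prod = S.T ^ (-(J : ℤ)) * (S.mach false (valProd l))⁻¹ := by
  induction l generalizing J with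
  | nil =>
    have hJ0 : J = 0 := by simpa [penSum] using hJ
    subst hJ0
    exact ⟨[], rfl, by simp, by simp [valProd, absLow_mach_one]⟩
  | cons e l ih =>
    obtain ⟨j, J', rfl, hj, hJ'⟩ := absLow_split v hv e l J hJ
    obtain ⟨L, hL, hval, hprod⟩ := ih J' hJ'
    refine ⟨L ++ [Let.one true false e j false], by simp [hL], ?_, ?_⟩
    · intro a ha
      rcases List.mem_append.1 ha with ha | ha
      · exact hval a ha
      · rw [List.mem_singleton] at ha
        subst ha
        exact hj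
    · have hv1 : valProd (e :: l) = e.val * valProd l := by simp [valProd]
      rw [List.map_append, List.prod_append, hprod, hv1, absLow_mach_mul]
      have hx : ([Let.one true false e j false].map S.value).prod =
          S.T ^ (-(j : ℤ)) * (S.mach false e.val)⁻¹ := by
        simp [value, rr']
      have hz : (-((j + J' : ℕ) : ℤ)) = -(J' : ℤ) + -(j : ℤ) := by
        push_cast
        ring
      rw [hx, hz, zpow_add, mul_inv_rev]
      calc S.T ^ (-(J' : ℤ)) * (S.mach false (valProd l))⁻¹ *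
            (S.T ^ (-(j : ℤ)) * (S.mach false e.val)⁻¹)
          = S.T ^ (-(J' : ℤ)) * ((S.mach false (valProd l))⁻¹ * S.T ^ (-(j : ℤ))) *
            (S.mach false e.val)⁻¹ := by
            simp only [mul_assoc]
        _ = _ := by
            rw [absLow_comm_inv]
            simp only [mul_assoc]

theorem absLow_snoc (n : ℕ) (hn : 1 ≤ n) (L : List (Let G)) (hL : L.length = n - 1)
    (hval : ∀ a ∈ L, D.Valid q v a) (a : Let G) (ha : D.Valid q v a) (x : G)
    (hx : (L.map S.value).prod * S.value a = x) : x ∈ ball (D.gens q v) n := by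
  rw [mem_ball_iff]
  refine ⟨L ++ [a], by simp [hL]; omega, ?_, by simpa using hx⟩
  intro b hb
  rcases List.mem_append.1 hb with hb | hb
  · exact hval b hb
  · rw [List.mem_singleton] at hb
    subst hb
    exact ha

theorem absLow_arith (hv : q + 3 ≤ v) (n : ℕ) (hn : 5 ≤ n) (p : ℕ) (hp : p ≤ 2) (k : ℤ)
    (h0 : 0 ≤ k) (hk : k ≤ (n : ℤ) * v - q - p) :
    ∃ J j : ℕ, k = (J : ℤ) + j ∧ J + p ≤ (n - 1) * v ∧ j + q ≤ v := by
  obtain ⟨m, rfl⟩ := Int.eq_ofNat_of_zero_le h0
  obtain ⟨n', rfl⟩ : ∃ n', n = n' + 1 := ⟨n - 1, by omega⟩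
  have h1 : m + q + p ≤ n' * v + v := by
    have : (m : ℤ) + q + p ≤ (n' : ℤ) * v + v := by
      push_cast at hk
      nlinarith
    exact_mod_cast this
  have h2 : v ≤ n' * v := Nat.le_mul_of_pos_left _ (by omega)
  simp only [Nat.add_sub_cancel]
  by_cases h : m + q ≤ v
  · exact ⟨0, m, by simp, by omega, h⟩
  · refine ⟨m - (v - q), v - q, ?_, by omega, by omega⟩
    have : m = m - (v - q) + (v - q) := by omega
    exact_mod_cast this

theorem low_R (hv : q + 3 ≤ v) (n : ℕ) (hn : 5 ≤ n) (g : G) (hg : g ∈ D.R) (k : ℤ)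
    (hk : |k| ≤ (n : ℤ) * v - q - 2) : S.T ^ k * g ∈ ball (D.gens q v) n := by
  obtain ⟨l, hl, hpen, hval⟩ := exists_pad (n - 1) (by omega)
  obtain ⟨J, j, hk', hJ, hj⟩ :=
    absLow_arith q v hv n hn 2 le_rfl |k| (abs_nonneg k) (by exact_mod_cast hk)
  rcases le_total 0 k with h0 | h0
  · rw [abs_of_nonneg h0] at hk'
    obtain ⟨L, hL, hLv, hprod⟩ :=
      absLow_pos_word D q v (by omega) l J (by rw [hpen, hl]; exact hJ)
    refine absLow_snoc D q v n (by omega) L (hL.trans hl) hLv (Let.two g j false)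
      ⟨hg, by simpa using hj⟩ _ ?_
    rw [hprod, hval, absLow_mach_one, hk', zpow_add]
    simp [value, rr', mul_assoc]
  · rw [abs_of_nonpos h0] at hk'
    obtain ⟨L, hL, hLv, hprod⟩ :=
      absLow_neg_word D q v (by omega) l J (by rw [hpen, hl]; exact hJ)
    refine absLow_snoc D q v n (by omega) L (hL.trans hl) hLv (Let.two g (-(j : ℤ)) false)
      ⟨hg, by simpa using hj⟩ _ ?_
    have hk2 : k = -(J : ℤ) + -(j : ℤ) := by omega
    rw [hprod, hval, absLow_mach_one, hk2, zpow_add]
    simp [value, rr', mul_assoc]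

theorem low_pos (hv : q + 3 ≤ v) (n : ℕ) (hn : 5 ≤ n) (k : ℤ) (h0 : 0 ≤ k)
    (hk : k ≤ (n : ℤ) * v - q - 2) : S.T ^ k * S.τ ∈ ball (D.gens q v) n := by
  obtain ⟨l, hl, hpen, hval⟩ := exists_pad (n - 1) (by omega)
  obtain ⟨J, j, hk', hJ, hj⟩ :=
    absLow_arith q v hv n hn 2 le_rfl k h0 (by exact_mod_cast hk)
  obtain ⟨L, hL, hLv, hprod⟩ :=
    absLow_pos_word D q v (by omega) l J (by rw [hpen, hl]; exact hJ)
  refine absLow_snoc D q v n (by omega) L (hL.trans hl) hLv (Let.three j false) hj _ ?_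
  rw [hprod, hval, absLow_mach_one, hk', zpow_add]
  simp [value, rr', mul_assoc]

theorem low_neg (hv : q + 3 ≤ v) (n : ℕ) (hn : 5 ≤ n) (k : ℤ) (h0 : 0 ≤ k)
    (hk : k ≤ (n : ℤ) * v - q - 1) : S.T ^ (-k) * S.τ ∈ ball (D.gens q v) n := by
  obtain ⟨l, hl, hpen, hval⟩ := exists_eta (n - 1) (by omega)
  obtain ⟨J, j, hk', hJ, hj⟩ :=
    absLow_arith q v hv n hn 1 (by omega) k h0 (by exact_mod_cast hk)
  obtain ⟨L, hL, hLv, hprod⟩ :=
    absLow_neg_word D q v (by omega) l J (by rw [hpen, hl]; exact hJ)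
  refine absLow_snoc D q v n (by omega) L (hL.trans hl) hLv (Let.four false false j false)
    hj _ ?_
  have hk2 : -k = -(J : ℤ) + -(j : ℤ) := by omega
  have hx : S.value (Let.four false false j false) =
      S.T ^ (-(j : ℤ)) * (S.mach false eta * S.τ) := by
    simp [value, rr']
  rw [hprod, hval, hk2, zpow_add, hx]
  calc S.T ^ (-(J : ℤ)) * (S.mach false eta)⁻¹ * (S.T ^ (-(j : ℤ)) * (S.mach false eta * S.τ))
      = S.T ^ (-(J : ℤ)) * ((S.mach false eta)⁻¹ * S.T ^ (-(j : ℤ))) *
          (S.mach false eta * S.τ) := by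
        simp only [mul_assoc]
    _ = _ := by
        rw [absLow_comm_inv]
        simp only [mul_assoc, inv_mul_cancel_left]

theorem low_E (hv : q + 3 ≤ v) (n : ℕ) (hn : 5 ≤ n) (hE : n - 1 ∈ lenE) :
    S.T ^ ((n : ℤ) * v - q - 1) * S.τ ∈ ball (D.gens q v) n := by
  obtain ⟨l, hl, hpen, hval⟩ := exists_E (fun m => S.mach false (FreeGroup.of m))
    (S.mach_xy false) (S.mach_xu false) (S.mach_yt false) (n - 1) hE
  rw [absLow_mach_lift] at hval
  have h0 : 0 ≤ (n : ℤ) * v - q - 1 := by
    have h1 : (q : ℤ) + 3 ≤ v := by exact_mod_cast hv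
    have h2 : (5 : ℤ) ≤ n := by exact_mod_cast hn
    have h3 : (0 : ℤ) ≤ q := by positivity
    nlinarith
  obtain ⟨J, j, hk', hJ, hj⟩ :=
    absLow_arith q v hv n hn 1 (by omega) _ h0 (by simp)
  obtain ⟨L, hL, hLv, hprod⟩ :=
    absLow_pos_word D q v (by omega) l J (by rw [hpen, hl]; exact hJ)
  refine absLow_snoc D q v n (by omega) L (hL.trans hl) hLv (Let.three j false) hj _ ?_
  rw [hprod, hval, hk', zpow_add]
  simp [value, rr', mul_assoc]

end Setup

end Pool.Agent.Lib.MP_66609f_al
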