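import Pool.Agent.Lib.MP_66609f_al.AbsBasic

namespace Pool.Agent.Lib.MP_66609f_al

namespace Setup

variable {G : Type*} [Group G] {S : Setup G} (D : S.Data)

/-- Left multiplication by `s` increases `Θ` by at most `K`. -/
def absShape_Bd (S : Setup G) (K : ℕ) (s : G) : Prop := ∀ g, S.Θ (s * g) ≤ S.Θ g + K

theorem absShape_Bd_mul {K K' : ℕ} {s s' : G} (h : absShape_Bd S K s) (h' : absShape_Bd S K' s') :
    absShape_Bd S (K + K') (s * s') := fun g => by
  have h1 := h (s' * g)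
  have h2 := h' g
  rw [mul_assoc]
  omega

theorem absShape_Bd_mono {K K' : ℕ} {s : G} (h : absShape_Bd S K s) (hK : K ≤ K') :
    absShape_Bd S K' s := fun g => (h g).trans (Nat.add_le_add_left hK _)

theorem absShape_fin (F : Set G) (hF : F.Finite) :
    ∃ K, ∀ s ∈ F, absShape_Bd S K s ∧ absShape_Bd S K s⁻¹ := by
  choose C hC using S.th1
  obtain ⟨K, hK⟩ := (hF.image fun s => C s + C s⁻¹).bddAbove
  refine ⟨K, fun s hs => ?_⟩
  have h : C s + C s⁻¹ ≤ K := hK ⟨s, hs, rfl⟩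
  exact ⟨absShape_Bd_mono (hC s) (by omega), absShape_Bd_mono (hC s⁻¹) (by omega)⟩

/-- A common bound for all the finitely many elements used in the letters. -/
structure absShape_K (K : ℕ) : Prop where
  zero : ∀ s ∈ D.L0, absShape_Bd S K s
  rep : ∀ g ∈ insert S.τ D.R, absShape_Bd S K g ∧ absShape_Bd S K g⁻¹
  rr : ∀ ε, absShape_Bd S K (S.rr' ε)
  ed : ∀ f (e : Ed), absShape_Bd S K (S.mach f e.val) ∧ absShape_Bd S K (S.mach f e.val)⁻¹
  et : ∀ f, absShape_Bd S K (S.mach f eta) ∧ absShape_Bd S K (S.mach f eta)⁻¹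

theorem absShape_exists_K : ∃ K, absShape_K D K := by
  obtain ⟨K, hK⟩ := absShape_fin (S := S) (D.L0 ∪ insert S.τ D.R ∪ Set.range S.rr' ∪
    Set.range (fun p : Bool × Ed => S.mach p.1 p.2.val) ∪ Set.range fun f => S.mach f eta)
    ((((D.L0_fin.union (D.R_fin.insert _)).union (Set.finite_range _)).union
      (Set.finite_range _)).union (Set.finite_range _))
  exact ⟨K, fun s hs => (hK s (Or.inl (Or.inl (Or.inl (Or.inl hs))))).1,
    fun g hg => hK g (Or.inl (Or.inl (Or.inl (Or.inr hg)))),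
    fun ε => (hK _ (Or.inl (Or.inl (Or.inr ⟨ε, rfl⟩)))).1,
    fun f e => hK _ (Or.inl (Or.inr ⟨(f, e), rfl⟩)), fun f => hK _ (Or.inr ⟨f, rfl⟩)⟩

theorem absShape_rr_T (ε : Bool) : Commute (S.rr' ε) S.T := by
  cases ε
  · exact Commute.one_left _
  · exact S.rT

theorem absShape_rr_ev (ε : Bool) (w : FW) : Commute (S.rr' ε) (S.ev w) := by
  cases ε
  · exact Commute.one_left _
  · exact S.ev_comm_r w

theorem absShape_rr_mul (ε ε' : Bool) : S.rr' ε * S.rr' ε' = S.rr' (xor ε ε') := by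
  cases ε <;> cases ε' <;> simp [rr', S.rr]

theorem absShape_H_rr (ε : Bool) {g : G} (h : S.H g) : S.H (S.rr' ε * g) := by
  cases ε
  · simpa [rr'] using h
  · exact S.H_nrm S.r g rfl (Or.inl S.ρr) h

theorem absShape_H_T (j : ℤ) {g : G} (h : S.H g) : S.H (S.T ^ j * g) :=
  S.H_nrm _ g (S.rT.zpow_right j).eq (Or.inl (by rw [map_zpow, S.ρT])) h

theorem absShape_H_ev (w : FW) {g : G} (h : S.H g) : S.H (S.ev w * g) := S.H_gn w g h

theorem absShape_H_inv (j : ℤ) (w : FW) (ε : Bool) {g : G}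
    (h : S.H (S.T ^ j * S.ev w * S.rr' ε * g)) : S.H g := by
  have h1 := absShape_H_rr ε (absShape_H_ev w⁻¹ (absShape_H_T (-j) h))
  have e : S.rr' ε * (S.ev w⁻¹ * (S.T ^ (-j) * (S.T ^ j * S.ev w * S.rr' ε * g))) =
      S.rr' ε * S.rr' ε * g := by
    rw [map_inv, zpow_neg]
    simp only [mul_assoc, inv_mul_cancel_left]
  rw [e, absShape_rr_mul, Bool.xor_self] at h1
  simpa [rr'] using h1

theorem absShape_mul (j j' : ℤ) (w w' : FW) (ε ε' : Bool) :
    S.T ^ j * S.ev w * S.rr' ε * (S.T ^ j' * S.ev w' * S.rr' ε') =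
      S.T ^ (j + j') * S.ev (w * w') * S.rr' (xor ε ε') := by
  have h1 : S.rr' ε * S.T ^ j' = S.T ^ j' * S.rr' ε := ((absShape_rr_T ε).zpow_right j').eq
  have h2 : S.ev w * S.T ^ j' = S.T ^ j' * S.ev w := ((S.ev_comm_T w).symm.zpow_right j').eq
  have h3 : S.rr' ε * S.ev w' = S.ev w' * S.rr' ε := (absShape_rr_ev ε w').eq
  rw [zpow_add, map_mul, ← absShape_rr_mul]
  calc S.T ^ j * S.ev w * S.rr' ε * (S.T ^ j' * S.ev w' * S.rr' ε')
      = S.T ^ j * (S.ev w * (S.rr' ε * S.T ^ j')) * (S.ev w' * S.rr' ε') := by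
        simp only [mul_assoc]
    _ = S.T ^ j * (S.ev w * S.T ^ j') * (S.rr' ε * S.ev w') * S.rr' ε' := by
        rw [h1]; simp only [mul_assoc]
    _ = _ := by
        rw [h2, h3]; simp only [mul_assoc]

variable {D}

theorem absShape_one {K q v : ℕ} (hK : absShape_K D K) {a : Let G} (ha : D.Valid q v a)
    (h1 : a.IsOne) : ∃ (j : ℤ) (w : FW) (ε : Bool), S.value a = S.T ^ j * S.ev w * S.rr' ε ∧
      j.natAbs ≤ v ∧ absShape_Bd S K (S.ev w) := by
  rcases a with s | ⟨neg, f, e, j, ε⟩ | ⟨g, j, ε⟩ | ⟨j, ε⟩ | ⟨kind, f, j, ε⟩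
  · exact h1.elim
  · have hj : j + e.pen ≤ v := ha
    cases neg
    · exact ⟨j, _, ε, rfl, by omega, (hK.ed f e).1⟩
    · refine ⟨-(j : ℤ), (fam (f, false) (realH e.val))⁻¹, ε, ?_, by omega, ?_⟩
      · rw [map_inv]
        rfl
      · rw [map_inv]
        exact (hK.ed f e).2
  · exact h1.elim
  · exact h1.elim
  · exact h1.elim

theorem absShape_other {K q v : ℕ} (hK : absShape_K D K) {a : Let G} (ha : D.Valid q v a)
    (h1 : ¬ a.IsOne) (h0 : ¬ a.IsZero) : ∃ (j : ℤ) (s : G), S.value a = S.T ^ j * s ∧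
      j.natAbs + q ≤ v ∧ absShape_Bd S (3 * K) s := by
  have hτ := (hK.rep S.τ (Set.mem_insert _ _)).1
  rcases a with s | ⟨neg, f, e, j, ε⟩ | ⟨g, j, ε⟩ | ⟨j, ε⟩ | ⟨kind, f, j, ε⟩
  · exact (h0 trivial).elim
  · exact (h1 trivial).elim
  · exact ⟨j, g * S.rr' ε, mul_assoc _ _ _, ha.2, absShape_Bd_mono
      (absShape_Bd_mul (hK.rep g (Set.mem_insert_of_mem _ ha.1)).1 (hK.rr ε)) (by omega)⟩
  · have hj : j + q ≤ v := ha
    exact ⟨j, S.τ * S.rr' ε, mul_assoc _ _ _, by omega,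
      absShape_Bd_mono (absShape_Bd_mul hτ (hK.rr ε)) (by omega)⟩
  · have hj : j + q ≤ v := ha
    cases kind
    · exact ⟨-(j : ℤ), S.mach f eta * S.τ * S.rr' ε, mul_assoc _ _ _, by omega, absShape_Bd_mono
        (absShape_Bd_mul (absShape_Bd_mul (hK.et f).1 hτ) (hK.rr ε)) (by omega)⟩
    · exact ⟨-(j : ℤ), S.τ * (S.mach f eta)⁻¹ * S.rr' ε, mul_assoc _ _ _, by omega,
        absShape_Bd_mono (absShape_Bd_mul (absShape_Bd_mul hτ (hK.et f).2) (hK.rr ε)) (by omega)⟩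

theorem absShape_zero {K q v : ℕ} (hK : absShape_K D K) {a : Let G} (ha : D.Valid q v a)
    (h0 : a.IsZero) : absShape_Bd S K (S.value a) := by
  rcases a with s | ⟨neg, f, e, j, ε⟩ | ⟨g, j, ε⟩ | ⟨j, ε⟩ | ⟨kind, f, j, ε⟩
  · exact hK.zero s ha
  all_goals exact h0.elim

/-- The deficiency of a letter. -/
def absShape_cost (q v L : ℕ) : Let G → ℤ
  | .zero _ => 2 * v - L
  | .one _ _ _ _ _ => 0
  | _ => 2 * q - L

omit [Group G] in
theorem absShape_cost_one {q v L : ℕ} {a : Let G} (h : a.IsOne) : absShape_cost q v L a = 0 := by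
  cases a <;> first | rfl | exact h.elim

omit [Group G] in
theorem absShape_cost_zero {q v L : ℕ} {a : Let G} (h : a.IsZero) :
    absShape_cost q v L a = 2 * v - L := by
  cases a <;> first | rfl | exact h.elim

omit [Group G] in
theorem absShape_cost_other {q v L : ℕ} {a : Let G} (h1 : ¬ a.IsOne) (h0 : ¬ a.IsZero) :
    absShape_cost q v L a = 2 * q - L := by
  cases a <;> first | rfl | exact (h0 trivial).elim | exact (h1 trivial).elim

section

variable {K C2 C3 q v : ℕ}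

theorem absShape_run (hK : absShape_K D K)
    (h2 : ∀ (j : ℤ) g, S.Θ (S.T ^ j * g) ≤ S.Θ g + 2 * j.natAbs + C2 ∧
      (¬ S.H g → S.Θ (S.T ^ j * g) ≤ S.Θ g + j.natAbs + C2))
    (h3 : ∀ (w : FW) g, S.H g → S.Θ (S.ev w * g) ≤ S.Θ g + C3) (J : ℤ) (w : FW) (ε : Bool)
    {y : G} (hy : S.H y) :
    S.Θ (S.T ^ J * S.ev w * S.rr' ε * y) ≤ S.Θ y + 2 * J.natAbs + (C2 + C3 + K) := by
  have a1 := hK.rr ε y
  have a2 := h3 w _ (absShape_H_rr ε hy)
  have a3 := (h2 J (S.ev w * (S.rr' ε * y))).1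
  simp only [mul_assoc]
  omega

theorem absShape_inv (hK : absShape_K D K)
    (h2 : ∀ (j : ℤ) g, S.Θ (S.T ^ j * g) ≤ S.Θ g + 2 * j.natAbs + C2 ∧
      (¬ S.H g → S.Θ (S.T ^ j * g) ≤ S.Θ g + j.natAbs + C2))
    (h3 : ∀ (w : FW) g, S.H g → S.Θ (S.ev w * g) ≤ S.Θ g + C3) (hv : C2 + 2 * K ≤ v)
    (l : List (Let G)) (hl : ∀ a ∈ l, D.Valid q v a) :
    ∃ (M : ℕ) (J : ℤ) (w : FW) (ε : Bool) (y : G),
      (l.map S.value).prod = S.T ^ J * S.ev w * S.rr' ε * y ∧ J.natAbs ≤ M ∧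
      (S.Θ y : ℤ) + (l.map (absShape_cost q v (2 * C2 + C3 + 4 * K))).sum + 2 * M ≤
        2 * (l.length * v) + S.Θ 1 ∧
      (¬ S.H y → S.Θ (l.map S.value).prod ≤ S.Θ y + 2 * M) := by
  induction l with
  | nil => exact ⟨0, 0, 1, false, 1, by simp [rr'], by simp, by simp, fun _ => by simp⟩
  | cons a l ih =>
    obtain ⟨M, J, w, ε, y, e, hJ, hc, hn⟩ := ih fun b hb => hl b (List.mem_cons_of_mem _ hb)
    have ha := hl a List.mem_cons_self
    rw [List.map_cons, List.prod_cons, List.map_cons, List.sum_cons, List.length_cons]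
    have hlen : (((l.length + 1 : ℕ) : ℤ) * v) = l.length * v + v := by
      push_cast
      ring
    rw [hlen]
    by_cases h1 : a.IsOne
    · obtain ⟨j, w', ε', e', hj, hb⟩ := absShape_one hK ha h1
      refine ⟨M + v, j + J, w' * w, xor ε' ε, y, ?_, by omega, ?_, fun hy => ?_⟩
      · rw [e, e', ← absShape_mul]
        simp only [mul_assoc]
      · rw [absShape_cost_one h1]
        push_cast
        omega
      · have a0 := hn hy
        have a1 := hK.rr ε' (l.map S.value).prod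
        have a2 := hb (S.rr' ε' * (l.map S.value).prod)
        have a3 := (h2 j (S.ev w' * (S.rr' ε' * (l.map S.value).prod))).2 fun hH => hy (by
          refine absShape_H_inv (0 + J) (w' * w) (xor ε' ε) ?_
          rw [← absShape_mul, zpow_zero, one_mul]
          rw [e] at hH
          simpa only [mul_assoc] using hH)
        rw [e']
        simp only [mul_assoc]
        omega
    · have hP : S.Θ (l.map S.value).prod ≤ S.Θ y + 2 * M + (C2 + C3 + K) := by
        by_cases hy : S.H y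
        · have := absShape_run hK h2 h3 J w ε hy
          rw [← e] at this
          omega
        · have := hn hy
          omega
      refine ⟨0, 0, 1, false, S.value a * (l.map S.value).prod, by simp [rr'], by simp, ?_,
        fun _ => by simp⟩
      by_cases h0 : a.IsZero
      · have a1 := absShape_zero hK ha h0 (l.map S.value).prod
        rw [absShape_cost_zero h0]
        push_cast
        omega
      · obtain ⟨j, s, e', hj, hb⟩ := absShape_other hK ha h1 h0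
        have a1 := hb (l.map S.value).prod
        have a2 := (h2 j (s * (l.map S.value).prod)).1
        rw [absShape_cost_other h1 h0, e', mul_assoc]
        push_cast
        omega

theorem absShape_upper (hK : absShape_K D K)
    (h2 : ∀ (j : ℤ) g, S.Θ (S.T ^ j * g) ≤ S.Θ g + 2 * j.natAbs + C2 ∧
      (¬ S.H g → S.Θ (S.T ^ j * g) ≤ S.Θ g + j.natAbs + C2))
    (h3 : ∀ (w : FW) g, S.H g → S.Θ (S.ev w * g) ≤ S.Θ g + C3) (hv : C2 + 2 * K ≤ v)
    (l : List (Let G)) (hl : ∀ a ∈ l, D.Valid q v a) :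
    (S.Θ (l.map S.value).prod : ℤ) + (l.map (absShape_cost q v (2 * C2 + C3 + 4 * K))).sum ≤
      2 * (l.length * v) + S.Θ 1 + (C2 + C3 + K) := by
  obtain ⟨M, J, w, ε, y, e, hJ, hc, hn⟩ := absShape_inv hK h2 h3 hv l hl
  by_cases hy : S.H y
  · have := absShape_run hK h2 h3 J w ε hy
    rw [← e] at this
    omega
  · have := hn hy
    omega

end

theorem absShape_inverts {g : G} (hg : g ∈ insert S.τ D.R) : g * S.T * g⁻¹ = S.T⁻¹ := by
  rcases hg with rfl | hg
  · exact S.τT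
  · exact (D.R_phi g hg).2

theorem absShape_lower {K C0 : ℕ} (hK : absShape_K D K)
    (h0 : ∀ k : ℤ, 2 * k.natAbs ≤ S.Θ (S.T ^ k) + C0) {g : G} (hg : g ∈ insert S.τ D.R) (k : ℤ)
    (ε : Bool) : 2 * k.natAbs ≤ S.Θ (S.T ^ k * g * S.rr' ε) + 2 * K + C0 := by
  have e1 : g * S.T ^ (-k) * g⁻¹ = S.T ^ k := by
    rw [← conj_zpow, absShape_inverts hg, inv_zpow', neg_neg]
  have e2 : S.rr' ε * (g⁻¹ * (S.T ^ k * g * S.rr' ε)) = S.T ^ (-k) := by
    rw [← e1]
    have := ((absShape_rr_T (S := S) ε).zpow_right (-k)).eq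
    calc S.rr' ε * (g⁻¹ * (g * S.T ^ (-k) * g⁻¹ * g * S.rr' ε))
        = S.rr' ε * S.T ^ (-k) * S.rr' ε := by group
      _ = S.T ^ (-k) := by
        rw [this, mul_assoc, absShape_rr_mul, Bool.xor_self]
        simp [rr']
  have a1 := (hK.rep g hg).2 (S.T ^ k * g * S.rr' ε)
  have a2 := hK.rr ε (g⁻¹ * (S.T ^ k * g * S.rr' ε))
  have a3 := h0 (-k)
  rw [e2] at a2
  omega

theorem absShape_comm {K q v : ℕ} (hK : absShape_K D K) (l : List (Let G))
    (hl : ∀ a ∈ l, D.Valid q v a) (h1 : ∀ a ∈ l, a.IsOne) : Commute S.T (l.map S.value).prod := by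
  refine Commute.list_prod_right _ _ fun x hx => ?_
  obtain ⟨a, ha, rfl⟩ := List.mem_map.1 hx
  obtain ⟨j, w, ε, e, -, -⟩ := absShape_one hK (hl a ha) (h1 a ha)
  rw [e]
  exact (((Commute.refl _).zpow_right j).mul_right (S.ev_comm_T w)).mul_right
    (absShape_rr_T ε).symm

theorem absShape_not_comm {g : G} (hg : g ∈ insert S.τ D.R) (k : ℤ) (ε : Bool) :
    ¬ Commute S.T (S.T ^ k * g * S.rr' ε) := fun h => by
  have h1 : Commute S.T (S.T ^ (-k) * (S.T ^ k * g * S.rr' ε) * (S.rr' ε)⁻¹) :=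
    (((Commute.refl _).zpow_right (-k)).mul_right h).mul_right (absShape_rr_T ε).symm.inv_right
  have e : S.T ^ (-k) * (S.T ^ k * g * S.rr' ε) * (S.rr' ε)⁻¹ = g := by group
  rw [e] at h1
  have h2 := absShape_inverts hg
  rw [← h1.eq, mul_inv_cancel_right] at h2
  have h3 := S.T_zpow_eq 2 (Or.inl (by
    rw [zpow_two]
    exact mul_eq_one_iff_eq_inv.2 h2))
  omega

theorem absShape_split {α : Type*} (p : α → Prop) (l : List α) :
    (∀ b ∈ l, p b) ∨ ∃ l1 a l2, l = l1 ++ a :: l2 ∧ (∀ b ∈ l1, p b) ∧ ¬ p a := by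
  induction l with
  | nil => exact Or.inl fun _ h => absurd h List.not_mem_nil
  | cons a l ih =>
    by_cases ha : p a
    · rcases ih with h | ⟨l1, b, l2, e, h1, h2⟩
      · exact Or.inl (List.forall_mem_cons.2 ⟨ha, h⟩)
      · exact Or.inr ⟨a :: l1, b, l2, by rw [e]; rfl, List.forall_mem_cons.2 ⟨ha, h1⟩, h2⟩
    · exact Or.inr ⟨[], a, l, rfl, fun _ h => absurd h List.not_mem_nil, ha⟩

variable (D)

theorem exists_shape : ∃ q v : ℕ, q + 3 ≤ v ∧ D.Shape q v := by
  obtain ⟨K, hK⟩ := absShape_exists_K D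
  obtain ⟨C0, h0⟩ := S.th0
  obtain ⟨C2, h2⟩ := S.th2
  obtain ⟨C3, h3⟩ := S.th3
  obtain ⟨q, hq⟩ : ∃ q, q = S.Θ 1 + C0 + 5 * C2 + 3 * C3 + 11 * K + 3 := ⟨_, rfl⟩
  refine ⟨q, 2 * q + 3, by omega, fun l g k ε hl hg e hk => ?_⟩
  have hu := absShape_upper hK h2 h3 (by omega) l hl
  have hlo := absShape_lower hK h0 hg k ε
  rw [← e] at hlo
  rw [Int.abs_eq_natAbs] at hk
  have hge : ∀ a : Let G, ¬ a.IsOne →
      2 * (q : ℤ) - (2 * C2 + C3 + 4 * K : ℕ) ≤
        absShape_cost q (2 * q + 3) (2 * C2 + C3 + 4 * K) a := fun a h1 => by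
    by_cases hz : a.IsZero
    · rw [absShape_cost_zero hz]
      omega
    · rw [absShape_cost_other h1 hz]
  have hnn : ∀ l' : List (Let G), ∀ x ∈ l'.map (absShape_cost q (2 * q + 3) (2 * C2 + C3 + 4 * K)),
      0 ≤ x := fun l' x hx => by
    obtain ⟨a, -, rfl⟩ := List.mem_map.1 hx
    by_cases h1 : a.IsOne
    · rw [absShape_cost_one h1]
    · have := hge a h1
      omega
  rcases absShape_split Let.IsOne l with h1 | ⟨l1, a, l2, rfl, h1, ha⟩
  · exact (absShape_not_comm hg k ε (e ▸ absShape_comm hK l hl h1)).elim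
  · rw [List.map_append (f := absShape_cost _ _ _), List.sum_append,
      List.map_cons (f := absShape_cost _ _ _), List.sum_cons] at hu
    have b1 := List.sum_nonneg (hnn l1)
    have b2 := List.sum_nonneg (hnn l2)
    have b3 := hge a ha
    refine ⟨l1, l2, a, rfl, h1, fun b hb => ?_, ha, fun hz => ?_⟩
    · by_contra hb1
      have b4 := hge b hb1
      have b5 := List.single_le_sum (hnn l2) _ (List.mem_map_of_mem hb)
      omega
    · rw [absShape_cost_zero hz] at hu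
      omega

end Setup

end Pool.Agent.Lib.MP_66609f_al
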