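import Pool.Agent.Lib.MP_66609f_al.AbsTop
import Pool.Agent.Lib.MP_66609f_al.AbsLow
import Pool.Agent.Lib.MP_66609f_al.AbsShape

namespace Pool.Agent.Lib.MP_66609f_al

namespace Setup

variable {G : Type*} [Group G] {S : Setup G}

theorem absMain_ball_mono (A : Set G) {m n : ℕ} (h : m ≤ n) : ball A m ⊆ ball A n := by
  rintro x ⟨l, h1, h2, h3⟩
  exact ⟨l, h1.trans h, h2, h3⟩

theorem absMain_mem_ball (A : Set G) (hA : Subgroup.closure A = ⊤) (x : G) :
    ∃ n, x ∈ ball A n := by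
  have hx : x ∈ (Subgroup.closure A).toSubmonoid := by rw [hA]; exact Subgroup.mem_top x
  rw [Subgroup.closure_toSubmonoid] at hx
  obtain ⟨l, h1, h2⟩ := Submonoid.exists_list_of_mem_closure hx
  exact ⟨l.length, l, le_rfl, fun y hy => h1 y hy, h2⟩

theorem absMain_sub_ball (A : Set G) (hA : Subgroup.closure A = ⊤) (P : Set G) (hP : P.Finite) :
    ∃ N, ∀ n, N ≤ n → P ⊆ ball A n := by
  choose m hm using absMain_mem_ball A hA
  obtain ⟨N, hN⟩ := (hP.image m).bddAbove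
  exact ⟨N, fun n hn x hx => absMain_ball_mono A ((hN ⟨x, hx, rfl⟩).trans hn) (hm x)⟩

theorem absMain_odd (K : Finset ℤ) (h0 : 0 ∈ K) (hs : ∀ k ∈ K, -k ∈ K) :
    ∃ m, K.card = 2 * m + 1 := by
  refine ⟨(K.filter fun k => 0 < k).card, ?_⟩
  have h1 : (K.filter fun k => ¬ 0 < k) =
      insert 0 ((K.filter fun k => 0 < k).image fun k => -k) := by
    ext k
    simp only [Finset.mem_filter, Finset.mem_insert, Finset.mem_image]
    constructor
    · rintro ⟨hk, hk'⟩
      by_cases h : k = 0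
      · exact Or.inl h
      · exact Or.inr ⟨-k, ⟨hs k hk, by omega⟩, neg_neg k⟩
    · rintro (rfl | ⟨j, ⟨hj, hj'⟩, rfl⟩)
      · exact ⟨h0, lt_irrefl _⟩
      · exact ⟨hs j hj, by omega⟩
  have h2 := Finset.card_filter_add_card_filter_not (s := K) (fun k => 0 < k)
  rw [h1, Finset.card_insert_of_notMem, Finset.card_image_of_injective _ neg_injective] at h2
  · omega
  · simp only [Finset.mem_image, Finset.mem_filter]
    rintro ⟨j, ⟨-, hj⟩, hj'⟩
    omega

theorem absMain_rr_comm (S : Setup G) (ε : Bool) {g : G} (h : Commute S.r g) :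
    Commute (S.rr' ε) g := by
  cases ε
  · exact Commute.one_left g
  · exact h

theorem absMain_rr_mul (S : Setup G) (ε ε' : Bool) :
    S.rr' ε * (S.rr' ε')⁻¹ = S.rr' (xor ε ε') := by
  have h : S.r⁻¹ = S.r := inv_eq_of_mul_eq_one_right S.rr
  cases ε <;> cases ε' <;> simp [rr', h, S.rr]

theorem absMain_R (D : S.Data) {g : G} (hg : g ∈ insert S.τ D.R) :
    g ∈ Phi S.r S.ρ ∧ g * S.T * g⁻¹ = S.T⁻¹ := by
  rcases hg with rfl | hg
  · exact ⟨S.τ_phi, S.τT⟩
  · exact D.R_phi g hg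

theorem absMain_phi {g : G} (h1 : g ∈ Phi S.r S.ρ) (h2 : g * S.T * g⁻¹ = S.T⁻¹) (k : ℤ)
    (ε : Bool) : S.T ^ k * g * S.rr' ε ∈ Phi S.r S.ρ ∧
      S.T ^ k * g * S.rr' ε * S.T * (S.T ^ k * g * S.rr' ε)⁻¹ = S.T⁻¹ := by
  obtain ⟨ha, hb, hc⟩ := h1
  have hg : Commute S.r g := ha
  have he : Commute S.r (S.rr' ε) := (absMain_rr_comm S ε (Commute.refl _)).symm
  have hρ : S.ρ (S.rr' ε) = S.rr' ε := by
    cases ε
    · exact map_one _
    · exact S.ρr
  have hee : S.rr' ε * S.rr' ε = 1 := by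
    cases ε
    · exact mul_one 1
    · exact S.rr
  have hk : g * S.T ^ k = S.T ^ (-k) * g := by
    have h := congrArg (· ^ k) h2
    simp only [conj_zpow, inv_zpow, ← zpow_neg] at h
    rw [← h, inv_mul_cancel_right]
  have hsq : S.T ^ k * g * S.rr' ε * (S.T ^ k * g * S.rr' ε) = g * g := by
    have h3 : Commute (S.rr' ε) (S.T ^ k * g) :=
      absMain_rr_comm S ε ((S.rT.zpow_right k).mul_right hg)
    calc S.T ^ k * g * S.rr' ε * (S.T ^ k * g * S.rr' ε)
        = S.T ^ k * g * (S.rr' ε * (S.T ^ k * g)) * S.rr' ε := by simp only [mul_assoc]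
      _ = S.T ^ k * (g * S.T ^ k) * g * (S.rr' ε * S.rr' ε) := by
          rw [h3.eq]; simp only [mul_assoc]
      _ = g * g := by rw [hk, hee]; simp
  refine ⟨⟨(((S.rT.zpow_right k).mul_right hg).mul_right he).eq, ?_, ?_⟩, ?_⟩
  · rw [map_mul, map_mul, map_zpow, S.ρT, hρ]
    rcases hb with hb | hb
    · exact Or.inl (by rw [hb])
    · refine Or.inr ?_
      rw [hb, mul_assoc, mul_assoc, he.eq]
      simp only [mul_assoc]
  · rw [hsq]; exact hc
  · have h3 : S.rr' ε * S.T * (S.rr' ε)⁻¹ = S.T := by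
      rw [(absMain_rr_comm S ε S.rT).eq, mul_inv_cancel_right]
    calc S.T ^ k * g * S.rr' ε * S.T * (S.T ^ k * g * S.rr' ε)⁻¹
        = S.T ^ k * (g * (S.rr' ε * S.T * (S.rr' ε)⁻¹) * g⁻¹) * (S.T ^ k)⁻¹ := by
          simp only [mul_inv_rev, mul_assoc]
      _ = S.T⁻¹ := by
          rw [h3, h2, ((Commute.refl S.T).zpow_left k).inv_right.eq, mul_inv_cancel_right]

theorem absMain_inj (D : S.Data) {g g' : G} (hg : g ∈ insert S.τ D.R) (hg' : g' ∈ insert S.τ D.R)
    {k k' : ℤ} {ε ε' : Bool} (h : S.T ^ k * g * S.rr' ε = S.T ^ k' * g' * S.rr' ε') :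
    g = g' ∧ k = k' ∧ ε = ε' := by
  have h1 : g' = S.T ^ (-k' + k) * g * S.rr' (xor ε ε') := by
    rw [← absMain_rr_mul, zpow_add, zpow_neg]
    calc g' = (S.T ^ k')⁻¹ * (S.T ^ k' * g' * S.rr' ε') * (S.rr' ε')⁻¹ := by simp [mul_assoc]
      _ = _ := by rw [← h]; simp only [mul_assoc]
  obtain rfl := D.R_inj g hg g' hg' _ _ h1
  have hc : Commute (S.rr' (xor ε ε')) g' := absMain_rr_comm S _ (absMain_R D hg).1.1
  rw [mul_assoc, ← hc.eq, ← mul_assoc, right_eq_mul, mul_eq_one_iff_eq_inv] at h1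
  have h2 : -k' + k = 0 := by
    refine S.T_zpow_eq _ ?_
    rw [h1]
    cases xor ε ε'
    · exact Or.inl inv_one
    · exact Or.inr (inv_eq_of_mul_eq_one_right S.rr)
  obtain rfl : k = k' := by omega
  refine ⟨rfl, rfl, ?_⟩
  have h3 := mul_left_cancel h
  cases ε <;> cases ε'
  · rfl
  · exact absurd h3.symm S.r_ne
  · exact absurd h3 S.r_ne
  · rfl

theorem absMain_ball_rr (D : S.Data) (q v n : ℕ) (hn : 1 ≤ n) (x : G) (ε : Bool) :
    x * S.rr' ε ∈ ball (D.gens q v) n ↔ x ∈ ball (D.gens q v) n := by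
  cases ε
  · rw [show S.rr' false = 1 from rfl, mul_one]
  · refine ⟨fun h => ?_, ball_mul_r D q v n hn x⟩
    have h1 := ball_mul_r D q v n hn _ h
    rwa [show S.rr' true = S.r from rfl, mul_assoc, S.rr, mul_one] at h1

open Classical in
theorem count_phi (D : S.Data) (q v : ℕ) (hv : q + 3 ≤ v) (hS : D.Shape q v)
    (hgen : Subgroup.closure D.L0 = ⊤) :
    ∃ (a : ZMod 4) (N : ℕ), ∀ n, N ≤ n →
      ((ball (D.gens q v) n ∩ Phi S.r S.ρ).ncard : ZMod 4) =
        a + if n - 1 ∈ lenE then 2 else 0 := by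
  have hgen' : Subgroup.closure (D.gens q v) = ⊤ :=
    top_unique (hgen ▸ Subgroup.closure_mono (L0_subset_gens D q v))
  obtain ⟨N, hN⟩ := absMain_sub_ball _ hgen' _ S.phi_plus_finite
  refine ⟨({g | g ∈ Phi S.r S.ρ ∧ g * S.T * g⁻¹ = S.T}.ncard : ZMod 4) +
    D.R_fin.toFinset.card * 2, max N 5, fun n hn => ?_⟩
  have hn5 : 5 ≤ n := (le_max_right _ _).trans hn
  have hP := hN n ((le_max_left _ _).trans hn)
  have hB := ball_finite _ (gens_finite D q v) n
  have hT : S.T ≠ S.T⁻¹ := fun h => by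
    have h2 : (2 : ℤ) = 0 := S.T_zpow_eq 2 (Or.inl (by
      rw [zpow_two]; exact mul_eq_one_iff_eq_inv.2 h))
    omega
  have hTinj : Function.Injective fun k : ℤ => S.T ^ k := fun k k' h => by
    have h1 : S.T ^ (k - k') = 1 := by
      rw [zpow_sub, mul_inv_eq_one]; exact h
    have h2 := S.T_zpow_eq _ (Or.inl h1)
    omega
  have hK : ∀ g : G, {k : ℤ | S.T ^ k * g ∈ ball (D.gens q v) n}.Finite := fun g =>
    hB.preimage (f := fun k : ℤ => S.T ^ k * g)
      (fun k _ k' _ h => hTinj (mul_right_cancel h))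
  let I : Finset (Σ _ : G, ℤ × Bool) :=
    (insert S.τ D.R_fin.toFinset).sigma fun g => (hK g).toFinset ×ˢ Finset.univ
  have hI : ∀ x : (Σ _ : G, ℤ × Bool), x ∈ I ↔
      x.1 ∈ insert S.τ D.R ∧ S.T ^ x.2.1 * x.1 ∈ ball (D.gens q v) n := by
    intro x
    simp [I]
  let φ : (Σ _ : G, ℤ × Bool) → G := fun x => S.T ^ x.2.1 * x.1 * S.rr' x.2.2
  have hφ : Set.InjOn φ I := by
    rintro ⟨g, k, ε⟩ hx ⟨g', k', ε'⟩ hy h
    obtain ⟨rfl, rfl, rfl⟩ := absMain_inj D ((hI _).1 hx).1 ((hI _).1 hy).1 h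
    rfl
  have hsplit : ball (D.gens q v) n ∩ Phi S.r S.ρ =
      {g | g ∈ Phi S.r S.ρ ∧ g * S.T * g⁻¹ = S.T} ∪ φ '' I := by
    ext g
    constructor
    · rintro ⟨h1, h2⟩
      rcases S.fix1 g h2.1 h2.2.1 with h | h
      · exact Or.inl ⟨h2, h⟩
      · obtain ⟨g0, hg0, k, ε, rfl⟩ := D.R_cover g h2 h
        exact Or.inr ⟨⟨g0, k, ε⟩, (hI _).2 ⟨hg0,
          (absMain_ball_rr D q v n (by omega) _ ε).1 h1⟩, rfl⟩
    · rintro (h | ⟨x, hx, rfl⟩)
      · exact ⟨hP h, h.1⟩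
      · obtain ⟨h1, h2⟩ := (hI x).1 hx
        exact ⟨(absMain_ball_rr D q v n (by omega) _ _).2 h2,
          (absMain_phi (absMain_R D h1).1 (absMain_R D h1).2 _ _).1⟩
  have hdisj : Disjoint {g | g ∈ Phi S.r S.ρ ∧ g * S.T * g⁻¹ = S.T} (φ '' I) := by
    rw [Set.disjoint_left]
    rintro _ h ⟨x, hx, rfl⟩
    obtain ⟨h1, -⟩ := (hI x).1 hx
    exact hT (h.2.symm.trans (absMain_phi (absMain_R D h1).1 (absMain_R D h1).2 _ _).2)
  have hM : 5 * ((q : ℤ) + 3) ≤ (n : ℤ) * v :=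
    mul_le_mul (by exact_mod_cast hn5) (by exact_mod_cast hv) (by positivity) (by positivity)
  have hR : ∀ g ∈ D.R_fin.toFinset, (((hK g).toFinset ×ˢ (Finset.univ : Finset Bool)).card :
      ZMod 4) = 2 := by
    intro g hg
    rw [Set.Finite.mem_toFinset] at hg
    obtain ⟨m, hm⟩ := absMain_odd (hK g).toFinset
      ((Set.Finite.mem_toFinset _).2 (low_R D q v hv n hn5 g hg 0 (by rw [abs_zero]; omega)))
      (fun k hk => by
        rw [Set.Finite.mem_toFinset] at hk ⊢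
        by_cases h : |k| ≤ (n : ℤ) * v - q - 2
        · exact low_R D q v hv n hn5 g hg (-k) (by rwa [abs_neg])
        · exact top_symm D q v hv hS n g hg k (by omega) hk)
    rw [Finset.card_product, hm, Finset.card_univ, Fintype.card_bool]
    push_cast
    have h4 : (4 : ZMod 4) = 0 := rfl
    linear_combination (m : ZMod 4) * h4
  have hτ : (((hK S.τ).toFinset ×ˢ (Finset.univ : Finset Bool)).card : ZMod 4) =
      if n - 1 ∈ lenE then 2 else 0 := by
    obtain ⟨M, hMd⟩ : ∃ M : ℕ, (M : ℤ) = (n : ℤ) * v - q - 1 :=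
      ⟨((n : ℤ) * v - q - 1).toNat, Int.toNat_of_nonneg (by omega)⟩
    have h1 : ∀ k : ℤ, -(M : ℤ) ≤ k → k < M → S.T ^ k * S.τ ∈ ball (D.gens q v) n := by
      intro k h1 h2
      rcases le_total 0 k with h | h
      · exact low_pos D q v hv n hn5 k h (by omega)
      · have h3 := low_neg D q v hv n hn5 (-k) (by omega) (by omega)
        rwa [neg_neg] at h3
    have h2 : ∀ k : ℤ, S.T ^ k * S.τ ∈ ball (D.gens q v) n →
        -(M : ℤ) ≤ k ∧ (k < M ∨ (k = M ∧ n - 1 ∈ lenE)) := by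
      intro k hk
      have h3 := top_neg D q v hv hS n (by omega) (-k) (by rwa [neg_neg])
      refine ⟨by omega, ?_⟩
      by_cases h : k < M
      · exact Or.inl h
      · obtain ⟨h4, h5⟩ := top_pos D q v hv hS n (by omega) k (by omega) hk
        exact Or.inr ⟨by omega, h5⟩
    have h4 : (4 : ZMod 4) = 0 := rfl
    rw [Finset.card_product, Finset.card_univ, Fintype.card_bool]
    split_ifs with hE
    · have h5 : (hK S.τ).toFinset = Finset.Icc (-(M : ℤ)) M := by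
        ext k
        rw [Set.Finite.mem_toFinset, Finset.mem_Icc]
        refine ⟨fun h => ?_, fun h => ?_⟩
        · obtain ⟨h6, h7 | ⟨h7, -⟩⟩ := h2 k h
          · exact ⟨h6, h7.le⟩
          · exact ⟨h6, h7.le⟩
        · rcases h.2.lt_or_eq with h6 | h6
          · exact h1 k h.1 h6
          · have h7 := low_E D q v hv n hn5 hE
            rwa [← hMd, ← h6] at h7
      have h6 : ((M : ℤ) + 1 - -(M : ℤ)).toNat = 2 * M + 1 := by omega
      rw [h5, Int.card_Icc, h6]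
      push_cast
      linear_combination (M : ZMod 4) * h4
    · have h5 : (hK S.τ).toFinset = Finset.Ico (-(M : ℤ)) M := by
        ext k
        rw [Set.Finite.mem_toFinset, Finset.mem_Ico]
        refine ⟨fun h => ?_, fun h => h1 k h.1 h.2⟩
        obtain ⟨h6, h7 | ⟨-, h7⟩⟩ := h2 k h
        · exact ⟨h6, h7⟩
        · exact absurd h7 hE
      have h6 : ((M : ℤ) - -(M : ℤ)).toNat = 2 * M := by omega
      rw [h5, Int.card_Ico, h6]
      push_cast
      linear_combination (M : ZMod 4) * h4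
  rw [hsplit, Set.ncard_union_eq hdisj S.phi_plus_finite (I.finite_toSet.image φ),
    hφ.ncard_image, Set.ncard_coe_finset, Finset.card_sigma,
    Finset.sum_insert (fun h => D.τ_not ((Set.Finite.mem_toFinset _).1 h))]
  rw [Nat.cast_add, Nat.cast_add, hτ, Nat.cast_sum, Finset.sum_congr rfl hR, Finset.sum_const,
    nsmul_eq_mul]
  ring

theorem abstract_main (S : Setup G) (S0 : Finset G)
    (h0 : Subgroup.closure (S0 : Set G) = ⊤) :
    ∃ S1 : Finset G, S0 ⊆ S1 ∧ Subgroup.closure (S1 : Set G) = ⊤ ∧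
      ¬ IsRational (growthSeries (S1 : Set G)) := by
  obtain ⟨D, hD⟩ := S.exists_data S0 S0.finite_toSet
  obtain ⟨q, v, hv, hS⟩ := exists_shape D
  have hgen : Subgroup.closure D.L0 = ⊤ := top_unique (h0 ▸ Subgroup.closure_mono hD)
  obtain ⟨a, N, hN⟩ := count_phi D q v hv hS hgen
  refine ⟨(gens_finite D q v).toFinset, fun x hx => (Set.Finite.mem_toFinset _).2
    (L0_subset_gens D q v (hD hx)), ?_, ?_⟩
  · rw [Set.Finite.coe_toFinset]
    exact top_unique (hgen ▸ Subgroup.closure_mono (L0_subset_gens D q v))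
  · rw [Set.Finite.coe_toFinset]
    intro h
    refine not_evPer_of_lenE _ a (max N 1) (fun n hn => ?_)
      (evPer_of_rational (fun n => (ball (D.gens q v) n).ncard) h)
    rw [← hN n ((le_max_left _ _).trans hn)]
    exact ball_mod_four D q v n ((le_max_right _ _).trans hn)

end Setup

end Pool.Agent.Lib.MP_66609f_al
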