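import Pool.Agent.Lib.MP_66609f_al.IsoB

namespace Pool.Agent.Lib.MP_66609f_al

abbrev IsoB2Opp (g : ℕ) : Type := PresentedGroup ({oppRel g} : Set (FreeGroup (Fin (2 * g))))

def isoB2X (g k : ℕ) : IsoB2Opp g :=
  if h : k < 2 * g then PresentedGroup.of (⟨k, h⟩ : Fin (2 * g)) else 1

theorem isoB2_ofFn {M : Type*} (n : ℕ) (f : ℕ → M) :
    (List.ofFn fun i : Fin n => f i) = (List.range n).map f := by
  apply List.ext_getElem <;> simp

theorem isoB2_lift {M : Type*} [Group M] (g : ℕ) (f : ℕ → M) :
    FreeGroup.lift (fun i : Fin (2 * g) => f i) (oppRel g)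
      = ((List.range (2 * g)).map f).prod * ((List.range (2 * g)).map fun k => (f k)⁻¹).prod := by
  rw [oppRel, map_mul, map_list_prod, map_list_prod, List.map_ofFn, List.map_ofFn,
    ← isoB2_ofFn, ← isoB2_ofFn]
  simp [Function.comp_def]

theorem isoB2_hom {M : Type*} [Group M] (g : ℕ) (f : ℕ → M)
    (h : ((List.range (2 * g)).map f).prod *
      ((List.range (2 * g)).map fun k => (f k)⁻¹).prod = 1) :
    ∃ φ : IsoB2Opp g →* M, ∀ k, k < 2 * g → φ (isoB2X g k) = f k := by
  refine ⟨PresentedGroup.toGroup (f := fun i : Fin (2 * g) => f i) ?_, fun k hk => ?_⟩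
  · intro r hr
    rw [Set.mem_singleton_iff.1 hr, isoB2_lift, h]
  · simp [isoB2X, hk]

theorem isoB2_ext {M : Type*} [Group M] {g : ℕ} (φ ψ : IsoB2Opp g →* M)
    (h : ∀ k, k < 2 * g → φ (isoB2X g k) = ψ (isoB2X g k)) : φ = ψ := by
  ext i
  simpa [isoB2X, i.2] using h i i.2

theorem isoB2_rel (g : ℕ) : ((List.range (2 * g)).map (isoB2X g)).prod *
    ((List.range (2 * g)).map fun k => (isoB2X g k)⁻¹).prod = 1 := by
  rw [← isoB2_lift]
  have e : FreeGroup.lift (fun i : Fin (2 * g) => isoB2X g i)
      = PresentedGroup.mk ({oppRel g} : Set (FreeGroup (Fin (2 * g)))) := by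
    ext i
    simp [isoB2X, PresentedGroup.of]
  rw [e]
  exact PresentedGroup.one_of_mem (Set.mem_singleton _)

theorem isoB2_pair {M : Type*} [Monoid M] (f f' : ℕ → M) (m : ℕ)
    (h : ∀ i, i < m → f (2 * i) * f (2 * i + 1) = f' (2 * i) * f' (2 * i + 1)) :
    ((List.range (2 * m)).map f).prod = ((List.range (2 * m)).map f').prod := by
  induction m with
  | zero => rfl
  | succ m ih =>
    rw [show 2 * (m + 1) = 2 * m + 1 + 1 by ring]
    simp only [List.range_succ, List.map_append, List.prod_append, List.map_cons, List.map_nil,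
      List.prod_cons, List.prod_nil, mul_one, mul_assoc]
    rw [ih fun i hi => h i (by omega), h m (by omega)]

theorem isoB2_map {M M' : Type*} [Monoid M] [Monoid M'] (φ : M →* M') (n : ℕ) (f : ℕ → M)
    (f' : ℕ → M') (h : ∀ k, k < n → φ (f k) = f' k) :
    φ ((List.range n).map f).prod = ((List.range n).map f').prod := by
  rw [map_list_prod, List.map_map]
  congr 1
  exact List.map_congr_left fun k hk => h k (List.mem_range.1 hk)

theorem nonempty_opp_ker (g : ℕ) (σ : PiA (2 * g + 2) →* Multiplicative (ZMod 2))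
    (hσ : IsPar σ) :
    Nonempty (PresentedGroup ({oppRel g} : Set (FreeGroup (Fin (2 * g)))) ≃* σ.ker) := by
  set y := yy (2 * g + 2) with hy
  set z := y (2 * g + 1) with hz
  have yy2 : ∀ k, y k * y k = 1 := fun k => yy_mul_self k
  have yi : ∀ k, (y k)⁻¹ = y k := fun k => inv_eq_of_mul_eq_one_right (yy2 k)
  have zz : z * z = 1 := yy2 _
  have zi : z⁻¹ = z := yi _
  have zz' : ∀ a, z * (z * a) = a := fun a => by rw [← mul_assoc, zz, one_mul]
  have hY : ((List.range (2 * g)).map y).prod = z * y (2 * g) := by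
    have h := yy_prod (N := 2 * g + 2)
    simp only [List.range_succ, List.map_append, List.prod_append, List.map_cons, List.map_nil,
      List.prod_cons, List.prod_nil, mul_one, mul_assoc] at h
    rw [eq_inv_of_mul_eq_one_left h, mul_inv_rev]
    exact congrArg₂ (· * ·) zi (yi _)
  have ev : ∀ i, (2 * i) % 2 = 0 := fun i => by omega
  have od : ∀ i, ¬ (2 * i + 1) % 2 = 0 := fun i => by omega
  -- the embedding
  let a : ℕ → PiA (2 * g + 2) := fun k => if k % 2 = 0 then z * y k else y k * z
  have hB : ((List.range (2 * g)).map fun k => (a k)⁻¹).prod = z * y (2 * g) := by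
    rw [← hY]
    refine isoB2_pair _ _ g fun i _ => ?_
    simp only [a, if_pos (ev i), if_neg (od i), mul_inv_rev, yi, zi, mul_assoc, zz']
  have hA : ((List.range (2 * g)).map a).prod = y (2 * g) * z := by
    have h1 := isoB2_map (MulAut.conj z).toMonoidHom (2 * g) y (fun k => z * y k * z)
      (fun k _ => by simp [zi])
    rw [hY] at h1
    rw [isoB2_pair a (fun k => z * y k * z) g fun i _ => by
      simp only [a, if_pos (ev i), if_neg (od i), mul_assoc, zz'], ← h1]
    simp [zi, zz', mul_assoc]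
  obtain ⟨j, hj⟩ := isoB2_hom g a (by rw [hA, hB, mul_assoc, zz', yy2])
  -- the involution
  have hrel := isoB2_rel g
  obtain ⟨θ, hθ⟩ := isoB2_hom g (fun k => (isoB2X g k)⁻¹) (by
    simp only [inv_inv]
    exact mul_eq_one_comm.1 hrel)
  have θθ : ∀ u, θ (θ u) = u := by
    have : θ.comp θ = MonoidHom.id _ := isoB2_ext _ _ fun k hk => by simp [hθ k hk]
    exact fun u => DFunLike.congr_fun this u
  let c : ℕ → IsoB2Opp g := fun k =>
    if k < 2 * g then (if k % 2 = 0 then (isoB2X g k)⁻¹ else isoB2X g k)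
    else if k = 2 * g then ((List.range (2 * g)).map (isoB2X g)).prod else 1
  have hc : ∀ k, c k * θ (c k) = 1 := by
    intro k
    simp only [c]
    split_ifs with h1 h2 h3
    · simp [hθ k h1]
    · simp [hθ k h1]
    · rw [isoB2_map θ _ _ _ hθ]
      exact hrel
    · simp
  have hinv : ∀ k, Function.Involutive fun u => c k * θ u := fun k u => by
    simp only [map_mul, θθ, ← mul_assoc, hc, one_mul]
  let p : ℕ → Equiv.Perm (IsoB2Opp g) := fun k => (hinv k).toPerm
  have hp : ∀ k u, p k u = c k * θ u := fun _ _ => rfl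
  let L : IsoB2Opp g →* Equiv.Perm (IsoB2Opp g) := MulAction.toPermHom _ _
  have hL : ∀ u w, L u w = u * w := fun _ _ => rfl
  have c1 : c (2 * g + 1) = 1 := by simp [c]
  obtain ⟨Ψ, hΨ⟩ := exists_piA_hom (N := 2 * g + 2) p
    (fun k _ => Equiv.ext fun u => hinv k u) (by
      simp only [List.range_succ, List.map_append, List.prod_append, List.map_cons, List.map_nil,
        List.prod_cons, List.prod_nil, mul_one, mul_assoc]
      rw [isoB2_pair p (fun k => L (isoB2X g k)⁻¹) g fun i hi => Equiv.ext fun u => by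
        have h1 : 2 * i < 2 * g := by omega
        have h2 : 2 * i + 1 < 2 * g := by omega
        simp only [Equiv.Perm.mul_apply, hp, hL, c, if_pos h1, if_pos h2, if_pos (ev i),
          if_neg (od i), map_mul, θθ, hθ _ h2],
        ← isoB2_map L (2 * g) (fun k => (isoB2X g k)⁻¹) _ fun _ _ => rfl]
      refine Equiv.ext fun u => ?_
      have c0 : c (2 * g) = ((List.range (2 * g)).map (isoB2X g)).prod := by simp [c]
      simp only [Equiv.Perm.mul_apply, hp, hL, c1, c0, one_mul, θθ, Equiv.Perm.one_apply]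
      rw [← mul_assoc, mul_eq_one_comm.1 hrel, one_mul])
  have hΨj : Ψ.comp j = L := isoB2_ext _ _ fun k hk => Equiv.ext fun u => by
    have h1 : Ψ z = p (2 * g + 1) := hΨ _ (by omega)
    have h2 : Ψ (y k) = p k := hΨ _ (by omega)
    rw [MonoidHom.comp_apply, hj k hk]
    by_cases h : k % 2 = 0
    · simp [a, h, h1, h2, hp, hL, c1, c, hk, θθ, hθ k hk]
    · simp [a, h, h1, h2, hp, hL, c1, c, hk, θθ]
  have hinj : Function.Injective j := by
    rw [injective_iff_map_eq_one]
    intro u hu
    have h1 : L u 1 = Ψ (j u) 1 := by rw [← hΨj]; rfl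
    have h2 : Ψ (j u) = 1 := by rw [hu, map_one]
    rw [h2, hL, mul_one] at h1
    exact h1
  have hσz : σ z = Multiplicative.ofAdd 1 := hσ _ (by omega)
  have h11 : (Multiplicative.ofAdd 1 * Multiplicative.ofAdd 1 : Multiplicative (ZMod 2)) = 1 := by
    decide
  have hle : j.range ≤ σ.ker := by
    have : σ.comp j = 1 := isoB2_ext _ _ fun k hk => by
      have h2 : σ (y k) = Multiplicative.ofAdd 1 := hσ _ (by omega)
      rw [MonoidHom.comp_apply, hj k hk]
      simp only [a]
      split_ifs <;> rw [map_mul, hσz, h2, h11] <;> rfl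
    rintro _ ⟨u, rfl⟩
    exact DFunLike.congr_fun this u
  have hzy : ∀ k, k < 2 * g + 2 → z * y k ∈ j.range := by
    intro k hk
    by_cases h1 : k < 2 * g
    · by_cases h2 : k % 2 = 0
      · exact ⟨isoB2X g k, by simp [hj k h1, a, h2]⟩
      · exact ⟨(isoB2X g k)⁻¹, by simp [hj k h1, a, h2, yi, zi]⟩
    · by_cases h2 : k = 2 * g
      · rw [h2, ← hB]
        exact ⟨_, isoB2_map j (2 * g) (fun k => (isoB2X g k)⁻¹) _ fun k hk => by
          rw [map_inv, hj k hk]⟩
      · rw [show k = 2 * g + 1 by omega, ← hz, zz]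
        exact one_mem _
  have hall : ∀ w, w ∈ j.range ∨ w * z ∈ j.range := by
    refine piA_induction (Or.inl (one_mem _)) fun w k hk h => ?_
    rcases h with h | h
    · right
      have := mul_mem h (inv_mem (hzy k hk))
      rwa [mul_inv_rev, yi, zi, ← mul_assoc] at this
    · left
      have := mul_mem h (hzy k hk)
      rwa [mul_assoc, zz'] at this
  have heq : j.range = σ.ker := by
    refine le_antisymm hle fun w hw => (hall w).resolve_right fun h => ?_
    have h1 : σ (w * z) = 1 := hle h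
    rw [map_mul, MonoidHom.mem_ker.1 hw, one_mul, hσz] at h1
    exact absurd h1 (by decide)
  exact ⟨(MonoidHom.ofInjective hinj).trans (MulEquiv.subgroupCongr heq)⟩

end Pool.Agent.Lib.MP_66609f_al
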