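import Pool.Agent.Lib.MP_66609f_al.Build
import Pool.Agent.Lib.MP_66609f_al.IsoB2
import Pool.Agent.Lib.MP_66609f_al.Orient2
import Pool.Agent.Lib.MP_66609f_al.AbsMain

namespace Pool.Agent.Lib.MP_66609f_al

variable {g : ℕ}

theorem nonempty_isoPi (hg : 3 ≤ g) : Nonempty (SurfaceGroup g ≃* piG g) := by
  obtain ⟨e1⟩ := nonempty_surf_opp g
  obtain ⟨σ, hσ⟩ := exists_par g
  obtain ⟨e2⟩ := nonempty_opp_ker g σ hσ
  obtain ⟨f, hf⟩ := exists_hypIso hg
  have key := hypIso_par hg f hf σ hσ
  let e3 : σ.ker ≃* piG g :=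
    { toFun := fun δ => ⟨(f δ : hypG g), (key δ).1 δ.2⟩
      invFun := fun γ => ⟨f.symm ⟨γ, piG_le_hypG γ.2⟩, by
        rw [MonoidHom.mem_ker, key, MulEquiv.apply_symm_apply]
        exact γ.2⟩
      left_inv := fun δ => by
        apply Subtype.ext
        exact f.symm_apply_apply δ
      right_inv := fun γ => by
        apply Subtype.ext
        change ((f (f.symm ⟨γ, piG_le_hypG γ.2⟩) : hypG g) : W (g + 3)) = γ
        rw [MulEquiv.apply_symm_apply]
      map_mul' := fun δ δ' => by
        apply Subtype.ext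
        change ((f ((δ : PiA (2 * g + 2)) * δ') : hypG g) : W (g + 3)) =
          ((f δ : hypG g) : W (g + 3)) * ((f δ' : hypG g) : W (g + 3))
        rw [map_mul]
        rfl }
  exact ⟨(e1.trans e2).trans e3⟩

theorem main_lift_symm {G G' : Type*} [Group G] [Group G'] (e : G ≃* G')
    (gn : Bool × Bool → G') (w : FW) :
    e (FreeGroup.lift (fun b => e.symm (gn b)) w) = FreeGroup.lift gn w := by
  have h : e.toMonoidHom.comp (FreeGroup.lift fun b => e.symm (gn b)) = FreeGroup.lift gn := by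
    ext b
    simp
  exact DFunLike.congr_fun h w

theorem Setup.transport {G G' : Type*} [Group G] [Group G'] (S : Setup G') (e : G ≃* G') :
    Nonempty (Setup G) := by
  have hl := main_lift_symm e S.gn
  have hn1 : ∀ f : G, e.symm S.r * f = f * e.symm S.r → S.r * e f = e f * S.r := by
    intro f h
    simpa using congrArg e h
  have hn2 : ∀ f : G, ((e.trans (S.ρ.trans e.symm)) f = f ∨
      (e.trans (S.ρ.trans e.symm)) f = f * e.symm S.r) →
      (S.ρ (e f) = e f ∨ S.ρ (e f) = e f * S.r) := by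
    intro f h
    rcases h with h | h
    · left
      simpa using congrArg e h
    · right
      simpa using congrArg e h
  have hn3 : ∀ f : G, f * e.symm S.T * f⁻¹ = (e.symm S.T)⁻¹ →
      e f * S.T * (e f)⁻¹ = S.T⁻¹ := by
    intro f h
    simpa using congrArg e h
  refine ⟨{
    r := e.symm S.r
    T := e.symm S.T
    τ := e.symm S.τ
    gn := fun b => e.symm (S.gn b)
    ρ := e.trans (S.ρ.trans e.symm)
    Θ := fun x => S.Θ (e x)
    H := fun x => S.H (e x)
    rr := by rw [← map_mul, S.rr, map_one]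
    r_ne := fun h => S.r_ne (by simpa using congrArg e h)
    ρρ := fun x => by simp [S.ρρ]
    ρr := by simp [S.ρr]
    ρT := by simp [S.ρT]
    ρτ := by simp [S.ρτ]
    ττ := by rw [← map_mul, S.ττ, map_one]
    rT := S.rT.map e.symm
    rτ := S.rτ.map e.symm
    τT := by rw [← map_inv, ← map_mul, ← map_mul, S.τT, map_inv]
    r_gn := fun b => (S.r_gn b).map e.symm
    T_gn := fun b => (S.T_gn b).map e.symm
    ρ_gn := fun b => by simp [S.ρ_gn]
    τ_gn := fun b => by rw [← map_inv, ← map_mul, ← map_mul, S.τ_gn]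
    xy := S.xy.map e.symm
    xu := S.xu.map e.symm
    det := ?_
    th0 := ?_
    th1 := ?_
    th2 := ?_
    th3 := ?_
    H_one := by simpa using S.H_one
    H_gn := ?_
    H_nrm := ?_
    fix1 := ?_
    fix2 := ?_
    sep := ?_ }⟩
  · intro w h
    apply S.det w
    rcases h with h | h
    · left
      rw [← hl, h, map_one]
    · right
      rw [← hl, h, MulEquiv.apply_symm_apply]
  · obtain ⟨C, hC⟩ := S.th0
    refine ⟨C, fun k => ?_⟩
    simpa using hC k
  · intro s
    obtain ⟨C, hC⟩ := S.th1 (e s)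
    refine ⟨C, fun x => ?_⟩
    simpa using hC (e x)
  · obtain ⟨C, hC⟩ := S.th2
    refine ⟨C, fun j x => ?_⟩
    simpa using hC j (e x)
  · obtain ⟨C, hC⟩ := S.th3
    refine ⟨C, fun w x hx => ?_⟩
    have h := hC w (e x) hx
    simpa only [map_mul, hl] using h
  · intro w x hx
    have h := S.H_gn w (e x) hx
    simpa only [map_mul, hl] using h
  · intro f x h1 h2 hx
    have h := S.H_nrm (e f) (e x) (hn1 f h1) (hn2 f h2) hx
    simpa only [map_mul] using h
  · intro f h1 h2
    rcases S.fix1 (e f) (hn1 f h1) (hn2 f h2) with h | h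
    · left
      apply e.injective
      simpa using h
    · right
      apply e.injective
      simpa using h
  · obtain ⟨F, hF, h⟩ := S.fix2
    refine ⟨e.symm '' F, hF.image _, fun f h1 h2 => ?_⟩
    obtain ⟨f0, hf0, k, hk⟩ := h (e f) (hn1 f h1) (hn2 f h2)
    refine ⟨e.symm f0, ⟨f0, hf0, rfl⟩, k, ?_⟩
    apply e.injective
    simpa using hk
  · intro f f' w w' h1 h2 h3 h4 h5 h6 h7
    have h8 : FreeGroup.lift S.gn w * e f * FreeGroup.lift S.gn w' = e f' := by
      rw [← h7, map_mul, map_mul, hl, hl]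
    obtain ⟨k, hk⟩ := S.sep (e f) (e f') w w' (hn1 f h1) (hn2 f h2) (hn3 f h3) (hn1 f' h4)
      (hn2 f' h5) (hn3 f' h6) h8
    refine ⟨k, ?_⟩
    rcases hk with hk | hk
    · left
      apply e.injective
      simpa using hk
    · right
      apply e.injective
      simpa using hk

theorem nonempty_setup_mod (hg : 3 ≤ g) : Nonempty (Setup (Mod g)) := by
  obtain ⟨O, -, hO⟩ := exists_orData g (by omega)
  obtain ⟨e⟩ := nonempty_isoPi hg
  obtain ⟨O', ⟨e'⟩⟩ := O.transport e
  obtain ⟨S⟩ := nonempty_setup hg O'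
  rw [hO] at e'
  exact S.transport e'

theorem main_of_gens (hg : 3 ≤ g) (S0 : Finset (Mod g))
    (h0 : Subgroup.closure (S0 : Set (Mod g)) = ⊤) :
    ∃ S1 : Finset (Mod g), S0 ⊆ S1 ∧ Subgroup.closure (S1 : Set (Mod g)) = ⊤ ∧
      ¬ IsRational (growthSeries (S1 : Set (Mod g))) := by
  obtain ⟨S⟩ := nonempty_setup_mod hg
  exact S.abstract_main S0 h0

end Pool.Agent.Lib.MP_66609f_al
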