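import Pool.Agent.Lib.MP_66609f_al.G2Build
import Pool.Agent.Lib.MP_66609f_al.A2Main
import Pool.Agent.Lib.MP_66609f_al.FG2
import Pool.Agent.Lib.MP_66609f_al.Main

namespace Pool.Agent.Lib.MP_66609f_al

theorem fg_mod (g : ℕ) (hg : 2 ≤ g) : Group.FG (Mod g) := by
  obtain ⟨O, -, hO⟩ := exists_orData g (by omega)
  have : Group.FG (MulAut (SurfaceGroup g)) := by
    rcases Nat.eq_or_lt_of_le hg with rfl | h
    · exact fg_mulAut_surface_two
    · exact fg_mulAut_surface g h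
  have h1 : Group.FG O.ε.ker := fg_of_ker_units O.ε
  rw [hO] at h1
  have h2 : (AutPlus g).FG := (Group.fg_iff_subgroup_fg _).1 h1
  obtain ⟨T, hT⟩ := h2
  refine (Group.fg_iff_subgroup_fg _).2 ((Subgroup.fg_iff _).2
    ⟨QuotientGroup.mk' (Inn (SurfaceGroup g)) '' (T : Set _), ?_, T.finite_toSet.image _⟩)
  rw [← MonoidHom.map_closure, hT]
  rfl

theorem main_of_gens2 (g : ℕ) (hg : 2 ≤ g) (S0 : Finset (Mod g))
    (h0 : Subgroup.closure (S0 : Set (Mod g)) = ⊤) :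
    ∃ S1 : Finset (Mod g), S0 ⊆ S1 ∧ Subgroup.closure (S1 : Set (Mod g)) = ⊤ ∧
      ¬ IsRational (growthSeries (S1 : Set (Mod g))) := by
  rcases Nat.eq_or_lt_of_le hg with rfl | h
  · obtain ⟨S⟩ := nonempty_setup2
    exact S.abstract_main S0 h0
  · exact main_of_gens h S0 h0

theorem main_all (g : ℕ) (hg : 2 ≤ g) (S0 : Finset (Mod g)) :
    ∃ S : Finset (Mod g), S0 ⊆ S ∧ Subgroup.closure (S : Set (Mod g)) = ⊤ ∧
      ¬ IsRational (growthSeries (S : Set (Mod g))) := by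
  classical
  obtain ⟨T, hT⟩ := (fg_mod g hg).out
  have h : Subgroup.closure ((S0 ∪ T : Finset (Mod g)) : Set (Mod g)) = ⊤ := by
    rw [eq_top_iff, ← hT]
    apply Subgroup.closure_mono
    intro x hx
    simp only [Finset.coe_union, Set.mem_union]
    exact Or.inr hx
  obtain ⟨S, h1, h2, h3⟩ := main_of_gens2 g hg (S0 ∪ T) h
  exact ⟨S, fun x hx => h1 (Finset.mem_union_left _ hx), h2, h3⟩

end Pool.Agent.Lib.MP_66609f_al
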