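import Pool.Agent.Lib.MP_66609f_al.A2Basic

namespace Pool.Agent.Lib.MP_66609f_al

namespace Setup2

variable {G : Type*} [Group G] {S : Setup2 G} (D : S.Data) (v : ℕ)

theorem Data.gens_finite : (D.gens v).Finite := by
  have h1 : ((fun p : Bool × ZMod 3 × Ed × Fin (v + 1) =>
      S.value (.one p.1 p.2.1 p.2.2.1 p.2.2.2)) '' Set.univ).Finite := Set.finite_univ.image _
  have h2 : ((fun p : ℤ × ZMod 3 => S.value (.two p.1 p.2)) ''
      (Set.Icc (-(v : ℤ)) v ×ˢ Set.univ)).Finite :=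
    ((Set.finite_Icc _ _).prod Set.finite_univ).image _
  refine ((D.L0_fin.union h1).union h2).subset ?_
  rintro _ ⟨a, ha, rfl⟩
  cases a with
  | zero s => exact Or.inl (Or.inl ha)
  | one neg f e j =>
    have hj : j + e.pen ≤ v := ha
    exact Or.inl (Or.inr ⟨(neg, f, e, ⟨j, by omega⟩), trivial, rfl⟩)
  | two j i =>
    have hj : j.natAbs + 2 ≤ v := ha
    exact Or.inr ⟨(j, i), ⟨⟨by simp only; omega, by simp only; omega⟩, trivial⟩, rfl⟩

theorem a2Ball_κ_neg (i : ZMod 3) : S.κ ^ (-i).val = (S.κ ^ i.val)⁻¹ := by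
  rw [eq_inv_iff_mul_eq_one, ← S.κ_add, neg_add_cancel, ZMod.val_zero, pow_zero]

theorem a2Ball_inv (a : Let2 G) (ha : D.Valid v a) :
    ∃ b, D.Valid v b ∧ S.value b = (S.value a)⁻¹ ∧ (b.IsOne ↔ a.IsOne) := by
  cases a with
  | zero s => exact ⟨.zero s⁻¹, D.L0_inv s ha, rfl, Iff.rfl⟩
  | one neg f e j =>
    have hc := ((S.T_ev (fam3 f e.val)).zpow_left (j : ℤ))
    cases neg
    · refine ⟨.one true f e j, ha, ?_, Iff.rfl⟩
      simp only [value]
      rw [hc.eq, mul_inv_rev, zpow_neg]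
    · refine ⟨.one false f e j, ha, ?_, Iff.rfl⟩
      simp only [value]
      rw [mul_inv_rev, inv_inv, zpow_neg, inv_inv, hc.eq]
  | two j i =>
    refine ⟨.two (-j) (-i), ?_, ?_, Iff.rfl⟩
    · have hj : j.natAbs + 2 ≤ v := ha
      show (-j).natAbs + 2 ≤ v
      omega
    · simp only [value]
      rw [a2Ball_κ_neg, zpow_neg, ← mul_inv_rev, ((S.κT.pow_left i.val).zpow_right j).eq]

theorem a2Ball_κ_inv : S.κ⁻¹ = S.κ * S.κ := by
  rw [inv_eq_iff_mul_eq_one, ← S.κ3, pow_succ, pow_two, mul_assoc]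

theorem a2Ball_sh (f : ZMod 3) (w : FreeGroup Gen) : sh3 1 (fam3 f w) = fam3 (f + 1) w := by
  have h : (sh3 1).comp (fam3 f) = fam3 (f + 1) := by
    ext m : 1
    simp [sh3, fam3]
  exact DFunLike.congr_fun h w

theorem a2Ball_conj (a : Let2 G) (ha : D.Valid v a) :
    ∃ b, D.Valid v b ∧ S.value b = S.κ * S.value a * S.κ⁻¹ ∧ (b.IsOne ↔ a.IsOne) := by
  have hT : ∀ j : ℤ, S.κ * S.T ^ j = S.T ^ j * S.κ := fun j => (S.κT.zpow_right j).eq
  have hE : ∀ f (w : FreeGroup Gen), S.ev (fam3 (f + 1) w) = S.κ * S.ev (fam3 f w) * S.κ⁻¹ := by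
    intro f w
    have h := S.κ_ev 1 (fam3 f w)
    have h1 : (1 : ZMod 3).val = 1 := rfl
    rw [h1, pow_one, a2Ball_sh] at h
    rw [h, mul_inv_cancel_right]
  cases a with
  | zero s =>
    refine ⟨.zero (S.κ * s * S.κ⁻¹), ?_, rfl, Iff.rfl⟩
    show S.κ * s * S.κ⁻¹ ∈ D.L0
    rw [a2Ball_κ_inv, ← mul_assoc]
    exact D.L0_right _ (D.L0_right _ (D.L0_left _ ha))
  | one neg f e j =>
    cases neg
    · refine ⟨.one false (f + 1) e j, ha, ?_, Iff.rfl⟩
      simp only [value]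
      rw [hE, ← mul_assoc S.κ, hT]
      simp only [mul_assoc]
    · refine ⟨.one true (f + 1) e j, ha, ?_, Iff.rfl⟩
      simp only [value]
      rw [hE, ← mul_assoc S.κ, hT]
      simp only [mul_assoc, mul_inv_rev, inv_inv]
  | two j i =>
    refine ⟨.two j i, ha, ?_, Iff.rfl⟩
    simp only [value]
    rw [← mul_assoc S.κ, hT, mul_assoc, mul_assoc, ← mul_assoc S.κ, ← pow_succ', pow_succ,
      mul_inv_cancel_right]

theorem a2Ball_mul (a : Let2 G) (ha : D.Valid v a) (h : ¬ a.IsOne) :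
    ∃ b, D.Valid v b ∧ S.value b = S.value a * S.κ ∧ ¬ b.IsOne := by
  cases a with
  | zero s => exact ⟨.zero (s * S.κ), D.L0_right s ha, rfl, h⟩
  | one neg f e j => exact absurd trivial h
  | two j i =>
    refine ⟨.two j (i + 1), ha, ?_, h⟩
    simp only [value]
    have h1 : (1 : ZMod 3).val = 1 := rfl
    rw [S.κ_add, h1, pow_one, mul_assoc]

theorem a2Ball_inv_list (l : List (Let2 G)) (hl : ∀ a ∈ l, D.Valid v a) :
    ∃ l' : List (Let2 G), l'.length = l.length ∧ (∀ a ∈ l', D.Valid v a) ∧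
      (l'.map S.value).prod = ((l.map S.value).prod)⁻¹ ∧
      ((∃ a ∈ l, ¬ a.IsOne) → ∃ a ∈ l', ¬ a.IsOne) := by
  induction l with
  | nil => exact ⟨[], rfl, hl, by simp, id⟩
  | cons a l ih =>
    obtain ⟨l', h1, h2, h3, h4⟩ := ih fun b hb => hl b (List.mem_cons_of_mem _ hb)
    obtain ⟨b, k1, k2, k3⟩ := a2Ball_inv D v a (hl a List.mem_cons_self)
    refine ⟨l' ++ [b], by simp [h1], ?_, by simp [h3, k2], ?_⟩
    · intro c hc
      rcases List.mem_append.1 hc with hc | hc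
      · exact h2 c hc
      · rw [List.mem_singleton.1 hc]
        exact k1
    · rintro ⟨c, hc, hc'⟩
      rcases List.mem_cons.1 hc with rfl | hc
      · exact ⟨b, by simp, fun h => hc' (k3.1 h)⟩
      · obtain ⟨c', e1, e2⟩ := h4 ⟨c, hc, hc'⟩
        exact ⟨c', List.mem_append_left _ e1, e2⟩

theorem a2Ball_conj_list (l : List (Let2 G)) (hl : ∀ a ∈ l, D.Valid v a) :
    ∃ l' : List (Let2 G), l'.length = l.length ∧ (∀ a ∈ l', D.Valid v a) ∧
      (l'.map S.value).prod = S.κ * (l.map S.value).prod * S.κ⁻¹ ∧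
      ((∃ a ∈ l, ¬ a.IsOne) → ∃ a ∈ l', ¬ a.IsOne) := by
  induction l with
  | nil => exact ⟨[], rfl, hl, by simp, id⟩
  | cons a l ih =>
    obtain ⟨l', h1, h2, h3, h4⟩ := ih fun b hb => hl b (List.mem_cons_of_mem _ hb)
    obtain ⟨b, k1, k2, k3⟩ := a2Ball_conj D v a (hl a List.mem_cons_self)
    refine ⟨b :: l', by simp [h1], ?_, ?_, ?_⟩
    · intro c hc
      rcases List.mem_cons.1 hc with rfl | hc
      · exact k1
      · exact h2 c hc
    · rw [List.map_cons, List.prod_cons, List.map_cons, List.prod_cons, h3, k2]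
      group
    · rintro ⟨c, hc, hc'⟩
      rcases List.mem_cons.1 hc with rfl | hc
      · exact ⟨b, by simp, fun h => hc' (k3.1 h)⟩
      · obtain ⟨c', e1, e2⟩ := h4 ⟨c, hc, hc'⟩
        exact ⟨c', List.mem_cons_of_mem _ e1, e2⟩

theorem Data.ball_eq (n : ℕ) : ball (D.gens v) n = D.setB v n := by
  ext g
  constructor
  · rintro ⟨l, h1, h2, rfl⟩
    have key : ∀ l : List G, (∀ y ∈ l, y ∈ D.gens v ∨ y⁻¹ ∈ D.gens v) →
        ∃ l' : List (Let2 G), (∀ a ∈ l', D.Valid v a) ∧ l'.map S.value = l := by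
      intro l hl
      induction l with
      | nil => exact ⟨[], by simp, rfl⟩
      | cons y l ih =>
        obtain ⟨l', k1, k2⟩ := ih fun b hb => hl b (List.mem_cons_of_mem _ hb)
        have : ∃ a, D.Valid v a ∧ S.value a = y := by
          rcases hl y List.mem_cons_self with h | ⟨a, ha, h⟩
          · exact h
          · obtain ⟨b, e1, e2, -⟩ := a2Ball_inv D v a ha
            exact ⟨b, e1, by rw [e2, h, inv_inv]⟩
        obtain ⟨a, ha, rfl⟩ := this
        refine ⟨a :: l', ?_, by rw [List.map_cons, k2]⟩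
        intro c hc
        rcases List.mem_cons.1 hc with rfl | hc
        · exact ha
        · exact k1 c hc
    obtain ⟨l', k1, rfl⟩ := key l h2
    exact ⟨l', by simpa using h1, k1, rfl⟩
  · rintro ⟨l, h1, h2, rfl⟩
    refine ⟨l.map S.value, by simpa using h1, fun y hy => ?_, rfl⟩
    obtain ⟨a, ha, rfl⟩ := List.mem_map.1 hy
    exact Or.inl ⟨a, h2 a ha, rfl⟩

theorem Data.setB_finite (n : ℕ) : (D.setB v n).Finite := by
  have := (D.gens_finite v).to_subtype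
  refine ((List.finite_length_le (D.gens v) n).image
    fun l => (l.map Subtype.val).prod).subset ?_
  rintro _ ⟨l, h1, h2, rfl⟩
  refine ⟨l.attach.map fun a => ⟨S.value a.1, a.1, h2 a.1 a.2, rfl⟩, by simpa using h1, ?_⟩
  simp only [List.map_map]
  congr 1
  exact List.attach_map_val (f := S.value)

theorem Data.setB_inv (n : ℕ) (g : G) (h : g ∈ D.setB v n) : g⁻¹ ∈ D.setB v n := by
  obtain ⟨l, h1, h2, rfl⟩ := h
  obtain ⟨l', k1, k2, k3, -⟩ := a2Ball_inv_list D v l h2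
  exact ⟨l', k1 ▸ h1, k2, k3⟩

theorem Data.setA_inv (n : ℕ) (g : G) (h : g ∈ D.setA v n) : g⁻¹ ∈ D.setA v n := by
  obtain ⟨l, h1, h2, h3, rfl⟩ := h
  obtain ⟨l', k1, k2, k3, k4⟩ := a2Ball_inv_list D v l h2
  exact ⟨l', k1 ▸ h1, k2, k4 h3, k3⟩

theorem a2Ball_setB_conj (n : ℕ) (g : G) (h : g ∈ D.setB v n) :
    S.κ * g * S.κ⁻¹ ∈ D.setB v n := by
  obtain ⟨l, h1, h2, rfl⟩ := h
  obtain ⟨l', k1, k2, k3, -⟩ := a2Ball_conj_list D v l h2
  exact ⟨l', k1 ▸ h1, k2, k3⟩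

theorem a2Ball_setA_conj (n : ℕ) (g : G) (h : g ∈ D.setA v n) :
    S.κ * g * S.κ⁻¹ ∈ D.setA v n := by
  obtain ⟨l, h1, h2, h3, rfl⟩ := h
  obtain ⟨l', k1, k2, k3, k4⟩ := a2Ball_conj_list D v l h2
  exact ⟨l', k1 ▸ h1, k2, k4 h3, k3⟩

theorem a2Ball_setA_mul (n : ℕ) (g : G) (h : g ∈ D.setA v n) : g * S.κ ∈ D.setA v n := by
  obtain ⟨l, h1, h2, ⟨a, ha, ha'⟩, rfl⟩ := h
  obtain ⟨l1, l2, rfl⟩ := List.append_of_mem ha
  obtain ⟨b, e1, e2, e3⟩ := a2Ball_mul D v a (h2 a ha) ha'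
  obtain ⟨l', k1, k2, k3, -⟩ := a2Ball_conj_list D v l2 fun c hc => h2 c (by simp [hc])
  obtain ⟨l'', m1, m2, m3, -⟩ := a2Ball_conj_list D v l' k2
  refine ⟨l1 ++ b :: l'', by simpa [m1, k1] using h1, ?_, ⟨b, by simp, e3⟩, ?_⟩
  · intro c hc
    rcases List.mem_append.1 hc with hc | hc
    · exact h2 c (List.mem_append_left _ hc)
    · rcases List.mem_cons.1 hc with rfl | hc
      · exact e1
      · exact m2 c hc
  · have h3 : S.κ * (S.κ * S.κ) = 1 := by rw [← a2Ball_κ_inv, mul_inv_cancel]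
    have h4 : S.κ⁻¹ * S.κ⁻¹ = S.κ := by
      rw [← mul_inv_rev, ← a2Ball_κ_inv, inv_inv]
    simp only [List.map_append, List.prod_append, List.map_cons, List.prod_cons, m3, k3, e2]
    calc (l1.map S.value).prod * (S.value a * S.κ * (S.κ * (S.κ * (l2.map S.value).prod * S.κ⁻¹) *
          S.κ⁻¹)) = (l1.map S.value).prod * (S.value a * (S.κ * (S.κ * S.κ)) *
          (l2.map S.value).prod) * (S.κ⁻¹ * S.κ⁻¹) := by simp only [mul_assoc]
      _ = _ := by rw [h3, h4, mul_one]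

/-- The count modulo three. -/
theorem Data.count_mod (n : ℕ) :
    ((D.setB v n).ncard : ZMod 3) =
      ({k : ℤ | S.T ^ k ∈ D.setB v n ∧ S.T ^ k ∉ D.setA v n}.ncard : ZMod 3) := by
  have hB := D.setB_finite v n
  have hAB : D.setA v n ⊆ D.setB v n := by
    rintro _ ⟨l, h1, h2, -, rfl⟩
    exact ⟨l, h1, h2, rfl⟩
  have hA := hB.subset hAB
  have h3 : S.κ * S.κ * S.κ = 1 := by rw [← a2Ball_κ_inv, inv_mul_cancel]
  have hc : ∀ g : G, S.κ * (S.κ * (S.κ * g * S.κ⁻¹) * S.κ⁻¹) * S.κ⁻¹ = g := by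
    intro g
    calc _ = (S.κ * S.κ * S.κ) * g * (S.κ * S.κ * S.κ)⁻¹ := by group
      _ = g := by rw [h3]; simp
  have e1 := card_mod_three (fun g => g * S.κ) _ hA (a2Ball_setA_mul D v n) (fun g _ => by
    rw [mul_assoc, mul_assoc, ← mul_assoc S.κ, h3, mul_one])
  have e2 : {x ∈ D.setA v n | x * S.κ = x} = ∅ := by
    ext x
    simp only [Set.mem_empty_iff_false, iff_false]
    rintro ⟨-, h⟩
    exact S.κ_ne_one (mul_eq_left.1 h)
  rw [e2, Set.ncard_empty, Nat.cast_zero] at e1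
  have e3 := card_mod_three (fun g => S.κ * g * S.κ⁻¹) (D.setB v n \ D.setA v n) hB.sdiff
    (fun g hg => ⟨a2Ball_setB_conj D v n g hg.1, fun h => hg.2 (by
      have h' := a2Ball_setA_conj D v n _ (a2Ball_setA_conj D v n _ h)
      rwa [hc] at h')⟩) (fun g _ => hc g)
  have e4 : {x ∈ D.setB v n \ D.setA v n | S.κ * x * S.κ⁻¹ = x} =
      (fun k : ℤ => S.T ^ k) '' {k : ℤ | S.T ^ k ∈ D.setB v n ∧ S.T ^ k ∉ D.setA v n} := by
    ext x
    constructor
    · rintro ⟨⟨hx, hx'⟩, h⟩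
      obtain ⟨l, h1, h2, rfl⟩ := id hx
      have h4 : ∀ a ∈ l, a.IsOne := by
        intro a ha
        by_contra h5
        exact hx' ⟨l, h1, h2, ⟨a, ha, h5⟩, rfl⟩
      obtain ⟨w, hw⟩ := S.run_one l h4
      have h5 : Commute S.κ (S.T ^ (l.map Let2.jz).sum * S.ev w) := by
        rw [← hw]
        exact mul_inv_eq_iff_eq_mul.1 h
      have h6 : Commute S.κ (S.ev w) := by
        have h7 := (S.κT.zpow_right (l.map Let2.jz).sum).inv_right.mul_right h5
        rwa [inv_mul_cancel_left] at h7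
      rw [S.ev_eq_one_of_commute w h6, mul_one] at hw
      exact ⟨_, ⟨hw ▸ hx, hw ▸ hx'⟩, hw.symm⟩
    · rintro ⟨k, hk, rfl⟩
      exact ⟨hk, mul_inv_eq_iff_eq_mul.2 (S.κT.zpow_right k).eq⟩
  rw [e4, Set.ncard_image_of_injective _ fun k k' h => S.T_zpow_inj h] at e3
  rw [← e3, ← Set.ncard_sdiff_add_ncard_of_subset hAB hB, Nat.cast_add, e1, add_zero]

end Setup2

end Pool.Agent.Lib.MP_66609f_al
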