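import Pool.Agent.Lib.MP_66609f_al.Set2

namespace Pool.Agent.Lib.MP_66609f_al

theorem a2Basic_cases : ∀ i : ZMod 3, i = 0 ∨ i = 1 ∨ i = 2 := by decide

theorem a2Basic_sh3_zero (w : FT) : sh3 0 w = w := by
  have : sh3 0 = MonoidHom.id FT := by
    ext m
    simp [sh3]
  rw [this, MonoidHom.id_apply]

theorem a2Basic_sh3_add (i i' : ZMod 3) (w : FT) : sh3 i (sh3 i' w) = sh3 (i' + i) w := by
  have : (sh3 i).comp (sh3 i') = sh3 (i' + i) := by
    ext m
    simp [sh3, add_assoc]
  exact DFunLike.congr_fun this w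

theorem a2Basic_pr3_sh3 (c : Bool) (i : ZMod 3) (w : FT) :
    pr3 c (sh3 i w) = sh3 i (pr3 c w) := by
  have : (pr3 c).comp (sh3 i) = (sh3 i).comp (pr3 c) := by
    ext m
    by_cases hm : m.1.crd = c <;> simp [sh3, pr3, hm]
  exact DFunLike.congr_fun this w

/-- Keep the copy `f` only. -/
def a2Basic_pi (f : ZMod 3) : FT →* FreeGroup Gen :=
  FreeGroup.lift fun m => if m.2 = f then FreeGroup.of m.1 else 1

theorem a2Basic_pi_fam (f f' : ZMod 3) (c : Bool) (w : FreeGroup Gen) :
    a2Basic_pi f (pr3 c (fam3 f' w)) = if f' = f then pr c w else 1 := by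
  by_cases hf : f' = f
  · rw [if_pos hf]
    have : (a2Basic_pi f).comp ((pr3 c).comp (fam3 f')) = pr c := by
      ext m
      by_cases hm : m.crd = c <;> simp [a2Basic_pi, pr3, fam3, pr, hm, hf]
    exact DFunLike.congr_fun this w
  · rw [if_neg hf]
    have : (a2Basic_pi f).comp ((pr3 c).comp (fam3 f')) = 1 := by
      ext m
      by_cases hm : m.crd = c <;> simp [a2Basic_pi, pr3, fam3, hm, hf]
    exact DFunLike.congr_fun this w

theorem a2Basic_pi_list (f : ZMod 3) (c : Bool) (L : List (ZMod 3 × FreeGroup Gen)) :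
    a2Basic_pi f (pr3 c (L.map fun a => fam3 a.1 a.2).prod) =
      pr c ((L.filter fun a => a.1 = f).map fun a => a.2).prod := by
  induction L with
  | nil => simp
  | cons a L ih =>
    rw [List.map_cons, List.prod_cons, map_mul, map_mul, ih, a2Basic_pi_fam]
    by_cases ha : a.1 = f
    · simp [ha]
    · simp [ha]

/-- A word invariant under the shift is trivial. -/
theorem eq_one_of_sh3 (w : FT) (h : sh3 1 w = w) : w = 1 := by
  classical
  have hred : FreeGroup.IsReduced
      (w.toWord.map fun x : (Gen × ZMod 3) × Bool => ((x.1.1, x.1.2 + 1), x.2)) := by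
    have h0 : FreeGroup.IsReduced w.toWord := FreeGroup.isReduced_toWord
    unfold FreeGroup.IsReduced at h0 ⊢
    rw [List.isChain_map]
    refine h0.imp ?_
    intro a b hab he
    apply hab
    simp only [Prod.mk.injEq, add_left_inj] at he
    exact Prod.ext he.1 he.2
  have h1 : sh3 1 w = FreeGroup.mk
      (w.toWord.map fun x : (Gen × ZMod 3) × Bool => ((x.1.1, x.1.2 + 1), x.2)) := by
    conv_lhs => rw [← FreeGroup.mk_toWord (x := w)]
    exact FreeGroup.map.mk
  have h2 : w.toWord =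
      w.toWord.map fun x : (Gen × ZMod 3) × Bool => ((x.1.1, x.1.2 + 1), x.2) := by
    conv_lhs => rw [← h, h1, FreeGroup.toWord_mk, hred.reduce_eq]
  rw [← FreeGroup.toWord_eq_nil_iff]
  cases hw : w.toWord with
  | nil => rfl
  | cons a l =>
    rw [hw] at h2
    simp only [List.map_cons, List.cons.injEq] at h2
    have h3 : a.1.2 = a.1.2 + 1 := congrArg (fun x : (Gen × ZMod 3) × Bool => x.1.2) h2.1
    have h4 : (1 : ZMod 3) = 0 := by
      have := h3.symm
      rwa [add_eq_left] at this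
    exact absurd h4 (by decide)

/-- Each copy of a closed word is closed. -/
theorem closed_fam3 (L : List (ZMod 3 × FreeGroup Gen))
    (h : ∀ c, pr3 c (L.map fun a => fam3 a.1 a.2).prod = 1) (f : ZMod 3) :
    Closed ((L.filter fun a => a.1 = f).map fun a => a.2).prod := by
  have key : ∀ c, pr c ((L.filter fun a => a.1 = f).map fun a => a.2).prod = 1 := by
    intro c
    have h1 := congrArg (a2Basic_pi f) (h c)
    rw [map_one, a2Basic_pi_list] at h1
    exact h1
  exact ⟨key false, key true⟩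

namespace Setup2

variable {G : Type*} [Group G] (S : Setup2 G)

theorem T_ev (w : FT) : Commute S.T (S.ev w) := by
  induction w using FreeGroup.induction_on with
  | C1 => simp
  | of m => simpa [ev] using S.T_gn m
  | inv_of m ih => rw [map_inv]; exact ih.inv_right
  | mul a b iha ihb => rw [map_mul]; exact iha.mul_right ihb

theorem κ_ev (i : ZMod 3) (w : FT) : S.κ ^ i.val * S.ev w = S.ev (sh3 i w) * S.κ ^ i.val := by
  have h1 : ∀ w : FT, S.κ * S.ev w = S.ev (sh3 1 w) * S.κ := by
    intro w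
    have : (MulAut.conj S.κ).toMonoidHom.comp S.ev = S.ev.comp (sh3 1) := by
      ext m
      obtain ⟨m, f⟩ := m
      simpa [ev, sh3] using S.κ_gn m f
    have h2 := DFunLike.congr_fun this w
    simp only [MonoidHom.comp_apply, MulEquiv.coe_toMonoidHom, MulAut.conj_apply] at h2
    rw [← h2]
    group
  have hi : i = 0 ∨ i = 1 ∨ i = 2 := a2Basic_cases i
  rcases hi with rfl | rfl | rfl
  · simp [a2Basic_sh3_zero]
  · have : (1 : ZMod 3).val = 1 := rfl
    rw [this, pow_one]
    exact h1 w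
  · have : (2 : ZMod 3).val = 2 := rfl
    have h2 : sh3 2 w = sh3 1 (sh3 1 w) := by
      rw [a2Basic_sh3_add]
      rfl
    rw [this, pow_two, mul_assoc, h1, ← mul_assoc, h1, h2, mul_assoc]

theorem κ_add (i i' : ZMod 3) : S.κ ^ (i + i').val = S.κ ^ i.val * S.κ ^ i'.val := by
  rw [← pow_add, ZMod.val_add]
  conv_rhs => rw [← Nat.mod_add_div (i.val + i'.val) 3, pow_add, pow_mul, S.κ3, one_pow, mul_one]

theorem ev_split (w : FT) : S.ev w = S.ev (pr3 false w) * S.ev (pr3 true w) := by
  have hc : ∀ u u' : FT, Commute (S.ev (pr3 false u)) (S.ev (pr3 true u')) := by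
    intro u u'
    have h1 : ∀ m : Gen × ZMod 3, m.1.crd = false → Commute (S.gn m) (S.ev (pr3 true u')) := by
      intro m hm
      induction u' using FreeGroup.induction_on with
      | C1 => simp
      | of m' =>
        by_cases h' : m'.1.crd = true
        · simpa [ev, pr3, h'] using S.comm m m' hm h'
        · simp [pr3, h']
      | inv_of m' ih => rw [map_inv, map_inv]; exact ih.inv_right
      | mul a b iha ihb => rw [map_mul, map_mul]; exact iha.mul_right ihb
    induction u using FreeGroup.induction_on with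
    | C1 => simp
    | of m =>
      by_cases h' : m.1.crd = false
      · simpa [ev, pr3, h'] using h1 m h'
      · simp [pr3, h']
    | inv_of m ih => rw [map_inv, map_inv]; exact ih.inv_left
    | mul a b iha ihb => rw [map_mul, map_mul]; exact iha.mul_left ihb
  induction w using FreeGroup.induction_on with
  | C1 => simp
  | of m => cases hm : m.1.crd <;> simp [pr3, hm]
  | inv_of m ih =>
    rw [map_inv, ih, map_inv, map_inv, map_inv, map_inv, (hc _ _).eq, mul_inv_rev]
  | mul a b iha ihb =>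
    simp only [map_mul]
    conv_lhs => rw [iha, ihb]
    have := (hc b a).eq
    calc S.ev (pr3 false a) * S.ev (pr3 true a) * (S.ev (pr3 false b) * S.ev (pr3 true b))
        = S.ev (pr3 false a) * (S.ev (pr3 true a) * S.ev (pr3 false b)) * S.ev (pr3 true b) := by
          simp only [mul_assoc]
      _ = _ := by rw [← this]; simp only [mul_assoc]

theorem H_ev (w : FT) (g : G) : S.H (S.ev w * g) ↔ S.H g := by
  induction w using FreeGroup.induction_on generalizing g with
  | C1 => simp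
  | of m => simpa [ev] using S.H_gn m g
  | inv_of m ih =>
    rw [map_inv, ← ih ((S.ev (FreeGroup.of m))⁻¹ * g), mul_inv_cancel_left]
  | mul a b iha ihb => rw [map_mul, mul_assoc, iha, ihb]

theorem H_zpow (j : ℤ) (g : G) : S.H (S.T ^ j * g) ↔ S.H g := by
  induction j using Int.induction_on generalizing g with
  | zero => simp
  | succ n ih => rw [zpow_add_one, mul_assoc, ih, S.H_T]
  | pred n ih =>
    rw [zpow_sub_one, mul_assoc, ih, ← S.H_T (S.T⁻¹ * g), mul_inv_cancel_left]

theorem H_κpow (i : ℕ) (g : G) : S.H (S.κ ^ i * g) ↔ S.H g := by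
  induction i generalizing g with
  | zero => simp
  | succ n ih => rw [pow_succ, mul_assoc, ih, S.H_κ]

theorem κ_ne_one : S.κ ≠ 1 := by
  intro h
  exact S.detκ 1 (by rw [map_one, h])

/-- Uniqueness of the normal form. -/
theorem nf_unique (J k : ℤ) (w : FT) (i : ZMod 3)
    (h : S.T ^ J * S.ev w * S.κ ^ i.val = S.T ^ k) : J = k ∧ i = 0 ∧ S.ev w = 1 := by
  have hy : S.ev w * S.κ ^ i.val = S.T ^ (k - J) := by
    rw [sub_eq_neg_add, zpow_add, ← h, zpow_neg, mul_assoc, inv_mul_cancel_left]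
  have hk3 : S.κ ^ i.val * S.κ ^ i.val * S.κ ^ i.val = 1 := by
    rw [← pow_add, ← pow_add, show i.val + i.val + i.val = 3 * i.val by ring, pow_mul, S.κ3,
      one_pow]
  have hy3 : S.T ^ (3 * (k - J)) = S.ev (w * sh3 i w * sh3 i (sh3 i w)) := by
    have e1 : S.T ^ (3 * (k - J)) = S.T ^ (k - J) * S.T ^ (k - J) * S.T ^ (k - J) := by
      rw [← zpow_add, ← zpow_add]
      congr 1
      ring
    have c1 := S.κ_ev i w
    have c2 := S.κ_ev i (sh3 i w)
    rw [e1, ← hy, map_mul, map_mul]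
    calc S.ev w * S.κ ^ i.val * (S.ev w * S.κ ^ i.val) * (S.ev w * S.κ ^ i.val)
        = S.ev w * (S.κ ^ i.val * S.ev w) * (S.κ ^ i.val * S.ev w) * S.κ ^ i.val := by
          simp only [mul_assoc]
      _ = S.ev w * S.ev (sh3 i w) * (S.κ ^ i.val * S.ev (sh3 i w)) * S.κ ^ i.val *
          S.κ ^ i.val := by rw [c1]; simp only [mul_assoc]
      _ = S.ev w * S.ev (sh3 i w) * S.ev (sh3 i (sh3 i w)) *
          (S.κ ^ i.val * S.κ ^ i.val * S.κ ^ i.val) := by rw [c2]; simp only [mul_assoc]
      _ = _ := by rw [hk3, mul_one]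
  obtain ⟨C0, h0⟩ := S.th0
  obtain ⟨C2, h2⟩ := S.th2
  have hJ : J = k := by
    by_contra hne
    set N : ℕ := S.Θ 1 + C2 + C0 + 1 with hN
    have e1 : S.T ^ (3 * (k - J) * N) = S.ev ((w * sh3 i w * sh3 i (sh3 i w)) ^ N) := by
      rw [zpow_mul, hy3, map_pow, zpow_natCast]
    have b1 := h0 (3 * (k - J) * N)
    have b2 := h2 0 ((w * sh3 i w * sh3 i (sh3 i w)) ^ N) 1 S.H_one
    rw [zpow_zero, one_mul, mul_one] at b2
    have e2 : S.Θ (S.T ^ (3 * (k - J) * N)) =
        S.Θ (FreeGroup.lift S.gn ((w * sh3 i w * sh3 i (sh3 i w)) ^ N)) := by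
      rw [e1]
      rfl
    rw [e2, Int.natAbs_mul, Int.natAbs_natCast] at b1
    have b3 : 1 ≤ (3 * (k - J)).natAbs := by omega
    have b4 : N ≤ (3 * (k - J)).natAbs * N := Nat.le_mul_of_pos_left _ b3
    simp only [Int.natAbs_zero] at b2
    omega
  subst hJ
  rw [sub_self, zpow_zero] at hy
  have hi : i = 0 ∨ i = 1 ∨ i = 2 := a2Basic_cases i
  rcases hi with rfl | rfl | rfl
  · exact ⟨rfl, rfl, by simpa using hy⟩
  · exfalso
    have hv : (1 : ZMod 3).val = 1 := rfl
    rw [hv, pow_one] at hy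
    apply S.detκ w⁻¹
    rw [map_inv]
    exact inv_eq_of_mul_eq_one_right hy
  · exfalso
    have hv : (2 : ZMod 3).val = 2 := rfl
    rw [hv] at hy
    apply S.detκ w
    have h3 : S.κ * S.κ ^ 2 = 1 := by rw [← pow_succ', S.κ3]
    exact mul_right_cancel (hy.trans h3.symm)

theorem T_zpow_inj {k k' : ℤ} (h : S.T ^ k = S.T ^ k') : k = k' := by
  exact (S.nf_unique k k' 1 0 (by simpa using h)).1

theorem ev_eq_one_of_commute (w : FT) (h : Commute S.κ (S.ev w)) : S.ev w = 1 := by
  have h1 := S.κ_ev 1 w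
  have hv : (1 : ZMod 3).val = 1 := rfl
  rw [hv, pow_one, h.eq] at h1
  have h2 : S.ev w = S.ev (sh3 1 w) := mul_right_cancel h1
  have h3 : S.ev (w⁻¹ * sh3 1 w) = 1 := by rw [map_mul, map_inv, ← h2, inv_mul_cancel]
  have h4 : ∀ c, pr3 c w = 1 := by
    intro c
    have h5 := S.det _ h3 c
    rw [map_mul, map_inv, inv_mul_eq_one, a2Basic_pr3_sh3] at h5
    exact eq_one_of_sh3 _ h5.symm
  rw [S.ev_split, h4, h4, map_one, one_mul]

/-- The value of a list of letters that are not of type zero. -/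
theorem run_val (l : List (Let2 G)) (h : ∀ a ∈ l, ¬ a.IsZero) :
    ∃ (w : FT) (i : ZMod 3),
      (l.map S.value).prod = S.T ^ (l.map Let2.jz).sum * S.ev w * S.κ ^ i.val := by
  induction l with
  | nil => exact ⟨1, 0, by simp⟩
  | cons a l ih =>
    obtain ⟨w, i, hw⟩ := ih fun b hb => h b (List.mem_cons_of_mem _ hb)
    have ha : ∃ (w' : FT) (i' : ZMod 3),
        S.value a = S.T ^ a.jz * S.ev w' * S.κ ^ i'.val := by
      have := h a List.mem_cons_self
      cases a with
      | zero s => exact absurd trivial this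
      | one neg f e j =>
        cases neg
        · exact ⟨fam3 f e.val, 0, by simp [value, Let2.jz]⟩
        · exact ⟨(fam3 f e.val)⁻¹, 0, by simp [value, Let2.jz]⟩
      | two j i' => exact ⟨1, i', by simp [value, Let2.jz]⟩
    obtain ⟨w', i', ha⟩ := ha
    refine ⟨w' * sh3 i' w, i' + i, ?_⟩
    simp only [List.map_cons, List.prod_cons, List.sum_cons]
    rw [hw, ha, zpow_add, map_mul, S.κ_add]
    have c1 : Commute (S.ev w' * S.κ ^ i'.val) (S.T ^ (l.map Let2.jz).sum) :=
      (((S.T_ev w').symm.mul_left (S.κT.pow_left _))).zpow_right _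
    have c2 := S.κ_ev i' w
    calc S.T ^ a.jz * S.ev w' * S.κ ^ i'.val *
          (S.T ^ (l.map Let2.jz).sum * S.ev w * S.κ ^ i.val)
        = S.T ^ a.jz * ((S.ev w' * S.κ ^ i'.val) * S.T ^ (l.map Let2.jz).sum) *
          S.ev w * S.κ ^ i.val := by simp only [mul_assoc]
      _ = S.T ^ a.jz * S.T ^ (l.map Let2.jz).sum * S.ev w' * (S.κ ^ i'.val *
          S.ev w) * S.κ ^ i.val := by rw [c1.eq]; simp only [mul_assoc]
      _ = _ := by rw [c2]; simp only [mul_assoc]

/-- The value of a list of letters of type one. -/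
theorem run_one (l : List (Let2 G)) (h : ∀ a ∈ l, a.IsOne) :
    ∃ w : FT, (l.map S.value).prod = S.T ^ (l.map Let2.jz).sum * S.ev w := by
  induction l with
  | nil => exact ⟨1, by simp⟩
  | cons a l ih =>
    obtain ⟨w, hw⟩ := ih fun b hb => h b (List.mem_cons_of_mem _ hb)
    have ha : ∃ w' : FT, S.value a = S.T ^ a.jz * S.ev w' := by
      have := h a List.mem_cons_self
      cases a with
      | zero s => exact absurd this id
      | one neg f e j =>
        cases neg
        · exact ⟨fam3 f e.val, by simp [value, Let2.jz]⟩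
        · exact ⟨(fam3 f e.val)⁻¹, by simp [value, Let2.jz]⟩
      | two j i' => exact absurd this id
    obtain ⟨w', ha⟩ := ha
    refine ⟨w' * w, ?_⟩
    simp only [List.map_cons, List.prod_cons, List.sum_cons]
    rw [hw, ha, zpow_add, map_mul]
    have c1 : Commute (S.ev w') (S.T ^ (l.map Let2.jz).sum) := (S.T_ev w').symm.zpow_right _
    calc S.T ^ a.jz * S.ev w' * (S.T ^ (l.map Let2.jz).sum * S.ev w)
        = S.T ^ a.jz * (S.ev w' * S.T ^ (l.map Let2.jz).sum) * S.ev w := by
          simp only [mul_assoc]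
      _ = _ := by rw [c1.eq]; simp only [mul_assoc]

theorem exists_data (S0 : Finset G) : ∃ D : S.Data, (S0 : Set G) ⊆ D.L0 := by
  let B : Set G := (S0 : Set G) ∪ (S0 : Set G)⁻¹
  have hB : B.Finite := S0.finite_toSet.union S0.finite_toSet.inv
  have hBi : ∀ s ∈ B, s⁻¹ ∈ B := by
    intro s hs
    rcases hs with hs | hs
    · exact Or.inr (by simpa using hs)
    · exact Or.inl (by simpa using hs)
  let L : Set G := (fun p : ZMod 3 × G × ZMod 3 => S.κ ^ p.1.val * p.2.1 * S.κ ^ p.2.2.val) ''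
    (Set.univ ×ˢ B ×ˢ Set.univ)
  have hv : (1 : ZMod 3).val = 1 := rfl
  have hneg : ∀ a : ZMod 3, S.κ ^ (-a).val = (S.κ ^ a.val)⁻¹ := by
    intro a
    rw [eq_inv_iff_mul_eq_one, ← S.κ_add, neg_add_cancel, ZMod.val_zero, pow_zero]
  refine ⟨⟨L, ?_, ?_, ?_, ?_⟩, ?_⟩
  · exact (Set.finite_univ.prod (hB.prod Set.finite_univ)).image _
  · rintro _ ⟨⟨a, s, b⟩, hs, rfl⟩
    refine ⟨(1 + a, s, b), ⟨trivial, hs.2.1, trivial⟩, ?_⟩
    simp only [S.κ_add, hv, pow_one, mul_assoc]
  · rintro _ ⟨⟨a, s, b⟩, hs, rfl⟩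
    refine ⟨(a, s, b + 1), ⟨trivial, hs.2.1, trivial⟩, ?_⟩
    simp only [S.κ_add, hv, pow_one, mul_assoc]
  · rintro _ ⟨⟨a, s, b⟩, hs, rfl⟩
    refine ⟨(-b, s⁻¹, -a), ⟨trivial, hBi s hs.2.1, trivial⟩, ?_⟩
    simp only [hneg, mul_inv_rev, mul_assoc]
  · intro s hs
    exact ⟨(0, s, 0), ⟨trivial, Or.inl hs, trivial⟩, by simp⟩

end Setup2

end Pool.Agent.Lib.MP_66609f_al
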