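import Pool.Agent.Lib.MP_66609f_al.AbsBasic

namespace Pool.Agent.Lib.MP_66609f_al

open Pointwise in
theorem ball_finite {G : Type*} [Group G] (A : Set G) (hA : A.Finite) (n : ℕ) :
    (ball A n).Finite := by
  induction n with
  | zero =>
    refine (Set.finite_singleton (1 : G)).subset ?_
    rintro x ⟨l, hl, -, rfl⟩
    rw [List.length_eq_zero_iff.1 (Nat.le_zero.1 hl)]
    rfl
  | succ n ih =>
    refine (((hA.union hA.inv).mul ih).insert 1).subset ?_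
    rintro x ⟨l, hl, hm, rfl⟩
    cases l with
    | nil => exact Set.mem_insert _ _
    | cons a l =>
      refine Set.mem_insert_of_mem _ ?_
      rw [List.prod_cons]
      refine Set.mul_mem_mul ?_ ⟨l, Nat.le_of_succ_le_succ hl,
        fun y hy => hm y (List.mem_cons_of_mem _ hy), rfl⟩
      exact hm a List.mem_cons_self

theorem absBall_inv {G : Type*} [Group G] {A : Set G} {n : ℕ} {x : G} (hx : x ∈ ball A n) :
    x⁻¹ ∈ ball A n := by
  obtain ⟨l, hl, hm, rfl⟩ := hx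
  refine ⟨(l.map fun y => y⁻¹).reverse, by simpa using hl, fun y hy => ?_, ?_⟩
  · rw [List.mem_reverse, List.mem_map] at hy
    obtain ⟨z, hz, rfl⟩ := hy
    rw [inv_inv]
    exact (hm z hz).symm
  · rw [List.prod_inv_reverse]

namespace Setup

variable {G : Type*} [Group G] {S : Setup G} (D : S.Data) (q v : ℕ)

theorem absBall_rr_r (ε : Bool) : S.rr' ε * S.r = S.rr' (!ε) := by
  cases ε
  · exact one_mul _
  · exact S.rr

theorem absBall_comm_rr {h : G} (hh : Commute S.r h) (ε : Bool) : Commute (S.rr' ε) h := by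
  cases ε
  · exact Commute.one_left _
  · exact hh

theorem absBall_rr_inv (ε : Bool) : (S.rr' ε)⁻¹ = S.rr' ε := by
  cases ε
  · exact inv_one
  · exact inv_eq_of_mul_eq_one_right S.rr

theorem absBall_ρ_rr (ε : Bool) : S.ρ (S.rr' ε) = S.rr' ε := by
  cases ε
  · exact map_one _
  · exact S.ρr

theorem absBall_right (k : ℤ) (h : G) (ε : Bool) :
    S.T ^ k * h * S.rr' (!ε) = S.T ^ k * h * S.rr' ε * S.r := by
  rw [mul_assoc _ (S.rr' ε), absBall_rr_r]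

theorem absBall_left (k : ℤ) {h : G} (hh : Commute S.r h) (ε : Bool) :
    S.T ^ k * h * S.rr' (!ε) = S.r * (S.T ^ k * h * S.rr' ε) := by
  rw [absBall_right]
  exact (((S.rT.zpow_right k).mul_right hh).mul_right
    (absBall_comm_rr (Commute.refl _) ε).symm).eq.symm

theorem absBall_mid (k : ℤ) (h : G) (ε : Bool) :
    S.T ^ k * h * S.rr' (!ε) = S.T ^ k * (h * S.r) * S.rr' ε := by
  rw [← absBall_rr_r, (absBall_comm_rr (Commute.refl S.r) ε).eq]
  simp only [mul_assoc]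

theorem absBall_inv_comm (k : ℤ) {h : G} (hh : Commute S.r h) (hT : Commute S.T h) (ε : Bool) :
    S.T ^ (-k) * h⁻¹ * S.rr' ε = (S.T ^ k * h * S.rr' ε)⁻¹ := by
  rw [mul_inv_rev, absBall_rr_inv, (hT.zpow_left k).eq, mul_inv_rev, ← zpow_neg]
  exact (absBall_comm_rr ((S.rT.zpow_right _).mul_right hh.inv_right) ε).eq.symm

theorem absBall_inv_anti (k : ℤ) {h : G} (hh : Commute S.r h) (hT : h * S.T * h⁻¹ = S.T⁻¹)
    (ε : Bool) : S.T ^ k * h⁻¹ * S.rr' ε = (S.T ^ k * h * S.rr' ε)⁻¹ := by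
  have h1 : h * S.T ^ k * h⁻¹ = (S.T ^ k)⁻¹ := by
    rw [← conj_zpow, hT, inv_zpow]
  have h2 : (S.T ^ k * h)⁻¹ = S.T ^ k * h⁻¹ := by
    rw [mul_inv_rev, ← h1]
    group
  rw [mul_inv_rev, absBall_rr_inv, h2]
  exact (absBall_comm_rr ((S.rT.zpow_right _).mul_right hh.inv_right) ε).eq.symm

theorem absBall_ρ (k : ℤ) (h : G) (ε : Bool) :
    S.T ^ k * S.ρ h * S.rr' ε = S.ρ (S.T ^ k * h * S.rr' ε) := by
  rw [map_mul, map_mul, map_zpow, S.ρT, absBall_ρ_rr]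

theorem absBall_r_mach (f : Bool) (w : FreeGroup Gen) : Commute S.r (S.mach f w) := S.ev_comm_r _

theorem absBall_T_mach (f : Bool) (w : FreeGroup Gen) : Commute S.T (S.mach f w) := S.ev_comm_T _

theorem absBall_ρ_mach (f : Bool) (w : FreeGroup Gen) : S.ρ (S.mach f w) = S.mach (!f) w := by
  unfold mach
  rw [S.ρ_ev, fam_fam]
  cases f <;> rfl

theorem absBall_τ_inv : S.τ⁻¹ = S.τ := inv_eq_of_mul_eq_one_right S.ττ

theorem gens_finite : (D.gens q v).Finite := by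
  have hM : (Set.range (fun p : Bool × Ed => S.mach p.1 p.2.val) ∪
      Set.range (fun p : Bool × Ed => (S.mach p.1 p.2.val)⁻¹) ∪ D.R ∪ {S.τ} ∪
      Set.range (fun f : Bool => S.mach f eta * S.τ) ∪
      Set.range (fun f : Bool => S.τ * (S.mach f eta)⁻¹)).Finite :=
    (((((Set.finite_range _).union (Set.finite_range _)).union D.R_fin).union
      (Set.finite_singleton _)).union (Set.finite_range _)).union (Set.finite_range _)
  refine (D.L0_fin.union ((((Set.finite_Icc (-(v : ℤ)) v).prod hM).prod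
    (Set.finite_univ (α := Bool))).image fun p => S.T ^ p.1.1 * p.1.2 * S.rr' p.2)).subset ?_
  rintro x ⟨a, ha, rfl⟩
  rcases a with s | ⟨_ | _, f, e, j, ε⟩ | ⟨g, j, ε⟩ | ⟨j, ε⟩ | ⟨_ | _, f, j, ε⟩
  · exact Or.inl ha
  · have ha' : j + e.pen ≤ v := ha
    refine Or.inr ⟨(((j : ℤ), S.mach f e.val), ε), ⟨⟨⟨?_, ?_⟩, ?_⟩, Set.mem_univ _⟩, rfl⟩
    · show -(v : ℤ) ≤ j
      omega
    · show (j : ℤ) ≤ v
      omega
    · exact Or.inl (Or.inl (Or.inl (Or.inl (Or.inl ⟨(f, e), rfl⟩))))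
  · have ha' : j + e.pen ≤ v := ha
    refine Or.inr ⟨((-(j : ℤ), (S.mach f e.val)⁻¹), ε), ⟨⟨⟨?_, ?_⟩, ?_⟩, Set.mem_univ _⟩, rfl⟩
    · show -(v : ℤ) ≤ -j
      omega
    · show -(j : ℤ) ≤ v
      omega
    · exact Or.inl (Or.inl (Or.inl (Or.inl (Or.inr ⟨(f, e), rfl⟩))))
  · have ha' : g ∈ D.R ∧ j.natAbs + q ≤ v := ha
    have h2 := ha'.2
    refine Or.inr ⟨((j, g), ε), ⟨⟨⟨?_, ?_⟩, ?_⟩, Set.mem_univ _⟩, rfl⟩
    · show -(v : ℤ) ≤ j
      omega
    · show j ≤ v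
      omega
    · exact Or.inl (Or.inl (Or.inl (Or.inr ha'.1)))
  · have ha' : j + q ≤ v := ha
    refine Or.inr ⟨(((j : ℤ), S.τ), ε), ⟨⟨⟨?_, ?_⟩, ?_⟩, Set.mem_univ _⟩, rfl⟩
    · show -(v : ℤ) ≤ j
      omega
    · show (j : ℤ) ≤ v
      omega
    · exact Or.inl (Or.inl (Or.inr rfl))
  · have ha' : j + q ≤ v := ha
    refine Or.inr ⟨((-(j : ℤ), S.mach f eta * S.τ), ε), ⟨⟨⟨?_, ?_⟩, ?_⟩, Set.mem_univ _⟩, rfl⟩
    · show -(v : ℤ) ≤ -j
      omega
    · show -(j : ℤ) ≤ v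
      omega
    · exact Or.inl (Or.inr ⟨f, rfl⟩)
  · have ha' : j + q ≤ v := ha
    refine Or.inr ⟨((-(j : ℤ), S.τ * (S.mach f eta)⁻¹), ε), ⟨⟨⟨?_, ?_⟩, ?_⟩, Set.mem_univ _⟩, rfl⟩
    · show -(v : ℤ) ≤ -j
      omega
    · show -(j : ℤ) ≤ v
      omega
    · exact Or.inr ⟨f, rfl⟩

theorem L0_subset_gens : D.L0 ⊆ D.gens q v := fun s hs => ⟨.zero s, hs, rfl⟩

theorem gens_inv (x : G) (hx : x ∈ D.gens q v) : x⁻¹ ∈ D.gens q v := by
  obtain ⟨a, ha, rfl⟩ := hx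
  rcases a with s | ⟨_ | _, f, e, j, ε⟩ | ⟨g, j, ε⟩ | ⟨j, ε⟩ | ⟨_ | _, f, j, ε⟩
  · exact ⟨.zero s⁻¹, D.L0_inv s ha, rfl⟩
  · exact ⟨.one true f e j ε, ha,
      absBall_inv_comm (j : ℤ) (absBall_r_mach f _) (absBall_T_mach f _) ε⟩
  · refine ⟨.one false f e j ε, ha, ?_⟩
    have h := absBall_inv_comm (S := S) (-(j : ℤ)) (absBall_r_mach f e.val).inv_right
      (absBall_T_mach f e.val).inv_right ε
    rw [neg_neg, inv_inv] at h
    exact h
  · obtain ⟨⟨h1, -, h3⟩, h4⟩ := D.R_phi g ha.1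
    have h := absBall_inv_anti (S := S) j h1 h4 ε
    rcases h3 with h3 | h3
    · rw [inv_eq_of_mul_eq_one_right h3] at h
      exact ⟨.two g j ε, ha, h⟩
    · have h5 : g⁻¹ = g * S.r := by
        apply inv_eq_of_mul_eq_one_right
        rw [← mul_assoc, h3, S.rr]
      rw [h5, ← absBall_mid] at h
      exact ⟨.two g j (!ε), ha, h⟩
  · have h := absBall_inv_anti (S := S) (j : ℤ) S.rτ S.τT ε
    rw [absBall_τ_inv] at h
    exact ⟨.three j ε, ha, h⟩
  · have h1 : S.mach f eta * S.τ * S.T * (S.mach f eta * S.τ)⁻¹ = S.T⁻¹ := by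
      rw [mul_inv_rev, mul_assoc (S.mach f eta), mul_assoc (S.mach f eta), ← mul_assoc _ S.τ⁻¹,
        S.τT, ← mul_assoc, ← (absBall_T_mach f eta).inv_left.eq, mul_inv_cancel_right]
    have h := absBall_inv_anti (S := S) (-(j : ℤ)) ((absBall_r_mach f eta).mul_right S.rτ) h1 ε
    rw [mul_inv_rev (S.mach f eta), absBall_τ_inv] at h
    exact ⟨.four true f j ε, ha, h⟩
  · have h1 : S.τ * (S.mach f eta)⁻¹ * S.T * (S.τ * (S.mach f eta)⁻¹)⁻¹ = S.T⁻¹ := by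
      rw [mul_inv_rev, inv_inv, mul_assoc S.τ, ← (absBall_T_mach f eta).inv_right.eq, ← S.τT]
      group
    have h := absBall_inv_anti (S := S) (-(j : ℤ))
      (S.rτ.mul_right (absBall_r_mach f eta).inv_right) h1 ε
    rw [mul_inv_rev S.τ, inv_inv, absBall_τ_inv] at h
    exact ⟨.four false f j ε, ha, h⟩

theorem gens_left (x : G) (hx : x ∈ D.gens q v) : S.r * x ∈ D.gens q v := by
  obtain ⟨a, ha, rfl⟩ := hx
  rcases a with s | ⟨_ | _, f, e, j, ε⟩ | ⟨g, j, ε⟩ | ⟨j, ε⟩ | ⟨_ | _, f, j, ε⟩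
  · exact ⟨.zero (S.r * s), D.L0_left s ha, rfl⟩
  · exact ⟨.one false f e j (!ε), ha, absBall_left _ (absBall_r_mach f _) ε⟩
  · exact ⟨.one true f e j (!ε), ha, absBall_left _ (absBall_r_mach f _).inv_right ε⟩
  · exact ⟨.two g j (!ε), ha, absBall_left _ (D.R_phi g ha.1).1.1 ε⟩
  · exact ⟨.three j (!ε), ha, absBall_left _ S.rτ ε⟩
  · exact ⟨.four false f j (!ε), ha, absBall_left _ ((absBall_r_mach f _).mul_right S.rτ) ε⟩
  · exact ⟨.four true f j (!ε), ha,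
      absBall_left _ (S.rτ.mul_right (absBall_r_mach f _).inv_right) ε⟩

theorem gens_right (x : G) (hx : x ∈ D.gens q v) : x * S.r ∈ D.gens q v := by
  obtain ⟨a, ha, rfl⟩ := hx
  rcases a with s | ⟨_ | _, f, e, j, ε⟩ | ⟨g, j, ε⟩ | ⟨j, ε⟩ | ⟨_ | _, f, j, ε⟩
  · exact ⟨.zero (s * S.r), D.L0_right s ha, rfl⟩
  · exact ⟨.one false f e j (!ε), ha, absBall_right _ _ ε⟩
  · exact ⟨.one true f e j (!ε), ha, absBall_right _ _ ε⟩
  · exact ⟨.two g j (!ε), ha, absBall_right _ _ ε⟩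
  · exact ⟨.three j (!ε), ha, absBall_right _ _ ε⟩
  · exact ⟨.four false f j (!ε), ha, absBall_right _ _ ε⟩
  · exact ⟨.four true f j (!ε), ha, absBall_right _ _ ε⟩

theorem gens_ρ (x : G) (hx : x ∈ D.gens q v) : S.ρ x ∈ D.gens q v := by
  obtain ⟨a, ha, rfl⟩ := hx
  rcases a with s | ⟨_ | _, f, e, j, ε⟩ | ⟨g, j, ε⟩ | ⟨j, ε⟩ | ⟨_ | _, f, j, ε⟩
  · exact ⟨.zero (S.ρ s), D.L0_ρ s ha, rfl⟩
  · have h := absBall_ρ (S := S) (j : ℤ) (S.mach f e.val) ε
    rw [absBall_ρ_mach] at h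
    exact ⟨.one false (!f) e j ε, ha, h⟩
  · have h := absBall_ρ (S := S) (-(j : ℤ)) (S.mach f e.val)⁻¹ ε
    rw [map_inv, absBall_ρ_mach] at h
    exact ⟨.one true (!f) e j ε, ha, h⟩
  · have h := absBall_ρ (S := S) j g ε
    rcases (D.R_phi g ha.1).1.2.1 with h2 | h2
    · rw [h2] at h
      exact ⟨.two g j ε, ha, h⟩
    · rw [h2, ← absBall_mid] at h
      exact ⟨.two g j (!ε), ha, h⟩
  · have h := absBall_ρ (S := S) (j : ℤ) S.τ ε
    rw [S.ρτ] at h
    exact ⟨.three j ε, ha, h⟩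
  · have h := absBall_ρ (S := S) (-(j : ℤ)) (S.mach f eta * S.τ) ε
    rw [map_mul S.ρ (S.mach f eta), S.ρτ, absBall_ρ_mach] at h
    exact ⟨.four false (!f) j ε, ha, h⟩
  · have h := absBall_ρ (S := S) (-(j : ℤ)) (S.τ * (S.mach f eta)⁻¹) ε
    rw [map_mul S.ρ S.τ, S.ρτ, map_inv, absBall_ρ_mach] at h
    exact ⟨.four true (!f) j ε, ha, h⟩

theorem absBall_mem_gens {y : G} (h : y ∈ D.gens q v ∨ y⁻¹ ∈ D.gens q v) : y ∈ D.gens q v := by
  rcases h with h | h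
  · exact h
  · have := gens_inv D q v _ h
    rwa [inv_inv] at this

theorem absBall_lift (l : List G) (h : ∀ y ∈ l, y ∈ D.gens q v) :
    ∃ l' : List (Let G), (∀ a ∈ l', D.Valid q v a) ∧ l'.map S.value = l := by
  induction l with
  | nil => exact ⟨[], fun a ha => absurd ha List.not_mem_nil, rfl⟩
  | cons y l ih =>
    obtain ⟨l', h1, h2⟩ := ih fun z hz => h z (List.mem_cons_of_mem _ hz)
    obtain ⟨a, ha, hy⟩ := h y List.mem_cons_self
    refine ⟨a :: l', fun b hb => ?_, by rw [List.map_cons, hy, h2]⟩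
    rcases List.mem_cons.1 hb with rfl | hb
    · exact ha
    · exact h1 b hb

theorem mem_ball_iff (n : ℕ) (x : G) : x ∈ ball (D.gens q v) n ↔
    ∃ l : List (Let G), l.length = n ∧ (∀ a ∈ l, D.Valid q v a) ∧ (l.map S.value).prod = x := by
  constructor
  · rintro ⟨l, hl, hm, rfl⟩
    obtain ⟨l', h1, h2⟩ := absBall_lift D q v (l ++ List.replicate (n - l.length) 1) (by
      intro y hy
      rcases List.mem_append.1 hy with hy | hy
      · exact absBall_mem_gens D q v (hm y hy)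
      · rw [List.eq_of_mem_replicate hy]
        exact L0_subset_gens D q v D.L0_one)
    refine ⟨l', ?_, h1, ?_⟩
    · rw [← List.length_map (f := S.value), h2, List.length_append, List.length_replicate]
      omega
    · rw [h2, List.prod_append, List.prod_replicate, one_pow, mul_one]
  · rintro ⟨l, hl, hm, rfl⟩
    refine ⟨l.map S.value, by rw [List.length_map, hl], fun y hy => ?_, rfl⟩
    obtain ⟨a, ha, rfl⟩ := List.mem_map.1 hy
    exact Or.inl ⟨a, hm a ha, rfl⟩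

theorem absBall_r_mul (n : ℕ) (hn : 1 ≤ n) (x : G) (hx : x ∈ ball (D.gens q v) n) :
    S.r * x ∈ ball (D.gens q v) n := by
  obtain ⟨l, hl, hm, rfl⟩ := hx
  cases l with
  | nil =>
    refine ⟨[S.r * 1], hn, fun y hy => ?_, by simp⟩
    rw [List.mem_singleton.1 hy]
    exact Or.inl (L0_subset_gens D q v (D.L0_left 1 D.L0_one))
  | cons a l =>
    refine ⟨S.r * a :: l, hl, fun y hy => ?_, by rw [List.prod_cons, List.prod_cons, mul_assoc]⟩
    rcases List.mem_cons.1 hy with rfl | hy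
    · exact Or.inl (gens_left D q v a (absBall_mem_gens D q v (hm a List.mem_cons_self)))
    · exact hm y (List.mem_cons_of_mem _ hy)

theorem ball_mul_r (n : ℕ) (hn : 1 ≤ n) (x : G) (hx : x ∈ ball (D.gens q v) n) :
    x * S.r ∈ ball (D.gens q v) n := by
  have h := absBall_inv (absBall_r_mul D q v n hn _ (absBall_inv hx))
  rwa [mul_inv_rev, inv_inv, inv_eq_of_mul_eq_one_right S.rr] at h

theorem absBall_ρ_mem (n : ℕ) (x : G) (hx : x ∈ ball (D.gens q v) n) :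
    S.ρ x ∈ ball (D.gens q v) n := by
  obtain ⟨l, hl, hm, rfl⟩ := hx
  refine ⟨l.map S.ρ, by rwa [List.length_map], fun y hy => ?_, (map_list_prod S.ρ l).symm⟩
  obtain ⟨z, hz, rfl⟩ := List.mem_map.1 hy
  exact Or.inl (gens_ρ D q v z (absBall_mem_gens D q v (hm z hz)))

theorem ball_mod_four (n : ℕ) (hn : 1 ≤ n) :
    ((ball (D.gens q v) n).ncard : ZMod 4) =
      ((ball (D.gens q v) n ∩ Phi S.r S.ρ).ncard : ZMod 4) := by
  exact card_mod_four S.r S.ρ S.rr S.r_ne S.ρρ S.ρr _ (ball_finite _ (gens_finite D q v) n)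
    (absBall_r_mul D q v n hn) (ball_mul_r D q v n hn) (fun _ hg => absBall_inv hg)
    (absBall_ρ_mem D q v n)

end Setup

end Pool.Agent.Lib.MP_66609f_al
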