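import Pool.Agent.Lib.MP_66609f_al.Setup
import Pool.Agent.Lib.MP_66609f_al.MachEq

namespace Pool.Agent.Lib.MP_66609f_al

namespace Setup

variable {G : Type*} [Group G] (S : Setup G)

theorem absBasic_ev_of (b : Bool × Bool) : S.ev (FreeGroup.of b) = S.gn b := by
  simp [ev]

theorem absBasic_comm_ev {a : G} (ha : ∀ b, Commute a (S.gn b)) (w : FW) :
    Commute a (S.ev w) := by
  induction w using FreeGroup.induction_on with
  | C1 => rw [map_one]; exact Commute.one_right _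
  | of b => rw [absBasic_ev_of]; exact ha b
  | inv_of b hb => rw [map_inv]; exact hb.inv_right
  | mul x y hx hy => rw [map_mul]; exact hx.mul_right hy

theorem ev_comm_r (w : FW) : Commute S.r (S.ev w) :=
  S.absBasic_comm_ev S.r_gn w

theorem ev_comm_T (w : FW) : Commute S.T (S.ev w) :=
  S.absBasic_comm_ev S.T_gn w

theorem absBasic_fam_of (f b : Bool × Bool) : fam f (FreeGroup.of b) =
    if f.1 then (FreeGroup.of (xor b.1 f.2, b.2))⁻¹ else FreeGroup.of (xor b.1 f.2, b.2) := by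
  simp [fam]

theorem ρ_ev (w : FW) : S.ρ (S.ev w) = S.ev (fam (true, false) w) := by
  have h : S.ρ.toMonoidHom.comp S.ev = S.ev.comp (fam (true, false)) := by
    refine FreeGroup.ext_hom _ _ fun b => ?_
    simp [absBasic_fam_of, absBasic_ev_of, S.ρ_gn]
  exact DFunLike.congr_fun h w

theorem τ_ev (w : FW) : S.τ * S.ev w * S.τ⁻¹ = S.ev (fam (false, true) w) := by
  have h : (MulAut.conj S.τ).toMonoidHom.comp S.ev = S.ev.comp (fam (false, true)) := by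
    refine FreeGroup.ext_hom _ _ fun b => ?_
    simp [absBasic_fam_of, absBasic_ev_of, S.τ_gn]
  exact DFunLike.congr_fun h w

theorem fam_fam (f f' : Bool × Bool) (w : FW) :
    fam f (fam f' w) = fam (xor f.1 f'.1, xor f.2 f'.2) w := by
  have h : (fam f).comp (fam f') = fam (xor f.1 f'.1, xor f.2 f'.2) := by
    refine FreeGroup.ext_hom _ _ fun b => ?_
    obtain ⟨f1, f2⟩ := f
    obtain ⟨g1, g2⟩ := f'
    obtain ⟨b1, b2⟩ := b
    cases f1 <;> cases f2 <;> cases g1 <;> cases g2 <;> cases b1 <;> simp [absBasic_fam_of]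
  exact DFunLike.congr_fun h w

theorem fam_ff (w : FW) : fam (false, false) w = w := by
  have h : fam (false, false) = MonoidHom.id FW := by
    refine FreeGroup.ext_hom _ _ fun b => ?_
    simp [absBasic_fam_of]
  exact DFunLike.congr_fun h w

theorem absBasic_pc_swap (w : FW) : pc false (fam (false, true) w) = pc true w := by
  have h : (pc false).comp (fam (false, true)) = pc true := by
    refine FreeGroup.ext_hom _ _ fun b => ?_
    obtain ⟨b1, b2⟩ := b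
    cases b1 <;> simp [absBasic_fam_of, pc]
  exact DFunLike.congr_fun h w

theorem det' (w : FW) (h : S.ev w = 1 ∨ S.ev w = S.r) (c : Bool) : pc c w = 1 := by
  cases c
  · exact S.det w h
  · rw [← absBasic_pc_swap]
    refine S.det _ ?_
    show S.ev _ = 1 ∨ S.ev _ = S.r
    rw [← τ_ev]
    rcases h with h | h
    · left
      rw [h, mul_one, mul_inv_cancel]
    · right
      rw [h, ← S.rτ.eq, mul_inv_cancel_right]

theorem absBasic_yt : Commute (S.gn (true, false)) (S.gn (false, true)) := by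
  have h := S.xu.conj S.τ
  rwa [S.τ_gn, S.τ_gn] at h

theorem absBasic_comm_fam (f : Bool) {a b : Bool × Bool} (h : Commute (S.gn a) (S.gn b)) :
    Commute (S.ev (fam (f, false) (FreeGroup.of a))) (S.ev (fam (f, false) (FreeGroup.of b))) := by
  cases f
  · simpa [absBasic_fam_of, absBasic_ev_of] using h
  · simpa [absBasic_fam_of, absBasic_ev_of] using h

theorem absBasic_realH_x : realH (.of .x) = Y0 * FreeGroup.of (false, false) * Y0⁻¹ := by
  simp [realH, realG, Gen.crd, Gen.idx]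

theorem absBasic_realH_y : realH (.of .y) = Y0 * FreeGroup.of (true, false) * Y0⁻¹ := by
  simp [realH, realG, Gen.crd, Gen.idx]

theorem absBasic_realH_t : realH (.of .t) = Y0 * (FreeGroup.of (false, true) *
    FreeGroup.of (false, false) * (FreeGroup.of (false, true))⁻¹) * Y0⁻¹ := by
  simp [realH, realG, Gen.crd, Gen.idx]

theorem absBasic_realH_u : realH (.of .u) = Y0 * (FreeGroup.of (true, true) *
    FreeGroup.of (true, false) * (FreeGroup.of (true, true))⁻¹) * Y0⁻¹ := by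
  simp [realH, realG, Gen.crd, Gen.idx]

theorem mach_xy (f : Bool) : Commute (S.mach f (.of .x)) (S.mach f (.of .y)) := by
  unfold mach
  rw [absBasic_realH_x, absBasic_realH_y]
  simp only [map_mul, map_inv]
  exact (S.absBasic_comm_fam f S.xy).conj _

theorem mach_xu (f : Bool) : Commute (S.mach f (.of .x)) (S.mach f (.of .u)) := by
  unfold mach
  rw [absBasic_realH_x, absBasic_realH_u]
  simp only [map_mul, map_inv]
  exact (((S.absBasic_comm_fam f S.xu).mul_right (S.absBasic_comm_fam f S.xy)).mul_right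
    (S.absBasic_comm_fam f S.xu).inv_right).conj _

theorem mach_yt (f : Bool) : Commute (S.mach f (.of .y)) (S.mach f (.of .t)) := by
  unfold mach
  rw [absBasic_realH_y, absBasic_realH_t]
  simp only [map_mul, map_inv]
  exact (((S.absBasic_comm_fam f S.absBasic_yt).mul_right
    (S.absBasic_comm_fam f S.xy.symm)).mul_right
    (S.absBasic_comm_fam f S.absBasic_yt).inv_right).conj _

/-- Bounded complexity of all powers of `T ^ k` forces `k = 0`. -/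
theorem absBasic_zero_of_bdd (k : ℤ) (K : ℕ) (h : ∀ N : ℕ, S.Θ (S.T ^ (k * N)) ≤ K) : k = 0 := by
  obtain ⟨C, hC⟩ := S.th0
  have h1 := hC (k * ((K + C + 1 : ℕ) : ℤ))
  have h2 := h (K + C + 1)
  rw [Int.natAbs_mul, Int.natAbs_natCast] at h1
  by_contra hk
  have h3 : 1 ≤ k.natAbs := Int.natAbs_pos.2 hk
  have h4 : K + C + 1 ≤ k.natAbs * (K + C + 1) := Nat.le_mul_of_pos_left _ h3
  omega

theorem T_zpow_eq (k : ℤ) (h : S.T ^ k = 1 ∨ S.T ^ k = S.r) : k = 0 := by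
  have h2 : S.T ^ (k + k) = 1 := by
    rw [zpow_add]
    rcases h with h | h
    · rw [h, mul_one]
    · rw [h, S.rr]
  have h3 := S.absBasic_zero_of_bdd (k + k) (S.Θ 1) fun N => by
    rw [zpow_mul, h2, one_zpow]
  omega

theorem τ_phi : S.τ ∈ Phi S.r S.ρ :=
  ⟨S.rτ.eq, Or.inl S.ρτ, Or.inl S.ττ⟩

theorem absBasic_rr_mul_self (ε : Bool) : S.rr' ε * S.rr' ε = 1 := by
  cases ε
  · simp [rr']
  · simp [rr', S.rr]

theorem absBasic_rr_mul (ε ε' : Bool) : S.rr' ε * S.rr' ε' = S.rr' (xor ε ε') := by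
  cases ε <;> cases ε' <;> simp [rr', S.rr]

theorem absBasic_rr_inv (ε : Bool) : (S.rr' ε)⁻¹ = S.rr' ε :=
  inv_eq_of_mul_eq_one_right (S.absBasic_rr_mul_self ε)

theorem absBasic_ρ_rr (ε : Bool) : S.ρ (S.rr' ε) = S.rr' ε := by
  cases ε
  · simp [rr']
  · simp [rr', S.ρr]

theorem absBasic_rr_comm {a : G} (h : Commute S.r a) (ε : Bool) : Commute (S.rr' ε) a := by
  cases ε
  · exact Commute.one_left a
  · exact h

/-- The power trick. -/
theorem expo_zero (g : G) (w w' : FW) (e : ℤ) (ε : Bool) (h1 : S.r * g = g * S.r)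
    (h2 : S.ρ g = g ∨ S.ρ g = g * S.r) (h : S.ev w * g * S.ev w' = S.T ^ e * g * S.rr' ε) :
    e = 0 := by
  have hrg : Commute S.r g := h1
  have hz : S.ev w * (g * S.ev w' * g⁻¹) = S.T ^ e * S.rr' ε := by
    calc S.ev w * (g * S.ev w' * g⁻¹) = S.ev w * g * S.ev w' * g⁻¹ := by group
      _ = S.T ^ e * (g * S.rr' ε) * g⁻¹ := by rw [h, mul_assoc (S.T ^ e)]
      _ = S.T ^ e * S.rr' ε := by
        rw [← (S.absBasic_rr_comm hrg ε).eq]
        group
  have hc1 : Commute (S.ev w) (S.T ^ e * S.rr' ε) :=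
    ((S.ev_comm_T w).symm.zpow_right e).mul_right
      (S.absBasic_rr_comm (S.ev_comm_r w) ε).symm
  have hc2 : Commute (S.ev w) (g * S.ev w' * g⁻¹) := by
    have h3 : g * S.ev w' * g⁻¹ = (S.ev w)⁻¹ * (S.T ^ e * S.rr' ε) := by
      rw [← hz, inv_mul_cancel_left]
    rw [h3]
    exact (Commute.refl _).inv_right.mul_right hc1
  have hpow : ∀ N : ℕ, (S.T ^ e * S.rr' ε) ^ N = S.ev (w ^ N) * (g * (S.ev (w' ^ N) * g⁻¹)) := by
    intro N
    rw [← hz, hc2.mul_pow, conj_pow, map_pow, map_pow, mul_assoc g]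
  have hsq : (S.T ^ e * S.rr' ε) ^ 2 = S.T ^ (e + e) := by
    rw [((S.absBasic_rr_comm S.rT ε).symm.zpow_left e).mul_pow, sq, sq, absBasic_rr_mul_self,
      mul_one, zpow_add]
  have hi1 : S.r * g⁻¹ = g⁻¹ * S.r := hrg.inv_right.eq
  have hi2 : S.ρ g⁻¹ = g⁻¹ ∨ S.ρ g⁻¹ = g⁻¹ * S.r := by
    rw [map_inv]
    rcases h2 with h2 | h2
    · left
      rw [h2]
    · right
      rw [h2, mul_inv_rev, inv_eq_of_mul_eq_one_right S.rr, hi1]
  have hH : S.H g⁻¹ := by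
    have h3 := S.H_nrm g⁻¹ 1 hi1 hi2 S.H_one
    rwa [mul_one] at h3
  obtain ⟨C1, hC1⟩ := S.th1 g
  obtain ⟨C3, hC3⟩ := S.th3
  have h4 := S.absBasic_zero_of_bdd (e + e) (S.Θ g⁻¹ + C3 + C1 + C3) fun N => by
    rw [zpow_mul, zpow_natCast, ← hsq, ← pow_mul, hpow]
    have a1 := hC3 (w' ^ (2 * N)) g⁻¹ hH
    have a2 := hC1 (S.ev (w' ^ (2 * N)) * g⁻¹)
    have a3 := hC3 (w ^ (2 * N)) (g * (S.ev (w' ^ (2 * N)) * g⁻¹))
      (S.H_nrm g _ h1 h2 (S.H_gn _ _ hH))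
    unfold ev at a2 a3 ⊢
    omega
  omega

theorem phi_plus_finite : {g | g ∈ Phi S.r S.ρ ∧ g * S.T * g⁻¹ = S.T}.Finite := by
  obtain ⟨F, hF, hF'⟩ := S.fix2
  have hsub : ∀ f0 : G, {g | (g ∈ Phi S.r S.ρ ∧ g * S.T * g⁻¹ = S.T) ∧
      ∃ k : ℤ, g = S.T ^ k * f0}.Subsingleton := by
    rintro f0 g ⟨⟨hg, hgT⟩, k, hk⟩ g' ⟨⟨hg', -⟩, k', hk'⟩
    have h1 : g' = S.T ^ (k' - k) * g := by
      rw [hk', hk]
      group
    have hc : Commute g S.T := by
      show g * S.T = S.T * g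
      rw [← mul_inv_eq_iff_eq_mul, hgT]
    have h2 : g' * g' = S.T ^ ((k' - k) + (k' - k)) * (g * g) := by
      rw [h1, zpow_add, mul_assoc, mul_assoc, ← mul_assoc g, (hc.zpow_right (k' - k)).eq,
        mul_assoc]
    have h3 : S.T ^ ((k' - k) + (k' - k)) = g' * g' * (g * g)⁻¹ := by
      rw [h2, mul_inv_cancel_right]
    have h4 : (k' - k) + (k' - k) = 0 := by
      refine S.T_zpow_eq _ ?_
      rw [h3]
      rcases hg.2.2 with a | a <;> rcases hg'.2.2 with b | b <;> rw [a, b]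
      · left
        rw [mul_inv_cancel]
      · right
        rw [inv_one, mul_one]
      · right
        rw [one_mul, inv_eq_of_mul_eq_one_right S.rr]
      · left
        rw [mul_inv_cancel]
    have h5 : k' - k = 0 := by omega
    rw [h1, h5, zpow_zero, one_mul]
  refine (hF.biUnion fun f0 _ => (hsub f0).finite).subset fun g hg => ?_
  obtain ⟨f0, hf0, k, hk⟩ := hF' g hg.1.1 hg.1.2.1
  exact Set.mem_biUnion hf0 ⟨hg, k, hk⟩

/-- The double cosets of the powers of `T` and of `r`. -/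
def absBasic_setoid : Setoid G where
  r g g' := ∃ (k : ℤ) (ε : Bool), g' = S.T ^ k * g * S.rr' ε
  iseqv :=
    { refl := fun g => ⟨0, false, by simp [rr']⟩
      symm := by
        rintro g g' ⟨k, ε, rfl⟩
        refine ⟨-k, ε, ?_⟩
        rw [mul_assoc, mul_assoc, S.absBasic_rr_mul_self]
        group
      trans := by
        rintro g g' g'' ⟨k, ε, rfl⟩ ⟨k', ε', rfl⟩
        refine ⟨k' + k, xor ε ε', ?_⟩
        rw [← S.absBasic_rr_mul]
        group }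

theorem absBasic_exists_R : ∃ R : Set G, R.Finite ∧
    (∀ g ∈ R, g ∈ Phi S.r S.ρ ∧ g * S.T * g⁻¹ = S.T⁻¹) ∧ S.τ ∉ R ∧
    (∀ g ∈ insert S.τ R, ∀ g' ∈ insert S.τ R, ∀ (k : ℤ) (ε : Bool),
      g' = S.T ^ k * g * S.rr' ε → g' = g) ∧
    ∀ g ∈ Phi S.r S.ρ, g * S.T * g⁻¹ = S.T⁻¹ →
      ∃ g0 ∈ insert S.τ R, ∃ (k : ℤ) (ε : Bool), g = S.T ^ k * g0 * S.rr' ε := by
  classical
  obtain ⟨F, hF, hF'⟩ := S.fix2
  let P : Set G := {g | g ∈ Phi S.r S.ρ ∧ g * S.T * g⁻¹ = S.T⁻¹}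
  let cl : G → Quotient S.absBasic_setoid := Quotient.mk S.absBasic_setoid
  have hcl : ∀ g g', cl g = cl g' ↔ ∃ (k : ℤ) (ε : Bool), g' = S.T ^ k * g * S.rr' ε :=
    fun g g' => Quotient.eq
  have hex : ∀ q, ∃ g, q ∈ cl '' P → g ∈ P ∧ cl g = q := by
    intro q
    by_cases hq : q ∈ cl '' P
    · obtain ⟨g, hg, hgq⟩ := hq
      exact ⟨g, fun _ => ⟨hg, hgq⟩⟩
    · exact ⟨1, fun h => absurd h hq⟩
  choose σ hσ using hex
  have hfin : (cl '' P).Finite := by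
    refine (hF.image cl).subset ?_
    rintro _ ⟨g, hg, rfl⟩
    obtain ⟨f0, hf0, k, hk⟩ := hF' g hg.1.1 hg.1.2.1
    exact ⟨f0, hf0, (hcl _ _).2 ⟨k, false, by simp [rr', hk]⟩⟩
  refine ⟨σ '' (cl '' P \ {cl S.τ}), (hfin.subset Set.sdiff_subset).image σ, ?_, ?_, ?_, ?_⟩
  · rintro _ ⟨q, hq, rfl⟩
    exact (hσ q hq.1).1
  · rintro ⟨q, hq, h⟩
    exact hq.2 (by rw [← (hσ q hq.1).2, h]; rfl)
  · intro g hg g' hg' k ε h
    have h1 : cl g = cl g' := (hcl _ _).2 ⟨k, ε, h⟩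
    rcases hg with hg | ⟨q, hq, hg⟩ <;> rcases hg' with hg' | ⟨q', hq', hg'⟩
    · rw [hg, hg']
    · refine absurd ?_ hq'.2
      rw [← (hσ q' hq'.1).2, hg', ← h1, hg]
      rfl
    · refine absurd ?_ hq.2
      rw [← (hσ q hq.1).2, hg, h1, hg']
      rfl
    · have h2 : q = q' := by rw [← (hσ q hq.1).2, ← (hσ q' hq'.1).2, hg, hg', h1]
      rw [← hg, ← hg', h2]
  · intro g hg hgT
    by_cases h : cl g = cl S.τ
    · exact ⟨S.τ, Set.mem_insert _ _, (hcl _ _).1 h.symm⟩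
    · have hq : cl g ∈ cl '' P := ⟨g, ⟨hg, hgT⟩, rfl⟩
      exact ⟨σ (cl g), Set.mem_insert_of_mem _ ⟨cl g, ⟨hq, h⟩, rfl⟩, (hcl _ _).1 (hσ _ hq).2⟩

theorem absBasic_exists_L0 (S0 : Set G) (h : S0.Finite) : ∃ L : Set G, L.Finite ∧ 1 ∈ L ∧
    (∀ s ∈ L, S.r * s ∈ L) ∧ (∀ s ∈ L, s * S.r ∈ L) ∧ (∀ s ∈ L, s⁻¹ ∈ L) ∧
    (∀ s ∈ L, S.ρ s ∈ L) ∧ S0 ⊆ L := by
  let A1 : Set G := insert 1 S0 ∪ (insert 1 S0)⁻¹
  have hA1 : A1.Finite := (h.insert 1).union (h.insert 1).inv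
  have hA1i : ∀ s ∈ A1, s⁻¹ ∈ A1 := by
    rintro s (hs | hs)
    · exact Or.inr (Set.inv_mem_inv.2 hs)
    · exact Or.inl hs
  let A2 : Set G := A1 ∪ S.ρ '' A1
  have hA2 : A2.Finite := hA1.union (hA1.image _)
  have hA2i : ∀ s ∈ A2, s⁻¹ ∈ A2 := by
    rintro s (hs | ⟨t, ht, rfl⟩)
    · exact Or.inl (hA1i s hs)
    · exact Or.inr ⟨t⁻¹, hA1i t ht, map_inv _ _⟩
  have hA2ρ : ∀ s ∈ A2, S.ρ s ∈ A2 := by
    rintro s (hs | ⟨t, ht, rfl⟩)
    · exact Or.inr ⟨s, hs, rfl⟩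
    · rw [S.ρρ]
      exact Or.inl ht
  have hsub : ∀ s ∈ insert 1 S0,
      s ∈ {x | ∃ (a c : Bool), ∃ s ∈ A2, x = S.rr' a * s * S.rr' c} :=
    fun s hs => ⟨false, false, s, Or.inl (Or.inl hs), by simp [rr']⟩
  refine ⟨{x | ∃ (a c : Bool), ∃ s ∈ A2, x = S.rr' a * s * S.rr' c}, ?_,
    hsub 1 (Set.mem_insert _ _), ?_, ?_, ?_, ?_, fun s hs => hsub s (Set.mem_insert_of_mem _ hs)⟩
  · refine (((Set.finite_univ (α := Bool × Bool)).prod hA2).image
      fun p => S.rr' p.1.1 * p.2 * S.rr' p.1.2).subset ?_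
    rintro _ ⟨a, c, s, hs, rfl⟩
    exact ⟨((a, c), s), ⟨Set.mem_univ _, hs⟩, rfl⟩
  · rintro _ ⟨a, c, s, hs, rfl⟩
    refine ⟨xor true a, c, s, hs, ?_⟩
    rw [← S.absBasic_rr_mul, mul_assoc, mul_assoc, mul_assoc]
    rfl
  · rintro _ ⟨a, c, s, hs, rfl⟩
    refine ⟨a, xor c true, s, hs, ?_⟩
    rw [← S.absBasic_rr_mul, mul_assoc]
    rfl
  · rintro _ ⟨a, c, s, hs, rfl⟩
    refine ⟨c, a, s⁻¹, hA2i s hs, ?_⟩
    rw [mul_inv_rev, mul_inv_rev, S.absBasic_rr_inv, S.absBasic_rr_inv, mul_assoc]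
  · rintro _ ⟨a, c, s, hs, rfl⟩
    refine ⟨a, c, S.ρ s, hA2ρ s hs, ?_⟩
    rw [map_mul, map_mul, S.absBasic_ρ_rr, S.absBasic_ρ_rr]

theorem exists_data (S0 : Set G) (h : S0.Finite) : ∃ D : S.Data, S0 ⊆ D.L0 := by
  obtain ⟨L, h1, h2, h3, h4, h5, h6, h7⟩ := S.absBasic_exists_L0 S0 h
  obtain ⟨R, k1, k2, k3, k4, k5⟩ := S.absBasic_exists_R
  exact ⟨⟨L, h1, h2, h3, h4, h5, h6, R, k1, k2, k3, k4, k5⟩, h7⟩

end Setup

end Pool.Agent.Lib.MP_66609f_al
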