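import Pool.Agent.Lib.MP_66609f_al.Setup

namespace Pool.Agent.Lib.MP_66609f_al

/-- The sign of a family. -/
def indep_sg (i : Bool) : ℤ := if i then -1 else 1

/-- Decoding of the index of a generator. -/
def indep_dec (c : Bool) (i : ℤ) : FreeGroup Gen :=
  if i = 1 then pr c (FreeGroup.of .x) else if i = 2 then pr c (FreeGroup.of .t)
  else if i = 3 then pr c (FreeGroup.of (.gs .A)) else if i = 4 then pr c (FreeGroup.of (.gs .B))
  else if i = 5 then pr c (FreeGroup.of (.gs .C)) else if i = 6 then pr c (FreeGroup.of (.gs .D))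
  else if i = 7 then pr c (FreeGroup.of (.gs .Q)) else if i = 10 then pr c (FreeGroup.of .y)
  else if i = 11 then pr c (FreeGroup.of .u) else 1

theorem indep_dec_idx (c : Bool) (m : Gen) : indep_dec c m.idx = pr c (FreeGroup.of m) := by
  rcases m with _ | _ | _ | _ | (_ | _ | _ | _ | _) <;> simp [indep_dec, Gen.idx, St.num]

theorem indep_dec_neg (c : Bool) (m : Gen) : indep_dec c (-m.idx) = 1 := by
  rcases m with _ | _ | _ | _ | (_ | _ | _ | _ | _) <;> simp [indep_dec, Gen.idx, St.num]

/-- Lamps act by left multiplication. -/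
def indep_L : (ℤ → FreeGroup Gen) →* Equiv.Perm (FreeGroup Gen × ℤ) where
  toFun v :=
    { toFun := fun p => (v p.2 * p.1, p.2)
      invFun := fun p => ((v p.2)⁻¹ * p.1, p.2)
      left_inv := fun p => by simp
      right_inv := fun p => by simp }
  map_one' := by
    ext p <;> simp
  map_mul' v w := by
    ext p <;> simp [mul_assoc]

/-- The shift. -/
def indep_B : Multiplicative ℤ →* Equiv.Perm (FreeGroup Gen × ℤ) where
  toFun k :=
    { toFun := fun p => (p.1, p.2 - k.toAdd)
      invFun := fun p => (p.1, p.2 + k.toAdd)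
      left_inv := fun p => by simp
      right_inv := fun p => by simp }
  map_one' := by
    ext p <;> simp
  map_mul' v w := by
    ext p
    · simp
    · simp
      ring

/-- The action of the free group on two letters. -/
def indep_act (w : ℤ → FreeGroup Gen) : FreeGroup Bool →* Equiv.Perm (FreeGroup Gen × ℤ) :=
  FreeGroup.lift fun b => if b then indep_B (Multiplicative.ofAdd 1) else indep_L w

/-- `x` multiplies the lamp at the origin by `y`. -/
def indep_Rel (w : ℤ → FreeGroup Gen) (x : FreeGroup Bool) (y : FreeGroup Gen) : Prop :=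
  ∀ g, indep_act w x (g, 0) = (y * g, 0)

theorem indep_rel_one (w : ℤ → FreeGroup Gen) : indep_Rel w 1 1 := by
  intro g
  simp

theorem indep_rel_mul {w : ℤ → FreeGroup Gen} {x x' : FreeGroup Bool} {y y' : FreeGroup Gen}
    (h : indep_Rel w x y) (h' : indep_Rel w x' y') : indep_Rel w (x * x') (y * y') := by
  intro g
  rw [map_mul, Equiv.Perm.mul_apply, h', h, mul_assoc]

theorem indep_rel_inv {w : ℤ → FreeGroup Gen} {x : FreeGroup Bool} {y : FreeGroup Gen}
    (h : indep_Rel w x y) : indep_Rel w x⁻¹ y⁻¹ := by
  intro g
  rw [map_inv, Equiv.Perm.inv_eq_iff_eq, h, mul_inv_cancel_left]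

theorem indep_rel_conj (w : ℤ → FreeGroup Gen) (i s : ℤ) :
    indep_Rel w (FreeGroup.of true ^ i * FreeGroup.of false ^ s * (FreeGroup.of true ^ i)⁻¹)
      (w i ^ s) := by
  intro g
  have h1 : indep_act w (FreeGroup.of true ^ i) = indep_B (Multiplicative.ofAdd i) := by
    rw [map_zpow, indep_act, FreeGroup.lift_apply_of, if_pos rfl, ← map_zpow, ← ofAdd_zsmul]
    simp
  have h2 : indep_act w (FreeGroup.of false ^ s) = indep_L (w ^ s) := by
    rw [map_zpow, indep_act, FreeGroup.lift_apply_of, if_neg (by simp), ← map_zpow]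
  rw [map_mul, map_mul, map_inv, h1, h2, ← map_inv]
  simp [indep_B, indep_L]

theorem indep_of (f : Bool × Bool) (c' : Bool) (b : Bool × Bool) :
    pc c' (fam f (FreeGroup.of b)) =
      if xor b.1 f.2 = c' then FreeGroup.of b.2 ^ indep_sg f.1 else 1 := by
  obtain ⟨i, s⟩ := f
  by_cases hb : xor b.1 s = c' <;> cases i <;> simp [pc, fam, indep_sg, hb]

theorem indep_gen (f : Bool × Bool) (c' : Bool) (m : Gen) :
    pc c' (fam f (realG m)) = if xor m.crd f.2 = c' then
      FreeGroup.of true ^ (indep_sg f.1 * m.idx) * FreeGroup.of false ^ indep_sg f.1 *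
        (FreeGroup.of true ^ (indep_sg f.1 * m.idx))⁻¹ else 1 := by
  obtain ⟨i, s⟩ := f
  unfold realG Y0
  cases hm : m.crd <;> cases s <;> cases c' <;>
    simp only [map_mul, map_inv, map_zpow, indep_of, Bool.false_eq_true, if_false, if_true,
      Bool.xor_false, Bool.xor_true, Bool.not_true, Bool.not_false, Bool.true_eq_false,
      one_zpow, mul_one, one_mul, inv_one, mul_inv_cancel] <;>
    group

theorem indep_word (f f' : Bool × Bool) (c : Bool) (u : FreeGroup Gen) :
    indep_Rel (fun i => indep_dec c (indep_sg f.1 * i) ^ indep_sg f.1)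
      (pc (xor c f.2) (fam f' (realH u))) (if f' = f then pr c u else 1) := by
  induction u using FreeGroup.induction_on with
  | C1 => simpa using indep_rel_one _
  | of m =>
    rw [realH, FreeGroup.lift_apply_of, indep_gen]
    have h1 := indep_rel_conj (fun i => indep_dec c (indep_sg f.1 * i) ^ indep_sg f.1)
      (indep_sg f'.1 * m.idx) (indep_sg f'.1)
    have h2 : m.crd ≠ c → pr c (FreeGroup.of m) = 1 := fun h => by simp [pr, h]
    have h0 := indep_rel_one fun i => indep_dec c (indep_sg f.1 * i) ^ indep_sg f.1
    obtain ⟨i, s⟩ := f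
    obtain ⟨i', s'⟩ := f'
    cases hm : m.crd <;> cases c <;> cases s <;> cases s' <;> cases i <;> cases i' <;>
      simp_all [indep_sg, indep_dec_idx, indep_dec_neg]
  | inv_of m ih =>
    have := indep_rel_inv ih
    rw [map_inv, map_inv, map_inv, map_inv]
    split_ifs at this ⊢
    · exact this
    · simpa using this
  | mul x y hx hy =>
    have := indep_rel_mul hx hy
    rw [map_mul, map_mul, map_mul, map_mul]
    split_ifs at this ⊢
    · exact this
    · simpa using this

theorem indep_list (L : List ((Bool × Bool) × FreeGroup Gen)) (f : Bool × Bool) (c : Bool) :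
    indep_Rel (fun i => indep_dec c (indep_sg f.1 * i) ^ indep_sg f.1)
      (pc (xor c f.2) (L.map fun a => fam a.1 (realH a.2)).prod)
      (pr c ((L.filter fun a => a.1 = f).map fun a => a.2).prod) := by
  induction L with
  | nil => simpa using indep_rel_one _
  | cons a L ih =>
    have := indep_rel_mul (indep_word f a.1 c a.2) ih
    rw [List.map_cons, List.prod_cons, map_mul, List.filter_cons]
    by_cases ha : a.1 = f
    · rw [if_pos ha] at this
      rw [if_pos (by simpa using ha), List.map_cons, List.prod_cons, map_mul]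
      exact this
    · rw [if_neg ha, one_mul] at this
      rw [if_neg (by simpa using ha)]
      exact this

/-- The four families of machine words are independent. -/
theorem indep (L : List ((Bool × Bool) × FreeGroup Gen))
    (h : ∀ c, pc c (L.map fun a => fam a.1 (realH a.2)).prod = 1) (f : Bool × Bool) :
    Closed ((L.filter fun a => a.1 = f).map fun a => a.2).prod := by
  have key : ∀ c, pr c ((L.filter fun a => a.1 = f).map fun a => a.2).prod = 1 := by
    intro c
    have h1 := indep_list L f c 1
    rw [h, map_one, mul_one] at h1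
    exact (congrArg Prod.fst h1).symm
  exact ⟨key false, key true⟩

end Pool.Agent.Lib.MP_66609f_al
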