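import Pool.Agent.Lib.MP_66609f_al.AbsBall
import Pool.Agent.Lib.MP_66609f_al.Indep
import Pool.Agent.Lib.MP_66609f_al.MachMain

namespace Pool.Agent.Lib.MP_66609f_al

/-- Data of a letter of type one. -/
structure AbsTopO where
  neg : Bool
  f : Bool
  e : Ed
  j : ℕ
  ε : Bool

def AbsTopO.toLet {G : Type*} (o : AbsTopO) : Let G := .one o.neg o.f o.e o.j o.ε

def AbsTopO.J (o : AbsTopO) : ℤ := if o.neg then -(o.j : ℤ) else o.j

def AbsTopO.fw (o : AbsTopO) : Bool × FreeGroup Gen := (o.f, if o.neg then o.e.val⁻¹ else o.e.val)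

def AbsTopO.flip (o : AbsTopO) : AbsTopO := ⟨!o.neg, o.f, o.e, o.j, o.ε⟩

def absTopJ (L : List AbsTopO) : ℤ := (L.map AbsTopO.J).sum

def absTopP (L : List AbsTopO) : ℕ := (L.map fun o => o.e.pen).sum

def absTopW (A : List (Bool × FreeGroup Gen)) : FW :=
  (A.map fun a => fam (a.1, false) (realH a.2)).prod

def absTopS (f : Bool) (A : List (Bool × FreeGroup Gen)) : FreeGroup Gen :=
  ((A.filter fun a => a.1 = f).map fun a => a.2).prod

def absTopE (f : Bool) (L : List AbsTopO) : List Ed := (L.filter fun o => o.f = f).map fun o => o.e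

theorem absTop_lift {G : Type*} (l : List (Let G)) (h : ∀ b ∈ l, b.IsOne) :
    ∃ L : List AbsTopO, l = L.map AbsTopO.toLet := by
  induction l with
  | nil => exact ⟨[], rfl⟩
  | cons b l ih =>
    obtain ⟨L, rfl⟩ := ih fun c hc => h c (List.mem_cons_of_mem _ hc)
    have hb := h b List.mem_cons_self
    cases b with
    | one neg f e j ε => exact ⟨⟨neg, f, e, j, ε⟩ :: L, rfl⟩
    | _ => exact hb.elim

theorem absTopW_append (A B : List (Bool × FreeGroup Gen)) :
    absTopW (A ++ B) = absTopW A * absTopW B := by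
  simp [absTopW]

theorem absTopS_append (f : Bool) (A B : List (Bool × FreeGroup Gen)) :
    absTopS f (A ++ B) = absTopS f A * absTopS f B := by
  simp [absTopS]

theorem absTopS_single (f : Bool) (w : FreeGroup Gen) : absTopS f [(f, w)] = w := by
  simp [absTopS]

theorem absTopJ_flip (L : List AbsTopO) :
    absTopJ (L.map AbsTopO.flip).reverse = -absTopJ L := by
  induction L with
  | nil => rfl
  | cons o L ih =>
    simp only [absTopJ, List.map_cons, List.reverse_cons, List.map_append, List.sum_append,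
      List.sum_cons, List.map_nil, List.sum_nil] at ih ⊢
    rw [ih]
    rcases o with ⟨_ | _, f, e, j, ε⟩ <;> simp [AbsTopO.J, AbsTopO.flip]

theorem absTopW_flip (L : List AbsTopO) :
    absTopW ((L.map AbsTopO.flip).reverse.map AbsTopO.fw) = (absTopW (L.map AbsTopO.fw))⁻¹ := by
  induction L with
  | nil => simp [absTopW]
  | cons o L ih =>
    rw [List.map_cons, List.reverse_cons, List.map_append, absTopW_append, ih]
    rcases o with ⟨_ | _, f, e, j, ε⟩ <;> simp [absTopW, AbsTopO.fw, AbsTopO.flip]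

theorem absTop_abs_le (v : ℕ) (L : List AbsTopO) (h : ∀ o ∈ L, o.j + o.e.pen ≤ v) :
    absTopJ L + absTopP L ≤ L.length * v ∧ -absTopJ L + absTopP L ≤ L.length * v := by
  induction L with
  | nil => simp [absTopJ, absTopP]
  | cons o L ih =>
    obtain ⟨h1, h2⟩ := ih fun c hc => h c (List.mem_cons_of_mem _ hc)
    have h0 := h o List.mem_cons_self
    simp only [absTopJ, absTopP, List.map_cons, List.sum_cons, List.length_cons, Nat.cast_add,
      Nat.cast_one, add_mul, one_mul] at h1 h2 ⊢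
    have h3 : o.J = o.j ∨ o.J = -(o.j : ℤ) := by
      unfold AbsTopO.J
      split <;> simp
    omega

theorem absTop_sign (v : ℕ) (L : List AbsTopO) (h : ∀ o ∈ L, o.j + o.e.pen ≤ v) :
    ((L.length : ℤ) * v < absTopJ L + v → ∀ o ∈ L, o.neg = false) ∧
      ((L.length : ℤ) * v < -absTopJ L + v → ∀ o ∈ L, o.neg = true) := by
  induction L with
  | nil => simp
  | cons o L ih =>
    have h' : ∀ c ∈ L, c.j + c.e.pen ≤ v := fun c hc => h c (List.mem_cons_of_mem _ hc)
    obtain ⟨h1, h2⟩ := ih h'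
    obtain ⟨h4, h5⟩ := absTop_abs_le v L h'
    have h0 := h o List.mem_cons_self
    have e : absTopJ (o :: L) = o.J + absTopJ L := by simp [absTopJ]
    rw [e]
    simp only [List.length_cons, Nat.cast_add, Nat.cast_one, add_mul, one_mul, List.mem_cons,
      forall_eq_or_imp]
    rcases o with ⟨_ | _, f, e', j, ε⟩ <;> simp only [AbsTopO.J] at h0 ⊢ <;>
      refine ⟨fun hh => ⟨?_, h1 ?_⟩, fun hh => ⟨?_, h2 ?_⟩⟩ <;> simp at hh ⊢ <;> omega

theorem absTopE_len (L : List AbsTopO) :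
    (absTopE false L).length + (absTopE true L).length = L.length ∧
      penSum (absTopE false L) + penSum (absTopE true L) = absTopP L := by
  induction L with
  | nil => simp [absTopE, penSum, absTopP]
  | cons o L ih =>
    obtain ⟨h1, h2⟩ := ih
    rcases o with ⟨n, _ | _, e, j, ε⟩ <;>
      simp [absTopE, penSum, absTopP] at h1 h2 ⊢ <;> omega

theorem absTopS_pos (f : Bool) (L : List AbsTopO) (h : ∀ o ∈ L, o.neg = false) :
    absTopS f (L.map AbsTopO.fw) = valProd (absTopE f L) := by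
  induction L with
  | nil => rfl
  | cons o L ih =>
    have h1 := ih fun c hc => h c (List.mem_cons_of_mem _ hc)
    have h0 := h o List.mem_cons_self
    by_cases hf : o.f = f <;>
      simp [absTopS, absTopE, valProd, AbsTopO.fw, hf, h0] at h1 ⊢ <;> exact h1

theorem absTopS_neg (f : Bool) (L : List AbsTopO) (h : ∀ o ∈ L, o.neg = true) :
    absTopS f (L.map AbsTopO.fw) = (valProd (absTopE f L).reverse)⁻¹ := by
  induction L with
  | nil => simp [absTopS, absTopE, valProd]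
  | cons o L ih =>
    have h1 := ih fun c hc => h c (List.mem_cons_of_mem _ hc)
    have h0 := h o List.mem_cons_self
    by_cases hf : o.f = f <;>
      simp [absTopS, absTopE, valProd, AbsTopO.fw, hf, h0] at h1 ⊢ <;> exact h1

theorem absTopS_phi (f : Bool) (L : List AbsTopO) (h : absTopP L = 0) :
    phiQ (absTopS f (L.map AbsTopO.fw)) = 1 := by
  induction L with
  | nil => simp [absTopS]
  | cons o L ih =>
    have e : absTopP (o :: L) = o.e.pen + absTopP L := by simp [absTopP]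
    have h1 := ih (by omega)
    have h2 := phiQ_val o.e (by omega)
    rw [List.map_cons, ← List.singleton_append, absTopS_append, map_mul, h1, mul_one]
    by_cases hf : o.f = f
    · subst hf
      rw [AbsTopO.fw, absTopS_single]
      split <;> simp [h2]
    · simp [absTopS, AbsTopO.fw, hf]

theorem absTop_closed_inv {w : FreeGroup Gen} (h : Closed w⁻¹) : Closed w := by
  simpa [Closed] using h

theorem absTop_four {a1 a2 a3 a4 p1 p2 p3 p4 : ℕ} {P : ℕ → Prop}
    (h1 : a1 = 0 ∨ (1 ≤ p1 ∧ (p1 = 1 → P a1))) (h2 : a2 = 0 ∨ (1 ≤ p2 ∧ (p2 = 1 → P a2)))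
    (h3 : a3 = 0 ∨ (1 ≤ p3 ∧ (p3 = 1 → P a3))) (h4 : a4 = 0 ∨ (1 ≤ p4 ∧ (p4 = 1 → P a4)))
    (hp : p1 + p2 + p3 + p4 ≤ 1) (ha : 1 ≤ a1 + a2 + a3 + a4) :
    p1 + p2 + p3 + p4 = 1 ∧ P (a1 + a2 + a3 + a4) := by
  rcases h1 with rfl | ⟨k1, h1⟩ <;> rcases h2 with rfl | ⟨k2, h2⟩ <;>
    rcases h3 with rfl | ⟨k3, h3⟩ <;> rcases h4 with rfl | ⟨k4, h4⟩ <;>
    first
      | omega
      | exact ⟨by omega, by simpa using h1 (by omega)⟩
      | exact ⟨by omega, by simpa using h2 (by omega)⟩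
      | exact ⟨by omega, by simpa using h3 (by omega)⟩
      | exact ⟨by omega, by simpa using h4 (by omega)⟩

theorem absTop_an (E : List Ed) (h : Closed (valProd E)) :
    E.length = 0 ∨ (1 ≤ penSum E ∧ (penSum E = 1 → E.length ∈ lenE)) := by
  by_cases hE : E = []
  · exact Or.inl (by rw [hE]; rfl)
  · exact Or.inr (closed_analysis E hE h)

namespace Setup

variable {G : Type*} [Group G] {S : Setup G} (D : S.Data) (q v : ℕ)

theorem absTop_rr (a b : Bool) : S.rr' a * S.rr' b = S.rr' (xor a b) := by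
  cases a <;> cases b <;> simp [rr', S.rr]

theorem absTop_rr_comm {y : G} (h : Commute S.r y) (a : Bool) : Commute (S.rr' a) y := by
  cases a
  · exact Commute.one_left y
  · exact h

theorem absTop_pull {y : G} (h : Commute S.r y) (x : G) (a b : Bool) :
    x * S.rr' a * (y * S.rr' b) = x * y * S.rr' (xor a b) := by
  rw [← absTop_rr, mul_assoc x, ← mul_assoc (S.rr' a), (absTop_rr_comm h a).eq]
  simp only [mul_assoc]

theorem absTop_value (o : AbsTopO) :
    S.value o.toLet = S.T ^ o.J * S.ev (absTopW [o.fw]) * S.rr' o.ε := by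
  rcases o with ⟨_ | _, f, e, j, ε⟩ <;>
    simp [AbsTopO.toLet, value, AbsTopO.J, AbsTopO.fw, absTopW, mach]

theorem absTop_run (L : List AbsTopO) : ∃ ε, ((L.map AbsTopO.toLet).map S.value).prod
    = S.T ^ absTopJ L * S.ev (absTopW (L.map AbsTopO.fw)) * S.rr' ε := by
  induction L with
  | nil => exact ⟨false, by simp [absTopJ, absTopW, rr']⟩
  | cons o L ih =>
    obtain ⟨ε, ih⟩ := ih
    refine ⟨xor o.ε ε, ?_⟩
    have e : absTopJ (o :: L) = o.J + absTopJ L := by simp [absTopJ]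
    have e' : absTopW ((o :: L).map AbsTopO.fw) = absTopW [o.fw] * absTopW (L.map AbsTopO.fw) :=
      absTopW_append [o.fw] _
    rw [e', List.map_cons, List.map_cons, List.prod_cons, ih, absTop_value,
      absTop_pull ((S.rT.zpow_right _).mul_right (S.ev_comm_r _)), e, map_mul, zpow_add,
      mul_assoc (S.T ^ o.J), ← mul_assoc (S.ev _), ← ((S.ev_comm_T _).zpow_left _).eq]
    simp only [mul_assoc]

theorem absTop_facts {g : G} (hg : g ∈ insert S.τ D.R) :
    S.r * g = g * S.r ∧ (S.ρ g = g ∨ S.ρ g = g * S.r) ∧ g * S.T * g⁻¹ = S.T⁻¹ := by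
  rcases hg with rfl | hg
  · exact ⟨S.τ_phi.1, S.τ_phi.2.1, S.τT⟩
  · exact ⟨(D.R_phi g hg).1.1, (D.R_phi g hg).1.2.1, (D.R_phi g hg).2⟩

theorem absTop_inv_zpow {g : G} (h : g * S.T * g⁻¹ = S.T⁻¹) (i : ℤ) :
    g * S.T ^ i = S.T ^ (-i) * g := by
  have : g * S.T ^ i * g⁻¹ = S.T ^ (-i) := by
    rw [← conj_zpow, h, inv_zpow']
  rw [← this, inv_mul_cancel_right]

theorem absTop_prod {g : G} (hg : g ∈ insert S.τ D.R) (L1 L2 : List AbsTopO) (a : Let G) (j : ℤ)
    (A B : List (Bool × FreeGroup Gen)) (ε : Bool)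
    (ha : S.value a = S.T ^ j * (S.ev (absTopW A) * g * S.ev (absTopW B)) * S.rr' ε) :
    ∃ δ, ((L1.map AbsTopO.toLet ++ a :: L2.map AbsTopO.toLet).map S.value).prod
      = S.T ^ (absTopJ L1 + j - absTopJ L2) * (S.ev (absTopW (L1.map AbsTopO.fw ++ A)) * g *
        S.ev (absTopW (B ++ L2.map AbsTopO.fw))) * S.rr' δ := by
  obtain ⟨h1, -, h3⟩ := absTop_facts D hg
  obtain ⟨ε1, e1⟩ := absTop_run (S := S) L1
  obtain ⟨ε2, e2⟩ := absTop_run (S := S) L2
  have hc : Commute S.r (S.ev (absTopW A) * g * S.ev (absTopW B)) :=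
    ((S.ev_comm_r _).mul_right h1).mul_right (S.ev_comm_r _)
  have hT : ∀ (w : FW) (i : ℤ), S.ev w * S.T ^ i = S.T ^ i * S.ev w :=
    fun w i => ((S.ev_comm_T w).zpow_left i).eq.symm
  have hT' : ∀ (w : FW) (i : ℤ) (x : G), S.ev w * (S.T ^ i * x) = S.T ^ i * (S.ev w * x) :=
    fun w i x => by rw [← mul_assoc, hT, mul_assoc]
  have hg' : ∀ (i : ℤ) (x : G), g * (S.T ^ i * x) = S.T ^ (-i) * (g * x) :=
    fun i x => by rw [← mul_assoc, absTop_inv_zpow h3, mul_assoc]
  refine ⟨xor (xor ε1 ε) ε2, ?_⟩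
  rw [List.map_append, List.prod_append, List.map_cons, List.prod_cons, e1, e2, ha, ← mul_assoc,
    absTop_pull ((S.rT.zpow_right _).mul_right hc),
    absTop_pull ((S.rT.zpow_right _).mul_right (S.ev_comm_r _)), absTopW_append, absTopW_append,
    map_mul, map_mul, sub_eq_add_neg, zpow_add, zpow_add]
  simp only [mul_assoc, hT', hg']

theorem absTop_core {g g' : G} (hg : g ∈ insert S.τ D.R) (hg' : g' ∈ insert S.τ D.R) (w w' : FW)
    (i k : ℤ) (δ : Bool) (h : S.T ^ i * (S.ev w * g' * S.ev w') * S.rr' δ = S.T ^ k * g) :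
    g' = g ∧ k = i ∧ S.ev w * g * S.ev w' = g * S.rr' δ := by
  obtain ⟨a1, a2, a3⟩ := absTop_facts D hg
  obtain ⟨b1, b2, b3⟩ := absTop_facts D hg'
  have hδ : S.rr' δ * S.rr' δ = 1 := by
    rw [absTop_rr]
    simp [rr']
  have e : S.ev w * g' * S.ev w' = S.T ^ (k - i) * g * S.rr' δ := by
    calc S.ev w * g' * S.ev w'
        = S.T ^ (-i) * (S.T ^ i * (S.ev w * g' * S.ev w') * S.rr' δ) * S.rr' δ := by
          simp only [mul_assoc, hδ, mul_one, zpow_neg, inv_mul_cancel_left]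
      _ = S.T ^ (k - i) * g * S.rr' δ := by
          rw [h, ← mul_assoc, ← zpow_add, neg_add_eq_sub]
  have hrr : Commute S.r (S.rr' δ) := (absTop_rr_comm (Commute.refl S.r) δ).symm
  have hρr : S.ρ (S.rr' δ) = S.rr' δ := by
    cases δ <;> simp [rr', S.ρr]
  have c1 : Commute S.r (S.T ^ (k - i) * g * S.rr' δ) :=
    ((S.rT.zpow_right _).mul_right a1).mul_right hrr
  have c2 : S.ρ (S.T ^ (k - i) * g * S.rr' δ) = S.T ^ (k - i) * g * S.rr' δ ∨
      S.ρ (S.T ^ (k - i) * g * S.rr' δ) = S.T ^ (k - i) * g * S.rr' δ * S.r := by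
    rw [map_mul, map_mul, map_zpow, S.ρT, hρr]
    rcases a2 with a2 | a2 <;> rw [a2]
    · exact Or.inl rfl
    · right
      rw [mul_assoc _ (S.rr' δ), ← hrr.eq]
      simp only [mul_assoc]
  have c3 : S.T ^ (k - i) * g * S.rr' δ * S.T * (S.T ^ (k - i) * g * S.rr' δ)⁻¹ = S.T⁻¹ := by
    have e1 : S.T ^ (k - i) * g * S.rr' δ * S.T = S.T⁻¹ * (S.T ^ (k - i) * g * S.rr' δ) := by
      have e2 : g * S.T = S.T⁻¹ * g := by rw [← a3, inv_mul_cancel_right]
      have e3 : S.T ^ (k - i) * S.T⁻¹ = S.T⁻¹ * S.T ^ (k - i) :=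
        ((Commute.refl S.T).zpow_left _).inv_right.eq
      rw [mul_assoc, (absTop_rr_comm S.rT δ).eq, ← mul_assoc, mul_assoc _ g, e2, ← mul_assoc, e3]
      simp only [mul_assoc]
    rw [e1, mul_inv_cancel_right]
  obtain ⟨m, hm⟩ := S.sep g' _ w w' b1 b2 b3 c1.eq c2 c3 e
  have hm' : ∃ ε, S.T ^ (k - i) * g * S.rr' δ = S.T ^ m * g' * S.rr' ε := by
    rcases hm with hm | hm
    · exact ⟨false, by simpa [rr'] using hm⟩
    · exact ⟨true, hm⟩
  obtain ⟨ε, hε⟩ := hm'
  have e4 : g = S.T ^ (m - (k - i)) * g' * S.rr' (xor ε δ) := by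
    calc g = S.T ^ (-(k - i)) * (S.T ^ (k - i) * g * S.rr' δ) * S.rr' δ := by
          rw [mul_assoc, mul_assoc, hδ, mul_one, ← mul_assoc, ← zpow_add, neg_add_cancel,
            zpow_zero, one_mul]
      _ = _ := by
          rw [hε, ← absTop_rr, ← neg_add_eq_sub (k - i) m, zpow_add]
          simp only [mul_assoc]
  have e5 : g = g' := D.R_inj g' hg' g hg _ _ e4
  subst e5
  have e6 := S.expo_zero g w w' (k - i) δ a1 a2 e
  rw [e6, zpow_zero, one_mul] at e
  exact ⟨rfl, by omega, e⟩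

theorem absTop_closed (A B : List (Bool × FreeGroup Gen)) (δ : Bool)
    (h : S.ev (absTopW A) * S.τ * S.ev (absTopW B) = S.τ * S.rr' δ) (f : Bool) :
    Closed (absTopS f A) ∧ Closed (absTopS f B) := by
  have e1 : S.ev (absTopW A * fam (false, true) (absTopW B)) = S.rr' δ := by
    rw [map_mul, ← S.τ_ev, ← mul_assoc, ← mul_assoc, h, ← (absTop_rr_comm S.rτ δ).eq,
      mul_inv_cancel_right]
  have e2 : ∀ c, pc c (absTopW A * fam (false, true) (absTopW B)) = 1 := by
    refine S.det' _ ?_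
    rw [e1]
    cases δ
    · exact Or.inl rfl
    · exact Or.inr rfl
  have e3 : (((A.map fun a => ((a.1, false), a.2)) ++ B.map fun a => ((a.1, true), a.2)).map
      fun a : (Bool × Bool) × FreeGroup Gen => fam a.1 (realH a.2)).prod
        = absTopW A * fam (false, true) (absTopW B) := by
    rw [List.map_append, List.prod_append, absTopW, absTopW, map_list_prod]
    simp only [List.map_map]
    congr 2
    refine List.map_congr_left fun a _ => ?_
    simp [fam_fam]
  have key := indep _ (fun c => by rw [e3]; exact e2 c)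
  have k1 := key (f, false)
  have k2 := key (f, true)
  simp only [List.filter_append, List.filter_map, List.map_append, List.map_map,
    List.prod_append] at k1 k2
  constructor
  · simpa [absTopS, Function.comp_def] using k1
  · simpa [absTopS, Function.comp_def] using k2

/-- The analysis of a word of small deficiency. -/
theorem absTop_main (hS : D.Shape q v) (n : ℕ) {g : G} (hg : g ∈ insert S.τ D.R) (k : ℤ)
    (hk : (n : ℤ) * v - q - 1 ≤ |k|) (h : S.T ^ k * g ∈ ball (D.gens q v) n) :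
    ∃ (L1 L2 : List AbsTopO) (δ : Bool), L1.length + L2.length + 1 = n ∧
      (∀ o ∈ L1, o.j + o.e.pen ≤ v) ∧ (∀ o ∈ L2, o.j + o.e.pen ≤ v) ∧
      ((∃ j : ℤ, j.natAbs + q ≤ v ∧ (g = S.τ → 0 ≤ j) ∧ k = absTopJ L1 + j - absTopJ L2 ∧
        S.ev (absTopW (L1.map AbsTopO.fw)) * g * S.ev (absTopW (L2.map AbsTopO.fw))
          = g * S.rr' δ) ∨
      g = S.τ ∧ ∃ (j : ℕ) (f : Bool), j + q ≤ v ∧ k = absTopJ L1 - j - absTopJ L2 ∧
        (S.ev (absTopW (L1.map AbsTopO.fw ++ [(f, eta)])) * g *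
            S.ev (absTopW (L2.map AbsTopO.fw)) = g * S.rr' δ ∨
          S.ev (absTopW (L1.map AbsTopO.fw)) * g *
            S.ev (absTopW ([(f, eta⁻¹)] ++ L2.map AbsTopO.fw)) = g * S.rr' δ)) := by
  obtain ⟨l, hl, hval, hprod⟩ := (mem_ball_iff D q v n _).1 h
  obtain ⟨l1, l2, a, rfl, h1, h2, h3, h4⟩ := hS l g k false hval hg
    (by simpa [rr'] using hprod) (by rw [hl]; exact hk)
  obtain ⟨L1, rfl⟩ := absTop_lift l1 h1
  obtain ⟨L2, rfl⟩ := absTop_lift l2 h2
  have hlen : L1.length + L2.length + 1 = n := by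
    simp only [List.length_append, List.length_map, List.length_cons] at hl
    omega
  have v1 : ∀ o ∈ L1, o.j + o.e.pen ≤ v := fun o ho =>
    hval o.toLet (List.mem_append_left _ (List.mem_map_of_mem ho))
  have v2 : ∀ o ∈ L2, o.j + o.e.pen ≤ v := fun o ho =>
    hval o.toLet (List.mem_append_right _ (List.mem_cons_of_mem _ (List.mem_map_of_mem ho)))
  have va : D.Valid q v a := hval a (List.mem_append_right _ List.mem_cons_self)
  have hτ : S.τ ∈ insert S.τ D.R := Set.mem_insert _ _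
  cases a with
  | zero s => exact (h4 trivial).elim
  | one neg f e j ε => exact (h3 trivial).elim
  | two g' j ε =>
    have hg' : g' ∈ insert S.τ D.R := Set.mem_insert_of_mem _ va.1
    obtain ⟨δ, e⟩ := absTop_prod D hg' L1 L2 (.two g' j ε) j [] [] ε (by simp [value, absTopW])
    obtain ⟨rfl, e1, e2⟩ := absTop_core D hg hg' _ _ _ _ δ (e.symm.trans hprod)
    refine ⟨L1, L2, δ, hlen, v1, v2, Or.inl ⟨j, va.2, fun hh => ?_, e1, by simpa using e2⟩⟩
    exact absurd (hh ▸ va.1) D.τ_not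
  | three j ε =>
    obtain ⟨δ, e⟩ := absTop_prod D hτ L1 L2 (.three j ε) j [] [] ε (by simp [value, absTopW])
    obtain ⟨-, e1, e2⟩ := absTop_core D hg hτ _ _ _ _ δ (e.symm.trans hprod)
    exact ⟨L1, L2, δ, hlen, v1, v2,
      Or.inl ⟨j, by rw [Int.natAbs_natCast]; exact va, fun _ => by omega, e1, by simpa using e2⟩⟩
  | four kind f j ε =>
    cases kind
    · obtain ⟨δ, e⟩ := absTop_prod D hτ L1 L2 (.four false f j ε) (-(j : ℤ)) [(f, eta)] [] ε
        (by simp [value, absTopW, mach])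
      obtain ⟨e0, e1, e2⟩ := absTop_core D hg hτ _ _ _ _ δ (e.symm.trans hprod)
      exact ⟨L1, L2, δ, hlen, v1, v2,
        Or.inr ⟨e0.symm, j, f, va, by omega, Or.inl (by simpa using e2)⟩⟩
    · obtain ⟨δ, e⟩ := absTop_prod D hτ L1 L2 (.four true f j ε) (-(j : ℤ)) [] [(f, eta⁻¹)] ε
        (by simp [value, absTopW, mach])
      obtain ⟨e0, e1, e2⟩ := absTop_core D hg hτ _ _ _ _ δ (e.symm.trans hprod)
      exact ⟨L1, L2, δ, hlen, v1, v2,
        Or.inr ⟨e0.symm, j, f, va, by omega, Or.inr (by simpa using e2)⟩⟩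

theorem top_symm (hv : q + 3 ≤ v) (hS : D.Shape q v) (n : ℕ) (g : G) (hg : g ∈ D.R) (k : ℤ)
    (hk : (n : ℤ) * v - q - 1 ≤ |k|) (h : S.T ^ k * g ∈ ball (D.gens q v) n) :
    S.T ^ (-k) * g ∈ ball (D.gens q v) n := by
  have hg' : g ∈ insert S.τ D.R := Set.mem_insert_of_mem _ hg
  obtain ⟨L1, L2, δ, hlen, v1, v2, ⟨j, hj, -, e1, e2⟩ | ⟨hτ, -⟩⟩ :=
    absTop_main D q v hS n hg' k hk h
  swap
  · exact absurd (hτ ▸ hg) D.τ_not
  obtain ⟨δ', e⟩ := absTop_prod D hg' (L1.map AbsTopO.flip).reverse (L2.map AbsTopO.flip).reverse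
    (.two g (-j) false) (-j) [] [] false (by simp [value, absTopW])
  have e3 : (S.ev (absTopW (L1.map AbsTopO.fw)))⁻¹ * g * (S.ev (absTopW (L2.map AbsTopO.fw)))⁻¹
      = g * S.rr' δ := by
    have hδ : S.rr' δ * S.rr' δ = 1 := by
      rw [absTop_rr]
      simp [rr']
    have e4 : g = S.ev (absTopW (L1.map AbsTopO.fw)) * (g * S.rr' δ) *
        S.ev (absTopW (L2.map AbsTopO.fw)) := by
      rw [← mul_assoc, mul_assoc _ (S.rr' δ), (absTop_rr_comm (S.ev_comm_r _) δ).eq, ← mul_assoc,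
        e2, mul_assoc, hδ, mul_one]
    conv_lhs => rw [e4]
    simp only [mul_assoc, inv_mul_cancel_left, mul_inv_cancel, mul_one]
  rw [List.append_nil, List.nil_append, absTopJ_flip, absTopJ_flip, absTopW_flip, absTopW_flip,
    map_inv, map_inv, e3, ← mul_assoc, mul_assoc _ (S.rr' δ), absTop_rr,
    show -absTopJ L1 + -j - -absTopJ L2 = -k by omega] at e
  have hb : S.T ^ (-k) * g * S.rr' (xor δ δ') ∈ ball (D.gens q v) n := by
    refine (mem_ball_iff D q v n _).2 ⟨_, ?_, ?_, e⟩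
    · simp only [List.length_append, List.length_map, List.length_cons, List.length_reverse]
      omega
    · intro a ha
      rcases List.mem_append.1 ha with ha | ha
      · obtain ⟨o, ho, rfl⟩ := List.mem_map.1 ha
        obtain ⟨o', ho', rfl⟩ := List.mem_map.1 (List.mem_reverse.1 ho)
        exact v1 o' ho'
      · rcases List.mem_cons.1 ha with rfl | ha
        · exact ⟨hg, by simpa using hj⟩
        · obtain ⟨o, ho, rfl⟩ := List.mem_map.1 ha
          obtain ⟨o', ho', rfl⟩ := List.mem_map.1 (List.mem_reverse.1 ho)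
          exact v2 o' ho'
  cases hx : xor δ δ' <;> rw [hx] at hb
  · simpa [rr'] using hb
  · have := ball_mul_r D q v n (by omega) _ hb
    simpa [rr', mul_assoc, S.rr] using this

theorem top_pos (hv : q + 3 ≤ v) (hS : D.Shape q v) (n : ℕ) (hn : 2 ≤ n) (k : ℤ)
    (hk : (n : ℤ) * v - q - 1 ≤ k) (h : S.T ^ k * S.τ ∈ ball (D.gens q v) n) :
    k = (n : ℤ) * v - q - 1 ∧ n - 1 ∈ lenE := by
  obtain ⟨L1, L2, δ, hlen, v1, v2, hc⟩ :=
    absTop_main D q v hS n (Set.mem_insert _ _) k (hk.trans (le_abs_self k)) h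
  obtain ⟨a1, -⟩ := absTop_abs_le v L1 v1
  obtain ⟨-, a2⟩ := absTop_abs_le v L2 v2
  obtain ⟨s1, -⟩ := absTop_sign v L1 v1
  obtain ⟨-, s2⟩ := absTop_sign v L2 v2
  have hn' : (n : ℤ) * v = L1.length * v + L2.length * v + v := by
    rw [← hlen]
    push_cast
    ring
  rcases hc with ⟨j, hj, -, e1, e2⟩ | ⟨-, j, f, hj, e1, -⟩
  swap
  · omega
  have n1 := s1 (by omega)
  have n2 := s2 (by omega)
  have c := absTop_closed _ _ δ e2
  have c1 : ∀ f, Closed (valProd (absTopE f L1)) := fun f => absTopS_pos f L1 n1 ▸ (c f).1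
  have c2 : ∀ f, Closed (valProd (absTopE f L2).reverse) := fun f =>
    absTop_closed_inv (absTopS_neg f L2 n2 ▸ (c f).2)
  have hrev : ∀ E : List Ed, penSum E.reverse = penSum E := fun E => by simp [penSum]
  obtain ⟨l1, p1⟩ := absTopE_len L1
  obtain ⟨l2, p2⟩ := absTopE_len L2
  have d3 := absTop_an _ (c2 false)
  have d4 := absTop_an _ (c2 true)
  rw [hrev, List.length_reverse] at d3 d4
  obtain ⟨f1, f2⟩ := absTop_four (P := fun m => m ∈ lenE) (absTop_an _ (c1 false))
    (absTop_an _ (c1 true)) d3 d4 (by omega) (by omega)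
  refine ⟨by omega, ?_⟩
  rwa [show n - 1 = (absTopE false L1).length + (absTopE true L1).length +
    (absTopE false L2).length + (absTopE true L2).length by omega]

theorem top_neg (hv : q + 3 ≤ v) (hS : D.Shape q v) (n : ℕ) (hn : 2 ≤ n) (k : ℤ)
    (h : S.T ^ (-k) * S.τ ∈ ball (D.gens q v) n) : k ≤ (n : ℤ) * v - q - 1 := by
  by_contra hk
  obtain ⟨L1, L2, δ, hlen, v1, v2, hc⟩ :=
    absTop_main D q v hS n (Set.mem_insert _ _) (-k) (by
      rw [abs_neg]
      exact le_trans (by omega) (le_abs_self k)) h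
  obtain ⟨-, a1⟩ := absTop_abs_le v L1 v1
  obtain ⟨a2, -⟩ := absTop_abs_le v L2 v2
  have hn' : (n : ℤ) * v = L1.length * v + L2.length * v + v := by
    rw [← hlen]
    push_cast
    ring
  rcases hc with ⟨j, hj, hj0, e1, -⟩ | ⟨-, j, f, hj, e1, e2⟩
  · have := hj0 rfl
    omega
  have p1 := absTopS_phi f L1 (by omega)
  have p2 := absTopS_phi f L2 (by omega)
  rcases e2 with e2 | e2
  · have c := phiQ_of_closed _ (absTop_closed _ _ δ e2 f).1
    rw [absTopS_append, absTopS_single, map_mul, p1, one_mul, phiQ_eta] at c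
    exact absurd (congrArg Multiplicative.toAdd c) (by simp)
  · have c := phiQ_of_closed _ (absTop_closed _ _ δ e2 f).2
    rw [absTopS_append, absTopS_single, map_mul, p2, mul_one, map_inv, phiQ_eta] at c
    exact absurd (congrArg Multiplicative.toAdd c) (by simp)

end Setup

end Pool.Agent.Lib.MP_66609f_al
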