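import Mathlib

namespace Pool.Agent.Lib.MP_66609f_al

open Pointwise

def sanM (b : Bool) : Matrix.SpecialLinearGroup (Fin 2) ℤ :=
  if b then ⟨!![1, 2; 0, 1], by simp [Matrix.det_fin_two]⟩
  else ⟨!![1, 0; -2, 1], by simp [Matrix.det_fin_two]⟩

/-- Nonzero integer vectors. -/
def SanovV : Type := {v : Fin 2 → ℤ // v ≠ 0}

theorem sanov_ne_zero (g : Matrix.SpecialLinearGroup (Fin 2) ℤ) (v : Fin 2 → ℤ) (hv : v ≠ 0) :
    g.1.mulVec v ≠ 0 := by
  intro h
  apply hv
  have h1 : (g⁻¹).1.mulVec (g.1.mulVec v) = v := by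
    rw [Matrix.mulVec_mulVec, ← Matrix.SpecialLinearGroup.coe_mul, inv_mul_cancel,
      Matrix.SpecialLinearGroup.coe_one, Matrix.one_mulVec]
  rw [← h1, h, Matrix.mulVec_zero]

instance sanovAct : MulAction (Matrix.SpecialLinearGroup (Fin 2) ℤ) SanovV where
  smul g v := ⟨g.1.mulVec v.1, sanov_ne_zero g v.1 v.2⟩
  one_smul v := Subtype.ext (by
    change (1 : Matrix.SpecialLinearGroup (Fin 2) ℤ).1.mulVec v.1 = v.1
    rw [Matrix.SpecialLinearGroup.coe_one, Matrix.one_mulVec])
  mul_smul g g' v := Subtype.ext (by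
    change (g * g').1.mulVec v.1 = g.1.mulVec (g'.1.mulVec v.1)
    rw [Matrix.mulVec_mulVec, Matrix.SpecialLinearGroup.coe_mul])

theorem sanov_smul (g : Matrix.SpecialLinearGroup (Fin 2) ℤ) (v : SanovV) :
    (g • v).1 = g.1.mulVec v.1 := rfl

def sanovX (b : Bool) : Set SanovV :=
  if b then {v | v.1 1 * v.1 1 ≤ v.1 0 * v.1 1} else {v | v.1 0 * v.1 1 ≤ -(v.1 0 * v.1 0)}

def sanovY (b : Bool) : Set SanovV :=
  if b then {v | v.1 0 * v.1 1 < -(v.1 1 * v.1 1)} else {v | v.1 0 * v.1 0 < v.1 0 * v.1 1}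

theorem sanov_pos (v : SanovV) : 0 < v.1 0 * v.1 0 + v.1 1 * v.1 1 := by
  by_contra h
  apply v.2
  have h0 := mul_self_nonneg (v.1 0)
  have h1 := mul_self_nonneg (v.1 1)
  have h2 : v.1 0 = 0 := mul_self_eq_zero.1 (by omega)
  have h3 : v.1 1 = 0 := mul_self_eq_zero.1 (by omega)
  funext i
  fin_cases i
  · exact h2
  · exact h3

theorem sanov_step (b : Bool) (v : SanovV) (hv : v ∉ sanovY b) : sanM b • v ∈ sanovX b := by
  cases b
  · have h0 : (sanM false • v).1 0 = v.1 0 := by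
      rw [sanov_smul]
      simp [sanM, Matrix.mulVec, dotProduct, Fin.sum_univ_two]
    have h1 : (sanM false • v).1 1 = -2 * v.1 0 + v.1 1 := by
      rw [sanov_smul]
      simp [sanM, Matrix.mulVec, dotProduct, Fin.sum_univ_two]
    have h2 : ¬ v.1 0 * v.1 0 < v.1 0 * v.1 1 := hv
    change (sanM false • v).1 0 * (sanM false • v).1 1 ≤
      -((sanM false • v).1 0 * (sanM false • v).1 0)
    rw [h0, h1]
    nlinarith
  · have h0 : (sanM true • v).1 0 = v.1 0 + 2 * v.1 1 := by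
      rw [sanov_smul]
      simp [sanM, Matrix.mulVec, dotProduct, Fin.sum_univ_two]
    have h1 : (sanM true • v).1 1 = v.1 1 := by
      rw [sanov_smul]
      simp [sanM, Matrix.mulVec, dotProduct, Fin.sum_univ_two]
    have h2 : ¬ v.1 0 * v.1 1 < -(v.1 1 * v.1 1) := hv
    change (sanM true • v).1 1 * (sanM true • v).1 1 ≤
      (sanM true • v).1 0 * (sanM true • v).1 1
    rw [h0, h1]
    nlinarith

theorem sanov_inj : Function.Injective (FreeGroup.lift sanM) := by
  refine FreeGroup.injective_lift_of_ping_pong sanM sanovX sanovY ?_ ?_ ?_ ?_ ?_ ?_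
  · intro b
    cases b
    · refine ⟨⟨![0, 1], fun h => ?_⟩, ?_⟩
      · simpa using congrFun h 1
      · change (0 : ℤ) * 1 ≤ -(0 * 0)
        norm_num
    · refine ⟨⟨![1, 0], fun h => ?_⟩, ?_⟩
      · simpa using congrFun h 0
      · change (0 : ℤ) * 0 ≤ 1 * 0
        norm_num
  · intro b c hbc
    rw [Function.onFun, Set.disjoint_left]
    intro v h1 h2
    have hp := sanov_pos v
    cases b <;> cases c <;> simp [sanovX] at h1 h2 hbc <;> nlinarith
  · intro b c hbc
    rw [Function.onFun, Set.disjoint_left]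
    intro v h1 h2
    have h3 := mul_self_nonneg (v.1 0)
    have h4 := mul_self_nonneg (v.1 1)
    cases b <;> cases c <;> simp [sanovY] at h1 h2 hbc <;> nlinarith
  · intro b c
    rw [Set.disjoint_left]
    intro v h1 h2
    have h3 := mul_self_nonneg (v.1 0)
    have h4 := mul_self_nonneg (v.1 1)
    have h5 := mul_self_nonneg (v.1 0 + v.1 1)
    have h6 := mul_self_nonneg (v.1 0 - v.1 1)
    cases b <;> cases c <;> simp [sanovX, sanovY] at h1 h2 <;> nlinarith
  · rintro b _ ⟨v, hv, rfl⟩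
    exact sanov_step b v hv
  · rintro b _ ⟨v, hv, rfl⟩
    by_contra h
    apply hv
    have h1 := sanov_step b _ h
    simpa using h1

/-- Sanov's theorem, up to sign. -/
theorem sanov (w : FreeGroup Bool) (h : FreeGroup.lift sanM (w * w) = 1) : w = 1 := by
  have h1 : w * w = 1 := sanov_inj (by rw [h, map_one])
  have h2 : w ^ 2 = 1 := by rw [pow_two, h1]
  exact (pow_eq_one_iff_left (by norm_num)).1 h2

end Pool.Agent.Lib.MP_66609f_al
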