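import Pool.Agent.Lib.MP_66609f_al.PiABasic
import Pool.Agent.Lib.MP_66609f_al.Sanov

namespace Pool.Agent.Lib.MP_66609f_al

/-- Affine maps of the plane lattice with unimodular linear part. -/
@[ext] structure DetAff where
  lin : Matrix.SpecialLinearGroup (Fin 2) ℤ
  tr : Fin 2 → ℤ

instance : Mul DetAff := ⟨fun a b => ⟨a.lin * b.lin, a.tr + Matrix.mulVec a.lin.1 b.tr⟩⟩

instance : One DetAff := ⟨⟨1, 0⟩⟩

instance : Inv DetAff := ⟨fun a => ⟨a.lin⁻¹, -Matrix.mulVec (a.lin⁻¹).1 a.tr⟩⟩

theorem detAff_mul_lin (a b : DetAff) : (a * b).lin = a.lin * b.lin := rfl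

theorem detAff_mul_tr (a b : DetAff) : (a * b).tr = a.tr + Matrix.mulVec a.lin.1 b.tr := rfl

theorem detAff_one_lin : (1 : DetAff).lin = 1 := rfl

theorem detAff_one_tr : (1 : DetAff).tr = 0 := rfl

theorem detAff_inv_lin (a : DetAff) : (a⁻¹).lin = a.lin⁻¹ := rfl

theorem detAff_inv_tr (a : DetAff) : (a⁻¹).tr = -Matrix.mulVec (a.lin⁻¹).1 a.tr := rfl

instance : Group DetAff where
  mul_assoc a b c := by
    apply DetAff.ext
    · simp only [detAff_mul_lin, mul_assoc]
    · simp only [detAff_mul_lin, detAff_mul_tr, Matrix.mulVec_add, Matrix.mulVec_mulVec,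
        Matrix.SpecialLinearGroup.coe_mul, add_assoc]
  one_mul a := by
    apply DetAff.ext
    · simp only [detAff_mul_lin, detAff_one_lin, one_mul]
    · simp [detAff_mul_tr, detAff_one_lin, detAff_one_tr]
  mul_one a := by
    apply DetAff.ext
    · simp only [detAff_mul_lin, detAff_one_lin, mul_one]
    · simp [detAff_mul_tr, detAff_one_tr]
  inv_mul_cancel a := by
    apply DetAff.ext
    · simp only [detAff_mul_lin, detAff_inv_lin, detAff_one_lin, inv_mul_cancel]
    · simp only [detAff_mul_tr, detAff_inv_lin, detAff_inv_tr, detAff_one_tr, neg_add_cancel]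

/-- The linear part as a homomorphism. -/
def detLin : DetAff →* Matrix.SpecialLinearGroup (Fin 2) ℤ where
  toFun := DetAff.lin
  map_one' := rfl
  map_mul' _ _ := rfl

/-- The point reflection with centre `(a, b)`. -/
def detR (a b : ℤ) : DetAff := ⟨-1, ![2 * a, 2 * b]⟩

/-- The affine maps induced by the four generators. -/
def detG : Bool × Bool → DetAff
  | (false, false) => ⟨sanM false, 0⟩
  | (false, true) => ⟨sanM true, ![-2, 0]⟩
  | (true, false) => 1
  | (true, true) => detR 0 1

theorem det_mul_R (g : DetAff) (a b a' b' : ℤ)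
    (h0 : g.lin.1 0 0 * a + g.lin.1 0 1 * b + g.tr 0 = a')
    (h1 : g.lin.1 1 0 * a + g.lin.1 1 1 * b + g.tr 1 = b') :
    g * detR a b = detR a' b' * g := by
  apply DetAff.ext
  · simp [detAff_mul_lin, detR]
  · funext i
    fin_cases i
    · simp [detAff_mul_tr, detR]
      linarith
    · simp [detAff_mul_tr, detR]
      linarith

theorem det_conj_R (g : DetAff) (a b a' b' : ℤ)
    (h0 : g.lin.1 0 0 * a + g.lin.1 0 1 * b + g.tr 0 = a')
    (h1 : g.lin.1 1 0 * a + g.lin.1 1 1 * b + g.tr 1 = b') :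
    g * detR a b * g⁻¹ = detR a' b' := by
  rw [det_mul_R g a b a' b' h0 h1, mul_inv_cancel_right]

theorem det_RR (a b a' b' : ℤ) :
    detR a b * detR a' b' = ⟨1, ![2 * (a - a'), 2 * (b - b')]⟩ := by
  apply DetAff.ext
  · simp [detAff_mul_lin, detR]
  · funext i
    fin_cases i
    · simp [detAff_mul_tr, detR]
      ring
    · simp [detAff_mul_tr, detR]
      ring

theorem det_R_sq (a b : ℤ) : detR a b * detR a b = 1 := by
  rw [det_RR]
  apply DetAff.ext
  · rfl
  · funext i
    fin_cases i <;> simp [detAff_one_tr]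

theorem det_R3 : detR 0 0 * detR 1 0 * detR 1 1 = detR 0 1 := by
  rw [det_RR]
  apply DetAff.ext
  · simp [detAff_mul_lin, detR]
  · funext i
    fin_cases i <;> simp [detAff_mul_tr, detR]

/-- Images of the generators of the sphere group. -/
def detF (N j k : ℕ) : DetAff :=
  if k = j + 1 then detR 0 0 else if k = j + 2 then detR 1 0 else if k = j + 3 then detR 1 1
    else if k + 1 = N then detR 0 1 else 1

theorem det_prod (N j : ℕ) (hj : j + 4 < N) : ((List.range N).map (detF N j)).prod = 1 := by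
  have hs : ∀ n, ((List.range (n + 1)).map (detF N j)).prod =
      ((List.range n).map (detF N j)).prod * detF N j n := by
    intro n
    rw [List.range_succ, List.map_append, List.prod_append]
    simp
  have h1 : ∀ n, n ≤ j + 1 → ((List.range n).map (detF N j)).prod = 1 := by
    intro n
    induction n with
    | zero => intro _; rfl
    | succ n ih =>
      intro hn
      rw [hs, ih (by omega), one_mul, detF, if_neg (by omega), if_neg (by omega),
        if_neg (by omega), if_neg (by omega)]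
  have h2 : ((List.range (j + 4)).map (detF N j)).prod = detR 0 1 := by
    rw [hs, hs, hs, h1 _ le_rfl, one_mul, ← det_R3]
    simp [detF]
  have h3 : ∀ n, j + 4 + n < N → ((List.range (j + 4 + n)).map (detF N j)).prod = detR 0 1 := by
    intro n
    induction n with
    | zero => intro _; exact h2
    | succ n ih =>
      intro hn
      rw [← add_assoc, hs, ih (by omega), detF, if_neg (by omega), if_neg (by omega),
        if_neg (by omega), if_neg (by omega), mul_one]
  obtain ⟨n, rfl⟩ : ∃ n, N = j + 4 + n + 1 := ⟨N - (j + 4) - 1, by omega⟩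
  rw [hs, h3 n (by omega), detF, if_neg (by omega), if_neg (by omega), if_neg (by omega),
    if_pos rfl, det_R_sq]

theorem det_exists_psi (N j : ℕ) (hj : j + 4 < N) :
    ∃ Ψ : PiA N →* DetAff, ∀ k, k < N → Ψ (yy N k) = detF N j k := by
  apply exists_piA_hom _ _ (det_prod N j hj)
  intro k _
  unfold detF
  split_ifs
  · exact det_R_sq _ _
  · exact det_R_sq _ _
  · exact det_R_sq _ _
  · exact det_R_sq _ _
  · exact mul_one _

theorem det_gen {N : ℕ} {L M U : MulAut (PiA N)} {j : ℕ} (hj : j + 4 < N) (hL : IsArt L j)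
    (hM : IsArt M (j + 1)) (hU : IsArt U (j + 2)) (Ψ : PiA N →* DetAff)
    (hΨ : ∀ k, k < N → Ψ (yy N k) = detF N j k) (b : Bool × Bool) (γ : PiA N) :
    Ψ (gnOf U M L b γ) = detG b * Ψ γ * (detG b)⁻¹ := by
  have e0 : Ψ (yy N j) = 1 := by
    rw [hΨ _ (by omega), detF, if_neg (by omega), if_neg (by omega), if_neg (by omega),
      if_neg (by omega)]
  have e1 : Ψ (yy N (j + 1)) = detR 0 0 := by
    rw [hΨ _ (by omega), detF, if_pos rfl]
  have e2 : Ψ (yy N (j + 2)) = detR 1 0 := by
    rw [hΨ _ (by omega), detF, if_neg (by omega), if_pos rfl]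
  have e3 : Ψ (yy N (j + 3)) = detR 1 1 := by
    rw [hΨ _ (by omega), detF, if_neg (by omega), if_neg (by omega), if_pos rfl]
  have key : Ψ.comp (gnOf U M L b).toMonoidHom =
      (MulAut.conj (detG b)).toMonoidHom.comp Ψ := by
    apply piA_hom_ext
    intro k hk
    change Ψ (gnOf U M L b (yy N k)) = detG b * Ψ (yy N k) * (detG b)⁻¹
    have hcase : k = j + 1 ∨ k = j + 2 ∨ k = j + 3 ∨
        (k ≠ j ∧ k ≠ j + 1 ∧ k ≠ j + 2 ∧ k ≠ j + 3 ∧ Ψ (yy N k) = detR 0 1) ∨
        (k ≠ j + 1 ∧ k ≠ j + 2 ∧ k ≠ j + 3 ∧ Ψ (yy N k) = 1) := by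
      by_cases h1 : k = j + 1
      · exact Or.inl h1
      by_cases h2 : k = j + 2
      · exact Or.inr (Or.inl h2)
      by_cases h3 : k = j + 3
      · exact Or.inr (Or.inr (Or.inl h3))
      by_cases h4 : k + 1 = N
      · refine Or.inr (Or.inr (Or.inr (Or.inl ⟨by omega, h1, h2, h3, ?_⟩)))
        rw [hΨ _ hk, detF, if_neg h1, if_neg h2, if_neg h3, if_pos h4]
      · refine Or.inr (Or.inr (Or.inr (Or.inr ⟨h1, h2, h3, ?_⟩)))
        rw [hΨ _ hk, detF, if_neg h1, if_neg h2, if_neg h3, if_neg h4]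
    rcases b with ⟨_ | _, _ | _⟩
    · change Ψ ((U ^ 2) (yy N k)) = _
      rw [art_sq hU k]
      rcases hcase with rfl | rfl | rfl | ⟨_, _, h2, h3, h⟩ | ⟨_, h2, h3, h⟩
      · rw [if_neg (by omega), e1, det_conj_R _ 0 0 0 0] <;> simp [detG]
      · rw [if_pos (by omega), map_mul, map_inv, map_mul, map_mul, e2, e3, det_RR,
          det_conj_R _ 1 0 1 (-2), det_conj_R _ 1 0 1 (-2)] <;> simp [detG, sanM]
      · rw [if_pos (by omega), map_mul, map_inv, map_mul, map_mul, e2, e3, det_RR,
          det_conj_R _ 1 1 1 (-1), det_conj_R _ 1 1 1 (-1)] <;> simp [detG, sanM]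
      · rw [if_neg (by omega), h, det_conj_R _ 0 1 0 1] <;> simp [detG, sanM]
      · rw [if_neg (by omega), h, mul_one, mul_inv_cancel]
    · change Ψ (((L * M) ^ 3) (yy N k)) = _
      rw [art_cube hL hM k]
      rcases hcase with rfl | rfl | rfl | ⟨_, _, h2, h3, h⟩ | ⟨_, h2, h3, h⟩
      · rw [if_pos (by omega), map_mul, map_inv, map_mul, map_mul, map_mul, e0, e1, e2, one_mul,
          det_RR, det_conj_R _ 0 0 (-2) 0, det_conj_R _ 0 0 (-2) 0] <;> simp [detG, sanM]
      · rw [if_pos (by omega), map_mul, map_inv, map_mul, map_mul, map_mul, e0, e1, e2, one_mul,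
          det_RR, det_conj_R _ 1 0 (-1) 0, det_conj_R _ 1 0 (-1) 0] <;> simp [detG, sanM]
      · rw [if_neg (by omega), e3, det_conj_R _ 1 1 1 1] <;> simp [detG, sanM]
      · rw [if_neg (by omega), h, det_conj_R _ 0 1 0 1] <;> simp [detG, sanM]
      · split_ifs
        · rw [map_mul, map_mul, h, mul_one, mul_one, map_inv, mul_inv_cancel, mul_inv_cancel]
        · rw [h, mul_one, mul_inv_cancel]
    · change Ψ ((L ^ 2) (yy N k)) = 1 * Ψ (yy N k) * 1⁻¹
      rw [art_sq hL k, one_mul, inv_one, mul_one]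
      split_ifs with hc
      · rcases hc with rfl | rfl
        · rw [map_mul, map_mul, e0, mul_one, map_inv, mul_inv_cancel]
        · rw [map_mul, map_inv, map_mul, map_mul, e0, one_mul, mul_inv_cancel_right]
      · rfl
    · change Ψ (((M * U) ^ 3) (yy N k)) = detR 0 1 * Ψ (yy N k) * (detR 0 1)⁻¹
      rw [art_cube hM hU k]
      split_ifs with hc
      · rw [map_mul, map_inv, map_mul, map_mul, map_mul, e1, e2, e3, det_R3]
      · rcases hcase with rfl | rfl | rfl | ⟨_, _, h2, h3, h⟩ | ⟨_, h2, h3, h⟩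
        · omega
        · omega
        · omega
        · rw [h, mul_inv_cancel_right]
        · rw [h, mul_one, mul_inv_cancel]
  exact DFunLike.congr_fun key γ

theorem det_word {N : ℕ} {L M U : MulAut (PiA N)} {j : ℕ} (hj : j + 4 < N) (hL : IsArt L j)
    (hM : IsArt M (j + 1)) (hU : IsArt U (j + 2)) (Ψ : PiA N →* DetAff)
    (hΨ : ∀ k, k < N → Ψ (yy N k) = detF N j k) (w : FW) : ∀ γ : PiA N,
    Ψ (FreeGroup.lift (gnOf U M L) w γ) =
      FreeGroup.lift detG w * Ψ γ * (FreeGroup.lift detG w)⁻¹ := by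
  induction w using FreeGroup.induction_on with
  | C1 => intro γ; simp
  | of b =>
    intro γ
    rw [FreeGroup.lift_apply_of, FreeGroup.lift_apply_of]
    exact det_gen hj hL hM hU Ψ hΨ b γ
  | inv_of b ih =>
    intro γ
    have h := ih (FreeGroup.lift (gnOf U M L) (FreeGroup.of b)⁻¹ γ)
    rw [← MulAut.mul_apply, ← map_mul, mul_inv_cancel, map_one, MulAut.one_apply] at h
    rw [h, map_inv (FreeGroup.lift detG)]
    group
  | mul x y ihx ihy =>
    intro γ
    rw [map_mul, MulAut.mul_apply, ihx, ihy, map_mul]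
    group

theorem det_lin_word (w : FW) :
    detLin (FreeGroup.lift detG w) = FreeGroup.lift sanM (pc false w) ∨
      detLin (FreeGroup.lift detG w) = -FreeGroup.lift sanM (pc false w) := by
  induction w using FreeGroup.induction_on with
  | C1 => left; simp
  | of b =>
    rcases b with ⟨_ | _, _ | _⟩
    · left; simp [pc, detG, detLin]
    · left; simp [pc, detG, detLin]
    · left; simp [pc, detG]
    · right; simp [pc, detG, detLin, detR]
  | inv_of b ih =>
    simp only [map_inv]
    rcases ih with h | h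
    · left; rw [h]
    · right; rw [h, inv_neg]
  | mul x y ihx ihy =>
    simp only [map_mul]
    rcases ihx with h | h <;> rcases ihy with h' | h' <;> rw [h, h'] <;> simp

theorem det_conj_tr (g : DetAff) (v : Fin 2 → ℤ) :
    g * ⟨1, v⟩ * g⁻¹ = ⟨1, Matrix.mulVec g.lin.1 v⟩ := by
  have : g * ⟨1, v⟩ = ⟨1, Matrix.mulVec g.lin.1 v⟩ * g := by
    apply DetAff.ext
    · simp [detAff_mul_lin]
    · simp [detAff_mul_tr, add_comm]
  rw [this, mul_inv_cancel_right]

/-- Detection of words by forgetting all points but four. -/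
theorem det_piA {N : ℕ} {L M U : MulAut (PiA N)} {j : ℕ} (hj : j + 4 < N) (hL : IsArt L j)
    (hM : IsArt M (j + 1)) (hU : IsArt U (j + 2)) (σ : PiA N →* Multiplicative (ZMod 2))
    (hσ : IsPar σ) (w : FW) (δ : PiA N)
    (h : ∀ γ, σ γ = 1 → FreeGroup.lift (gnOf U M L) w γ = δ * γ * δ⁻¹) : pc false w = 1 := by
  obtain ⟨Ψ, hΨ⟩ := det_exists_psi N j hj
  have e1 : Ψ (yy N (j + 1)) = detR 0 0 := by
    rw [hΨ _ (by omega), detF, if_pos rfl]
  have e2 : Ψ (yy N (j + 2)) = detR 1 0 := by
    rw [hΨ _ (by omega), detF, if_neg (by omega), if_pos rfl]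
  have e3 : Ψ (yy N (j + 3)) = detR 1 1 := by
    rw [hΨ _ (by omega), detF, if_neg (by omega), if_neg (by omega), if_pos rfl]
  have hδ : ∀ d : PiA N, (Ψ d).lin = 1 ∨ (Ψ d).lin = -1 := by
    intro d
    induction d using piA_induction with
    | h1 => left; rw [map_one]; rfl
    | hs d k hk ih =>
      rw [map_mul, detAff_mul_lin, hΨ k hk]
      have hk' : (detF N j k).lin = 1 ∨ (detF N j k).lin = -1 := by
        unfold detF
        split_ifs
        · right; rfl
        · right; rfl
        · right; rfl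
        · right; rfl
        · left; rfl
      rcases ih with h | h <;> rcases hk' with h' | h' <;> rw [h, h'] <;> simp
  have hpar : ∀ a b, a < N → b < N → σ (yy N a * yy N b) = 1 := by
    intro a b ha hb
    rw [map_mul, hσ a ha, hσ b hb]
    decide
  have hcmp : ∀ a b, a < N → b < N → ∀ v, Ψ (yy N a * yy N b) = ⟨1, v⟩ →
      Matrix.mulVec (FreeGroup.lift detG w).lin.1 v = Matrix.mulVec (Ψ δ).lin.1 v := by
    intro a b ha hb v hv
    have h1 := det_word hj hL hM hU Ψ hΨ w (yy N a * yy N b)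
    rw [h _ (hpar a b ha hb), map_mul, map_mul, map_inv, hv, det_conj_tr, det_conj_tr] at h1
    exact (congrArg DetAff.tr h1).symm
  have c1 := hcmp (j + 1) (j + 2) (by omega) (by omega) _ (by rw [map_mul, e1, e2, det_RR])
  have c2 := hcmp (j + 2) (j + 3) (by omega) (by omega) _ (by rw [map_mul, e2, e3, det_RR])
  have hlin : (FreeGroup.lift detG w).lin = (Ψ δ).lin := by
    apply Matrix.SpecialLinearGroup.ext
    intro i k
    have d1 := congrFun c1 i
    have d2 := congrFun c2 i
    simp [Matrix.mulVec, dotProduct, Fin.sum_univ_two] at d1 d2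
    fin_cases k
    · exact d1
    · exact d2
  apply sanov
  rw [map_mul]
  have hw := det_lin_word w
  change (FreeGroup.lift detG w).lin = _ ∨ (FreeGroup.lift detG w).lin = _ at hw
  rw [hlin] at hw
  rcases hw with hw | hw
  · rw [← hw]
    rcases hδ δ with h' | h' <;> rw [h'] <;> simp
  · rw [← neg_mul_neg, ← hw]
    rcases hδ δ with h' | h' <;> rw [h'] <;> simp

end Pool.Agent.Lib.MP_66609f_al
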