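import Pool.Agent.Lib.MP_66609f_al.TwRel

namespace Pool.Agent.Lib.MP_66609f_al

variable {g : ℕ}

theorem twRel2_sq (v : W (g + 3)) : oc g (cj g v) * oc g (cj g v) = 1 := by
  rw [← map_mul, ← map_mul]
  refine oc_cj_of_mem _ ?_
  change col g _ = 1
  rw [map_mul, PP.mul_self]

theorem twRel2_comm (v v' : W (g + 3)) : Commute (oc g (cj g v)) (oc g (cj g v')) := by
  change _ * _ = _ * _
  rw [← map_mul, ← map_mul, ← map_mul, ← map_mul]
  exact oc_cj_eq _ _ (by rw [map_mul, map_mul, mul_comm])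

/-- The shift on invertible twists. -/
def twRel2_sh (q : PP) : (Tw g)ˣ →* (Tw g)ˣ := Units.map (Tw.shift q)

theorem twRel2_sh_sh (q : PP) (A : (Tw g)ˣ) : twRel2_sh q (twRel2_sh q A) = A := by
  refine Units.ext (Tw.ext ?_)
  funext p w
  change (A : Tw g).F (q * (q * p)) w = _
  rw [← mul_assoc, PP.mul_self, one_mul]

theorem twRel2_conj (v : W (g + 3)) (A : (Tw g)ˣ) :
    oc g (cj g v) * oc g (Tw.res g A) * (oc g (cj g v))⁻¹ =
      oc g (Tw.res g (twRel2_sh (col g v) A)) := by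
  have h := oc_res_cj (twRel2_sh (col g v) A) v
  have e : Units.map (Tw.shift (col g v)) (twRel2_sh (col g v) A) = A := twRel2_sh_sh _ _
  rw [e] at h
  rw [← h, mul_inv_cancel_right]

theorem twRel2_val {k : ℕ} (hk : k < g + 3) : ((k : ℕ) : ZMod (g + 3)).val = k := by
  rw [ZMod.val_natCast, Nat.mod_eq_of_lt hk]

theorem twRel2_col0 : col g (t3 g) = Multiplicative.ofAdd (0, 0, 1) := by
  rw [t3, ee, col_sg, colg, twRel2_val (by omega), if_pos (Or.inl rfl)]

theorem twRel2_col1 (hg : 3 ≤ g) : col g (ee g 1) = Multiplicative.ofAdd (1, 0, 0) := by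
  rw [ee, col_sg, colg, twRel2_val (by omega), if_neg (by omega), if_neg (by omega), if_pos rfl]

theorem twRel2_col2 (hg : 3 ≤ g) : col g (ee g 2) = Multiplicative.ofAdd (0, 1, 0) := by
  rw [ee, col_sg, colg, twRel2_val (by omega), if_neg (by omega), if_neg (by omega),
    if_neg (by omega)]

theorem twRel2_sh_eq {A B : (Tw g)ˣ} {i : ZMod (g + 3)} {κ κ' : PP → ℤ}
    (hA : IsTwist (A : Tw g) i κ) (hB : IsTwist (B : Tw g) i κ') {q : PP}
    (h : ∀ p, κ (q * p) = κ' p) : twRel2_sh q A = B := by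
  refine Units.ext (IsTwist.unique (hA.shift q) ?_)
  rw [funext h]
  exact hB

theorem twRel2_sh_inv (hg : 3 ≤ g) {A : (Tw g)ˣ} {i : ZMod (g + 3)} {κ : PP → ℤ}
    (hA : IsTwist (A : Tw g) i κ) (hκ : TwOK g i κ) {q : PP} (h : ∀ p, κ (q * p) = κ p * (-1)) :
    twRel2_sh q A = A⁻¹ := by
  rw [← zpow_neg_one]
  exact twRel2_sh_eq hA (hA.zpow hg hκ (-1)) h

theorem twRel2_sh_T (hg : 3 ≤ g) (q : PP) : twRel2_sh q (twT hg) = twT hg ^ chi q :=
  twRel2_sh_eq (twT_spec hg) ((twT_spec hg).zpow hg (twOK_T hg) (chi q)) (by revert q; decide)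

theorem twRel2_map_gnOf {H H' : Type*} [Group H] [Group H'] (f : H →* H') (U M L : H)
    (b : Bool × Bool) : f (gnOf U M L b) = gnOf (f U) (f M) (f L) b := by
  rcases b with ⟨_ | _, _ | _⟩ <;> simp [gnOf]

theorem twRel2_cube {H : Type*} [Group H] {a b : H} (h : a * b * a = b * a * b) :
    (a * b) ^ 3 = (b * a) ^ 3 := by
  calc (a * b) ^ 3 = (a * b * a) * (b * a * b) := by simp only [pow_succ, pow_zero]; group
    _ = (b * a * b) * (a * b * a) := by rw [h]
    _ = (b * a) ^ 3 := by simp only [pow_succ, pow_zero]; group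

theorem twRel2_cube_comm {H : Type*} [Group H] {a b : H} (h : a * b * a = b * a * b) :
    Commute a ((b * a) ^ 3) := by
  change _ * _ = _ * _
  calc a * (b * a) ^ 3 = (a * b) ^ 3 * a := by simp only [pow_succ, pow_zero]; group
    _ = (b * a) ^ 3 * a := by rw [twRel2_cube h]

theorem twRel2_sh_hyp (hg : 3 ≤ g) {q : PP} (hq : q ∈ hypP) (b : Bool × Bool) :
    twRel2_sh q (gnTw hg b) = gnTw hg b := by
  have hq' : q.toAdd.2.2 = 0 ∧ q.toAdd.1 = q.toAdd.2.1 := hq
  rw [gnTw, twRel2_map_gnOf,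
    twRel2_sh_eq (twU_spec hg) (twU_spec hg) (q := q) (by clear hq; revert hq'; revert q; decide),
    twRel2_sh_eq (twM_spec hg) (twM_spec hg) (q := q) (by clear hq; revert hq'; revert q; decide),
    twRel2_sh_eq (twL_spec hg) (twL_spec hg) (q := q) (by clear hq; revert hq'; revert q; decide)]

theorem rO_mul_self : rO g * rO g = 1 := twRel2_sq _

theorem ρO_mul_self : ρO g * ρO g = 1 := twRel2_sq _

theorem τO_mul_self : τO g * τO g = 1 := twRel2_sq _

theorem comm_rρ : Commute (rO g) (ρO g) := twRel2_comm _ _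

theorem comm_rτ : Commute (rO g) (τO g) := twRel2_comm _ _

theorem comm_ρτ : Commute (ρO g) (τO g) := twRel2_comm _ _

theorem twRel2_cj_TO (hg : 3 ≤ g) (v : W (g + 3)) :
    oc g (cj g v) * TO hg * (oc g (cj g v))⁻¹ = TO hg ^ chi (col g v) := by
  rw [TO, autT, twRel2_conj, twRel2_sh_T, map_zpow, map_zpow]

theorem comm_rT (hg : 3 ≤ g) : Commute (rO g) (TO hg) := by
  have h := twRel2_cj_TO hg (ee g 1 * ee g 2)
  have e : chi (col g (ee g 1 * ee g 2)) = 1 := by
    rw [map_mul, twRel2_col1 hg, twRel2_col2 hg]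
    decide
  rw [e, zpow_one] at h
  exact mul_inv_eq_iff_eq_mul.1 h

theorem comm_ρT (hg : 3 ≤ g) : Commute (ρO g) (TO hg) := by
  have h := twRel2_cj_TO hg (ee g 1)
  have e : chi (col g (ee g 1)) = 1 := by
    rw [twRel2_col1 hg]
    decide
  rw [e, zpow_one] at h
  exact mul_inv_eq_iff_eq_mul.1 h

theorem τO_TO (hg : 3 ≤ g) : τO g * TO hg * (τO g)⁻¹ = (TO hg)⁻¹ := by
  have h := twRel2_cj_TO hg (t3 g * ee g 1)
  have e : chi (col g (t3 g * ee g 1)) = -1 := by
    rw [map_mul, twRel2_col1 hg, twRel2_col0]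
    decide
  rwa [e, zpow_neg_one] at h

theorem cj_TO (hg : 3 ≤ g) (v : W (g + 3)) :
    oc g (cj g v) * TO hg * (oc g (cj g v))⁻¹ = TO hg ^ chi (col g v) :=
  twRel2_cj_TO hg v

theorem comm_r_gn (hg : 3 ≤ g) (b : Bool × Bool) :
    Commute (rO g) (oc g (Tw.res g (gnTw hg b))) := by
  have h := twRel2_conj (ee g 1 * ee g 2) (gnTw hg b)
  have e : col g (ee g 1 * ee g 2) ∈ hypP := by
    rw [map_mul, twRel2_col1 hg, twRel2_col2 hg]
    exact ⟨by decide, by decide⟩
  rw [twRel2_sh_hyp hg e] at h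
  exact mul_inv_eq_iff_eq_mul.1 h

theorem comm_T_gn (hg : 3 ≤ g) (b : Bool × Bool) :
    Commute (TO hg) (oc g (Tw.res g (gnTw hg b))) := by
  refine (Commute.map ?_ (Tw.res g)).map (oc g)
  rcases b with ⟨_ | _, _ | _⟩
  · exact (comm_TU hg).pow_right 2
  · exact ((comm_TL hg).mul_right (comm_TM hg)).pow_right 3
  · exact (comm_TL hg).pow_right 2
  · exact ((comm_TM hg).mul_right (comm_TU hg)).pow_right 3

theorem ρO_gn (hg : 3 ≤ g) (b : Bool × Bool) :
    ρO g * oc g (Tw.res g (gnTw hg b)) * (ρO g)⁻¹ = (oc g (Tw.res g (gnTw hg b)))⁻¹ := by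
  rw [ρO, twRel2_conj, twRel2_col1 hg, ← map_inv, ← map_inv]
  congr 2
  rw [gnTw, twRel2_map_gnOf, twRel2_sh_inv hg (twU_spec hg) (twOK_U hg) (by decide),
    twRel2_sh_inv hg (twM_spec hg) (twOK_M hg) (by decide),
    twRel2_sh_inv hg (twL_spec hg) (twOK_L hg) (by decide)]
  rcases b with ⟨_ | _, _ | _⟩
  · exact inv_pow _ _
  · change ((twL hg)⁻¹ * (twM hg)⁻¹) ^ 3 = ((twL hg * twM hg) ^ 3)⁻¹
    rw [twRel2_cube (braid_LM hg), ← inv_pow, mul_inv_rev]
  · exact inv_pow _ _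
  · change ((twM hg)⁻¹ * (twU hg)⁻¹) ^ 3 = ((twM hg * twU hg) ^ 3)⁻¹
    rw [← twRel2_cube (braid_UM hg), ← inv_pow, mul_inv_rev]

theorem τO_gn (hg : 3 ≤ g) (b : Bool × Bool) :
    τO g * oc g (Tw.res g (gnTw hg b)) * (τO g)⁻¹ = oc g (Tw.res g (gnTw hg (!b.1, b.2))) := by
  rw [τO, twRel2_conj, map_mul, twRel2_col1 hg, twRel2_col0]
  congr 2
  rw [gnTw, twRel2_map_gnOf, twRel2_sh_eq (twU_spec hg) (twL_spec hg) (by decide),
    twRel2_sh_eq (twM_spec hg) (twM_spec hg) (by decide),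
    twRel2_sh_eq (twL_spec hg) (twU_spec hg) (by decide)]
  rcases b with ⟨_ | _, _ | _⟩
  · rfl
  · exact twRel2_cube (braid_UM hg)
  · rfl
  · exact (twRel2_cube (braid_LM hg)).symm

theorem comm_xy (hg : 3 ≤ g) : Commute (gnTw hg (false, false)) (gnTw hg (true, false)) :=
  (comm_UL hg).pow_pow 2 2

theorem comm_xu (hg : 3 ≤ g) : Commute (gnTw hg (false, false)) (gnTw hg (true, true)) :=
  (twRel2_cube_comm (braid_UM hg)).pow_left 2

/-- The hyperelliptic shift fixes all words in `x, t, y, u`. -/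
theorem evTw_shift (hg : 3 ≤ g) (w : FW) (p : PP) (hp : p ∈ hypP) :
    Tw.shift p (evTw hg w : Tw g) = (evTw hg w : Tw g) := by
  have h : (twRel2_sh p).comp (evTw hg) = evTw hg :=
    FreeGroup.ext_hom _ _ fun b => by
      rw [MonoidHom.comp_apply, evTw, FreeGroup.lift_apply_of, twRel2_sh_hyp hg hp]
  exact congrArg Units.val (DFunLike.congr_fun h w)

/-- One half of the exponent function of `T`. -/
def twRel2_kap (q p : PP) : ℤ := if (q * p).toAdd.1 = (q * p).toAdd.2.1 then chi (q * p) else 0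

theorem twRel2_ok (q : PP) : TwOK g ((g + 2 : ℕ) : ZMod (g + 3)) (twRel2_kap q) := by
  have e1 : ((g + 2 : ℕ) : ZMod (g + 3)) - 1 = ((g + 1 : ℕ) : ZMod (g + 3)) := by
    push_cast
    ring
  have e2 : ((g + 2 : ℕ) : ZMod (g + 3)) + 1 = ((0 : ℕ) : ZMod (g + 3)) := by
    rw [← Nat.cast_succ, Nat.cast_zero]
    exact ZMod.natCast_self (g + 3)
  have c1 : colg g (((g + 2 : ℕ) : ZMod (g + 3)) - 1) = Multiplicative.ofAdd (0, 0, 1) := by
    rw [e1, colg, twRel2_val (by omega), if_pos (Or.inr rfl)]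
  have c2 : colg g ((g + 2 : ℕ) : ZMod (g + 3)) = Multiplicative.ofAdd (1, 1, 1) := by
    rw [colg, twRel2_val (by omega), if_neg (by omega), if_pos rfl]
  have c3 : colg g (((g + 2 : ℕ) : ZMod (g + 3)) + 1) = Multiplicative.ofAdd (0, 0, 1) := by
    rw [e2, colg, twRel2_val (by omega), if_pos (Or.inl rfl)]
  refine ⟨?_, fun p => ?_⟩
  · rw [c1, c2, c3]
    revert q
    decide
  · rw [map_zpow, ut, map_mul, col_sg, col_sg, c1, c3, PP.mul_self, one_zpow]

/-- An orientation character is trivial on `T` and on `x, t, y, u`. -/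
theorem eps_T (hg : 3 ≤ g) (ε : MulAut (piG g) →* ℤˣ) (hε : ∀ v ∈ piG g, ε (cj g v) = 1) :
    ε (autT hg) = 1 := by
  obtain ⟨A, hA⟩ := exists_twist hg _ _ (twRel2_ok (g := g) 1)
  have hB : IsTwist ((twRel2_sh (col g (ee g 1)) A : (Tw g)ˣ) : Tw g)
      ((g + 2 : ℕ) : ZMod (g + 3)) (twRel2_kap (col g (ee g 1))) := by
    have := hA.shift (col g (ee g 1))
    simp only [twRel2_kap, one_mul] at this
    exact this
  have hT : twT hg = A * twRel2_sh (col g (ee g 1)) A := by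
    refine Units.ext (IsTwist.unique (twT_spec hg) ?_)
    have := hA.mul hg hB (twRel2_ok _)
    have e : (fun p => twRel2_kap 1 p + twRel2_kap (col g (ee g 1)) p) = kapT 1 := by
      rw [twRel2_col1 hg]
      funext p
      revert p
      decide
    rw [e] at this
    exact this
  have h := oc_res_cj A (ee g 1)
  rw [← map_mul, ← map_mul, oc_eq_iff] at h
  obtain ⟨v, hv, h⟩ := h
  have h2 := congrArg ε h
  rw [map_mul, map_mul, map_mul, hε v hv, one_mul, mul_comm] at h2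
  have h3 : ε (Tw.res g A) = ε (Tw.res g (twRel2_sh (col g (ee g 1)) A)) := mul_left_cancel h2
  rw [autT, hT, map_mul, map_mul, ← h3, Int.units_mul_self]

theorem eps_gn (hg : 3 ≤ g) (ε : MulAut (piG g) →* ℤˣ) (b : Bool × Bool) :
    ε (Tw.res g (gnTw hg b)) = 1 := by
  have key : ∀ x y : ℤˣ, x * y * x = y * x * y → x = y := fun x y h => by
    rw [mul_right_comm x y x, Int.units_mul_self, one_mul, mul_right_comm y x y,
      Int.units_mul_self, one_mul] at h
    exact h.symm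
  have hU := congrArg (ε.comp (Tw.res g)) (braid_UM hg)
  have hL := congrArg (ε.comp (Tw.res g)) (braid_LM hg)
  simp only [map_mul] at hU hL
  change (ε.comp (Tw.res g)) (gnTw hg b) = 1
  rw [gnTw, twRel2_map_gnOf, key _ _ hU, key _ _ hL]
  rcases b with ⟨_ | _, _ | _⟩ <;> simp [gnOf, Int.units_mul_self]

end Pool.Agent.Lib.MP_66609f_al
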