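import Pool.Agent.Lib.MP_66609f_al.PiIso
import Pool.Agent.Lib.MP_66609f_al.TwRel2
import Pool.Agent.Lib.MP_66609f_al.Det

namespace Pool.Agent.Lib.MP_66609f_al

variable {g : ℕ}

theorem piTw_col (a : ℕ) (ha : a < g + 3) : col g (ee g a) =
    if a = 0 ∨ a = g + 1 then Multiplicative.ofAdd (0, 0, 1)
    else if a = g + 2 then Multiplicative.ofAdd (1, 1, 1)
    else if a % 2 = 1 then Multiplicative.ofAdd (1, 0, 0) else Multiplicative.ofAdd (0, 1, 0) := by
  rw [ee, col_sg, colg, ZMod.val_cast_of_lt ha]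

theorem piTw_col3 : col g (t3 g) = Multiplicative.ofAdd (0, 0, 1) := by
  rw [t3, piTw_col 0 (by omega), if_pos (Or.inl rfl)]

theorem piTw_col1 : col g (t1 g) = Multiplicative.ofAdd (0, 0, 1) := by
  rw [t1, piTw_col _ (by omega), if_pos (Or.inr rfl)]

theorem piTw_col2 : col g (t2 g) = Multiplicative.ofAdd (1, 1, 1) := by
  rw [t2, piTw_col _ (by omega), if_neg (by omega), if_pos rfl]

theorem piTw_cole {a : ℕ} (h1 : 1 ≤ a) (h2 : a ≤ g) : col g (ee g a) =
    if a % 2 = 1 then Multiplicative.ofAdd (1, 0, 0) else Multiplicative.ofAdd (0, 1, 0) := by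
  rw [piTw_col _ (by omega), if_neg (by omega), if_neg (by omega)]

theorem piTw_colee {a b : ℕ} (h1 : 1 ≤ a) (h2 : a ≤ g) (h3 : 1 ≤ b) (h4 : b ≤ g)
    (h : a = b + 1 ∨ b = a + 1) :
    col g (ee g a) * col g (ee g b) = Multiplicative.ofAdd (1, 1, 0) := by
  rw [piTw_cole h1 h2, piTw_cole h3 h4]
  by_cases c : a % 2 = 1
  · rw [if_pos c, if_neg (by omega)]; decide
  · rw [if_neg c, if_pos (by omega)]; decide

theorem piTw_col_yW (hg : 3 ≤ g) (k : ℕ) : col g (yW g k) = Multiplicative.ofAdd (1, 1, 0) := by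
  unfold yW
  split_ifs with h1 h2 h3 h4 h5
  · rw [map_mul, map_mul, map_mul, mul_assoc (col g (t3 g)),
      piTw_colee (by omega) (by omega) (by omega) (by omega) (by omega), piTw_col3]
    decide
  · rw [map_mul, piTw_colee (by omega) (by omega) (by omega) (by omega) (by omega)]
  · rw [map_mul, map_mul, map_mul, piTw_col2, piTw_col3]
    generalize col g (ee g g) = p
    revert p; decide
  · rw [map_mul, map_mul, map_mul, piTw_col2, piTw_col1]
    generalize col g (ee g g) = p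
    revert p; decide
  · rw [map_mul, piTw_col2, piTw_col1]; decide
  · rw [map_mul, piTw_col2, piTw_col3]; decide

theorem hypIso_par (hg : 3 ≤ g) (f : PiA (2 * g + 2) ≃* hypG g)
    (hf : ∀ k, k < 2 * g + 2 → ((f (yy _ k) : hypG g) : W (g + 3)) = yW g k)
    (σ : PiA (2 * g + 2) →* Multiplicative (ZMod 2)) (hσ : IsPar σ) (δ : PiA (2 * g + 2)) :
    σ δ = 1 ↔ ((f δ : hypG g) : W (g + 3)) ∈ piG g := by
  have key : col g ((f δ : hypG g) : W (g + 3)) =
      Multiplicative.ofAdd ((σ δ).toAdd, (σ δ).toAdd, 0) := by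
    refine piA_induction (p := fun δ => col g ((f δ : hypG g) : W (g + 3)) =
      Multiplicative.ofAdd ((σ δ).toAdd, (σ δ).toAdd, 0)) ?_ (fun w k hk ih => ?_) δ
    · simp only [map_one, OneMemClass.coe_one]; rfl
    · rw [map_mul, Subgroup.coe_mul, map_mul, ih, hf k hk, piTw_col_yW hg, map_mul, hσ k hk]
      generalize σ w = a
      revert a; decide
  change _ ↔ col g _ = 1
  rw [key]
  generalize σ δ = a
  revert a; decide

theorem piTw_ee_sq (a : ℕ) : ee g a * ee g a = 1 := sg_mul_self _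

theorem piTw_ee_sq' (a : ℕ) (x : W (g + 3)) : ee g a * (ee g a * x) = x := by
  rw [← mul_assoc, piTw_ee_sq, one_mul]

theorem piTw_ee_inv (a : ℕ) : (ee g a)⁻¹ = ee g a := sg_inv _

theorem piTw_ee_comm (a : ℕ) : ee g (a + 1) * ee g a = ee g a * ee g (a + 1) := by
  have := (sg_comm ((a : ℕ) : ZMod (g + 3))).eq
  rw [ee, ee, Nat.cast_succ, this]

theorem piTw_ee_comm' (a : ℕ) (x : W (g + 3)) :
    ee g (a + 1) * (ee g a * x) = ee g a * (ee g (a + 1) * x) := by
  rw [← mul_assoc, piTw_ee_comm, mul_assoc]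

theorem piTw_ut (a : ℕ) : ut (((a + 1 : ℕ) : ZMod (g + 3))) = ee g a * ee g (a + 2) := by
  rw [ut, ee, ee]
  congr 2 <;> push_cast <;> ring

section Twist

variable {A : Tw g} {i : ℕ} {κ : PP → ℤ}

theorem piTw_fix (h : IsTwist A ((i : ℕ) : ZMod (g + 3)) κ) (hi : i < g + 3) {a : ℕ}
    (ha : a < g + 3) (p : PP) (hp : a ≠ i ∨ κ p = 0) : A.F p (ee g a) = ee g a := by
  by_cases c : a = i
  · subst c
    rw [ee, h.1, hp.resolve_left (fun e => e rfl), zpow_zero, one_mul]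
  · refine h.2 p _ fun e => c ?_
    have := congrArg ZMod.val e
    rwa [ZMod.val_cast_of_lt ha, ZMod.val_cast_of_lt hi] at this

theorem piTw_fix2 (h : IsTwist A ((i : ℕ) : ZMod (g + 3)) κ) (hi : i < g + 3) {a b : ℕ}
    (h1 : 1 ≤ a) (h2 : a ≤ g) (h4 : b ≤ g) (p : PP)
    (hp : (a ≠ i ∧ b ≠ i) ∨ ∀ q : PP, q.toAdd.2.2 = p.toAdd.2.2 → κ q = 0) :
    A.F p (ee g a * ee g b) = ee g a * ee g b := by
  rw [A.mul, piTw_fix h hi (by omega) p (hp.imp (·.1) fun e => e p rfl),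
    piTw_fix h hi (by omega) _ (hp.imp (·.2) fun e => e _ ?_)]
  rw [piTw_cole h1 h2]
  split_ifs <;> simp

theorem piTw_fix_yW (hg : 3 ≤ g) (h : IsTwist A ((i : ℕ) : ZMod (g + 3)) κ) (h1 : 1 ≤ i)
    (h2 : i ≤ 2) (k : ℕ)
    (hl : k + 2 ≤ g → (g - k ≠ i ∧ g - k - 1 ≠ i) ∨ ∀ q : PP, q.toAdd.2.2 = 1 → κ q = 0)
    (hu : g < k + 2 → k + 3 ≤ 2 * g → (k + 2 - g ≠ i ∧ k + 3 - g ≠ i) ∨
      ∀ q : PP, q.toAdd.2.2 = 0 → κ q = 0) :
    A.F 1 (yW g k) = yW g k := by
  have hi : i < g + 3 := by omega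
  have f3 : ∀ p, A.F p (t3 g) = t3 g := fun p => piTw_fix h hi (by omega) p (Or.inl (by omega))
  have f2 : ∀ p, A.F p (t2 g) = t2 g := fun p => piTw_fix h hi (by omega) p (Or.inl (by omega))
  have f1 : ∀ p, A.F p (t1 g) = t1 g := fun p => piTw_fix h hi (by omega) p (Or.inl (by omega))
  have fg : ∀ p, A.F p (ee g g) = ee g g :=
    fun p => piTw_fix h hi (by omega) p (Or.inl (by omega))
  unfold yW
  split_ifs with c1 c2 c3 c4 c5
  · rw [mul_assoc (t3 g), A.mul, A.mul, f3, f3, piTw_fix2 h hi (by omega) (by omega) (by omega) _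
      ((hl c1).imp id fun e q hq => e q (by rw [hq, piTw_col3]; rfl))]
  · exact piTw_fix2 h hi (by omega) (by omega) (by omega) _
      ((hu (by omega) c2).imp id fun e q hq => e q (by rw [hq]; rfl))
  all_goals simp only [A.mul, f1, f2, f3, fg]

end Twist

theorem piTw_y1 (hg : 3 ≤ g) : yW g (g - 3) = ee g 0 * ee g 3 * ee g 2 * ee g 0 := by
  rw [yW, if_pos (by omega), show g - (g - 3) = 3 by omega]; rfl

theorem piTw_y2 (hg : 3 ≤ g) : yW g (g - 3 + 1) = ee g 0 * ee g 2 * ee g 1 * ee g 0 := by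
  rw [yW, if_pos (by omega), show g - (g - 3 + 1) = 2 by omega]; rfl

theorem piTw_y3 (hg : 3 ≤ g) : yW g (g - 3 + 2) = ee g 1 * ee g 2 := by
  rw [yW, if_neg (by omega), if_pos (by omega), show g - 3 + 2 + 2 - g = 1 by omega,
    show g - 3 + 2 + 3 - g = 2 by omega]

theorem piTw_y4 (hg : 3 ≤ g) : yW g (g - 3 + 2 + 1) = ee g 2 * ee g 3 := by
  rw [yW, if_neg (by omega), if_pos (by omega), show g - 3 + 2 + 1 + 2 - g = 2 by omega,
    show g - 3 + 2 + 1 + 3 - g = 3 by omega]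

/-- Comparison of an automorphism of the sphere group with a twist. -/
def piTw_Rel (f : PiA (2 * g + 2) ≃* hypG g) (φ : MulAut (PiA (2 * g + 2))) (A : (Tw g)ˣ) : Prop :=
  ∀ δ, ((f (φ δ) : hypG g) : W (g + 3)) = (A : Tw g).F 1 (f δ : hypG g)

section Rel

variable {f : PiA (2 * g + 2) ≃* hypG g} {φ ψ : MulAut (PiA (2 * g + 2))} {A B : (Tw g)ˣ}

theorem piTw_Rel.mul (h : piTw_Rel f φ A) (h' : piTw_Rel f ψ B) : piTw_Rel f (φ * ψ) (A * B) :=
  fun δ => by rw [MulAut.mul_apply, h, h', Units.val_mul, Tw.mul_F]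

theorem piTw_Rel.inv (h : piTw_Rel f φ A) : piTw_Rel f φ⁻¹ A⁻¹ := fun δ => by
  have := h (φ⁻¹ δ)
  rw [MulAut.apply_inv_self] at this
  rw [this, ← Tw.mul_F, Units.inv_mul, Tw.one_F]

theorem piTw_Rel.pow (h : piTw_Rel f φ A) (n : ℕ) : piTw_Rel f (φ ^ n) (A ^ n) := by
  induction n with
  | zero => exact fun _ => rfl
  | succ n ih => rw [pow_succ, pow_succ]; exact ih.mul h

theorem piTw_of_art (hf : ∀ k, k < 2 * g + 2 → ((f (yy _ k) : hypG g) : W (g + 3)) = yW g k)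
    {i : ZMod (g + 3)} {κ : PP → ℤ} (h : IsTwist (A : Tw g) i κ)
    (hκ : ∀ q : PP, q.toAdd.2.2 = 0 ∧ q.toAdd.1 = q.toAdd.2.1 → ∀ p, κ (q * p) = κ p) {j : ℕ}
    (hj : j + 1 < 2 * g + 2) (hφ : IsArt φ j)
    (h1 : (A : Tw g).F 1 (yW g j) = yW g j * yW g (j + 1) * yW g j)
    (h2 : (A : Tw g).F 1 (yW g (j + 1)) = yW g j)
    (h3 : ∀ k, k ≠ j → k ≠ j + 1 → (A : Tw g).F 1 (yW g k) = yW g k) : piTw_Rel f φ A := by
  have hs : ∀ q ∈ hypP, ∀ w, (A : Tw g).F q w = (A : Tw g).F 1 w := fun q hq w => by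
    have e := h.shift q
    simp only [hκ q hq] at e
    have := congrArg (fun C : Tw g => C.F 1 w) (e.unique h)
    simpa [Tw.shift] using this
  refine piA_induction ?_ fun w k hk ih => ?_
  · simp only [map_one, OneMemClass.coe_one, Tw.F_one]
  · rw [map_mul, map_mul, map_mul, Subgroup.coe_mul, Subgroup.coe_mul, Tw.mul, ih, one_mul,
      hs _ (f w).2, hf k hk]
    congr 1
    by_cases c1 : k = j
    · subst c1
      rw [hφ.1, h1, map_mul, map_mul, Subgroup.coe_mul, Subgroup.coe_mul, hf k hk, hf _ hj]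
    · by_cases c2 : k = j + 1
      · subst c2
        rw [hφ.2.1, h2, hf j (by omega)]
      · rw [hφ.2.2 k c1 c2, h3 k c1 c2, hf k hk]

end Rel

theorem piTw_c0 : col g (ee g 0) = Multiplicative.ofAdd (0, 0, 1) := piTw_col3

theorem piTw_c1 (hg : 3 ≤ g) : col g (ee g 1) = Multiplicative.ofAdd (1, 0, 0) := by
  rw [piTw_cole le_rfl (by omega), if_pos rfl]

theorem piTw_c2 (hg : 3 ≤ g) : col g (ee g 2) = Multiplicative.ofAdd (0, 1, 0) := by
  rw [piTw_cole (by omega) (by omega), if_neg (by omega)]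

theorem piTw_c3 (hg : 3 ≤ g) : col g (ee g 3) = Multiplicative.ofAdd (1, 0, 0) := by
  rw [piTw_cole (by omega) (by omega), if_pos rfl]

/-- The twists restrict to Artin half twists. -/
theorem hypIso_tw (hg : 3 ≤ g) (f : PiA (2 * g + 2) ≃* hypG g)
    (hf : ∀ k, k < 2 * g + 2 → ((f (yy _ k) : hypG g) : W (g + 3)) = yW g k)
    {L M U : MulAut (PiA (2 * g + 2))} (hL : IsArt L (g - 3)) (hM : IsArt M (g - 3 + 1))
    (hU : IsArt U (g - 3 + 2)) (w : FW) (δ : PiA (2 * g + 2)) :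
    ((f (FreeGroup.lift (gnOf U M L) w δ) : hypG g) : W (g + 3)) =
      (evTw hg w : Tw g).F 1 (f δ : hypG g) := by
  have c10 := piTw_ee_comm' (g := g) 0
  have c21 := piTw_ee_comm' (g := g) 1
  have c32 := piTw_ee_comm' (g := g) 2
  have d10 := piTw_ee_comm (g := g) 0
  have d21 := piTw_ee_comm (g := g) 1
  have d32 := piTw_ee_comm (g := g) 2
  simp only [Nat.reduceAdd] at c10 c21 c32 d10 d21 d32
  have rU : piTw_Rel f U (twU hg) := by
    have h := twU_spec hg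
    have e : ∀ p, (twU hg : Tw g).F p (ee g 2) = (ee g 1 * ee g 3) ^ kapU p * ee g 2 :=
      fun p => by rw [← piTw_ut 1]; exact h.1 p
    have e' : ∀ a, a < g + 3 → a ≠ 2 → ∀ p, (twU hg : Tw g).F p (ee g a) = ee g a :=
      fun a ha ha' p => piTw_fix h (by omega) ha p (Or.inl ha')
    refine piTw_of_art hf h (by decide) (by omega) hU ?_ ?_ fun k k1 k2 =>
      piTw_fix_yW hg h (by omega) le_rfl k (fun _ => Or.inr (by decide)) fun _ _ =>
        Or.inl (by omega)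
    · rw [piTw_y3 hg, piTw_y4 hg, Tw.mul, e, e' 1 (by omega) (by omega), piTw_c1 hg,
        show kapU (1 * Multiplicative.ofAdd (1, 0, 0)) = -1 by decide]
      simp only [zpow_neg, zpow_one, mul_inv_rev, piTw_ee_inv, mul_assoc, piTw_ee_sq']
    · rw [piTw_y3 hg, piTw_y4 hg, Tw.mul, e, e' 3 (by omega) (by omega),
        show kapU 1 = 1 by decide]
      simp only [zpow_one, mul_assoc, c32, piTw_ee_sq, mul_one]
  have rM : piTw_Rel f M (twM hg) := by
    have h := twM_spec hg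
    have e : ∀ p, (twM hg : Tw g).F p (ee g 1) = (ee g 0 * ee g 2) ^ kapM p * ee g 1 :=
      fun p => by rw [← piTw_ut 0]; exact h.1 p
    have e' : ∀ a, a < g + 3 → a ≠ 1 → ∀ p, (twM hg : Tw g).F p (ee g a) = ee g a :=
      fun a ha ha' p => piTw_fix h (by omega) ha p (Or.inl ha')
    refine piTw_of_art hf h (by decide) (by omega) hM ?_ ?_ fun k k1 k2 =>
      piTw_fix_yW hg h le_rfl (by omega) k (fun _ => Or.inl (by omega)) fun _ _ =>
        Or.inl (by omega)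
    · rw [piTw_y2 hg, piTw_y3 hg, Tw.mul, Tw.mul, Tw.mul, e, e' 0 (by omega) (by omega),
        e' 0 (by omega) (by omega), e' 2 (by omega) (by omega), map_mul, piTw_c0, piTw_c2 hg,
        show kapM (1 * (Multiplicative.ofAdd (0, 0, 1) * Multiplicative.ofAdd (0, 1, 0))) =
          (2 : ℕ) by decide]
      simp only [zpow_natCast, pow_two, mul_assoc]
      rw [c10 (ee g 1 * _), piTw_ee_sq']
    · rw [piTw_y2 hg, piTw_y3 hg, Tw.mul, e, e' 2 (by omega) (by omega),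
        show kapM 1 = (2 : ℕ) by decide]
      simp only [zpow_natCast, pow_two, mul_assoc, c21, piTw_ee_sq, mul_one, d10]
  have rL : piTw_Rel f L (twL hg) := by
    have h := twL_spec hg
    have e : ∀ p, (twL hg : Tw g).F p (ee g 2) = (ee g 1 * ee g 3) ^ kapL p * ee g 2 :=
      fun p => by rw [← piTw_ut 1]; exact h.1 p
    have e' : ∀ a, a < g + 3 → a ≠ 2 → ∀ p, (twL hg : Tw g).F p (ee g a) = ee g a :=
      fun a ha ha' p => piTw_fix h (by omega) ha p (Or.inl ha')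
    refine piTw_of_art hf h (by decide) (by omega) hL ?_ ?_ fun k k1 k2 =>
      piTw_fix_yW hg h (by omega) le_rfl k (fun _ => Or.inl (by omega)) fun _ _ =>
        Or.inr (by decide)
    · rw [piTw_y1 hg, piTw_y2 hg, Tw.mul, Tw.mul, Tw.mul, e, e' 0 (by omega) (by omega),
        e' 0 (by omega) (by omega), e' 3 (by omega) (by omega), map_mul, piTw_c0, piTw_c3 hg,
        show kapL (1 * (Multiplicative.ofAdd (0, 0, 1) * Multiplicative.ofAdd (1, 0, 0))) =
          1 by decide]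
      simp only [zpow_one, mul_assoc, piTw_ee_sq']
    · rw [piTw_y1 hg, piTw_y2 hg, Tw.mul, Tw.mul, Tw.mul, e, e' 0 (by omega) (by omega),
        e' 0 (by omega) (by omega), e' 1 (by omega) (by omega), piTw_c0,
        show kapL (1 * Multiplicative.ofAdd (0, 0, 1)) = -1 by decide]
      simp only [zpow_neg, zpow_one, mul_inv_rev, piTw_ee_inv, mul_assoc, c21, piTw_ee_sq']
  have key : piTw_Rel f (FreeGroup.lift (gnOf U M L) w) (evTw hg w) := by
    induction w using FreeGroup.induction_on with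
    | C1 => rw [map_one, map_one]; exact fun _ => rfl
    | of b =>
      rw [evTw, FreeGroup.lift_apply_of, FreeGroup.lift_apply_of]
      rcases b with ⟨_ | _, _ | _⟩
      · exact rU.pow 2
      · exact (rL.mul rM).pow 3
      · exact rL.pow 2
      · exact (rM.mul rU).pow 3
    | inv_of b ih => rw [map_inv, map_inv]; exact ih.inv
    | mul a b iha ihb => rw [map_mul, map_mul]; exact iha.mul ihb
  exact key δ

theorem piTw_pi_le_hyp : piG g ≤ hypG g := fun v hv => by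
  have : col g v = 1 := hv
  change col g v ∈ hypP
  rw [this]; exact one_mem _

theorem piTw_hyp_le_lam : hypG g ≤ lamG g := fun _ hv => hv.1

/-- Detection in `Out`. -/
theorem det_out (hg : 3 ≤ g) (w : FW)
    (h : oc g (autW hg w) = 1 ∨ oc g (autW hg w) = rO g) : pc false w = 1 := by
  obtain ⟨u, hu, e⟩ : ∃ u ∈ hypG g, autW hg w = cj g u := by
    rcases h with h | h
    · rw [← map_one (oc g), oc_eq_iff] at h
      obtain ⟨v, hv, e⟩ := h
      exact ⟨v, piTw_pi_le_hyp hv, by rw [e, mul_one]⟩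
    · rw [rO, oc_eq_iff] at h
      obtain ⟨v, hv, e⟩ := h
      refine ⟨v * (ee g 1 * ee g 2), mul_mem (piTw_pi_le_hyp hv) ?_, by rw [e, map_mul (cj g) v]⟩
      change col g _ ∈ hypP
      rw [map_mul, piTw_c1 hg, piTw_c2 hg]
      exact ⟨rfl, rfl⟩
  obtain ⟨f, hf⟩ := exists_hypIso hg
  obtain ⟨L, hL⟩ := exists_art (N := 2 * g + 2) (g - 3) (by omega)
  obtain ⟨M, hM⟩ := exists_art (N := 2 * g + 2) (g - 3 + 1) (by omega)
  obtain ⟨U, hU⟩ := exists_art (N := 2 * g + 2) (g - 3 + 2) (by omega)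
  obtain ⟨σ, hσ⟩ := exists_par g
  refine det_piA (by omega) hL hM hU σ hσ w (f.symm ⟨u, hu⟩) fun γ hγ => ?_
  apply f.injective
  apply Subtype.ext
  have h1 := (hypIso_par hg f hf σ hσ γ).1 hγ
  have h2 := congrArg (fun φ : MulAut (piG g) => ((φ ⟨_, h1⟩ : piG g) : W (g + 3))) e
  rw [hypIso_tw hg f hf hL hM hU, map_mul, map_mul, map_inv, MulEquiv.apply_symm_apply]
  exact h2

/-- Words in `x, t, y, u` preserve every abelian invariant of the sphere group. -/
theorem autW_abel (hg : 3 ≤ g) {A : Type*} [CommGroup A] (α : lamG g →* A) (w : FW)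
    (γ : piG g) (h1 : (γ : W (g + 3)) ∈ lamG g)
    (h2 : ((autW hg w γ : piG g) : W (g + 3)) ∈ lamG g) :
    α ⟨_, h2⟩ = α ⟨_, h1⟩ := by
  obtain ⟨f, hf⟩ := exists_hypIso hg
  obtain ⟨L, hL⟩ := exists_art (N := 2 * g + 2) (g - 3) (by omega)
  obtain ⟨M, hM⟩ := exists_art (N := 2 * g + 2) (g - 3 + 1) (by omega)
  obtain ⟨U, hU⟩ := exists_art (N := 2 * g + 2) (g - 3 + 2) (by omega)
  let β : PiA (2 * g + 2) →* A :=
    (α.comp (Subgroup.inclusion piTw_hyp_le_lam)).comp f.toMonoidHom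
  have key := piA_hom_ext (β.comp (FreeGroup.lift (gnOf U M L) w).toMonoidHom) β fun k _ =>
    (isConj_iff_eq.1 (β.map_isConj (gnOf_pure hL hM hU w k))).symm
  have h3 := DFunLike.congr_fun key (f.symm ⟨γ, piTw_pi_le_hyp γ.2⟩)
  have h4 := hypIso_tw hg f hf hL hM hU w (f.symm ⟨γ, piTw_pi_le_hyp γ.2⟩)
  rw [MulEquiv.apply_symm_apply] at h4
  have e1 : (⟨_, h2⟩ : lamG g) = Subgroup.inclusion piTw_hyp_le_lam
      (f (FreeGroup.lift (gnOf U M L) w (f.symm ⟨γ, piTw_pi_le_hyp γ.2⟩))) :=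
    Subtype.ext h4.symm
  have e2 : (⟨_, h1⟩ : lamG g) = Subgroup.inclusion piTw_hyp_le_lam
      (f (f.symm ⟨γ, piTw_pi_le_hyp γ.2⟩)) := by
    rw [MulEquiv.apply_symm_apply]; rfl
  rw [e1, e2]
  exact h3

end Pool.Agent.Lib.MP_66609f_al
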