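import Pool.Agent.Lib.MP_66609f_al.FixNF
import Pool.Agent.Lib.MP_66609f_al.PiTw

namespace Pool.Agent.Lib.MP_66609f_al

variable {g : ℕ}

theorem fixCons_cast_top : ((g + 2 : ℕ) : ZMod (g + 3)) + 1 = ((0 : ℕ) : ZMod (g + 3)) := by
  have h : ((g + 3 : ℕ) : ZMod (g + 3)) = 0 := ZMod.natCast_self _
  push_cast at h ⊢
  linear_combination h

theorem fixCons_cast_pred : ((g + 2 : ℕ) : ZMod (g + 3)) - 1 = ((g + 1 : ℕ) : ZMod (g + 3)) := by
  push_cast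
  ring

theorem fixCons_ut : ut ((g + 2 : ℕ) : ZMod (g + 3)) = cc g := by
  rw [ut, fixCons_cast_top, fixCons_cast_pred]
  rfl

theorem fixCons_ee_sq (i : ℕ) : ee g i * ee g i = 1 := sg_mul_self _

theorem fixCons_ee_inv (i : ℕ) : (ee g i)⁻¹ = ee g i := sg_inv _

theorem fixCons_t2t3 : Commute (t2 g) (t3 g) := by
  have h := sg_comm ((g + 2 : ℕ) : ZMod (g + 3))
  rw [fixCons_cast_top] at h
  exact h

theorem fixCons_t1t2 : Commute (t1 g) (t2 g) := by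
  have h := sg_comm ((g + 1 : ℕ) : ZMod (g + 3))
  have h1 : ((g + 1 : ℕ) : ZMod (g + 3)) + 1 = ((g + 2 : ℕ) : ZMod (g + 3)) := by
    push_cast
    ring
  rw [h1] at h
  exact h

theorem fixCons_cc_inv : (cc g)⁻¹ = t3 g * t1 g := by
  rw [cc, mul_inv_rev, t3, t1, fixCons_ee_inv, fixCons_ee_inv]

theorem fixCons_X_cc : t2 g * t1 g * cc g * (t2 g * t1 g)⁻¹ = (cc g)⁻¹ := by
  have h1 : t1 g * t1 g = 1 := fixCons_ee_sq _
  have h2 : t2 g * t2 g = 1 := fixCons_ee_sq _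
  have h3 : (t2 g * t1 g)⁻¹ = t1 g * t2 g := by
    rw [mul_inv_rev, t2, t1, fixCons_ee_inv, fixCons_ee_inv]
  rw [h3, fixCons_cc_inv, cc]
  calc t2 g * t1 g * (t1 g * t3 g) * (t1 g * t2 g)
      = t2 g * (t1 g * t1 g) * t3 g * (t1 g * t2 g) := by simp only [mul_assoc]
    _ = t3 g * t2 g * (t2 g * t1 g) := by
        rw [h1, mul_one, fixCons_t2t3.eq, fixCons_t1t2.eq]
    _ = t3 g * (t2 g * t2 g) * t1 g := by simp only [mul_assoc]
    _ = t3 g * t1 g := by rw [h2, mul_one]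

theorem fixCons_X_zpow (a : ℤ) : t2 g * t1 g * cc g ^ a = cc g ^ (-a) * (t2 g * t1 g) := by
  have h : t2 g * t1 g * cc g ^ a * (t2 g * t1 g)⁻¹ = cc g ^ (-a) := by
    rw [← conj_zpow, fixCons_X_cc, inv_zpow, zpow_neg]
  rw [← h, inv_mul_cancel_right]

theorem fixCons_t3_cc : t3 g * cc g * t3 g = (cc g)⁻¹ := by
  have h3 : t3 g * t3 g = 1 := fixCons_ee_sq _
  rw [fixCons_cc_inv, cc, mul_assoc, mul_assoc, h3, mul_one]

theorem fixCons_t3_X : t3 g * (t2 g * t1 g) * t3 g = t2 g * t1 g * (cc g * cc g) := by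
  have h1 : t1 g * t1 g = 1 := fixCons_ee_sq _
  rw [cc]
  calc t3 g * (t2 g * t1 g) * t3 g = t3 g * t2 g * (t1 g * t3 g) := by simp only [mul_assoc]
    _ = t2 g * (t1 g * t1 g) * t3 g * (t1 g * t3 g) := by rw [h1, mul_one, fixCons_t2t3.eq]
    _ = t2 g * t1 g * (t1 g * t3 g * (t1 g * t3 g)) := by simp only [mul_assoc]

theorem fixCons_col_ee (i : ℕ) (hi : i < g + 3) : col g (ee g i) =
    if i = 0 ∨ i = g + 1 then Multiplicative.ofAdd (0, 0, 1)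
    else if i = g + 2 then Multiplicative.ofAdd (1, 1, 1)
    else if i % 2 = 1 then Multiplicative.ofAdd (1, 0, 0) else Multiplicative.ofAdd (0, 1, 0) := by
  rw [ee, col_sg, colg, ZMod.val_natCast, Nat.mod_eq_of_lt hi]

theorem fixCons_col_e1 (hg : 3 ≤ g) : col g (ee g 1) = Multiplicative.ofAdd (1, 0, 0) := by
  rw [fixCons_col_ee 1 (by omega), if_neg (by omega), if_neg (by omega), if_pos rfl]

theorem fixCons_col_e2 (hg : 3 ≤ g) : col g (ee g 2) = Multiplicative.ofAdd (0, 1, 0) := by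
  rw [fixCons_col_ee 2 (by omega), if_neg (by omega), if_neg (by omega), if_neg (by omega)]

theorem fixCons_col_t3 : col g (t3 g) = Multiplicative.ofAdd (0, 0, 1) := by
  rw [t3, fixCons_col_ee 0 (by omega), if_pos (Or.inl rfl)]

theorem fixCons_col_t1 : col g (t1 g) = Multiplicative.ofAdd (0, 0, 1) := by
  rw [t1, fixCons_col_ee (g + 1) (by omega), if_pos (Or.inr rfl)]

theorem fixCons_col_t2 : col g (t2 g) = Multiplicative.ofAdd (1, 1, 1) := by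
  rw [t2, fixCons_col_ee (g + 2) (by omega), if_neg (by omega), if_pos rfl]

theorem fixCons_mem_lamG {a : W (g + 3)} : a ∈ lamG g ↔ (col g a).toAdd.2.2 = 0 := Iff.rfl

theorem fixCons_cc_lam (hg : 3 ≤ g) : cc g ∈ lamG g :=
  hypG_le_lamG (piG_le_hypG (cc_mem_piG hg))

theorem fixCons_X_lam (hg : 3 ≤ g) : t2 g * t1 g ∈ lamG g := hypG_le_lamG (X_mem_hypG hg)

theorem fixCons_pi_lam (γ : piG g) : (γ : W (g + 3)) ∈ lamG g := hypG_le_lamG (piG_le_hypG γ.2)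

/-- Homomorphisms on the mirror group are determined by their values on the generators. -/
theorem fixCons_ext (hg : 3 ≤ g) {M : Type*} [Group M] (f f' : lamG g →* M)
    (hs : ∀ j, f ⟨sW g j, sW_mem hg j⟩ = f' ⟨sW g j, sW_mem hg j⟩)
    (hc : f ⟨cc g, fixCons_cc_lam hg⟩ = f' ⟨cc g, fixCons_cc_lam hg⟩)
    (hX : f ⟨t2 g * t1 g, fixCons_X_lam hg⟩ = f' ⟨t2 g * t1 g, fixCons_X_lam hg⟩) : f = f' := by
  have key : ∀ a ∈ Subgroup.closure (Set.range (sW g) ∪ {cc g, t2 g * t1 g}),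
      ∀ h : a ∈ lamG g, f ⟨a, h⟩ = f' ⟨a, h⟩ := by
    intro a ha
    induction ha using Subgroup.closure_induction with
    | mem x hx =>
      intro h
      rcases hx with ⟨j, rfl⟩ | rfl | rfl
      · exact hs j
      · exact hc
      · exact hX
    | one =>
      intro h
      exact (map_one f).trans (map_one f').symm
    | mul x y hx hy ihx ihy =>
      intro h
      rw [lamG_gen hg] at hx hy
      have h1 : (⟨x * y, h⟩ : lamG g) = ⟨x, hx⟩ * ⟨y, hy⟩ := rfl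
      rw [h1, map_mul, map_mul, ihx, ihy]
    | inv x hx ihx =>
      intro h
      rw [lamG_gen hg] at hx
      have h1 : (⟨x⁻¹, h⟩ : lamG g) = ⟨x, hx⟩⁻¹ := rfl
      rw [h1, map_inv, map_inv, ihx]
  ext ⟨a, ha⟩
  exact key a (by rw [lamG_gen hg]; exact ha) ha

theorem fixCons_twist (hg : 3 ≤ g) (k : ℤ) :
    IsTwist ((twT hg ^ k : (Tw g)ˣ) : Tw g) ((g + 2 : ℕ) : ZMod (g + 3))
      fun p => kapT 1 p * k :=
  IsTwist.zpow hg (twT_spec hg) (twOK_T hg) k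

theorem fixCons_chi_mul : ∀ q p : PP, q.toAdd.2.2 = 0 → chi (q * p) = chi p := by
  decide

theorem fixCons_shift (hg : 3 ≤ g) (k : ℤ) {q : PP} (hq : q.toAdd.2.2 = 0) :
    Tw.shift q ((twT hg ^ k : (Tw g)ˣ) : Tw g) = ((twT hg ^ k : (Tw g)ˣ) : Tw g) := by
  have h1 := (fixCons_twist hg k).shift q
  have h2 : (fun p => kapT 1 (q * p) * k) = fun p => kapT 1 p * k := by
    funext p
    rw [kapT, kapT, fixCons_chi_mul q p hq]
  rw [h2] at h1
  exact h1.unique (fixCons_twist hg k)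

/-- The powers of `T`, extended to the mirror group. -/
noncomputable def fixConsT (hg : 3 ≤ g) (k : ℤ) : lamG g →* lamG g :=
  MonoidHom.mk' (fun a => ⟨((twT hg ^ k : (Tw g)ˣ) : Tw g).F 1 a, by
    rw [fixCons_mem_lamG, Tw.col_F]
    exact a.2⟩) fun a b => by
    apply Subtype.ext
    change ((twT hg ^ k : (Tw g)ˣ) : Tw g).F 1 (a * b) =
      ((twT hg ^ k : (Tw g)ˣ) : Tw g).F 1 a * ((twT hg ^ k : (Tw g)ˣ) : Tw g).F 1 b
    rw [Tw.mul]
    congr 1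
    have h1 := congrArg (fun A : Tw g => A.F 1 b) (fixCons_shift hg k (q := col g a) a.2)
    change ((twT hg ^ k : (Tw g)ˣ) : Tw g).F (col g a * 1) b = _ at h1
    rw [one_mul, ← h1, mul_one]

theorem fixConsT_coe (hg : 3 ≤ g) (k : ℤ) (a : lamG g) :
    (fixConsT hg k a : W (g + 3)) = ((twT hg ^ k : (Tw g)ˣ) : Tw g).F 1 a := rfl

theorem fixCons_ee_WJ {i : ℕ} (hi : i < g + 2) :
    ee g i ∈ WJ ({((g + 2 : ℕ) : ZMod (g + 3))}ᶜ : Set (ZMod (g + 3))) := by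
  refine Subgroup.subset_closure ⟨_, ?_, rfl⟩
  intro h
  rw [Set.mem_singleton_iff, ZMod.natCast_eq_natCast_iff', Nat.mod_eq_of_lt (by omega),
    Nat.mod_eq_of_lt (by omega)] at h
  omega

theorem fixCons_cc_WJ : cc g ∈ WJ ({((g + 2 : ℕ) : ZMod (g + 3))}ᶜ : Set (ZMod (g + 3))) :=
  Subgroup.mul_mem _ (fixCons_ee_WJ (by omega)) (fixCons_ee_WJ (by omega))

theorem fixCons_sW_WJ (hg : 3 ≤ g) (j : ℤ) :
    sW g j ∈ WJ ({((g + 2 : ℕ) : ZMod (g + 3))}ᶜ : Set (ZMod (g + 3))) := by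
  have hc := Subgroup.zpow_mem _ (fixCons_cc_WJ (g := g)) (j / (2 * g - 2 : ℤ))
  refine Subgroup.mul_mem _ (Subgroup.mul_mem _ hc ?_) (Subgroup.inv_mem _ hc)
  split_ifs with h
  · exact fixCons_ee_WJ (by omega)
  · exact Subgroup.mul_mem _ (Subgroup.mul_mem _ (fixCons_ee_WJ (by omega))
      (fixCons_ee_WJ (by omega))) (fixCons_ee_WJ (by omega))

theorem fixConsT_s (hg : 3 ≤ g) (k j : ℤ) (h : sW g j ∈ lamG g) :
    fixConsT hg k ⟨sW g j, h⟩ = ⟨sW g j, h⟩ :=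
  Subtype.ext ((fixCons_twist hg k).fix 1 _ (fixCons_sW_WJ hg j))

theorem fixConsT_c (hg : 3 ≤ g) (k : ℤ) (h : cc g ∈ lamG g) :
    fixConsT hg k ⟨cc g, h⟩ = ⟨cc g, h⟩ :=
  Subtype.ext ((fixCons_twist hg k).fix 1 _ fixCons_cc_WJ)

theorem fixConsT_X (hg : 3 ≤ g) (k : ℤ) (h : t2 g * t1 g ∈ lamG g) (h' : cc g ∈ lamG g) :
    fixConsT hg k ⟨t2 g * t1 g, h⟩ = ⟨cc g, h'⟩ ^ k * ⟨t2 g * t1 g, h⟩ := by
  apply Subtype.ext
  change ((twT hg ^ k : (Tw g)ˣ) : Tw g).F 1 (t2 g * t1 g) = cc g ^ k * (t2 g * t1 g)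
  rw [Tw.mul, (fixCons_twist hg k).fix _ (t1 g) (fixCons_ee_WJ (by omega))]
  have h1 := (fixCons_twist hg k).1 1
  have h2 : kapT 1 1 = 1 := by decide
  simp only [fixCons_ut, h2, one_mul] at h1
  rw [← mul_assoc]
  congr 1

theorem fixCons_autT (hg : 3 ≤ g) (k : ℤ) (γ : piG g) :
    (((autT hg ^ k) γ : piG g) : W (g + 3)) = fixConsT hg k ⟨γ, fixCons_pi_lam γ⟩ := by
  rw [autT, ← map_zpow]
  rfl

theorem fixCons_sW_per (hg : 3 ≤ g) (j a : ℤ) :
    sW g (j + ((2 * g - 2 : ℕ) : ℤ) * a) = cc g ^ a * sW g j * (cc g ^ a)⁻¹ := by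
  induction a using Int.induction_on with
  | zero => simp
  | succ a ih =>
    rw [mul_add, mul_one, ← add_assoc, sW_per hg, ih, add_comm (a : ℤ) 1, zpow_add, zpow_one]
    group
  | pred a ih =>
    have h1 := sW_per hg (j + ((2 * g - 2 : ℕ) : ℤ) * (-(a : ℤ) - 1))
    have h2 : j + ((2 * g - 2 : ℕ) : ℤ) * (-(a : ℤ) - 1) + ((2 * g - 2 : ℕ) : ℤ) =
        j + ((2 * g - 2 : ℕ) : ℤ) * (-(a : ℤ)) := by ring
    rw [h2, ih] at h1
    have h3 : sW g (j + ((2 * g - 2 : ℕ) : ℤ) * (-(a : ℤ) - 1)) =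
        (cc g)⁻¹ * (cc g ^ (-(a : ℤ)) * sW g j * (cc g ^ (-(a : ℤ)))⁻¹) * cc g := by
      rw [h1]
      group
    rw [h3]
    group

/-- The normal form, with the conjugation split off. -/
theorem fixCons_split (hg : 3 ≤ g) {x : Out (piG g)} {v : W (g + 3)} {i k : ℤ}
    (h : NF g x v i k) : ∃ (Δ : MulAut (lamG g)) (ψ : MulAut (piG g)),
      x = oc g (cj g v) * oc g ψ ∧
      (∀ γ : piG g, ((ψ γ : piG g) : W (g + 3)) = Δ ⟨γ, fixCons_pi_lam γ⟩) ∧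
      (∀ j, Δ ⟨sW g j, sW_mem hg j⟩ = ⟨sW g (i + j), sW_mem hg _⟩) ∧
      Δ ⟨cc g, fixCons_cc_lam hg⟩ = ⟨cc g, fixCons_cc_lam hg⟩ ∧
      Δ ⟨t2 g * t1 g, fixCons_X_lam hg⟩ =
        ⟨cc g, fixCons_cc_lam hg⟩ ^ k * ⟨t2 g * t1 g, fixCons_X_lam hg⟩ := by
  obtain ⟨Δ, φ, rfl, h1, h2, h3, h4⟩ := h
  refine ⟨Δ, cj g v⁻¹ * φ, ?_, fun γ => ?_, fun j => Subtype.ext (h2 j _), Subtype.ext (h3 _),
    Subtype.ext (h4 _)⟩
  · rw [← map_mul, ← mul_assoc, ← map_mul, mul_inv_cancel, map_one, one_mul]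
  · change v⁻¹ * ((φ γ : piG g) : W (g + 3)) * v⁻¹⁻¹ = _
    rw [h1 γ (fixCons_pi_lam γ)]
    group

theorem NF.conj_T (hg : 3 ≤ g) {x : Out (piG g)} {v : W (g + 3)} {i k : ℤ} (h : NF g x v i k) :
    x * TO hg * x⁻¹ = TO hg ^ chi (col g v) := by
  obtain ⟨Δ, ψ, rfl, h1, h2, h3, h4⟩ := fixCons_split hg h
  have key : Δ.toMonoidHom.comp (fixConsT hg 1) = (fixConsT hg 1).comp Δ.toMonoidHom := by
    apply fixCons_ext hg
    · intro j
      change Δ (fixConsT hg 1 _) = fixConsT hg 1 (Δ _)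
      rw [fixConsT_s, h2, fixConsT_s]
    · change Δ (fixConsT hg 1 _) = fixConsT hg 1 (Δ _)
      rw [fixConsT_c, h3, fixConsT_c]
    · change Δ (fixConsT hg 1 _) = fixConsT hg 1 (Δ _)
      rw [fixConsT_X hg 1 _ (fixCons_cc_lam hg), map_mul, map_zpow, h3, h4, map_mul, map_zpow,
        fixConsT_c, fixConsT_X hg 1 _ (fixCons_cc_lam hg), ← mul_assoc, ← mul_assoc, ← zpow_add,
        ← zpow_add, add_comm 1 k]
  have hc : ψ * autT hg = autT hg * ψ := by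
    ext γ
    have e1 := fixCons_autT hg 1 γ
    have e2 := fixCons_autT hg 1 (ψ γ)
    rw [zpow_one] at e1 e2
    rw [MulAut.mul_apply, MulAut.mul_apply, h1, e2]
    have e3 : (⟨(autT hg γ : piG g), fixCons_pi_lam _⟩ : lamG g) =
        fixConsT hg 1 ⟨γ, fixCons_pi_lam γ⟩ := Subtype.ext e1
    have e4 : (⟨(ψ γ : piG g), fixCons_pi_lam _⟩ : lamG g) = Δ ⟨γ, fixCons_pi_lam γ⟩ :=
      Subtype.ext (h1 γ)
    rw [e3, e4]
    exact congrArg Subtype.val (DFunLike.congr_fun key ⟨γ, fixCons_pi_lam γ⟩)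
  have hc' : oc g ψ * TO hg = TO hg * oc g ψ := by
    rw [TO, ← map_mul, ← map_mul, hc]
  rw [← cj_TO hg v, mul_assoc (oc g (cj g v)), hc']
  group

theorem fixCons_chi_eq : ∀ p q : PP, chi p = chi q → (p⁻¹ * q).toAdd.2.2 = 0 := by
  decide

theorem NF.compare (hg : 3 ≤ g) {x x' : Out (piG g)} {v v' : W (g + 3)} {i k i' k' : ℤ}
    (h : NF g x v i k) (h' : NF g x' v' i' k') (hv : chi (col g v) = chi (col g v'))
    (hi : (i : ZMod (2 * g - 2)) = (i' : ZMod (2 * g - 2))) :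
    ∃ (l : ℤ) (a : W (g + 3)), a ∈ lamG g ∧ x' = TO hg ^ l * x * oc g (cj g a) := by
  obtain ⟨Δ, ψ, rfl, h1, h2, h3, h4⟩ := fixCons_split hg h
  obtain ⟨Δ', ψ', rfl, h1', h2', h3', h4'⟩ := fixCons_split hg h'
  obtain ⟨a, ha⟩ := (ZMod.intCast_eq_intCast_iff_dvd_sub i i' _).1 hi
  have hi' : i' = i + ((2 * g - 2 : ℕ) : ℤ) * a := by linarith
  set c : lamG g := ⟨cc g, fixCons_cc_lam hg⟩ with hc
  set l : ℤ := k' - 2 * a - k with hl
  have key : Δ'.toMonoidHom = (MulAut.conj (c ^ a)).toMonoidHom.comp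
      ((fixConsT hg l).comp Δ.toMonoidHom) := by
    apply fixCons_ext hg
    · intro j
      change Δ' _ = c ^ a * fixConsT hg l (Δ _) * (c ^ a)⁻¹
      rw [h2, h2', fixConsT_s]
      apply Subtype.ext
      change sW g (i' + j) = cc g ^ a * sW g (i + j) * (cc g ^ a)⁻¹
      rw [← fixCons_sW_per hg, hi']
      congr 1
      ring
    · change Δ' _ = c ^ a * fixConsT hg l (Δ _) * (c ^ a)⁻¹
      rw [h3, h3', fixConsT_c]
      apply Subtype.ext
      change cc g = cc g ^ a * cc g * (cc g ^ a)⁻¹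
      group
    · change Δ' _ = c ^ a * fixConsT hg l (Δ _) * (c ^ a)⁻¹
      rw [h4, h4', map_mul, map_zpow, fixConsT_c, fixConsT_X hg l _ (fixCons_cc_lam hg)]
      apply Subtype.ext
      change cc g ^ k' * (t2 g * t1 g) =
        cc g ^ a * (cc g ^ k * (cc g ^ l * (t2 g * t1 g))) * (cc g ^ a)⁻¹
      rw [← zpow_neg, mul_assoc, mul_assoc, mul_assoc, fixCons_X_zpow, neg_neg, ← mul_assoc,
        ← mul_assoc, ← mul_assoc, ← mul_assoc, ← zpow_add, ← zpow_add, ← zpow_add, mul_assoc]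
      congr 2
      rw [hl]
      ring
  have hψ : ψ' = cj g (cc g ^ a) * autT hg ^ l * ψ := by
    ext γ
    rw [h1', MulAut.mul_apply, MulAut.mul_apply]
    change _ = cc g ^ a * (((autT hg ^ l) (ψ γ) : piG g) : W (g + 3)) * (cc g ^ a)⁻¹
    rw [fixCons_autT]
    have e4 : (⟨(ψ γ : piG g), fixCons_pi_lam _⟩ : lamG g) = Δ ⟨γ, fixCons_pi_lam γ⟩ :=
      Subtype.ext (h1 γ)
    rw [e4]
    exact congrArg Subtype.val (DFunLike.congr_fun key ⟨γ, fixCons_pi_lam γ⟩)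
  have hu : v⁻¹ * v' ∈ lamG g := by
    rw [fixCons_mem_lamG, map_mul, map_inv]
    exact fixCons_chi_eq _ _ hv
  set b : lamG g := Δ.symm ⟨v⁻¹ * v', hu⟩ with hb
  have hb' : cj g (v⁻¹ * v') * ψ = ψ * cj g (b : W (g + 3)) := by
    ext γ
    rw [MulAut.mul_apply, MulAut.mul_apply, h1]
    change v⁻¹ * v' * ((ψ γ : piG g) : W (g + 3)) * (v⁻¹ * v')⁻¹ = _
    have e1 : (⟨(cj g (b : W (g + 3)) γ : piG g), fixCons_pi_lam _⟩ : lamG g) =
        b * ⟨γ, fixCons_pi_lam γ⟩ * b⁻¹ := rfl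
    rw [e1, map_mul, map_mul, map_inv, hb, MulEquiv.apply_symm_apply, h1]
    rfl
  refine ⟨chi (col g v') * l, b, b.2, ?_⟩
  have e1 : oc g ψ' = TO hg ^ l * oc g ψ := by
    rw [hψ, map_mul, map_mul, oc_cj_of_mem _ (Subgroup.zpow_mem _ (cc_mem_piG hg) a), one_mul,
      map_zpow, TO]
  have e2 : oc g (cj g v') * TO hg ^ l * (oc g (cj g v'))⁻¹ = TO hg ^ (chi (col g v') * l) := by
    rw [← conj_zpow, cj_TO hg v', ← zpow_mul]
  have e3 : oc g ψ * oc g (cj g (b : W (g + 3))) =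
      (oc g (cj g v))⁻¹ * oc g (cj g v') * oc g ψ := by
    rw [← map_mul, ← hb', map_mul, map_mul, map_mul, map_inv, map_inv]
  rw [e1, ← e2, mul_assoc _ _ (oc g (cj g (b : W (g + 3)))), mul_assoc (oc g (cj g v)), e3]
  group

theorem fixCons_chi_cases : ∀ p : PP, (p.toAdd.2.2 = 0 ∧ chi p = 1) ∨
    ((p * Multiplicative.ofAdd (0, 0, 1)).toAdd.2.2 = 0 ∧ chi p = -1) := by
  decide

/-- The mirror counting homomorphism after a conjugation. -/
theorem fixCons_vec_conj (hg : 3 ≤ g)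
    (vec : lamG g →* Multiplicative (ZMod (2 * g - 2) → ZMod 2))
    (hs : ∀ j, vec ⟨sW g j, sW_mem hg j⟩ =
      Multiplicative.ofAdd (Pi.single (j : ZMod (2 * g - 2)) 1))
    (hc : vec ⟨cc g, fixCons_cc_lam hg⟩ = 1) (hX : vec ⟨t2 g * t1 g, fixCons_X_lam hg⟩ = 1)
    (v : W (g + 3)) :
    (∀ j, vec (MulAut.conjNormal v (⟨sW g j, sW_mem hg j⟩ : lamG g)) =
      Multiplicative.ofAdd (Pi.single ((chi (col g v) * j : ℤ) : ZMod (2 * g - 2)) 1)) ∧
    vec (MulAut.conjNormal v (⟨cc g, fixCons_cc_lam hg⟩ : lamG g)) = 1 ∧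
    vec (MulAut.conjNormal v (⟨t2 g * t1 g, fixCons_X_lam hg⟩ : lamG g)) = 1 := by
  have hin : ∀ (u : lamG g) (a : lamG g), vec (MulAut.conjNormal (u : W (g + 3)) a) = vec a := by
    intro u a
    have e1 : MulAut.conjNormal (u : W (g + 3)) a = u * a * u⁻¹ := rfl
    rw [e1, map_mul, map_mul, map_inv, mul_inv_cancel_comm]
  rcases fixCons_chi_cases (col g v) with ⟨h1, h2⟩ | ⟨h1, h2⟩
  · have e1 := hin ⟨v, h1⟩
    simp only at e1
    rw [h2]
    refine ⟨fun j => ?_, ?_, ?_⟩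
    · rw [e1, hs, one_mul]
    · rw [e1, hc]
    · rw [e1, hX]
  · have hv : v * t3 g ∈ lamG g := by
      rw [fixCons_mem_lamG, map_mul, fixCons_col_t3]
      exact h1
    have h3 : t3 g * t3 g = 1 := fixCons_ee_sq _
    have h3' : (t3 g)⁻¹ = t3 g := fixCons_ee_inv _
    have e1 : ∀ a : lamG g, vec (MulAut.conjNormal v a) = vec (MulAut.conjNormal (t3 g) a) := by
      intro a
      have e2 := hin ⟨v * t3 g, hv⟩ (MulAut.conjNormal (t3 g) a)
      simp only at e2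
      rw [← e2, ← MulAut.mul_apply, ← map_mul, mul_assoc, h3, mul_one]
    rw [h2]
    refine ⟨fun j => ?_, ?_, ?_⟩
    · have e2 : MulAut.conjNormal (t3 g) (⟨sW g j, sW_mem hg j⟩ : lamG g) =
          ⟨sW g (-j), sW_mem hg _⟩ := by
        apply Subtype.ext
        change t3 g * sW g j * (t3 g)⁻¹ = sW g (-j)
        rw [h3', sW_neg hg]
      rw [e1, e2, hs, neg_one_mul]
    · have e2 : MulAut.conjNormal (t3 g) (⟨cc g, fixCons_cc_lam hg⟩ : lamG g) =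
          ⟨cc g, fixCons_cc_lam hg⟩⁻¹ := by
        apply Subtype.ext
        change t3 g * cc g * (t3 g)⁻¹ = (cc g)⁻¹
        rw [h3', fixCons_t3_cc]
      rw [e1, e2, map_inv, hc, inv_one]
    · have e2 : MulAut.conjNormal (t3 g) (⟨t2 g * t1 g, fixCons_X_lam hg⟩ : lamG g) =
          ⟨t2 g * t1 g, fixCons_X_lam hg⟩ *
            (⟨cc g, fixCons_cc_lam hg⟩ * ⟨cc g, fixCons_cc_lam hg⟩) := by
        apply Subtype.ext
        change t3 g * (t2 g * t1 g) * (t3 g)⁻¹ = t2 g * t1 g * (cc g * cc g)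
        rw [h3', fixCons_t3_X]
      rw [e1, e2, map_mul, map_mul, hc, hX, mul_one, mul_one]

theorem fixCons_single {m : ℕ} (hm : 4 ≤ m) {a b e : ZMod m} (he : e = 1 ∨ e = -1)
    (h : (Pi.single a 1 + Pi.single (a + e) 1 : ZMod m → ZMod 2) =
      Pi.single b 1 + Pi.single (b + e) 1) : a = b := by
  have h2 : (2 : ZMod m) ≠ 0 := by
    intro h0
    have h1 : ((2 : ℕ) : ZMod m) = 0 := by exact_mod_cast h0
    rw [ZMod.natCast_eq_zero_iff] at h1
    have := Nat.le_of_dvd (by norm_num) h1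
    omega
  have hee : e + e ≠ 0 := by
    rcases he with rfl | rfl
    · intro h0
      exact h2 (by linear_combination h0)
    · intro h0
      exact h2 (by linear_combination -h0)
  have he0 : e ≠ 0 := fun h0 => hee (by rw [h0, add_zero])
  by_contra hab
  have ha := congrFun h a
  have hb := congrFun h b
  have n1 : a ≠ a + e := fun h0 => he0 (by linear_combination -h0)
  have n2 : b ≠ b + e := fun h0 => he0 (by linear_combination -h0)
  have n3 : b ≠ a := fun h0 => hab h0.symm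
  simp only [Pi.add_apply, Pi.single_eq_same, Pi.single_eq_of_ne n1, Pi.single_eq_of_ne hab,
    Pi.single_eq_of_ne n2, Pi.single_eq_of_ne n3, add_zero, zero_add] at ha hb
  have e1 : a = b + e := by
    by_contra h0
    rw [Pi.single_eq_of_ne h0] at ha
    exact one_ne_zero ha
  have e2 : b = a + e := by
    by_contra h0
    rw [Pi.single_eq_of_ne h0] at hb
    exact zero_ne_one hb
  exact hee (by linear_combination -e1 - e2)

theorem NF.index_eq (hg : 3 ≤ g) {x x' : Out (piG g)} {v v' : W (g + 3)} {i k i' k' : ℤ}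
    (h : NF g x v i k) (h' : NF g x' v' i' k') (hv : chi (col g v) = chi (col g v'))
    (w w' : FW) (hw : oc g (autW hg w) * x * oc g (autW hg w') = x') :
    (i : ZMod (2 * g - 2)) = (i' : ZMod (2 * g - 2)) := by
  obtain ⟨Δ, ψ, rfl, h1, h2, h3, h4⟩ := fixCons_split hg h
  obtain ⟨Δ', ψ', rfl, h1', h2', h3', h4'⟩ := fixCons_split hg h'
  obtain ⟨vec, hs, hc, hX⟩ := exists_vec hg
  rw [← map_mul, ← map_mul, ← map_mul, ← map_mul, oc_eq_iff] at hw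
  obtain ⟨u, hu, hw⟩ := hw
  have hγ : ee g 1 * ee g 2 * (t2 g * t1 g) ∈ piG g := by
    change col g _ = 1
    rw [map_mul, map_mul, map_mul, fixCons_col_e1 hg, fixCons_col_e2 hg, fixCons_col_t2,
      fixCons_col_t1]
    decide
  set γ : piG g := ⟨_, hγ⟩ with hγdef
  have hγ' : (⟨γ, fixCons_pi_lam γ⟩ : lamG g) = ⟨sW g 0, sW_mem hg 0⟩ * ⟨sW g 1, sW_mem hg 1⟩ *
      ⟨t2 g * t1 g, fixCons_X_lam hg⟩ := by
    apply Subtype.ext
    change ee g 1 * ee g 2 * (t2 g * t1 g) = sW g ((0 : ℕ) : ℤ) * sW g ((1 : ℕ) : ℤ) * (t2 g * t1 g)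
    rw [sW_nat hg 0 (by omega), sW_nat hg 1 (by omega)]
  have hval : ∀ (v : W (g + 3)) (Δ : MulAut (lamG g)) (i k : ℤ),
      (∀ j, Δ ⟨sW g j, sW_mem hg j⟩ = ⟨sW g (i + j), sW_mem hg _⟩) →
      Δ ⟨t2 g * t1 g, fixCons_X_lam hg⟩ =
        ⟨cc g, fixCons_cc_lam hg⟩ ^ k * ⟨t2 g * t1 g, fixCons_X_lam hg⟩ →
      (vec (MulAut.conjNormal v (Δ ⟨γ, fixCons_pi_lam γ⟩))).toAdd =
        Pi.single ((chi (col g v) * i : ℤ) : ZMod (2 * g - 2)) 1 +
          Pi.single (((chi (col g v) * i : ℤ) : ZMod (2 * g - 2)) +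
            ((chi (col g v) : ℤ) : ZMod (2 * g - 2))) 1 := by
    intro v Δ i k h2 h4
    obtain ⟨f1, f2, f3⟩ := fixCons_vec_conj hg vec hs hc hX v
    rw [hγ', map_mul Δ, map_mul Δ, h2, h2, h4]
    simp only [map_mul, map_zpow]
    rw [f1, f1, f2, f3, one_zpow, mul_one, mul_one, toAdd_mul, toAdd_ofAdd, toAdd_ofAdd, add_zero,
      mul_add, mul_one, Int.cast_add]
  have hL : vec ⟨((autW hg w * (cj g v * ψ) * autW hg w') γ : piG g), fixCons_pi_lam _⟩ =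
      vec (MulAut.conjNormal v (Δ ⟨γ, fixCons_pi_lam γ⟩)) := by
    rw [MulAut.mul_apply, MulAut.mul_apply,
      autW_abel hg vec w _ (fixCons_pi_lam _) (fixCons_pi_lam _)]
    have e1 : ∀ δ : piG g, (⟨((cj g v * ψ) δ : piG g), fixCons_pi_lam _⟩ : lamG g) =
        MulAut.conjNormal v (Δ ⟨δ, fixCons_pi_lam δ⟩) := by
      intro δ
      apply Subtype.ext
      change v * ((ψ δ : piG g) : W (g + 3)) * v⁻¹ = _
      rw [h1]
      rfl
    rw [e1]
    exact autW_abel hg (vec.comp ((MulAut.conjNormal v).toMonoidHom.comp Δ.toMonoidHom)) w' γ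
      (fixCons_pi_lam _) (fixCons_pi_lam _)
  have hR : vec ⟨((cj g u * (cj g v' * ψ')) γ : piG g), fixCons_pi_lam _⟩ =
      vec (MulAut.conjNormal v' (Δ' ⟨γ, fixCons_pi_lam γ⟩)) := by
    have e1 : (⟨((cj g u * (cj g v' * ψ')) γ : piG g), fixCons_pi_lam _⟩ : lamG g) =
        ⟨u, fixCons_pi_lam ⟨u, hu⟩⟩ * MulAut.conjNormal v' (Δ' ⟨γ, fixCons_pi_lam γ⟩) *
          (⟨u, fixCons_pi_lam ⟨u, hu⟩⟩ : lamG g)⁻¹ := by
      apply Subtype.ext
      change u * (v' * ((ψ' γ : piG g) : W (g + 3)) * v'⁻¹) * u⁻¹ = _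
      rw [h1']
      rfl
    rw [e1, map_mul, map_mul, map_inv, mul_inv_cancel_comm]
  rw [hw, hR] at hL
  have e2 := congrArg Multiplicative.toAdd hL
  rw [hval v Δ i k h2 h4, hval v' Δ' i' k' h2' h4', ← hv] at e2
  have hchi : chi (col g v) = 1 ∨ chi (col g v) = -1 := by
    rcases fixCons_chi_cases (col g v) with h | h
    · exact Or.inl h.2
    · exact Or.inr h.2
  have e3 := fixCons_single (m := 2 * g - 2) (by omega) (by
    rcases hchi with h | h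
    · left
      rw [h, Int.cast_one]
    · right
      rw [h, Int.cast_neg, Int.cast_one]) e2
  rcases hchi with h | h
  · rw [h, one_mul, one_mul] at e3
    exact e3.symm
  · rw [h, neg_one_mul, neg_one_mul, Int.cast_neg, Int.cast_neg] at e3
    exact (neg_injective e3).symm

theorem fixCons_lam_cases : ∀ p : PP, p.toAdd.2.2 = 0 → p = 1 ∨
    p = Multiplicative.ofAdd (1, 0, 0) * Multiplicative.ofAdd (0, 1, 0) ∨
    p = Multiplicative.ofAdd (1, 0, 0) ∨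
    p = Multiplicative.ofAdd (1, 0, 0) *
      (Multiplicative.ofAdd (1, 0, 0) * Multiplicative.ofAdd (0, 1, 0)) := by
  decide

theorem oc_cj_lam (hg : 3 ≤ g) (a : W (g + 3)) (ha : a ∈ lamG g) :
    oc g (cj g a) = 1 ∨ oc g (cj g a) = rO g ∨ oc g (cj g a) = ρO g ∨
      oc g (cj g a) = ρO g * rO g := by
  rcases fixCons_lam_cases (col g a) ha with h | h | h | h
  · exact Or.inl (oc_cj_of_mem a h)
  · refine Or.inr (Or.inl (oc_cj_eq _ _ ?_))
    rw [h, map_mul, fixCons_col_e1 hg, fixCons_col_e2 hg]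
  · refine Or.inr (Or.inr (Or.inl (oc_cj_eq _ _ ?_)))
    rw [h, fixCons_col_e1 hg]
  · refine Or.inr (Or.inr (Or.inr ?_))
    rw [ρO, rO, ← map_mul, ← map_mul]
    refine oc_cj_eq _ _ ?_
    rw [h, map_mul, map_mul, fixCons_col_e1 hg, fixCons_col_e2 hg]

theorem fix_finite (hg : 3 ≤ g) : ∃ F : Set (Out (piG g)), F.Finite ∧
    ∀ x, NrmO g x → ∃ x0 ∈ F, ∃ k : ℤ, x = TO hg ^ k * x0 := by
  have : NeZero (2 * g - 2) := ⟨by omega⟩
  have h0 : ∀ p : PP × ZMod (2 * g - 2), ∃ y : Out (piG g), ∀ x v i k, NF g x v i k →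
      col g v = p.1 → (i : ZMod (2 * g - 2)) = p.2 →
        ∃ v0 i0 k0, NF g y v0 i0 k0 ∧ col g v0 = p.1 ∧ (i0 : ZMod (2 * g - 2)) = p.2 := by
    intro p
    by_cases h : ∃ x v i k, NF g x v i k ∧ col g v = p.1 ∧ (i : ZMod (2 * g - 2)) = p.2
    · obtain ⟨y, hy⟩ := h
      exact ⟨y, fun _ _ _ _ _ _ _ => hy⟩
    · exact ⟨1, fun x v i k h1 h2 h3 => absurd ⟨x, v, i, k, h1, h2, h3⟩ h⟩
  choose rep hrep using h0
  refine ⟨Set.image2 (· * ·) (Set.range rep) {1, rO g, ρO g, ρO g * rO g},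
    (Set.finite_range rep).image2 _ (Set.toFinite _), fun x hx => ?_⟩
  obtain ⟨v, i, k, h⟩ := exists_NF hg x hx
  obtain ⟨v0, i0, k0, h1, h2, h3⟩ := hrep (col g v, (i : ZMod (2 * g - 2))) x v i k h rfl rfl
  obtain ⟨l, a, ha, hxa⟩ := NF.compare hg h1 h (congrArg chi h2) h3
  refine ⟨rep (col g v, (i : ZMod (2 * g - 2))) * oc g (cj g a),
    Set.mem_image2_of_mem ⟨_, rfl⟩ ?_, l, by rw [hxa, mul_assoc]⟩
  exact oc_cj_lam hg a ha

end Pool.Agent.Lib.MP_66609f_al
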