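import Pool.Agent.Lib.MP_66609f_al.CoxLen2

namespace Pool.Agent.Lib.MP_66609f_al

open Pointwise

variable {n : ℕ}

theorem coxNest_refl (i : ZMod n) : IsReflOf i (sg i) := ⟨1, by simp⟩

theorem coxNest_sg_inj {i j : ZMod n} (h : sg i = sg j) : i = j :=
  isReflOf_unique (coxNest_refl i) (h ▸ coxNest_refl j)

theorem coxNest_sg_mem {J : Set (ZMod n)} {i : ZMod n} (h : i ∈ J) : sg i ∈ WJ J :=
  Subgroup.subset_closure ⟨i, h, rfl⟩

theorem coxNest_conj_left (i j : ZMod n) (k : ℤ) :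
    sg i * (sg i * sg j) ^ k = (sg i * sg j) ^ (-k) * sg i := by
  have h : sg i * (sg i * sg j) * (sg i)⁻¹ = (sg i * sg j)⁻¹ := by
    rw [← mul_assoc, sg_mul_self, one_mul, mul_inv_rev, sg_inv, sg_inv]
  rw [zpow_neg, ← inv_zpow, ← h, conj_zpow, inv_mul_cancel_right]

theorem coxNest_conj_right (i j : ZMod n) (k : ℤ) :
    sg j * (sg i * sg j) ^ k = (sg i * sg j) ^ (-k) * sg j := by
  have h : sg j * (sg i * sg j) * (sg j)⁻¹ = (sg i * sg j)⁻¹ := by
    rw [mul_assoc, mul_inv_cancel_right, mul_inv_rev, sg_inv, sg_inv]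
  rw [zpow_neg, ← inv_zpow, ← h, conj_zpow, inv_mul_cancel_right]

theorem coxNest_pair (i j : ZMod n) (w : W n) (h : w ∈ WJ {i, j}) :
    ∃ k : ℤ, w = (sg i * sg j) ^ k ∨ w = (sg i * sg j) ^ k * sg j := by
  unfold WJ at h
  induction h using Subgroup.closure_induction with
  | mem x hx =>
    obtain ⟨m, hm, rfl⟩ := hx
    rcases hm with rfl | rfl
    · exact ⟨1, Or.inr (by rw [zpow_one, mul_assoc, sg_mul_self, mul_one])⟩
    · exact ⟨0, Or.inr (by rw [zpow_zero, one_mul])⟩
  | one => exact ⟨0, Or.inl (zpow_zero _).symm⟩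
  | mul x y _ _ hx hy =>
    obtain ⟨k, rfl | rfl⟩ := hx <;> obtain ⟨l, rfl | rfl⟩ := hy
    · exact ⟨k + l, Or.inl (zpow_add _ _ _).symm⟩
    · exact ⟨k + l, Or.inr (by rw [zpow_add, mul_assoc])⟩
    · exact ⟨k + -l, Or.inr (by rw [zpow_add, mul_assoc, mul_assoc, coxNest_conj_right])⟩
    · refine ⟨k + -l, Or.inl ?_⟩
      rw [zpow_add, mul_assoc, ← mul_assoc (sg j), coxNest_conj_right, mul_assoc, sg_mul_self,
        mul_one]
  | inv x _ hx =>
    obtain ⟨k, rfl | rfl⟩ := hx
    · exact ⟨-k, Or.inl (zpow_neg _ _).symm⟩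
    · refine ⟨k, Or.inr ?_⟩
      rw [mul_inv_rev, sg_inv, ← zpow_neg, coxNest_conj_right, neg_neg]

/-- The inversions of the alternating words. -/
theorem coxNest_inv (i j : ZMod n) (t : W n) (k : ℕ) :
    (side t ((sg i * sg j) ^ k) = true → ∃ m : ℕ, t = (sg i * sg j) ^ m * sg i) ∧
    (side t ((sg i * sg j) ^ k * sg i) = true → ∃ m : ℕ, t = (sg i * sg j) ^ m * sg i) := by
  have key : ∀ k : ℕ, sg i * ((sg i * sg j) ^ k)⁻¹ = (sg i * sg j) ^ k * sg i := by
    intro k
    have h := coxNest_conj_left i j (-(k : ℤ))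
    rwa [neg_neg, zpow_neg, zpow_natCast] at h
  have step : ∀ k : ℕ,
      (side t ((sg i * sg j) ^ k) = true → ∃ m : ℕ, t = (sg i * sg j) ^ m * sg i) →
      (side t ((sg i * sg j) ^ k * sg i) = true → ∃ m : ℕ, t = (sg i * sg j) ^ m * sg i) := by
    intro k ih h
    by_cases ht : t = (sg i * sg j) ^ k * sg i * ((sg i * sg j) ^ k)⁻¹
    · exact ⟨k + k, by rw [ht, mul_assoc, key, pow_add, mul_assoc]⟩
    · rw [side_mul_sg _ _ _ ht] at h
      exact ih h
  induction k with
  | zero =>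
    have h0 : side t ((sg i * sg j) ^ 0) = true → ∃ m : ℕ, t = (sg i * sg j) ^ m * sg i := by
      intro h
      rw [pow_zero, side_one] at h
      exact absurd h (by decide)
    exact ⟨h0, step 0 h0⟩
  | succ k ih =>
    have h0 : side t ((sg i * sg j) ^ (k + 1)) = true →
        ∃ m : ℕ, t = (sg i * sg j) ^ m * sg i := by
      intro h
      rw [pow_succ, ← mul_assoc] at h
      by_cases ht : t = (sg i * sg j) ^ k * sg i * sg j * ((sg i * sg j) ^ k * sg i)⁻¹
      · refine ⟨k + 1 + k, ?_⟩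
        rw [ht, mul_inv_rev, sg_inv, key, pow_add, pow_succ]
        simp only [mul_assoc]
      · rw [side_mul_sg _ _ _ ht] at h
        exact ih.2 h
    exact ⟨h0, step _ h0⟩

/-- The product of two distinct non-adjacent generators has infinite order. -/
theorem zpow_nonadj_ne_one {i j : ZMod n} (h0 : i ≠ j) (h1 : i ≠ j + 1) (h2 : j ≠ i + 1) (k : ℤ)
    (hk : k ≠ 0) : (sg i * sg j) ^ k ≠ 1 := by
  classical
  let f : ZMod n → DihedralGroup 0 := fun m =>
    if m = i then DihedralGroup.sr 0 else if m = j then DihedralGroup.sr 1 else 1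
  have hf1 : ∀ m, f m * f m = 1 := by
    intro m
    simp only [f]
    split_ifs
    · exact DihedralGroup.sr_mul_self _
    · exact DihedralGroup.sr_mul_self _
    · exact mul_one _
  have hone : ∀ m, m ≠ i → m ≠ j → f m = 1 := by
    intro m ha hb
    simp only [f, ha, hb, if_false]
  have hf2 : ∀ m, f m * f (m + 1) * f m * f (m + 1) = 1 := by
    intro m
    have h3 : f m = 1 ∨ f (m + 1) = 1 ∨ m + 1 = m := by
      by_cases ha : m = i
      · by_cases hb : m + 1 = i
        · exact Or.inr (Or.inr (hb.trans ha.symm))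
        · exact Or.inr (Or.inl (hone _ hb fun hc => h2 (by rw [← hc, ha])))
      · by_cases hb : m = j
        · by_cases hc : m + 1 = j
          · exact Or.inr (Or.inr (hc.trans hb.symm))
          · exact Or.inr (Or.inl (hone _ (fun hd => h1 (by rw [← hd, hb])) hc))
        · exact Or.inl (hone _ ha hb)
    rcases h3 with h3 | h3 | h3
    · rw [h3, one_mul, mul_one, hf1]
    · rw [h3, mul_one, mul_one, hf1]
    · rw [h3, hf1, one_mul, hf1]
  intro h
  have h3 := congrArg (coxLift f hf1 hf2) h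
  rw [map_zpow, map_mul, coxLift_sg, coxLift_sg, map_one] at h3
  have h4 : f i = DihedralGroup.sr 0 := by simp only [f, if_true]
  have h5 : f j = DihedralGroup.sr 1 := by simp only [f, h0.symm, if_true, if_false]
  rw [h4, h5, DihedralGroup.sr_mul_sr, sub_zero, DihedralGroup.r_one_zpow,
    DihedralGroup.one_def] at h3
  exact hk (DihedralGroup.r.inj h3)

theorem coxNest_not_side {i j : ZMod n} (h0 : i ≠ j) (h1 : i ≠ j + 1) (h2 : j ≠ i + 1) (k : ℕ) :
    side (sg j) ((sg i * sg j) ^ k) ≠ true ∧ side (sg j) ((sg i * sg j) ^ k * sg i) ≠ true := by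
  have key : ¬ ∃ m : ℕ, sg j = (sg i * sg j) ^ m * sg i := by
    rintro ⟨m, hm⟩
    apply zpow_nonadj_ne_one h0 h1 h2 ((m + 1 : ℕ) : ℤ) (by omega)
    rw [zpow_natCast, pow_succ, ← mul_assoc, ← hm, sg_mul_self]
  exact ⟨fun h => key ((coxNest_inv i j _ k).1 h), fun h => key ((coxNest_inv i j _ k).2 h)⟩

/-- Far sides of distinct non-adjacent generators are disjoint. -/
theorem not_side_side {i j : ZMod n} (h0 : i ≠ j) (h1 : i ≠ j + 1) (h2 : j ≠ i + 1) (w : W n) :
    ¬ (side (sg i) w = true ∧ side (sg j) w = true) := by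
  obtain ⟨u, hu, hmin⟩ : ∃ u ∈ (WJ {i, j} : Set (W n)), ∀ u' ∈ (WJ {i, j} : Set (W n)),
      len (u⁻¹ * w) ≤ len (u'⁻¹ * w) := by
    obtain ⟨u, hu⟩ := exists_minimalFor_of_wellFoundedLT (fun u => u ∈ (WJ {i, j} : Set (W n)))
      (fun u => len (u⁻¹ * w)) ⟨1, (WJ {i, j}).one_mem⟩
    exact ⟨u, hu.1, fun u' hu' => hu.le hu'⟩
  have hu' : u ∈ WJ {i, j} := hu
  have h3 : ∀ t ∈ WJ {i, j}, side t w = side t u := by
    intro t ht
    have h4 : side (u⁻¹ * t * u) (u⁻¹ * w) = false := by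
      by_contra h5
      have h6 := len_refl_mul_lt _ _ (Bool.eq_true_of_not_eq_false h5)
      have h7 := hmin (t⁻¹ * u) ((WJ {i, j}).mul_mem ((WJ {i, j}).inv_mem ht) hu')
      have h8 : u⁻¹ * t * u * (u⁻¹ * w) = (t⁻¹ * u)⁻¹ * w := by group
      rw [h8] at h6
      omega
    have h5 := side_mul t u (u⁻¹ * w)
    rwa [mul_inv_cancel_left, h4, Bool.xor_false] at h5
  rw [h3 _ (coxNest_sg_mem (by simp)), h3 _ (coxNest_sg_mem (by simp))]
  rintro ⟨ha, hb⟩
  have hinv : ∀ k : ℕ, (sg i * sg j) ^ (-(k : ℤ)) = (sg j * sg i) ^ k := by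
    intro k
    rw [zpow_neg, zpow_natCast, ← inv_pow, mul_inv_rev, sg_inv, sg_inv]
  obtain ⟨k, rfl | rfl⟩ := coxNest_pair i j u hu'
  · obtain ⟨m, rfl | rfl⟩ := Int.eq_nat_or_neg k
    · rw [zpow_natCast] at hb
      exact (coxNest_not_side h0 h1 h2 m).1 hb
    · rw [hinv] at ha
      exact (coxNest_not_side h0.symm h2 h1 m).1 ha
  · rcases lt_or_ge 0 k with hk | hk
    · obtain ⟨m, rfl⟩ : ∃ m : ℕ, k = ((m + 1 : ℕ) : ℤ) := ⟨(k - 1).toNat, by omega⟩
      rw [zpow_natCast, pow_succ, mul_assoc, mul_assoc, sg_mul_self, mul_one] at hb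
      exact (coxNest_not_side h0 h1 h2 m).2 hb
    · obtain ⟨m, rfl⟩ : ∃ m : ℕ, k = -(m : ℤ) := ⟨(-k).toNat, by omega⟩
      rw [hinv] at ha
      exact (coxNest_not_side h0.symm h2 h1 m).2 ha

theorem coxNest_comm (i : ZMod n) (w : W n) (h : w ∈ WJ {i - 1, i, i + 1}) :
    Commute w (sg i) := by
  unfold WJ at h
  induction h using Subgroup.closure_induction with
  | mem x hx =>
    obtain ⟨m, hm, rfl⟩ := hx
    rcases hm with rfl | rfl | rfl
    · have h1 := sg_comm (i - 1)
      rwa [sub_add_cancel] at h1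
    · exact Commute.refl _
    · exact (sg_comm i).symm
  | one => exact Commute.one_left _
  | mul x y _ _ hx hy => exact hx.mul_left hy
  | inv x _ hx => exact hx.inv_left

theorem mem_star_of_commute (i : ZMod n) (w : W n) (h : Commute w (sg i)) :
    w ∈ WJ {i - 1, i, i + 1} := by
  induction hl : len w using Nat.strong_induction_on generalizing w with
  | _ m ih =>
    by_cases hw : w = 1
    · rw [hw]
      exact Subgroup.one_mem _
    obtain ⟨j, hj⟩ := exists_descent w hw
    by_cases hjs : j ∈ ({i - 1, i, i + 1} : Set (ZMod n))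
    · have h1 := len_sg_mul w j hj
      have h2 := ih (len (sg j * w)) (by omega) (sg j * w)
        ((coxNest_comm i _ (coxNest_sg_mem hjs)).mul_left h) rfl
      have h3 := Subgroup.mul_mem _ (coxNest_sg_mem hjs) h2
      rwa [← mul_assoc, sg_mul_self, one_mul] at h3
    · exfalso
      simp only [Set.mem_insert_iff, Set.mem_singleton_iff, not_or] at hjs
      obtain ⟨ha, hb, hc⟩ := hjs
      have h0 : i ≠ j := fun h => hb h.symm
      have h1 : i ≠ j + 1 := fun h => ha (by rw [h, add_sub_cancel_right])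
      have h3 : w * sg i * w⁻¹ = sg i := by rw [h.eq, mul_inv_cancel_right]
      have h4 := side_mul_sg (sg j) w i (by
        rw [h3]
        exact fun h => hb (coxNest_sg_inj h))
      have h5 := side_mul_sg_self w i
      rw [h3] at h5
      cases h6 : side (sg i) w with
      | true => exact not_side_side h0 h1 hc w ⟨h6, hj⟩
      | false =>
        rw [h6] at h5
        exact not_side_side h0 h1 hc (w * sg i) ⟨h5, h4.trans hj⟩

theorem commute_of_mem_star (i : ZMod n) (w : W n) (h : w ∈ WJ {i - 1, i, i + 1}) :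
    Commute w (sg i) := by
  exact coxNest_comm i w h

/-- Elements of the infinite dihedral group generated by two generators. -/
theorem mem_WJ_pair (i j : ZMod n) (w : W n) (h : w ∈ WJ {i, j}) :
    ∃ k : ℤ, w = (sg i * sg j) ^ k ∨ w = (sg i * sg j) ^ k * sg j := by
  exact coxNest_pair i j w h

theorem mem_star_cases (i : ZMod n) (w : W n) (h : w ∈ WJ {i - 1, i, i + 1}) :
    ∃ d ∈ WJ {i - 1, i + 1}, w = d ∨ w = d * sg i := by
  have hc : ∀ d ∈ WJ {i - 1, i + 1}, Commute d (sg i) := by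
    intro d hd
    refine coxNest_comm i d (Subgroup.closure_mono (Set.image_mono ?_) hd)
    intro m hm
    rcases hm with rfl | rfl <;> simp
  unfold WJ at h
  induction h using Subgroup.closure_induction with
  | mem x hx =>
    obtain ⟨m, hm, rfl⟩ := hx
    rcases hm with rfl | rfl | rfl
    · exact ⟨_, coxNest_sg_mem (by simp), Or.inl rfl⟩
    · exact ⟨1, Subgroup.one_mem _, Or.inr (one_mul _).symm⟩
    · exact ⟨_, coxNest_sg_mem (by simp), Or.inl rfl⟩
  | one => exact ⟨1, Subgroup.one_mem _, Or.inl rfl⟩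
  | mul x y _ _ hx hy =>
    obtain ⟨d, hd, rfl | rfl⟩ := hx <;> obtain ⟨e, he, rfl | rfl⟩ := hy
    · exact ⟨_, Subgroup.mul_mem _ hd he, Or.inl rfl⟩
    · exact ⟨_, Subgroup.mul_mem _ hd he, Or.inr (mul_assoc _ _ _).symm⟩
    · refine ⟨_, Subgroup.mul_mem _ hd he, Or.inr ?_⟩
      rw [mul_assoc, ← (hc _ he).eq, mul_assoc]
    · refine ⟨_, Subgroup.mul_mem _ hd he, Or.inl ?_⟩
      rw [mul_assoc, ← mul_assoc (sg i), ← (hc _ he).eq, mul_assoc e, sg_mul_self, mul_one]
  | inv x _ hx =>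
    obtain ⟨d, hd, rfl | rfl⟩ := hx
    · exact ⟨_, Subgroup.inv_mem _ hd, Or.inl rfl⟩
    · refine ⟨_, Subgroup.inv_mem _ hd, Or.inr ?_⟩
      rw [mul_inv_rev, sg_inv, (hc _ hd).inv_left.eq]

/-- The chain of half-spaces of two non-adjacent generators. -/
theorem nonadj_ssubset {i j : ZMod n} (h0 : i ≠ j) (h1 : i ≠ j + 1) (h2 : j ≠ i + 1) :
    (sg i * sg j) • half (sg i) true ⊂ half (sg i) true := by
  have hi : IsRefl (sg i) := ⟨i, coxNest_refl i⟩
  have hj : IsRefl (sg j) := ⟨j, coxNest_refl j⟩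
  constructor
  · rintro _ ⟨y, hy, rfl⟩
    have hy' : side (sg i) y = true := hy
    have h3 : side (sg j) (sg j * y) = true := by
      rw [side_refl_mul hj]
      cases h : side (sg j) y with
      | true => exact absurd ⟨hy', h⟩ (not_side_side h0 h1 h2 y)
      | false => rfl
    change side (sg i) (sg i * sg j * y) = true
    rw [mul_assoc, side_refl_mul hi]
    cases h : side (sg i) (sg j * y) with
    | true => exact absurd ⟨h, h3⟩ (not_side_side h0 h1 h2 _)
    | false => rfl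
  · intro h
    obtain ⟨y, hy, hy2⟩ := h (show sg i ∈ half (sg i) true from (side_sg _ _).2 rfl)
    have hy' : side (sg i) y = true := hy
    have h3 : sg i * sg j * y = sg i := hy2
    have h4 : y = sg j := by
      rw [mul_assoc, mul_eq_left, mul_eq_one_iff_inv_eq, sg_inv] at h3
      exact h3.symm
    rw [h4, side_sg] at hy'
    exact h0 (coxNest_sg_inj hy')

end Pool.Agent.Lib.MP_66609f_al
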