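import Pool.Agent.Lib.MP_66609f_al.Orient
import Pool.Agent.Lib.MP_66609f_al.TwRel2
import Pool.Agent.Lib.MP_66609f_al.CoxNest

namespace Pool.Agent.Lib.MP_66609f_al

variable {g : ℕ}

theorem orientW_val (hg : 3 ≤ g) {k : ℕ} (hk : k ≤ 3) : ((k : ℕ) : ZMod (g + 3)).val = k := by
  rw [ZMod.val_natCast, Nat.mod_eq_of_lt (by omega)]

theorem orientW_ne (hg : 3 ≤ g) {k l : ℕ} (hk : k ≤ 3) (hl : l ≤ 3) (h : k ≠ l) :
    ((k : ℕ) : ZMod (g + 3)) ≠ ((l : ℕ) : ZMod (g + 3)) := fun e => by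
  have := congrArg ZMod.val e
  rw [orientW_val hg hk, orientW_val hg hl] at this
  exact h this

theorem orientW_c0 (hg : 3 ≤ g) :
    colg g ((0 : ℕ) : ZMod (g + 3)) = Multiplicative.ofAdd (0, 0, 1) := by
  rw [colg, orientW_val hg (by omega), if_pos (Or.inl rfl)]

theorem orientW_c1 (hg : 3 ≤ g) :
    colg g ((1 : ℕ) : ZMod (g + 3)) = Multiplicative.ofAdd (1, 0, 0) := by
  rw [colg, orientW_val hg (by omega), if_neg (by omega), if_neg (by omega), if_pos rfl]

theorem orientW_c2 (hg : 3 ≤ g) :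
    colg g ((2 : ℕ) : ZMod (g + 3)) = Multiplicative.ofAdd (0, 1, 0) := by
  rw [colg, orientW_val hg (by omega), if_neg (by omega), if_neg (by omega), if_neg (by omega)]

theorem orientW_c3 (hg : 3 ≤ g) :
    colg g ((3 : ℕ) : ZMod (g + 3)) = Multiplicative.ofAdd (1, 0, 0) := by
  rw [colg, orientW_val hg (by omega), if_neg (by omega), if_neg (by omega), if_pos rfl]

theorem orientW_succ (k : ℕ) :
    ((k : ℕ) : ZMod (g + 3)) + 1 = ((k + 1 : ℕ) : ZMod (g + 3)) := by
  push_cast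
  rfl

theorem orientW_pred (k : ℕ) :
    ((k + 1 : ℕ) : ZMod (g + 3)) - 1 = ((k : ℕ) : ZMod (g + 3)) := by
  rw [← orientW_succ, add_sub_cancel_right]

/-- A cocycle counting the crossings of the side `j` with the weight `κ`. -/
theorem orientW_coc (hg : 3 ≤ g) (j : ZMod (g + 3)) (κ : PP → ℤ)
    (h0 : ∀ p, κ (p * colg g j) = -κ p) (h1 : ∀ p, κ (p * colg g (j - 1)) = κ p)
    (h2 : ∀ p, κ (p * colg g (j + 1)) = κ p) :
    ∃ A : Coc g (Multiplicative ℤ), (∀ p, A.F p (sg j) = Multiplicative.ofAdd (κ p)) ∧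
      ∀ p i, i ≠ j → A.F p (sg i) = 1 := by
  have hne : ∀ i : ZMod (g + 3), i + 1 ≠ i := fun i e => by
    have h := orientW_ne hg (k := 1) (l := 0) (by omega) (by omega) (by omega)
    apply h
    push_cast
    exact add_eq_left.1 e
  obtain ⟨A, hA⟩ := exists_coc (g := g) (M := Multiplicative ℤ)
    (fun p i => if i = j then Multiplicative.ofAdd (κ p) else 1)
    (fun p i => by
      by_cases h : i = j
      · subst h
        rw [if_pos rfl, if_pos rfl, h0, ← ofAdd_add, add_neg_cancel, ofAdd_zero]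
      · rw [if_neg h, if_neg h, one_mul])
    (fun p i => by
      by_cases h : i = j
      · subst h
        rw [if_pos rfl, if_pos rfl, if_neg (hne i), if_neg (hne i), h2, h0, mul_one, mul_one,
          ← ofAdd_add, add_neg_cancel, ofAdd_zero]
      · by_cases h' : i + 1 = j
        · subst h'
          rw [add_sub_cancel_right] at h1
          rw [if_neg h, if_neg h, if_pos rfl, if_pos rfl, h1, h0, one_mul, mul_one,
            ← ofAdd_add, add_neg_cancel, ofAdd_zero]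
        · rw [if_neg h, if_neg h, if_neg h', if_neg h']
          rfl)
  exact ⟨A, fun p => by rw [hA, if_pos rfl], fun p i hi => by rw [hA, if_neg hi]⟩

/-- The restriction of a cocycle to the surface group. -/
def orientW_hom {M : Type*} [Group M] (A : Coc g M) : piG g →* M where
  toFun γ := A.F 1 γ
  map_one' := A.F_one 1
  map_mul' γ δ := by
    have h : col g γ = 1 := γ.2
    rw [Subgroup.coe_mul, A.mul, h, mul_one]

theorem orientW_hom_apply {M : Type*} [Group M] (A : Coc g M) (γ : piG g) :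
    orientW_hom A γ = A.F 1 γ := rfl

theorem orientW_col (k : ℕ) : col g (ee g k) = colg g ((k : ℕ) : ZMod (g + 3)) := col_sg _

theorem orientW_u_mem : ee g 0 * ee g 2 * (ee g 0 * ee g 2) ∈ piG g := by
  change col g _ = 1
  rw [map_mul, PP.mul_self]

/-- The curve around the side `e1`. -/
def orientW_u (g : ℕ) : piG g := ⟨ee g 0 * ee g 2 * (ee g 0 * ee g 2), orientW_u_mem⟩

theorem orientW_u_coe : (orientW_u g : W (g + 3)) = ut ((1 : ℕ) : ZMod (g + 3)) ^ (2 : ℤ) := by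
  rw [ut, orientW_succ, orientW_pred 0, zpow_two]
  rfl

theorem orientW_alpha (hg : 3 ≤ g) :
    ∃ α : piG g →* Multiplicative ℤ, α (orientW_u g) ≠ 1 := by
  obtain ⟨A, h1, h2⟩ := orientW_coc hg ((2 : ℕ) : ZMod (g + 3))
    (fun p => if chi p = 1 then sgn2 p.toAdd.2.1 else 0)
    (by rw [orientW_c2 hg]; decide) (by rw [orientW_pred 1, orientW_c1 hg]; decide)
    (by rw [orientW_succ, orientW_c3 hg]; decide)
  refine ⟨orientW_hom A, ?_⟩
  have h02 := orientW_ne hg (k := 0) (l := 2) (by omega) (by omega) (by omega)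
  change A.F 1 (sg _ * sg _ * (sg _ * sg _)) ≠ 1
  rw [A.mul, A.mul, A.mul, h2 _ _ h02, h2 _ _ h02, h1, h1, map_mul (col g), col_sg, col_sg,
    orientW_c0 hg, orientW_c2 hg]
  decide

theorem eps_inner (hg : 3 ≤ g) (O : OrData (piG g)) (v : W (g + 3)) (hv : v ∈ piG g) :
    O.ε (cj g v) = 1 := by
  obtain ⟨α, hα⟩ := orientW_alpha hg
  have h : cj g v = MulAut.conj (⟨v, hv⟩ : piG g) := by
    ext x
    rfl
  rw [h]
  exact O.ε_conj α _ hα _

theorem orientW_ee_sq (k : ℕ) : ee g k * ee g k = 1 := sg_mul_self _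

theorem orientW_ee_inv (k : ℕ) : (ee g k)⁻¹ = ee g k := sg_inv _

theorem orientW_comm (k : ℕ) : Commute (ee g k) (ee g (k + 1)) := by
  have := sg_comm ((k : ℕ) : ZMod (g + 3))
  rwa [orientW_succ] at this

theorem orientW_cj0 : cj g (ee g 0) (orientW_u g) = orientW_u g ^ (-1 : ℤ) := by
  apply Subtype.ext
  rw [zpow_neg_one]
  change ee g 0 * (ee g 0 * ee g 2 * (ee g 0 * ee g 2)) * (ee g 0)⁻¹
    = (ee g 0 * ee g 2 * (ee g 0 * ee g 2))⁻¹
  simp only [mul_inv_rev, orientW_ee_inv, ← mul_assoc, orientW_ee_sq, one_mul]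

theorem orientW_cj1 : cj g (ee g 1) (orientW_u g) = orientW_u g ^ (1 : ℤ) := by
  apply Subtype.ext
  rw [zpow_one]
  change ee g 1 * (ee g 0 * ee g 2 * (ee g 0 * ee g 2)) * (ee g 1)⁻¹
    = ee g 0 * ee g 2 * (ee g 0 * ee g 2)
  have h : Commute (ee g 1) (ee g 0 * ee g 2) := (orientW_comm 0).symm.mul_right (orientW_comm 1)
  rw [(h.mul_right h).eq, mul_inv_cancel_right]

theorem orientW_cj2 : cj g (ee g 2) (orientW_u g) = orientW_u g ^ (-1 : ℤ) := by
  apply Subtype.ext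
  rw [zpow_neg_one]
  change ee g 2 * (ee g 0 * ee g 2 * (ee g 0 * ee g 2)) * (ee g 2)⁻¹
    = (ee g 0 * ee g 2 * (ee g 0 * ee g 2))⁻¹
  simp only [mul_inv_rev, orientW_ee_inv, mul_assoc, orientW_ee_sq, mul_one]

theorem orientW_rep (hg : 3 ≤ g) (p : PP) : ∃ r : W (g + 3), col g r = p ∧
    cj g r (orientW_u g) = orientW_u g ^ sgn2 (p.toAdd.2.1 + p.toAdd.2.2) := by
  let P : PP → Prop := fun p => ∃ r : W (g + 3), col g r = p ∧
    cj g r (orientW_u g) = orientW_u g ^ sgn2 (p.toAdd.2.1 + p.toAdd.2.2)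
  have hs : ∀ p q : PP, sgn2 ((p * q).toAdd.2.1 + (p * q).toAdd.2.2) =
      sgn2 (p.toAdd.2.1 + p.toAdd.2.2) * sgn2 (q.toAdd.2.1 + q.toAdd.2.2) := by decide
  have hm : ∀ p q, P p → P q → P (p * q) := by
    rintro p q ⟨r, hr, er⟩ ⟨s, hs', es⟩
    refine ⟨r * s, by rw [map_mul, hr, hs'], ?_⟩
    rw [map_mul, MulAut.mul_apply, es, map_zpow, er, ← zpow_mul, hs]
  have h0 : P (Multiplicative.ofAdd (0, 0, 1)) :=
    ⟨ee g 0, (orientW_col 0).trans (orientW_c0 hg), orientW_cj0⟩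
  have h1 : P (Multiplicative.ofAdd (1, 0, 0)) :=
    ⟨ee g 1, (orientW_col 1).trans (orientW_c1 hg), orientW_cj1⟩
  have h2 : P (Multiplicative.ofAdd (0, 1, 0)) :=
    ⟨ee g 2, (orientW_col 2).trans (orientW_c2 hg), orientW_cj2⟩
  have hp : ∀ p : PP, ∀ a b c : PP, a = Multiplicative.ofAdd (0, 0, 1) →
      b = Multiplicative.ofAdd (1, 0, 0) → c = Multiplicative.ofAdd (0, 1, 0) →
      p = a * a ∨ p = a ∨ p = b ∨ p = c ∨ p = a * b ∨ p = a * c ∨ p = b * c ∨
        p = a * b * c := by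
    rintro p _ _ _ rfl rfl rfl
    revert p
    decide
  change P p
  rcases hp p _ _ _ rfl rfl rfl with h | h | h | h | h | h | h | h <;> rw [h]
  exacts [hm _ _ h0 h0, h0, h1, h2, hm _ _ h0 h1, hm _ _ h0 h2, hm _ _ h1 h2,
    hm _ _ (hm _ _ h0 h1) h2]

theorem orientW_conj (hg : 3 ≤ g) (α : piG g →* Multiplicative ℤ) (w : W (g + 3)) :
    α (cj g w (orientW_u g)) =
      α (orientW_u g) ^ sgn2 ((col g w).toAdd.2.1 + (col g w).toAdd.2.2) := by
  obtain ⟨r, hr, er⟩ := orientW_rep hg (col g w)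
  have hγ : w * r⁻¹ ∈ piG g := by
    change col g _ = 1
    rw [map_mul, map_inv, hr, mul_inv_cancel]
  have h : ∀ x : piG g, cj g (w * r⁻¹) x = ⟨w * r⁻¹, hγ⟩ * x * ⟨w * r⁻¹, hγ⟩⁻¹ := fun x => rfl
  have e : cj g w = cj g (w * r⁻¹) * cj g r := by rw [← map_mul, inv_mul_cancel_right]
  rw [e, MulAut.mul_apply, er, h, map_mul, map_mul, map_inv, mul_inv_cancel_comm, map_zpow]

theorem orientW_main (hg : 3 ≤ g) (O : OrData (piG g)) (v : W (g + 3)) (a b : ℤˣ)
    (ha : sgn2 (col g v).toAdd.1 = a) (hb : cj g v (orientW_u g) = orientW_u g ^ (b : ℤ)) :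
    O.ε (cj g v) = a * b := by
  obtain ⟨L, h1, h2⟩ := orientW_coc hg ((1 : ℕ) : ZMod (g + 3)) (fun p => sgn2 p.toAdd.1)
    (by rw [orientW_c1 hg]; decide) (by rw [orientW_pred 0, orientW_c0 hg]; decide)
    (by rw [orientW_succ, orientW_c2 hg]; decide)
  have hT : IsTwist ((twM hg * twM hg : (Tw g)ˣ) : Tw g) ((1 : ℕ) : ZMod (g + 3))
      fun p => kapM p + kapM p := (twM_spec hg).mul hg (twM_spec hg) (twOK_M hg)
  have hy : ee g 1 * ee g 3 ∈ piG g := by
    change col g _ = 1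
    rw [map_mul, orientW_col, orientW_col, orientW_c1 hg, orientW_c3 hg, PP.mul_self]
  have hσ : O.ε (Tw.res g (twM hg * twM hg)) = 1 := by
    rw [map_mul, map_mul, Int.units_mul_self]
  generalize twM hg * twM hg = A at hT hσ
  have hmem : ∀ w, (A : Tw g).F 1 w * w⁻¹ ∈ piG g := fun w => by
    change col g _ = 1
    rw [map_mul, map_inv, Tw.col_F, mul_inv_cancel]
  have hshift : ∀ (q : PP) w p, L.F (q * p) w = L.F p w ^ sgn2 q.toAdd.1 := by
    intro q w
    induction w using cox_induction with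
    | h1 => intro p; rw [L.F_one, L.F_one, one_zpow]
    | hs w i ih =>
      intro p
      rw [L.mul, L.mul, ih, mul_zpow, mul_assoc q]
      congr 1
      by_cases hi : i = ((1 : ℕ) : ZMod (g + 3))
      · have hs : ∀ p q : PP, sgn2 (q * p).toAdd.1 = sgn2 q.toAdd.1 * sgn2 p.toAdd.1 := by decide
        rw [hi, h1, h1, hs, ← ofAdd_zsmul, smul_eq_mul]
      · rw [h2 _ _ hi, h2 _ _ hi, one_zpow]
  refine O.ε_eq (Tw.res g A) (cj g v) (orientW_hom L) (orientW_u g) ⟨_, hy⟩ a b hσ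
    (fun α γ => ?_) ?_ (orientW_alpha hg) (fun γ => ?_) hb
  · have key : ∀ w, (α ⟨_, hmem w⟩).toAdd = 2 * (L.F 1 w).toAdd * (α (orientW_u g)).toAdd := by
      intro w
      induction w using cox_induction with
      | h1 =>
        have : (⟨_, hmem 1⟩ : piG g) = 1 := Subtype.ext (by simp [Tw.F_one])
        rw [this, map_one, L.F_one]
        simp
      | hs w i ih =>
        rw [L.mul, one_mul, toAdd_mul, mul_add, add_mul, ← ih]
        by_cases hi : i = ((1 : ℕ) : ZMod (g + 3))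
        · have e : (⟨_, hmem (w * sg i)⟩ : piG g) =
              ⟨_, hmem w⟩ * cj g w (orientW_u g ^ (2 * ori (col g w))) := by
            apply Subtype.ext
            change (A : Tw g).F 1 (w * sg i) * (w * sg i)⁻¹ = (A : Tw g).F 1 w * w⁻¹ *
              (w * ((orientW_u g ^ (2 * ori (col g w)) : piG g) : W (g + 3)) * w⁻¹)
            rw [Tw.mul, one_mul, hi, hT.1, Subgroup.coe_zpow, orientW_u_coe, ← zpow_mul]
            have : kapM (col g w) + kapM (col g w) = 2 * (2 * ori (col g w)) := by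
              rw [kapM]; ring
            simp only [this]
            group
          have hs : ∀ p : PP, ori p * sgn2 (p.toAdd.2.1 + p.toAdd.2.2) = sgn2 p.toAdd.1 := by
            decide
          rw [e, map_mul, toAdd_mul, map_zpow, map_zpow, orientW_conj hg, hi, h1, toAdd_ofAdd,
            toAdd_zpow, toAdd_zpow, ← hs, smul_eq_mul, smul_eq_mul]
          ring
        · have e : (⟨_, hmem (w * sg i)⟩ : piG g) = ⟨_, hmem w⟩ := by
            apply Subtype.ext
            change (A : Tw g).F 1 (w * sg i) * (w * sg i)⁻¹ = (A : Tw g).F 1 w * w⁻¹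
            rw [Tw.mul, hT.2 _ _ hi]
            group
          rw [e, h2 _ _ hi]
          simp
    have e : Tw.res g A γ = ⟨_, hmem γ⟩ * γ := by
      apply Subtype.ext
      rw [Tw.res_apply, Subgroup.coe_mul, inv_mul_cancel_right]
    rw [e, map_mul, toAdd_mul, key, orientW_hom_apply, add_comm]
  · change (L.F 1 (sg _ * sg _)).toAdd = 1
    rw [L.mul, h1, h2 _ _ (orientW_ne hg (k := 3) (l := 1) (by omega) (by omega) (by omega))]
    decide
  · change (L.F 1 (v * γ * v⁻¹)).toAdd = a * (L.F 1 γ).toAdd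
    have hγ : col g γ = 1 := γ.2
    have h3 := hshift (col g v) γ 1
    rw [mul_one] at h3
    rw [L.mul, L.mul, L.F_inv, map_mul (col g), hγ, one_mul, one_mul, mul_one, PP.mul_self,
      mul_inv_cancel_comm, h3, toAdd_zpow, smul_eq_mul, ha]

theorem eps_refl (hg : 3 ≤ g) (O : OrData (piG g)) :
    O.ε (cj g (ee g 1)) = -1 ∧ O.ε (cj g (ee g 2)) = -1 ∧ O.ε (cj g (t3 g)) = -1 := by
  refine ⟨?_, ?_, ?_⟩
  · rw [orientW_main hg O _ (-1) 1 (by rw [orientW_col, orientW_c1 hg]; decide) orientW_cj1,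
      mul_one]
  · rw [orientW_main hg O _ 1 (-1) (by rw [orientW_col, orientW_c2 hg]; decide) orientW_cj2,
      one_mul]
  · rw [t3, orientW_main hg O _ 1 (-1) (by rw [orientW_col, orientW_c0 hg]; decide) orientW_cj0,
      one_mul]

end Pool.Agent.Lib.MP_66609f_al
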