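import Pool.Agent.Lib.MP_66609f_al.ThMain
import Pool.Agent.Lib.MP_66609f_al.FixCons
import Pool.Agent.Lib.MP_66609f_al.OrientW

namespace Pool.Agent.Lib.MP_66609f_al

variable {g : ℕ}

/-- The classes of automorphisms with trivial orientation character. -/
def build_G (O : OrData (piG g)) : Subgroup (Out (piG g)) :=
  O.ε.ker.map (QuotientGroup.mk' (Inn (piG g)))

theorem build_mem_oc (O : OrData (piG g)) (φ : MulAut (piG g)) (h : O.ε φ = 1) :
    oc g φ ∈ build_G O := ⟨φ, h, rfl⟩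

theorem build_eps_of_mem (hg : 3 ≤ g) (O : OrData (piG g)) (φ : MulAut (piG g))
    (h : oc g φ ∈ build_G O) : O.ε φ = 1 := by
  obtain ⟨ψ, hψ, h⟩ := h
  have h' : oc g φ = oc g ψ := h.symm
  obtain ⟨v, hv, rfl⟩ := (oc_eq_iff φ ψ).1 h'
  have hψ' : O.ε ψ = 1 := hψ
  rw [map_mul, eps_inner hg O v hv, hψ', one_mul]

theorem build_normal (O : OrData (piG g)) : (build_G O).Normal :=
  Subgroup.Normal.map inferInstance _ (QuotientGroup.mk'_surjective _)

theorem build_r_mem (hg : 3 ≤ g) (O : OrData (piG g)) : rO g ∈ build_G O := by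
  obtain ⟨e1, e2, -⟩ := eps_refl hg O
  refine build_mem_oc O _ ?_
  rw [map_mul, map_mul, e1, e2]
  simp

theorem build_τ_mem (hg : 3 ≤ g) (O : OrData (piG g)) : τO g ∈ build_G O := by
  obtain ⟨e1, -, e3⟩ := eps_refl hg O
  refine build_mem_oc O _ ?_
  rw [map_mul, map_mul, e1, e3]
  simp

theorem build_T_mem (hg : 3 ≤ g) (O : OrData (piG g)) : TO hg ∈ build_G O :=
  build_mem_oc O _ (eps_T hg O.ε (eps_inner hg O))

theorem build_gn_mem (hg : 3 ≤ g) (O : OrData (piG g)) (b : Bool × Bool) :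
    oc g (Tw.res g (gnTw hg b)) ∈ build_G O :=
  build_mem_oc O _ (eps_gn hg O.ε b)

theorem build_ρ_not_mem (hg : 3 ≤ g) (O : OrData (piG g)) : ρO g ∉ build_G O := by
  intro h
  have h1 := build_eps_of_mem hg O _ h
  rw [(eps_refl hg O).1] at h1
  exact absurd h1 (by decide)

/-- The generators as elements of the subgroup. -/
noncomputable def build_gn (hg : 3 ≤ g) (O : OrData (piG g)) (b : Bool × Bool) : build_G O :=
  ⟨oc g (Tw.res g (gnTw hg b)), build_gn_mem hg O b⟩

theorem build_lift (hg : 3 ≤ g) (O : OrData (piG g)) (w : FW) :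
    ((FreeGroup.lift (build_gn hg O) w : build_G O) : Out (piG g)) = oc g (autW hg w) := by
  have h : (build_G O).subtype.comp (FreeGroup.lift (build_gn hg O)) =
      (oc g).comp (autW hg) := by
    refine FreeGroup.ext_hom _ _ (fun b => ?_)
    simp only [MonoidHom.comp_apply, FreeGroup.lift_apply_of, autW, evTw]
    rfl
  exact DFunLike.congr_fun h w

theorem build_chi (p : PP) : chi p = 1 ∨ chi p = -1 := by
  unfold chi sgn2
  split_ifs
  · exact Or.inl rfl
  · exact Or.inr rfl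

theorem build_T_ne (hg : 3 ≤ g) : TO hg ≠ (TO hg)⁻¹ := by
  intro h
  obtain ⟨C, hC⟩ := theta0 hg
  have h2 : TO hg ^ (2 : ℤ) = 1 := by
    rw [zpow_two]
    nth_rewrite 1 [h]
    exact inv_mul_cancel _
  have h3 := hC (2 * ((ThetaO hg 1 + C + 1 : ℕ) : ℤ))
  rw [zpow_mul, h2, one_zpow] at h3
  omega

theorem build_chi_neg (hg : 3 ≤ g) {x : Out (piG g)} {v : W (g + 3)} {i k : ℤ}
    (h : NF g x v i k) (hx : x * TO hg * x⁻¹ = (TO hg)⁻¹) : chi (col g v) = -1 := by
  rcases build_chi (col g v) with h1 | h1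
  · exfalso
    have h2 := h.conj_T hg
    rw [h1, zpow_one, hx] at h2
    exact build_T_ne hg h2.symm
  · exact h1

theorem build_fix1 (hg : 3 ≤ g) (x : Out (piG g)) (hx : NrmO g x) :
    x * TO hg * x⁻¹ = TO hg ∨ x * TO hg * x⁻¹ = (TO hg)⁻¹ := by
  obtain ⟨v, i, k, h⟩ := exists_NF hg x hx
  have h2 := h.conj_T hg
  rcases build_chi (col g v) with h1 | h1
  · left
    rw [h2, h1, zpow_one]
  · right
    rw [h2, h1, zpow_neg, zpow_one]

theorem build_sep (hg : 3 ≤ g) (O : OrData (piG g)) (x x' : Out (piG g)) (w w' : FW)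
    (hxm : x ∈ build_G O) (hxm' : x' ∈ build_G O) (hx : NrmO g x) (hx' : NrmO g x')
    (hT : x * TO hg * x⁻¹ = (TO hg)⁻¹) (hT' : x' * TO hg * x'⁻¹ = (TO hg)⁻¹)
    (hw : oc g (autW hg w) * x * oc g (autW hg w') = x') :
    ∃ k : ℤ, x' = TO hg ^ k * x ∨ x' = TO hg ^ k * x * rO g := by
  obtain ⟨v, i, k, h⟩ := exists_NF hg x hx
  obtain ⟨v', i', k', h'⟩ := exists_NF hg x' hx'
  have hv : chi (col g v) = chi (col g v') := by
    rw [build_chi_neg hg h hT, build_chi_neg hg h' hT']
  obtain ⟨l, a, ha, he⟩ := h.compare hg h' hv (h.index_eq hg h' hv w w' hw)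
  have hl : TO hg ^ l * x ∈ build_G O :=
    (build_G O).mul_mem ((build_G O).zpow_mem (build_T_mem hg O) l) hxm
  have hc : oc g (cj g a) ∈ build_G O := by
    have h1 : oc g (cj g a) = (TO hg ^ l * x)⁻¹ * x' := by
      rw [he, inv_mul_cancel_left]
    rw [h1]
    exact (build_G O).mul_mem ((build_G O).inv_mem hl) hxm'
  refine ⟨l, ?_⟩
  rcases oc_cj_lam hg a ha with h1 | h1 | h1 | h1
  · left
    rw [he, h1, mul_one]
  · right
    rw [he, h1]
  · exfalso
    rw [h1] at hc
    exact build_ρ_not_mem hg O hc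
  · exfalso
    rw [h1] at hc
    exact build_ρ_not_mem hg O
      (((build_G O).mul_mem_cancel_right (build_r_mem hg O)).1 hc)

/-- Conjugation by the mirror class. -/
def build_ρ (O : OrData (piG g)) : build_G O ≃* build_G O :=
  haveI := build_normal O
  MulAut.conjNormal (ρO g)

theorem build_ρ_coe (O : OrData (piG g)) (x : build_G O) :
    ((build_ρ O x : build_G O) : Out (piG g)) = ρO g * x * (ρO g)⁻¹ := rfl

theorem build_nrm (hg : 3 ≤ g) (O : OrData (piG g)) (f : build_G O)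
    (h1 : (⟨rO g, build_r_mem hg O⟩ : build_G O) * f = f * ⟨rO g, build_r_mem hg O⟩)
    (h2 : build_ρ O f = f ∨ build_ρ O f = f * ⟨rO g, build_r_mem hg O⟩) :
    NrmO g (f : Out (piG g)) := by
  refine ⟨congrArg Subtype.val h1, ?_⟩
  rcases h2 with h2 | h2
  · exact Or.inl (congrArg Subtype.val h2)
  · exact Or.inr (congrArg Subtype.val h2)

theorem build_conj_of_comm {H : Type*} [Group H] {a b : H} (h : Commute a b) :
    a * b * a⁻¹ = b := by
  rw [h.eq, mul_inv_cancel_right]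

theorem build_setup (hg : 3 ≤ g) (O : OrData (piG g)) : Nonempty (Setup (build_G O)) := by
  refine ⟨{
    r := ⟨rO g, build_r_mem hg O⟩
    T := ⟨TO hg, build_T_mem hg O⟩
    τ := ⟨τO g, build_τ_mem hg O⟩
    gn := build_gn hg O
    ρ := build_ρ O
    Θ := fun x => ThetaO hg (x : Out (piG g))
    H := fun x => HO g (x : Out (piG g))
    rr := Subtype.ext rO_mul_self
    r_ne := fun h => rO_ne_one hg (congrArg Subtype.val h)
    ρρ := ?_
    ρr := Subtype.ext (build_conj_of_comm comm_rρ.symm)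
    ρT := Subtype.ext (build_conj_of_comm (comm_ρT hg))
    ρτ := Subtype.ext (build_conj_of_comm comm_ρτ)
    ττ := Subtype.ext τO_mul_self
    rT := Subtype.ext (comm_rT hg).eq
    rτ := Subtype.ext comm_rτ.eq
    τT := Subtype.ext (τO_TO hg)
    r_gn := fun b => Subtype.ext (comm_r_gn hg b).eq
    T_gn := fun b => Subtype.ext (comm_T_gn hg b).eq
    ρ_gn := fun b => Subtype.ext (ρO_gn hg b)
    τ_gn := fun b => Subtype.ext (τO_gn hg b)
    xy := Subtype.ext (((comm_xy hg).map (Tw.res g)).map (oc g)).eq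
    xu := Subtype.ext (((comm_xu hg).map (Tw.res g)).map (oc g)).eq
    det := ?_
    th0 := ?_
    th1 := ?_
    th2 := ?_
    th3 := ?_
    H_one := HO_one hg
    H_gn := ?_
    H_nrm := ?_
    fix1 := ?_
    fix2 := ?_
    sep := ?_ }⟩
  · intro x
    apply Subtype.ext
    rw [build_ρ_coe, build_ρ_coe]
    have h2 : ρO g * (ρO g * (x : Out (piG g)) * (ρO g)⁻¹) * (ρO g)⁻¹ =
        (ρO g * ρO g) * x * (ρO g * ρO g)⁻¹ := by group
    rw [h2, ρO_mul_self]
    simp
  · intro w hw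
    apply det_out hg w
    rw [← build_lift hg O w]
    rcases hw with hw | hw
    · left
      rw [hw]
      rfl
    · right
      rw [hw]
  · obtain ⟨C, hC⟩ := theta0 hg
    refine ⟨C, fun k => ?_⟩
    rw [Subgroup.coe_zpow]
    exact hC k
  · intro s
    obtain ⟨C, hC⟩ := theta1 hg (s : Out (piG g))
    exact ⟨C, fun x => hC x⟩
  · obtain ⟨C, hC⟩ := theta2 hg
    refine ⟨C, fun j x => ?_⟩
    rw [Subgroup.coe_mul, Subgroup.coe_zpow]
    exact hC j x
  · obtain ⟨C, hC⟩ := theta3 hg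
    refine ⟨C, fun w x hx => ?_⟩
    rw [Subgroup.coe_mul, build_lift]
    exact hC w x hx
  · intro w x hx
    rw [Subgroup.coe_mul, build_lift]
    exact HO_autW hg w x hx
  · intro f x h1 h2 hx
    exact HO_nrm hg f x (build_nrm hg O f h1 h2) hx
  · intro f h1 h2
    rcases build_fix1 hg f (build_nrm hg O f h1 h2) with h | h
    · exact Or.inl (Subtype.ext h)
    · exact Or.inr (Subtype.ext h)
  · obtain ⟨F, hF, hF'⟩ := fix_finite hg
    refine ⟨Subtype.val ⁻¹' F, hF.preimage Subtype.val_injective.injOn, fun f h1 h2 => ?_⟩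
    obtain ⟨x0, hx0, k, hk⟩ := hF' f (build_nrm hg O f h1 h2)
    have hm : x0 ∈ build_G O := by
      have h3 : x0 = (TO hg ^ k)⁻¹ * f := by rw [hk, inv_mul_cancel_left]
      rw [h3]
      exact (build_G O).mul_mem
        ((build_G O).inv_mem ((build_G O).zpow_mem (build_T_mem hg O) k)) f.2
    refine ⟨⟨x0, hm⟩, hx0, k, Subtype.ext ?_⟩
    rw [Subgroup.coe_mul, Subgroup.coe_zpow]
    exact hk
  · intro f f' w w' h1 h2 h3 h1' h2' h3' hw
    have hw' : oc g (autW hg w) * (f : Out (piG g)) * oc g (autW hg w') = f' := by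
      rw [← build_lift hg O w, ← build_lift hg O w', ← hw]
      rfl
    obtain ⟨k, hk⟩ := build_sep hg O f f' w w' f.2 f'.2 (build_nrm hg O f h1 h2)
      (build_nrm hg O f' h1' h2') (congrArg Subtype.val h3) (congrArg Subtype.val h3') hw'
    refine ⟨k, ?_⟩
    rcases hk with hk | hk
    · left
      apply Subtype.ext
      rw [Subgroup.coe_mul, Subgroup.coe_zpow]
      exact hk
    · right
      apply Subtype.ext
      rw [Subgroup.coe_mul, Subgroup.coe_mul, Subgroup.coe_zpow]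
      exact hk

theorem nonempty_setup (hg : 3 ≤ g) (O : OrData (piG g)) :
    Nonempty (Setup (O.ε.ker.map (QuotientGroup.mk' (Inn (piG g))))) :=
  build_setup hg O

end Pool.Agent.Lib.MP_66609f_al
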