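import Pool.Agent.Lib.MP_66609f_al.Col

namespace Pool.Agent.Lib.MP_66609f_al

variable {g : ℕ}

theorem col_sg (i : ZMod (g + 3)) : col g (sg i) = colg g i :=
  coxLift_sg _ _ _ i

theorem cocBasic_inv (p : PP) : p⁻¹ = p :=
  inv_eq_of_mul_eq_one_right (PP.mul_self p)

theorem cocBasic_col_inv (w : W (g + 3)) : col g w⁻¹ = col g w := by
  rw [map_inv, cocBasic_inv]

theorem cocBasic_mul_cancel (p q : PP) : p * q * q = p := by
  rw [mul_assoc, PP.mul_self, mul_one]

theorem Coc.F_one {M : Type*} [Group M] (A : Coc g M) (p : PP) : A.F p 1 = 1 := by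
  have h := A.mul p 1 1
  rw [mul_one, map_one, mul_one] at h
  exact left_eq_mul.mp h

theorem Coc.F_inv {M : Type*} [Group M] (A : Coc g M) (p : PP) (w : W (g + 3)) :
    A.F p w⁻¹ = (A.F (p * col g w) w)⁻¹ := by
  have h := A.mul p w⁻¹ w
  rw [inv_mul_cancel, A.F_one, cocBasic_col_inv] at h
  exact eq_inv_of_mul_eq_one_left h.symm

theorem Coc.ext_gen {M : Type*} [Group M] (A B : Coc g M)
    (h : ∀ p i, A.F p (sg i) = B.F p (sg i)) : A = B := by
  have key : ∀ w, ∀ p, A.F p w = B.F p w := by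
    intro w
    induction w using cox_induction with
    | h1 => intro p; rw [A.F_one, B.F_one]
    | hs w i ih => intro p; rw [A.mul, B.mul, ih, h]
  apply Coc.ext
  funext p w
  exact key w p

/-- The involution of `M × PP` attached to a generator. -/
def cocBasic_perm {M : Type*} [Group M] (D : PP → ZMod (g + 3) → M)
    (h1 : ∀ p i, D p i * D (p * colg g i) i = 1) (i : ZMod (g + 3)) : Equiv.Perm (M × PP) where
  toFun x := (x.1 * D x.2 i, x.2 * colg g i)
  invFun x := (x.1 * D x.2 i, x.2 * colg g i)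
  left_inv x := by
    apply Prod.ext
    · change x.1 * D x.2 i * D (x.2 * colg g i) i = x.1
      rw [mul_assoc, h1, mul_one]
    · exact cocBasic_mul_cancel _ _
  right_inv x := by
    apply Prod.ext
    · change x.1 * D x.2 i * D (x.2 * colg g i) i = x.1
      rw [mul_assoc, h1, mul_one]
    · exact cocBasic_mul_cancel _ _

theorem cocBasic_perm_apply {M : Type*} [Group M] (D : PP → ZMod (g + 3) → M)
    (h1 : ∀ p i, D p i * D (p * colg g i) i = 1) (i : ZMod (g + 3)) (m : M) (p : PP) :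
    cocBasic_perm D h1 i (m, p) = (m * D p i, p * colg g i) := rfl

theorem exists_coc {M : Type*} [Group M] (D : PP → ZMod (g + 3) → M)
    (h1 : ∀ p i, D p i * D (p * colg g i) i = 1)
    (h2 : ∀ p i, D p i * D (p * colg g i) (i + 1) * D (p * colg g i * colg g (i + 1)) i *
      D (p * colg g (i + 1)) (i + 1) = 1) :
    ∃ A : Coc g M, ∀ p i, A.F p (sg i) = D p i := by
  have hsq : ∀ i, cocBasic_perm D h1 i * cocBasic_perm D h1 i = 1 := by
    intro i
    ext1 x
    exact (cocBasic_perm D h1 i).left_inv x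
  have hrel' : ∀ i, cocBasic_perm D h1 (i + 1) * cocBasic_perm D h1 i *
      cocBasic_perm D h1 (i + 1) * cocBasic_perm D h1 i = 1 := by
    intro i
    ext1 ⟨m, p⟩
    simp only [Equiv.Perm.mul_apply, cocBasic_perm_apply, Equiv.Perm.one_apply]
    have e1 : p * colg g i * colg g (i + 1) * colg g i = p * colg g (i + 1) := by
      rw [mul_right_comm p, cocBasic_mul_cancel]
    rw [e1, cocBasic_mul_cancel]
    have := h2 p i
    refine Prod.ext ?_ rfl
    simp only [mul_assoc] at this ⊢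
    rw [this, mul_one]
  have hinv : ∀ i, (cocBasic_perm D h1 i)⁻¹ = cocBasic_perm D h1 i := fun i =>
    inv_eq_of_mul_eq_one_right (hsq i)
  have hrel : ∀ i, cocBasic_perm D h1 i * cocBasic_perm D h1 (i + 1) *
      cocBasic_perm D h1 i * cocBasic_perm D h1 (i + 1) = 1 := by
    intro i
    have h := congrArg (fun x => x⁻¹) (hrel' i)
    simp only [mul_inv_rev, hinv, inv_one] at h
    simpa only [mul_assoc] using h
  let φ : W (g + 3) →* Equiv.Perm (M × PP) := coxLift (cocBasic_perm D h1) hsq hrel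
  have hφ : ∀ i, φ (sg i) = cocBasic_perm D h1 i := fun i => coxLift_sg _ _ _ i
  have key : ∀ w, ∀ m p, φ w (m, p) = (m * (φ w (1, p)).1, p * col g w) := by
    intro w
    induction w using cox_induction with
    | h1 => intro m p; simp
    | hs w i ih =>
      intro m p
      simp only [map_mul, Equiv.Perm.mul_apply, hφ, cocBasic_perm_apply, col_sg]
      rw [ih (m * D p i), ih (1 * D p i)]
      refine Prod.ext ?_ ?_
      · simp only [one_mul, mul_assoc]
      · simp only [mul_assoc]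
        rw [mul_comm (colg g i)]
  refine ⟨⟨fun p w => (φ w⁻¹ (1, p)).1, ?_⟩, ?_⟩
  · intro p w w'
    rw [mul_inv_rev, map_mul, Equiv.Perm.mul_apply, key w⁻¹ 1 p, key w'⁻¹, cocBasic_col_inv,
      one_mul]
  · intro p i
    change (φ (sg i)⁻¹ (1, p)).1 = D p i
    rw [sg_inv, hφ, cocBasic_perm_apply, one_mul]

/-- The underlying cocycle. -/
def cocBasic_toCoc (A : Tw g) : Coc g (W (g + 3)) := ⟨A.F, A.mul⟩

theorem Tw.F_one (A : Tw g) (p : PP) : A.F p 1 = 1 :=
  (cocBasic_toCoc A).F_one p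

theorem Tw.F_inv (A : Tw g) (p : PP) (w : W (g + 3)) :
    A.F p w⁻¹ = (A.F (p * col g w) w)⁻¹ :=
  (cocBasic_toCoc A).F_inv p w

theorem Tw.ext_gen (A B : Tw g) (h : ∀ p i, A.F p (sg i) = B.F p (sg i)) : A = B := by
  have := Coc.ext_gen (cocBasic_toCoc A) (cocBasic_toCoc B) h
  apply Tw.ext
  exact congrArg Coc.F this

theorem IsTwist.fix {A : Tw g} {i : ZMod (g + 3)} {κ : PP → ℤ} (h : IsTwist A i κ) (p : PP)
    (w : W (g + 3)) (hw : w ∈ WJ {i}ᶜ) : A.F p w = w := by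
  unfold WJ at hw
  induction hw using Subgroup.closure_induction generalizing p with
  | mem x hx =>
    obtain ⟨j, hj, rfl⟩ := hx
    exact h.2 p j hj
  | one => exact A.F_one p
  | mul x y _ _ ihx ihy => rw [A.mul, ihx, ihy]
  | inv x _ ih => rw [A.F_inv, ih]

theorem cocBasic_one_ne : (1 : ZMod (g + 3)) ≠ 0 := by
  have : Fact (1 < g + 3) := ⟨by omega⟩
  exact one_ne_zero

theorem cocBasic_succ_ne (i : ZMod (g + 3)) : i + 1 ≠ i := by
  intro h
  exact cocBasic_one_ne (g := g) (by simpa using h)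

theorem cocBasic_pred_ne (i : ZMod (g + 3)) : i - 1 ≠ i := by
  intro h
  exact cocBasic_one_ne (g := g) (by simpa using h)

theorem cocBasic_ut_mem (i : ZMod (g + 3)) : ut i ∈ WJ ({i}ᶜ : Set (ZMod (g + 3))) := by
  unfold ut WJ
  exact Subgroup.mul_mem _ (Subgroup.subset_closure ⟨_, cocBasic_pred_ne i, rfl⟩)
    (Subgroup.subset_closure ⟨_, cocBasic_succ_ne i, rfl⟩)

theorem cocBasic_comm_pred {n : ℕ} (i : ZMod n) : Commute (sg i) (sg (i - 1)) := by
  have h := (sg_comm (i - 1)).symm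
  rwa [sub_add_cancel] at h

theorem cocBasic_comm_ut {n : ℕ} (i : ZMod n) : Commute (sg i) (ut i) :=
  (cocBasic_comm_pred i).mul_right (sg_comm i)

theorem cocBasic_semi_succ {n : ℕ} (i : ZMod n) (k : ℤ) :
    sg (i + 1) * ut i ^ k = ut i ^ (-k) * sg (i + 1) := by
  have h : SemiconjBy (sg (i + 1)) (ut i) (ut i)⁻¹ := by
    unfold SemiconjBy ut
    rw [mul_inv_rev, sg_inv, sg_inv, mul_assoc]
  have h2 := h.zpow_right k
  rw [inv_zpow'] at h2
  exact h2

theorem cocBasic_semi_pred {n : ℕ} (i : ZMod n) (k : ℤ) :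
    sg (i - 1) * ut i ^ k = ut i ^ (-k) * sg (i - 1) := by
  have h : SemiconjBy (sg (i - 1)) (ut i) (ut i)⁻¹ := by
    unfold SemiconjBy ut
    rw [mul_inv_rev, sg_inv, sg_inv, ← mul_assoc, sg_mul_self, one_mul, mul_assoc, sg_mul_self,
      mul_one]
  have h2 := h.zpow_right k
  rw [inv_zpow'] at h2
  exact h2

theorem cocBasic_rel {n : ℕ} (j : ZMod n) : sg j * sg (j + 1) * sg j * sg (j + 1) = 1 := by
  rw [mul_assoc (sg j), ← (sg_comm j).eq, ← mul_assoc, sg_mul_self, one_mul, sg_mul_self]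

theorem cocBasic_exists_tw (i : ZMod (g + 3)) (κ : PP → ℤ) (h : TwOK g i κ) :
    ∃ A : Tw g, IsTwist A i κ := by
  classical
  let D : PP → ZMod (g + 3) → W (g + 3) := fun p j =>
    if j = i then ut i ^ κ p * sg i else sg j
  have hDi : ∀ p, D p i = ut i ^ κ p * sg i := fun p => if_pos rfl
  have hDj : ∀ p j, j ≠ i → D p j = sg j := fun p j hj => if_neg hj
  have hc : ∀ k : ℤ, sg i * ut i ^ k = ut i ^ k * sg i := fun k =>
    ((cocBasic_comm_ut i).zpow_right k).eq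
  have h1 : ∀ p j, D p j * D (p * colg g j) j = 1 := by
    intro p j
    by_cases hj : j = i
    · subst hj
      rw [hDi, hDi, (h.1 p).2.1, mul_assoc, ← mul_assoc (sg j), hc, mul_assoc, sg_mul_self,
        mul_one, ← zpow_add, add_neg_cancel, zpow_zero]
    · rw [hDj _ _ hj, hDj _ _ hj, sg_mul_self]
  have h2 : ∀ p j, D p j * D (p * colg g j) (j + 1) * D (p * colg g j * colg g (j + 1)) j *
      D (p * colg g (j + 1)) (j + 1) = 1 := by
    intro p j
    by_cases hj : j = i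
    · subst hj
      rw [hDi, hDi, hDj _ _ (cocBasic_succ_ne j), hDj _ _ (cocBasic_succ_ne j),
        (h.1 _).2.2, (h.1 _).2.1, neg_neg]
      have e : ut j ^ κ p * sg j * sg (j + 1) * (ut j ^ κ p * sg j) * sg (j + 1) =
          ut j ^ κ p * (sg j * (sg (j + 1) * ut j ^ κ p)) * sg j * sg (j + 1) := by
        simp only [mul_assoc]
      rw [e, cocBasic_semi_succ, ← mul_assoc (sg j), hc]
      have e2 : ut j ^ κ p * (ut j ^ (-κ p) * sg j * sg (j + 1)) * sg j * sg (j + 1) =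
          (ut j ^ κ p * ut j ^ (-κ p)) * (sg j * sg (j + 1) * sg j * sg (j + 1)) := by
        simp only [mul_assoc]
      rw [e2, cocBasic_rel, ← zpow_add, add_neg_cancel, zpow_zero, one_mul]
    · by_cases hj' : j + 1 = i
      · have hji : j = i - 1 := by rw [← hj', add_sub_cancel_right]
        subst hji
        rw [sub_add_cancel, hDi, hDi, hDj _ _ hj, hDj _ _ hj, (h.1 _).1, (h.1 _).2.1]
        have e : sg (i - 1) * (ut i ^ (-κ p) * sg i) * sg (i - 1) * (ut i ^ (-κ p) * sg i) =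
            (sg (i - 1) * ut i ^ (-κ p)) * (sg i * sg (i - 1)) * ut i ^ (-κ p) * sg i := by
          simp only [mul_assoc]
        rw [e, cocBasic_semi_pred, neg_neg, (cocBasic_comm_pred i).eq]
        have e2 : ut i ^ κ p * sg (i - 1) * (sg (i - 1) * sg i) * ut i ^ (-κ p) * sg i =
            ut i ^ κ p * (sg (i - 1) * sg (i - 1)) * (sg i * ut i ^ (-κ p)) * sg i := by
          simp only [mul_assoc]
        rw [e2, sg_mul_self, mul_one, hc, ← mul_assoc, ← zpow_add, add_neg_cancel, zpow_zero,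
          one_mul, sg_mul_self]
      · rw [hDj _ _ hj, hDj _ _ hj, hDj _ _ hj', hDj _ _ hj', cocBasic_rel]
  obtain ⟨A, hA⟩ := exists_coc D h1 h2
  have hcolD : ∀ p j, col g (D p j) = col g (sg j) := by
    intro p j
    by_cases hj : j = i
    · subst hj
      rw [hDi, map_mul, h.2, one_mul]
    · rw [hDj _ _ hj]
  have hcol : ∀ w p, col g (A.F p w) = col g w := by
    intro w
    induction w using cox_induction with
    | h1 => intro p; rw [A.F_one]
    | hs w j ih => intro p; rw [A.mul, map_mul, map_mul, ih, hA, hcolD]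
  refine ⟨⟨A.F, A.mul, fun p w => hcol w p⟩, ?_, ?_⟩
  · intro p
    change A.F p (sg i) = _
    rw [hA, hDi]
  · intro p j hj
    change A.F p (sg j) = _
    rw [hA, hDj _ _ hj]

theorem cocBasic_mul {A B : Tw g} {i : ZMod (g + 3)} {κ κ' : PP → ℤ}
    (h : IsTwist A i κ) (h' : IsTwist B i κ') (hκ : TwOK g i κ') :
    IsTwist (A * B) i fun p => κ p + κ' p := by
  refine ⟨fun p => ?_, fun p j hj => ?_⟩
  · rw [Tw.mul_F, h'.1, A.mul, hκ.2, mul_one, h.1,
      h.fix p _ (Subgroup.zpow_mem _ (cocBasic_ut_mem i) _), ← mul_assoc, ← zpow_add,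
      add_comm (κ' p)]
  · rw [Tw.mul_F, h'.2 p j hj, h.2 p j hj]

theorem cocBasic_unique {A B : Tw g} {i : ZMod (g + 3)} {κ : PP → ℤ} (h : IsTwist A i κ)
    (h' : IsTwist B i κ) : A = B := by
  apply Tw.ext_gen
  intro p j
  by_cases hj : j = i
  · subst hj
    rw [h.1, h'.1]
  · rw [h.2 p j hj, h'.2 p j hj]

theorem cocBasic_one (i : ZMod (g + 3)) : IsTwist (1 : Tw g) i fun _ => 0 := by
  refine ⟨fun p => ?_, fun p j _ => rfl⟩
  rw [Tw.one_F, zpow_zero, one_mul]

theorem cocBasic_neg {i : ZMod (g + 3)} {κ : PP → ℤ} (h : TwOK g i κ) :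
    TwOK g i fun p => -κ p := by
  refine ⟨fun p => ⟨?_, ?_, ?_⟩, fun p => ?_⟩
  · exact congrArg Neg.neg (h.1 p).1
  · exact congrArg Neg.neg (h.1 p).2.1
  · exact congrArg Neg.neg (h.1 p).2.2
  · rw [zpow_neg, map_inv, h.2, inv_one]

theorem cocBasic_mul_eq_one {A B : Tw g} {i : ZMod (g + 3)} {κ κ' : PP → ℤ}
    (h : IsTwist A i κ) (h' : IsTwist B i κ') (hκ : TwOK g i κ') (hs : ∀ p, κ p + κ' p = 0) :
    A * B = 1 := by
  have h3 := cocBasic_mul h h' hκ
  simp only [hs] at h3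
  exact cocBasic_unique h3 (cocBasic_one i)

theorem exists_twist (hg : 3 ≤ g) (i : ZMod (g + 3)) (κ : PP → ℤ) (h : TwOK g i κ) :
    ∃ A : (Tw g)ˣ, IsTwist (A : Tw g) i κ := by
  have _ := hg
  obtain ⟨A, hA⟩ := cocBasic_exists_tw i κ h
  obtain ⟨B, hB⟩ := cocBasic_exists_tw i _ (cocBasic_neg h)
  refine ⟨⟨A, B, ?_, ?_⟩, hA⟩
  · exact cocBasic_mul_eq_one hA hB (cocBasic_neg h) fun p => add_neg_cancel _
  · exact cocBasic_mul_eq_one hB hA h fun p => neg_add_cancel _

theorem IsTwist.mul (hg : 3 ≤ g) {A B : Tw g} {i : ZMod (g + 3)} {κ κ' : PP → ℤ}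
    (h : IsTwist A i κ) (h' : IsTwist B i κ') (hκ : TwOK g i κ') :
    IsTwist (A * B) i fun p => κ p + κ' p := by
  have _ := hg
  exact cocBasic_mul h h' hκ

theorem cocBasic_inv_twist {A : (Tw g)ˣ} {i : ZMod (g + 3)} {κ : PP → ℤ}
    (h : IsTwist (A : Tw g) i κ) (hκ : TwOK g i κ) :
    IsTwist ((A⁻¹ : (Tw g)ˣ) : Tw g) i fun p => -κ p := by
  obtain ⟨B, hB⟩ := cocBasic_exists_tw i _ (cocBasic_neg hκ)
  have h1 : (A : Tw g) * B = 1 :=
    cocBasic_mul_eq_one h hB (cocBasic_neg hκ) fun p => add_neg_cancel _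
  rw [Units.inv_eq_of_mul_eq_one_right h1]
  exact hB

theorem IsTwist.zpow (hg : 3 ≤ g) {A : (Tw g)ˣ} {i : ZMod (g + 3)} {κ : PP → ℤ}
    (h : IsTwist (A : Tw g) i κ) (hκ : TwOK g i κ) (k : ℤ) :
    IsTwist ((A ^ k : (Tw g)ˣ) : Tw g) i fun p => κ p * k := by
  have _ := hg
  induction k using Int.induction_on with
  | zero =>
    simp only [zpow_zero, Units.val_one, mul_zero]
    exact cocBasic_one i
  | succ k ih =>
    have h3 := cocBasic_mul ih h hκ
    rw [zpow_add_one, Units.val_mul]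
    have e : (fun p => κ p * ((k : ℤ) + 1)) = fun p => κ p * (k : ℤ) + κ p := by
      funext p
      ring
    rw [e]
    exact h3
  | pred k ih =>
    have h3 := cocBasic_mul ih (cocBasic_inv_twist h hκ) (cocBasic_neg hκ)
    rw [zpow_sub_one, Units.val_mul]
    have e : (fun p => κ p * (-(k : ℤ) - 1)) = fun p => κ p * (-(k : ℤ)) + -κ p := by
      funext p
      ring
    rw [e]
    exact h3

theorem IsTwist.shift {A : Tw g} {i : ZMod (g + 3)} {κ : PP → ℤ} (h : IsTwist A i κ) (q : PP) :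
    IsTwist (Tw.shift q A) i fun p => κ (q * p) :=
  ⟨fun p => h.1 (q * p), fun p j hj => h.2 (q * p) j hj⟩

theorem IsTwist.unique {A B : Tw g} {i : ZMod (g + 3)} {κ : PP → ℤ} (h : IsTwist A i κ)
    (h' : IsTwist B i κ) : A = B :=
  cocBasic_unique h h'

theorem cocBasic_val (k : ℕ) (hk : k < g + 3) : ((k : ℕ) : ZMod (g + 3)).val = k := by
  rw [ZMod.val_natCast, Nat.mod_eq_of_lt hk]

theorem cocBasic_colg_zero : colg g ((0 : ℕ) : ZMod (g + 3)) = Multiplicative.ofAdd (0, 0, 1) := by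
  unfold colg
  rw [cocBasic_val 0 (by omega), if_pos (Or.inl rfl)]

theorem cocBasic_colg_t1 :
    colg g ((g + 1 : ℕ) : ZMod (g + 3)) = Multiplicative.ofAdd (0, 0, 1) := by
  unfold colg
  rw [cocBasic_val (g + 1) (by omega), if_pos (Or.inr rfl)]

theorem cocBasic_colg_t2 :
    colg g ((g + 2 : ℕ) : ZMod (g + 3)) = Multiplicative.ofAdd (1, 1, 1) := by
  unfold colg
  rw [cocBasic_val (g + 2) (by omega), if_neg (by omega), if_pos rfl]

theorem cocBasic_colg_odd (k : ℕ) (hk : k ≤ g) (h : k % 2 = 1) :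
    colg g ((k : ℕ) : ZMod (g + 3)) = Multiplicative.ofAdd (1, 0, 0) := by
  unfold colg
  rw [cocBasic_val k (by omega), if_neg (by omega), if_neg (by omega), if_pos h]

theorem cocBasic_colg_even (k : ℕ) (hk0 : k ≠ 0) (hk : k ≤ g) (h : k % 2 = 0) :
    colg g ((k : ℕ) : ZMod (g + 3)) = Multiplicative.ofAdd (0, 1, 0) := by
  unfold colg
  rw [cocBasic_val k (by omega), if_neg (by omega), if_neg (by omega), if_neg (by omega)]

theorem cocBasic_cast_pred (k : ℕ) :
    ((k + 1 : ℕ) : ZMod (g + 3)) - 1 = ((k : ℕ) : ZMod (g + 3)) := by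
  rw [Nat.cast_succ, add_sub_cancel_right]

theorem cocBasic_cast_succ (k : ℕ) :
    ((k : ℕ) : ZMod (g + 3)) + 1 = ((k + 1 : ℕ) : ZMod (g + 3)) :=
  (Nat.cast_succ k).symm

theorem cocBasic_col_ut (i : ZMod (g + 3)) : col g (ut i) = colg g (i - 1) * colg g (i + 1) := by
  unfold ut
  rw [map_mul, col_sg, col_sg]

theorem twOK_T (hg : 3 ≤ g) : TwOK g ((g + 2 : ℕ) : ZMod (g + 3)) (kapT 1) := by
  have _ := hg
  have e1 : ((g + 2 : ℕ) : ZMod (g + 3)) - 1 = ((g + 1 : ℕ) : ZMod (g + 3)) :=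
    cocBasic_cast_pred (g + 1)
  have e2 : ((g + 2 : ℕ) : ZMod (g + 3)) + 1 = ((0 : ℕ) : ZMod (g + 3)) := by
    rw [cocBasic_cast_succ, Nat.cast_zero]
    exact ZMod.natCast_self (g + 3)
  refine ⟨fun p => ?_, fun p => ?_⟩
  · rw [e1, e2, cocBasic_colg_zero, cocBasic_colg_t1, cocBasic_colg_t2]
    revert p
    decide
  · rw [map_zpow, cocBasic_col_ut, e1, e2, cocBasic_colg_zero, cocBasic_colg_t1, PP.mul_self,
      one_zpow]

theorem cocBasic_two (hg : 3 ≤ g) :
    colg g (((2 : ℕ) : ZMod (g + 3)) - 1) = Multiplicative.ofAdd (1, 0, 0) ∧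
    colg g ((2 : ℕ) : ZMod (g + 3)) = Multiplicative.ofAdd (0, 1, 0) ∧
    colg g (((2 : ℕ) : ZMod (g + 3)) + 1) = Multiplicative.ofAdd (1, 0, 0) := by
  refine ⟨?_, cocBasic_colg_even 2 (by omega) (by omega) rfl, ?_⟩
  · rw [cocBasic_cast_pred 1]
    exact cocBasic_colg_odd 1 (by omega) rfl
  · rw [cocBasic_cast_succ 2]
    exact cocBasic_colg_odd 3 hg rfl

theorem twOK_U (hg : 3 ≤ g) : TwOK g ((2 : ℕ) : ZMod (g + 3)) kapU := by
  obtain ⟨e1, e2, e3⟩ := cocBasic_two hg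
  refine ⟨fun p => ?_, fun p => ?_⟩
  · rw [e1, e2, e3]
    revert p
    decide
  · rw [map_zpow, cocBasic_col_ut, e1, e3, PP.mul_self, one_zpow]

theorem twOK_L (hg : 3 ≤ g) : TwOK g ((2 : ℕ) : ZMod (g + 3)) kapL := by
  obtain ⟨e1, e2, e3⟩ := cocBasic_two hg
  refine ⟨fun p => ?_, fun p => ?_⟩
  · rw [e1, e2, e3]
    revert p
    decide
  · rw [map_zpow, cocBasic_col_ut, e1, e3, PP.mul_self, one_zpow]

theorem twOK_M (hg : 3 ≤ g) : TwOK g ((1 : ℕ) : ZMod (g + 3)) kapM := by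
  have e1 : colg g (((1 : ℕ) : ZMod (g + 3)) - 1) = Multiplicative.ofAdd (0, 0, 1) := by
    rw [cocBasic_cast_pred 0]
    exact cocBasic_colg_zero
  have e2 : colg g ((1 : ℕ) : ZMod (g + 3)) = Multiplicative.ofAdd (1, 0, 0) :=
    cocBasic_colg_odd 1 (by omega) rfl
  have e3 : colg g (((1 : ℕ) : ZMod (g + 3)) + 1) = Multiplicative.ofAdd (0, 1, 0) := by
    rw [cocBasic_cast_succ 1]
    exact cocBasic_colg_even 2 (by omega) (by omega) rfl
  refine ⟨fun p => ?_, fun p => ?_⟩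
  · rw [e1, e2, e3]
    revert p
    decide
  · unfold kapM
    rw [map_zpow, zpow_mul, zpow_two, PP.mul_self, one_zpow]

theorem cocBasic_cj_apply (v : W (g + 3)) (γ : piG g) :
    ((cj g v γ : piG g) : W (g + 3)) = v * γ * v⁻¹ :=
  MulAut.conjNormal_apply v γ

theorem cocBasic_cj_conj (γ : piG g) : cj g γ = MulAut.conj γ := by
  ext δ
  rw [cocBasic_cj_apply]
  simp

theorem cocBasic_oc_eq_iff (φ ψ : MulAut (piG g)) :
    oc g φ = oc g ψ ↔ ∃ v ∈ piG g, φ = cj g v * ψ := by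
  unfold oc
  rw [QuotientGroup.mk'_apply, QuotientGroup.mk'_apply, QuotientGroup.eq_iff_div_mem]
  constructor
  · rintro ⟨γ, hγ⟩
    refine ⟨γ, γ.2, ?_⟩
    rw [cocBasic_cj_conj, hγ, div_mul_cancel]
  · rintro ⟨v, hv, rfl⟩
    refine ⟨⟨v, hv⟩, ?_⟩
    rw [mul_div_cancel_right]
    exact (cocBasic_cj_conj (⟨v, hv⟩ : piG g)).symm

/-- Conjugating by `v` shifts the initial state by the colour of `v`. -/
theorem oc_res_cj (A : (Tw g)ˣ) (v : W (g + 3)) :
    oc g (Tw.res g A) * oc g (cj g v) =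
      oc g (cj g v) * oc g (Tw.res g (Units.map (Tw.shift (col g v)) A)) := by
  rw [← map_mul, ← map_mul, cocBasic_oc_eq_iff]
  refine ⟨(A : Tw g).F 1 v * v⁻¹, ?_, ?_⟩
  · change col g _ = 1
    rw [map_mul, Tw.col_F, map_inv, mul_inv_cancel]
  · ext γ
    have hγ : col g γ = 1 := γ.2
    rw [MulAut.mul_apply, MulAut.mul_apply, MulAut.mul_apply, Tw.res_apply, cocBasic_cj_apply,
      cocBasic_cj_apply, cocBasic_cj_apply, Tw.res_apply]
    have e : ((Units.map (Tw.shift (col g v)) A : (Tw g)ˣ) : Tw g).F 1 γ =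
        (A : Tw g).F (col g v * 1) γ := rfl
    rw [e, Tw.mul, Tw.mul, Tw.F_inv, map_mul, hγ, one_mul, one_mul, mul_one, PP.mul_self]
    group

theorem oc_cj_of_mem (v : W (g + 3)) (hv : v ∈ piG g) : oc g (cj g v) = 1 := by
  rw [← map_one (oc g), cocBasic_oc_eq_iff]
  exact ⟨v, hv, (mul_one _).symm⟩

theorem oc_cj_eq (v v' : W (g + 3)) (h : col g v = col g v') :
    oc g (cj g v) = oc g (cj g v') := by
  rw [cocBasic_oc_eq_iff]
  refine ⟨v * v'⁻¹, ?_, ?_⟩
  · change col g _ = 1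
    rw [map_mul, map_inv, h, mul_inv_cancel]
  · rw [← map_mul, inv_mul_cancel_right]

theorem oc_eq_iff (φ ψ : MulAut (piG g)) :
    oc g φ = oc g ψ ↔ ∃ v ∈ piG g, φ = cj g v * ψ :=
  cocBasic_oc_eq_iff φ ψ

end Pool.Agent.Lib.MP_66609f_al
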