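import Pool.Agent.Lib.MP_66609f_al.HalfBasic

namespace Pool.Agent.Lib.MP_66609f_al

open Pointwise

namespace HS

variable {X : Type*} (Z : HS X)

variable {Γ : Type*} [Group Γ] [MulAction Γ X]

theorem halfPos_ncard (hΓ : Z.Inv Γ) (a : Γ) (P Q : Set X → Prop) (h : ∀ A, Q (a • A) ↔ P A) :
    {A | A ∈ Z.H ∧ Q A}.ncard = {A | A ∈ Z.H ∧ P A}.ncard := by
  rw [← Set.ncard_image_of_injective {A | A ∈ Z.H ∧ P A} (MulAction.injective a)]
  congr 1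
  ext A
  constructor
  · rintro ⟨h1, h2⟩
    exact ⟨a⁻¹ • A, ⟨hΓ _ _ h1, (h _).1 (by rwa [smul_inv_smul])⟩, smul_inv_smul _ _⟩
  · rintro ⟨B, ⟨h1, h2⟩, rfl⟩
    exact ⟨hΓ _ _ h1, (h _).2 h2⟩

theorem d_smul (hΓ : Z.Inv Γ) (a : Γ) (u v : X) : Z.d (a • u) (a • v) = Z.d u v :=
  Z.halfPos_ncard hΓ a (fun A => u ∈ A ∧ v ∉ A) (fun A => a • u ∈ A ∧ a • v ∉ A) fun A => by
    simp only [Set.smul_mem_smul_set_iff]

theorem gp_smul (hΓ : Z.Inv Γ) (a : Γ) (x z y : X) :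
    Z.gp (a • x) (a • z) (a • y) = Z.gp x z y :=
  Z.halfPos_ncard hΓ a (fun A => y ∈ A ∧ x ∉ A ∧ z ∉ A)
    (fun A => a • y ∈ A ∧ a • x ∉ A ∧ a • z ∉ A) fun A => by
      simp only [Set.smul_mem_smul_set_iff]

theorem halfPos_ssubset (w : Γ) {A B : Set X} (h : A ⊂ B) : w • A ⊂ w • B :=
  ⟨Set.smul_set_mono h.1, fun h' => h.2 (Set.smul_set_subset_smul_set_iff.1 h')⟩

theorem zpow_smul_ssubset {a : Γ} {A : Set X} (h : Z.Skew a A) {k l : ℤ} (hkl : k < l) :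
    a ^ l • A ⊂ a ^ k • A := by
  have : StrictAnti fun k : ℤ => a ^ k • A := strictAnti_int_of_succ_lt fun n => by
    show a ^ (n + 1) • A ⊂ a ^ n • A
    rw [zpow_add_one, mul_smul]
    exact halfPos_ssubset _ h.2
  exact this hkl

theorem halfPos_subset {a : Γ} {A : Set X} (h : Z.Skew a A) {k l : ℤ} (hkl : k ≤ l) :
    a ^ l • A ⊆ a ^ k • A := by
  rcases hkl.eq_or_lt with rfl | hkl
  · exact subset_rfl
  · exact (Z.zpow_smul_ssubset h hkl).1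

theorem halfPos_inj {a : Γ} {A : Set X} (h : Z.Skew a A) {k l : ℤ}
    (e : a ^ k • A = a ^ l • A) : k = l := by
  rcases lt_trichotomy k l with hkl | hkl | hkl
  · exact absurd e.symm (Z.zpow_smul_ssubset h hkl).ne
  · exact hkl
  · exact absurd e (Z.zpow_smul_ssubset h hkl).ne

theorem mem_iff_le_pos (hΓ : Z.Inv Γ) {a : Γ} {A : Set X} (h : Z.Skew a A) (z : X) (k : ℤ) :
    z ∈ a ^ k • A ↔ k ≤ pos a A z := by
  have hne : {k : ℤ | z ∈ a ^ k • A}.Nonempty := by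
    by_contra hc
    obtain ⟨u, hu⟩ := Z.nonempty A h.1
    refine Set.infinite_of_injective_forall_mem (f := fun n : ℕ => a ^ (-(n : ℤ)) • A)
      (fun s t e => by have := Z.halfPos_inj h e; omega) (fun n => ?_) (Z.fin u z)
    refine ⟨hΓ _ _ h.1, Z.halfPos_subset h (show -(n : ℤ) ≤ 0 by omega) ?_, fun hz => hc ⟨_, hz⟩⟩
    rwa [zpow_zero, one_smul]
  have hbd : BddAbove {k : ℤ | z ∈ a ^ k • A} := by
    by_contra hc
    rw [not_bddAbove_iff] at hc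
    obtain ⟨v, hv⟩ := Z.nonempty Aᶜ (Z.compl_mem _ h.1)
    refine Set.infinite_of_injective_forall_mem (f := fun n : ℕ => a ^ (n : ℤ) • A)
      (fun s t e => by have := Z.halfPos_inj h e; omega) (fun n => ?_) (Z.fin z v)
    obtain ⟨l, hl, hnl⟩ := hc n
    refine ⟨hΓ _ _ h.1, Z.halfPos_subset h hnl.le hl, fun hz => hv ?_⟩
    have := Z.halfPos_subset h (show (0 : ℤ) ≤ n by omega) hz
    rwa [zpow_zero, one_smul] at this
  exact ⟨fun hz => le_csSup hbd hz, fun hk => Z.halfPos_subset h hk (Int.csSup_mem hne hbd)⟩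

theorem pos_zpow_smul (hΓ : Z.Inv Γ) {a : Γ} {A : Set X} (h : Z.Skew a A) (z : X) (k : ℤ) :
    pos a A (a ^ k • z) = pos a A z + k := by
  refine eq_of_forall_le_iff fun j => ?_
  have e : a ^ j • A = a ^ k • a ^ (j - k) • A := by
    rw [smul_smul, ← zpow_add, add_sub_cancel]
  rw [← Z.mem_iff_le_pos hΓ h, e, Set.smul_mem_smul_set_iff, Z.mem_iff_le_pos hΓ h]
  omega

theorem skew_conj (hΓ : Z.Inv Γ) {a : Γ} {A : Set X} (h : Z.Skew a A) (w : Γ) :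
    Z.Skew (w * a * w⁻¹) (w • A) := by
  refine ⟨hΓ _ _ h.1, ?_⟩
  rw [mul_smul, inv_smul_smul, mul_smul]
  exact halfPos_ssubset _ h.2

theorem pos_conj (a : Γ) (A : Set X) (w : Γ) (z : X) :
    pos (w * a * w⁻¹) (w • A) (w • z) = pos a A z := by
  unfold pos
  congr 1
  ext k
  rw [Set.mem_ofPred_eq, Set.mem_ofPred_eq, conj_zpow, mul_smul, inv_smul_smul, mul_smul,
    Set.smul_mem_smul_set_iff]

theorem skew_inv (hΓ : Z.Inv Γ) {a : Γ} {A : Set X} (h : Z.Skew a A) : Z.Skew a⁻¹ Aᶜ := by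
  have _ := hΓ
  refine ⟨Z.compl_mem _ h.1, ?_⟩
  have h1 := Z.zpow_smul_ssubset h (show (-1 : ℤ) < 0 by omega)
  rw [zpow_zero, one_smul, zpow_neg_one] at h1
  rw [Set.smul_set_compl]
  exact ⟨Set.compl_subset_compl.2 h1.1, fun h' => h1.2 (Set.compl_subset_compl.1 h')⟩

theorem skew_pow {a : Γ} {A : Set X} (h : Z.Skew a A) (m : ℕ) (hm : 0 < m) :
    Z.Skew (a ^ m) A := by
  refine ⟨h.1, ?_⟩
  have h1 := Z.zpow_smul_ssubset h (show (0 : ℤ) < m by omega)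
  rwa [zpow_zero, one_smul, zpow_natCast] at h1

theorem pos_pow (hΓ : Z.Inv Γ) {a : Γ} {A : Set X} (h : Z.Skew a A) (m : ℕ) (hm : 0 < m)
    (z : X) : pos (a ^ m) A z = pos a A z / (m : ℤ) := by
  refine eq_of_forall_le_iff fun j => ?_
  rw [← Z.mem_iff_le_pos hΓ (Z.skew_pow h m hm), ← zpow_natCast, ← zpow_mul,
    Z.mem_iff_le_pos hΓ h, Int.le_ediv_iff_mul_le (by omega), mul_comm]

theorem eventually_mem (hΓ : Z.Inv Γ) {a : Γ} {A : Set X} (h : Z.Skew a A) (z : X) :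
    ∀ᶠ N : ℕ in Filter.atTop, a ^ N • z ∈ A := by
  filter_upwards [Filter.eventually_ge_atTop (pos a A z).natAbs] with N hN
  have h1 := Z.mem_iff_le_pos hΓ h (a ^ (N : ℤ) • z) 0
  rw [zpow_zero, one_smul, Z.pos_zpow_smul hΓ h, zpow_natCast] at h1
  exact h1.2 (by omega)

theorem halfPos_cross_smul (a : Γ) {B C : Set X} (h : Cross B C) : Cross (a • B) (a • C) := by
  obtain ⟨⟨x1, h1⟩, ⟨x2, h2⟩, ⟨x3, h3⟩, ⟨x4, h4⟩⟩ := h
  refine ⟨⟨a • x1, ?_⟩, ⟨a • x2, ?_⟩, ⟨a • x3, ?_⟩, ⟨a • x4, ?_⟩⟩ <;>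
    simp only [Set.mem_inter_iff, Set.mem_compl_iff, Set.smul_mem_smul_set_iff] at * <;>
    assumption

theorem halfPos_ne (hΓ : Z.Inv Γ) {a : Γ} {A : Set X} (h : Z.Skew a A) (k : ℤ) :
    ¬ (a ^ k • A = a ^ (k + 1) • A ∨ a ^ k • A = (a ^ (k + 1) • A)ᶜ) := by
  rintro (e | e)
  · have := Z.halfPos_inj h e
    omega
  · obtain ⟨x, hx⟩ := Z.nonempty _ (hΓ (a ^ (k + 1)) _ h.1)
    have := Z.halfPos_subset h (show k ≤ k + 1 by omega) hx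
    rw [e] at this
    exact this hx

theorem halfPos_branch (hΓ : Z.Inv Γ) {a : Γ} {A : Set X} (h : Z.Skew a A) (B : Set X)
    (hB : B ∈ Z.H) (hd : Disjoint (a • B) B) (hw : ∃ w, w ∉ B ∧ w ∉ a • B) (u u' : X) (hu : u ∈ B)
    (hu' : u' ∈ B) : pos a A u ≤ pos a A u' + 2 := by
  by_contra hc
  have hcr : ∀ i, pos a A u' < i → i ≤ pos a A u → Cross B (a ^ i • A) := fun i h1 h2 => by
    refine ⟨⟨u, hu, (Z.mem_iff_le_pos hΓ h _ _).2 h2⟩, ⟨u', hu', ?_⟩, ⟨a ^ (1 : ℤ) • u, ?_, ?_⟩,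
      ⟨a ^ (-1 : ℤ) • u', ?_, ?_⟩⟩
    · rw [Set.mem_compl_iff, Z.mem_iff_le_pos hΓ h]; omega
    · rw [zpow_one]
      exact Set.disjoint_left.1 hd (Set.smul_mem_smul_set hu)
    · rw [Z.mem_iff_le_pos hΓ h, Z.pos_zpow_smul hΓ h]; omega
    · rw [zpow_neg_one]
      exact fun h3 => Set.disjoint_left.1 hd (Set.mem_smul_set_iff_inv_smul_mem.2 h3) hu'
    · rw [Set.mem_compl_iff, Z.mem_iff_le_pos hΓ h, Z.pos_zpow_smul hΓ h]; omega
  have hcr' : ∀ i, pos a A u' + 1 < i → i ≤ pos a A u + 1 → Cross (a • B) (a ^ i • A) :=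
    fun i h1 h2 => by
      have := halfPos_cross_smul a (hcr (i - 1) (by omega) (by omega))
      rwa [smul_smul, ← zpow_one_add, add_sub_cancel] at this
  rcases Z.k22 B hB (a • B) (hΓ _ _ hB) _ (hΓ (a ^ (pos a A u' + 2)) _ h.1) _
    (hΓ (a ^ (pos a A u' + 2 + 1)) _ h.1) (hcr _ (by omega) (by omega))
    (hcr _ (by omega) (by omega)) (hcr' _ (by omega) (by omega)) (hcr' _ (by omega) (by omega))
    with (e | e) | e
  · exact Set.disjoint_left.1 hd (e ▸ hu) hu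
  · obtain ⟨w, hw1, hw2⟩ := hw
    exact hw1 (e ▸ hw2)
  · exact Z.halfPos_ne hΓ h _ e

/-- A half-space disjoint from its translate meets few slabs. -/
theorem branch (hΓ : Z.Inv Γ) {a : Γ} {A : Set X} (h : Z.Skew a A) (B : Set X) (hB : B ∈ Z.H)
    (hd : Disjoint (a • B) B) (hw : ∃ w, w ∉ B ∧ w ∉ a • B) (u u' : X) (hu : u ∈ B)
    (hu' : u' ∈ B) : |pos a A u - pos a A u'| ≤ 2 := by
  have h1 := Z.halfPos_branch hΓ h B hB hd hw u u' hu hu'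
  have h2 := Z.halfPos_branch hΓ h B hB hd hw u' u hu' hu
  rw [abs_le]
  omega

theorem cross_of_fixed (hΓ : Z.Inv Γ) {a : Γ} {A : Set X} (h : Z.Skew a A) (B : Set X)
    (hB : B ∈ Z.H) (hf : a • B = B) (k : ℤ) : Cross B (a ^ k • A) := by
  have hj : ∀ (j : ℤ) (x : X), a ^ j • x ∈ B ↔ x ∈ B := fun j x => by
    have e : a ^ j • B = B :=
      (MulAction.stabilizer Γ B).zpow_mem (MulAction.mem_stabilizer_iff.2 hf) j
    rw [← Set.smul_mem_smul_set_iff (a := a ^ j) (x := x), e]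
  obtain ⟨u, hu⟩ := Z.nonempty B hB
  obtain ⟨v, hv⟩ := Z.nonempty Bᶜ (Z.compl_mem _ hB)
  refine ⟨⟨a ^ (k - pos a A u) • u, (hj _ _).2 hu, ?_⟩,
    ⟨a ^ (k - 1 - pos a A u) • u, (hj _ _).2 hu, ?_⟩,
    ⟨a ^ (k - pos a A v) • v, fun h1 => hv ((hj _ _).1 h1), ?_⟩,
    ⟨a ^ (k - 1 - pos a A v) • v, fun h1 => hv ((hj _ _).1 h1), ?_⟩⟩
  · rw [Z.mem_iff_le_pos hΓ h, Z.pos_zpow_smul hΓ h]; omega
  · rw [Set.mem_compl_iff, Z.mem_iff_le_pos hΓ h, Z.pos_zpow_smul hΓ h]; omega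
  · rw [Z.mem_iff_le_pos hΓ h, Z.pos_zpow_smul hΓ h]; omega
  · rw [Set.mem_compl_iff, Z.mem_iff_le_pos hΓ h, Z.pos_zpow_smul hΓ h]; omega

/-- At most one wall is fixed by an element that skewers a half-space. -/
theorem fixed_unique (hΓ : Z.Inv Γ) {a : Γ} {A : Set X} (h : Z.Skew a A) (B B' : Set X)
    (hB : B ∈ Z.H) (hB' : B' ∈ Z.H) (hf : a • B = B) (hf' : a • B' = B') :
    B = B' ∨ B = B'ᶜ :=
  (Z.k22 B hB B' hB' _ (hΓ (a ^ (0 : ℤ)) _ h.1) _ (hΓ (a ^ (0 + 1 : ℤ)) _ h.1)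
    (Z.cross_of_fixed hΓ h B hB hf _) (Z.cross_of_fixed hΓ h B hB hf _)
    (Z.cross_of_fixed hΓ h B' hB' hf' _) (Z.cross_of_fixed hΓ h B' hB' hf' _)).resolve_right
      (Z.halfPos_ne hΓ h 0)

end HS

end Pool.Agent.Lib.MP_66609f_al
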