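import Pool.Agent.Lib.MP_66609f_al.CoxHS
import Pool.Agent.Lib.MP_66609f_al.HalfPos

namespace Pool.Agent.Lib.MP_66609f_al

open Pointwise

variable {n : ℕ}

theorem coxCent_cast (hn : 5 ≤ n) (k : ℕ) (h0 : 0 < k) (hk : k < 5) : (k : ZMod n) ≠ 0 := by
  intro h
  have h1 : n ∣ k := (ZMod.natCast_eq_zero_iff k n).1 h
  have h2 := Nat.le_of_dvd h0 h1
  omega

theorem coxCent_ne0 (hn : 5 ≤ n) (i : ZMod n) : i - 1 ≠ i + 1 := by
  intro h
  apply coxCent_cast hn 2 (by norm_num) (by norm_num)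
  push_cast
  linear_combination -h

theorem coxCent_ne1 (hn : 5 ≤ n) (i : ZMod n) : i - 1 ≠ i + 1 + 1 := by
  intro h
  apply coxCent_cast hn 3 (by norm_num) (by norm_num)
  push_cast
  linear_combination -h

theorem coxCent_ne2 (hn : 5 ≤ n) (i : ZMod n) : i + 1 ≠ i - 1 + 1 := by
  intro h
  apply coxCent_cast hn 1 (by norm_num) (by norm_num)
  push_cast
  linear_combination h

theorem coxCent_dih {G : Type*} [Group G] (x c : G) (h : c * x⁻¹ = x * c) (j : ℤ) :
    x ^ (2 * j) * c = x ^ j * c * (x ^ j)⁻¹ := by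
  have h1 : SemiconjBy c x⁻¹ x := h
  have h2 : c * x⁻¹ ^ j = x ^ j * c := h1.zpow_right j
  rw [inv_zpow] at h2
  rw [mul_assoc, h2, ← mul_assoc, ← zpow_add, two_mul]

theorem coxCent_comm_left (i : ZMod n) : Commute (sg (i - 1)) (sg i) := by
  have h := sg_comm (i - 1)
  rwa [sub_add_cancel] at h

theorem coxCent_comm_ut (i : ZMod n) : Commute (ut i) (sg i) :=
  (coxCent_comm_left i).mul_left (sg_comm i).symm

/-- Involutions commuting with a generator. -/
theorem coxCent_invol_star (hn : 5 ≤ n) (w : W n) (h : w * w = 1) (h1 : w ≠ 1) (i : ZMod n)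
    (hc : Commute w (sg i)) :
    ∃ (v : W n) (i : ZMod n), w = v * sg i * v⁻¹ ∨ w = v * (sg i * sg (i + 1)) * v⁻¹ := by
  obtain ⟨d, hd, hw⟩ := mem_star_cases i w (mem_star_of_commute i w hc)
  have hdd : d * d = 1 := by
    rcases hw with hw | hw
    · rw [← hw]
      exact h
    · have e : d = w * sg i := by rw [hw, mul_assoc, sg_mul_self, mul_one]
      rw [e, mul_assoc, ← mul_assoc (sg i), ← hc.eq, mul_assoc, sg_mul_self, mul_one, h]
  obtain ⟨k, hk | hk⟩ := mem_WJ_pair (i - 1) (i + 1) d hd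
  · have hk0 : k = 0 := by
      by_contra hk0
      apply zpow_nonadj_ne_one (coxCent_ne0 hn i) (coxCent_ne1 hn i) (coxCent_ne2 hn i) (k + k)
        (by omega)
      rw [zpow_add, ← hk, hdd]
    rw [hk0, zpow_zero] at hk
    rcases hw with hw | hw
    · exact absurd (hw.trans hk) h1
    · exact ⟨1, i, Or.inl (by rw [hw, hk]; simp)⟩
  · have hv : ∀ j : ℤ, Commute ((sg (i - 1) * sg (i + 1)) ^ j)⁻¹ (sg i) := fun j =>
      ((coxCent_comm_ut i).zpow_left j).inv_left
    obtain ⟨j, hj | hj⟩ := Int.even_or_odd' k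
    · have e : d = (sg (i - 1) * sg (i + 1)) ^ j * sg (i + 1) *
          ((sg (i - 1) * sg (i + 1)) ^ j)⁻¹ := by
        rw [hk, hj]
        apply coxCent_dih
        rw [mul_inv_rev, sg_inv, sg_inv, ← mul_assoc, sg_mul_self, one_mul, mul_assoc,
          sg_mul_self, mul_one]
      rcases hw with hw | hw
      · exact ⟨_, i + 1, Or.inl (hw.trans e)⟩
      · refine ⟨(sg (i - 1) * sg (i + 1)) ^ j, i, Or.inr ?_⟩
        rw [hw, e, mul_assoc, (hv j).eq, (sg_comm i).eq]
        simp only [mul_assoc]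
    · have e : d = (sg (i - 1) * sg (i + 1)) ^ j * sg (i - 1) *
          ((sg (i - 1) * sg (i + 1)) ^ j)⁻¹ := by
        rw [hk, hj, zpow_add, zpow_one, mul_assoc, mul_assoc, sg_mul_self, mul_one]
        apply coxCent_dih
        rw [mul_inv_rev, sg_inv, sg_inv, mul_assoc]
      rcases hw with hw | hw
      · exact ⟨_, i - 1, Or.inl (hw.trans e)⟩
      · refine ⟨(sg (i - 1) * sg (i + 1)) ^ j, i - 1, Or.inr ?_⟩
        rw [hw, e, mul_assoc, (hv j).eq, sub_add_cancel]
        simp only [mul_assoc]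

/-- Classification of involutions. -/
theorem invol_conj (hn : 5 ≤ n) (w : W n) (h : w * w = 1) (h1 : w ≠ 1) :
    ∃ (v : W n) (i : ZMod n), w = v * sg i * v⁻¹ ∨ w = v * (sg i * sg (i + 1)) * v⁻¹ := by
  have key : ∀ N : ℕ, ∀ w : W n, len w = N → w * w = 1 → w ≠ 1 →
      ∃ (v : W n) (i : ZMod n), w = v * sg i * v⁻¹ ∨ w = v * (sg i * sg (i + 1)) * v⁻¹ := by
    intro N
    induction N using Nat.strong_induction_on with
    | _ N ih =>
      intro w hN h h1
      obtain ⟨i, hi⟩ := exists_descent w h1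
      by_cases hc : sg i = w * sg i * w⁻¹
      · apply coxCent_invol_star hn w h h1 i
        have e : w * sg i = sg i * w := by
          rw [eq_mul_inv_iff_mul_eq] at hc
          exact hc.symm
        exact e
      · have hwi : w⁻¹ = w := inv_eq_of_mul_eq_one_right h
        have e1 := len_sg_mul w i hi
        have e2 : side (sg i) (w * sg i) = true := by rw [side_mul_sg _ _ _ hc, hi]
        have e3 := len_sg_mul (w * sg i) i e2
        have e4 : len (w * sg i) = len (sg i * w) := by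
          rw [← len_inv, mul_inv_rev, sg_inv, hwi]
        have hw : w = sg i * (sg i * (w * sg i)) * (sg i)⁻¹ := by
          rw [← mul_assoc, sg_mul_self, one_mul, mul_inv_cancel_right]
        obtain ⟨v, j, hv⟩ := ih (len (sg i * (w * sg i))) (by omega) (sg i * (w * sg i)) rfl
          (by
            have e : sg i * (w * sg i) * (sg i * (w * sg i)) =
                sg i * (w * (sg i * sg i) * w) * sg i := by simp only [mul_assoc]
            rw [e, sg_mul_self, mul_one, h, mul_one, sg_mul_self])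
          (by
            intro e
            apply h1
            rw [hw, e, mul_one, mul_inv_cancel])
        refine ⟨sg i * v, j, ?_⟩
        rcases hv with hv | hv
        · left
          rw [hw, hv]
          group
        · right
          rw [hw, hv]
          group
  exact key _ w rfl h h1

theorem ut_skew (hn : 5 ≤ n) (i : ZMod n) :
    (coxHS n hn).Skew (ut i) (half (sg (i - 1)) true) := by
  refine ⟨⟨i - 1, sg (i - 1), true, ⟨1, by simp⟩, rfl⟩, ?_⟩
  exact nonadj_ssubset (coxCent_ne0 hn i) (coxCent_ne1 hn i) (coxCent_ne2 hn i)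

theorem coxCent_sq_fix (g t : W n) (h : Commute g t) (b : Bool) :
    g ^ 2 • half t b = half t b := by
  have e : g * t * g⁻¹ = t := by rw [h.eq, mul_inv_cancel_right]
  rw [pow_two, mul_smul, smul_half, e, smul_half, e]
  cases b <;> cases side t g <;> rfl

/-- The only wall preserved by a power of `ut i` is the wall of `i`. -/
theorem refl_eq_of_commute_ut (hn : 5 ≤ n) (i : ZMod n) (m : ℤ) (hm : m ≠ 0) (t : W n)
    (ht : IsRefl t) (h : Commute (ut i ^ m) t) : t = sg i := by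
  have hk : 0 < m.natAbs := Int.natAbs_pos.2 hm
  have h' : Commute (ut i ^ m.natAbs) t := by
    rcases Int.natAbs_eq m with e | e
    · rw [e, zpow_natCast] at h
      exact h
    · rw [e, zpow_neg, zpow_natCast] at h
      have h2 := h.inv_left
      rwa [inv_inv] at h2
  have hs := (coxHS n hn).skew_pow ((coxHS n hn).skew_pow (ut_skew hn i) _ hk) 2 (by norm_num)
  have hsi : IsRefl (sg i) := ⟨i, 1, by simp⟩
  obtain ⟨j, hj⟩ := ht
  have hB : half t true ∈ (coxHS n hn).H := ⟨j, t, true, hj, rfl⟩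
  have hB' : half (sg i) true ∈ (coxHS n hn).H := ⟨i, sg i, true, ⟨1, by simp⟩, rfl⟩
  rcases (coxHS n hn).fixed_unique (coxHS_inv hn) hs _ _ hB hB' (coxCent_sq_fix _ _ h' true)
    (coxCent_sq_fix _ _ ((coxCent_comm_ut i).pow_left _) true) with e | e
  · exact (half_inj ⟨j, hj⟩ hsi e).1
  · rw [half_compl] at e
    exact (half_inj ⟨j, hj⟩ hsi e).1

theorem mem_star_of_commute_ut (hn : 5 ≤ n) (i : ZMod n) (m : ℤ) (hm : m ≠ 0) (w : W n)
    (h : Commute (ut i ^ m) w) : w ∈ WJ {i - 1, i, i + 1} := by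
  have h1 : Commute (ut i ^ m) (w * sg i * w⁻¹) :=
    (h.mul_right ((coxCent_comm_ut i).zpow_left m)).mul_right h.inv_right
  have h2 := refl_eq_of_commute_ut hn i m hm _ ⟨i, w, rfl⟩ h1
  apply mem_star_of_commute
  rw [mul_inv_eq_iff_eq_mul] at h2
  exact h2

/-- The walls of a type in `J` that separate `1` from `a`. -/
def coxCent_S (J : Set (ZMod n)) (a : W n) : Set (W n) :=
  {t | side t a = true ∧ ∃ i ∈ J, IsReflOf i t}

theorem coxCent_S_finite (J : Set (ZMod n)) (a : W n) : (coxCent_S J a).Finite :=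
  (invSet_finite a).subset fun _ ht => ht.1

theorem coxCent_conj {i : ZMod n} {t : W n} (h : IsReflOf i t) (w : W n) :
    IsReflOf i (w * t * w⁻¹) := by
  obtain ⟨v, rfl⟩ := h
  exact ⟨w * v, by group⟩

theorem coxCent_side_false (J : Set (ZMod n)) (b : W n) (hb : b ∈ WJ Jᶜ) (t : W n) (i : ZMod n)
    (hi : i ∈ J) (ht : IsReflOf i t) : side t b = false := by
  cases e : side t b
  · rfl
  · exact absurd hi ((mem_WJ_iff Jᶜ b).1 hb t i e ht)

theorem coxCent_conj_inj (b : W n) (S : Set (W n)) :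
    Set.InjOn (fun t : W n => b * t * b⁻¹) S := by
  intro x _ y _ e
  have e' : b * x * b⁻¹ = b * y * b⁻¹ := e
  exact mul_left_cancel (mul_right_cancel e')

theorem coxCent_card_conj (J : Set (ZMod n)) (a b : W n) (hb : b ∈ WJ Jᶜ) :
    (coxCent_S J (b⁻¹ * a * b)).ncard ≤ (coxCent_S J a).ncard := by
  refine Set.ncard_le_ncard_of_injOn (fun t : W n => b * t * b⁻¹) ?_ (coxCent_conj_inj b _)
    (coxCent_S_finite J a)
  rintro t ⟨ht, i, hi, hti⟩
  refine ⟨?_, i, hi, coxCent_conj hti b⟩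
  have e1 : side t b⁻¹ = false := coxCent_side_false J _ (inv_mem hb) t i hi hti
  have e2 : side (a⁻¹ * (b * t * b⁻¹) * a) b = false := by
    refine coxCent_side_false J _ hb _ i hi ?_
    have e := coxCent_conj (coxCent_conj hti b) a⁻¹
    rwa [inv_inv] at e
  rw [mul_assoc, side_mul, e1, inv_inv, side_mul, e2] at ht
  simpa using ht

theorem coxCent_card_lt (J : Set (ZMod n)) (a : W n) (i : ZMod n) (hi : i ∈ J)
    (h1 : side (sg i) a = true) (h2 : sg i ≠ a * sg i * a⁻¹)
    (h3 : side (a * sg i * a⁻¹) a = true) :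
    (coxCent_S J ((sg i)⁻¹ * a * sg i)).ncard < (coxCent_S J a).ncard := by
  have hm : sg i ∈ coxCent_S J a := ⟨h1, i, hi, 1, by simp⟩
  refine lt_of_le_of_lt ?_ (Set.ncard_sdiff_singleton_lt_of_mem hm (coxCent_S_finite J a))
  refine Set.ncard_le_ncard_of_injOn (fun t : W n => sg i * t * (sg i)⁻¹) ?_
    (coxCent_conj_inj _ _) ((coxCent_S_finite J a).subset Set.sdiff_subset)
  rintro t ⟨ht, j, hj, htj⟩
  rw [mul_assoc, side_mul, inv_inv] at ht
  have hne : sg i * t * (sg i)⁻¹ ≠ sg i := by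
    intro e
    have e' : t = sg i := by
      rw [mul_inv_eq_iff_eq_mul] at e
      exact mul_left_cancel e
    rw [e, side_mul_sg _ _ _ h2, h1, sg_inv, (side_sg t i).2 e'] at ht
    simp at ht
  refine ⟨⟨?_, j, hj, coxCent_conj htj _⟩, hne⟩
  by_cases e : sg i * t * (sg i)⁻¹ = a * sg i * a⁻¹
  · show side (sg i * t * (sg i)⁻¹) a = true
    rw [e, h3]
  · have e2 : side t (sg i)⁻¹ = false := by
      rw [sg_inv]
      cases e3 : side t (sg i)
      · rfl
      · exfalso
        apply hne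
        rw [(side_sg t i).1 e3, mul_inv_cancel_right]
    rw [side_mul_sg _ _ _ e, e2] at ht
    show side (sg i * t * (sg i)⁻¹) a = true
    simpa using ht

theorem coxCent_skew (hn : 5 ≤ n) (a : W n) (i : ZMod n)
    (h1 : side (sg i) a = true) (h2 : sg i ≠ a * sg i * a⁻¹)
    (h3 : side (a * sg i * a⁻¹) a = false) : (coxHS n hn).Skew a (half (sg i) true) := by
  have hB : IsHalfOf i (half (sg i) true) := ⟨sg i, true, ⟨1, by simp⟩, rfl⟩
  have hA : IsHalfOf i (half (a * sg i * a⁻¹) true) := ⟨_, true, ⟨a, rfl⟩, rfl⟩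
  refine ⟨⟨i, hB⟩, ?_⟩
  have e : a • half (sg i) true = half (a * sg i * a⁻¹) true := by
    rw [smul_half, h3]
    rfl
  rw [e]
  have ha1 : a ∉ half (a * sg i * a⁻¹) true := by
    intro h
    have h' : side (a * sg i * a⁻¹) a = true := h
    rw [h3] at h'
    exact Bool.false_ne_true h'
  have ha2 : a ∈ half (sg i) true := h1
  have hone : ∀ t : W n, (1 : W n) ∉ half t true := by
    intro t h
    have h' : side t 1 = true := h
    rw [side_one] at h'
    exact Bool.false_ne_true h'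
  refine ⟨fun x hx => ?_, fun h => ha1 (h ha2)⟩
  by_contra hx'
  refine not_cross_same hn hA hB ⟨⟨a * sg i, ?_, ?_⟩, ⟨x, hx, hx'⟩, ⟨a, ha1, ha2⟩,
    ⟨1, hone _, hone _⟩⟩
  · show side (a * sg i * a⁻¹) (a * sg i) = true
    rw [side_mul_sg_self, h3]
    rfl
  · show side (sg i) (a * sg i) = true
    rw [side_mul_sg _ _ _ h2, h1]

/-- An element either skewers a half-space of a type in `J` or fixes a region. -/
theorem skew_or_elliptic (hn : 5 ≤ n) (J : Set (ZMod n)) (a : W n)
    (ha : ∀ (w : W n) (i : ZMod n), i ∈ J → Commute (w⁻¹ * a * w) (sg i) →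
      side (sg i) (w⁻¹ * a * w) = false) :
    (∃ i ∈ J, ∃ A, IsHalfOf i A ∧ (coxHS n hn).Skew a A) ∨ ∃ w : W n, w⁻¹ * a * w ∈ WJ Jᶜ := by
  obtain ⟨w, hw⟩ : ∃ w : W n, ∀ v : W n,
      (coxCent_S J (w⁻¹ * a * w)).ncard ≤ (coxCent_S J (v⁻¹ * a * v)).ncard :=
    ⟨Function.argmin fun v : W n => (coxCent_S J (v⁻¹ * a * v)).ncard, fun v =>
      Function.argmin_le (fun v : W n => (coxCent_S J (v⁻¹ * a * v)).ncard) v⟩
  by_cases hmem : w⁻¹ * a * w ∈ WJ Jᶜ
  · exact Or.inr ⟨w, hmem⟩
  left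
  obtain ⟨b, hb, i, hi, hs⟩ := exists_first_exit Jᶜ _ hmem
  have hiJ : i ∈ J := by
    by_contra h
    exact hi h
  have ea : (w * b)⁻¹ * a * (w * b) = b⁻¹ * (w⁻¹ * a * w) * b := by group
  have h1 : side (sg i) ((w * b)⁻¹ * a * (w * b)) = true := by
    have e2 : side ((b⁻¹ * (w⁻¹ * a * w))⁻¹ * sg i * (b⁻¹ * (w⁻¹ * a * w))) b = false := by
      refine coxCent_side_false J _ hb _ i hiJ ⟨(b⁻¹ * (w⁻¹ * a * w))⁻¹, ?_⟩
      rw [inv_inv]
    rw [ea, side_mul, hs, e2]
    rfl
  have hle : (coxCent_S J ((w * b)⁻¹ * a * (w * b))).ncard ≤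
      (coxCent_S J (w⁻¹ * a * w)).ncard := by
    rw [ea]
    exact coxCent_card_conj J _ b hb
  have hmin := hw (w * b * sg i)
  have eb : (w * b * sg i)⁻¹ * a * (w * b * sg i) =
      (sg i)⁻¹ * ((w * b)⁻¹ * a * (w * b)) * sg i := by group
  have ec : a = w * b * ((w * b)⁻¹ * a * (w * b)) * (w * b)⁻¹ := by group
  have hcomm := ha (w * b) i hiJ
  rw [eb] at hmin
  generalize (w * b)⁻¹ * a * (w * b) = a0 at h1 hle hmin ec hcomm
  have h2 : sg i ≠ a0 * sg i * a0⁻¹ := by
    intro e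
    rw [eq_mul_inv_iff_mul_eq] at e
    have h := hcomm e.symm
    rw [h1] at h
    exact Bool.false_ne_true h.symm
  have h3 : side (a0 * sg i * a0⁻¹) a0 = false := by
    cases e : side (a0 * sg i * a0⁻¹) a0
    · rfl
    · have h := coxCent_card_lt J a0 i hiJ h1 h2 e
      omega
  refine ⟨i, hiJ, (w * b) • half (sg i) true,
    isHalfOf_smul ⟨sg i, true, ⟨1, by simp⟩, rfl⟩ _, ?_⟩
  rw [ec]
  exact (coxHS n hn).skew_conj (coxHS_inv hn) (coxCent_skew hn a0 i h1 h2 h3) _

theorem coxCent_lip (K : ℕ) (f : W n → W n) (h : ∀ w i, len ((f w)⁻¹ * f (w * sg i)) ≤ K)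
    (u v : W n) : len ((f u)⁻¹ * f v) ≤ K * len (u⁻¹ * v) := by
  have key : ∀ (l : List (ZMod n)) (u : W n),
      len ((f u)⁻¹ * f (u * (l.map sg).prod)) ≤ K * l.length := by
    intro l
    induction l with
    | nil =>
      intro u
      have e := len_le_length ([] : List (ZMod n))
      simpa using e
    | cons i l ih =>
      intro u
      have e1 := ih (u * sg i)
      have e2 := h u i
      have e3 := len_mul_le ((f u)⁻¹ * f (u * sg i))
        ((f (u * sg i))⁻¹ * f (u * sg i * (l.map sg).prod))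
      rw [mul_assoc, mul_inv_cancel_left] at e3
      rw [List.map_cons, List.prod_cons, List.length_cons, ← mul_assoc, mul_add, mul_one]
      omega
  obtain ⟨l, hl, hp⟩ := exists_word (u⁻¹ * v)
  have e := key l u
  rwa [hp, hl, mul_inv_cancel_left] at e

/-- A bijection moving neighbours a bounded distance apart, in both directions, is
bi-Lipschitz. -/
theorem biLip_of_gens (hn : 5 ≤ n) (K : ℕ) (Ψ : W n ≃ W n)
    (h1 : ∀ w i, len ((Ψ w)⁻¹ * Ψ (w * sg i)) ≤ K)
    (h2 : ∀ w i, len ((Ψ.symm w)⁻¹ * Ψ.symm (w * sg i)) ≤ K) : (coxHS n hn).BiLip K Ψ := by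
  constructor
  · intro u v
    rw [coxHS_d, coxHS_d]
    exact coxCent_lip K Ψ h1 u v
  · intro u v
    rw [coxHS_d, coxHS_d]
    have e := coxCent_lip K Ψ.symm h2 (Ψ u) (Ψ v)
    rwa [Equiv.symm_apply_apply, Equiv.symm_apply_apply] at e

end Pool.Agent.Lib.MP_66609f_al
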