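import Pool.Agent.Lib.MP_66609f_al.Classify
import Pool.Agent.Lib.MP_66609f_al.CocBasic
import Pool.Agent.Lib.MP_66609f_al.CoxCent

namespace Pool.Agent.Lib.MP_66609f_al

variable {g : ℕ}

/-- The chain of mirrors, as elements of the Coxeter group. -/
def sW (g : ℕ) (j : ℤ) : W (g + 3) :=
  cc g ^ (j / (2 * g - 2 : ℤ)) *
    (if j % (2 * g - 2 : ℤ) < g then ee g ((j % (2 * g - 2 : ℤ)).toNat + 1)
      else t1 g * ee g (2 * g - 1 - (j % (2 * g - 2 : ℤ)).toNat) * t1 g) *
    (cc g ^ (j / (2 * g - 2 : ℤ)))⁻¹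

/-- The mirrors of one period. -/
def chainW_base (g : ℕ) (r : ℕ) : W (g + 3) :=
  if r < g then ee g (r + 1) else t1 g * ee g (2 * g - 1 - r) * t1 g

theorem chainW_eq (hg : 3 ≤ g) (q : ℤ) (r : ℕ) (hr : r < 2 * g - 2) :
    sW g (r + q * (2 * g - 2 : ℤ)) = cc g ^ q * chainW_base g r * (cc g ^ q)⁻¹ := by
  have hm : (2 * g - 2 : ℤ) ≠ 0 := by omega
  have h1 : ((r : ℤ) + q * (2 * g - 2 : ℤ)) / (2 * g - 2 : ℤ) = q := by
    rw [Int.add_mul_ediv_right _ _ hm, Int.ediv_eq_zero_of_lt (by omega) (by omega), zero_add]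
  have h2 : ((r : ℤ) + q * (2 * g - 2 : ℤ)) % (2 * g - 2 : ℤ) = r := by
    rw [Int.add_mul_emod_self_right, Int.emod_eq_of_lt (by omega) (by omega)]
  unfold sW chainW_base
  rw [h1, h2]
  simp only [Int.toNat_natCast, Nat.cast_lt]

theorem chainW_decomp (hg : 3 ≤ g) (j : ℤ) :
    ∃ (q : ℤ) (r : ℕ), r < 2 * g - 2 ∧ j = r + q * (2 * g - 2 : ℤ) := by
  have hm : (0 : ℤ) < 2 * g - 2 := by omega
  have h0 := Int.emod_nonneg j hm.ne'
  have h1 := Int.emod_lt_of_pos j hm
  refine ⟨j / (2 * g - 2 : ℤ), (j % (2 * g - 2 : ℤ)).toNat, by omega, ?_⟩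
  rw [Int.toNat_of_nonneg h0]
  exact (Int.emod_add_ediv_mul j _).symm

theorem chainW_ee_sq (i : ℕ) : ee g i * ee g i = 1 := sg_mul_self _

theorem chainW_ee_comm (i : ℕ) : Commute (ee g i) (ee g (i + 1)) := by
  have h := sg_comm ((i : ℕ) : ZMod (g + 3))
  unfold ee
  rw [Nat.cast_succ]
  exact h

theorem chainW_t1_sq : t1 g * t1 g = 1 := chainW_ee_sq _

theorem chainW_t2_sq : t2 g * t2 g = 1 := chainW_ee_sq _

theorem chainW_t3_sq : t3 g * t3 g = 1 := chainW_ee_sq _

theorem chainW_t1_inv : (t1 g)⁻¹ = t1 g := inv_eq_of_mul_eq_one_right chainW_t1_sq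

theorem chainW_t2_inv : (t2 g)⁻¹ = t2 g := inv_eq_of_mul_eq_one_right chainW_t2_sq

theorem chainW_t3_inv : (t3 g)⁻¹ = t3 g := inv_eq_of_mul_eq_one_right chainW_t3_sq

theorem chainW_cc_inv : (cc g)⁻¹ = t3 g * t1 g := by
  unfold cc
  rw [mul_inv_rev, chainW_t1_inv, chainW_t3_inv]

theorem chainW_t3_cc : t3 g * cc g * (t3 g)⁻¹ = (cc g)⁻¹ := by
  rw [chainW_cc_inv]
  unfold cc
  group

theorem chainW_t3_zpow (q : ℤ) : t3 g * cc g ^ q * (t3 g)⁻¹ = cc g ^ (-q) := by
  rw [← conj_zpow, chainW_t3_cc, inv_zpow']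

theorem chainW_conj_self {G : Type*} [Group G] {a b : G} (ha : a * a = 1) (h : Commute a b) :
    a * b * a = b := by
  rw [h.eq, mul_assoc, ha, mul_one]

theorem chainW_conj_conj {G : Type*} [Group G] {a b : G} (ha : a * a = 1) :
    a * (a * b * a) * a = b := by
  calc a * (a * b * a) * a = (a * a) * b * (a * a) := by simp only [mul_assoc]
    _ = b := by rw [ha, one_mul, mul_one]

theorem chainW_base_symm (hg : 3 ≤ g) (r : ℕ) (h0 : 0 < r) (hr : r < 2 * g - 2) :
    t1 g * chainW_base g (2 * g - 2 - r) * t1 g = chainW_base g r := by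
  unfold chainW_base
  by_cases h1 : r < g
  · by_cases h2 : 2 * g - 2 - r < g
    · rw [if_pos h1, if_pos h2]
      have e1 : 2 * g - 2 - r + 1 = g := by omega
      have e2 : r + 1 = g := by omega
      rw [e1, e2]
      exact chainW_conj_self chainW_t1_sq (chainW_ee_comm g).symm
    · rw [if_pos h1, if_neg h2]
      have e1 : 2 * g - 1 - (2 * g - 2 - r) = r + 1 := by omega
      rw [e1]
      exact chainW_conj_conj chainW_t1_sq
  · have h2 : 2 * g - 2 - r < g := by omega
    rw [if_neg h1, if_pos h2]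
    have e1 : 2 * g - 2 - r + 1 = 2 * g - 1 - r := by omega
    rw [e1]

theorem sW_per (hg : 3 ≤ g) (j : ℤ) :
    sW g (j + ((2 * g - 2 : ℕ) : ℤ)) = cc g * sW g j * (cc g)⁻¹ := by
  obtain ⟨q, r, hr, rfl⟩ := chainW_decomp hg j
  have hm : ((2 * g - 2 : ℕ) : ℤ) = 2 * g - 2 := by omega
  have e : (r : ℤ) + q * (2 * g - 2 : ℤ) + ((2 * g - 2 : ℕ) : ℤ) =
      r + (1 + q) * (2 * g - 2 : ℤ) := by
    rw [hm]
    ring
  rw [e, chainW_eq hg _ _ hr, chainW_eq hg _ _ hr, zpow_add, zpow_one]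
  group

theorem sW_nat (hg : 3 ≤ g) (j : ℕ) (hj : j < g) : sW g j = ee g (j + 1) := by
  have h := chainW_eq hg 0 j (by omega)
  simp only [zero_mul, add_zero, zpow_zero, one_mul, inv_one, mul_one] at h
  rw [h, chainW_base, if_pos hj]

theorem sW_neg (hg : 3 ≤ g) (j : ℤ) : t3 g * sW g j * t3 g = sW g (-j) := by
  obtain ⟨q, r, hr, rfl⟩ := chainW_decomp hg j
  have key : t3 g * (cc g ^ q * chainW_base g r * (cc g ^ q)⁻¹) * t3 g =
      cc g ^ (-q) * (t3 g * chainW_base g r * t3 g) * (cc g ^ (-q))⁻¹ := by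
    rw [← chainW_t3_zpow q]
    have gen : ∀ {G : Type} [Group G] (t C B : G), t * t = 1 →
        t * (C * B * C⁻¹) * t = t * C * t⁻¹ * (t * B * t) * (t * C * t⁻¹)⁻¹ := by
      intro G _ t C B h
      have h1 : t⁻¹ = t := inv_eq_of_mul_eq_one_right h
      calc t * (C * B * C⁻¹) * t = t * (C * B * C⁻¹) * t⁻¹ := by rw [h1]
        _ = t * C * t⁻¹ * (t * B * t⁻¹) * (t * C * t⁻¹)⁻¹ * (t * C * (t * t⁻¹) * C⁻¹ * t⁻¹) := by
          group
        _ = t * C * t⁻¹ * (t * B * t⁻¹) * (t * C * t⁻¹)⁻¹ := by group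
        _ = _ := by
          have : t * B * t⁻¹ = t * B * t := by rw [h1]
          rw [this]
    exact gen _ _ _ chainW_t3_sq
  rw [chainW_eq hg _ _ hr, key]
  rcases Nat.eq_zero_or_pos r with rfl | h0
  · have e : -(((0 : ℕ) : ℤ) + q * (2 * g - 2 : ℤ)) = ((0 : ℕ) : ℤ) + (-q) * (2 * g - 2 : ℤ) := by
      push_cast
      ring
    rw [e, chainW_eq hg _ _ hr]
    have h : t3 g * chainW_base g 0 * t3 g = chainW_base g 0 := by
      unfold chainW_base
      rw [if_pos (by omega)]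
      exact chainW_conj_self chainW_t3_sq (chainW_ee_comm 0)
    rw [h]
  · have e : -((r : ℤ) + q * (2 * g - 2 : ℤ)) =
        ((2 * g - 2 - r : ℕ) : ℤ) + (-q + -1) * (2 * g - 2 : ℤ) := by
      have : ((2 * g - 2 - r : ℕ) : ℤ) = 2 * g - 2 - r := by omega
      rw [this]
      ring
    rw [e, chainW_eq hg _ _ (by omega), ← chainW_base_symm hg r h0 hr, zpow_add, zpow_neg_one,
      mul_inv_rev, inv_inv, chainW_cc_inv]
    unfold cc
    simp only [mul_assoc]

theorem chainW_val (i : ℕ) (hi : i < g + 3) : ((i : ℕ) : ZMod (g + 3)).val = i := by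
  rw [ZMod.val_natCast, Nat.mod_eq_of_lt hi]

theorem chainW_col_t1 : col g (t1 g) = Multiplicative.ofAdd (0, 0, 1) := by
  unfold t1 ee
  rw [col_sg, colg, chainW_val _ (by omega), if_pos (Or.inr rfl)]

theorem chainW_col_t3 : col g (t3 g) = Multiplicative.ofAdd (0, 0, 1) := by
  unfold t3 ee
  rw [col_sg, colg, chainW_val _ (by omega), if_pos (Or.inl rfl)]

theorem chainW_col_t2 : col g (t2 g) = Multiplicative.ofAdd (1, 1, 1) := by
  unfold t2 ee
  rw [col_sg, colg, chainW_val _ (by omega), if_neg (by omega), if_pos rfl]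

theorem chainW_colg_e (i : ZMod (g + 3)) (h1 : 1 ≤ i.val) (h2 : i.val ≤ g) :
    (colg g i).toAdd.2.2 = 0 := by
  unfold colg
  rw [if_neg (by omega), if_neg (by omega)]
  split_ifs <;> rfl

theorem chainW_colg_t (i : ZMod (g + 3)) (h : ¬ (1 ≤ i.val ∧ i.val ≤ g)) :
    (colg g i).toAdd.2.2 = 1 := by
  have hi := ZMod.val_lt i
  unfold colg
  by_cases h1 : i.val = 0 ∨ i.val = g + 1
  · rw [if_pos h1]
    rfl
  · rw [if_neg h1, if_pos (by omega)]
    rfl

theorem chainW_mem_lam (w : W (g + 3)) : w ∈ lamG g ↔ (col g w).toAdd.2.2 = 0 := Iff.rfl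

theorem chainW_ee_mem (i : ℕ) (h1 : 1 ≤ i) (h2 : i ≤ g) : ee g i ∈ lamG g := by
  rw [chainW_mem_lam]
  unfold ee
  rw [col_sg]
  apply chainW_colg_e <;> rw [chainW_val _ (by omega)] <;> assumption

theorem chainW_base_mem (hg : 3 ≤ g) (r : ℕ) (hr : r < 2 * g - 2) :
    chainW_base g r ∈ lamG g := by
  unfold chainW_base
  split_ifs with h
  · exact chainW_ee_mem _ (by omega) (by omega)
  · have := (lamG_normal g).conj_mem _
      (chainW_ee_mem (g := g) (2 * g - 1 - r) (by omega) (by omega)) (t1 g)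
    rwa [chainW_t1_inv] at this

theorem sW_mem (hg : 3 ≤ g) (j : ℤ) : sW g j ∈ lamG g := by
  obtain ⟨q, r, hr, rfl⟩ := chainW_decomp hg j
  rw [chainW_eq hg _ _ hr]
  exact (lamG_normal g).conj_mem _ (chainW_base_mem hg r hr) _

theorem cc_mem_piG (hg : 3 ≤ g) : cc g ∈ piG g := by
  change col g (t1 g * t3 g) = 1
  rw [map_mul, chainW_col_t1, chainW_col_t3]
  decide

theorem piG_le_hypG : piG g ≤ hypG g := by
  intro w hw
  have h : col g w = 1 := hw
  change col g w ∈ hypP
  rw [h]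
  exact one_mem _

theorem hypG_le_lamG : hypG g ≤ lamG g := by
  intro w hw
  have h : col g w ∈ hypP := hw
  exact h.1

theorem X_mem_hypG (hg : 3 ≤ g) : t2 g * t1 g ∈ hypG g := by
  change col g (t2 g * t1 g) ∈ hypP
  rw [map_mul, chainW_col_t1, chainW_col_t2]
  constructor <;> decide

/-- The values of the mirror counting cocycle on generators. -/
def chainW_D (g : ℕ) (p : PP) (i : ZMod (g + 3)) :
    Multiplicative (ZMod (2 * g - 2) → ZMod 2) :=
  if 1 ≤ i.val ∧ i.val ≤ g then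
    Multiplicative.ofAdd (Pi.single (((chi p * ((i.val : ℤ) - 1) : ℤ)) : ZMod (2 * g - 2)) 1)
  else 1

theorem chainW_D_sq (p : PP) (i : ZMod (g + 3)) : chainW_D g p i * chainW_D g p i = 1 := by
  unfold chainW_D
  split_ifs
  · rw [← ofAdd_add, ← Pi.single_add]
    have : (1 + 1 : ZMod 2) = 0 := by decide
    rw [this, Pi.single_zero]
    rfl
  · rw [mul_one]

theorem chainW_D_congr (p q : PP) (h : p.toAdd.2.2 = q.toAdd.2.2) (i : ZMod (g + 3)) :
    chainW_D g p i = chainW_D g q i := by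
  unfold chainW_D chi
  rw [h]

theorem chainW_D_t (p : PP) (i : ZMod (g + 3)) (h : ¬ (1 ≤ i.val ∧ i.val ≤ g)) :
    chainW_D g p i = 1 := by
  unfold chainW_D
  rw [if_neg h]

theorem chainW_chi (p : PP) : chi p = 1 ∨ chi p = -1 := by
  unfold chi sgn2
  split_ifs
  · exact Or.inl rfl
  · exact Or.inr rfl

theorem chainW_D_end (hg : 3 ≤ g) (p q : PP) (i : ZMod (g + 3)) (h : i.val = 1 ∨ i.val = g) :
    chainW_D g p i = chainW_D g q i := by
  unfold chainW_D
  have e : (((chi p * ((i.val : ℤ) - 1) : ℤ)) : ZMod (2 * g - 2)) =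
      (((chi q * ((i.val : ℤ) - 1) : ℤ)) : ZMod (2 * g - 2)) := by
    rw [ZMod.intCast_eq_intCast_iff_dvd_sub]
    have hm : ((2 * g - 2 : ℕ) : ℤ) = 2 * g - 2 := by omega
    rw [hm]
    rcases h with h | h
    · rw [h]
      simp
    · rw [h]
      rcases chainW_chi p with hp | hp <;> rcases chainW_chi q with hq | hq <;> rw [hp, hq]
      · exact ⟨0, by ring⟩
      · exact ⟨-1, by ring⟩
      · exact ⟨1, by ring⟩
      · exact ⟨0, by ring⟩
  rw [e]

theorem chainW_val_succ (i : ZMod (g + 3)) :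
    (i + 1).val = i.val + 1 ∨ (i + 1).val = 0 := by
  have hi := ZMod.val_lt i
  have h1 : (i + 1) = ((i.val + 1 : ℕ) : ZMod (g + 3)) := by
    rw [Nat.cast_succ, ZMod.natCast_zmod_val]
  rw [h1, ZMod.val_natCast]
  by_cases h : i.val + 1 < g + 3
  · exact Or.inl (Nat.mod_eq_of_lt h)
  · have : i.val + 1 = g + 3 := by omega
    rw [this]
    exact Or.inr (Nat.mod_self _)

theorem chainW_val_succ' (i : ZMod (g + 3)) (h : i.val < g + 2) : (i + 1).val = i.val + 1 := by
  have h1 : (i + 1) = ((i.val + 1 : ℕ) : ZMod (g + 3)) := by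
    rw [Nat.cast_succ, ZMod.natCast_zmod_val]
  rw [h1, chainW_val _ (by omega)]

theorem chainW_D_mul (p c : PP) (hc : c.toAdd.2.2 = 0) (i : ZMod (g + 3)) :
    chainW_D g (p * c) i = chainW_D g p i := by
  apply chainW_D_congr
  simp [hc]

theorem chainW_D_self (p : PP) (i : ZMod (g + 3)) :
    chainW_D g (p * colg g i) i = chainW_D g p i := by
  by_cases h : 1 ≤ i.val ∧ i.val ≤ g
  · exact chainW_D_mul _ _ (chainW_colg_e i h.1 h.2) _
  · rw [chainW_D_t _ _ h, chainW_D_t _ _ h]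

theorem chainW_D_next (hg : 3 ≤ g) (p : PP) (i : ZMod (g + 3)) :
    chainW_D g (p * colg g (i + 1)) i = chainW_D g p i := by
  by_cases h : 1 ≤ i.val ∧ i.val ≤ g
  · by_cases h2 : i.val = g
    · exact chainW_D_end hg _ _ _ (Or.inr h2)
    · have e := chainW_val_succ' i (by omega)
      exact chainW_D_mul _ _ (chainW_colg_e (i + 1) (by omega) (by omega)) _
  · rw [chainW_D_t _ _ h, chainW_D_t _ _ h]

theorem chainW_D_prev (hg : 3 ≤ g) (p : PP) (i : ZMod (g + 3)) :
    chainW_D g (p * colg g i) (i + 1) = chainW_D g p (i + 1) := by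
  by_cases h : 1 ≤ (i + 1).val ∧ (i + 1).val ≤ g
  · by_cases h2 : (i + 1).val = 1
    · exact chainW_D_end hg _ _ _ (Or.inl h2)
    · have e := chainW_val_succ i
      exact chainW_D_mul _ _ (chainW_colg_e i (by omega) (by omega)) _
  · rw [chainW_D_t _ _ h, chainW_D_t _ _ h]

theorem chainW_exists_coc (hg : 3 ≤ g) :
    ∃ A : Coc g (Multiplicative (ZMod (2 * g - 2) → ZMod 2)),
      ∀ p i, A.F p (sg i) = chainW_D g p i := by
  apply exists_coc
  · intro p i
    rw [chainW_D_self, chainW_D_sq]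
  · intro p i
    rw [chainW_D_prev hg, chainW_D_next hg, chainW_D_self, chainW_D_self]
    calc chainW_D g p i * chainW_D g p (i + 1) * chainW_D g p i * chainW_D g p (i + 1)
        = (chainW_D g p i * chainW_D g p i) * (chainW_D g p (i + 1) * chainW_D g p (i + 1)) := by
          simp only [mul_comm, mul_left_comm]
      _ = 1 := by rw [chainW_D_sq, chainW_D_sq, mul_one]

theorem chainW_F_congr (A : Coc g (Multiplicative (ZMod (2 * g - 2) → ZMod 2)))
    (hA : ∀ p i, A.F p (sg i) = chainW_D g p i) (w : W (g + 3)) :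
    ∀ p q : PP, p.toAdd.2.2 = q.toAdd.2.2 → A.F p w = A.F q w := by
  induction w using cox_induction with
  | h1 =>
    intro p q _
    rw [Coc.F_one, Coc.F_one]
  | hs w i ih =>
    intro p q h
    rw [A.mul, A.mul, ih p q h, hA, hA, chainW_D_congr (p * col g w) (q * col g w) (by simp [h])]

/-- The mirror counting homomorphism. -/
theorem exists_vec (hg : 3 ≤ g) :
    ∃ vec : lamG g →* Multiplicative (ZMod (2 * g - 2) → ZMod 2),
      (∀ j, vec ⟨sW g j, sW_mem hg j⟩ =
        Multiplicative.ofAdd (Pi.single (j : ZMod (2 * g - 2)) 1)) ∧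
      vec ⟨cc g, hypG_le_lamG (piG_le_hypG (cc_mem_piG hg))⟩ = 1 ∧
      vec ⟨t2 g * t1 g, hypG_le_lamG (X_mem_hypG hg)⟩ = 1 := by
  obtain ⟨A, hA⟩ := chainW_exists_coc hg
  let vec : lamG g →* Multiplicative (ZMod (2 * g - 2) → ZMod 2) :=
    MonoidHom.mk' (fun w => A.F 1 w) (by
      intro a b
      have ha : (col g a).toAdd.2.2 = 0 := a.2
      change A.F 1 (a * b) = A.F 1 a * A.F 1 b
      rw [A.mul, chainW_F_congr A hA b (1 * col g a) 1 (by simp [ha])])
  have hvec : ∀ w : lamG g, vec w = A.F 1 w := fun _ => rfl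
  have ht1 : ∀ p, A.F p (t1 g) = 1 := by
    intro p
    unfold t1 ee
    rw [hA, chainW_D_t _ _ (by rw [chainW_val _ (by omega)]; omega)]
  have ht2 : ∀ p, A.F p (t2 g) = 1 := by
    intro p
    unfold t2 ee
    rw [hA, chainW_D_t _ _ (by rw [chainW_val _ (by omega)]; omega)]
  have ht3 : ∀ p, A.F p (t3 g) = 1 := by
    intro p
    unfold t3 ee
    rw [hA, chainW_D_t _ _ (by rw [chainW_val _ (by omega)]; omega)]
  have he : ∀ p (i : ℕ), 1 ≤ i → i ≤ g → A.F p (ee g i) =
      Multiplicative.ofAdd (Pi.single (((chi p * ((i : ℤ) - 1) : ℤ)) : ZMod (2 * g - 2)) 1) := by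
    intro p i h1 h2
    unfold ee
    rw [hA, chainW_D, chainW_val _ (by omega), if_pos ⟨h1, h2⟩]
  have hm : ((2 * g - 2 : ℕ) : ℤ) = 2 * g - 2 := by omega
  refine ⟨vec, ?_, ?_, ?_⟩
  · intro j
    obtain ⟨q, r, hr, rfl⟩ := chainW_decomp hg j
    have e : (⟨sW g (r + q * (2 * g - 2 : ℤ)), sW_mem hg _⟩ : lamG g) =
        (⟨cc g, hypG_le_lamG (piG_le_hypG (cc_mem_piG hg))⟩ : lamG g) ^ q *
          ⟨chainW_base g r, chainW_base_mem hg r hr⟩ *
          ((⟨cc g, hypG_le_lamG (piG_le_hypG (cc_mem_piG hg))⟩ : lamG g) ^ q)⁻¹ := by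
      apply Subtype.ext
      simp only [Subgroup.coe_mul, Subgroup.coe_inv, Subgroup.coe_zpow]
      exact chainW_eq hg _ _ hr
    rw [e, map_mul, map_mul, map_inv, mul_inv_cancel_comm, hvec]
    change A.F 1 (chainW_base g r) = _
    unfold chainW_base
    split_ifs with h
    · rw [he _ _ (by omega) (by omega)]
      have e2 : (((chi 1 * (((r + 1 : ℕ) : ℤ) - 1) : ℤ)) : ZMod (2 * g - 2)) =
          (((r : ℤ) + q * (2 * g - 2 : ℤ) : ℤ) : ZMod (2 * g - 2)) := by
        rw [ZMod.intCast_eq_intCast_iff_dvd_sub, hm]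
        have : chi 1 = 1 := by decide
        rw [this]
        exact ⟨q, by push_cast; ring⟩
      rw [e2]
    · rw [A.mul, A.mul, ht1, ht1, one_mul, mul_one, he _ _ (by omega) (by omega), chainW_col_t1]
      have e2 : (((chi (1 * Multiplicative.ofAdd (0, 0, 1)) *
          (((2 * g - 1 - r : ℕ) : ℤ) - 1) : ℤ)) : ZMod (2 * g - 2)) =
          (((r : ℤ) + q * (2 * g - 2 : ℤ) : ℤ) : ZMod (2 * g - 2)) := by
        rw [ZMod.intCast_eq_intCast_iff_dvd_sub, hm]
        have : chi (1 * Multiplicative.ofAdd (0, 0, 1)) = -1 := by decide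
        rw [this]
        have h3 : ((2 * g - 1 - r : ℕ) : ℤ) = 2 * g - 1 - r := by omega
        rw [h3]
        exact ⟨q + 1, by ring⟩
      rw [e2]
  · rw [hvec]
    change A.F 1 (t1 g * t3 g) = 1
    rw [A.mul, ht1, ht3, mul_one]
  · rw [hvec]
    change A.F 1 (t2 g * t1 g) = 1
    rw [A.mul, ht2, ht1, mul_one]

theorem lamG_gen (hg : 3 ≤ g) :
    Subgroup.closure (Set.range (sW g) ∪ {cc g, t2 g * t1 g}) = lamG g := by
  apply le_antisymm
  · rw [Subgroup.closure_le]
    rintro x (⟨j, rfl⟩ | rfl | rfl)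
    · exact sW_mem hg j
    · exact hypG_le_lamG (piG_le_hypG (cc_mem_piG hg))
    · exact hypG_le_lamG (X_mem_hypG hg)
  set H := Subgroup.closure (Set.range (sW g) ∪ {cc g, t2 g * t1 g}) with hH
  have hs : ∀ j, sW g j ∈ H := fun j => Subgroup.subset_closure (Or.inl ⟨j, rfl⟩)
  have hc : cc g ∈ H := Subgroup.subset_closure (Or.inr (Or.inl rfl))
  have hX : t2 g * t1 g ∈ H := Subgroup.subset_closure (Or.inr (Or.inr rfl))
  have key : ∀ w : W (g + 3), ((col g w).toAdd.2.2 = 0 → w ∈ H) ∧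
      ((col g w).toAdd.2.2 ≠ 0 → w * t3 g ∈ H) := by
    intro w
    induction w using cox_induction with
    | h1 => exact ⟨fun _ => one_mem _, fun h => absurd (by simp) h⟩
    | hs w i ih =>
      have hi := ZMod.val_lt i
      have hsg : sg i = ee g i.val := by
        unfold ee
        rw [ZMod.natCast_zmod_val]
      have hcol : (col g (w * sg i)).toAdd.2.2 = (col g w).toAdd.2.2 + (colg g i).toAdd.2.2 := by
        rw [map_mul, col_sg]
        rfl
      rw [hcol]
      by_cases h : 1 ≤ i.val ∧ i.val ≤ g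
      · rw [chainW_colg_e i h.1 h.2, add_zero]
        have e1 : sg i = sW g ((i.val - 1 : ℕ) : ℤ) := by
          rw [sW_nat hg _ (by omega), hsg]
          have : i.val - 1 + 1 = i.val := by omega
          rw [this]
        refine ⟨fun h0 => mul_mem (ih.1 h0) (e1 ▸ hs _), fun h0 => ?_⟩
        have e2 : w * sg i * t3 g = w * t3 g * (t3 g * sg i * t3 g) := by
          calc w * sg i * t3 g = w * (t3 g * t3 g) * sg i * t3 g := by
                rw [chainW_t3_sq, mul_one]
            _ = _ := by simp only [mul_assoc]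
        rw [e2, e1, sW_neg hg]
        exact mul_mem (ih.2 h0) (hs _)
      · rw [chainW_colg_t i h]
        have h3 : sg i * t3 g ∈ H := by
          have hv : i.val = 0 ∨ i.val = g + 1 ∨ i.val = g + 2 := by omega
          rcases hv with hv | hv | hv
          · rw [hsg, hv]
            change t3 g * t3 g ∈ H
            rw [chainW_t3_sq]
            exact one_mem _
          · rw [hsg, hv]
            exact hc
          · rw [hsg, hv]
            change t2 g * t3 g ∈ H
            have e : t2 g * t3 g = t2 g * t1 g * cc g := by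
              unfold cc
              calc t2 g * t3 g = t2 g * (t1 g * t1 g) * t3 g := by rw [chainW_t1_sq, mul_one]
                _ = _ := by simp only [mul_assoc]
            rw [e]
            exact mul_mem hX hc
        constructor
        · intro h0
          have h1 : (col g w).toAdd.2.2 ≠ 0 := by
            intro h1
            rw [h1] at h0
            exact absurd h0 (by decide)
          have e : w * sg i = w * t3 g * (sg i * t3 g)⁻¹ := by
            rw [mul_inv_rev, sg_inv]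
            group
          rw [e]
          exact mul_mem (ih.2 h1) (inv_mem h3)
        · intro h0
          have h1 : (col g w).toAdd.2.2 = 0 := by
            revert h0
            generalize (col g w).toAdd.2.2 = a
            revert a
            decide
          rw [mul_assoc]
          exact mul_mem (ih.1 h1) h3
  intro w hw
  exact (key w).1 hw

end Pool.Agent.Lib.MP_66609f_al
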