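import Pool.Agent.Lib.MP_66609f_al.ChainW

namespace Pool.Agent.Lib.MP_66609f_al

variable {g : ℕ}

section Dihedral

variable {G : Type*} [Group G]

theorem chainW2_dih {x y : G} (hx : x * x = 1) (hy : y * y = 1) {d : G}
    (h : d ∈ Subgroup.closure ({x, y} : Set G)) :
    ∃ k : ℤ, d = (x * y) ^ k ∨ d = (x * y) ^ k * y := by
  have hxi : x⁻¹ = x := inv_eq_of_mul_eq_one_right hx
  have hyi : y⁻¹ = y := inv_eq_of_mul_eq_one_right hy
  have step : ∀ z ∈ ({x, y} : Set G), ∀ d : G, (∃ k : ℤ, d = (x * y) ^ k ∨ d = (x * y) ^ k * y) →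
      ∃ k : ℤ, d * z = (x * y) ^ k ∨ d * z = (x * y) ^ k * y := by
    rintro z (rfl | rfl) d ⟨k, rfl | rfl⟩
    · exact ⟨k + 1, Or.inr (by rw [zpow_add_one, mul_assoc, mul_assoc, hy, mul_one])⟩
    · exact ⟨k - 1, Or.inl (by rw [zpow_sub_one, mul_inv_rev, hxi, hyi, mul_assoc])⟩
    · exact ⟨k, Or.inr rfl⟩
    · exact ⟨k, Or.inl (by rw [mul_assoc, hy, mul_one])⟩
  induction h using Subgroup.closure_induction_right with
  | one => exact ⟨0, Or.inl (by simp)⟩
  | mul_right a _ z hz ih => exact step z hz a ih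
  | mul_inv_cancel a _ z hz ih =>
    have : z⁻¹ = z := by
      rcases hz with rfl | rfl
      · exact hxi
      · exact hyi
    rw [this]
    exact step z hz a ih

theorem chainW2_half {x y : G} (hx : x * x = 1) {L : Subgroup G} [hL : L.Normal] (hxL : x ∉ L)
    (hyL : y ∈ L) {d : G} (h : d ∈ Subgroup.closure ({x, y} : Set G)) (hd : d ∈ L) :
    d ∈ Subgroup.closure ({x * y * x, y} : Set G) := by
  have hxi : x⁻¹ = x := inv_eq_of_mul_eq_one_right hx
  have hxx : ∀ z, x * (x * z) = z := fun z => by rw [← mul_assoc, hx, one_mul]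
  set K := Subgroup.closure ({x * y * x, y} : Set G) with hK
  have hc : ∀ k ∈ K, x * k * x ∈ K := by
    intro k hk
    induction hk using Subgroup.closure_induction with
    | mem z hz =>
      rcases hz with rfl | rfl
      · have : x * (x * y * x) * x = y := by simp only [mul_assoc, hxx, hx, mul_one]
        rw [this]
        exact Subgroup.subset_closure (Or.inr rfl)
      · exact Subgroup.subset_closure (Or.inl rfl)
    | one => rw [mul_one, hx]; exact K.one_mem
    | mul a b _ _ ha hb =>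
      have : x * (a * b) * x = (x * a * x) * (x * b * x) := by simp only [mul_assoc, hxx]
      rw [this]
      exact K.mul_mem ha hb
    | inv a _ ha =>
      have : x * a⁻¹ * x = (x * a * x)⁻¹ := by simp only [mul_inv_rev, hxi, mul_assoc]
      rw [this]
      exact K.inv_mem ha
  have hKL : K ≤ L := by
    rw [hK, Subgroup.closure_le]
    rintro z (rfl | rfl)
    · have := hL.conj_mem y hyL x
      rwa [hxi] at this
    · exact hyL
  have main : d ∈ K ∨ d * x ∈ K := by
    clear hd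
    induction h using Subgroup.closure_induction with
    | mem z hz =>
      rcases hz with rfl | rfl
      · right; rw [hx]; exact K.one_mem
      · exact Or.inl (Subgroup.subset_closure (Or.inr rfl))
    | one => exact Or.inl K.one_mem
    | mul a b _ _ ha hb =>
      rcases ha with ha | ha <;> rcases hb with hb | hb
      · exact Or.inl (K.mul_mem ha hb)
      · right; rw [mul_assoc]; exact K.mul_mem ha hb
      · right
        have : a * b * x = (a * x) * (x * b * x) := by simp only [mul_assoc, hxx]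
        rw [this]
        exact K.mul_mem ha (hc b hb)
      · left
        have : a * b = (a * x) * (x * (b * x) * x) := by simp only [mul_assoc, hxx, hx, mul_one]
        rw [this]
        exact K.mul_mem ha (hc _ hb)
    | inv a _ ha =>
      rcases ha with ha | ha
      · exact Or.inl (K.inv_mem ha)
      · right
        have : a⁻¹ * x = x * (a * x)⁻¹ * x := by simp only [mul_inv_rev, hxi, hxx]
        rw [this]
        exact hc _ (K.inv_mem ha)
  rcases main with h1 | h1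
  · exact h1
  · exact absurd ((L.mul_mem_cancel_left hd).mp (hKL h1)) hxL

theorem chainW2_conj_closure {x y w d : G} (h : d ∈ Subgroup.closure ({x, y} : Set G)) :
    w * d * w⁻¹ ∈ Subgroup.closure ({w * x * w⁻¹, w * y * w⁻¹} : Set G) := by
  have h1 : (MulAut.conj w).toMonoidHom d ∈
      (Subgroup.closure ({x, y} : Set G)).map (MulAut.conj w).toMonoidHom := ⟨d, h, rfl⟩
  rw [MonoidHom.map_closure, Set.image_pair] at h1
  exact h1

end Dihedral

theorem chainW2_cast_ne {a b : ℕ} (ha : a < g + 3) (hb : b < g + 3) (h : a ≠ b) :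
    ((a : ℕ) : ZMod (g + 3)) ≠ ((b : ℕ) : ZMod (g + 3)) := by
  intro h'
  rw [ZMod.natCast_eq_natCast_iff', Nat.mod_eq_of_lt ha, Nat.mod_eq_of_lt hb] at h'
  exact h h'

theorem chainW2_ut_inf (hg : 3 ≤ g) (i : ZMod (g + 3)) (k : ℤ) (h : ut i ^ k = 1) : k = 0 := by
  by_contra hk
  have h1 : ((1 : ℕ) : ZMod (g + 3)) ≠ ((0 : ℕ) : ZMod (g + 3)) :=
    chainW2_cast_ne (by omega) (by omega) (by omega)
  have h2 : ((2 : ℕ) : ZMod (g + 3)) ≠ ((0 : ℕ) : ZMod (g + 3)) :=
    chainW2_cast_ne (by omega) (by omega) (by omega)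
  have h3 : ((3 : ℕ) : ZMod (g + 3)) ≠ ((0 : ℕ) : ZMod (g + 3)) :=
    chainW2_cast_ne (by omega) (by omega) (by omega)
  push_cast at h1 h2 h3
  refine zpow_nonadj_ne_one (i := i - 1) (j := i + 1) ?_ ?_ ?_ k hk h
  · intro e; apply h2; linear_combination -e
  · intro e; apply h3; linear_combination -e
  · intro e; apply h1; linear_combination e

theorem chainW2_col_ee {k : ℕ} (hk : k < g + 3) : col g (ee g k) =
    if k = 0 ∨ k = g + 1 then Multiplicative.ofAdd (0, 0, 1)
    else if k = g + 2 then Multiplicative.ofAdd (1, 1, 1)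
    else if k % 2 = 1 then Multiplicative.ofAdd (1, 0, 0) else Multiplicative.ofAdd (0, 1, 0) := by
  rw [ee, col_sg, colg, ZMod.val_natCast, Nat.mod_eq_of_lt hk]

theorem chainW2_col_t3 : col g (t3 g) = Multiplicative.ofAdd (0, 0, 1) := by
  rw [t3, chainW2_col_ee (by omega), if_pos (Or.inl rfl)]

theorem chainW2_col_t1 : col g (t1 g) = Multiplicative.ofAdd (0, 0, 1) := by
  rw [t1, chainW2_col_ee (by omega), if_pos (Or.inr rfl)]

theorem chainW2_col_t2 : col g (t2 g) = Multiplicative.ofAdd (1, 1, 1) := by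
  rw [t2, chainW2_col_ee (by omega), if_neg (by omega), if_pos rfl]

theorem chainW2_col_mid {k : ℕ} (h1 : 1 ≤ k) (hk : k ≤ g) : col g (ee g k) =
    if k % 2 = 1 then Multiplicative.ofAdd (1, 0, 0) else Multiplicative.ofAdd (0, 1, 0) := by
  rw [chainW2_col_ee (by omega), if_neg (by omega), if_neg (by omega)]

theorem chainW2_col_cc : col g (cc g) = 1 := by
  rw [cc, map_mul, chainW2_col_t1, chainW2_col_t3]
  decide

theorem chainW2_col_conj (v a : W (g + 3)) : col g (v * a * v⁻¹) = col g a := by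
  rw [map_mul, map_mul, map_inv, mul_inv_cancel_comm]

theorem chainW2_mem_lam {w : W (g + 3)} : w ∈ lamG g ↔ (col g w).toAdd.2.2 = 0 := Iff.rfl

theorem chainW2_mem_hyp {w : W (g + 3)} :
    w ∈ hypG g ↔ (col g w).toAdd.2.2 = 0 ∧ (col g w).toAdd.1 = (col g w).toAdd.2.1 := Iff.rfl

theorem chainW2_ee_sq (k : ℕ) : ee g k * ee g k = 1 := sg_mul_self _

theorem chainW2_ee_inv (k : ℕ) : (ee g k)⁻¹ = ee g k := sg_inv _

theorem chainW2_ee_succ (k : ℕ) : sg (((k : ℕ) : ZMod (g + 3)) + 1) = ee g (k + 1) := by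
  rw [ee, Nat.cast_succ]

theorem chainW2_ee_pred (k : ℕ) : sg (((k + 1 : ℕ) : ZMod (g + 3)) - 1) = ee g k := by
  rw [ee, Nat.cast_succ, add_sub_cancel_right]

theorem chainW2_ee_top : ee g (g + 3) = t3 g := by
  rw [t3, ee, ee, ZMod.natCast_self, Nat.cast_zero]

theorem chainW2_ee_comm (k : ℕ) : Commute (ee g k) (ee g (k + 1)) := by
  rw [← chainW2_ee_succ]
  exact sg_comm _

theorem chainW2_ut (k : ℕ) : ut ((k + 1 : ℕ) : ZMod (g + 3)) = ee g k * ee g (k + 2) := by
  rw [ut, chainW2_ee_pred, chainW2_ee_succ]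

theorem chainW2_cc_ut : cc g = ut ((g + 2 : ℕ) : ZMod (g + 3)) := by
  rw [chainW2_ut (g + 1), chainW2_ee_top]
  rfl

theorem chainW2_t12 : Commute (t1 g) (t2 g) := chainW2_ee_comm (g + 1)

theorem chainW2_t23 : Commute (t2 g) (t3 g) := by
  rw [← chainW2_ee_top]
  exact chainW2_ee_comm (g + 2)

theorem chainW2_t3_lam {v : W (g + 3)} (hv : v ∉ lamG g) : v * t3 g ∈ lamG g := by
  rw [chainW2_mem_lam] at hv ⊢
  rw [map_mul, chainW2_col_t3]
  revert hv
  generalize col g v = p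
  revert p
  decide

theorem chainW2_t1_lam {v : W (g + 3)} (hv : v ∉ lamG g) : v * t1 g ∈ lamG g := by
  rw [chainW2_mem_lam] at hv ⊢
  rw [map_mul, chainW2_col_t1]
  revert hv
  generalize col g v = p
  revert p
  decide

theorem chainW2_per (hg : 3 ≤ g) (k j : ℤ) :
    sW g (j + k * ((2 * g - 2 : ℕ) : ℤ)) = cc g ^ k * sW g j * (cc g ^ k)⁻¹ := by
  induction k using Int.induction_on with
  | zero => simp
  | succ k ih =>
    rw [add_mul, one_mul, ← add_assoc, sW_per hg, ih, add_comm (k : ℤ) 1, zpow_one_add]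
    group
  | pred k ih =>
    have h := sW_per hg (j + (-(k : ℤ) - 1) * ((2 * g - 2 : ℕ) : ℤ))
    rw [show j + (-(k : ℤ) - 1) * ((2 * g - 2 : ℕ) : ℤ) + ((2 * g - 2 : ℕ) : ℤ) =
      j + -(k : ℤ) * ((2 * g - 2 : ℕ) : ℤ) by ring, ih] at h
    have h2 : sW g (j + (-(k : ℤ) - 1) * ((2 * g - 2 : ℕ) : ℤ)) =
        (cc g)⁻¹ * (cc g ^ (-(k : ℤ)) * sW g j * (cc g ^ (-(k : ℤ)))⁻¹) * cc g := by
      rw [h]; group
    rw [h2]
    group

/-- Reduction of the index to the range `0 ≤ j < g`. -/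
theorem chainW2_nf (hg : 3 ≤ g) (j : ℤ) : ∃ (w : W (g + 3)) (r : ℕ), r < g ∧
    ((∀ i : ℤ, sW g (j + i) = w * sW g (r + i) * w⁻¹) ∨
      ∀ i : ℤ, sW g (j + i) = w * sW g (r - i) * w⁻¹) := by
  have hm : ((2 * g - 2 : ℕ) : ℤ) = 2 * g - 2 := by omega
  have hm0 : (0 : ℤ) < 2 * g - 2 := by omega
  have h0 := Int.emod_nonneg j hm0.ne'
  have h1 := Int.emod_lt_of_pos j hm0
  have h2 := Int.emod_add_mul_ediv j (2 * g - 2)
  generalize j % (2 * g - 2) = r at h0 h1 h2
  generalize j / (2 * g - 2) = q at h2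
  by_cases hr : r < g
  · obtain ⟨r, rfl⟩ := Int.eq_ofNat_of_zero_le h0
    refine ⟨cc g ^ q, r, by omega, Or.inl fun i => ?_⟩
    rw [← chainW2_per hg, hm, ← h2]
    congr 1
    ring
  · obtain ⟨r', hr'⟩ := Int.eq_ofNat_of_zero_le (a := 2 * g - 2 - r) (by omega)
    refine ⟨cc g ^ (q + 1) * t3 g, r', by omega, Or.inr fun i => ?_⟩
    have e : j + i = -((r' : ℤ) - i) + (q + 1) * ((2 * g - 2 : ℕ) : ℤ) := by
      rw [hm, ← hr', ← h2]; ring
    rw [e, chainW2_per hg, ← sW_neg hg, mul_inv_rev, t3, chainW2_ee_inv]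
    simp only [mul_assoc]

theorem chainW2_sW_g (hg : 3 ≤ g) : sW g g = t1 g * ee g (g - 1) * t1 g := by
  have h1 : (g : ℤ) / (2 * g - 2) = 0 := Int.ediv_eq_zero_of_lt (by omega) (by omega)
  have h2 : (g : ℤ) % (2 * g - 2) = g := Int.emod_eq_of_lt (by omega) (by omega)
  rw [sW, h1, h2, if_neg (lt_irrefl _), Int.toNat_natCast, show 2 * g - 1 - g = g - 1 by omega]
  simp

theorem chainW2_sW_pred (hg : 3 ≤ g) {r : ℕ} (hr : r < g) (h0 : r ≠ 0) :
    sW g ((r : ℤ) - 1) = ee g r := by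
  obtain ⟨r, rfl⟩ := Nat.exists_eq_succ_of_ne_zero h0
  rw [← sW_nat hg r (by omega)]
  congr 1
  push_cast
  ring

theorem chainW2_sW_succ (hg : 3 ≤ g) {r : ℕ} (hr : r + 1 < g) :
    sW g ((r : ℤ) + 1) = ee g (r + 2) := by
  rw [← sW_nat hg (r + 1) hr]
  rfl

theorem chainW2_sW_m1 (hg : 3 ≤ g) : sW g (-1) = t3 g * ee g 2 * t3 g := by
  rw [← sW_neg hg, ← sW_nat hg 1 (by omega)]
  rfl

theorem chainW2_sq (hg : 3 ≤ g) (j : ℤ) : sW g j * sW g j = 1 := by
  obtain ⟨w, r, hr, h⟩ := chainW2_nf hg j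
  have e : sW g j = w * ee g (r + 1) * w⁻¹ := by
    rw [← sW_nat hg r hr]
    rcases h with h | h <;> simpa using h 0
  rw [e, conj_mul, chainW2_ee_sq]
  simp

theorem chainW2_not_hyp (hg : 3 ≤ g) (j : ℤ) : sW g j ∉ hypG g := by
  obtain ⟨w, r, hr, h⟩ := chainW2_nf hg j
  have e : sW g j = w * ee g (r + 1) * w⁻¹ := by
    rw [← sW_nat hg r hr]
    rcases h with h | h <;> simpa using h 0
  rw [e, chainW2_mem_hyp, chainW2_col_conj, chainW2_col_mid (by omega) (by omega)]
  split_ifs <;> decide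

theorem chainW2_cent0 (hg : 3 ≤ g) {r : ℕ} (hr : r < g) (a : W (g + 3)) (ha : a ∈ lamG g)
    (h : Commute a (sW g r)) :
    ∃ d ∈ Subgroup.closure ({sW g ((r : ℤ) - 1), sW g ((r : ℤ) + 1)} : Set (W (g + 3))),
      a = d ∨ a = d * sW g r := by
  have hs := sW_mem hg r
  rw [sW_nat hg r hr] at h hs ⊢
  obtain ⟨d, hd, hda⟩ := mem_star_cases _ a (mem_star_of_commute _ a h)
  rw [WJ, Set.image_pair, chainW2_ee_pred, chainW2_ee_succ] at hd
  have hdL : d ∈ lamG g := by
    rcases hda with rfl | rfl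
    · exact ha
    · exact ((lamG g).mul_mem_cancel_right hs).mp ha
  refine ⟨d, ?_, hda⟩
  by_cases h0 : r = 0
  · subst h0
    have e1 : sW g (((0 : ℕ) : ℤ) - 1) = t3 g * ee g 2 * t3 g := chainW2_sW_m1 hg
    have e2 := chainW2_sW_succ hg (r := 0) (by omega)
    rw [e1, e2]
    refine chainW2_half (L := lamG g) (x := t3 g) (chainW2_ee_sq 0) ?_ (e2 ▸ sW_mem hg _) hd hdL
    rw [chainW2_mem_lam, chainW2_col_t3]
    decide
  · have e1 := chainW2_sW_pred hg hr h0
    by_cases h1 : r + 1 < g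
    · rwa [e1, chainW2_sW_succ hg h1]
    · have hrg : g = r + 1 := by omega
      have e2 : sW g ((r : ℤ) + 1) = t1 g * ee g r * t1 g := by
        have := chainW2_sW_g hg
        rwa [show (g : ℤ) = r + 1 by omega, show g - 1 = r by omega] at this
      have e3 : ee g (r + 1 + 1) = t1 g := by rw [t1, ← hrg]
      rw [e3, Set.pair_comm] at hd
      rw [e1, e2, Set.pair_comm]
      refine chainW2_half (L := lamG g) (x := t1 g) (chainW2_ee_sq (g + 1)) ?_ (e1 ▸ sW_mem hg _) hd hdL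
      rw [chainW2_mem_lam, chainW2_col_t1]
      decide

theorem chainW2_ord0 (hg : 3 ≤ g) {r : ℕ} (hr : r < g) (k : ℤ)
    (h : (sW g ((r : ℤ) - 1) * sW g ((r : ℤ) + 1)) ^ k = 1) : k = 0 := by
  have hu := chainW2_ut_inf hg ((r + 1 : ℕ) : ZMod (g + 3))
  rw [chainW2_ut] at hu
  by_cases h0 : r = 0
  · subst h0
    have e1 : sW g (((0 : ℕ) : ℤ) - 1) = t3 g * ee g 2 * t3 g := chainW2_sW_m1 hg
    rw [e1, chainW2_sW_succ hg (r := 0) (by omega)] at h
    have := hu (2 * k) (by rw [zpow_mul, zpow_two, ← h, t3]; simp only [mul_assoc])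
    omega
  · rw [chainW2_sW_pred hg hr h0] at h
    by_cases h1 : r + 1 < g
    · rw [chainW2_sW_succ hg h1] at h
      exact hu k h
    · have hrg : g = r + 1 := by omega
      have e2 : sW g ((r : ℤ) + 1) = t1 g * ee g r * t1 g := by
        have := chainW2_sW_g hg
        rwa [show (g : ℤ) = r + 1 by omega, show g - 1 = r by omega] at this
      have e3 : ee g (r + 2) = t1 g := by rw [t1, hrg]
      rw [e2] at h
      rw [e3] at hu
      have := hu (2 * k) (by rw [zpow_mul, zpow_two, ← h]; simp only [mul_assoc])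
      omega

theorem chainW2_comm (hg : 3 ≤ g) (j : ℤ) : Commute (sW g j) (sW g (j + 1)) := by
  have up : ∀ r : ℕ, r < g → Commute (sW g r) (sW g ((r : ℤ) + 1)) := by
    intro r hr
    rw [sW_nat hg r hr]
    by_cases h1 : r + 1 < g
    · rw [chainW2_sW_succ hg h1]
      exact chainW2_ee_comm _
    · have hrg : g = r + 1 := by omega
      have e2 : sW g ((r : ℤ) + 1) = t1 g * ee g r * t1 g := by
        have := chainW2_sW_g hg
        rwa [show (g : ℤ) = r + 1 by omega, show g - 1 = r by omega] at this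
      have e3 : ee g (r + 1 + 1) = t1 g := by rw [t1, ← hrg]
      have c1 := chainW2_ee_comm (g := g) (r + 1)
      rw [e3] at c1
      rw [e2]
      exact (c1.mul_right (chainW2_ee_comm r).symm).mul_right c1
  have down : ∀ r : ℕ, r < g → Commute (sW g r) (sW g ((r : ℤ) - 1)) := by
    intro r hr
    rw [sW_nat hg r hr]
    by_cases h0 : r = 0
    · subst h0
      have e1 : sW g (((0 : ℕ) : ℤ) - 1) = t3 g * ee g 2 * t3 g := chainW2_sW_m1 hg
      have c1 : Commute (ee g (0 + 1)) (t3 g) := (chainW2_ee_comm 0).symm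
      rw [e1]
      exact (c1.mul_right (chainW2_ee_comm 1)).mul_right c1
    · rw [chainW2_sW_pred hg hr h0]
      exact (chainW2_ee_comm r).symm
  obtain ⟨w, r, hr, h | h⟩ := chainW2_nf hg j
  · have e := h 0
    rw [add_zero, add_zero] at e
    rw [e, h 1]
    exact (up r hr).conj w
  · have e := h 0
    rw [add_zero, sub_zero] at e
    rw [e, h 1]
    exact (down r hr).conj w

theorem sW_cent (hg : 3 ≤ g) (j : ℤ) (a : W (g + 3)) (ha : a ∈ lamG g)
    (h : Commute a (sW g j)) : ∃ k : ℤ, ∃ d, (d = (sW g (j - 1) * sW g (j + 1)) ^ k ∨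
      d = (sW g (j - 1) * sW g (j + 1)) ^ k * sW g (j + 1)) ∧ (a = d ∨ a = d * sW g j) := by
  suffices H : ∃ d ∈ Subgroup.closure ({sW g (j - 1), sW g (j + 1)} : Set (W (g + 3))),
      a = d ∨ a = d * sW g j by
    obtain ⟨d, hd, hda⟩ := H
    obtain ⟨k, hk⟩ := chainW2_dih (chainW2_sq hg _) (chainW2_sq hg _) hd
    exact ⟨k, d, hk, hda⟩
  obtain ⟨w, r, hr, hw⟩ := chainW2_nf hg j
  have e : sW g j = w * sW g r * w⁻¹ := by
    rcases hw with hw | hw <;> simpa using hw 0
  have hc : Commute (w⁻¹ * a * w) (sW g r) := by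
    have := h.conj w⁻¹
    rw [e] at this
    simpa [mul_assoc] using this
  obtain ⟨d, hd, hda⟩ := chainW2_cent0 hg hr (w⁻¹ * a * w)
    ((lamG_normal g).conj_mem' a ha w) hc
  refine ⟨w * d * w⁻¹, ?_, ?_⟩
  · have h1 := chainW2_conj_closure (w := w) hd
    rcases hw with hw | hw
    · rwa [← hw 1, sub_eq_add_neg, ← hw (-1), ← sub_eq_add_neg] at h1
    · have h2 := hw (-1)
      rw [sub_neg_eq_add] at h2
      rwa [← hw 1, ← h2, ← sub_eq_add_neg, Set.pair_comm] at h1
  · rw [e]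
    rcases hda with hda | hda
    · left; rw [← hda]; group
    · right
      have : a = w * (d * sW g r) * w⁻¹ := by rw [← hda]; group
      rw [this]; group

theorem sW_inf_ord (hg : 3 ≤ g) (j k : ℤ) (h : (sW g (j - 1) * sW g (j + 1)) ^ k = 1) :
    k = 0 := by
  obtain ⟨w, r, hr, hw | hw⟩ := chainW2_nf hg j
  · rw [sub_eq_add_neg, hw, hw, conj_mul, conj_zpow, ← sub_eq_add_neg] at h
    exact chainW2_ord0 hg hr k (by simpa using h)
  · rw [sub_eq_add_neg, hw, hw, conj_mul, conj_zpow, sub_neg_eq_add] at h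
    have h1 : (sW g ((r : ℤ) + 1) * sW g ((r : ℤ) - 1)) ^ k = 1 := by simpa using h
    have h2 : sW g ((r : ℤ) + 1) * sW g ((r : ℤ) - 1) =
        (sW g ((r : ℤ) - 1) * sW g ((r : ℤ) + 1))⁻¹ := by
      rw [mul_inv_rev, inv_eq_of_mul_eq_one_right (chainW2_sq hg _),
        inv_eq_of_mul_eq_one_right (chainW2_sq hg _)]
    rw [h2, inv_zpow, inv_eq_one] at h1
    exact chainW2_ord0 hg hr k h1

theorem chainW2_invol (hg : 3 ≤ g) (a : W (g + 3)) (h : a * a = 1) (h1 : a ≠ 1) :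
    ∃ (v : W (g + 3)) (k : ℕ), k < g + 3 ∧
      (a = v * ee g k * v⁻¹ ∨ a = v * (ee g k * ee g (k + 1)) * v⁻¹) := by
  obtain ⟨v, i, hv⟩ := invol_conj (five_le hg) a h h1
  refine ⟨v, i.val, ZMod.val_lt i, ?_⟩
  rw [← chainW2_ee_succ, ee, ZMod.natCast_zmod_val]
  exact hv

theorem chainW2_t3_sq : t3 g * t3 g = 1 := chainW2_ee_sq 0

theorem chainW2_t3_inv : (t3 g)⁻¹ = t3 g := chainW2_ee_inv 0

theorem chainW2_t1_inv : (t1 g)⁻¹ = t1 g := chainW2_ee_inv _

theorem chainW2_t2_inv : (t2 g)⁻¹ = t2 g := chainW2_ee_inv _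

theorem refl_conj_sW (hg : 3 ≤ g) (a : W (g + 3)) (ha : a ∈ lamG g) (h : a * a = 1)
    (h' : a ∉ hypG g) : ∃ v ∈ lamG g, ∃ j, a = v * sW g j * v⁻¹ := by
  obtain ⟨v, k, hk, hv | hv⟩ := chainW2_invol hg a h (fun e => h' (e ▸ (hypG g).one_mem))
  · have hk' : 1 ≤ k ∧ k ≤ g := by
      rw [hv, chainW2_mem_lam, chainW2_col_conj, chainW2_col_ee hk] at ha
      by_contra hc
      by_cases h1 : k = 0 ∨ k = g + 1
      · rw [if_pos h1] at ha
        exact absurd ha (by decide)
      · rw [if_neg h1, if_pos (by omega)] at ha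
        exact absurd ha (by decide)
    obtain ⟨r, rfl⟩ : ∃ r, k = r + 1 := ⟨k - 1, by omega⟩
    rw [← sW_nat hg r (by omega)] at hv
    by_cases hvl : v ∈ lamG g
    · exact ⟨v, hvl, r, hv⟩
    · refine ⟨v * t3 g, chainW2_t3_lam hvl, -r, ?_⟩
      rw [hv, ← sW_neg hg]
      nth_rewrite 2 [← chainW2_t3_inv]
      group
  · exfalso
    rw [hv, chainW2_mem_lam, chainW2_col_conj, map_mul] at ha
    rw [hv, chainW2_mem_hyp, chainW2_col_conj, map_mul] at h'
    by_cases h0 : k = 0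
    · subst h0
      rw [chainW2_col_ee hk, if_pos (Or.inl rfl), chainW2_col_mid (by omega) (by omega)] at ha
      exact absurd ha (by decide)
    by_cases h1 : k < g
    · rw [chainW2_col_mid (by omega) (by omega), chainW2_col_mid (by omega) (by omega)] at h'
      by_cases h2 : k % 2 = 1
      · rw [if_pos h2, if_neg (by omega)] at h'
        exact h' (by decide)
      · rw [if_neg h2, if_pos (by omega)] at h'
        exact h' (by decide)
    by_cases h2 : k = g
    · subst h2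
      rw [chainW2_col_mid (by omega) (by omega), chainW2_col_ee (by omega),
        if_pos (Or.inr rfl)] at ha
      split_ifs at ha <;> exact absurd ha (by decide)
    by_cases h3 : k = g + 1
    · subst h3
      have e1 : col g (ee g (g + 1)) = _ := chainW2_col_t1
      have e2 : col g (ee g (g + 1 + 1)) = _ := chainW2_col_t2
      rw [e1, e2] at h'
      exact h' (by decide)
    · obtain rfl : k = g + 2 := by omega
      have e1 : col g (ee g (g + 2)) = _ := chainW2_col_t2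
      rw [e1, chainW2_ee_top, chainW2_col_t3] at h'
      exact h' (by decide)

theorem rot_conj_sW (hg : 3 ≤ g) (a : W (g + 3)) (ha : a ∈ hypG g) (h : a * a = 1) :
    a = 1 ∨ (∃ v ∈ lamG g, ∃ k : ℤ, a = v * (cc g ^ k * (t2 g * t1 g)) * v⁻¹) ∨
      ∃ v ∈ lamG g, ∃ j, a = v * (sW g j * sW g (j + 1)) * v⁻¹ := by
  by_cases h1 : a = 1
  · exact Or.inl h1
  right
  obtain ⟨v, k, hk, hv | hv⟩ := chainW2_invol hg a h h1
  · exfalso
    rw [hv, chainW2_mem_hyp, chainW2_col_conj, chainW2_col_ee hk] at ha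
    split_ifs at ha <;> exact absurd ha (by decide)
  have ha' := ha
  rw [hv, chainW2_mem_hyp, chainW2_col_conj, map_mul] at ha'
  by_cases h0 : k = 0
  · subst h0
    rw [chainW2_col_ee hk, if_pos (Or.inl rfl), chainW2_col_mid (by omega) (by omega)] at ha'
    exact absurd ha' (by decide)
  by_cases h1 : k < g
  · right
    obtain ⟨r, rfl⟩ : ∃ r, k = r + 1 := ⟨k - 1, by omega⟩
    rw [← sW_nat hg r (by omega), ← chainW2_sW_succ hg h1] at hv
    by_cases hvl : v ∈ lamG g
    · exact ⟨v, hvl, r, hv⟩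
    · refine ⟨v * t3 g, chainW2_t3_lam hvl, -(r + 1), ?_⟩
      rw [hv, (chainW2_comm hg r).eq, show -((r : ℤ) + 1) + 1 = -r by ring, ← sW_neg hg,
        ← sW_neg hg]
      simp only [mul_inv_rev, chainW2_t3_inv, mul_assoc]
      simp only [← mul_assoc (t3 g) (t3 g), chainW2_t3_sq, one_mul]
  by_cases h2 : k = g
  · subst h2
    rw [chainW2_col_mid (by omega) (by omega), chainW2_col_ee (by omega),
      if_pos (Or.inr rfl)] at ha'
    split_ifs at ha' <;> exact absurd ha' (by decide)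
  left
  by_cases h3 : k = g + 1
  · subst h3
    have e : ee g (g + 1) * ee g (g + 1 + 1) = cc g ^ (0 : ℤ) * (t2 g * t1 g) := by
      rw [zpow_zero, one_mul]
      exact chainW2_t12.eq
    rw [e] at hv
    by_cases hvl : v ∈ lamG g
    · exact ⟨v, hvl, 0, hv⟩
    · refine ⟨v * t1 g, chainW2_t1_lam hvl, 0, ?_⟩
      have c : Commute (t1 g) (t2 g * t1 g) := chainW2_t12.mul_right (Commute.refl _)
      rw [hv, zpow_zero, one_mul, mul_assoc v (t1 g), c.eq]
      group
  · obtain rfl : k = g + 2 := by omega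
    have e : t2 g * t3 g = cc g ^ (-1 : ℤ) * (t2 g * t1 g) := by
      rw [zpow_neg_one, cc, mul_inv_rev, ← chainW2_t12.eq, chainW2_t3_inv, chainW2_t23.eq]
      group
    have hv' : a = v * (t2 g * t3 g) * v⁻¹ := by
      rw [hv, chainW2_ee_top]
      rfl
    by_cases hvl : v ∈ lamG g
    · exact ⟨v, hvl, -1, e ▸ hv'⟩
    · refine ⟨v * t3 g, chainW2_t3_lam hvl, -1, ?_⟩
      have c : Commute (t3 g) (t2 g * t3 g) := chainW2_t23.symm.mul_right (Commute.refl _)
      rw [hv', ← e, mul_assoc v (t3 g), c.eq]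
      group

theorem chainW2_t1_cc : t1 g * cc g * (t1 g)⁻¹ = (cc g)⁻¹ := by
  rw [cc, mul_inv_rev, chainW2_t3_inv, ← mul_assoc, t1, chainW2_ee_sq, one_mul]

theorem chainW2_t2_cc : Commute (t2 g) (cc g) := chainW2_t12.symm.mul_right chainW2_t23

theorem inv_cc (hg : 3 ≤ g) (a : W (g + 3)) (ha : a ∈ hypG g)
    (h : a * cc g * a⁻¹ = (cc g)⁻¹) : ∃ k : ℤ, a = cc g ^ k * (t2 g * t1 g) := by
  have hc : Commute (cc g) (a * t1 g) := by
    have e : (a * t1 g) * cc g * (a * t1 g)⁻¹ = cc g := by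
      have : (a * t1 g) * cc g * (a * t1 g)⁻¹ = (a * (t1 g * cc g * (t1 g)⁻¹)⁻¹ * a⁻¹)⁻¹ := by
        group
      rw [this, chainW2_t1_cc, inv_inv, h, inv_inv]
    exact (mul_inv_eq_iff_eq_mul.mp e).symm
  have hm := mem_star_of_commute_ut (five_le hg) ((g + 2 : ℕ) : ZMod (g + 3)) 1 one_ne_zero
    (a * t1 g) (by rwa [zpow_one, ← chainW2_cc_ut])
  obtain ⟨d, hd, hda⟩ := mem_star_cases _ _ hm
  obtain ⟨k, hk⟩ := mem_WJ_pair _ _ d hd
  have e1 : sg (((g + 2 : ℕ) : ZMod (g + 3)) - 1) * sg (((g + 2 : ℕ) : ZMod (g + 3)) + 1) =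
      cc g := chainW2_cc_ut.symm
  have e2 : sg (((g + 2 : ℕ) : ZMod (g + 3)) + 1) = t3 g := by
    rw [chainW2_ee_succ, chainW2_ee_top]
  have e3 : sg ((g + 2 : ℕ) : ZMod (g + 3)) = t2 g := rfl
  rw [e1, e2] at hk
  rw [e3, ← eq_mul_inv_iff_mul_eq, ← eq_mul_inv_iff_mul_eq, chainW2_t1_inv] at hda
  rw [chainW2_mem_hyp] at ha
  rcases hda with rfl | rfl <;> rcases hk with rfl | rfl
  · simp only [map_mul, map_zpow, chainW2_col_cc, chainW2_col_t1, one_zpow] at ha
    exact absurd ha (by decide)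
  · exfalso
    have e4 : t3 g * t1 g = (cc g)⁻¹ := by
      rw [cc, mul_inv_rev, chainW2_t3_inv, chainW2_t1_inv]
    rw [mul_assoc (cc g ^ k), e4] at h
    have h2 : cc g ^ (2 : ℤ) = 1 := by
      have h3 : cc g ^ k * (cc g)⁻¹ * cc g * (cc g ^ k * (cc g)⁻¹)⁻¹ = cc g := by group
      rw [h3] at h
      rw [zpow_two]
      exact eq_inv_iff_mul_eq_one.mp h
    rw [chainW2_cc_ut] at h2
    exact absurd (chainW2_ut_inf hg _ _ h2) (by decide)
  · exact ⟨k, mul_assoc _ _ _⟩
  · simp only [map_mul, map_zpow, chainW2_col_cc, chainW2_col_t1, chainW2_col_t2,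
      chainW2_col_t3, one_zpow] at ha
    exact absurd ha (by decide)

/-- The chain structure on the mirror group. -/
theorem exists_chain (hg : 3 ≤ g) : ∃ K : Chain (lamG g) (2 * g - 2),
    K.P = (hypG g).subgroupOf (lamG g) ∧ (∀ j, (K.s j : W (g + 3)) = sW g j) ∧
    (K.c : W (g + 3)) = cc g ∧ (K.X : W (g + 3)) = t2 g * t1 g ∧
    ∀ a, (K.ν a : W (g + 3)) = t3 g * a * t3 g := by
  obtain ⟨vec, hv1, hv2, hv3⟩ := exists_vec hg
  have hcH : cc g ∈ hypG g := piG_le_hypG (cc_mem_piG hg)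
  have hν : ∀ a : lamG g, ((MulAut.conjNormal (t3 g) a : lamG g) : W (g + 3)) =
      t3 g * a * t3 g := fun a => by rw [MulAut.conjNormal_apply, chainW2_t3_inv]
  have hcolX : col g (t2 g * t1 g) = Multiplicative.ofAdd (1, 1, 0) := by
    rw [map_mul, chainW2_col_t2, chainW2_col_t1]
    decide
  refine ⟨{
    P := (hypG g).subgroupOf (lamG g)
    s := fun j => ⟨sW g j, sW_mem hg j⟩
    c := ⟨cc g, hypG_le_lamG hcH⟩
    X := ⟨t2 g * t1 g, hypG_le_lamG (X_mem_hypG hg)⟩
    vec := vec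
    ν := MulAut.conjNormal (t3 g)
    two_le := by omega
    mul_mem_iff := ?_
    s_sq := fun j => Subtype.ext (chainW2_sq hg j)
    s_comm := fun j => Subtype.ext (chainW2_comm hg j).eq
    s_not := fun j => chainW2_not_hyp hg j
    c_mem := hcH
    X_mem := X_mem_hypG hg
    X_sq := ?_
    X_c := ?_
    X_ne := ?_
    Xc_ne := ?_
    s_per := fun j => Subtype.ext (sW_per hg j)
    refl_conj := ?_
    cent := ?_
    inf_ord := fun j k h => sW_inf_ord hg j k (congrArg Subtype.val h)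
    vec_s := hv1
    vec_c := hv2
    vec_X := hv3
    rot_conj := ?_
    inv_c := ?_
    ν_s := fun j => Subtype.ext ((hν _).trans (sW_neg hg j))
    ν_P := ?_
    gen := ?_ }, rfl, fun _ => rfl, rfl, rfl, hν⟩
  · rintro ⟨a, ha⟩ ⟨b, hb⟩
    simp only [Subgroup.mem_subgroupOf, Subgroup.coe_mul, chainW2_mem_hyp, map_mul]
    rw [chainW2_mem_lam] at ha hb
    revert ha hb
    generalize col g a = p
    generalize col g b = q
    revert p q
    decide
  · apply Subtype.ext
    change t2 g * t1 g * (t2 g * t1 g) = 1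
    nth_rewrite 2 [← chainW2_t12.eq]
    rw [mul_assoc, ← mul_assoc (t1 g), t1, chainW2_ee_sq, one_mul, t2, chainW2_ee_sq]
  · apply Subtype.ext
    change t2 g * t1 g * cc g * (t2 g * t1 g)⁻¹ = (cc g)⁻¹
    have : t2 g * t1 g * cc g * (t2 g * t1 g)⁻¹ = t2 g * (t1 g * cc g * (t1 g)⁻¹) * (t2 g)⁻¹ := by
      group
    rw [this, chainW2_t1_cc, chainW2_t2_cc.inv_right.eq, mul_inv_cancel_right]
  · intro h
    have h1 : col g (t2 g * t1 g) = col g 1 := congrArg (fun x : lamG g => col g x) h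
    rw [hcolX, map_one] at h1
    exact absurd h1 (by decide)
  · intro h
    have h1 : col g (t2 g * t1 g * cc g) = col g 1 := congrArg (fun x : lamG g => col g x) h
    rw [map_mul, hcolX, chainW2_col_cc, map_one] at h1
    exact absurd h1 (by decide)
  · intro a h h'
    obtain ⟨v, hv, j, e⟩ := refl_conj_sW hg a a.2 (congrArg Subtype.val h) h'
    exact ⟨⟨v, hv⟩, j, Subtype.ext e⟩
  · intro j a h
    obtain ⟨k, d, hd, hda⟩ := sW_cent hg j a a.2 (congrArg Subtype.val h.eq)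
    rcases hd with hd | hd
    · exact ⟨k, _, Or.inl rfl, hda.imp (fun e => Subtype.ext (e.trans hd))
        fun e => Subtype.ext (e.trans (hd ▸ rfl))⟩
    · exact ⟨k, _, Or.inr rfl, hda.imp (fun e => Subtype.ext (e.trans hd))
        fun e => Subtype.ext (e.trans (hd ▸ rfl))⟩
  · intro a h h'
    rcases rot_conj_sW hg a h' (congrArg Subtype.val h) with e | ⟨v, hv, k, e⟩ | ⟨v, hv, j, e⟩
    · left
      rw [show a = 1 from Subtype.ext e, map_one]
    · left
      have e' : a = ⟨v, hv⟩ * (⟨cc g, hypG_le_lamG hcH⟩ ^ k *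
          ⟨t2 g * t1 g, hypG_le_lamG (X_mem_hypG hg)⟩) * ⟨v, hv⟩⁻¹ := Subtype.ext e
      rw [e', map_mul, map_mul, map_mul, map_zpow, hv2, hv3, map_inv]
      simp
    · exact Or.inr ⟨⟨v, hv⟩, j, Subtype.ext e⟩
  · intro a ha h
    obtain ⟨k, hk⟩ := inv_cc hg a ha (congrArg Subtype.val h)
    exact ⟨k, Subtype.ext hk⟩
  · intro a
    rw [Subgroup.mem_subgroupOf, Subgroup.mem_subgroupOf, MulAut.conjNormal_apply,
      chainW2_mem_hyp, chainW2_mem_hyp, chainW2_col_conj]
  · apply Subgroup.map_injective (lamG g).subtype_injective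
    rw [MonoidHom.map_closure, ← MonoidHom.range_eq_map, Subgroup.range_subtype, Set.image_union,
      Set.image_pair, ← Set.range_comp]
    exact lamG_gen hg

/-- The surface group has trivial centraliser. -/
theorem cj_injective (hg : 3 ≤ g) : Function.Injective (cj g) := by
  rw [injective_iff_map_eq_one]
  intro v hv
  have hc : ∀ γ ∈ piG g, Commute γ v := by
    intro γ hγ
    have h1 : ((cj g v ⟨γ, hγ⟩ : piG g) : W (g + 3)) = γ := by rw [hv]; rfl
    rw [cj, MulAut.conjNormal_apply] at h1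
    exact (mul_inv_eq_iff_eq_mul.mp h1).symm
  have h13 : ee g 1 * ee g (1 + 2) ∈ piG g := by
    change col g _ = 1
    rw [map_mul, chainW2_col_mid (by omega) (by omega), chainW2_col_mid (by omega) (by omega)]
    decide
  have m1 := mem_star_of_commute_ut (five_le hg) ((g + 1 + 1 : ℕ) : ZMod (g + 3)) 1 one_ne_zero v
    (by rw [zpow_one, ← chainW2_cc_ut]; exact hc _ (cc_mem_piG hg))
  have m2 := mem_star_of_commute_ut (five_le hg) ((1 + 1 : ℕ) : ZMod (g + 3)) 1 one_ne_zero v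
    (by rw [zpow_one, chainW2_ut]; exact hc _ h13)
  have m3 := mem_WJ_inter _ _ v m1 m2
  have p1 : ∀ k : ℕ, ((k + 1 : ℕ) : ZMod (g + 3)) - 1 = (k : ℕ) := fun k => by
    rw [Nat.cast_succ, add_sub_cancel_right]
  have p2 : ((g + 1 + 1 : ℕ) : ZMod (g + 3)) + 1 = (0 : ℕ) := by
    rw [← Nat.cast_succ, Nat.cast_zero]
    exact ZMod.natCast_self _
  rw [p1, p1, p2, ← Nat.cast_succ] at m3
  have e : ({((g + 1 : ℕ) : ZMod (g + 3)), ((g + 1 + 1 : ℕ) : ZMod (g + 3)),
      ((0 : ℕ) : ZMod (g + 3))} ∩ {((1 : ℕ) : ZMod (g + 3)), ((1 + 1 : ℕ) : ZMod (g + 3)),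
      (((1 + 1).succ : ℕ) : ZMod (g + 3))} : Set (ZMod (g + 3))) = ∅ := by
    rw [Set.eq_empty_iff_forall_notMem]
    rintro x ⟨rfl | rfl | rfl, h | h | h⟩ <;>
      exact chainW2_cast_ne (by omega) (by omega) (by omega) h
  rw [e, WJ, Set.image_empty, Subgroup.closure_empty] at m3
  exact m3

theorem rO_ne_one (hg : 3 ≤ g) : oc g (cj g (ee g 1 * ee g 2)) ≠ 1 := by
  intro h
  rw [← map_one (oc g), oc_eq_iff] at h
  obtain ⟨v, hv, e⟩ := h
  rw [mul_one] at e
  rw [← cj_injective hg e] at hv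
  have h1 : col g (ee g 1 * ee g 2) = 1 := hv
  rw [map_mul, chainW2_col_mid (by omega) (by omega), chainW2_col_mid (by omega) (by omega)] at h1
  exact absurd h1 (by decide)

end Pool.Agent.Lib.MP_66609f_al
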