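import Mathlib

/-! Automorphisms of a group with a periodic chain of mirrors. -/

namespace Pool.Agent.Lib.MP_66609f_al

/-- The facts about the mirror group used in the classification of its automorphisms. -/
structure Chain (L : Type*) [Group L] (m : ℕ) where
  P : Subgroup L
  s : ℤ → L
  c : L
  X : L
  vec : L →* Multiplicative (ZMod m → ZMod 2)
  ν : MulAut L
  two_le : 2 ≤ m
  mul_mem_iff : ∀ a b, a * b ∈ P ↔ (a ∈ P ↔ b ∈ P)
  s_sq : ∀ j, s j * s j = 1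
  s_comm : ∀ j, Commute (s j) (s (j + 1))
  s_not : ∀ j, s j ∉ P
  c_mem : c ∈ P
  X_mem : X ∈ P
  X_sq : X * X = 1
  X_c : X * c * X⁻¹ = c⁻¹
  X_ne : X ≠ 1
  Xc_ne : X * c ≠ 1
  s_per : ∀ j, s (j + m) = c * s j * c⁻¹
  refl_conj : ∀ a, a * a = 1 → a ∉ P → ∃ v j, a = v * s j * v⁻¹
  cent : ∀ j a, Commute a (s j) → ∃ k : ℤ, ∃ d, (d = (s (j - 1) * s (j + 1)) ^ k ∨
    d = (s (j - 1) * s (j + 1)) ^ k * s (j + 1)) ∧ (a = d ∨ a = d * s j)
  inf_ord : ∀ j (k : ℤ), (s (j - 1) * s (j + 1)) ^ k = 1 → k = 0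
  vec_s : ∀ j, vec (s j) = Multiplicative.ofAdd (Pi.single (j : ZMod m) 1)
  vec_c : vec c = 1
  vec_X : vec X = 1
  rot_conj : ∀ a, a * a = 1 → a ∈ P → vec a = 1 ∨ ∃ v j, a = v * (s j * s (j + 1)) * v⁻¹
  inv_c : ∀ a, a ∈ P → a * c * a⁻¹ = c⁻¹ → ∃ k : ℤ, a = c ^ k * X
  ν_s : ∀ j, ν (s j) = s (-j)
  ν_P : ∀ a, ν a ∈ P ↔ a ∈ P
  gen : Subgroup.closure (Set.range s ∪ {c, X}) = ⊤

/-- Shift automorphisms. -/
def Chain.IsDelta {L : Type*} [Group L] {m : ℕ} (K : Chain L m) (Δ : MulAut L) (i k : ℤ) :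
    Prop :=
  (∀ j, Δ (K.s j) = K.s (i + j)) ∧ Δ K.c = K.c ∧ Δ K.X = K.c ^ k * K.X

section ClassifyAux

variable {L : Type*} [Group L] {m : ℕ} (K : Chain L m)

theorem classify_sinv (j : ℤ) : (K.s j)⁻¹ = K.s j := inv_eq_of_mul_eq_one_right (K.s_sq j)

theorem classify_U_mem (j k : ℤ) : (K.s (j - 1) * K.s (j + 1)) ^ k ∈ K.P :=
  K.P.zpow_mem ((K.mul_mem_iff _ _).2 (iff_of_false (K.s_not _) (K.s_not _))) k

theorem classify_conj_mem (v a : L) : v * a * v⁻¹ ∈ K.P ↔ a ∈ K.P := by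
  rw [K.mul_mem_iff, K.mul_mem_iff, K.P.inv_mem_iff]
  tauto

theorem classify_comm_U (j k : ℤ) : Commute (K.s j) ((K.s (j - 1) * K.s (j + 1)) ^ k) := by
  have h1 : Commute (K.s j) (K.s (j - 1)) := by
    have := K.s_comm (j - 1)
    rw [sub_add_cancel] at this
    exact this.symm
  exact (h1.mul_right (K.s_comm j)).zpow_right k

theorem classify_flip (j k : ℤ) : K.s (j + 1) * (K.s (j - 1) * K.s (j + 1)) ^ k =
    (K.s (j - 1) * K.s (j + 1)) ^ (-k) * K.s (j + 1) := by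
  have h : SemiconjBy (K.s (j + 1)) (K.s (j - 1) * K.s (j + 1))
      (K.s (j - 1) * K.s (j + 1))⁻¹ := by
    unfold SemiconjBy
    rw [mul_inv_rev, classify_sinv, classify_sinv, mul_assoc]
  have h2 := h.zpow_right k
  rw [inv_zpow'] at h2
  exact h2

theorem classify_U_inj (j k l : ℤ)
    (h : (K.s (j - 1) * K.s (j + 1)) ^ k = (K.s (j - 1) * K.s (j + 1)) ^ l) : k = l := by
  have h2 : (K.s (j - 1) * K.s (j + 1)) ^ (k - l) = 1 := by
    rw [zpow_sub, h, mul_inv_cancel]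
  have := K.inf_ord j _ h2
  omega

/-- Reflections that commute with `s j`. -/
theorem classify_R (j : ℤ) (b : L) (h1 : b * b = 1) (h2 : b ∉ K.P) (h3 : Commute b (K.s j))
    (h4 : b ≠ K.s j) : ∃ k : ℤ, b = (K.s (j - 1) * K.s (j + 1)) ^ k * K.s (j + 1) := by
  obtain ⟨k, d, hd, hb⟩ := K.cent j b h3
  have hU := classify_U_mem K j k
  rcases hd with rfl | rfl
  · rcases hb with rfl | rfl
    · exact absurd hU h2
    · exfalso
      have hc := classify_comm_U K j k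
      have h5 : (K.s (j - 1) * K.s (j + 1)) ^ (k + k) = 1 := by
        rw [zpow_add]
        calc (K.s (j - 1) * K.s (j + 1)) ^ k * (K.s (j - 1) * K.s (j + 1)) ^ k
            = (K.s (j - 1) * K.s (j + 1)) ^ k * (K.s j * K.s j) *
                (K.s (j - 1) * K.s (j + 1)) ^ k := by rw [K.s_sq, mul_one]
          _ = (K.s (j - 1) * K.s (j + 1)) ^ k * K.s j *
                (K.s j * (K.s (j - 1) * K.s (j + 1)) ^ k) := by simp only [mul_assoc]
          _ = 1 := by rw [hc.eq]; exact h1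
      have h6 : k = 0 := by have := K.inf_ord j _ h5; omega
      apply h4
      rw [h6, zpow_zero, one_mul]
  · rcases hb with rfl | rfl
    · exact ⟨k, rfl⟩
    · exfalso
      apply h2
      rw [mul_assoc]
      exact K.P.mul_mem hU ((K.mul_mem_iff _ _).2 (iff_of_false (K.s_not _) (K.s_not _)))

theorem classify_cast_ne {a b : ℤ} (h1 : a < b) (h2 : b < a + m) :
    (a : ZMod m) ≠ (b : ZMod m) := by
  intro h
  have h3 := (ZMod.intCast_eq_intCast_iff_dvd_sub a b m).1 h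
  have := Int.le_of_dvd (by omega) h3
  omega

/-- A coordinate of the parity vector. -/
def classifyCo (x : ZMod m) (a : L) : ZMod 2 := (K.vec a).toAdd x

theorem classifyCo_mul (x : ZMod m) (a b : L) :
    classifyCo K x (a * b) = classifyCo K x a + classifyCo K x b := by
  simp [classifyCo]

theorem classifyCo_inv (x : ZMod m) (a : L) : classifyCo K x a⁻¹ = -classifyCo K x a := by
  simp [classifyCo]

theorem classifyCo_zpow (x : ZMod m) (a : L) (k : ℤ) :
    classifyCo K x (a ^ k) = k • classifyCo K x a := by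
  simp [classifyCo]

theorem classifyCo_of_one (x : ZMod m) {a : L} (h : K.vec a = 1) : classifyCo K x a = 0 := by
  simp [classifyCo, h]

theorem classifyCo_self (j : ℤ) : classifyCo K (j : ZMod m) (K.s j) = 1 := by
  simp [classifyCo, K.vec_s]

theorem classifyCo_ne (x : ZMod m) (j : ℤ) (h : x ≠ (j : ZMod m)) :
    classifyCo K x (K.s j) = 0 := by
  simp [classifyCo, K.vec_s, h]

theorem classifyCo_succ (j : ℤ) : classifyCo K (j : ZMod m) (K.s (j + 1)) = 0 := by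
  have := K.two_le
  exact classifyCo_ne K _ _ (classify_cast_ne (by omega) (by omega))

theorem classifyCo_pred (j : ℤ) : classifyCo K (j : ZMod m) (K.s (j - 1)) = 0 := by
  have := K.two_le
  exact classifyCo_ne K _ _ (classify_cast_ne (by omega) (by omega)).symm

theorem classify_succ_ne (j : ℤ) : K.s (j + 1) ≠ K.s j := by
  intro h
  have h1 := classifyCo_succ K j
  rw [h, classifyCo_self] at h1
  exact one_ne_zero h1

theorem classify_pred_ne (j : ℤ) : K.s (j - 1) ≠ K.s j := by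
  intro h
  have h1 := classifyCo_pred K j
  rw [h, classifyCo_self] at h1
  exact one_ne_zero h1

theorem classify_symm_mem {Φ : MulAut L} (hΦ : ∀ a, Φ a ∈ K.P ↔ a ∈ K.P) (a : L) :
    Φ.symm a ∈ K.P ↔ a ∈ K.P := by
  rw [← hΦ, MulEquiv.apply_symm_apply]

/-- The parity vector of the image of an even involution with trivial parity vector. -/
theorem classify_vec_inv {Φ : MulAut L} (hΦ : ∀ a, Φ a ∈ K.P ↔ a ∈ K.P) (Y : L)
    (h1 : Y * Y = 1) (h2 : Y ∈ K.P) (h3 : Y ≠ 1) (h4 : K.vec Y = 1) : K.vec (Φ Y) = 1 := by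
  rcases K.rot_conj (Φ Y) (by rw [← map_mul, h1, map_one]) ((hΦ Y).2 h2) with h | ⟨v, j, h⟩
  · exact h
  exfalso
  have hsq : ∀ t : ℤ, Φ.symm (v * K.s t * v⁻¹) * Φ.symm (v * K.s t * v⁻¹) = 1 := fun t => by
    rw [← map_mul, conj_mul, K.s_sq, mul_one, mul_inv_cancel, map_one]
  have hno : ∀ t : ℤ, Φ.symm (v * K.s t * v⁻¹) ∉ K.P := fun t => by
    rw [classify_symm_mem K hΦ, classify_conj_mem]
    exact K.s_not t
  have hY : Y = Φ.symm (v * K.s j * v⁻¹) * Φ.symm (v * K.s (j + 1) * v⁻¹) := by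
    rw [← map_mul, conj_mul, ← h, MulEquiv.symm_apply_apply]
  have hc : Commute (Φ.symm (v * K.s (j + 1) * v⁻¹)) (Φ.symm (v * K.s j * v⁻¹)) := by
    unfold Commute SemiconjBy
    rw [← map_mul, ← map_mul, conj_mul, conj_mul, (K.s_comm j).eq]
  have ha := hsq j
  have hb := hsq (j + 1)
  have hbn := hno (j + 1)
  obtain ⟨w, i, hw⟩ := K.refl_conj _ ha (hno j)
  generalize Φ.symm (v * K.s j * v⁻¹) = a at *
  generalize Φ.symm (v * K.s (j + 1) * v⁻¹) = b at *
  subst hw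
  obtain ⟨k, hk⟩ := classify_R K i (w⁻¹ * b * w⁻¹⁻¹)
    (by rw [conj_mul, hb, mul_one, mul_inv_cancel])
    (by rw [classify_conj_mem]; exact hbn)
    (by
      unfold Commute SemiconjBy at hc ⊢
      calc w⁻¹ * b * w⁻¹⁻¹ * K.s i = w⁻¹ * (b * (w * K.s i * w⁻¹)) * w := by group
        _ = w⁻¹ * ((w * K.s i * w⁻¹) * b) * w := by rw [hc]
        _ = K.s i * (w⁻¹ * b * w⁻¹⁻¹) := by group)
    (by
      intro h5
      apply h3
      have h6 : b = w * K.s i * w⁻¹ := by rw [← h5]; group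
      rw [hY, h6]
      exact ha)
  have hb2 : b = w * ((K.s (i - 1) * K.s (i + 1)) ^ k * K.s (i + 1)) * w⁻¹ := by
    rw [← hk]; group
  have h7 := classifyCo_of_one K (i : ZMod m) h4
  rw [hY, hb2] at h7
  simp only [classifyCo_mul, classifyCo_inv, classifyCo_zpow, classifyCo_self, classifyCo_succ,
    classifyCo_pred] at h7
  apply (one_ne_zero : (1 : ZMod 2) ≠ 0)
  rw [← h7, add_zero, add_zero, smul_zero]
  ring

theorem classify_vec_c {Φ : MulAut L} (hΦ : ∀ a, Φ a ∈ K.P ↔ a ∈ K.P) : K.vec (Φ K.c) = 1 := by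
  have hX : K.X⁻¹ = K.X := inv_eq_of_mul_eq_one_right K.X_sq
  have h1 := classify_vec_inv K hΦ K.X K.X_sq K.X_mem K.X_ne K.vec_X
  have h2 := classify_vec_inv K hΦ (K.X * K.c)
    (by
      have h := K.X_c
      rw [hX] at h
      rw [← mul_assoc, h, inv_mul_cancel])
    (K.P.mul_mem K.X_mem K.c_mem) K.Xc_ne (by rw [map_mul, K.vec_X, K.vec_c, one_mul])
  rwa [map_mul, map_mul, h1, one_mul] at h2

/-- Images of the two neighbours. -/
theorem classify_nb {Φ : MulAut L} (hΦ : ∀ a, Φ a ∈ K.P ↔ a ∈ K.P) {i j : ℤ}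
    (h : Φ (K.s j) = K.s i) : ∃ l l' : ℤ,
      Φ (K.s (j - 1)) = (K.s (i - 1) * K.s (i + 1)) ^ l * K.s (i + 1) ∧
      Φ (K.s (j + 1)) = (K.s (i - 1) * K.s (i + 1)) ^ l' * K.s (i + 1) ∧
      Φ (K.s (j - 1) * K.s (j + 1)) = (K.s (i - 1) * K.s (i + 1)) ^ (l - l') := by
  have key : ∀ t : ℤ, Commute (K.s t) (K.s j) → K.s t ≠ K.s j →
      ∃ l : ℤ, Φ (K.s t) = (K.s (i - 1) * K.s (i + 1)) ^ l * K.s (i + 1) := fun t h1 h2 =>
    classify_R K i _ (by rw [← map_mul, K.s_sq, map_one]) (by rw [hΦ]; exact K.s_not t)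
      (by rw [← h]; exact h1.map Φ) (by rw [← h]; exact fun h3 => h2 (Φ.injective h3))
  obtain ⟨l, hl⟩ := key (j - 1)
    (by have := K.s_comm (j - 1); rwa [sub_add_cancel] at this) (classify_pred_ne K j)
  obtain ⟨l', hl'⟩ := key (j + 1) (K.s_comm j).symm (classify_succ_ne K j)
  refine ⟨l, l', hl, hl', ?_⟩
  rw [map_mul, hl, hl', mul_assoc, ← mul_assoc (K.s (i + 1)), classify_flip, mul_assoc, K.s_sq,
    mul_one, ← zpow_add, sub_eq_add_neg l l']

theorem classify_nb2 {Φ : MulAut L} (hΦ : ∀ a, Φ a ∈ K.P ↔ a ∈ K.P) {i j : ℤ}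
    (h : Φ (K.s j) = K.s i) : ∃ l l' : ℤ,
      Φ (K.s (j - 1)) = (K.s (i - 1) * K.s (i + 1)) ^ l * K.s (i + 1) ∧
      Φ (K.s (j + 1)) = (K.s (i - 1) * K.s (i + 1)) ^ l' * K.s (i + 1) ∧
      (l - l' = 1 ∨ l - l' = -1) := by
  obtain ⟨l, l', h1, h2, h3⟩ := classify_nb K hΦ h
  have h' : Φ.symm (K.s i) = K.s j := by rw [← h, MulEquiv.symm_apply_apply]
  obtain ⟨p, p', -, -, h4⟩ := classify_nb K (Φ := Φ.symm) (classify_symm_mem K hΦ) h'
  refine ⟨l, l', h1, h2, ?_⟩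
  have h5 : (K.s (i - 1) * K.s (i + 1)) ^ ((l - l') * (p - p')) =
      (K.s (i - 1) * K.s (i + 1)) ^ (1 : ℤ) := by
    rw [zpow_mul, ← h3, ← map_zpow, ← h4, MulEquiv.apply_symm_apply, zpow_one]
  exact Int.eq_one_or_neg_one_of_mul_eq_one (classify_U_inj K i _ _ h5)

/-- One step along the chain. -/
theorem classify_step {Φ : MulAut L} (hΦ : ∀ a, Φ a ∈ K.P ↔ a ∈ K.P) {i j : ℤ}
    (h0 : Φ (K.s j) = K.s i) (h1 : Φ (K.s (j + 1)) = K.s (i + 1)) :
    Φ (K.s (j + 2)) = K.s (i + 2) ∨ Φ (K.s (j + 2)) = K.s i * K.s (i + 2) * (K.s i)⁻¹ := by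
  obtain ⟨l, l', h2, h3, h4⟩ := classify_nb2 K hΦ h1
  have e1 : j + 1 + 1 = j + 2 := by ring
  have e2 : i + 1 + 1 = i + 2 := by ring
  have hl : l = 1 := by
    apply classify_U_inj K (i + 1)
    apply mul_right_cancel (b := K.s (i + 1 + 1))
    rw [← h2, zpow_one, mul_assoc, K.s_sq, mul_one, add_sub_cancel_right, add_sub_cancel_right, h0]
  rw [add_sub_cancel_right, e1, e2] at h3
  rcases h4 with h4 | h4
  · left
    have : l' = 0 := by omega
    rw [h3, this, zpow_zero, one_mul]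
  · right
    have : l' = 2 := by omega
    rw [h3, this, classify_sinv, zpow_two, mul_assoc (K.s i * K.s (i + 2)),
      mul_assoc (K.s i) (K.s (i + 2)) (K.s (i + 2)), K.s_sq, mul_one]

theorem classify_conj_pres {Φ : MulAut L} (hΦ : ∀ a, Φ a ∈ K.P ↔ a ∈ K.P) (v a : L) :
    (MulAut.conj v * Φ) a ∈ K.P ↔ a ∈ K.P := by
  rw [MulAut.mul_apply, MulAut.conj_apply, classify_conj_mem, hΦ]

theorem classify_step_conj {Φ : MulAut L} (hΦ : ∀ a, Φ a ∈ K.P ↔ a ∈ K.P) {i j : ℤ} {w : L}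
    (h0 : Φ (K.s j) = w * K.s i * w⁻¹) (h1 : Φ (K.s (j + 1)) = w * K.s (i + 1) * w⁻¹) :
    Φ (K.s (j + 2)) = w * K.s (i + 2) * w⁻¹ ∨
      Φ (K.s (j + 2)) = (w * K.s i) * K.s (i + 2) * (w * K.s i)⁻¹ := by
  have e : ∀ a, Φ a = w * (MulAut.conj w⁻¹ * Φ) a * w⁻¹ := fun a => by
    rw [MulAut.mul_apply, MulAut.conj_apply]; group
  rcases classify_step K (classify_conj_pres K hΦ w⁻¹) (i := i) (j := j)
    (by rw [MulAut.mul_apply, MulAut.conj_apply, h0]; group)
    (by rw [MulAut.mul_apply, MulAut.conj_apply, h1]; group) with h | h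
  · left
    rw [e, h]
  · right
    rw [e, h]; group

theorem classify_cent2 (i : ℤ) (z : L) (h0 : Commute z (K.s i)) (h1 : Commute z (K.s (i + 1)))
    (c0 : classifyCo K (i : ZMod m) z = 0) (c1 : classifyCo K ((i + 1 : ℤ) : ZMod m) z = 0) :
    z = 1 := by
  obtain ⟨k, d, hd, hz⟩ := K.cent i z h0
  have hd1 : Commute d (K.s (i + 1)) := by
    rcases hz with rfl | rfl
    · exact h1
    · have := h1.mul_left (K.s_comm i)
      rwa [mul_assoc, K.s_sq, mul_one] at this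
  have hU : Commute ((K.s (i - 1) * K.s (i + 1)) ^ k) (K.s (i + 1)) := by
    rcases hd with rfl | rfl
    · exact hd1
    · have := hd1.mul_left (Commute.refl (K.s (i + 1)))
      rwa [mul_assoc, K.s_sq, mul_one] at this
  have hk : k = 0 := by
    have h2 := classify_flip K i k
    rw [← hU.eq] at h2
    have := classify_U_inj K i _ _ (mul_right_cancel h2)
    omega
  subst hk
  rw [zpow_zero, one_mul] at hd
  have a0 := classifyCo_self K i
  have a1 := classifyCo_succ K i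
  have b0 := classifyCo_pred K (i + 1)
  have b1 := classifyCo_self K (i + 1)
  rw [add_sub_cancel_right] at b0
  have h10 : (1 : ZMod 2) ≠ 0 := one_ne_zero
  rcases hd with rfl | rfl
  · rcases hz with rfl | rfl
    · rfl
    · rw [one_mul, a0] at c0
      exact absurd c0 h10
  · rcases hz with rfl | rfl
    · rw [b1] at c1
      exact absurd c1 h10
    · rw [classifyCo_mul, a0, a1, zero_add] at c0
      exact absurd c0 h10

theorem classify_walk {Φ : MulAut L} (hΦ : ∀ a, Φ a ∈ K.P ↔ a ∈ K.P) {i : ℤ}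
    (h : ∀ j : ℤ, 0 ≤ j → j ≤ 3 → Φ (K.s j) = K.s (i + j)) (t : ℕ) (ht : 2 ≤ t) (htm : t ≤ m) :
    ∃ w : L, Φ (K.s t) = w * K.s (i + t) * w⁻¹ ∧ Φ (K.s (t + 1)) = w * K.s (i + t + 1) * w⁻¹ ∧
      (∀ r : ℤ, t ≤ r → r ≤ m + 1 → classifyCo K ((i + r : ℤ) : ZMod m) w = 0) ∧
      (K.vec w = 1 → w = 1 ∧ ∀ j : ℤ, 0 ≤ j → j ≤ t + 1 → Φ (K.s j) = K.s (i + j)) := by
  induction t, ht using Nat.le_induction with
  | base =>
    refine ⟨1, ?_, ?_, fun r _ _ => classifyCo_of_one K _ (map_one _), fun _ => ⟨rfl, ?_⟩⟩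
    · rw [h _ (by norm_num) (by norm_num)]; simp
    · rw [h _ (by norm_num) (by norm_num), one_mul, inv_one, mul_one, add_assoc]
    · exact fun j h1 h2 => h j h1 (by push_cast at h2; omega)
  | succ t ht ih =>
    obtain ⟨w, h0, h1, h2, h3⟩ := ih (by omega)
    have e1 : ((t + 1 : ℕ) : ℤ) = (t : ℤ) + 1 := by push_cast; ring
    have e2 : (t : ℤ) + 1 + 1 = t + 2 := by ring
    have e3 : i + ((t : ℤ) + 1) = i + t + 1 := by ring
    have e4 : i + (t : ℤ) + 1 + 1 = i + t + 2 := by ring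
    rw [e1, e2, e3, e4]
    rcases classify_step_conj K hΦ h0 h1 with h4 | h4
    · refine ⟨w, h1, h4, fun r hr hr' => h2 r (by omega) hr', fun hw => ?_⟩
      obtain ⟨rfl, h5⟩ := h3 hw
      refine ⟨rfl, fun j hj hj' => ?_⟩
      by_cases hj2 : j ≤ t + 1
      · exact h5 j hj hj2
      · have : j = t + 2 := by omega
        rw [this, h4, one_mul, inv_one, mul_one, add_assoc]
    · refine ⟨w * K.s (i + t), ?_, h4, fun r hr hr' => ?_, fun hw => ?_⟩
      · rw [h1, mul_assoc w (K.s (i + t)), (K.s_comm (i + t)).eq]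
        group
      · rw [classifyCo_mul, h2 r (by omega) hr', zero_add]
        exact classifyCo_ne K _ _ (classify_cast_ne (by omega) (by omega)).symm
      · exfalso
        have h5 := classifyCo_of_one K ((i + t : ℤ) : ZMod m) hw
        rw [classifyCo_mul, h2 t le_rfl (by omega), zero_add, classifyCo_self] at h5
        exact one_ne_zero h5

theorem classify_four {Φ : MulAut L} (hΦ : ∀ a, Φ a ∈ K.P ↔ a ∈ K.P) {i : ℤ}
    (h : ∀ j : ℤ, 0 ≤ j → j ≤ 3 → Φ (K.s j) = K.s (i + j)) : ∃ k, K.IsDelta Φ i k := by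
  have hm := K.two_le
  obtain ⟨w, h0, h1, h2, h3⟩ := classify_walk K hΦ h m hm le_rfl
  have hc := classify_vec_c K hΦ
  have hcom : ∀ j : ℤ, 0 ≤ j → j ≤ 3 → Φ (K.s (j + m)) = w * K.s (i + j + m) * w⁻¹ →
      Commute ((Φ K.c)⁻¹ * w * K.c) (K.s (i + j)) := fun j hj hj' hh => by
    rw [K.s_per, K.s_per, map_mul, map_mul, map_inv, h j hj hj'] at hh
    unfold Commute SemiconjBy
    calc (Φ K.c)⁻¹ * w * K.c * K.s (i + j)
        = (Φ K.c)⁻¹ * (w * (K.c * K.s (i + j) * K.c⁻¹) * w⁻¹) * (w * K.c) := by group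
      _ = (Φ K.c)⁻¹ * (Φ K.c * K.s (i + j) * (Φ K.c)⁻¹) * (w * K.c) := by rw [hh]
      _ = K.s (i + j) * ((Φ K.c)⁻¹ * w * K.c) := by group
  have hco : ∀ x, classifyCo K x ((Φ K.c)⁻¹ * w * K.c) = classifyCo K x w := fun x => by
    rw [classifyCo_mul, classifyCo_mul, classifyCo_inv, classifyCo_of_one K x hc,
      classifyCo_of_one K x K.vec_c, neg_zero, zero_add, add_zero]
  have hz : (Φ K.c)⁻¹ * w * K.c = 1 := by
    apply classify_cent2 K i
    · have := hcom 0 le_rfl (by norm_num) (by rw [zero_add, add_zero]; exact h0)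
      rwa [add_zero] at this
    · exact hcom 1 (by norm_num) (by norm_num)
        (by rw [add_comm (1 : ℤ), add_right_comm]; exact h1)
    · rw [hco]
      have := h2 m le_rfl (by omega)
      rwa [Int.cast_add, Int.cast_natCast, ZMod.natCast_self, add_zero] at this
    · rw [hco]
      have := h2 (m + 1) (by omega) le_rfl
      rwa [add_comm (m : ℤ), ← add_assoc, Int.cast_add, Int.cast_natCast, ZMod.natCast_self,
        add_zero] at this
  have hw : K.vec w = 1 := by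
    have := congrArg K.vec hz
    rwa [map_mul, map_mul, map_inv, hc, K.vec_c, inv_one, one_mul, mul_one, map_one] at this
  obtain ⟨rfl, h4⟩ := h3 hw
  have hcc : Φ K.c = K.c := by
    rw [mul_one, inv_mul_eq_one] at hz
    exact hz
  have hper : ∀ j : ℤ, Φ (K.s (j + m)) = K.s (i + (j + m)) ↔ Φ (K.s j) = K.s (i + j) := fun j => by
    rw [← add_assoc, K.s_per, K.s_per, map_mul, map_mul, map_inv, hcc, mul_left_inj, mul_right_inj]
  have hall : ∀ q r : ℤ, 0 ≤ r → r < m → Φ (K.s (r + m * q)) = K.s (i + (r + m * q)) := by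
    intro q r hr hr'
    induction q using Int.induction_on with
    | zero => rw [mul_zero, add_zero]; exact h4 r hr (by omega)
    | succ q ih => rw [mul_add, mul_one, ← add_assoc r]; exact (hper _).2 ih
    | pred q ih =>
      apply (hper _).1
      have e : r + (m : ℤ) * (-(q : ℤ) - 1) + m = r + m * -(q : ℤ) := by ring
      rw [e]
      exact ih
  obtain ⟨k, hk⟩ := K.inv_c (Φ K.X) ((hΦ _).2 K.X_mem) (by
    have := congrArg Φ K.X_c
    rwa [map_mul, map_mul, map_inv, map_inv, hcc] at this)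
  refine ⟨k, fun j => ?_, hcc, hk⟩
  have hm0 : (m : ℤ) ≠ 0 := by omega
  have := hall (j / m) (j % m) (Int.emod_nonneg j hm0) (Int.emod_lt_of_pos j (by omega))
  rwa [Int.emod_add_mul_ediv] at this

theorem classify_two {Φ : MulAut L} (hΦ : ∀ a, Φ a ∈ K.P ↔ a ∈ K.P) {i : ℤ}
    (h0 : Φ (K.s 0) = K.s i) (h1 : Φ (K.s 1) = K.s (i + 1)) :
    ∃ v k, K.IsDelta (MulAut.conj v * Φ) i k := by
  have fix : ∀ (a b : L), Commute a b → a⁻¹ * b * a⁻¹⁻¹ = b := fun a b hab => by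
    rw [inv_inv, mul_assoc, ← hab.eq, inv_mul_cancel_left]
  have s1 : ∃ v : L, (MulAut.conj v * Φ) (K.s 0) = K.s i ∧
      (MulAut.conj v * Φ) (K.s 1) = K.s (i + 1) ∧
      (MulAut.conj v * Φ) (K.s 2) = K.s (i + 2) := by
    rcases classify_step K hΦ (j := 0) h0 (by rw [zero_add]; exact h1) with h | h
    · rw [zero_add] at h
      exact ⟨1, by simpa using h0, by simpa using h1, by simpa using h⟩
    · rw [zero_add] at h
      refine ⟨(K.s i)⁻¹, ?_, ?_, ?_⟩ <;> rw [MulAut.mul_apply, MulAut.conj_apply]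
      · rw [h0]; exact fix _ _ (Commute.refl _)
      · rw [h1]; exact fix _ _ (K.s_comm i)
      · rw [h]; group
  obtain ⟨v, a0, a1, a2⟩ := s1
  have hΨ := classify_conj_pres K hΦ v
  have e1 : i + 1 + 1 = i + 2 := by ring
  have e2 : i + 1 + 2 = i + 3 := by ring
  have e3 : (1 : ℤ) + 2 = 3 := by norm_num
  have fin : ∀ Ψ : MulAut L, Ψ (K.s 0) = K.s i → Ψ (K.s 1) = K.s (i + 1) →
      Ψ (K.s 2) = K.s (i + 2) → Ψ (K.s 3) = K.s (i + 3) →
      ∀ j : ℤ, 0 ≤ j → j ≤ 3 → Ψ (K.s j) = K.s (i + j) := fun Ψ b0 b1 b2 b3 j hj hj' => by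
    obtain rfl | rfl | rfl | rfl : j = 0 ∨ j = 1 ∨ j = 2 ∨ j = 3 := by omega
    · rw [add_zero]; exact b0
    · exact b1
    · exact b2
    · exact b3
  rcases classify_step K hΨ (j := 1) a1 (by rw [e1]; exact a2) with h | h
  · rw [e2, e3] at h
    obtain ⟨k, hk⟩ := classify_four K hΨ (fin _ a0 a1 a2 h)
    exact ⟨v, k, hk⟩
  · rw [e2, e3] at h
    have hc2 : Commute (K.s (i + 1)) (K.s (i + 2)) := by rw [← e1]; exact K.s_comm _
    obtain ⟨k, hk⟩ := classify_four K (classify_conj_pres K hΨ (K.s (i + 1))⁻¹) (fin _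
      (by rw [MulAut.mul_apply, MulAut.conj_apply, a0]; exact fix _ _ (K.s_comm i).symm)
      (by rw [MulAut.mul_apply, MulAut.conj_apply, a1]; exact fix _ _ (Commute.refl _))
      (by rw [MulAut.mul_apply, MulAut.conj_apply, a2]; exact fix _ _ hc2)
      (by rw [MulAut.mul_apply, MulAut.conj_apply, h]; group))
    refine ⟨(K.s (i + 1))⁻¹ * v, k, ?_⟩
    rwa [map_mul, mul_assoc]

theorem classify_norm {Φ : MulAut L} (hΦ : ∀ a, Φ a ∈ K.P ↔ a ∈ K.P) : ∃ (v : L) (i : ℤ),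
    (MulAut.conj v * Φ) (K.s 0) = K.s i ∧
      ((MulAut.conj v * Φ) (K.s 1) = K.s (i + 1) ∨ (MulAut.conj v * Φ) (K.s 1) = K.s (i - 1)) := by
  obtain ⟨w, i, hw⟩ := K.refl_conj (Φ (K.s 0)) (by rw [← map_mul, K.s_sq, map_one])
    (by rw [hΦ]; exact K.s_not 0)
  have h0 : (MulAut.conj w⁻¹ * Φ) (K.s 0) = K.s i := by
    rw [MulAut.mul_apply, MulAut.conj_apply, hw]; group
  obtain ⟨-, l, -, h1, -⟩ := classify_nb K (classify_conj_pres K hΦ w⁻¹) h0
  rw [zero_add] at h1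
  obtain ⟨t, ht⟩ := Int.even_or_odd' l
  have hconj : (MulAut.conj ((K.s (i - 1) * K.s (i + 1)) ^ (-t) * w⁻¹) * Φ) (K.s 1) =
      (K.s (i - 1) * K.s (i + 1)) ^ (l - 2 * t) * K.s (i + 1) := by
    rw [map_mul, mul_assoc, MulAut.mul_apply, h1, MulAut.conj_apply, ← zpow_neg, neg_neg,
      mul_assoc, mul_assoc, classify_flip, ← mul_assoc, ← mul_assoc, ← zpow_add, ← zpow_add]
    congr 2
    ring
  refine ⟨(K.s (i - 1) * K.s (i + 1)) ^ (-t) * w⁻¹, i, ?_, ?_⟩
  · rw [map_mul, mul_assoc, MulAut.mul_apply, h0, MulAut.conj_apply, ← (classify_comm_U K i _).eq,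
      mul_inv_cancel_right]
  · rcases ht with ht | ht
    · left
      rw [hconj, ht, sub_self, zpow_zero, one_mul]
    · right
      rw [hconj, ht, add_sub_cancel_left, zpow_one, mul_assoc, K.s_sq, mul_one]

end ClassifyAux

theorem Chain.classify {L : Type*} [Group L] {m : ℕ} (K : Chain L m) (Φ : MulAut L)
    (hΦ : ∀ a, Φ a ∈ K.P ↔ a ∈ K.P) : ∃ (v : L) (i k : ℤ),
      K.IsDelta (MulAut.conj v * Φ) i k ∨ K.IsDelta (K.ν * MulAut.conj v * Φ) i k := by
  obtain ⟨v, i, h0, h1 | h1⟩ := classify_norm K hΦ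
  · obtain ⟨v', k, hk⟩ := classify_two K (classify_conj_pres K hΦ v) h0 h1
    refine ⟨v' * v, i, k, Or.inl ?_⟩
    rwa [map_mul, mul_assoc]
  · obtain ⟨v', k, hk⟩ := classify_two K (Φ := K.ν * (MulAut.conj v * Φ)) (i := -i)
      (fun a => by rw [MulAut.mul_apply, K.ν_P, classify_conj_pres K hΦ])
      (by rw [MulAut.mul_apply, h0, K.ν_s])
      (by rw [MulAut.mul_apply, h1, K.ν_s]; congr 1; ring)
    refine ⟨K.ν.symm v' * v, -i, k, Or.inr ?_⟩
    have e : K.ν * MulAut.conj (K.ν.symm v' * v) * Φ =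
        MulAut.conj v' * (K.ν * (MulAut.conj v * Φ)) := by
      ext a
      simp [mul_assoc]
    rwa [e]

end Pool.Agent.Lib.MP_66609f_al
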