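import Mathlib

/-!
Definitions used in the statement: surface groups, the mapping class group as the
orientation-preserving outer automorphism group, balls and growth series.
-/

namespace Pool.Agent.Lib.MP_66609f_al

/-- The relator `[a_1,b_1] ... [a_g,b_g]`; the generator `(i,false)` is `a_i` and `(i,true)` is `b_i`. -/
def surfRel (g : ℕ) : FreeGroup (Fin g × Bool) :=
  (List.ofFn fun i : Fin g =>
    FreeGroup.of (i, false) * FreeGroup.of (i, true) * (FreeGroup.of (i, false))⁻¹ *
      (FreeGroup.of (i, true))⁻¹).prod

/-- The fundamental group of the closed orientable surface of genus `g`. -/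
abbrev SurfaceGroup (g : ℕ) : Type :=
  PresentedGroup ({surfRel g} : Set (FreeGroup (Fin g × Bool)))

theorem lift_surfRel_comm {g : ℕ} {A : Type*} [CommGroup A] (f : Fin g × Bool → A) :
    FreeGroup.lift f (surfRel g) = 1 := by
  unfold surfRel
  rw [map_list_prod, List.map_ofFn]
  apply List.prod_eq_one
  intro x hx
  rw [List.mem_ofFn] at hx
  obtain ⟨i, rfl⟩ := hx
  simp [mul_comm, mul_left_comm]

/-- The exponent sum of the generator `j`, a homomorphism to the integers. -/
def expo (g : ℕ) (j : Fin g × Bool) : SurfaceGroup g →* Multiplicative ℤ :=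
  PresentedGroup.toGroup (f := fun k => Multiplicative.ofAdd (if k = j then (1 : ℤ) else 0))
    (by
      intro r hr
      rw [Set.mem_singleton_iff] at hr
      subst hr
      exact lift_surfRel_comm _)

/-- The algebraic intersection number of the homology classes of `x` and `y`. -/
def interForm (g : ℕ) (x y : SurfaceGroup g) : ℤ :=
  ∑ i : Fin g, ((expo g (i, false) x).toAdd * (expo g (i, true) y).toAdd -
    (expo g (i, true) x).toAdd * (expo g (i, false) y).toAdd)

/-- Automorphisms preserving the intersection form (the orientation-preserving ones). -/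
def AutPlus (g : ℕ) : Subgroup (MulAut (SurfaceGroup g)) where
  carrier := {φ | ∀ x y, interForm g (φ x) (φ y) = interForm g x y}
  one_mem' := fun _ _ => rfl
  mul_mem' := by
    intro φ ψ hφ hψ x y
    simp only [MulAut.mul_apply]
    rw [hφ, hψ]
  inv_mem' := by
    intro φ hφ x y
    have h := hφ (φ⁻¹ x) (φ⁻¹ y)
    simpa using h.symm

/-- Inner automorphisms. -/
def Inn (H : Type*) [Group H] : Subgroup (MulAut H) := (MulAut.conj : H →* MulAut H).range

instance innNormal (H : Type*) [Group H] : (Inn H).Normal where
  conj_mem := by
    rintro _ ⟨h, rfl⟩ φ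
    refine ⟨φ h, ?_⟩
    ext x
    simp

/-- The outer automorphism group. -/
abbrev Out (H : Type*) [Group H] := MulAut H ⧸ Inn H

/-- The mapping class group of the closed orientable surface of genus `g` in its
Dehn-Nielsen-Baer form: the classes in `Out` of the surface group of the automorphisms
preserving the intersection form. -/
def Mod (g : ℕ) : Subgroup (Out (SurfaceGroup g)) :=
  (AutPlus g).map (QuotientGroup.mk' (Inn (SurfaceGroup g)))

/-- The ball of radius `n` for the word length with respect to `S` and inverses. -/
def ball {G : Type*} [Group G] (S : Set G) (n : ℕ) : Set G :=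
  {x | ∃ l : List G, l.length ≤ n ∧ (∀ y ∈ l, y ∈ S ∨ y⁻¹ ∈ S) ∧ l.prod = x}

/-- The growth series of balls, with complex coefficients. -/
noncomputable def growthSeries {G : Type*} [Group G] (S : Set G) : PowerSeries ℂ :=
  PowerSeries.mk fun n => ((ball S n).ncard : ℂ)

/-- A power series is rational if it is a quotient of two polynomials. -/
def IsRational (f : PowerSeries ℂ) : Prop :=
  ∃ P Q : Polynomial ℂ, Q ≠ 0 ∧ (Q : PowerSeries ℂ) * f = (P : PowerSeries ℂ)

end Pool.Agent.Lib.MP_66609f_al
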