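import Pool.Agent.Lib.MP_66609f_al.CoxDefs
import Pool.Agent.Lib.MP_66609f_al.Defs

/-! The colouring of the `(g+3)`-gon and its subgroups: definitions. -/

namespace Pool.Agent.Lib.MP_66609f_al

/-- The colour group. -/
abbrev PP : Type := Multiplicative (ZMod 2 × ZMod 2 × ZMod 2)

theorem PP.mul_self (p : PP) : p * p = 1 := by
  revert p
  decide

/-- Colours of the sides `t3 = 0`, `e_i = i` for `1 ≤ i ≤ g`, `t1 = g+1`, `t2 = g+2`. -/
def colg (g : ℕ) (i : ZMod (g + 3)) : PP :=
  if i.val = 0 ∨ i.val = g + 1 then Multiplicative.ofAdd (0, 0, 1)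
  else if i.val = g + 2 then Multiplicative.ofAdd (1, 1, 1)
  else if i.val % 2 = 1 then Multiplicative.ofAdd (1, 0, 0) else Multiplicative.ofAdd (0, 1, 0)

def col (g : ℕ) : W (g + 3) →* PP :=
  coxLift (colg g) (fun _ => PP.mul_self _) (fun i => by
    have h1 := PP.mul_self (colg g i * colg g (i + 1))
    simpa [mul_assoc] using h1)

/-- Sign of an element of `ZMod 2`. -/
def sgn2 (a : ZMod 2) : ℤ := if a = 0 then 1 else -1

/-- The sign given by the third coordinate. -/
def chi (p : PP) : ℤ := sgn2 p.toAdd.2.2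

/-- The orientation sign. -/
def ori (p : PP) : ℤ := sgn2 (p.toAdd.1 + p.toAdd.2.1 + p.toAdd.2.2)

def lamP : Subgroup PP where
  carrier := {p | p.toAdd.2.2 = 0}
  one_mem' := by decide
  mul_mem' := by decide
  inv_mem' := by decide

def hypP : Subgroup PP where
  carrier := {p | p.toAdd.2.2 = 0 ∧ p.toAdd.1 = p.toAdd.2.1}
  one_mem' := by decide
  mul_mem' := by decide
  inv_mem' := by decide

/-- The surface group inside the Coxeter group. -/
def piG (g : ℕ) : Subgroup (W (g + 3)) := (col g).ker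

/-- The group of the sphere with `2g+2` cone points. -/
def hypG (g : ℕ) : Subgroup (W (g + 3)) := hypP.comap (col g)

/-- The group of the disc with two cone points and mirror boundary. -/
def lamG (g : ℕ) : Subgroup (W (g + 3)) := lamP.comap (col g)

instance piG_normal (g : ℕ) : (piG g).Normal := MonoidHom.normal_ker _

instance hypG_normal (g : ℕ) : (hypG g).Normal := Subgroup.Normal.comap inferInstance _

instance lamG_normal (g : ℕ) : (lamG g).Normal := Subgroup.Normal.comap inferInstance _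

/-- The reflection in the side with number `i`. -/
def ee (g i : ℕ) : W (g + 3) := sg ((i : ℕ) : ZMod (g + 3))

def t3 (g : ℕ) : W (g + 3) := ee g 0

def t1 (g : ℕ) : W (g + 3) := ee g (g + 1)

def t2 (g : ℕ) : W (g + 3) := ee g (g + 2)

def cc (g : ℕ) : W (g + 3) := t1 g * t3 g

theorem five_le {g : ℕ} (hg : 3 ≤ g) : 5 ≤ g + 3 := by omega

/-- Conjugation by elements of the Coxeter group, acting on the surface group. -/
def cj (g : ℕ) : W (g + 3) →* MulAut (piG g) := MulAut.conjNormal

/-- The class of an automorphism. -/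
def oc (g : ℕ) : MulAut (piG g) →* Out (piG g) := QuotientGroup.mk' _

/-- Cocycles over the colour states with values in `M`. -/
@[ext]
structure Coc (g : ℕ) (M : Type*) [Group M] where
  F : PP → W (g + 3) → M
  mul : ∀ p w w', F p (w * w') = F p w * F (p * col g w) w'

/-- Colour preserving cocycles with values in the Coxeter group. -/
@[ext]
structure Tw (g : ℕ) where
  F : PP → W (g + 3) → W (g + 3)
  mul : ∀ p w w', F p (w * w') = F p w * F (p * col g w) w'
  col_F : ∀ p w, col g (F p w) = col g w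

instance (g : ℕ) : Monoid (Tw g) where
  mul A B := ⟨fun p w => A.F p (B.F p w), fun p w w' => by rw [B.mul, A.mul, B.col_F],
    fun p w => by rw [A.col_F, B.col_F]⟩
  one := ⟨fun _ w => w, fun _ _ _ => rfl, fun _ _ => rfl⟩
  mul_assoc _ _ _ := rfl
  one_mul _ := rfl
  mul_one _ := rfl

theorem Tw.mul_F {g : ℕ} (A B : Tw g) (p : PP) (w : W (g + 3)) :
    (A * B).F p w = A.F p (B.F p w) := rfl

theorem Tw.one_F {g : ℕ} (p : PP) (w : W (g + 3)) : (1 : Tw g).F p w = w := rfl

/-- Shifting the initial state. -/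
def Tw.shift {g : ℕ} (q : PP) : Tw g →* Tw g where
  toFun A := ⟨fun p w => A.F (q * p) w, fun p w w' => by rw [A.mul, mul_assoc],
    fun p w => A.col_F _ _⟩
  map_one' := rfl
  map_mul' _ _ := rfl

theorem Tw.mem_piG {g : ℕ} (A : Tw g) (p : PP) (γ : piG g) : A.F p γ ∈ piG g := by
  have h : col g γ = 1 := γ.2
  change col g _ = 1
  rw [A.col_F, h]

/-- Restriction to the surface group. -/
def Tw.res (g : ℕ) : (Tw g)ˣ →* MulAut (piG g) where
  toFun A :=
    { toFun := fun γ => ⟨(A : Tw g).F 1 γ, Tw.mem_piG _ _ _⟩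
      invFun := fun γ => ⟨((A⁻¹ : (Tw g)ˣ) : Tw g).F 1 γ, Tw.mem_piG _ _ _⟩
      left_inv := fun γ => by
        ext
        change (((A⁻¹ : (Tw g)ˣ) : Tw g) * (A : Tw g)).F 1 γ = γ
        rw [Units.inv_mul]
        rfl
      right_inv := fun γ => by
        ext
        change ((A : Tw g) * ((A⁻¹ : (Tw g)ˣ) : Tw g)).F 1 γ = γ
        rw [Units.mul_inv]
        rfl
      map_mul' := fun γ δ => by
        ext
        have h : col g γ = 1 := γ.2
        change (A : Tw g).F 1 (γ * δ) = (A : Tw g).F 1 γ * (A : Tw g).F 1 δ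
        rw [Tw.mul, h, mul_one] }
  map_one' := by
    ext
    rfl
  map_mul' _ _ := by
    ext
    rfl

theorem Tw.res_apply {g : ℕ} (A : (Tw g)ˣ) (γ : piG g) :
    ((Tw.res g A γ : piG g) : W (g + 3)) = (A : Tw g).F 1 γ := rfl

/-- Admissible exponent functions for a twist along the side `i`. -/
def TwOK (g : ℕ) (i : ZMod (g + 3)) (κ : PP → ℤ) : Prop :=
  (∀ p, κ (p * colg g (i - 1)) = -κ p ∧ κ (p * colg g i) = -κ p ∧
    κ (p * colg g (i + 1)) = -κ p) ∧ ∀ p, col g (ut i ^ κ p) = 1

/-- `A` is the twist along the side `i` with exponent function `κ`. -/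
def IsTwist {g : ℕ} (A : Tw g) (i : ZMod (g + 3)) (κ : PP → ℤ) : Prop :=
  (∀ p, A.F p (sg i) = ut i ^ κ p * sg i) ∧ ∀ p j, j ≠ i → A.F p (sg j) = sg j

def kapT (k : ℤ) (p : PP) : ℤ := chi p * k

def kapU (p : PP) : ℤ := if chi p = 1 then ori p else 0

def kapL (p : PP) : ℤ := if chi p = 1 then 0 else ori p

def kapM (p : PP) : ℤ := 2 * ori p

end Pool.Agent.Lib.MP_66609f_al
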