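import Pool.Agent.Lib.MP_66609f_al.ThDefs
import Pool.Agent.Lib.MP_66609f_al.ChainW

namespace Pool.Agent.Lib.MP_66609f_al

open Pointwise

variable {g : ℕ}

theorem colFacts_val_succ (i : ZMod (g + 3)) :
    (i + 1).val = if i.val = g + 2 then 0 else i.val + 1 := by
  have h1 : (1 : ZMod (g + 3)).val = 1 := by
    have : ((1 : ℕ) : ZMod (g + 3)).val = 1 := by
      rw [ZMod.val_natCast]
      exact Nat.mod_eq_of_lt (by omega)
    simpa using this
  have hi : i.val < g + 3 := ZMod.val_lt i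
  rw [ZMod.val_add, h1]
  split_ifs with h
  · rw [h]
    exact Nat.mod_self _
  · exact Nat.mod_eq_of_lt (by omega)

theorem colFacts_val_pred (i : ZMod (g + 3)) :
    (i - 1).val = if i.val = 0 then g + 2 else i.val - 1 := by
  have h := colFacts_val_succ (i - 1)
  have hi : (i - 1).val < g + 3 := ZMod.val_lt _
  rw [sub_add_cancel] at h
  split_ifs at h ⊢ <;> omega

theorem colFacts_val_nat (k : ℕ) (hk : k < g + 3) : ((k : ℕ) : ZMod (g + 3)).val = k := by
  rw [ZMod.val_natCast]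
  exact Nat.mod_eq_of_lt hk

theorem colFacts_key (hg : 3 ≤ g) (i : ZMod (g + 3)) :
    colg g i ≠ 1 ∧ colg g i ≠ colg g (i - 1) ∧ colg g i ≠ colg g (i + 1) ∧
      colg g i ≠ colg g (i - 1) * colg g (i + 1) := by
  have hi : i.val < g + 3 := ZMod.val_lt i
  have h1 := colFacts_val_succ i
  have h2 := colFacts_val_pred i
  unfold colg
  generalize (i + 1).val = b at h1 ⊢
  generalize (i - 1).val = a at h2 ⊢
  generalize i.val = k at hi h1 h2 ⊢
  split_ifs at h1 h2 ⊢ <;> first | omega | decide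

theorem colFacts_zpow (p : PP) (k : ℤ) : p ^ k = 1 ∨ p ^ k = p := by
  have h2 : ∀ m : ℤ, p ^ (2 * m) = 1 := fun m => by
    rw [zpow_mul, zpow_two, PP.mul_self, one_zpow]
  rcases Int.even_or_odd' k with ⟨m, rfl | rfl⟩
  · exact Or.inl (h2 m)
  · right
    rw [zpow_add, h2, one_mul, zpow_one]

theorem colFacts_col_pair (i j : ZMod (g + 3)) (d : W (g + 3)) (hd : d ∈ WJ {i, j}) :
    col g d = 1 ∨ col g d = colg g i ∨ col g d = colg g j ∨ col g d = colg g i * colg g j := by
  obtain ⟨k, rfl | rfl⟩ := mem_WJ_pair i j d hd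
  · rw [map_zpow, map_mul, col_sg, col_sg]
    rcases colFacts_zpow (colg g i * colg g j) k with h | h <;> simp [h]
  · rw [map_mul, map_zpow, map_mul, col_sg, col_sg]
    rcases colFacts_zpow (colg g i * colg g j) k with h | h
    · simp [h]
    · rw [h, mul_assoc, PP.mul_self, mul_one]
      simp

theorem colFacts_mem_pair (hg : 3 ≤ g) (a : W (g + 3)) (ha : a ∈ piG g) (i : ZMod (g + 3))
    (h : Commute a (sg i)) : a ∈ WJ {i - 1, i + 1} := by
  obtain ⟨d, hd, rfl | rfl⟩ := mem_star_cases i a (mem_star_of_commute i a h)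
  · exact hd
  · exfalso
    have h1 : col g (d * sg i) = 1 := ha
    rw [map_mul, col_sg] at h1
    have h2 : colg g i = col g d := by
      have h3 := PP.mul_self (col g d)
      exact (mul_left_cancel (h3.trans h1.symm)).symm
    obtain ⟨k1, k2, k3, k4⟩ := colFacts_key hg i
    rcases colFacts_col_pair _ _ d hd with h | h | h | h
    · exact k1 (h2.trans h)
    · exact k2 (h2.trans h)
    · exact k3 (h2.trans h)
    · exact k4 (h2.trans h)

/-- Elements of the surface group never reflect in a wall. -/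
theorem side_false_of_commute (hg : 3 ≤ g) (a : W (g + 3)) (ha : a ∈ piG g) (i : ZMod (g + 3))
    (h : Commute a (sg i)) : side (sg i) a = false := by
  have h1 := (mem_WJ_iff _ _).1 (colFacts_mem_pair hg a ha i h) (sg i) i
  by_contra hc
  have h2 := h1 (by simpa using hc) ⟨1, by simp⟩
  obtain ⟨-, k2, k3, -⟩ := colFacts_key hg i
  rcases h2 with h2 | h2
  · exact k2 (congrArg (colg g) h2)
  · exact k3 (congrArg (colg g) h2)

theorem exists_skew (hg : 3 ≤ g) (a : W (g + 3)) (ha : a ∈ piG g) (h1 : a ≠ 1) :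
    ∃ A, (coxHS (g + 3) (five_le hg)).Skew a A := by
  have hn : ∀ w : W (g + 3), w⁻¹ * a * w ∈ piG g := fun w => by
    simpa using (piG_normal g).conj_mem a ha w⁻¹
  rcases skew_or_elliptic (five_le hg) Set.univ a
    (fun w i _ h => side_false_of_commute hg _ (hn w) i h) with ⟨i, -, A, -, hA⟩ | ⟨w, hw⟩
  · exact ⟨A, hA⟩
  · exfalso
    rw [Set.compl_univ, WJ, Set.image_empty, Subgroup.closure_empty, Subgroup.mem_bot] at hw
    apply h1
    calc a = w * (w⁻¹ * a * w) * w⁻¹ := by group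
      _ = 1 := by rw [hw]; group

theorem colFacts_pred : ((g + 2 : ℕ) : ZMod (g + 3)) - 1 = ((g + 1 : ℕ) : ZMod (g + 3)) := by
  push_cast
  ring

theorem colFacts_succ : ((g + 2 : ℕ) : ZMod (g + 3)) + 1 = ((0 : ℕ) : ZMod (g + 3)) := by
  have h : ((g + 3 : ℕ) : ZMod (g + 3)) = 0 := ZMod.natCast_self _
  rw [Nat.cast_zero, ← h]
  push_cast
  ring

theorem cc_eq_ut : cc g = ut ((g + 2 : ℕ) : ZMod (g + 3)) := by
  rw [ut, colFacts_pred, colFacts_succ]
  rfl

theorem commute_t2_pi (hg : 3 ≤ g) (a : W (g + 3)) (ha : a ∈ piG g) (h : Commute a (t2 g)) :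
    ∃ m : ℤ, a = cc g ^ m := by
  obtain ⟨k, hk | hk⟩ := mem_WJ_pair _ _ a (colFacts_mem_pair hg a ha _ h)
  · exact ⟨k, by rw [hk, cc_eq_ut, ut]⟩
  · exfalso
    have h1 : col g a = 1 := ha
    have h2 : col g (cc g) = 1 := cc_mem_piG hg
    rw [cc_eq_ut, ut] at h2
    rw [hk, map_mul, map_zpow, h2, one_zpow, one_mul, col_sg] at h1
    exact (colFacts_key hg _).1 h1

theorem cc_ne_one (hg : 3 ≤ g) : cc g ≠ 1 := by
  intro h
  have h1 := (ut_skew (five_le hg) ((g + 2 : ℕ) : ZMod (g + 3))).2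
  rw [← cc_eq_ut, h, one_smul] at h1
  exact h1.ne rfl

theorem bb'_mem (hg : 3 ≤ g) : bb' g ∈ piG g := by
  change col g (ee g 1 * ee g 3) = 1
  rw [map_mul, ee, ee, col_sg, col_sg]
  unfold colg
  rw [colFacts_val_nat 1 (by omega), colFacts_val_nat 3 (by omega), if_neg (by omega),
    if_neg (by omega), if_pos (by omega), if_neg (by omega), if_neg (by omega)]
  decide

theorem colFacts_conj (i : ZMod (g + 3)) (w : W (g + 3)) (hw : w ∈ piG g) :
    sg i * w * sg i ∈ piG g := by
  have h := (piG_normal g).conj_mem w hw (sg i)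
  rwa [sg_inv] at h

theorem bb_mem (hg : 3 ≤ g) : bb g ∈ piG g :=
  colFacts_conj _ _ (bb'_mem hg)

theorem eg_mem (w : W (g + 3)) (hw : w ∈ piG g) : eg g w ∈ piG g :=
  colFacts_conj _ _ hw

theorem colFacts_ee_comm (k : ℕ) : Commute (ee g k) (ee g (k + 1)) := by
  have h := sg_comm ((k : ℕ) : ZMod (g + 3))
  unfold ee
  rwa [Nat.cast_succ]

theorem colFacts_t2_t3 : Commute (t2 g) (t3 g) := by
  have h := sg_comm ((g + 2 : ℕ) : ZMod (g + 3))
  rwa [colFacts_succ] at h

theorem colFacts_span (x : PP)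
    (hx : x = Multiplicative.ofAdd (1, 0, 0) ∨ x = Multiplicative.ofAdd (0, 1, 0)) (p : PP) :
    ∃ a b c : Bool, p = (if a then x else 1) *
      ((if b then Multiplicative.ofAdd (0, 0, 1) else 1) *
        (if c then Multiplicative.ofAdd (1, 1, 1) else 1)) := by
  rcases hx with rfl | rfl <;> revert p <;> decide

/-- Coset representatives inside the star of `t1`. -/
theorem exists_rep_t1 (hg : 3 ≤ g) (w : W (g + 3)) : ∃ γ ∈ piG g, ∃ u, w = γ * u ∧
    Commute u (t1 g) ∧ (u * cc g * u⁻¹ = cc g ∨ u * cc g * u⁻¹ = (cc g)⁻¹ ∨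
      u * cc g * u⁻¹ = eg g (cc g) ∨ u * cc g * u⁻¹ = (eg g (cc g))⁻¹) := by
  have c1 : col g (ee g g) = Multiplicative.ofAdd (1, 0, 0) ∨
      col g (ee g g) = Multiplicative.ofAdd (0, 1, 0) := by
    rw [ee, col_sg]
    unfold colg
    rw [colFacts_val_nat g (by omega)]
    split_ifs <;> first | omega | decide
  have c2 : col g (t1 g) = Multiplicative.ofAdd (0, 0, 1) := by
    rw [t1, ee, col_sg]
    unfold colg
    rw [colFacts_val_nat (g + 1) (by omega), if_pos (Or.inr rfl)]
  have c3 : col g (t2 g) = Multiplicative.ofAdd (1, 1, 1) := by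
    rw [t2, ee, col_sg]
    unfold colg
    rw [colFacts_val_nat (g + 2) (by omega), if_neg (by omega), if_pos rfl]
  obtain ⟨a, b, c, h⟩ := colFacts_span _ c1 (col g w)
  have ie : (ee g g)⁻¹ = ee g g := sg_inv _
  have i1 : (t1 g)⁻¹ = t1 g := sg_inv _
  have i3 : (t3 g)⁻¹ = t3 g := sg_inv _
  have m1 : t1 g * t1 g = 1 := sg_mul_self _
  have k1 : Commute (ee g g) (t1 g) := colFacts_ee_comm g
  have k2 : Commute (t2 g) (t1 g) := (colFacts_ee_comm (g + 1)).symm
  have k3 : Commute (t2 g) (cc g) := k2.mul_right colFacts_t2_t3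
  set x : W (g + 3) := if a then ee g g else 1 with hx
  set y : W (g + 3) := if b then t1 g else 1 with hy
  set z : W (g + 3) := if c then t2 g else 1 with hz
  have hcol : col g (x * (y * z)) = col g w := by
    rw [h, map_mul, map_mul, hx, hy, hz, ← c2, ← c3]
    cases a <;> cases b <;> cases c <;> simp
  have e3 : z * cc g * z⁻¹ = cc g := by
    rw [hz]
    cases c
    · simp
    · simp [k3.eq]
  have e2 : y * cc g * y⁻¹ = cc g ∨ y * cc g * y⁻¹ = (cc g)⁻¹ := by
    rw [hy]
    cases b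
    · simp
    · right
      rw [if_pos rfl, cc, mul_inv_rev, i1, i3, ← mul_assoc, m1, one_mul]
  refine ⟨w * (x * (y * z))⁻¹, ?_, x * (y * z), by group, ?_, ?_⟩
  · change col g _ = 1
    rw [map_mul, map_inv, hcol, mul_inv_cancel]
  · refine Commute.mul_left ?_ (Commute.mul_left ?_ ?_)
    · rw [hx]
      cases a
      · simp
      · simpa using k1
    · rw [hy]
      cases b
      · simp
      · simp
    · rw [hz]
      cases c
      · simp
      · simpa using k2
  · have e : x * (y * z) * cc g * (x * (y * z))⁻¹ = x * (y * (z * cc g * z⁻¹) * y⁻¹) * x⁻¹ := by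
      group
    rw [e, e3, hx]
    cases a
    · rcases e2 with e2 | e2 <;> simp [e2]
    · rw [if_pos rfl, ie]
      rcases e2 with e2 | e2
      · rw [e2]
        exact Or.inr (Or.inr (Or.inl rfl))
      · rw [e2]
        refine Or.inr (Or.inr (Or.inr ?_))
        rw [eg, mul_inv_rev, mul_inv_rev, ie, mul_assoc]

end Pool.Agent.Lib.MP_66609f_al
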