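import Pool.Agent.Lib.MP_66609f_al.ColFacts

namespace Pool.Agent.Lib.MP_66609f_al

open Pointwise

variable {g : ℕ}

theorem colFacts2_rep (g : ℕ) : ∃ rep : PP → W (g + 3), rep 1 = 1 ∧
    ∀ w, col g (rep (col g w)) = col g w := by
  classical
  refine ⟨fun p => if p = 1 then 1 else if h : ∃ w, col g w = p then h.choose else 1, by simp,
    fun w => ?_⟩
  by_cases h1 : col g w = 1
  · simp only [h1, if_true, map_one]
  · have h : ∃ w', col g w' = col g w := ⟨w, rfl⟩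
    simp only [if_neg h1, dif_pos h]
    exact h.choose_spec

theorem colFacts2_ap (φ : MulAut (piG g)) (γ : piG g) : ap φ γ = (φ γ : piG g) := by
  unfold ap
  rw [dif_pos γ.2]

/-- The extension of an automorphism. -/
noncomputable def colFacts2_M (rep : PP → W (g + 3)) (ψ : MulAut (piG g)) (w : W (g + 3)) :
    W (g + 3) := ap ψ (w * (rep (col g w))⁻¹) * rep (col g w)

theorem colFacts2_split {rep : PP → W (g + 3)} (hr : ∀ w, col g (rep (col g w)) = col g w)
    (w : W (g + 3)) : ∃ γ : piG g, w = γ * rep (col g w) := by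
  refine ⟨⟨w * (rep (col g w))⁻¹, ?_⟩, by simp⟩
  change col g _ = 1
  rw [map_mul, map_inv, hr, mul_inv_cancel]

theorem colFacts2_M_eq {rep : PP → W (g + 3)} (hr : ∀ w, col g (rep (col g w)) = col g w)
    (ψ : MulAut (piG g)) (γ : piG g) (w : W (g + 3)) :
    colFacts2_M rep ψ (γ * rep (col g w)) = (ψ γ : piG g) * rep (col g w) := by
  have h : col g γ = 1 := γ.2
  unfold colFacts2_M
  rw [map_mul, h, one_mul, hr, mul_inv_cancel_right, colFacts2_ap]

theorem colFacts2_M_mul {rep : PP → W (g + 3)} (hr : ∀ w, col g (rep (col g w)) = col g w)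
    (ψ : MulAut (piG g)) (γ : piG g) (w : W (g + 3)) :
    colFacts2_M rep ψ (γ * w) = (ψ γ : piG g) * colFacts2_M rep ψ w := by
  obtain ⟨δ, hδ⟩ := colFacts2_split hr w
  have h1 := colFacts2_M_eq hr ψ δ w
  have h2 := colFacts2_M_eq hr ψ (γ * δ) w
  rw [← hδ] at h1
  rw [Subgroup.coe_mul, mul_assoc, ← hδ] at h2
  rw [h1, h2, map_mul, Subgroup.coe_mul, mul_assoc]

theorem colFacts2_M_inv {rep : PP → W (g + 3)} (hr : ∀ w, col g (rep (col g w)) = col g w)
    (ψ ψ' : MulAut (piG g)) (h : ∀ γ, ψ' (ψ γ) = γ) (w : W (g + 3)) :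
    colFacts2_M rep ψ' (colFacts2_M rep ψ w) = w := by
  obtain ⟨δ, hδ⟩ := colFacts2_split hr w
  have h1 := colFacts2_M_eq hr ψ δ w
  rw [← hδ] at h1
  rw [h1, colFacts2_M_eq hr, h, ← hδ]

theorem colFacts2_M_bd {rep : PP → W (g + 3)} (hr : ∀ w, col g (rep (col g w)) = col g w)
    (ψ : MulAut (piG g)) : ∃ K : ℕ, ∀ w i,
      len ((colFacts2_M rep ψ w)⁻¹ * colFacts2_M rep ψ (w * sg i)) ≤ K := by
  obtain ⟨K, hK⟩ := (Set.finite_range fun x : PP × ZMod (g + 3) =>
    len ((colFacts2_M rep ψ (rep x.1))⁻¹ * colFacts2_M rep ψ (rep x.1 * sg x.2))).bddAbove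
  refine ⟨K, fun w i => ?_⟩
  obtain ⟨δ, hδ⟩ := colFacts2_split hr w
  have h1 := hK ⟨(col g w, i), rfl⟩
  have e : (colFacts2_M rep ψ w)⁻¹ * colFacts2_M rep ψ (w * sg i) =
      (colFacts2_M rep ψ (rep (col g w)))⁻¹ * colFacts2_M rep ψ (rep (col g w) * sg i) := by
    conv_lhs => rw [hδ, mul_assoc, colFacts2_M_mul hr, colFacts2_M_mul hr]
    group
  rw [e]
  exact h1

/-- Every automorphism of the surface group extends to a bi-Lipschitz bijection. -/
theorem exists_biLip (hg : 3 ≤ g) (ψ : MulAut (piG g)) :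
    ∃ (K : ℕ) (Ψ : W (g + 3) ≃ W (g + 3)), (coxHS (g + 3) (five_le hg)).BiLip K Ψ ∧
      (∀ (γ : piG g) w, Ψ (γ * w) = (ψ γ : piG g) * Ψ w) ∧ Ψ 1 = 1 := by
  obtain ⟨rep, h1, hr⟩ := colFacts2_rep g
  obtain ⟨K1, hK1⟩ := colFacts2_M_bd hr ψ
  obtain ⟨K2, hK2⟩ := colFacts2_M_bd hr ψ.symm
  let Ψ : W (g + 3) ≃ W (g + 3) :=
    ⟨colFacts2_M rep ψ, colFacts2_M rep ψ.symm,
      colFacts2_M_inv hr ψ ψ.symm ψ.symm_apply_apply,
      colFacts2_M_inv hr ψ.symm ψ ψ.apply_symm_apply⟩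
  refine ⟨max K1 K2, Ψ, biLip_of_gens _ _ Ψ (fun w i => (hK1 w i).trans (le_max_left _ _))
    (fun w i => (hK2 w i).trans (le_max_right _ _)), colFacts2_M_mul hr ψ, ?_⟩
  have h2 := colFacts2_M_eq hr ψ 1 1
  rw [map_one, h1, map_one, Subgroup.coe_one, one_mul] at h2
  exact h2

theorem colFacts2_one_ne : (1 : ZMod (g + 3)) ≠ 0 := by
  have : Fact (1 < g + 3) := ⟨by omega⟩
  exact one_ne_zero

theorem colFacts2_side_false {n : ℕ} {J : Set (ZMod n)} {i : ZMod n} (hi : i ∉ J) {w : W n}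
    (hw : w ∈ WJ J) (x : W n) : side (x⁻¹ * sg i * x) w = false := by
  by_contra h
  exact hi ((mem_WJ_iff J w).1 hw _ i (by simpa using h) ⟨x⁻¹, by simp⟩)

theorem colFacts2_conj {G : Type*} [Group G] (x s : G) : x⁻¹ * s * x = s ↔ Commute x s := by
  rw [mul_assoc, inv_mul_eq_iff_eq_mul]
  exact ⟨fun h => h.symm, fun h => h.eq.symm⟩

/-- Side preservation for twists whose inserted words avoid the wall `i`. -/
theorem Tw.side_F (hg : 3 ≤ g) (A : (Tw g)ˣ) (i : ZMod (g + 3))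
    (h1 : ∀ p j, j ≠ i → (A : Tw g).F p (sg j) ∈ WJ {i}ᶜ)
    (h2 : ∀ p, ∃ d ∈ WJ {i - 1, i + 1}, (A : Tw g).F p (sg i) = d * sg i)
    (h3 : ∀ p w, Commute ((A : Tw g).F p w) (sg i) ↔ Commute w (sg i)) (p : PP)
    (w : W (g + 3)) : side (sg i) ((A : Tw g).F p w) = side (sg i) w := by
  have _ := hg
  induction w using cox_induction with
  | h1 => rw [Tw.F_one]
  | hs w j ih =>
    rw [Tw.mul, side_mul, side_mul, ih]
    congr 1
    by_cases hj : j = i
    · subst hj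
      obtain ⟨d, hd, e⟩ := h2 (p * col g w)
      have hne : j ∉ ({j - 1, j + 1} : Set (ZMod (g + 3))) := by
        rintro (h | h)
        · exact colFacts2_one_ne (g := g) (by linear_combination h)
        · have h' : j = j + 1 := h
          exact colFacts2_one_ne (g := g) (by linear_combination -h')
      have hc : Commute d (sg j) := commute_of_mem_star j d (Subgroup.closure_mono
        (Set.image_mono (by
          rintro x (h | h)
          · exact Or.inl h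
          · exact Or.inr (Or.inr h))) hd)
      rw [e, side_mul, colFacts2_side_false hne hd, Bool.false_xor, Bool.eq_iff_iff, side_sg,
        side_sg, colFacts2_conj w, ← h3 p w, ← colFacts2_conj]
      have hd' := (colFacts2_conj d (sg j)).2 hc
      constructor
      · intro h
        rw [← hd'] at h
        have h' := mul_left_cancel (mul_right_cancel h)
        rw [hd'] at h'
        exact h'
      · intro h
        rw [h, hd']
    · have hne : i ∉ ({i}ᶜ : Set (ZMod (g + 3))) := fun h => h rfl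
      rw [colFacts2_side_false hne (h1 _ j hj), colFacts2_side_false hne
        (Subgroup.subset_closure ⟨j, hj, rfl⟩)]

theorem colFacts2_pres (A : Tw g) (J : Set (ZMod (g + 3)))
    (h : ∀ p, ∀ j ∈ J, A.F p (sg j) ∈ WJ J) {w : W (g + 3)} (hw : w ∈ WJ J) (p : PP) :
    A.F p w ∈ WJ J := by
  induction hw using Subgroup.closure_induction generalizing p with
  | mem x hx =>
    obtain ⟨j, hj, rfl⟩ := hx
    exact h p j hj
  | one => rw [Tw.F_one]; exact one_mem _
  | mul x y _ _ hx hy => rw [Tw.mul]; exact mul_mem (hx _) (hy _)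
  | inv x _ hx => rw [Tw.F_inv]; exact inv_mem (hx _)

theorem colFacts2_inv_F (A : (Tw g)ˣ) (p : PP) (w : W (g + 3)) :
    ((A⁻¹ : (Tw g)ˣ) : Tw g).F p ((A : Tw g).F p w) = w := by
  rw [← Tw.mul_F, Units.inv_mul, Tw.one_F]

theorem colFacts2_F_inv (A : (Tw g)ˣ) (p : PP) (w : W (g + 3)) :
    (A : Tw g).F p (((A⁻¹ : (Tw g)ˣ) : Tw g).F p w) = w := by
  rw [← Tw.mul_F, Units.mul_inv, Tw.one_F]

theorem colFacts2_sg {n : ℕ} {J : Set (ZMod n)} {j : ZMod n} (hj : j ∈ J) : sg j ∈ WJ J :=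
  Subgroup.subset_closure ⟨j, hj, rfl⟩

theorem colFacts2_ut {n : ℕ} {J : Set (ZMod n)} {j : ZMod n} (h1 : j - 1 ∈ J) (h2 : j + 1 ∈ J)
    (m : ℤ) : ut j ^ m ∈ WJ J :=
  zpow_mem (mul_mem (colFacts2_sg h1) (colFacts2_sg h2) : ut j ∈ WJ J) m

theorem colFacts2_tw_mem {A : Tw g} {k : ZMod (g + 3)} {κ : PP → ℤ} (h : IsTwist A k κ)
    (J : Set (ZMod (g + 3))) (hJ : k ∈ J → k - 1 ∈ J ∧ k + 1 ∈ J) (p : PP) (j : ZMod (g + 3))
    (hj : j ∈ J) : A.F p (sg j) ∈ WJ J := by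
  by_cases e : j = k
  · subst e
    rw [h.1]
    exact mul_mem (colFacts2_ut (hJ hj).1 (hJ hj).2 _) (colFacts2_sg hj)
  · rw [h.2 p j e]
    exact Subgroup.subset_closure ⟨_, hj, rfl⟩

theorem colFacts2_side_tw (hg : 3 ≤ g) {A : (Tw g)ˣ} {k : ZMod (g + 3)} {κ κ' : PP → ℤ}
    (h : IsTwist (A : Tw g) k κ) (h' : IsTwist ((A⁻¹ : (Tw g)ˣ) : Tw g) k κ') (i : ZMod (g + 3))
    (hik : k = i ∨ (k ≠ i ∧ k - 1 ≠ i ∧ k + 1 ≠ i)) (p : PP) (w : W (g + 3)) :
    side (sg i) ((A : Tw g).F p w) = side (sg i) w := by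
  have hstar : k ∈ ({i - 1, i, i + 1} : Set (ZMod (g + 3))) →
      k - 1 ∈ ({i - 1, i, i + 1} : Set (ZMod (g + 3))) ∧
        k + 1 ∈ ({i - 1, i, i + 1} : Set (ZMod (g + 3))) := by
    intro hk
    rcases hik with rfl | ⟨a1, a2, a3⟩
    · exact ⟨Or.inl rfl, Or.inr (Or.inr rfl)⟩
    · rcases hk with e | e | e
      · exact absurd (by rw [e]; ring) a3
      · exact absurd e a1
      · exact absurd (by rw [show k = i + 1 from e]; ring) a2
  refine Tw.side_F hg A i (fun p j hj => colFacts2_tw_mem h _ (fun hk => ?_) p j hj)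
    (fun p => ?_) (fun p w => ⟨fun hc => ?_, fun hc => ?_⟩) p w
  · rcases hik with rfl | ⟨-, a2, a3⟩
    · exact absurd rfl hk
    · exact ⟨a2, a3⟩
  · rcases hik with rfl | ⟨a1, -, -⟩
    · exact ⟨ut k ^ κ p, colFacts2_ut (Or.inl rfl) (Or.inr rfl) _, h.1 p⟩
    · exact ⟨1, one_mem _, by rw [h.2 p i a1.symm, one_mul]⟩
  · have h1 := colFacts2_pres _ _ (colFacts2_tw_mem h' _ hstar) (mem_star_of_commute i _ hc) p
    rw [colFacts2_inv_F] at h1
    exact commute_of_mem_star i _ h1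
  · exact commute_of_mem_star i _
      (colFacts2_pres _ _ (colFacts2_tw_mem h _ hstar) (mem_star_of_commute i _ hc) p)

/-- Twists preserving the sides of `t1` and fixing both curves. -/
def colFacts2_good (g : ℕ) : Subgroup (Tw g)ˣ where
  carrier := {A | (∀ p w, side (t1 g) ((A : Tw g).F p w) = side (t1 g) w) ∧
    (∀ p, (A : Tw g).F p (cc g) = cc g) ∧ ∀ p, (A : Tw g).F p (eg g (cc g)) = eg g (cc g)}
  one_mem' := ⟨fun _ _ => rfl, fun _ => rfl, fun _ => rfl⟩
  mul_mem' := by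
    rintro A B ⟨a1, a2, a3⟩ ⟨b1, b2, b3⟩
    refine ⟨fun p w => ?_, fun p => ?_, fun p => ?_⟩
    · rw [Units.val_mul, Tw.mul_F, a1, b1]
    · rw [Units.val_mul, Tw.mul_F, b2, a2]
    · rw [Units.val_mul, Tw.mul_F, b3, a3]
  inv_mem' := by
    rintro A ⟨a1, a2, a3⟩
    refine ⟨fun p w => ?_, fun p => ?_, fun p => ?_⟩
    · rw [← a1 p, colFacts2_F_inv]
    · have := colFacts2_inv_F A p (cc g)
      rwa [a2] at this
    · have := colFacts2_inv_F A p (eg g (cc g))
      rwa [a3] at this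

theorem colFacts2_cast {a b : ℕ} (ha : a < g + 3) (hb : b < g + 3) (h : a ≠ b) :
    (a : ZMod (g + 3)) ≠ (b : ZMod (g + 3)) := by
  intro e
  rw [ZMod.natCast_eq_natCast_iff', Nat.mod_eq_of_lt ha, Nat.mod_eq_of_lt hb] at e
  exact h e

theorem colFacts2_mem_good (hg : 3 ≤ g) {A : (Tw g)ˣ} {k : ℕ} (hk : k = 1 ∨ k = 2) {κ : PP → ℤ}
    (h : IsTwist (A : Tw g) (k : ZMod (g + 3)) κ) (hκ : TwOK g (k : ZMod (g + 3)) κ) :
    A ∈ colFacts2_good g := by
  have h' := h.zpow hg hκ (-1)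
  rw [zpow_neg_one] at h'
  have m : ∀ a : ℕ, a < g + 3 → a ≠ k → ee g a ∈ WJ ({(k : ZMod (g + 3))}ᶜ) := fun a ha hne =>
    Subgroup.subset_closure ⟨_, colFacts2_cast ha (by omega) hne, rfl⟩
  have mc : cc g ∈ WJ ({(k : ZMod (g + 3))}ᶜ) :=
    mul_mem (m _ (by omega) (by omega)) (m _ (by omega) (by omega))
  refine ⟨colFacts2_side_tw hg h h' _ (Or.inr ⟨colFacts2_cast (by omega) (by omega) (by omega),
    fun e => ?_, fun e => ?_⟩), fun p => h.fix p _ mc, fun p => h.fix p _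
      (mul_mem (mul_mem (m _ (by omega) (by omega)) mc) (m _ (by omega) (by omega)))⟩
  · refine colFacts2_cast (g := g) (a := k) (b := g + 2) (by omega) (by omega) (by omega) ?_
    push_cast at e ⊢
    linear_combination e
  · refine colFacts2_cast (g := g) (a := k + 1) (b := g + 1) (by omega) (by omega) (by omega) ?_
    push_cast at e ⊢
    exact e

theorem sfix_autW (hg : 3 ≤ g) (w : FW) : SFix g (autW hg w) := by
  have hU := colFacts2_mem_good hg (Or.inr rfl) (twU_spec hg) (twOK_U hg)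
  have hL := colFacts2_mem_good hg (Or.inr rfl) (twL_spec hg) (twOK_L hg)
  have hM := colFacts2_mem_good hg (Or.inl rfl) (twM_spec hg) (twOK_M hg)
  have hw : evTw hg w ∈ colFacts2_good g := by
    induction w using FreeGroup.induction_on with
    | C1 => rw [map_one]; exact one_mem _
    | of x =>
      have e : evTw hg (FreeGroup.of x) = gnTw hg x := FreeGroup.lift_apply_of
      rw [e]
      obtain ⟨_ | _, _ | _⟩ := x
      · exact pow_mem hU 2
      · exact pow_mem (mul_mem hL hM) 3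
      · exact pow_mem hL 2
      · exact pow_mem (mul_mem hM hU) 3
    | inv_of x hx => rw [map_inv]; exact inv_mem hx
    | mul x y hx hy => rw [map_mul]; exact mul_mem hx hy
  obtain ⟨a1, a2, a3⟩ := hw
  refine ⟨fun γ => a1 1 γ, ?_, ?_⟩
  · exact (colFacts2_ap (autW hg w) ⟨cc g, cc_mem_piG hg⟩).trans (a2 1)
  · exact (colFacts2_ap (autW hg w) ⟨eg g (cc g), eg_mem _ (cc_mem_piG hg)⟩).trans (a3 1)

theorem side_t2_T (hg : 3 ≤ g) (j : ℤ) (p : PP) (w : W (g + 3)) :
    side (t2 g) (((twT hg ^ j : (Tw g)ˣ) : Tw g).F p w) = side (t2 g) w := by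
  have h := (twT_spec hg).zpow hg (twOK_T hg) j
  have h' := (twT_spec hg).zpow hg (twOK_T hg) (-j)
  rw [zpow_neg] at h'
  exact colFacts2_side_tw hg h h' _ (Or.inl rfl) p w

end Pool.Agent.Lib.MP_66609f_al
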