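import Mathlib

/-! The right-angled Coxeter group of an `n`-gon: definitions. -/

namespace Pool.Agent.Lib.MP_66609f_al

open Pointwise

def coxRels (n : ℕ) : Set (FreeGroup (ZMod n)) :=
  {r | (∃ i, r = FreeGroup.of i * FreeGroup.of i) ∨
    ∃ i, r = FreeGroup.of i * FreeGroup.of (i + 1) * FreeGroup.of i * FreeGroup.of (i + 1)}

/-- The right-angled Coxeter group of an `n`-gon. -/
abbrev W (n : ℕ) : Type := PresentedGroup (coxRels n)

/-- The reflection in the side `i`. -/
def sg {n : ℕ} (i : ZMod n) : W n := PresentedGroup.of i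

theorem sg_mul_self {n : ℕ} (i : ZMod n) : sg i * sg i = 1 := by
  have h : (FreeGroup.of i * FreeGroup.of i) ∈ coxRels n := Or.inl ⟨i, rfl⟩
  have := PresentedGroup.one_of_mem h
  simpa [sg, PresentedGroup.of] using this

theorem sg_inv {n : ℕ} (i : ZMod n) : (sg i)⁻¹ = sg i :=
  inv_eq_of_mul_eq_one_right (sg_mul_self i)

theorem sg_comm {n : ℕ} (i : ZMod n) : Commute (sg i) (sg (i + 1)) := by
  have h : (FreeGroup.of i * FreeGroup.of (i + 1) * FreeGroup.of i * FreeGroup.of (i + 1)) ∈
      coxRels n := Or.inr ⟨i, rfl⟩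
  have h1 := PresentedGroup.one_of_mem h
  have h2 : sg i * sg (i + 1) * sg i * sg (i + 1) = 1 := by
    simpa [sg, PresentedGroup.of] using h1
  have h3 : sg i * sg (i + 1) = (sg i * sg (i + 1))⁻¹ := by
    rw [eq_inv_iff_mul_eq_one, ← h2]
    simp [mul_assoc]
  rw [mul_inv_rev, sg_inv, sg_inv] at h3
  exact h3

/-- Homomorphisms out of `W n`. -/
def coxLift {n : ℕ} {M : Type*} [Group M] (f : ZMod n → M) (h1 : ∀ i, f i * f i = 1)
    (h2 : ∀ i, f i * f (i + 1) * f i * f (i + 1) = 1) : W n →* M :=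
  PresentedGroup.toGroup (f := f) (by
    rintro r (⟨i, rfl⟩ | ⟨i, rfl⟩)
    · simpa using h1 i
    · simpa using h2 i)

theorem coxLift_sg {n : ℕ} {M : Type*} [Group M] (f : ZMod n → M) (h1 : ∀ i, f i * f i = 1)
    (h2 : ∀ i, f i * f (i + 1) * f i * f (i + 1) = 1) (i : ZMod n) :
    coxLift f h1 h2 (sg i) = f i :=
  PresentedGroup.toGroup.of _

/-- Induction over words, multiplying on the right. -/
theorem cox_induction {n : ℕ} {p : W n → Prop} (h1 : p 1) (hs : ∀ w i, p w → p (w * sg i))
    (w : W n) : p w := by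
  have hw : w ∈ Subgroup.closure (Set.range (sg : ZMod n → W n)) := by
    have := PresentedGroup.closure_range_of (coxRels n)
    change Subgroup.closure (Set.range (sg : ZMod n → W n)) = ⊤ at this
    rw [this]
    trivial
  induction hw using Subgroup.closure_induction_right with
  | one => exact h1
  | mul_right x _ y hy ih =>
    obtain ⟨i, rfl⟩ := hy
    exact hs _ _ ih
  | mul_inv_cancel x _ y hy ih =>
    obtain ⟨i, rfl⟩ := hy
    rw [sg_inv]
    exact hs _ _ ih

end Pool.Agent.Lib.MP_66609f_al
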