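import Pool.Agent.Lib.MP_66609f_al.CoxNest

namespace Pool.Agent.Lib.MP_66609f_al

open Pointwise

variable {n : ℕ}

/-- All four quadrants of the two walls are nonempty. -/
def coxCross_X (t t' : W n) : Prop := ∀ b b', ∃ w, side t w = b ∧ side t' w = b'

/-- The two walls are conjugate to adjacent generators. -/
def coxCross_A (t t' : W n) : Prop :=
  ∃ (v : W n) (i : ZMod n), (t = v * sg i * v⁻¹ ∧ t' = v * sg (i + 1) * v⁻¹) ∨
    (t' = v * sg i * v⁻¹ ∧ t = v * sg (i + 1) * v⁻¹)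

theorem coxCross_of_cross {t t' : W n} {b b' : Bool} (h : Cross (half t b) (half t' b')) :
    coxCross_X t t' := by
  obtain ⟨⟨w1, a1, c1⟩, ⟨w2, a2, c2⟩, ⟨w3, a3, c3⟩, ⟨w4, a4, c4⟩⟩ := h
  simp only [half, Set.mem_compl_iff, Set.mem_ofPred_eq] at a1 c1 a2 c2 a3 c3 a4 c4
  intro x y
  by_cases hx : x = b <;> by_cases hy : y = b'
  · exact ⟨w1, hx ▸ a1, hy ▸ c1⟩
  · refine ⟨w2, hx ▸ a2, ?_⟩
    revert c2 hy
    cases side t' w2 <;> cases y <;> cases b' <;> simp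
  · refine ⟨w3, ?_, hy ▸ c3⟩
    revert a3 hx
    cases side t w3 <;> cases x <;> cases b <;> simp
  · refine ⟨w4, ?_, ?_⟩
    · revert a4 hx
      cases side t w4 <;> cases x <;> cases b <;> simp
    · revert c4 hy
      cases side t' w4 <;> cases y <;> cases b' <;> simp

theorem coxCross_X.conj {t t' : W n} (h : coxCross_X t t') (g : W n) :
    coxCross_X (g * t * g⁻¹) (g * t' * g⁻¹) := by
  intro b b'
  obtain ⟨w, h1, h2⟩ := h (xor (side (g * t * g⁻¹) g) b) (xor (side (g * t' * g⁻¹) g) b')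
  have e : ∀ s : W n, g⁻¹ * (g * s * g⁻¹) * g = s := fun s => by group
  refine ⟨g * w, ?_, ?_⟩
  · rw [side_mul, e, h1]
    simp
  · rw [side_mul, e, h2]
    simp

theorem coxCross_A.conj {t t' : W n} (h : coxCross_A t t') (g : W n) :
    coxCross_A (g * t * g⁻¹) (g * t' * g⁻¹) := by
  obtain ⟨v, i, ⟨rfl, rfl⟩ | ⟨rfl, rfl⟩⟩ := h
  · exact ⟨g * v, i, Or.inl ⟨by group, by group⟩⟩
  · exact ⟨g * v, i, Or.inr ⟨by group, by group⟩⟩

theorem coxCross_A.commute {t t' : W n} (h : coxCross_A t t') : Commute t t' := by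
  obtain ⟨v, i, ⟨rfl, rfl⟩ | ⟨rfl, rfl⟩⟩ := h
  · exact (sg_comm i).conj v
  · exact ((sg_comm i).conj v).symm

theorem coxCross_ind (m : ℕ) : ∀ (i j : ZMod n) (v : W n), len v = m →
    coxCross_X (sg i) (v * sg j * v⁻¹) → coxCross_A (sg i) (v * sg j * v⁻¹) := by
  induction m using Nat.strong_induction_on with
  | _ m ih =>
  intro i j v hv h
  by_cases h1 : v = 1
  · subst h1
    simp only [one_mul, inv_one, mul_one] at h ⊢
    by_cases c0 : i = j
    · subst c0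
      obtain ⟨w, a, b⟩ := h true false
      rw [a] at b
      exact absurd b (by simp)
    by_cases c1 : i = j + 1
    · exact ⟨1, j, Or.inr ⟨by simp, by simp [c1]⟩⟩
    by_cases c2 : j = i + 1
    · exact ⟨1, i, Or.inl ⟨by simp, by simp [c2]⟩⟩
    obtain ⟨w, hw⟩ := h true true
    exact absurd hw (not_side_side c0 c1 c2 w)
  obtain ⟨k, hk⟩ := exists_descent v h1
  have hlen : len (sg k * v) < m := by
    have := len_sg_mul v k hk
    omega
  have ee : sg k * (v * sg j * v⁻¹) * (sg k)⁻¹ = sg k * v * sg j * (sg k * v)⁻¹ := by group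
  have step : ∀ l : ZMod n, Commute (sg k) (sg l) → coxCross_X (sg l) (v * sg j * v⁻¹) →
      coxCross_A (sg l) (v * sg j * v⁻¹) := by
    intro l hc hx
    have e1 : sg k * sg l * (sg k)⁻¹ = sg l := by rw [hc.eq]; group
    have e2 : (sg k)⁻¹ * sg l * (sg k)⁻¹⁻¹ = sg l := by rw [mul_assoc, inv_inv, ← hc.eq]; group
    have a := hx.conj (sg k)
    rw [e1, ee] at a
    have b := (ih _ hlen l j _ rfl a).conj (sg k)⁻¹
    rw [e2] at b
    have e3 : (sg k)⁻¹ * (sg k * v * sg j * (sg k * v)⁻¹) * (sg k)⁻¹⁻¹ = v * sg j * v⁻¹ := by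
      group
    rwa [e3] at b
  by_cases c0 : i = k
  · exact step i (c0 ▸ Commute.refl _) h
  by_cases c1 : i = k + 1
  · exact step i (c1 ▸ sg_comm k) h
  by_cases c2 : k = i + 1
  · exact step i (c2 ▸ (sg_comm i).symm) h
  have hns := not_side_side c0 c1 c2
  by_cases d0 : sg k = v * sg j * v⁻¹
  · rw [← d0] at h
    obtain ⟨w, hw⟩ := h true true
    exact absurd hw (hns w)
  by_cases d1 : coxCross_X (sg k) (v * sg j * v⁻¹)
  · have hc := (step k (Commute.refl _) d1).commute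
    have e : v * sg j * v⁻¹ = sg k * v * sg j * (sg k * v)⁻¹ := by
      rw [← ee, hc.eq]
      group
    rw [e] at h ⊢
    exact ih _ hlen i j _ rfl h
  exfalso
  apply d1
  intro b b'
  cases b
  · obtain ⟨w, a, c⟩ := h true b'
    refine ⟨w, ?_, c⟩
    cases e : side (sg k) w
    · rfl
    · exact absurd ⟨a, e⟩ (hns w)
  · by_cases e : side (v * sg j * v⁻¹) v = b'
    · exact ⟨v, hk, e⟩
    · refine ⟨v * sg j, by rw [side_mul_sg _ _ _ d0, hk], ?_⟩
      rw [side_mul_sg_self]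
      revert e
      cases side (v * sg j * v⁻¹) v <;> cases b' <;> simp

/-- Two crossing walls are conjugate to two adjacent generators. -/
theorem cross_adj {t t' : W n} (ht : IsRefl t) (ht' : IsRefl t') {b b' : Bool}
    (h : Cross (half t b) (half t' b')) :
    ∃ (v : W n) (i : ZMod n), (t = v * sg i * v⁻¹ ∧ t' = v * sg (i + 1) * v⁻¹) ∨
      (t' = v * sg i * v⁻¹ ∧ t = v * sg (i + 1) * v⁻¹) := by
  obtain ⟨i, v, rfl⟩ := ht
  obtain ⟨j, v', rfl⟩ := ht'
  have a := (coxCross_of_cross h).conj v⁻¹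
  have e1 : v⁻¹ * (v * sg i * v⁻¹) * v⁻¹⁻¹ = sg i := by group
  have e2 : v⁻¹ * (v' * sg j * v'⁻¹) * v⁻¹⁻¹ = v⁻¹ * v' * sg j * (v⁻¹ * v')⁻¹ := by group
  rw [e1, e2] at a
  have c := (coxCross_ind _ i j _ rfl a).conj v
  have e3 : v * (v⁻¹ * v' * sg j * (v⁻¹ * v')⁻¹) * v⁻¹ = v' * sg j * v'⁻¹ := by group
  rwa [e3] at c

/-- Walls of the same type do not cross. -/
theorem not_cross_same (hn : 5 ≤ n) {i : ZMod n} {A B : Set (W n)} (hA : IsHalfOf i A)
    (hB : IsHalfOf i B) : ¬ Cross A B := by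
  obtain ⟨t, b, ht, rfl⟩ := hA
  obtain ⟨t', b', ht', rfl⟩ := hB
  intro h
  have : Fact (1 < n) := ⟨by omega⟩
  have key : ∀ k : ZMod n, i = k → i = k + 1 → False := fun k a c => by
    rw [a] at c
    exact one_ne_zero (left_eq_add.1 c)
  obtain ⟨v, k, ⟨a, c⟩ | ⟨a, c⟩⟩ := cross_adj ⟨i, ht⟩ ⟨i, ht'⟩ h
  · exact key k (isReflOf_unique ht ⟨v, a⟩) (isReflOf_unique ht' ⟨v, c⟩)
  · exact key k (isReflOf_unique ht' ⟨v, a⟩) (isReflOf_unique ht ⟨v, c⟩)

end Pool.Agent.Lib.MP_66609f_al
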