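import Mathlib

/-! Systems of half-spaces: definitions. -/

namespace Pool.Agent.Lib.MP_66609f_al

open Pointwise

/-- All four quadrants are nonempty. -/
def Cross {X : Type*} (A B : Set X) : Prop :=
  (A ∩ B).Nonempty ∧ (A ∩ Bᶜ).Nonempty ∧ (Aᶜ ∩ B).Nonempty ∧ (Aᶜ ∩ Bᶜ).Nonempty

/-- A system of half-spaces without crossing pattern `K_{2,2}`. -/
structure HS (X : Type*) where
  H : Set (Set X)
  compl_mem : ∀ A ∈ H, Aᶜ ∈ H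
  nonempty : ∀ A ∈ H, A.Nonempty
  fin : ∀ u v, {A | A ∈ H ∧ u ∈ A ∧ v ∉ A}.Finite
  sep : ∀ u v, (∀ A ∈ H, u ∈ A → v ∈ A) → u = v
  step : ∀ o z z', (∃ A ∈ H, o ∈ A ∧ z ∉ A ∧ z' ∉ A) →
    ∃ o1 A1, {A | A ∈ H ∧ o ∈ A ∧ o1 ∉ A} = {A1} ∧ z ∉ A1 ∧ z' ∉ A1
  k22 : ∀ A1 ∈ H, ∀ A2 ∈ H, ∀ B1 ∈ H, ∀ B2 ∈ H, Cross A1 B1 → Cross A1 B2 → Cross A2 B1 →
    Cross A2 B2 → (A1 = A2 ∨ A1 = A2ᶜ) ∨ (B1 = B2 ∨ B1 = B2ᶜ)

namespace HS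

variable {X : Type*} (Z : HS X)

/-- The number of half-spaces containing `u` and not `v`. -/
noncomputable def d (u v : X) : ℕ := {A | A ∈ Z.H ∧ u ∈ A ∧ v ∉ A}.ncard

/-- The Gromov product of `x` and `z` at `y`. -/
noncomputable def gp (x z y : X) : ℕ := {A | A ∈ Z.H ∧ y ∈ A ∧ x ∉ A ∧ z ∉ A}.ncard

/-- `Ψ` is `K`-bi-Lipschitz. -/
def BiLip (K : ℕ) (Ψ : X ≃ X) : Prop :=
  (∀ u v, Z.d (Ψ u) (Ψ v) ≤ K * Z.d u v) ∧ ∀ u v, Z.d u v ≤ K * Z.d (Ψ u) (Ψ v)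

variable {Γ : Type*} [Group Γ] [MulAction Γ X]

/-- The group `Γ` permutes the half-spaces. -/
def Inv (Γ : Type*) [Group Γ] [MulAction Γ X] : Prop := ∀ (a : Γ), ∀ A ∈ Z.H, a • A ∈ Z.H

/-- `a` maps the half-space `A` strictly into itself. -/
def Skew (a : Γ) (A : Set X) : Prop := A ∈ Z.H ∧ a • A ⊂ A

end HS

/-- The position of `z` along the chain of the translates of `A` by the powers of `a`. -/
noncomputable def pos {X Γ : Type*} [Group Γ] [MulAction Γ X] (a : Γ) (A : Set X) (z : X) : ℤ :=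
  sSup {k : ℤ | z ∈ a ^ k • A}

end Pool.Agent.Lib.MP_66609f_al
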