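import Pool.Agent.Lib.MP_66609f_al.CoxSide
import Pool.Agent.Lib.MP_66609f_al.Half

namespace Pool.Agent.Lib.MP_66609f_al

open Pointwise

/-- `side t w = true` means that the wall of `t` separates `1` from `w`. -/
noncomputable def side {n : ℕ} : W n → W n → Bool := (exists_side n).choose

theorem side_one {n : ℕ} (t : W n) : side t 1 = false := (exists_side n).choose_spec.1 t

theorem side_sg {n : ℕ} (t : W n) (i : ZMod n) : side t (sg i) = true ↔ t = sg i :=
  (exists_side n).choose_spec.2.1 t i

theorem side_mul {n : ℕ} (t u w : W n) :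
    side t (u * w) = xor (side t u) (side (u⁻¹ * t * u) w) :=
  (exists_side n).choose_spec.2.2 t u w

/-- Conjugates of the generator `i`. -/
def IsReflOf {n : ℕ} (i : ZMod n) (t : W n) : Prop := ∃ w, t = w * sg i * w⁻¹

def IsRefl {n : ℕ} (t : W n) : Prop := ∃ i, IsReflOf i t

/-- The set of walls separating `1` from `w`. -/
def invSet {n : ℕ} (w : W n) : Set (W n) := {t | side t w = true}

/-- The length of `w`. -/
noncomputable def len {n : ℕ} (w : W n) : ℕ := (invSet w).ncard

/-- One side of the wall of `t`. -/
def half {n : ℕ} (t : W n) (b : Bool) : Set (W n) := {w | side t w = b}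

/-- Half-spaces bounded by a wall of type `i`. -/
def IsHalfOf {n : ℕ} (i : ZMod n) (A : Set (W n)) : Prop :=
  ∃ t b, IsReflOf i t ∧ A = half t b

/-- Standard parabolic subgroups. -/
def WJ {n : ℕ} (J : Set (ZMod n)) : Subgroup (W n) := Subgroup.closure (sg '' J)

/-- The translation along the wall of the generator `i`. -/
def ut {n : ℕ} (i : ZMod n) : W n := sg (i - 1) * sg (i + 1)

end Pool.Agent.Lib.MP_66609f_al
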