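import Pool.Agent.Lib.MP_66609f_al.CoxCross

namespace Pool.Agent.Lib.MP_66609f_al

open Pointwise

variable {n : ℕ}

/-- All half-spaces. -/
def halfs (n : ℕ) : Set (Set (W n)) := {A | ∃ i, IsHalfOf i A}

theorem coxHS_mem_iff (A : Set (W n)) : A ∈ halfs n ↔ ∃ t b, IsRefl t ∧ A = half t b := by
  constructor
  · rintro ⟨i, t, b, ht, rfl⟩
    exact ⟨t, b, ⟨i, ht⟩, rfl⟩
  · rintro ⟨t, b, ⟨i, ht⟩, rfl⟩
    exact ⟨i, t, b, ht, rfl⟩

theorem coxHS_reflOf_conj {i : ZMod n} {t : W n} (h : IsReflOf i t) (g : W n) :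
    IsReflOf i (g * t * g⁻¹) := by
  obtain ⟨w, rfl⟩ := h
  exact ⟨g * w, by group⟩

theorem coxHS_refl_conj {t : W n} (h : IsRefl t) (g : W n) : IsRefl (g * t * g⁻¹) := by
  obtain ⟨i, h⟩ := h
  exact ⟨i, coxHS_reflOf_conj h g⟩

theorem coxHS_reflOf_sg (i : ZMod n) : IsReflOf i (sg i) := ⟨1, by simp⟩

theorem coxHS_refl_sg (i : ZMod n) : IsRefl (sg i) := ⟨i, coxHS_reflOf_sg i⟩

theorem coxHS_side_conj (g t w : W n) :
    side (g * t * g⁻¹) (g * w) = xor (side (g * t * g⁻¹) g) (side t w) := by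
  rw [side_mul]
  have : g⁻¹ * (g * t * g⁻¹) * g = t := by group
  rw [this]

/-- The half-space of the wall `u s u⁻¹` that contains `u`. -/
def coxHS_hf (u s : W n) : Set (W n) := half (u * s * u⁻¹) (side (u * s * u⁻¹) u)

theorem coxHS_mem_hf (u s v : W n) : v ∈ coxHS_hf u s ↔ side s (u⁻¹ * v) = false := by
  have h := coxHS_side_conj u s (u⁻¹ * v)
  rw [mul_inv_cancel_left] at h
  change side (u * s * u⁻¹) v = side (u * s * u⁻¹) u ↔ _
  rw [h]
  cases side (u * s * u⁻¹) u <;> cases side s (u⁻¹ * v) <;> simp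

theorem coxHS_sepSet (u v : W n) :
    {A | A ∈ halfs n ∧ u ∈ A ∧ v ∉ A} = coxHS_hf u '' invSet (u⁻¹ * v) := by
  ext A
  constructor
  · rintro ⟨hA, hu, hv⟩
    obtain ⟨t, b, _, rfl⟩ := (coxHS_mem_iff A).1 hA
    have e : half t b = coxHS_hf u (u⁻¹ * t * u) := by
      have h1 : u * (u⁻¹ * t * u) * u⁻¹ = t := by group
      have h2 : side t u = b := hu
      unfold coxHS_hf
      rw [h1, h2]
    refine ⟨u⁻¹ * t * u, ?_, e.symm⟩
    rw [e, coxHS_mem_hf] at hv
    change side _ _ = true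
    simpa using hv
  · rintro ⟨s, hs, rfl⟩
    have hs' : side s (u⁻¹ * v) = true := hs
    refine ⟨(coxHS_mem_iff _).2 ⟨_, _, coxHS_refl_conj (isRefl_of_side _ _ hs') u, rfl⟩, ?_, ?_⟩
    · rw [coxHS_mem_hf, inv_mul_cancel, side_one]
    · rw [coxHS_mem_hf, hs']
      simp

theorem halfs_compl (A : Set (W n)) (hA : A ∈ halfs n) : Aᶜ ∈ halfs n := by
  obtain ⟨t, b, ht, rfl⟩ := (coxHS_mem_iff A).1 hA
  exact (coxHS_mem_iff _).2 ⟨t, !b, ht, half_compl t b⟩

theorem halfs_nonempty (A : Set (W n)) (hA : A ∈ halfs n) : A.Nonempty := by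
  obtain ⟨t, b, ht, rfl⟩ := (coxHS_mem_iff A).1 hA
  cases b
  · exact ⟨1, side_one t⟩
  · exact ⟨t, side_self ht⟩

theorem halfs_fin (u v : W n) : {A | A ∈ halfs n ∧ u ∈ A ∧ v ∉ A}.Finite := by
  rw [coxHS_sepSet]
  exact (invSet_finite _).image _

theorem halfs_sep (u v : W n) (h : ∀ A ∈ halfs n, u ∈ A → v ∈ A) : u = v := by
  by_contra hne
  have h1 : u⁻¹ * v ≠ 1 := fun e => hne (inv_mul_eq_one.1 e)
  obtain ⟨i, hi⟩ := exists_descent _ h1
  have h2 : coxHS_hf u (sg i) ∈ {A | A ∈ halfs n ∧ u ∈ A ∧ v ∉ A} := by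
    rw [coxHS_sepSet]
    exact ⟨sg i, hi, rfl⟩
  exact h2.2.2 (h _ h2.1 h2.2.1)

/-- All four pairs of sides occur. -/
def coxHS_CR (x y : W n) : Prop := ∀ b b' : Bool, ∃ w, side x w = b ∧ side y w = b'

theorem coxHS_CR_symm {x y : W n} (h : coxHS_CR x y) : coxHS_CR y x := by
  intro b b'
  obtain ⟨w, h1, h2⟩ := h b' b
  exact ⟨w, h2, h1⟩

theorem coxHS_CR_conj {x y : W n} (h : coxHS_CR x y) (g : W n) :
    coxHS_CR (g * x * g⁻¹) (g * y * g⁻¹) := by
  intro b b'
  obtain ⟨w, h1, h2⟩ := h (xor (side (g * x * g⁻¹) g) b) (xor (side (g * y * g⁻¹) g) b')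
  refine ⟨g * w, ?_, ?_⟩
  · rw [coxHS_side_conj, h1]
    cases side (g * x * g⁻¹) g <;> cases b <;> rfl
  · rw [coxHS_side_conj, h2]
    cases side (g * y * g⁻¹) g <;> cases b' <;> rfl

theorem coxHS_CR_of_cross {x y : W n} {b b' : Bool} (h : Cross (half x b) (half y b')) :
    coxHS_CR x y := by
  obtain ⟨⟨w1, h1, h1'⟩, ⟨w2, h2, h2'⟩, ⟨w3, h3, h3'⟩, ⟨w4, h4, h4'⟩⟩ := h
  rw [half_compl] at h2' h3 h4 h4'
  have a1 : side x w1 = b := h1
  have a1' : side y w1 = b' := h1'
  have a2 : side x w2 = b := h2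
  have a2' : side y w2 = !b' := h2'
  have a3 : side x w3 = !b := h3
  have a3' : side y w3 = b' := h3'
  have a4 : side x w4 = !b := h4
  have a4' : side y w4 = !b' := h4'
  intro c c'
  by_cases hc : c = b
  · by_cases hc' : c' = b'
    · exact ⟨w1, by rw [a1, hc], by rw [a1', hc']⟩
    · exact ⟨w2, by rw [a2, hc], by rw [a2']; revert hc'; cases c' <;> cases b' <;> simp⟩
  · by_cases hc' : c' = b'
    · exact ⟨w3, by rw [a3]; revert hc; cases c <;> cases b <;> simp, by rw [a3', hc']⟩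
    · exact ⟨w4, by rw [a4]; revert hc; cases c <;> cases b <;> simp,
        by rw [a4']; revert hc'; cases c' <;> cases b' <;> simp⟩

theorem coxHS_cross_of_CR {x y : W n} (h : coxHS_CR x y) :
    Cross (half x true) (half y true) := by
  unfold Cross
  rw [half_compl, half_compl]
  exact ⟨h true true, h true false, h false true, h false false⟩

theorem coxHS_commute_of_CR {x y : W n} (hx : IsRefl x) (hy : IsRefl y) (h : coxHS_CR x y) :
    Commute x y := by
  have key : ∀ (v : W n) (i : ZMod n),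
      Commute (v * sg i * v⁻¹) (v * sg (i + 1) * v⁻¹) := by
    intro v i
    have h0 := (sg_comm i).eq
    change v * sg i * v⁻¹ * (v * sg (i + 1) * v⁻¹) = v * sg (i + 1) * v⁻¹ * (v * sg i * v⁻¹)
    calc v * sg i * v⁻¹ * (v * sg (i + 1) * v⁻¹) = v * (sg i * sg (i + 1)) * v⁻¹ := by group
      _ = v * (sg (i + 1) * sg i) * v⁻¹ := by rw [h0]
      _ = _ := by group
  obtain ⟨v, i, ⟨h1, h2⟩ | ⟨h1, h2⟩⟩ := cross_adj hx hy (coxHS_cross_of_CR h)
  · rw [h1, h2]
    exact key v i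
  · rw [h1, h2]
    exact (key v i).symm

/-- The far side of a wall lies in the far side of a generator. -/
theorem coxHS_far_sub {t : W n} (ht : IsRefl t) :
    ∃ i, ∀ w, side t w = true → side (sg i) w = true := by
  classical
  have hex : ∃ m, ∃ v, side t v = true ∧ len v = m := ⟨_, t, side_self ht, rfl⟩
  obtain ⟨v, hv, hlen⟩ := Nat.find_spec hex
  have hmin : ∀ w, side t w = true → len v ≤ len w := by
    intro w hw
    rw [hlen]
    exact Nat.find_min' hex ⟨w, hw, rfl⟩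
  have hv1 : v⁻¹ ≠ 1 := by
    intro e
    have : v = 1 := inv_eq_one.1 e
    rw [this, side_one] at hv
    exact absurd hv (by simp)
  obtain ⟨j, hj⟩ := exists_descent _ hv1
  have hl := len_sg_mul _ j hj
  have e1 : sg j * v⁻¹ = (v * sg j)⁻¹ := by rw [mul_inv_rev, sg_inv]
  rw [e1, len_inv, len_inv] at hl
  obtain ⟨v', hv'⟩ : ∃ v', v' = v * sg j := ⟨_, rfl⟩
  rw [← hv'] at hl
  have e2 : v = v' * sg j := by rw [hv', mul_assoc, sg_mul_self, mul_one]
  have hs' : side t v' = false := by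
    cases h : side t v'
    · rfl
    · have := hmin _ h
      omega
  have e3 : t = v' * sg j * v'⁻¹ := by
    by_contra hne
    have := side_mul_sg t v' j hne
    rw [← e2, hv, hs'] at this
    exact absurd this (by simp)
  by_cases h1 : v' = 1
  · refine ⟨j, fun w hw => ?_⟩
    rw [h1] at e3
    simp only [one_mul, inv_one, mul_one] at e3
    rw [← e3]
    exact hw
  · obtain ⟨k, hk⟩ := exists_descent _ h1
    have hne : sg k ≠ t := by
      intro e
      rw [e, hs'] at hk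
      exact absurd hk (by simp)
    have hkv : side (sg k) v = true := by
      rw [e2, side_mul_sg _ _ _ (by rw [← e3]; exact hne), hk]
    refine ⟨k, fun w hw => ?_⟩
    by_contra hw'
    have hw2 : side (sg k) w = false := by simpa using hw'
    have hcr : coxHS_CR t (sg k) := by
      intro b b'
      cases b <;> cases b'
      · exact ⟨1, side_one _, side_one _⟩
      · exact ⟨v', hs', hk⟩
      · exact ⟨w, hw, hw2⟩
      · exact ⟨v, hv, hkv⟩
    have hc := (coxHS_commute_of_CR ht (coxHS_refl_sg k) hcr).eq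
    have h3 : side t (sg k) = false := by
      cases h : side t (sg k)
      · rfl
      · exact absurd ((side_sg _ _).1 h).symm hne
    have h4 : (sg k)⁻¹ * t * sg k = t := by
      rw [mul_assoc, hc, inv_mul_cancel_left]
    have h5 : side t (sg k * v) = true := by
      rw [side_mul, h3, h4, hv]
      rfl
    have h6 := hmin _ h5
    have h7 := len_sg_mul _ k hkv
    omega

theorem halfs_step (o z z' : W n) (h : ∃ A ∈ halfs n, o ∈ A ∧ z ∉ A ∧ z' ∉ A) :
    ∃ o1 A1, {A | A ∈ halfs n ∧ o ∈ A ∧ o1 ∉ A} = {A1} ∧ z ∉ A1 ∧ z' ∉ A1 := by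
  obtain ⟨A, hA, ho, hz, hz'⟩ := h
  have h1 : A ∈ {A | A ∈ halfs n ∧ o ∈ A ∧ z ∉ A} := ⟨hA, ho, hz⟩
  rw [coxHS_sepSet] at h1
  obtain ⟨s, hs, rfl⟩ := h1
  have hs1 : side s (o⁻¹ * z) = true := hs
  have hs2 : side s (o⁻¹ * z') = true := by
    rw [coxHS_mem_hf] at hz'
    simpa using hz'
  obtain ⟨i, hi⟩ := coxHS_far_sub (isRefl_of_side _ _ hs1)
  refine ⟨o * sg i, coxHS_hf o (sg i), ?_, ?_, ?_⟩
  · rw [coxHS_sepSet, inv_mul_cancel_left]
    have : invSet (sg i) = {sg i} := by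
      ext t
      exact side_sg t i
    rw [this, Set.image_singleton]
  · rw [coxHS_mem_hf, hi _ hs1]
    simp
  · rw [coxHS_mem_hf, hi _ hs2]
    simp

/-- A wall crossing the wall of a generator lies beyond one of the two adjacent generators. -/
theorem coxHS_far_adj {x : W n} (hx : IsRefl x) (i : ZMod n) (h : coxHS_CR x (sg i)) :
    (∀ w, side x w = true → side (sg (i - 1)) w = true) ∨
      ∀ w, side x w = true → side (sg (i + 1)) w = true := by
  obtain ⟨j, hj⟩ := coxHS_far_sub hx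
  have hm := mem_star_of_commute i x (coxHS_commute_of_CR hx (coxHS_refl_sg i) h)
  have hj' := (mem_WJ_iff _ _).1 hm (sg j) j (hj x (side_self hx)) (coxHS_reflOf_sg j)
  rcases hj' with e | e | e
  · left
    rw [← e]
    exact hj
  · obtain ⟨w, h1, h2⟩ := h true false
    have := hj w h1
    rw [e, h2] at this
    exact absurd this (by simp)
  · right
    have e' : j = i + 1 := e
    rw [← e']
    exact hj

theorem coxHS_not_far_conj {x : W n} (hx : IsRefl x) (j : ZMod n) (hne : x ≠ sg j)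
    (h : ∀ w, side x w = true → side (sg j) w = true)
    (h' : ∀ w, side (sg j * x * (sg j)⁻¹) w = true → side (sg j) w = true) : False := by
  have h1 : side (sg j * x * (sg j)⁻¹) (sg j) = false := by
    cases e : side (sg j * x * (sg j)⁻¹) (sg j)
    · rfl
    · exfalso
      apply hne
      have e' := (side_sg _ _).1 e
      calc x = (sg j)⁻¹ * (sg j * x * (sg j)⁻¹) * sg j := by group
        _ = (sg j)⁻¹ * sg j * sg j := by rw [e']
        _ = sg j := by group
  have h2 : side (sg j * x * (sg j)⁻¹) (sg j * x) = true := by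
    rw [coxHS_side_conj, h1, side_self hx]
    rfl
  have h3 := h' _ h2
  rw [side_refl_mul (coxHS_refl_sg j), h x (side_self hx)] at h3
  exact absurd h3 (by simp)

theorem coxHS_conj_eq {a b : W n} (h : Commute a b) : a * b * a⁻¹ = b := by
  rw [h.eq, mul_inv_cancel_right]

theorem coxHS_natCast_ne (hn : 5 ≤ n) (k : ℕ) (h0 : 0 < k) (h4 : k ≤ 4) : (k : ZMod n) ≠ 0 := by
  intro h
  rw [ZMod.natCast_eq_zero_iff] at h
  have := Nat.le_of_dvd h0 h
  omega

theorem coxHS_core (hn : 5 ≤ n) (i : ZMod n) {x y : W n} (hx : IsRefl x) (hy : IsRefl y)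
    (h1 : coxHS_CR x (sg i)) (h2 : coxHS_CR y (sg (i + 1))) (h3 : coxHS_CR x y) :
    x = sg (i + 1) ∨ y = sg i := by
  by_contra hcon
  rw [not_or] at hcon
  obtain ⟨nx, ny⟩ := hcon
  have c0 : Commute (sg i) (sg (i + 1)) := sg_comm i
  have base : ∀ x' y' : W n, (∀ w, side x' w = true → side (sg (i - 1)) w = true) →
      (∀ w, side y' w = true → side (sg (i + 1 + 1)) w = true) → coxHS_CR x' y' → False := by
    intro x' y' a b c
    obtain ⟨w, w1, w2⟩ := c true true
    refine not_side_side (i := i - 1) (j := i + 1 + 1) ?_ ?_ ?_ w ⟨a w w1, b w w2⟩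
    · intro e
      apply coxHS_natCast_ne hn 3 (by norm_num) (by norm_num)
      push_cast
      linear_combination -e
    · intro e
      apply coxHS_natCast_ne hn 4 (by norm_num) (by norm_num)
      push_cast
      linear_combination -e
    · intro e
      apply coxHS_natCast_ne hn 2 (by norm_num) (by norm_num)
      push_cast
      linear_combination e
  have stepy : ∀ x' : W n, IsRefl x' → coxHS_CR x' (sg i) → coxHS_CR x' y →
      (∀ w, side x' w = true → side (sg (i - 1)) w = true) → False := by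
    intro x' hx' a b c
    rcases coxHS_far_adj hy (i + 1) h2 with d | d
    · rw [add_sub_cancel_right] at d
      have cx : Commute (sg i) x' := (coxHS_commute_of_CR hx' (coxHS_refl_sg i) a).symm
      have b' := coxHS_CR_conj b (sg i)
      rw [coxHS_conj_eq cx] at b'
      have h2' := coxHS_CR_conj h2 (sg i)
      rw [coxHS_conj_eq c0] at h2'
      rcases coxHS_far_adj (coxHS_refl_conj hy (sg i)) (i + 1) h2' with d' | d'
      · rw [add_sub_cancel_right] at d'
        exact coxHS_not_far_conj hy i ny d d'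
      · exact base _ _ c d' b'
    · exact base _ _ c d b
  rcases coxHS_far_adj hx i h1 with d | d
  · exact stepy x hx h1 h3 d
  · have cy : Commute (sg (i + 1)) y :=
      (coxHS_commute_of_CR hy (coxHS_refl_sg (i + 1)) h2).symm
    have h3' := coxHS_CR_conj h3 (sg (i + 1))
    rw [coxHS_conj_eq cy] at h3'
    have h1' := coxHS_CR_conj h1 (sg (i + 1))
    rw [coxHS_conj_eq c0.symm] at h1'
    have hx' := coxHS_refl_conj hx (sg (i + 1))
    rcases coxHS_far_adj hx' i h1' with d' | d'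
    · exact stepy _ hx' h1' h3' d'
    · exact coxHS_not_far_conj hx (i + 1) nx d d'

theorem coxHS_core2 (hn : 5 ≤ n) (v : W n) (i : ZMod n) {x y : W n} (hx : IsRefl x)
    (hy : IsRefl y) (h1 : coxHS_CR x (v * sg i * v⁻¹)) (h2 : coxHS_CR y (v * sg (i + 1) * v⁻¹))
    (h3 : coxHS_CR x y) : x = v * sg (i + 1) * v⁻¹ ∨ y = v * sg i * v⁻¹ := by
  have e : ∀ s : W n, v⁻¹ * (v * s * v⁻¹) * v⁻¹⁻¹ = s := fun s => by group
  have h1' := coxHS_CR_conj h1 v⁻¹
  have h2' := coxHS_CR_conj h2 v⁻¹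
  rw [e] at h1' h2'
  rcases coxHS_core hn i (coxHS_refl_conj hx v⁻¹) (coxHS_refl_conj hy v⁻¹) h1' h2'
    (coxHS_CR_conj h3 v⁻¹) with h | h
  · left
    rw [← h]
    group
  · right
    rw [← h]
    group

theorem coxHS_half_eq_or (t : W n) (b b' : Bool) :
    half t b = half t b' ∨ half t b = (half t b')ᶜ := by
  rw [half_compl]
  cases b <;> cases b' <;> simp

theorem halfs_k22 (hn : 5 ≤ n) : ∀ A1 ∈ halfs n, ∀ A2 ∈ halfs n, ∀ B1 ∈ halfs n,
    ∀ B2 ∈ halfs n, Cross A1 B1 → Cross A1 B2 → Cross A2 B1 → Cross A2 B2 →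
    (A1 = A2 ∨ A1 = A2ᶜ) ∨ (B1 = B2 ∨ B1 = B2ᶜ) := by
  intro A1 hA1 A2 hA2 B1 hB1 B2 hB2 c11 c12 c21 c22
  obtain ⟨a1, p1, ha1, rfl⟩ := (coxHS_mem_iff _).1 hA1
  obtain ⟨a2, p2, ha2, rfl⟩ := (coxHS_mem_iff _).1 hA2
  obtain ⟨b1, q1, hb1, rfl⟩ := (coxHS_mem_iff _).1 hB1
  obtain ⟨b2, q2, hb2, rfl⟩ := (coxHS_mem_iff _).1 hB2
  have d12 := coxHS_CR_of_cross c12
  have d21 := coxHS_CR_of_cross c21
  have d22 := coxHS_CR_of_cross c22
  have key : a2 = a1 ∨ b2 = b1 := by
    obtain ⟨v, i, ⟨h1, h2⟩ | ⟨h1, h2⟩⟩ := cross_adj ha1 hb1 c11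
    · rw [h1] at d12
      rw [h2] at d21
      rw [h1, h2]
      exact (coxHS_core2 hn v i hb2 ha2 (coxHS_CR_symm d12) d21 (coxHS_CR_symm d22)).symm
    · rw [h2] at d12
      rw [h1] at d21
      rw [h1, h2]
      exact coxHS_core2 hn v i ha2 hb2 d21 (coxHS_CR_symm d12) d22
  rcases key with h | h
  · left
    rw [h]
    exact coxHS_half_eq_or _ _ _
  · right
    rw [h]
    exact coxHS_half_eq_or _ _ _

/-- The half-space system of the Coxeter group. -/
def coxHS (n : ℕ) (hn : 5 ≤ n) : HS (W n) where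
  H := halfs n
  compl_mem := halfs_compl
  nonempty := halfs_nonempty
  fin := halfs_fin
  sep := halfs_sep
  step := halfs_step
  k22 := halfs_k22 hn

theorem isHalfOf_smul {i : ZMod n} {A : Set (W n)} (h : IsHalfOf i A) (w : W n) :
    IsHalfOf i (w • A) := by
  obtain ⟨t, b, ht, rfl⟩ := h
  exact ⟨_, _, coxHS_reflOf_conj ht w, smul_half w t b⟩

theorem coxHS_inv (hn : 5 ≤ n) : (coxHS n hn).Inv (W n) := by
  rintro a A ⟨i, h⟩
  exact ⟨i, isHalfOf_smul h a⟩

theorem coxHS_d (hn : 5 ≤ n) (u v : W n) : (coxHS n hn).d u v = len (u⁻¹ * v) := by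
  change {A | A ∈ halfs n ∧ u ∈ A ∧ v ∉ A}.ncard = (invSet (u⁻¹ * v)).ncard
  rw [coxHS_sepSet]
  apply Set.InjOn.ncard_image
  intro s hs s' hs' e
  have h := (half_inj (coxHS_refl_conj (isRefl_of_side _ _ hs) u)
    (coxHS_refl_conj (isRefl_of_side _ _ hs') u) e).1
  exact mul_left_cancel (mul_right_cancel h)

end Pool.Agent.Lib.MP_66609f_al
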