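import Pool.Agent.Lib.MP_66609f_al.CoxDefs

namespace Pool.Agent.Lib.MP_66609f_al

open Pointwise

variable {n : ℕ}

theorem side_inv (t w : W n) : side t w⁻¹ = side (w * t * w⁻¹) w := by
  have h := side_mul t w⁻¹ w
  rw [inv_mul_cancel, side_one, inv_inv] at h
  revert h
  cases side t w⁻¹ <;> cases side (w * t * w⁻¹) w <;> simp

theorem side_mul_sg (t w : W n) (i : ZMod n) (h : t ≠ w * sg i * w⁻¹) :
    side t (w * sg i) = side t w := by
  have h1 : side (w⁻¹ * t * w) (sg i) = false := by
    cases e : side (w⁻¹ * t * w) (sg i)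
    · rfl
    · exfalso
      apply h
      rw [← (side_sg _ _).1 e]
      group
  rw [side_mul, h1, Bool.xor_false]

theorem side_mul_sg_self (w : W n) (i : ZMod n) :
    side (w * sg i * w⁻¹) (w * sg i) = !side (w * sg i * w⁻¹) w := by
  have h1 : side (w⁻¹ * (w * sg i * w⁻¹) * w) (sg i) = true := by
    rw [side_sg]
    group
  rw [side_mul, h1, Bool.xor_true]

theorem isRefl_of_side (t w : W n) (h : side t w = true) : IsRefl t := by
  induction w using cox_induction with
  | h1 =>
    rw [side_one] at h
    exact absurd h (by simp)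
  | hs w i ih =>
    by_cases e : t = w * sg i * w⁻¹
    · exact ⟨i, w, e⟩
    · rw [side_mul_sg t w i e] at h
      exact ih h

theorem invSet_finite (w : W n) : (invSet w).Finite := by
  induction w using cox_induction with
  | h1 =>
    have : invSet (1 : W n) = ∅ := by
      ext t
      simp [invSet, side_one]
    rw [this]
    exact Set.finite_empty
  | hs w i ih =>
    refine (ih.insert (w * sg i * w⁻¹)).subset ?_
    intro t ht
    by_cases e : t = w * sg i * w⁻¹
    · exact Or.inl e
    · right
      have h : side t (w * sg i) = true := ht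
      rw [side_mul_sg t w i e] at h
      exact h

theorem isReflOf_unique {i j : ZMod n} {t : W n} (hi : IsReflOf i t) (hj : IsReflOf j t) :
    i = j := by
  classical
  let f : ZMod n → Multiplicative (ZMod 2) := fun k =>
    Multiplicative.ofAdd (if k = i then 1 else 0)
  have sq : ∀ x : Multiplicative (ZMod 2), x * x = 1 := by decide
  have h1 : ∀ k, f k * f k = 1 := fun k => sq _
  have h2 : ∀ k, f k * f (k + 1) * f k * f (k + 1) = 1 := by
    intro k
    rw [mul_assoc]
    exact sq _
  let φ := coxLift f h1 h2
  obtain ⟨w, hw⟩ := hi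
  obtain ⟨w', hw'⟩ := hj
  have a : φ t = f i := by
    rw [hw, map_mul, map_mul, map_inv, mul_right_comm, mul_inv_cancel, one_mul]
    exact coxLift_sg f h1 h2 i
  have b : φ t = f j := by
    rw [hw', map_mul, map_mul, map_inv, mul_right_comm, mul_inv_cancel, one_mul]
    exact coxLift_sg f h1 h2 j
  by_contra hne
  have c : f i = f j := a.symm.trans b
  have hne' : ¬ j = i := fun e => hne e.symm
  simp only [f, if_true, if_neg hne'] at c
  revert c
  decide

theorem isReflOf_mul_self {i : ZMod n} {t : W n} (hi : IsReflOf i t) : t * t = 1 := by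
  obtain ⟨w, rfl⟩ := hi
  calc w * sg i * w⁻¹ * (w * sg i * w⁻¹) = w * (sg i * sg i) * w⁻¹ := by group
    _ = 1 := by rw [sg_mul_self]; group

theorem side_self {t : W n} (h : IsRefl t) : side t t = true := by
  obtain ⟨i, w, rfl⟩ := h
  have h1 : (w * sg i)⁻¹ * (w * sg i * w⁻¹) * (w * sg i) = sg i := by group
  rw [side_mul _ (w * sg i) w⁻¹, h1, side_inv, side_mul_sg_self]
  cases side (w * sg i * w⁻¹) w <;> rfl

/-- A reflection exchanges the two sides of its wall. -/
theorem side_refl_mul {t : W n} (h : IsRefl t) (w : W n) : side t (t * w) = !side t w := by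
  rw [side_mul, side_self h, inv_mul_cancel, one_mul, Bool.true_xor]

theorem smul_half (w t : W n) (b : Bool) :
    w • half t b = half (w * t * w⁻¹) (xor b (side (w * t * w⁻¹) w)) := by
  ext x
  rw [Set.mem_smul_set_iff_inv_smul_mem, smul_eq_mul]
  have h := side_mul (w * t * w⁻¹) w (w⁻¹ * x)
  have e : w⁻¹ * (w * t * w⁻¹) * w = t := by group
  rw [mul_inv_cancel_left, e] at h
  change side t (w⁻¹ * x) = b ↔ side (w * t * w⁻¹) x = _
  rw [h]
  cases side (w * t * w⁻¹) w <;> cases side t (w⁻¹ * x) <;> cases b <;> simp

theorem half_compl (t : W n) (b : Bool) : (half t b)ᶜ = half t (!b) := by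
  ext x
  change ¬ side t x = b ↔ side t x = !b
  cases side t x <;> cases b <;> simp

/-- A half-space determines its wall. -/
theorem half_inj {t t' : W n} (ht : IsRefl t) (ht' : IsRefl t') {b b' : Bool}
    (h : half t b = half t' b') : t = t' ∧ b = b' := by
  have key : ∀ x, side t x = b ↔ side t' x = b' := fun x => Set.ext_iff.1 h x
  have e : t = t' := by
    obtain ⟨i, w, hw⟩ := ht
    by_contra hne
    have h1 := side_mul_sg t' w i (by rw [← hw]; exact fun e => hne e.symm)
    have h2 := side_mul_sg_self w i
    rw [← hw] at h2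
    have k1 := key w
    have k2 := key (w * sg i)
    rw [h1, h2, ← k1] at k2
    revert k2
    cases side t w <;> cases b <;> simp
  refine ⟨e, ?_⟩
  have k := key 1
  rw [side_one, side_one] at k
  revert k
  cases b <;> cases b' <;> simp

end Pool.Agent.Lib.MP_66609f_al
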