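import Pool.Agent.Lib.MP_66609f_al.CoxLen

namespace Pool.Agent.Lib.MP_66609f_al

open Pointwise

variable {n : ℕ}

theorem coxLen2_refl (i : ZMod n) : IsReflOf i (sg i) := ⟨1, by simp⟩

/-- The exchange condition. -/
theorem coxLen2_exchange (l : List (ZMod n)) (t : W n) (h : side t (l.map sg).prod = true) :
    ∃ l' : List (ZMod n), l'.length + 1 = l.length ∧ (l'.map sg).prod = t * (l.map sg).prod := by
  induction l generalizing t with
  | nil =>
    rw [List.map_nil, List.prod_nil, side_one] at h
    exact absurd h (by decide)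
  | cons i l ih =>
    rw [List.map_cons, List.prod_cons] at h ⊢
    by_cases ht : t = sg i
    · exact ⟨l, rfl, by rw [ht, ← mul_assoc, sg_mul_self, one_mul]⟩
    · have h1 : side t (sg i) = false := by
        rw [← Bool.not_eq_true, side_sg]
        exact ht
      rw [side_mul, h1, Bool.false_xor] at h
      obtain ⟨l', h2, h3⟩ := ih _ h
      refine ⟨i :: l', by simp [h2], ?_⟩
      rw [List.map_cons, List.prod_cons, h3]
      group

theorem coxLen2_len_one : len (1 : W n) = 0 := by
  have h : invSet (1 : W n) = ∅ := by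
    ext t
    simp [invSet, side_one]
  rw [len, h, Set.ncard_empty]

theorem coxLen2_subset (w : W n) (i : ZMod n) :
    invSet (w * sg i) ⊆ insert (w * sg i * w⁻¹) (invSet w) := by
  intro t ht
  by_cases h : t = w * sg i * w⁻¹
  · exact Or.inl h
  · exact Or.inr ((side_mul_sg t w i h).symm.trans ht)

theorem coxLen2_len_le (w : W n) (i : ZMod n) : len (w * sg i) ≤ len w + 1 :=
  (Set.ncard_le_ncard (coxLen2_subset w i) ((invSet_finite w).insert _)).trans
    (Set.ncard_insert_le _ _)

theorem coxLen2_len_eq (w : W n) (i : ZMod n) (h : side (w * sg i * w⁻¹) w = false) :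
    len (w * sg i) = len w + 1 := by
  have h0 : w * sg i * w⁻¹ ∉ invSet w := by
    intro h1
    have h2 : side (w * sg i * w⁻¹) w = true := h1
    rw [h] at h2
    exact absurd h2 (by decide)
  have h1 : invSet (w * sg i) = insert (w * sg i * w⁻¹) (invSet w) := by
    refine (coxLen2_subset w i).antisymm ?_
    rintro t (rfl | ht)
    · change side _ _ = true
      rw [side_mul_sg_self, h]
      rfl
    · exact (side_mul_sg t w i fun h2 => h0 (h2 ▸ ht)).trans ht
  rw [len, h1, Set.ncard_insert_of_notMem h0 (invSet_finite w), len]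

theorem coxLen2_min (l : List (ZMod n))
    (h : ∀ l' : List (ZMod n), (l'.map sg).prod = (l.map sg).prod → l.length ≤ l'.length) :
    len (l.map sg).prod = l.length := by
  induction l using List.reverseRecOn with
  | nil => exact coxLen2_len_one
  | append_singleton l i ih =>
    have h1 : ((l ++ [i]).map sg).prod = (l.map sg).prod * sg i := by simp
    rw [h1] at h ⊢
    rw [List.length_append, List.length_singleton] at h ⊢
    rw [coxLen2_len_eq, ih]
    · intro l' hl'
      have h2 := h (l' ++ [i]) (by simp [hl'])
      simpa using h2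
    · by_contra h2
      obtain ⟨l', h3, h4⟩ := coxLen2_exchange l _ (Bool.eq_true_of_not_eq_false h2)
      rw [inv_mul_cancel_right] at h4
      have h5 := h l' h4
      omega

theorem coxLen2_exists (w : W n) : ∃ l : List (ZMod n), (l.map sg).prod = w := by
  induction w using cox_induction with
  | h1 => exact ⟨[], rfl⟩
  | hs w i ih =>
    obtain ⟨l, rfl⟩ := ih
    exact ⟨l ++ [i], by simp⟩

theorem coxLen2_word (w : W n) :
    ∃ l : List (ZMod n), l.length = len w ∧ (l.map sg).prod = w := by
  obtain ⟨l, hl⟩ := exists_minimalFor_of_wellFoundedLT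
    (fun l : List (ZMod n) => (l.map sg).prod = w) List.length (coxLen2_exists w)
  refine ⟨l, ?_, hl.1⟩
  rw [← hl.1, coxLen2_min l fun l' hl' => hl.le (hl'.trans hl.1)]

theorem coxLen2_le (l : List (ZMod n)) : len (l.map sg).prod ≤ l.length := by
  induction l using List.reverseRecOn with
  | nil => exact coxLen2_len_one.le
  | append_singleton l i ih =>
    have h1 : ((l ++ [i]).map sg).prod = (l.map sg).prod * sg i := by simp
    rw [h1, List.length_append, List.length_singleton]
    exact (coxLen2_len_le _ i).trans (by omega)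

theorem coxLen2_lt (t w : W n) (h : side t w = true) : len (t * w) < len w := by
  obtain ⟨l, h1, rfl⟩ := coxLen2_word w
  obtain ⟨l', h2, h3⟩ := coxLen2_exchange l t h
  have h4 := coxLen2_le l'
  rw [h3] at h4
  omega

theorem coxLen2_inv_le (w : W n) : len w⁻¹ ≤ len w := by
  obtain ⟨l, h1, rfl⟩ := coxLen2_word w
  have h2 : (l.reverse.map sg).prod = (l.map sg).prod⁻¹ := by
    rw [List.prod_inv_reverse, List.map_reverse, List.map_map]
    congr 2
    refine List.map_congr_left fun i _ => ?_
    simp [sg_inv]
  rw [← h1, ← h2, ← List.length_reverse]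
  exact coxLen2_le _

/-- Every element has a word whose length is the number of separating walls. -/
theorem exists_word (w : W n) : ∃ l : List (ZMod n), l.length = len w ∧ (l.map sg).prod = w := by
  exact coxLen2_word w

theorem len_le_length (l : List (ZMod n)) : len (l.map sg).prod ≤ l.length := by
  exact coxLen2_le l

theorem eq_one_of_len (w : W n) (h : len w = 0) : w = 1 := by
  obtain ⟨l, h1, rfl⟩ := exists_word w
  rw [h, List.length_eq_zero_iff] at h1
  rw [h1]
  rfl

theorem len_mul_le (u w : W n) : len (u * w) ≤ len u + len w := by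
  obtain ⟨l, h1, h2⟩ := exists_word u
  obtain ⟨l', h3, h4⟩ := exists_word w
  have h5 := len_le_length (l ++ l')
  rwa [List.map_append, List.prod_append, h2, h4, List.length_append, h1, h3] at h5

theorem len_inv (w : W n) : len w⁻¹ = len w := by
  refine (coxLen2_inv_le w).antisymm ?_
  have h := coxLen2_inv_le w⁻¹
  rwa [inv_inv] at h

theorem exists_descent (w : W n) (h : w ≠ 1) : ∃ i, side (sg i) w = true := by
  obtain ⟨l, h1, h2⟩ := exists_word w
  cases l with
  | nil => exact absurd h2.symm h
  | cons i l =>
    refine ⟨i, ?_⟩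
    rw [List.map_cons, List.prod_cons] at h2
    rw [← h2, side_refl_mul ⟨i, coxLen2_refl i⟩]
    cases h3 : side (sg i) (l.map sg).prod with
    | false => rfl
    | true =>
      have h4 := coxLen2_lt _ _ h3
      have h5 := len_le_length l
      rw [h2, ← h1, List.length_cons] at h4
      omega

theorem len_sg_mul (w : W n) (i : ZMod n) (h : side (sg i) w = true) :
    len (sg i * w) + 1 = len w := by
  have h1 := coxLen2_lt _ _ h
  have h2 := len_mul_le (sg i) (sg i * w)
  have h3 : len (sg i) ≤ 1 := by simpa using len_le_length [i]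
  rw [← mul_assoc, sg_mul_self, one_mul] at h2
  omega

theorem len_refl_mul_lt (t w : W n) (h : side t w = true) : len (t * w) < len w := by
  exact coxLen2_lt t w h

theorem mem_WJ_iff (J : Set (ZMod n)) (w : W n) :
    w ∈ WJ J ↔ ∀ t i, side t w = true → IsReflOf i t → i ∈ J := by
  constructor
  · intro h
    have step : ∀ (x : W n) (j : ZMod n), j ∈ J →
        (∀ t i, side t x = true → IsReflOf i t → i ∈ J) →
        ∀ t i, side t (x * sg j) = true → IsReflOf i t → i ∈ J := by
      intro x j hj ih t i h1 h2
      by_cases h3 : t = x * sg j * x⁻¹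
      · rw [isReflOf_unique h2 ⟨x, h3⟩]
        exact hj
      · rw [side_mul_sg t x j h3] at h1
        exact ih t i h1 h2
    unfold WJ at h
    induction h using Subgroup.closure_induction_right with
    | one =>
      intro t i h1
      rw [side_one] at h1
      exact absurd h1 (by decide)
    | mul_right x _ y hy ih =>
      obtain ⟨j, hj, rfl⟩ := hy
      exact step x j hj ih
    | mul_inv_cancel x _ y hy ih =>
      obtain ⟨j, hj, rfl⟩ := hy
      rw [sg_inv]
      exact step x j hj ih
  · intro h
    induction hl : len w using Nat.strong_induction_on generalizing w with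
    | _ m ih =>
      by_cases hw : w = 1
      · rw [hw]
        exact Subgroup.one_mem _
      obtain ⟨j, hj⟩ := exists_descent w hw
      have hjJ : j ∈ J := h _ j hj (coxLen2_refl j)
      have hm : sg j ∈ WJ J := Subgroup.subset_closure ⟨j, hjJ, rfl⟩
      have h1 := len_sg_mul w j hj
      have h2 : sg j * w ∈ WJ J := by
        refine ih (len (sg j * w)) (by omega) (sg j * w) (fun t i h3 h4 => ?_) rfl
        by_cases ht : t = sg j
        · rw [isReflOf_unique h4 (ht ▸ coxLen2_refl j)]
          exact hjJ
        · have h5 : side t (sg j) = false := by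
            rw [← Bool.not_eq_true, side_sg]
            exact ht
          rw [side_mul, h5, Bool.false_xor] at h3
          obtain ⟨v, rfl⟩ := h4
          exact h _ i h3 ⟨(sg j)⁻¹ * v, by group⟩
      have h3 := Subgroup.mul_mem _ hm h2
      rwa [← mul_assoc, sg_mul_self, one_mul] at h3

theorem mem_WJ_inter (J J' : Set (ZMod n)) (w : W n) (h : w ∈ WJ J) (h' : w ∈ WJ J') :
    w ∈ WJ (J ∩ J') := by
  rw [mem_WJ_iff] at h h' ⊢
  exact fun t i h1 h2 => ⟨h t i h1 h2, h' t i h1 h2⟩

/-- Cutting a word at the first letter outside `J`. -/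
theorem exists_first_exit (J : Set (ZMod n)) (w : W n) (h : w ∉ WJ J) :
    ∃ a ∈ WJ J, ∃ i, i ∉ J ∧ side (sg i) (a⁻¹ * w) = true := by
  obtain ⟨a, ha⟩ := exists_minimalFor_of_wellFoundedLT (fun a : W n => a ∈ WJ J)
    (fun a => len (a⁻¹ * w)) ⟨1, (WJ J).one_mem⟩
  have h1 : a⁻¹ * w ≠ 1 := by
    intro h1
    rw [inv_mul_eq_one] at h1
    exact h (h1 ▸ ha.1)
  obtain ⟨i, hi⟩ := exists_descent _ h1
  refine ⟨a, ha.1, i, fun hJ => ?_, hi⟩
  have h2 := ha.le (Subgroup.mul_mem _ ha.1 (Subgroup.subset_closure ⟨i, hJ, rfl⟩ : sg i ∈ WJ J))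
  have h3 := len_sg_mul _ i hi
  simp only [mul_inv_rev, sg_inv, mul_assoc] at h2
  omega

end Pool.Agent.Lib.MP_66609f_al
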