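import Pool.Agent.Lib.MP_66609f_al.Cox

namespace Pool.Agent.Lib.MP_66609f_al

open Classical in
/-- Boolean equality test. -/
noncomputable def coxSide_eq {G : Type*} (a b : G) : Bool := decide (a = b)

theorem coxSide_eq_iff {G : Type*} (a b : G) : coxSide_eq a b = true ↔ a = b := by
  simp [coxSide_eq]

theorem coxSide_eq_congr {G : Type*} {a b c d : G} (h : a = b ↔ c = d) :
    coxSide_eq a b = coxSide_eq c d := by
  rw [Bool.eq_iff_iff, coxSide_eq_iff, coxSide_eq_iff, h]

/-- The map of the reflection representation on pairs. -/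
noncomputable def coxSide_map {G : Type*} [Group G] (s : G) (x : G × Bool) : G × Bool :=
  (s * x.1 * s, xor x.2 (coxSide_eq x.1 s))

theorem coxSide_conj_iff {G : Type*} [Group G] {s s' t : G} (hs' : s' * s' = 1)
    (hc : s * s' = s' * s) : s' * t * s' = s ↔ t = s := by
  constructor
  · intro h
    have h1 : t = s' * (s' * t * s') * s' := by
      calc t = (s' * s') * t * (s' * s') := by rw [hs']; simp
        _ = s' * (s' * t * s') * s' := by simp only [mul_assoc]
    rw [h1, h, ← hc, mul_assoc, hs', mul_one]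
  · rintro rfl
    rw [← hc, mul_assoc, hs', mul_one]

theorem coxSide_invol {G : Type*} [Group G] {s : G} (hs : s * s = 1) :
    Function.Involutive (coxSide_map s) := by
  rintro ⟨t, b⟩
  have h1 : s * (s * t * s) * s = t := by
    calc s * (s * t * s) * s = (s * s) * t * (s * s) := by simp only [mul_assoc]
      _ = t := by rw [hs]; simp
  have h2 := coxSide_conj_iff (s := s) (s' := s) (t := t) hs rfl
  simp only [coxSide_map, h1, coxSide_eq_congr h2]
  cases b <;> simp

theorem coxSide_comm {G : Type*} [Group G] {s s' : G} (hs : s * s = 1) (hs' : s' * s' = 1)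
    (hc : s * s' = s' * s) (x : G × Bool) :
    coxSide_map s (coxSide_map s' x) = coxSide_map s' (coxSide_map s x) := by
  obtain ⟨t, b⟩ := x
  have h1 : s * (s' * t * s') * s = s' * (s * t * s) * s' := by
    calc s * (s' * t * s') * s = (s * s') * t * (s' * s) := by simp only [mul_assoc]
      _ = (s' * s) * t * (s * s') := by rw [hc]
      _ = _ := by simp only [mul_assoc]
  have h2 := coxSide_conj_iff (s := s) (s' := s') (t := t) hs' hc
  have h3 := coxSide_conj_iff (s := s') (s' := s) (t := t) hs hc.symm
  simp only [coxSide_map, h1, coxSide_eq_congr h2, coxSide_eq_congr h3]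
  rw [Bool.xor_assoc, Bool.xor_assoc, Bool.xor_comm (coxSide_eq t s')]

/-- The permutation attached to a generator. -/
noncomputable def coxSide_perm {n : ℕ} (i : ZMod n) : Equiv.Perm (W n × Bool) :=
  (coxSide_invol (sg_mul_self i)).toPerm _

theorem coxSide_perm_apply {n : ℕ} (i : ZMod n) (x : W n × Bool) :
    coxSide_perm i x = coxSide_map (sg i) x := rfl

theorem coxSide_h1 {n : ℕ} (i : ZMod n) : coxSide_perm i * coxSide_perm i = 1 := by
  ext1 x
  exact coxSide_invol (sg_mul_self i) x

theorem coxSide_h2 {n : ℕ} (i : ZMod n) :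
    coxSide_perm i * coxSide_perm (i + 1) * coxSide_perm i * coxSide_perm (i + 1) = 1 := by
  have hc : coxSide_perm i * coxSide_perm (i + 1) = coxSide_perm (i + 1) * coxSide_perm i := by
    ext1 x
    exact coxSide_comm (sg_mul_self i) (sg_mul_self (i + 1)) (sg_comm i).eq x
  calc coxSide_perm i * coxSide_perm (i + 1) * coxSide_perm i * coxSide_perm (i + 1)
      = (coxSide_perm i * coxSide_perm (i + 1)) * (coxSide_perm i * coxSide_perm (i + 1)) := by
        simp only [mul_assoc]
    _ = (coxSide_perm (i + 1) * coxSide_perm i) * (coxSide_perm i * coxSide_perm (i + 1)) := by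
        rw [← hc]
    _ = coxSide_perm (i + 1) * (coxSide_perm i * coxSide_perm i) * coxSide_perm (i + 1) := by
        simp only [mul_assoc]
    _ = 1 := by rw [coxSide_h1, mul_one, coxSide_h1]

/-- The reflection representation. -/
noncomputable def coxSide_hom (n : ℕ) : W n →* Equiv.Perm (W n × Bool) :=
  coxLift coxSide_perm coxSide_h1 coxSide_h2

theorem coxSide_hom_sg {n : ℕ} (i : ZMod n) (x : W n × Bool) :
    coxSide_hom n (sg i) x = coxSide_map (sg i) x := by
  rw [coxSide_hom, coxLift_sg]
  rfl

theorem coxSide_hom_apply {n : ℕ} (w : W n) : ∀ (t : W n) (b : Bool),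
    coxSide_hom n w (t, b) = (w * t * w⁻¹, xor b (coxSide_hom n w (t, false)).2) := by
  induction w using cox_induction with
  | h1 => intro t b; simp
  | hs w i ih =>
    intro t b
    rw [map_mul, Equiv.Perm.mul_apply, Equiv.Perm.mul_apply, coxSide_hom_sg, coxSide_hom_sg]
    simp only [coxSide_map]
    rw [ih _ (xor b _), ih _ (xor false _)]
    simp only [mul_inv_rev, sg_inv, mul_assoc, Bool.false_xor, Bool.xor_assoc]

/-- The reflection cocycle. -/
theorem exists_side (n : ℕ) : ∃ f : W n → W n → Bool, (∀ t, f t 1 = false) ∧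
    (∀ t i, f t (sg i) = true ↔ t = sg i) ∧
    ∀ t u w, f t (u * w) = xor (f t u) (f (u⁻¹ * t * u) w) := by
  refine ⟨fun t w => (coxSide_hom n w⁻¹ (t, false)).2, ?_, ?_, ?_⟩
  · intro t
    simp
  · intro t i
    simp only [sg_inv, coxSide_hom_sg, coxSide_map, Bool.false_xor, coxSide_eq_iff]
  · intro t u w
    simp only [mul_inv_rev, map_mul, Equiv.Perm.mul_apply]
    rw [coxSide_hom_apply u⁻¹ t false, coxSide_hom_apply w⁻¹ _ (xor false _)]
    simp

end Pool.Agent.Lib.MP_66609f_al
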