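import Pool.Agent.Lib.MP_66609f_al.Defs

/-! Finite generation of the automorphism group of a surface group: definitions. -/

namespace Pool.Agent.Lib.MP_66609f_al

/-- The inverse of a dart. -/
def dinv {α : Type*} (d : α × Bool) : α × Bool := (d.1, !d.2)

/-- `a` is followed by `b` in the cyclic word `l`. -/
def CAdj {α : Type*} (l : List α) (a b : α) : Prop :=
  (∃ l1 l2, l = l1 ++ a :: b :: l2) ∨ (l.getLast? = some a ∧ l.head? = some b)

/-- The polygon glued along the word `Q` has one vertex. -/
def OneV {X : Type*} (Q : List (X × Bool)) : Prop :=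
  ∀ S : Set (X × Bool), S.Nonempty → (∀ a b, a ∈ S → CAdj Q (dinv a) b → b ∈ S) → S = Set.univ

/-- Orientable quadratic words with one vertex. -/
def GoodQ {X : Type*} (Q : List (X × Bool)) : Prop := Q.Nodup ∧ (∀ d, d ∈ Q) ∧ OneV Q

/-- The value of the relator is conjugate to a short element. -/
def ShortQ {X : Type*} [DecidableEq X] (Q : List (X × Bool)) (f : X → FreeGroup X) : Prop :=
  ∃ u w : FreeGroup X, FreeGroup.lift f (FreeGroup.mk Q) = u * w * u⁻¹ ∧ w.norm ≤ Q.length

/-- The Nielsen substitution replacing the dart `b` by `a b`. -/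
def nuMove {X : Type*} [DecidableEq X] (a b : X × Bool) (y : X) : FreeGroup X :=
  if y = b.1 then
    (if b.2 then FreeGroup.mk [a] * FreeGroup.of y else FreeGroup.of y * (FreeGroup.mk [a])⁻¹)
  else FreeGroup.of y

/-- The effect of the move on an assignment. -/
def fMove {X H : Type*} [DecidableEq X] [Group H] (a b : X × Bool) (f : X → H) (y : X) : H :=
  FreeGroup.lift f (nuMove a b y)

/-- All generators are sent to letters, up to a common conjugation. -/
def Terminal {X : Type*} (f : X → FreeGroup X) : Prop :=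
  ∃ p : FreeGroup X, ∀ y, ∃ l : X × Bool, f y = p * FreeGroup.mk [l] * p⁻¹

/-- `f` identifies the group presented by `Q` with `H`. -/
def IsMarking {X H : Type*} [Group H] (Q : List (X × Bool)) (f : X → H) : Prop :=
  Function.Surjective (FreeGroup.lift f) ∧
    (FreeGroup.lift f).ker = Subgroup.normalClosure {FreeGroup.mk Q}

/-- A choice of a middle letter in the values of all darts. -/
def IsMid {X : Type*} [DecidableEq X] (f : X → FreeGroup X) (Lp : X × Bool → List (X × Bool))
    (xm : X × Bool → X × Bool) : Prop :=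
  ∀ d, (FreeGroup.lift f (FreeGroup.mk [d])).toWord =
    Lp d ++ xm d :: FreeGroup.invRev (Lp (dinv d)) ∧ xm (dinv d) = dinv (xm d)

/-- `x` is a product of conjugates of the members of `l`, in some order. -/
def ConjProd {G : Type*} [Group G] (l : List G) (x : G) : Prop :=
  ∃ l' : List (G × G), (l'.map Prod.snd).Perm l ∧ (l'.map fun p => p.1 * p.2 * p.1⁻¹).prod = x

/-- States of the folding process. -/
structure FSt (X ι V : Type) where
  E : Finset ι
  lab : ι → X × Bool
  src : ι × Bool → V
  D : List (ι × Bool)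
  faces : List (Bool × List (ι × Bool))

namespace FSt

variable {X ι V : Type} (S : FSt X ι V)

/-- The label of a dart. -/
def dl (d : ι × Bool) : X × Bool := if d.2 then S.lab d.1 else dinv (S.lab d.1)

def labH : FreeGroup ι →* FreeGroup X := FreeGroup.lift fun e => FreeGroup.mk [S.lab e]

def ClosedPath (l : List (ι × Bool)) : Prop :=
  ∀ a b, CAdj l a b → S.src (dinv a) = S.src b

def darts : List (ι × Bool) := S.D ++ (S.faces.map Prod.snd).flatten

def verts [DecidableEq V] : Finset V := (S.E ×ˢ (Finset.univ : Finset Bool)).image S.src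

def meas (n : ℕ) : ℕ := S.D.length + n * S.faces.length

structure Valid [DecidableEq V] [Fintype X] (R : List (X × Bool)) (f0 : X → FreeGroup X) :
    Prop where
  nodup : S.darts.Nodup
  mem : ∀ d, d ∈ S.darts ↔ d.1 ∈ S.E
  face_lab : ∀ r ∈ S.faces, (r.2.map S.dl).IsRotated (if r.1 then R else FreeGroup.invRev R)
  D_lab : FreeGroup.mk (S.D.map S.dl) = 1
  D_closed : S.ClosedPath S.D
  face_closed : ∀ r ∈ S.faces, S.ClosedPath r.2
  count : S.D ≠ [] → S.E.card + 1 ≤ S.verts.card + S.faces.length + Fintype.card X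
  count' : S.E.card ≤ S.verts.card + S.faces.length + Fintype.card X
  alg : ∃ fh : X → FreeGroup ι,
    (∀ x, (f0 x)⁻¹ * S.labH (fh x) ∈ Subgroup.normalClosure {FreeGroup.mk R}) ∧
    ConjProd (FreeGroup.mk S.D :: S.faces.map fun r => FreeGroup.mk r.2)
      (FreeGroup.lift fh (FreeGroup.mk R))
  sign : ∀ r ∈ S.faces, ∀ r' ∈ S.faces, ∀ d, d ∈ r.2 → dinv d ∈ r'.2 → r.1 = r'.1

end FSt

/-- The standard relator as a word. -/
def surfWord (g : ℕ) : List ((Fin g × Bool) × Bool) :=
  (List.ofFn fun i : Fin g =>
    [((i, false), true), ((i, true), true), ((i, false), false), ((i, true), false)]).flatten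

end Pool.Agent.Lib.MP_66609f_al
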