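import Pool.Agent.Lib.MP_66609f_al.FGQuad

namespace Pool.Agent.Lib.MP_66609f_al

variable {X : Type*} [DecidableEq X]

theorem fgMove_seg {α : Type*} {u : α} {L : List α} (h : u ∈ L) (w : α) :
    ∃ l1 z l2, L ++ [w] = l1 ++ u :: z :: l2 := by
  obtain ⟨s, t, rfl⟩ := List.append_of_mem h
  cases t with
  | nil => exact ⟨s, w, [], by simp⟩
  | cons z t => exact ⟨s, z, t ++ [w], by simp⟩

theorem goodQ_move {a b : X × Bool} {r1 r2 : List (X × Bool)}
    (h : GoodQ (a :: b :: (r1 ++ dinv b :: r2))) : GoodQ (b :: (r1 ++ dinv b :: a :: r2)) := by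
  classical
  have hperm : (a :: b :: (r1 ++ dinv b :: r2)).Perm (b :: (r1 ++ dinv b :: a :: r2)) := by
    have e1 : b :: (r1 ++ dinv b :: a :: r2) = (b :: r1 ++ [dinv b]) ++ a :: r2 := by simp
    have e2 : a :: b :: (r1 ++ dinv b :: r2) = a :: ((b :: r1 ++ [dinv b]) ++ r2) := by simp
    rw [e1, e2]
    exact List.perm_middle.symm
  rcases List.eq_nil_or_concat r2 with rfl | ⟨t, p, rfl⟩
  · refine h.rotate ?_
    have e1 : b :: (r1 ++ [dinv b, a]) = (b :: (r1 ++ [dinv b])) ++ [a] := by simp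
    rw [e1]
    exact List.isRotated_append (l := [a])
  rw [List.concat_eq_append] at h hperm ⊢
  refine ⟨hperm.nodup_iff.1 h.1, fun d => hperm.mem_iff.1 (h.2.1 d), fun S hS hc => ?_⟩
  have : Nonempty X := ⟨a.1⟩
  obtain ⟨n, t', hn⟩ : ∃ n t', t ++ [p] = n :: t' := by
    cases t with
    | nil => exact ⟨p, [], rfl⟩
    | cons n t => exact ⟨n, t ++ [p], rfl⟩
  have o1 : CAdj (a :: b :: (r1 ++ dinv b :: (t ++ [p]))) a b := Or.inl ⟨[], _, rfl⟩
  have o2 : CAdj (a :: b :: (r1 ++ dinv b :: (t ++ [p]))) (dinv b) n :=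
    Or.inl ⟨a :: b :: r1, t', by rw [hn]; simp⟩
  have o3 : CAdj (a :: b :: (r1 ++ dinv b :: (t ++ [p]))) p a :=
    Or.inr ⟨List.getLast?_eq_some_iff.2 ⟨a :: b :: (r1 ++ dinv b :: t), by simp⟩, rfl⟩
  have n1 : CAdj (b :: (r1 ++ dinv b :: a :: (t ++ [p]))) (dinv b) a :=
    Or.inl ⟨b :: r1, t ++ [p], by simp⟩
  have n2 : CAdj (b :: (r1 ++ dinv b :: a :: (t ++ [p]))) (dinv (dinv a)) n := by
    rw [dinv_dinv]
    exact Or.inl ⟨b :: (r1 ++ [dinv b]), t', by rw [hn]; simp⟩
  have n3 : CAdj (b :: (r1 ++ dinv b :: a :: (t ++ [p]))) (dinv (dinv p)) b := by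
    rw [dinv_dinv]
    exact Or.inr ⟨List.getLast?_eq_some_iff.2 ⟨b :: (r1 ++ dinv b :: a :: t), by simp⟩, rfl⟩
  have hab := h.fst_ne o1
  have hab1 : a ≠ b := fun e => hab (congrArg Prod.fst e)
  have hnb : n ≠ b := fun e => h.fst_ne o2 (congrArg Prod.fst e).symm
  have hpb : dinv p ≠ b := by
    intro e
    have h1 := h.1
    rw [← e, dinv_dinv] at h1
    simp [List.nodup_append] at h1
  have key := h.2.2 {x | (x ≠ b ∧ x ∈ S) ∨ (x = b ∧ dinv a ∈ S)} ?_ ?_
  · have h1 : ∀ x, x ≠ b → x ∈ S := fun x hx => by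
      have h2 : x ∈ {x | (x ≠ b ∧ x ∈ S) ∨ (x = b ∧ dinv a ∈ S)} := key ▸ Set.mem_univ x
      exact h2.elim (fun h3 => h3.2) fun h3 => absurd h3.1 hx
    refine Set.eq_univ_of_forall fun x => ?_
    by_cases hx : x = b
    · exact hx ▸ hc _ _ (h1 _ hpb) n3
    · exact h1 x hx
  · obtain ⟨x, hx⟩ := hS
    by_cases e : x = b
    · exact ⟨a, Or.inl ⟨hab1, hc _ _ (e ▸ hx) n1⟩⟩
    · exact ⟨x, Or.inl ⟨e, hx⟩⟩
  · rintro x y (⟨hx, hxS⟩ | ⟨rfl, hxS⟩) hxy
    · by_cases hy : y = b
      · subst hy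
        have e := cadj_unique_left h.1 hxy o1
        refine Or.inr ⟨rfl, ?_⟩
        rwa [← e, dinv_dinv]
      refine Or.inl ⟨hy, ?_⟩
      have hm := h.2.1 (dinv x)
      have hm' : dinv x = a ∨ dinv x ∈ b :: r1 ∨ dinv x = dinv b ∨ dinv x ∈ t ∨ dinv x = p := by
        simpa only [List.mem_cons, List.mem_append, List.not_mem_nil, or_false, or_assoc] using hm
      rcases hm' with e | e | e | e | e
      · exact absurd (cadj_unique_right h.1 hxy (e ▸ o1)) hy
      · obtain ⟨l1, z, l2, e'⟩ := fgMove_seg e (dinv b)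
        have c1 : CAdj (a :: b :: (r1 ++ dinv b :: (t ++ [p]))) (dinv x) z :=
          Or.inl ⟨a :: l1, l2 ++ (t ++ [p]), by
            simpa using congrArg (fun l => l ++ (t ++ [p])) e'⟩
        rw [cadj_unique_right h.1 hxy c1]
        exact hc _ _ hxS (Or.inl ⟨l1, l2 ++ a :: (t ++ [p]), by
          simpa using congrArg (fun l => l ++ a :: (t ++ [p])) e'⟩)
      · exact absurd (by rw [← dinv_dinv x, e, dinv_dinv]) hx
      · obtain ⟨l1, z, l2, e'⟩ := fgMove_seg e p
        have c1 : CAdj (a :: b :: (r1 ++ dinv b :: (t ++ [p]))) (dinv x) z :=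
          Or.inl ⟨a :: b :: (r1 ++ dinv b :: l1), l2, by rw [e']; simp⟩
        rw [cadj_unique_right h.1 hxy c1]
        exact hc _ _ hxS (Or.inl ⟨b :: (r1 ++ dinv b :: a :: l1), l2, by rw [e']; simp⟩)
      · rw [e] at hxy
        rw [cadj_unique_right h.1 hxy o3]
        have e2 : x = dinv p := by rw [← e, dinv_dinv]
        exact hc _ _ (hc _ _ (e2 ▸ hxS) n3) n1
    · rw [cadj_unique_right h.1 hxy o2]
      exact Or.inl ⟨hnb, hc _ _ hxS n2⟩

theorem fgMove_cons {α : Type*} (d : α × Bool) (l : List (α × Bool)) :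
    FreeGroup.mk (d :: l) = FreeGroup.mk [d] * FreeGroup.mk l := by
  rw [FreeGroup.mul_mk]
  rfl

theorem fgMove_true {α : Type*} (y : α) : FreeGroup.mk [(y, true)] = FreeGroup.of y := rfl

theorem fgMove_false {α : Type*} (y : α) : FreeGroup.mk [(y, false)] = (FreeGroup.of y)⁻¹ :=
  mk_dinv (y, true)

theorem fgMove_fix1 (a : X × Bool) {b d : X × Bool} (h : d.1 ≠ b.1) :
    FreeGroup.lift (nuMove a b) (FreeGroup.mk [d]) = FreeGroup.mk [d] := by
  obtain ⟨y, c⟩ := d
  have h1 : nuMove a b y = FreeGroup.of y := if_neg h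
  cases c
  · rw [fgMove_false, map_inv, FreeGroup.lift_apply_of, h1]
  · rw [fgMove_true, FreeGroup.lift_apply_of, h1]

theorem fgMove_fix (a : X × Bool) {b : X × Bool} {l : List (X × Bool)} (h : ∀ d ∈ l, d.1 ≠ b.1) :
    FreeGroup.lift (nuMove a b) (FreeGroup.mk l) = FreeGroup.mk l := by
  induction l with
  | nil => exact map_one _
  | cons d l ih =>
    rw [fgMove_cons, map_mul, fgMove_fix1 a (h d List.mem_cons_self),
      ih fun e he => h e (List.mem_cons_of_mem _ he)]

theorem fgMove_self (a b : X × Bool) :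
    FreeGroup.lift (nuMove a b) (FreeGroup.mk [b]) = FreeGroup.mk [a] * FreeGroup.mk [b] := by
  obtain ⟨y, c⟩ := b
  cases c
  · rw [fgMove_false, map_inv, FreeGroup.lift_apply_of]
    simp [nuMove]
  · rw [fgMove_true, FreeGroup.lift_apply_of]
    simp [nuMove]

theorem fgMove_comp {a b : X × Bool} (hab : a.1 ≠ b.1) :
    (FreeGroup.lift (nuMove a b)).comp (FreeGroup.lift (nuMove (dinv a) b)) = MonoidHom.id _ := by
  have key : FreeGroup.lift (nuMove a b) (FreeGroup.lift (nuMove (dinv a) b) (FreeGroup.mk [b])) =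
      FreeGroup.mk [b] := by
    rw [fgMove_self, map_mul, fgMove_self, fgMove_fix1 a (d := dinv a) hab, mk_dinv]
    group
  refine FreeGroup.ext_hom _ _ fun y => ?_
  rw [MonoidHom.comp_apply, MonoidHom.id_apply]
  by_cases hy : y = b.1
  · obtain ⟨z, c⟩ := b
    obtain rfl : y = z := hy
    cases c
    · rw [fgMove_false, map_inv, map_inv] at key
      exact inv_injective key
    · exact key
  · rw [← fgMove_true, fgMove_fix1 _ (d := (y, true)) hy, fgMove_fix1 _ (d := (y, true)) hy]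

theorem lift_nuMove_bijective {a b : X × Bool} (hab : a.1 ≠ b.1) :
    Function.Bijective (FreeGroup.lift (nuMove a b)) := by
  have h1 := fgMove_comp hab
  have h2 := fgMove_comp (a := dinv a) (b := b) hab
  rw [dinv_dinv] at h2
  exact Function.bijective_iff_has_inverse.2 ⟨FreeGroup.lift (nuMove (dinv a) b),
    fun w => DFunLike.congr_fun h2 w, fun w => DFunLike.congr_fun h1 w⟩

theorem lift_fMove {H : Type*} [Group H] (a b : X × Bool) (f : X → H) (w : FreeGroup X) :
    FreeGroup.lift (fMove a b f) w = FreeGroup.lift f (FreeGroup.lift (nuMove a b) w) := by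
  have : FreeGroup.lift (fMove a b f) =
      (FreeGroup.lift f).comp (FreeGroup.lift (nuMove a b)) := by
    refine FreeGroup.ext_hom _ _ fun y => ?_
    rw [MonoidHom.comp_apply, FreeGroup.lift_apply_of, FreeGroup.lift_apply_of]
    rfl
  rw [this]
  rfl

theorem lift_nuMove_word {a b : X × Bool} {r1 r2 : List (X × Bool)}
    (h : GoodQ (a :: b :: (r1 ++ dinv b :: r2))) :
    FreeGroup.lift (nuMove a b) (FreeGroup.mk (b :: (r1 ++ dinv b :: a :: r2))) =
      FreeGroup.mk (a :: b :: (r1 ++ dinv b :: r2)) := by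
  have : Nonempty X := ⟨a.1⟩
  have hab := h.fst_ne (a := a) (b := b) (Or.inl ⟨[], _, rfl⟩)
  have hd : ∀ d : X × Bool, d.1 = b.1 → d = b ∨ d = dinv b := by
    rintro ⟨x, c⟩ e
    obtain ⟨y, c'⟩ := b
    obtain rfl : x = y := e
    cases c <;> cases c' <;> simp [dinv]
  have hn := (List.nodup_cons.1 h.1).2
  have hb := (List.nodup_cons.1 hn).1
  have hn2 := List.nodup_middle.1 (List.nodup_cons.1 hn).2
  have hb2 := (List.nodup_cons.1 hn2).1
  have h1 : ∀ d ∈ r1, d.1 ≠ b.1 := fun d hm e => by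
    rcases hd d e with rfl | rfl
    · exact hb (List.mem_append_left _ hm)
    · exact hb2 (List.mem_append_left _ hm)
  have h2 : ∀ d ∈ r2, d.1 ≠ b.1 := fun d hm e => by
    rcases hd d e with rfl | rfl
    · exact hb (List.mem_append_right _ (List.mem_cons_of_mem _ hm))
    · exact hb2 (List.mem_append_right _ hm)
  rw [fgMove_cons b, fgMove_cons a (b :: _), fgMove_cons b (r1 ++ dinv b :: r2),
    ← FreeGroup.mul_mk, ← FreeGroup.mul_mk, fgMove_cons (dinv b) r2, fgMove_cons (dinv b),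
    fgMove_cons a r2, mk_dinv]
  simp only [map_mul, map_inv, fgMove_self, fgMove_fix a h1, fgMove_fix a h2, fgMove_fix1 a hab]
  group

theorem IsMarking.move {H : Type*} [Group H] {a b : X × Bool} {r1 r2 : List (X × Bool)}
    {f : X → H} (h : GoodQ (a :: b :: (r1 ++ dinv b :: r2)))
    (hf : IsMarking (a :: b :: (r1 ++ dinv b :: r2)) f) :
    IsMarking (b :: (r1 ++ dinv b :: a :: r2)) (fMove a b f) := by
  have : Nonempty X := ⟨a.1⟩
  have hb := lift_nuMove_bijective (h.fst_ne (a := a) (b := b) (Or.inl ⟨[], _, rfl⟩))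
  have e : FreeGroup.lift (fMove a b f) =
      (FreeGroup.lift f).comp (FreeGroup.lift (nuMove a b)) :=
    MonoidHom.ext (lift_fMove a b f)
  rw [IsMarking, e]
  refine ⟨hf.1.comp hb.2, ?_⟩
  rw [← MonoidHom.comap_ker, hf.2, ← lift_nuMove_word h, ← Set.image_singleton,
    ← Subgroup.map_normalClosure _ _ hb.2, Subgroup.comap_map_eq_self_of_injective hb.1]

theorem fgMove_conj {G : Type*} [Group G] {x y : G} (h : IsConj x y) :
    Subgroup.normalClosure {y} ≤ Subgroup.normalClosure {x} := by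
  obtain ⟨c, rfl⟩ := isConj_iff.1 h
  exact Subgroup.normalClosure_le_normal (Set.singleton_subset_iff.2
    ((Subgroup.normalClosure_normal (s := {x})).conj_mem x
      (Subgroup.subset_normalClosure (s := {x}) rfl) c))

theorem fgMove_inv {G : Type*} [Group G] (x : G) :
    Subgroup.normalClosure {x⁻¹} ≤ Subgroup.normalClosure {x} :=
  Subgroup.normalClosure_le_normal (Set.singleton_subset_iff.2
    (inv_mem (Subgroup.subset_normalClosure (s := {x}) rfl)))

omit [DecidableEq X] in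
theorem IsMarking.rotate {H : Type*} [Group H] {Q Q' : List (X × Bool)} {f : X → H}
    (hf : IsMarking Q f) (hr : Q.IsRotated Q') : IsMarking Q' f := by
  refine ⟨hf.1, hf.2.trans (le_antisymm ?_ ?_)⟩
  · exact fgMove_conj (isConj_mk_of_isRotated hr.symm)
  · exact fgMove_conj (isConj_mk_of_isRotated hr)

omit [DecidableEq X] in
theorem IsMarking.invRev {H : Type*} [Group H] {Q : List (X × Bool)} {f : X → H}
    (hf : IsMarking Q f) : IsMarking (FreeGroup.invRev Q) f := by
  refine ⟨hf.1, hf.2.trans ?_⟩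
  rw [← FreeGroup.inv_mk]
  refine le_antisymm ?_ (fgMove_inv _)
  conv_lhs => rw [← inv_inv (FreeGroup.mk Q)]
  exact fgMove_inv _

theorem IsMarking.ne_one {H : Type*} [Group H] {Q : List (X × Bool)} {f : X → H}
    (h : GoodQ Q) (hf : IsMarking Q f) (y : X) : f y ≠ 1 := by
  intro hy
  let e : FreeGroup X →* Multiplicative ℤ :=
    FreeGroup.lift fun x => Multiplicative.ofAdd (if x = y then 1 else 0)
  have hp : Q.Perm (FreeGroup.invRev Q) :=
    (List.perm_ext_iff_of_nodup h.1 h.invRev.1).2 fun d => iff_of_true (h.2.1 d) (h.invRev.2.1 d)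
  have h1 : e (FreeGroup.mk Q) = e (FreeGroup.mk (FreeGroup.invRev Q)) := by
    rw [FreeGroup.lift_mk, FreeGroup.lift_mk]
    exact (hp.map _).prod_eq
  rw [← FreeGroup.inv_mk, map_inv] at h1
  have h2 : e (FreeGroup.mk Q) = 1 := by
    have h3 := congrArg Multiplicative.toAdd h1
    rw [toAdd_inv] at h3
    exact Multiplicative.toAdd.injective (by rw [toAdd_one]; omega)
  have h4 : FreeGroup.of y ∈ (FreeGroup.lift f).ker := by
    rw [MonoidHom.mem_ker, FreeGroup.lift_apply_of, hy]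
  rw [hf.2] at h4
  have h5 : FreeGroup.of y ∈ e.ker :=
    Subgroup.normalClosure_le_normal (Set.singleton_subset_iff.2 h2) h4
  rw [MonoidHom.mem_ker, FreeGroup.lift_apply_of, if_pos rfl] at h5
  exact absurd (congrArg Multiplicative.toAdd h5) (by simp)

omit [DecidableEq X] in
theorem IsMarking.comp {H : Type*} [Group H] {Q : List (X × Bool)} {f : X → H}
    (hf : IsMarking Q f) (φ : MulAut H) : IsMarking Q fun y => φ (f y) := by
  have e : FreeGroup.lift (fun y => φ (f y)) = φ.toMonoidHom.comp (FreeGroup.lift f) := by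
    refine FreeGroup.ext_hom _ _ fun y => ?_
    rw [MonoidHom.comp_apply, FreeGroup.lift_apply_of, FreeGroup.lift_apply_of]
    rfl
  rw [IsMarking, e]
  refine ⟨φ.surjective.comp hf.1, ?_⟩
  rw [← hf.2]
  ext w
  simp [MonoidHom.mem_ker]

omit [DecidableEq X] in
theorem IsMarking.exists_aut {H : Type*} [Group H] {Q : List (X × Bool)} {f f' : X → H}
    (hf : IsMarking Q f) (hf' : IsMarking Q f') : ∃ φ : MulAut H, ∀ y, φ (f y) = f' y := by
  refine ⟨((QuotientGroup.quotientKerEquivOfSurjective _ hf.1).symm.trans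
    (QuotientGroup.quotientMulEquivOfEq (hf.2.trans hf'.2.symm))).trans
    (QuotientGroup.quotientKerEquivOfSurjective _ hf'.1), fun y => ?_⟩
  have h1 : (QuotientGroup.quotientKerEquivOfSurjective _ hf.1).symm (f y) =
      QuotientGroup.mk (FreeGroup.of y) := by
    rw [MulEquiv.symm_apply_eq]
    exact (FreeGroup.lift_apply_of (f := f)).symm
  rw [MulEquiv.trans_apply, MulEquiv.trans_apply, h1]
  exact FreeGroup.lift_apply_of (f := f')

omit [DecidableEq X] in
theorem IsMarking.aut_eq_one {H : Type*} [Group H] {Q : List (X × Bool)} {f : X → H}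
    (hf : IsMarking Q f) (φ : MulAut H) (h : ∀ y, φ (f y) = f y) : φ = 1 := by
  have e : φ.toMonoidHom.comp (FreeGroup.lift f) = FreeGroup.lift f := by
    refine FreeGroup.ext_hom _ _ fun y => ?_
    rw [MonoidHom.comp_apply, FreeGroup.lift_apply_of]
    exact h y
  refine MulEquiv.ext fun x => ?_
  obtain ⟨w, rfl⟩ := hf.1 x
  exact DFunLike.congr_fun e w

theorem ShortQ.move {a b : X × Bool} {r1 r2 : List (X × Bool)} {f : X → FreeGroup X}
    (h : GoodQ (a :: b :: (r1 ++ dinv b :: r2)))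
    (hf : ShortQ (a :: b :: (r1 ++ dinv b :: r2)) f) :
    ShortQ (b :: (r1 ++ dinv b :: a :: r2)) (fMove a b f) := by
  obtain ⟨u, w, h1, h2⟩ := hf
  refine ⟨u, w, by rw [lift_fMove, lift_nuMove_word h, h1], h2.trans (le_of_eq ?_)⟩
  simp only [List.length_cons, List.length_append]
  omega

theorem ShortQ.rotate {Q Q' : List (X × Bool)} {f : X → FreeGroup X} (hf : ShortQ Q f)
    (hr : Q.IsRotated Q') : ShortQ Q' f := by
  obtain ⟨u, w, h1, h2⟩ := hf
  obtain ⟨c, hc⟩ := isConj_iff.1 (isConj_mk_of_isRotated hr)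
  refine ⟨FreeGroup.lift f c * u, w, ?_, h2.trans (le_of_eq hr.perm.length_eq)⟩
  rw [← hc, map_mul, map_mul, map_inv, h1]
  group

theorem ShortQ.invRev {Q : List (X × Bool)} {f : X → FreeGroup X} (hf : ShortQ Q f) :
    ShortQ (FreeGroup.invRev Q) f := by
  obtain ⟨u, w, h1, h2⟩ := hf
  refine ⟨u, w⁻¹, ?_, ?_⟩
  · rw [← FreeGroup.inv_mk, map_inv, h1]
    group
  · rwa [FreeGroup.norm_inv_eq, FreeGroup.invRev_length]

end Pool.Agent.Lib.MP_66609f_al
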