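import Pool.Agent.Lib.MP_66609f_al.PiABasic

namespace Pool.Agent.Lib.MP_66609f_al

/-- The relator `v_0 ... v_{2g-1} v_0⁻¹ ... v_{2g-1}⁻¹`. -/
def oppRel (g : ℕ) : FreeGroup (Fin (2 * g)) :=
  (List.ofFn fun i => FreeGroup.of i).prod * (List.ofFn fun i => (FreeGroup.of i)⁻¹).prod

/-- The product of the terms after the index `k`. -/
def isoB_Z {G : Type*} [Group G] {g : ℕ} (u : Fin g → G) (k : Fin g) : G :=
  (List.ofFn fun l => if k < l then u l else 1).prod

theorem isoB_Z_zero {G : Type*} [Group G] {g : ℕ} (u : Fin (g + 1) → G) :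
    isoB_Z u 0 = (List.ofFn fun l : Fin g => u l.succ).prod := by
  simp [isoB_Z, List.ofFn_succ]

theorem isoB_Z_succ {G : Type*} [Group G] {g : ℕ} (u : Fin (g + 1) → G) (k : Fin g) :
    isoB_Z u k.succ = isoB_Z (fun l : Fin g => u l.succ) k := by
  simp [isoB_Z, List.ofFn_succ]

theorem isoB_Z_map {G H : Type*} [Group G] [Group H] {g : ℕ} (f : G →* H) (u : Fin g → G)
    (k : Fin g) : f (isoB_Z u k) = isoB_Z (fun l => f (u l)) k := by
  unfold isoB_Z
  rw [map_list_prod, List.map_ofFn]
  congr 2
  funext l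
  by_cases h : k < l <;> simp [h]

theorem isoB_main {G : Type*} [Group G] (g : ℕ) (x y : Fin g → G) :
    (List.ofFn fun k : Fin g =>
      (x k * (isoB_Z (fun l => x l * y l) k)⁻¹) * (isoB_Z (fun l => x l * y l) k * y k) *
        (x k * (isoB_Z (fun l => x l * y l) k)⁻¹)⁻¹ *
        (isoB_Z (fun l => x l * y l) k * y k)⁻¹).prod =
      (List.ofFn fun l => x l * y l).prod * (List.ofFn fun l => (x l)⁻¹ * (y l)⁻¹).prod := by
  induction g with
  | zero => simp
  | succ g ih =>
    rw [List.ofFn_succ, List.ofFn_succ, List.ofFn_succ, List.prod_cons, List.prod_cons,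
      List.prod_cons]
    simp only [isoB_Z_succ, isoB_Z_zero]
    rw [ih (fun l => x l.succ) (fun l => y l.succ)]
    group

theorem isoB_pairs {G : Type*} [Group G] (g : ℕ) (f : ℕ → G) :
    (List.ofFn fun i : Fin (2 * g) => f i).prod =
      (List.ofFn fun k : Fin g => f (2 * k) * f (2 * k + 1)).prod := by
  induction g with
  | zero => simp
  | succ g ih =>
    have h1 : (List.ofFn fun i : Fin (2 * (g + 1)) => f i) =
        List.ofFn fun i : Fin (2 * g + 1 + 1) => f i := rfl
    rw [h1, List.ofFn_succ', List.ofFn_succ', List.ofFn_succ', List.prod_concat,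
      List.prod_concat, List.prod_concat]
    simp only [Fin.val_castSucc, Fin.val_last]
    rw [ih, mul_assoc]

/-- The reindexing of the generators. -/
def isoB_idx (g : ℕ) : Fin g × Bool ≃ Fin (2 * g) where
  toFun p := ⟨2 * p.1 + p.2.toNat, by
    have h1 := p.1.2
    have h2 : p.2.toNat ≤ 1 := Bool.toNat_le _
    omega⟩
  invFun i := (⟨i / 2, by have := i.2; omega⟩, decide (i.1 % 2 = 1))
  left_inv := by
    rintro ⟨k, b⟩
    refine Prod.ext (Fin.ext ?_) ?_
    · cases b
      · simp
      · simp; omega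
    · cases b <;> simp
  right_inv := by
    intro i
    apply Fin.ext
    by_cases h : i.1 % 2 = 1
    · simp [h]; omega
    · simp [h]; omega

theorem isoB_pairs' {G : Type*} [Group G] (g : ℕ) (f : Fin (2 * g) → G) :
    (List.ofFn f).prod =
      (List.ofFn fun k : Fin g => f (isoB_idx g (k, false)) * f (isoB_idx g (k, true))).prod := by
  have h := isoB_pairs g (fun i => if h : i < 2 * g then f ⟨i, h⟩ else 1)
  have h1 : (fun i : Fin (2 * g) => if h : (i : ℕ) < 2 * g then f ⟨i, h⟩ else 1) = f := by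
    funext i
    rw [dif_pos i.2]
  rw [h1] at h
  rw [h]
  congr 2
  funext k
  have hk := k.2
  rw [dif_pos (by omega), dif_pos (by omega)]
  rfl

/-- The tail products in the free group. -/
def isoB_T (g : ℕ) (k : Fin g) : FreeGroup (Fin g × Bool) :=
  isoB_Z (fun l => FreeGroup.of (l, false) * FreeGroup.of (l, true)) k

def isoB_f (g : ℕ) : FreeGroup (Fin g × Bool) →* FreeGroup (Fin g × Bool) :=
  FreeGroup.lift fun p => if p.2 then isoB_T g p.1 * FreeGroup.of p
    else FreeGroup.of p * (isoB_T g p.1)⁻¹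

def isoB_f' (g : ℕ) : FreeGroup (Fin g × Bool) →* FreeGroup (Fin g × Bool) :=
  FreeGroup.lift fun p => if p.2 then (isoB_T g p.1)⁻¹ * FreeGroup.of p
    else FreeGroup.of p * isoB_T g p.1

theorem isoB_f_T (g : ℕ) (k : Fin g) : isoB_f g (isoB_T g k) = isoB_T g k := by
  conv_lhs => rw [isoB_T, isoB_Z_map]
  conv_rhs => rw [isoB_T]
  congr 1
  funext l
  simp [isoB_f, mul_assoc]

theorem isoB_f'_T (g : ℕ) (k : Fin g) : isoB_f' g (isoB_T g k) = isoB_T g k := by
  conv_lhs => rw [isoB_T, isoB_Z_map]
  conv_rhs => rw [isoB_T]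
  congr 1
  funext l
  simp [isoB_f', mul_assoc]

/-- The automorphism of the free group. -/
def isoB_aut (g : ℕ) : FreeGroup (Fin g × Bool) ≃* FreeGroup (Fin g × Bool) :=
  MonoidHom.toMulEquiv (isoB_f g) (isoB_f' g)
    (by
      apply FreeGroup.ext_hom
      rintro ⟨k, b⟩
      have h1 : isoB_f g (FreeGroup.of (k, b)) = if b then isoB_T g k * FreeGroup.of (k, b)
          else FreeGroup.of (k, b) * (isoB_T g k)⁻¹ := by simp [isoB_f]
      have h2 : isoB_f' g (FreeGroup.of (k, b)) = if b then (isoB_T g k)⁻¹ * FreeGroup.of (k, b)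
          else FreeGroup.of (k, b) * isoB_T g k := by simp [isoB_f']
      rw [MonoidHom.comp_apply, h1, MonoidHom.id_apply]
      cases b
      · simp only [Bool.false_eq_true, if_false] at h2 ⊢
        rw [map_mul, map_inv, isoB_f'_T, h2]
        group
      · simp only [if_true] at h2 ⊢
        rw [map_mul, isoB_f'_T, h2]
        group)
    (by
      apply FreeGroup.ext_hom
      rintro ⟨k, b⟩
      have h1 : isoB_f g (FreeGroup.of (k, b)) = if b then isoB_T g k * FreeGroup.of (k, b)
          else FreeGroup.of (k, b) * (isoB_T g k)⁻¹ := by simp [isoB_f]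
      have h2 : isoB_f' g (FreeGroup.of (k, b)) = if b then (isoB_T g k)⁻¹ * FreeGroup.of (k, b)
          else FreeGroup.of (k, b) * isoB_T g k := by simp [isoB_f']
      rw [MonoidHom.comp_apply, h2, MonoidHom.id_apply]
      cases b
      · simp only [Bool.false_eq_true, if_false] at h1 ⊢
        rw [map_mul, isoB_f_T, h1]
        group
      · simp only [if_true] at h1 ⊢
        rw [map_mul, map_inv, isoB_f_T, h1]
        group)

theorem isoB_aut_rel (g : ℕ) : isoB_f g (surfRel g) =
    (List.ofFn fun l : Fin g => FreeGroup.of (l, false) * FreeGroup.of (l, true)).prod *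
      (List.ofFn fun l : Fin g =>
        (FreeGroup.of (l, false))⁻¹ * (FreeGroup.of (l, true))⁻¹).prod := by
  rw [← isoB_main g (fun l : Fin g => FreeGroup.of (l, false)) (fun l => FreeGroup.of (l, true))]
  unfold surfRel
  rw [map_list_prod, List.map_ofFn]
  congr 2
  funext k
  simp only [Function.comp_apply, map_mul, map_inv]
  have h1 : isoB_f g (FreeGroup.of (k, false)) = FreeGroup.of (k, false) * (isoB_T g k)⁻¹ := by
    simp [isoB_f]
  have h2 : isoB_f g (FreeGroup.of (k, true)) = isoB_T g k * FreeGroup.of (k, true) := by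
    simp [isoB_f]
  rw [h1, h2]
  rfl

theorem isoB_rel (g : ℕ) :
    FreeGroup.freeGroupCongr (isoB_idx g) (isoB_f g (surfRel g)) = oppRel g := by
  rw [isoB_aut_rel, oppRel, isoB_pairs' g, isoB_pairs' g (fun i => (FreeGroup.of i)⁻¹), map_mul,
    map_list_prod, map_list_prod, List.map_ofFn, List.map_ofFn]
  congr 3

theorem nonempty_surf_opp (g : ℕ) :
    Nonempty (SurfaceGroup g ≃* PresentedGroup ({oppRel g} : Set (FreeGroup (Fin (2 * g))))) := by
  let e : FreeGroup (Fin g × Bool) ≃* FreeGroup (Fin (2 * g)) :=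
    (isoB_aut g).trans (FreeGroup.freeGroupCongr (isoB_idx g))
  have he : e (surfRel g) = oppRel g := isoB_rel g
  refine ⟨QuotientGroup.congr (Subgroup.normalClosure ({surfRel g} : Set _))
    (Subgroup.normalClosure ({oppRel g} : Set _)) e ?_⟩
  rw [Subgroup.map_normalClosure _ _ e.surjective, Set.image_singleton]
  rw [show (e : FreeGroup (Fin g × Bool) →* FreeGroup (Fin (2 * g))) (surfRel g) = oppRel g
    from he]

end Pool.Agent.Lib.MP_66609f_al
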