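import Pool.Agent.Lib.MP_66609f_al.FGConj

namespace Pool.Agent.Lib.MP_66609f_al

theorem fgCancel_mk {α : Type*} (l1 l2 : List (α × Bool)) (d : α × Bool) :
    FreeGroup.mk (l1 ++ d :: dinv d :: l2) = FreeGroup.mk (l1 ++ l2) := by
  have h : l1 ++ d :: dinv d :: l2 = l1 ++ ([d] ++ ([dinv d] ++ l2)) := by simp
  rw [h, ← FreeGroup.mul_mk, ← FreeGroup.mul_mk, ← FreeGroup.mul_mk, mk_dinv,
    mul_inv_cancel_left, FreeGroup.mul_mk]

theorem fgCancel_fst {α : Type*} {d e : α × Bool} (h : e.1 = d.1) : e = d ∨ e = dinv d := by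
  obtain ⟨a, b⟩ := d
  obtain ⟨a', b'⟩ := e
  obtain rfl : a' = a := h
  cases b <;> cases b' <;> simp [dinv]

theorem fgCancel_mem {α : Type*} {l : List α} {a b : α} (h : CAdj l a b) : b ∈ l := by
  rcases h with ⟨l1, l2, rfl⟩ | ⟨-, h⟩
  · simp
  · exact List.mem_of_mem_head? h

theorem fgCancel_cadj {α : Type*} {l1 l2 : List α} {d d' a b : α} (h : CAdj (l1 ++ l2) a b) :
    CAdj (l1 ++ d :: d' :: l2) a b ∨
      (CAdj (l1 ++ d :: d' :: l2) a d ∧ CAdj (l1 ++ d :: d' :: l2) d' b) := by
  have hr : (d :: d' :: (l2 ++ l1)).IsRotated (l1 ++ d :: d' :: l2) :=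
    List.isRotated_append (l := d :: d' :: l2) (l' := l1)
  have h1 := cadj_of_isRotated (List.isRotated_append (l := l1) (l' := l2)) h
  generalize l2 ++ l1 = M at hr h1
  rcases h1 with ⟨m1, m2, rfl⟩ | ⟨h1, h2⟩
  · exact Or.inl (cadj_of_isRotated hr (Or.inl ⟨d :: d' :: m1, m2, rfl⟩))
  · cases M with
    | nil => simp at h2
    | cons c M =>
      obtain rfl : c = b := by simpa using h2
      refine Or.inr ⟨cadj_of_isRotated hr (Or.inr ⟨?_, rfl⟩),
        cadj_of_isRotated hr (Or.inl ⟨[d], M, rfl⟩)⟩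
      rw [List.getLast?_cons_cons, List.getLast?_cons_cons]
      exact h1

theorem fgCancel_next {α : Type*} {l1 l2 : List α} (d d' : α) (h : l1 ++ l2 ≠ []) :
    ∃ b ∈ l1 ++ l2, CAdj (l1 ++ d :: d' :: l2) d' b := by
  cases l2 with
  | cons b l2 => exact ⟨b, by simp, Or.inl ⟨l1 ++ [d], l2, by simp⟩⟩
  | nil =>
    cases l1 with
    | nil => simp at h
    | cons b l1 =>
      refine ⟨b, by simp, Or.inr ⟨?_, rfl⟩⟩
      have : b :: l1 ++ [d, d'] = (b :: l1 ++ [d]) ++ [d'] := by simp
      rw [this, List.getLast?_concat]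

namespace FSt

variable {X ι V : Type} [DecidableEq ι] [DecidableEq V] [Fintype X]

theorem step_cancel {S : FSt X ι V} {R : List (X × Bool)} {f0 : X → FreeGroup X}
    (h : S.Valid R f0) {l1 l2 : List (ι × Bool)} {d : ι × Bool}
    (hD : S.D = l1 ++ d :: dinv d :: l2) :
    ∃ S' : FSt X ι V, S'.Valid R f0 ∧ S'.meas R.length < S.meas R.length := by
  let S' : FSt X ι V := { S with E := S.E.erase d.1, D := l1 ++ l2 }
  have hperm : S.darts.Perm (d :: dinv d :: S'.darts) := by
    show (S.D ++ _).Perm (d :: dinv d :: ((l1 ++ l2) ++ _))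
    rw [hD]
    exact ((List.perm_middle.trans (List.Perm.cons _ List.perm_middle))).append_right _
  have hnd := hperm.nodup_iff.1 h.nodup
  rw [List.nodup_cons, List.nodup_cons, List.mem_cons, not_or] at hnd
  have hmem : ∀ e, e ∈ S'.darts ↔ e.1 ∈ S'.E := by
    intro e
    show _ ↔ e.1 ∈ S.E.erase d.1
    rw [Finset.mem_erase, ← h.mem, hperm.mem_iff, List.mem_cons, List.mem_cons]
    constructor
    · intro he
      refine ⟨fun h1 => ?_, Or.inr (Or.inr he)⟩
      rcases fgCancel_fst h1 with rfl | rfl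
      · exact hnd.1.2 he
      · exact hnd.2.1 he
    · rintro ⟨h1, rfl | rfl | h2⟩
      · exact absurd rfl h1
      · exact absurd rfl h1
      · exact h2
  have hdE : d.1 ∈ S.E := (h.mem d).1 (hperm.mem_iff.2 (by simp))
  have hE : S'.E.card + 1 = S.E.card := Finset.card_erase_add_one hdE
  have hmk : FreeGroup.mk S'.D = FreeGroup.mk S.D := by
    rw [hD]
    exact (fgCancel_mk l1 l2 d).symm
  have hcl := h.D_closed
  rw [hD] at hcl
  have hv : ∀ e : ι × Bool, e.1 ∈ S'.E → S.src e ∈ S'.verts := fun e he =>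
    Finset.mem_image.2 ⟨e, Finset.mem_product.2 ⟨he, Finset.mem_univ _⟩, rfl⟩
  have hsub : S.verts ⊆ insert (S.src d) (insert (S.src (dinv d)) S'.verts) := by
    intro v hv'
    obtain ⟨e, he, rfl⟩ := Finset.mem_image.1 hv'
    by_cases h1 : e.1 = d.1
    · rcases fgCancel_fst h1 with rfl | rfl
      · exact Finset.mem_insert_self _ _
      · exact Finset.mem_insert_of_mem (Finset.mem_insert_self _ _)
    · exact Finset.mem_insert_of_mem (Finset.mem_insert_of_mem
        (hv e (Finset.mem_erase.2 ⟨h1, (Finset.mem_product.1 he).1⟩)))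
  have hc := h.count (by rw [hD]; simp)
  refine ⟨S', ⟨hnd.2.2, hmem, h.face_lab, ?_, ?_, h.face_closed, ?_, ?_, ?_, h.sign⟩, ?_⟩
  · show FreeGroup.mk (S'.D.map S.dl) = 1
    rw [← S.labH_mk, hmk, S.labH_mk]
    exact h.D_lab
  · intro a b hab
    rcases fgCancel_cadj (d := d) (d' := dinv d) hab with h1 | ⟨h1, h2⟩
    · exact hcl a b h1
    · have e1 := hcl _ _ h1
      have e2 := hcl _ _ h2
      rw [dinv_dinv] at e2
      exact e1.trans e2
  · intro hne
    obtain ⟨b, hb, hb'⟩ := fgCancel_next d (dinv d) hne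
    have e2 := hcl _ _ hb'
    rw [dinv_dinv] at e2
    have h1 : S.src d ∈ S'.verts := by
      rw [e2]
      exact hv b ((hmem b).1 (List.mem_append_left _ hb))
    rw [Finset.insert_eq_of_mem (Finset.mem_insert_of_mem h1)] at hsub
    have h2 := (Finset.card_le_card hsub).trans (Finset.card_insert_le _ _)
    show S'.E.card + 1 ≤ S'.verts.card + S.faces.length + Fintype.card X
    omega
  · have h2 := (Finset.card_le_card hsub).trans (Finset.card_insert_le _ _)
    have h3 := Finset.card_insert_le (S.src (dinv d)) S'.verts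
    show S'.E.card ≤ S'.verts.card + S.faces.length + Fintype.card X
    omega
  · obtain ⟨fh, h1, h2⟩ := h.alg
    refine ⟨fh, h1, ?_⟩
    rw [hmk]
    exact h2
  · show (l1 ++ l2).length + R.length * S.faces.length < S.D.length + R.length * S.faces.length
    rw [hD]
    simp only [List.length_append, List.length_cons]
    omega

theorem fgCancel_good {R : List (X × Bool)} (hR : GoodQ R) (ε : Bool) :
    GoodQ (if ε then R else FreeGroup.invRev R) := by
  cases ε
  · exact hR.invRev
  · exact hR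

theorem fgCancel_label {S : FSt X ι V} {R : List (X × Bool)} {f0 : X → FreeGroup X}
    (hR : GoodQ R) (h : S.Valid R f0) (hD : S.D = []) {v : V} (hv : v ∈ S.verts)
    (x : X × Bool) : ∃ r ∈ S.faces, ∃ e ∈ r.2, S.src e = v ∧ S.dl e = x := by
  have hface : ∀ e : ι × Bool, e.1 ∈ S.E → ∃ r ∈ S.faces, e ∈ r.2 := by
    intro e he
    have h1 := (h.mem e).2 he
    rw [darts, hD, List.nil_append, List.mem_flatten] at h1
    obtain ⟨l, hl, he'⟩ := h1
    obtain ⟨r, hr, rfl⟩ := List.mem_map.1 hl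
    exact ⟨r, hr, he'⟩
  have hE : ∀ r ∈ S.faces, ∀ e ∈ r.2, e.1 ∈ S.E := fun r hr e he =>
    (h.mem e).1 (List.mem_append_right _
      (List.mem_flatten.2 ⟨r.2, List.mem_map_of_mem hr, he⟩))
  obtain ⟨e0, he0, rfl⟩ := Finset.mem_image.1 hv
  obtain ⟨r0, hr0, he0'⟩ := hface e0 (Finset.mem_product.1 he0).1
  have hQ := fgCancel_good hR r0.1
  have h1 := hQ.2.2 {a | ∃ r ∈ S.faces, r.1 = r0.1 ∧ ∃ e ∈ r.2, S.src e = S.src e0 ∧ S.dl e = a}
    ⟨_, r0, hr0, rfl, e0, he0', rfl, rfl⟩ (by
      rintro _ b ⟨r, hr, hs, e, he, hsrc, rfl⟩ hb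
      obtain ⟨r', hr', he'⟩ := hface (dinv e) (hE r hr e he)
      have hs' : r'.1 = r0.1 := (h.sign r hr r' hr' e he he').symm.trans hs
      obtain ⟨e', hee'⟩ := exists_cadj_right he'
      have e1 := h.face_closed r' hr' _ _ hee'
      rw [dinv_dinv] at e1
      have e2 := cadj_of_isRotated (h.face_lab r' hr') (cadj_map S.dl hee')
      rw [hs', S.dl_dinv] at e2
      exact ⟨r', hr', hs', e', fgCancel_mem hee', e1.symm.trans hsrc,
        cadj_unique_right hQ.1 e2 hb⟩)
  have h2 : x ∈ {a | ∃ r ∈ S.faces, r.1 = r0.1 ∧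
      ∃ e ∈ r.2, S.src e = S.src e0 ∧ S.dl e = a} := h1 ▸ Set.mem_univ x
  obtain ⟨r, hr, -, e, he, h3, h4⟩ := h2
  exact ⟨r, hr, e, he, h3, h4⟩

/-- The final count. -/
theorem end_short [DecidableEq X] {S : FSt X ι V} {R : List (X × Bool)} {f0 : X → FreeGroup X}
    (hR : GoodQ R) (h5 : 5 ≤ Fintype.card X) (h : S.Valid R f0) (hD : S.D = []) :
    ∃ f : X → FreeGroup X, ShortQ R f ∧
      ∀ x, (f0 x)⁻¹ * f x ∈ Subgroup.normalClosure {FreeGroup.mk R} := by
  classical
  have hlen : ∀ r ∈ S.faces, r.2.length = R.length := by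
    intro r hr
    have h1 := (h.face_lab r hr).perm.length_eq
    rw [List.length_map, (fgCancel_good hR r.1).length_eq] at h1
    rw [h1, hR.length_eq]
  have hE : 2 * S.E.card = S.faces.length * R.length := by
    have h1 : S.darts.toFinset = S.E ×ˢ (Finset.univ : Finset Bool) := by
      ext e
      rw [List.mem_toFinset, h.mem, Finset.mem_product]
      simp
    have h2 := List.toFinset_card_of_nodup h.nodup
    rw [h1, Finset.card_product, Finset.card_univ, Fintype.card_bool, darts, hD, List.nil_append,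
      List.length_flatten, List.map_map] at h2
    have h3 : S.faces.map (List.length ∘ Prod.snd) = S.faces.map fun _ => R.length :=
      List.map_congr_left hlen
    rw [h3, List.map_const', List.sum_replicate, smul_eq_mul] at h2
    omega
  obtain ⟨x0⟩ : Nonempty X := Fintype.card_pos_iff.1 (by omega)
  have hV : S.verts.card ≤ S.faces.length := by
    let g : Bool × List (ι × Bool) → Option V := fun r =>
      if hr : ∃ e ∈ r.2, S.dl e = (x0, true) then some (S.src hr.choose) else none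
    have h1 : S.verts.image some ⊆ (S.faces.map g).toFinset := by
      intro o ho
      obtain ⟨v, hv, rfl⟩ := Finset.mem_image.1 ho
      obtain ⟨r, hr, e, he, h3, h4⟩ := fgCancel_label hR h hD hv (x0, true)
      refine List.mem_toFinset.2 (List.mem_map.2 ⟨r, hr, ?_⟩)
      have hex : ∃ e ∈ r.2, S.dl e = (x0, true) := ⟨e, he, h4⟩
      have hnd : (r.2.map S.dl).Nodup :=
        (h.face_lab r hr).perm.nodup_iff.2 (fgCancel_good hR r.1).1
      have h6 : hex.choose = e := List.inj_on_of_nodup_map hnd hex.choose_spec.1 he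
        (hex.choose_spec.2.trans h4.symm)
      simp only [g, dif_pos hex, h6, h3]
    have h2 := (Finset.card_le_card h1).trans (List.toFinset_card_le _)
    rwa [Finset.card_image_of_injective _ (Option.some_injective V), List.length_map] at h2
  have hm : S.faces.length ≤ 1 := by
    have h1 := h.count'
    rw [hR.length_eq] at hE
    by_contra hc
    have h2 : 2 ≤ S.faces.length := by omega
    nlinarith
  obtain ⟨fh, h1, h2⟩ := h.alg
  refine ⟨fun x => S.labH (fh x), ?_, h1⟩
  have e : FreeGroup.lift (fun x => S.labH (fh x)) = S.labH.comp (FreeGroup.lift fh) := by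
    ext x
    simp
  rw [hD] at h2
  obtain ⟨l', hl, hx⟩ := (ConjProd.drop_one h2).map S.labH
  unfold ShortQ
  rw [e, MonoidHom.comp_apply, ← hx]
  have hl2 := hl.length_eq
  rw [List.length_map, List.length_map, List.length_map] at hl2
  match l', hl, hl2 with
  | [], _, _ => exact ⟨1, 1, by simp, by simp⟩
  | [p], hl, _ =>
    refine ⟨p.1, p.2, by simp, ?_⟩
    have h3 := hl.subset (List.mem_singleton_self p.2)
    obtain ⟨y, hy, h4⟩ := List.mem_map.1 h3
    obtain ⟨r, hr, rfl⟩ := List.mem_map.1 hy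
    rw [← h4, S.labH_mk]
    refine FreeGroup.norm_mk_le.trans ?_
    rw [List.length_map, hlen r hr]
  | _ :: _ :: _, _, hl2 =>
    simp only [List.length_cons] at hl2
    omega

end FSt

end Pool.Agent.Lib.MP_66609f_al
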