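import Pool.Agent.Lib.MP_66609f_al.FGQuad

namespace Pool.Agent.Lib.MP_66609f_al

theorem ConjProd.map {G G' : Type*} [Group G] [Group G'] (h : G →* G') {l : List G} {x : G}
    (hx : ConjProd l x) : ConjProd (l.map h) (h x) := by
  obtain ⟨l', h1, h2⟩ := hx
  refine ⟨l'.map fun p => (h p.1, h p.2), ?_, ?_⟩
  · have h3 := h1.map h
    rw [List.map_map] at h3 ⊢
    exact h3
  · rw [← h2, map_list_prod, List.map_map, List.map_map]
    congr 1
    refine List.map_congr_left fun p _ => ?_
    simp

theorem ConjProd.perm {G : Type*} [Group G] {l l' : List G} {x : G} (hx : ConjProd l x)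
    (h : l.Perm l') : ConjProd l' x := by
  obtain ⟨l0, h1, h2⟩ := hx
  exact ⟨l0, h1.trans h, h2⟩

theorem FGConj_split {G : Type*} [Group G] {l : List G} {a x : G} (hx : ConjProd (a :: l) x) :
    ∃ (s t : List (G × G)) (u : G), ((s ++ t).map Prod.snd).Perm l ∧
      (s.map fun p => p.1 * p.2 * p.1⁻¹).prod *
        (u * a * u⁻¹ * (t.map fun p => p.1 * p.2 * p.1⁻¹).prod) = x := by
  obtain ⟨l0, h1, h2⟩ := hx
  obtain ⟨⟨u, b⟩, hp, rfl⟩ := List.mem_map.1 (h1.symm.subset List.mem_cons_self)
  obtain ⟨s, t, rfl⟩ := List.append_of_mem hp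
  refine ⟨s, t, u, ?_, ?_⟩
  · rw [List.map_append, List.map_cons] at h1
    rw [List.map_append]
    exact (List.perm_middle.symm.trans h1).cons_inv
  · rw [← h2, List.map_append, List.map_cons, List.prod_append, List.prod_cons]

theorem ConjProd.conj_head {G : Type*} [Group G] {l : List G} {a a' x : G}
    (hx : ConjProd (a :: l) x) (h : IsConj a a') : ConjProd (a' :: l) x := by
  obtain ⟨s, t, u, h1, h2⟩ := FGConj_split hx
  obtain ⟨c, rfl⟩ := isConj_iff.1 h
  refine ⟨s ++ (u * c⁻¹, c * a * c⁻¹) :: t, ?_, ?_⟩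
  · rw [List.map_append] at h1
    rw [List.map_append, List.map_cons]
    exact List.perm_middle.trans (h1.cons _)
  · rw [← h2, List.map_append, List.map_cons, List.prod_append, List.prod_cons]
    congr 2
    group

theorem ConjProd.drop_one {G : Type*} [Group G] {l : List G} {x : G}
    (hx : ConjProd (1 :: l) x) : ConjProd l x := by
  obtain ⟨s, t, u, h1, h2⟩ := FGConj_split hx
  refine ⟨s ++ t, h1, ?_⟩
  rw [← h2, List.map_append, List.prod_append, mul_one, mul_inv_cancel, one_mul]

namespace FSt

variable {X ι V : Type} [DecidableEq V] [Fintype X]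

theorem labH_mk (S : FSt X ι V) (l : List (ι × Bool)) :
    S.labH (FreeGroup.mk l) = FreeGroup.mk (l.map S.dl) := by
  induction l with
  | nil => exact map_one _
  | cons d l ih =>
    have e1 : FreeGroup.mk (d :: l) = FreeGroup.mk [d] * FreeGroup.mk l := rfl
    have e2 : FreeGroup.mk ((d :: l).map S.dl) =
        FreeGroup.mk [S.dl d] * FreeGroup.mk (l.map S.dl) := rfl
    rw [e1, e2, map_mul, ih]
    congr 1
    obtain ⟨e, b⟩ := d
    cases b
    · have e3 : S.dl (e, false) = dinv (S.lab e) := rfl
      rw [e3, mk_dinv]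
      simp [labH]
    · have e3 : S.dl (e, true) = S.lab e := rfl
      rw [e3]
      simp [labH]

theorem dl_dinv (S : FSt X ι V) (d : ι × Bool) : S.dl (dinv d) = dinv (S.dl d) := by
  obtain ⟨e, b⟩ := d
  cases b
  · exact (dinv_dinv (S.lab e)).symm
  · rfl

/-- Validity does not depend on the order of the faces. -/
theorem Valid.perm {S : FSt X ι V} {R : List (X × Bool)} {f0 : X → FreeGroup X}
    (h : S.Valid R f0) (F : List (Bool × List (ι × Bool))) (hF : S.faces.Perm F) :
    FSt.Valid { S with faces := F } R f0 := by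
  have hd : S.darts.Perm (FSt.darts { S with faces := F }) :=
    List.Perm.append_left _ (hF.map Prod.snd).flatten
  have hm : ∀ r, r ∈ F → r ∈ S.faces := fun r hr => hF.symm.subset hr
  obtain ⟨fh, a1, a2⟩ := h.alg
  exact
    { nodup := hd.nodup_iff.1 h.nodup
      mem := fun d => hd.mem_iff.symm.trans (h.mem d)
      face_lab := fun r hr => h.face_lab r (hm r hr)
      D_lab := h.D_lab
      D_closed := h.D_closed
      face_closed := fun r hr => h.face_closed r (hm r hr)
      count := fun hD => hF.length_eq ▸ h.count hD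
      count' := hF.length_eq ▸ h.count'
      alg := ⟨fh, a1, a2.perm ((hF.map _).cons _)⟩
      sign := fun r hr r' hr' => h.sign r (hm r hr) r' (hm r' hr') }

/-- Validity does not depend on the starting point of a face. -/
theorem Valid.rotate_head {S : FSt X ι V} {R : List (X × Bool)} {f0 : X → FreeGroup X}
    (h : S.Valid R f0) {ε : Bool} {r r' : List (ι × Bool)} {F : List (Bool × List (ι × Bool))}
    (hF : S.faces = (ε, r) :: F) (hr : r.IsRotated r') :
    FSt.Valid { S with faces := (ε, r') :: F } R f0 := by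
  have hd : S.darts.Perm (FSt.darts { S with faces := (ε, r') :: F }) := by
    unfold FSt.darts
    rw [hF]
    exact List.Perm.append_left _ (List.Perm.append_right _ hr.perm)
  have h0 : (ε, r) ∈ S.faces := hF ▸ List.mem_cons_self
  have hm : ∀ x, x ∈ (ε, r') :: F → ∃ y ∈ S.faces, y.1 = x.1 ∧ y.2.IsRotated x.2 := by
    intro x hx
    rcases List.mem_cons.1 hx with rfl | hx
    · exact ⟨_, h0, rfl, hr⟩
    · exact ⟨x, hF ▸ List.mem_cons_of_mem _ hx, rfl, List.IsRotated.refl _⟩
  have hl : S.faces.length = ((ε, r') :: F).length := by rw [hF]; rfl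
  obtain ⟨fh, a1, a2⟩ := h.alg
  rw [hF] at a2
  exact
    { nodup := hd.nodup_iff.1 h.nodup
      mem := fun d => hd.mem_iff.symm.trans (h.mem d)
      face_lab := fun x hx => by
        obtain ⟨y, hy, e1, e2⟩ := hm x hx
        rw [← e1]
        exact (e2.map S.dl).symm.trans (h.face_lab y hy)
      D_lab := h.D_lab
      D_closed := h.D_closed
      face_closed := fun x hx a b hab => by
        obtain ⟨y, hy, -, e2⟩ := hm x hx
        exact h.face_closed y hy a b (cadj_of_isRotated e2.symm hab)
      count := fun hD => hl ▸ h.count hD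
      count' := hl ▸ h.count'
      alg := ⟨fh, a1, ((a2.perm (List.Perm.swap _ _ _)).conj_head
        (isConj_mk_of_isRotated hr)).perm (List.Perm.swap _ _ _)⟩
      sign := fun x hx x' hx' d hd1 hd2 => by
        obtain ⟨y, hy, e1, e2⟩ := hm x hx
        obtain ⟨y', hy', e1', e2'⟩ := hm x' hx'
        rw [← e1, ← e1']
        exact h.sign y hy y' hy' d (e2.mem_iff.2 hd1) (e2'.mem_iff.2 hd2) }

/-- A nonempty word with trivial value has two consecutive inverse letters. -/
theorem exists_cancel (S : FSt X ι V) (l : List (ι × Bool)) (hl : l ≠ [])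
    (h : FreeGroup.mk (l.map S.dl) = 1) :
    ∃ l1 l2 d d', l = l1 ++ d :: d' :: l2 ∧ S.dl d' = dinv (S.dl d) := by
  classical
  by_contra hc
  have h1 : FreeGroup.IsReduced (l.map S.dl) := by
    rw [FreeGroup.IsReduced, List.isChain_map, List.isChain_iff_forall_rel_of_append_cons_cons]
    intro a b l1 l2 e h2
    by_contra h3
    refine hc ⟨l1, l2, a, b, e, Prod.ext h2.symm ?_⟩
    show (S.dl b).2 = !(S.dl a).2
    revert h3
    cases (S.dl a).2 <;> cases (S.dl b).2 <;> simp
  have h2 := congrArg FreeGroup.toWord h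
  rw [FreeGroup.toWord_mk, h1.reduce_eq, FreeGroup.toWord_one, List.map_eq_nil_iff] at h2
  exact hl h2

end FSt

end Pool.Agent.Lib.MP_66609f_al
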