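import Pool.Agent.Lib.MP_66609f_al.FGConj

namespace Pool.Agent.Lib.MP_66609f_al

theorem fgFold_cadj_of_map {α β : Type*} (f : α → β) {l : List α} {a' b' : β}
    (h : CAdj (l.map f) a' b') : ∃ a b, CAdj l a b ∧ f a = a' ∧ f b = b' := by
  rcases h with ⟨l1, l2, h⟩ | ⟨h1, h2⟩
  · obtain ⟨m1, m2, rfl, -, h2⟩ := List.map_eq_append_iff.1 h
    obtain ⟨a, m3, rfl, ha, h3⟩ := List.map_eq_cons_iff.1 h2
    obtain ⟨b, m4, rfl, hb, -⟩ := List.map_eq_cons_iff.1 h3
    exact ⟨a, b, Or.inl ⟨m1, m4, rfl⟩, ha, hb⟩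
  · rw [List.getLast?_map, Option.map_eq_some_iff] at h1
    rw [List.head?_map, Option.map_eq_some_iff] at h2
    obtain ⟨a, ha, ha'⟩ := h1
    obtain ⟨b, hb, hb'⟩ := h2
    exact ⟨a, b, Or.inr ⟨ha, hb⟩, ha', hb'⟩

theorem fgFold_cadj_cut {α : Type*} {l1 l2 : List α} (d d' : α) {a b : α}
    (h : CAdj (l1 ++ l2) a b) : CAdj (l1 ++ d :: d' :: l2) a b ∨
      (CAdj (l1 ++ d :: d' :: l2) a d ∧ CAdj (l1 ++ d :: d' :: l2) d' b) := by
  have r1 : (l1 ++ l2).IsRotated (l2 ++ l1) := List.isRotated_append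
  have r2 : (d :: d' :: (l2 ++ l1)).IsRotated (l1 ++ d :: d' :: l2) :=
    List.isRotated_append (l := d :: d' :: l2) (l' := l1)
  rcases cadj_of_isRotated r1 h with ⟨m1, m2, e⟩ | ⟨h1, h2⟩
  · exact Or.inl (cadj_of_isRotated r2 (Or.inl ⟨d :: d' :: m1, m2, by rw [e]; rfl⟩))
  · obtain ⟨m, hm⟩ := List.head?_eq_some_iff.1 h2
    refine Or.inr ⟨cadj_of_isRotated r2 (Or.inr ⟨?_, rfl⟩),
      cadj_of_isRotated r2 (Or.inl ⟨[d], m, by rw [hm]; rfl⟩)⟩
    rw [hm] at h1 ⊢
    rw [List.getLast?_cons_cons, List.getLast?_cons_cons]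
    exact h1

theorem fgFold_dinv_ne {α : Type*} (d : α × Bool) : dinv d ≠ d := by
  intro h
  have := congrArg Prod.snd h
  simp [dinv] at this

theorem fgFold_eq_dinv {α : Type*} {e d : α × Bool} (h : e.1 = d.1) (hne : e ≠ d) :
    e = dinv d := by
  obtain ⟨i, b⟩ := e
  obtain ⟨j, c⟩ := d
  simp only at h
  subst h
  cases b <;> cases c <;> simp_all [dinv]

theorem fgFold_mk_cancel {α : Type*} (l1 l2 : List (α × Bool)) (x : α × Bool) :
    FreeGroup.mk (l1 ++ x :: dinv x :: l2) = FreeGroup.mk (l1 ++ l2) := by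
  have e : l1 ++ x :: dinv x :: l2 = l1 ++ ([x] ++ ([dinv x] ++ l2)) := rfl
  rw [e, ← FreeGroup.mul_mk, ← FreeGroup.mul_mk, ← FreeGroup.mul_mk, ← FreeGroup.mul_mk, mk_dinv,
    mul_inv_cancel_left]

/-- The substitution of darts. -/
def fgFold_sub {ι : Type} [DecidableEq ι] (d d' e : ι × Bool) : ι × Bool :=
  if e.1 = d'.1 then (if e = d' then dinv d else d) else e

theorem fgFold_sub_self {ι : Type} [DecidableEq ι] (d d' : ι × Bool) :
    fgFold_sub d d' d' = dinv d := by
  simp [fgFold_sub]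

theorem fgFold_sub_inv {ι : Type} [DecidableEq ι] (d d' : ι × Bool) :
    fgFold_sub d d' (dinv d') = d := by
  unfold fgFold_sub
  rw [if_pos (show (dinv d').1 = d'.1 from rfl), if_neg (fgFold_dinv_ne d')]

theorem fgFold_sub_of_ne {ι : Type} [DecidableEq ι] (d : ι × Bool) {d' e : ι × Bool}
    (h : e.1 ≠ d'.1) : fgFold_sub d d' e = e := if_neg h

theorem fgFold_cases {ι : Type} (d' e : ι × Bool) : e = d' ∨ e = dinv d' ∨ e.1 ≠ d'.1 := by
  by_cases h : e.1 = d'.1
  · by_cases h' : e = d'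
    · exact Or.inl h'
    · exact Or.inr (Or.inl (fgFold_eq_dinv h h'))
  · exact Or.inr (Or.inr h)

theorem fgFold_sub_dinv {ι : Type} [DecidableEq ι] (d d' e : ι × Bool) :
    fgFold_sub d d' (dinv e) = dinv (fgFold_sub d d' e) := by
  rcases fgFold_cases d' e with rfl | rfl | h
  · rw [fgFold_sub_self, fgFold_sub_inv, dinv_dinv]
  · rw [dinv_dinv, fgFold_sub_self, fgFold_sub_inv]
  · rw [fgFold_sub_of_ne d h, fgFold_sub_of_ne d (e := dinv e) h]

theorem fgFold_exists_hom {ι : Type} (s : ι × Bool → ι × Bool)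
    (hs : ∀ e, s (dinv e) = dinv (s e)) :
    ∃ H : FreeGroup ι →* FreeGroup ι, ∀ l, H (FreeGroup.mk l) = FreeGroup.mk (l.map s) := by
  refine ⟨FreeGroup.lift fun i => FreeGroup.mk [s (i, true)], fun l => ?_⟩
  have h1 : ∀ i : ι, FreeGroup.lift (fun i => FreeGroup.mk [s (i, true)])
      (FreeGroup.mk [(i, true)]) = FreeGroup.mk [s (i, true)] := fun i => FreeGroup.lift_apply_of
  induction l with
  | nil => exact map_one _
  | cons a l ih =>
    have e1 : a :: l = [a] ++ l := rfl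
    have e2 : ([a] ++ l).map s = [s a] ++ l.map s := rfl
    rw [e1, e2, ← FreeGroup.mul_mk, ← FreeGroup.mul_mk, map_mul, ih]
    refine congrArg (· * FreeGroup.mk (l.map s)) ?_
    obtain ⟨i, b⟩ := a
    cases b
    · have e3 : (i, false) = dinv (i, true) := rfl
      rw [e3, hs, mk_dinv, mk_dinv, map_inv, h1]
    · exact h1 i

namespace FSt

variable {X ι V : Type} [DecidableEq ι] [DecidableEq V] [Fintype X]

theorem step_fold {S : FSt X ι V} {R : List (X × Bool)} {f0 : X → FreeGroup X}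
    (h : S.Valid R f0) {l1 l2 : List (ι × Bool)} {d d' : ι × Bool}
    (hD : S.D = l1 ++ d :: d' :: l2) (hne : d.1 ≠ d'.1) (hl : S.dl d' = dinv (S.dl d))
    (hs : ∀ r ∈ S.faces, ∀ r' ∈ S.faces, dinv d ∈ r.2 → dinv d' ∈ r'.2 → r.1 = r'.1) :
    ∃ S' : FSt X ι V, S'.Valid R f0 ∧ S'.meas R.length < S.meas R.length := by
  obtain ⟨ψ, hψ⟩ : ∃ ψ : V → V, ψ = fun v => if v = S.src (dinv d') then S.src d else v :=
    ⟨_, rfl⟩
  have ψ1 : ψ (S.src (dinv d')) = S.src d := by rw [hψ]; exact if_pos rfl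
  have ψ2 : ψ (S.src d) = S.src d := by rw [hψ]; exact ite_self _
  have ψ3 : ∀ v, v ≠ S.src (dinv d') → ψ v = v := fun v hv => by rw [hψ]; exact if_neg hv
  have hdd : S.src (dinv d) = S.src d' := h.D_closed d d' (Or.inl ⟨l1, l2, hD⟩)
  have hsrc : ∀ e, ψ (S.src (fgFold_sub d d' e)) = ψ (S.src e) := by
    intro e
    rcases fgFold_cases d' e with rfl | rfl | he
    · rw [fgFold_sub_self, hdd]
    · rw [fgFold_sub_inv, ψ1, ψ2]
    · rw [fgFold_sub_of_ne d he]
  have hdl : ∀ e, S.dl (fgFold_sub d d' e) = S.dl e := by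
    intro e
    rcases fgFold_cases d' e with rfl | rfl | he
    · rw [fgFold_sub_self, dl_dinv, hl]
    · rw [fgFold_sub_inv, dl_dinv, hl, dinv_dinv]
    · rw [fgFold_sub_of_ne d he]
  have hdlm : ∀ l : List (ι × Bool), (l.map (fgFold_sub d d')).map S.dl = l.map S.dl := by
    intro l
    rw [List.map_map]
    exact List.map_congr_left fun e _ => hdl e
  have hperm : S.darts.Perm (d :: d' :: (l1 ++ l2 ++ (S.faces.map Prod.snd).flatten)) := by
    unfold darts
    rw [hD]
    have p1 : (l1 ++ d :: d' :: l2).Perm (d :: d' :: (l1 ++ l2)) :=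
      List.perm_middle.trans (List.perm_middle.cons d)
    exact p1.append_right _
  have hnd := hperm.nodup_iff.1 h.nodup
  rw [List.nodup_cons, List.nodup_cons, List.mem_cons, not_or] at hnd
  obtain ⟨⟨-, hd1⟩, hd2, hnd⟩ := hnd
  have hmem : ∀ e : ι × Bool, e.1 ∈ S.E ↔
      e = d ∨ e = d' ∨ e ∈ l1 ++ l2 ++ (S.faces.map Prod.snd).flatten := by
    intro e
    rw [← h.mem, hperm.mem_iff, List.mem_cons, List.mem_cons]
  have hdE : d.1 ∈ S.E := (hmem d).2 (Or.inl rfl)
  have hdE' : d'.1 ∈ S.E := (hmem d').2 (Or.inr (Or.inl rfl))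
  have hsubE : ∀ e : ι × Bool, e.1 ∈ S.E → (fgFold_sub d d' e).1 ∈ S.E.erase d'.1 := by
    intro e he
    rcases fgFold_cases d' e with rfl | rfl | he'
    · rw [fgFold_sub_self]
      exact Finset.mem_erase.2 ⟨hne, hdE⟩
    · rw [fgFold_sub_inv]
      exact Finset.mem_erase.2 ⟨hne, hdE⟩
    · rw [fgFold_sub_of_ne d he']
      exact Finset.mem_erase.2 ⟨he', he⟩
  have hface : ∀ r ∈ S.faces, ∀ e ∈ r.2, e ≠ d' := by
    rintro r hr e he rfl
    exact hd2 (List.mem_append_right _
      (List.mem_flatten.2 ⟨r.2, List.mem_map.2 ⟨r, hr, rfl⟩, he⟩))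
  obtain ⟨S', hS'⟩ : ∃ S' : FSt X ι V, S' = ⟨S.E.erase d'.1, S.lab, fun e => ψ (S.src e),
      (l1 ++ l2).map (fgFold_sub d d'),
      S.faces.map fun r => (r.1, r.2.map (fgFold_sub d d'))⟩ := ⟨_, rfl⟩
  have eE : S'.E = S.E.erase d'.1 := by rw [hS']
  have eD : S'.D = (l1 ++ l2).map (fgFold_sub d d') := by rw [hS']
  have eF : S'.faces = S.faces.map fun r => (r.1, r.2.map (fgFold_sub d d')) := by rw [hS']
  have esrc : ∀ e, S'.src e = ψ (S.src e) := fun e => by rw [hS']
  have edl : S'.dl = S.dl := by rw [hS']; rfl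
  have elb : S'.labH = S.labH := by rw [hS']; rfl
  have edarts : S'.darts = (l1 ++ l2 ++ (S.faces.map Prod.snd).flatten).map (fgFold_sub d d') := by
    unfold darts
    rw [eD, eF, List.map_append (l₂ := (S.faces.map Prod.snd).flatten), List.map_flatten,
      List.map_map, List.map_map]
    rfl
  have hclosed : ∀ l : List (ι × Bool), (∀ a b, CAdj l a b → ψ (S.src (dinv a)) = ψ (S.src b)) →
      S'.ClosedPath (l.map (fgFold_sub d d')) := by
    intro l hl a' b' hab
    obtain ⟨a, b, h1, rfl, rfl⟩ := fgFold_cadj_of_map _ hab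
    rw [esrc, esrc, ← fgFold_sub_dinv, hsrc, hsrc]
    exact hl a b h1
  have hcount : S'.E.card + 1 ≤ S'.verts.card + S'.faces.length + Fintype.card X := by
    have c1 := h.count (by rw [hD]; simp)
    have c2 : S'.E.card + 1 = S.E.card := by
      rw [eE]
      exact Finset.card_erase_add_one hdE'
    have c3 : S'.faces.length = S.faces.length := by rw [eF, List.length_map]
    have c4 : S.verts.erase (S.src (dinv d')) ⊆ S'.verts := by
      intro v hv
      obtain ⟨hv1, hv2⟩ := Finset.mem_erase.1 hv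
      obtain ⟨e, he, rfl⟩ := Finset.mem_image.1 hv2
      refine Finset.mem_image.2 ⟨fgFold_sub d d' e, Finset.mem_product.2
        ⟨?_, Finset.mem_univ _⟩, ?_⟩
      · rw [eE]
        exact hsubE e (Finset.mem_product.1 he).1
      · rw [esrc, hsrc, ψ3 _ hv1]
    have c5 := Finset.card_le_card c4
    have c6 := Finset.pred_card_le_card_erase (s := S.verts) (a := S.src (dinv d'))
    omega
  refine ⟨S', ⟨?_, ?_, ?_, ?_, ?_, ?_, fun _ => hcount, Nat.le_of_succ_le hcount, ?_, ?_⟩, ?_⟩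
  · rw [edarts]
    refine hnd.map_on fun e he e' he' hee => ?_
    rcases fgFold_cases d' e with rfl | rfl | h1
    · exact absurd he hd2
    · rcases fgFold_cases d' e' with rfl | rfl | h2
      · exact absurd he' hd2
      · rfl
      · rw [fgFold_sub_inv, fgFold_sub_of_ne d h2] at hee
        exact absurd (hee ▸ he') hd1
    · rcases fgFold_cases d' e' with rfl | rfl | h2
      · exact absurd he' hd2
      · rw [fgFold_sub_inv, fgFold_sub_of_ne d h1] at hee
        exact absurd (hee ▸ he) hd1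
      · rwa [fgFold_sub_of_ne d h1, fgFold_sub_of_ne d h2] at hee
  · intro x
    rw [edarts, eE, List.mem_map]
    constructor
    · rintro ⟨e, he, rfl⟩
      exact hsubE e ((hmem e).2 (Or.inr (Or.inr he)))
    · intro hx
      obtain ⟨hx1, hx2⟩ := Finset.mem_erase.1 hx
      rcases (hmem x).1 hx2 with rfl | rfl | hx3
      · refine ⟨dinv d', ?_, fgFold_sub_inv _ _⟩
        rcases (hmem (dinv d')).1 hdE' with e | e | e
        · exact absurd (congrArg Prod.fst e).symm hne
        · exact absurd e (fgFold_dinv_ne d')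
        · exact e
      · exact absurd rfl hx1
      · exact ⟨x, hx3, fgFold_sub_of_ne d hx1⟩
  · intro r hr
    rw [eF] at hr
    obtain ⟨r0, hr0, rfl⟩ := List.mem_map.1 hr
    rw [edl, hdlm]
    exact h.face_lab r0 hr0
  · have := h.D_lab
    rw [hD, List.map_append, List.map_cons, List.map_cons, hl, fgFold_mk_cancel] at this
    rw [eD, edl, hdlm, List.map_append]
    exact this
  · rw [eD]
    refine hclosed _ fun a b hab => ?_
    rcases fgFold_cadj_cut d d' hab with h1 | ⟨h1, h2⟩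
    · rw [h.D_closed a b (hD ▸ h1)]
    · rw [h.D_closed a d (hD ▸ h1), ← h.D_closed d' b (hD ▸ h2), ψ1, ψ2]
  · intro r hr
    rw [eF] at hr
    obtain ⟨r0, hr0, rfl⟩ := List.mem_map.1 hr
    exact hclosed _ fun a b hab => by rw [h.face_closed r0 hr0 a b hab]
  · obtain ⟨fh, hfh1, hfh2⟩ := h.alg
    obtain ⟨H, hH⟩ := fgFold_exists_hom _ (fgFold_sub_dinv d d')
    have hlab : ∀ w, S.labH (H w) = S.labH w := by
      intro w
      obtain ⟨l, rfl⟩ : ∃ l, FreeGroup.mk l = w := Quot.exists_rep w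
      rw [hH, labH_mk, labH_mk, hdlm]
    refine ⟨fun x => H (fh x), fun x => ?_, ?_⟩
    · rw [elb, hlab]
      exact hfh1 x
    · have e1 : FreeGroup.lift (fun x => H (fh x)) = H.comp (FreeGroup.lift fh) :=
        FreeGroup.ext_hom _ _ fun x => by simp
      have e2 : H (FreeGroup.mk S.D) = FreeGroup.mk S'.D := by
        rw [hH, hD, eD, List.map_append, List.map_cons, List.map_cons, fgFold_sub_self,
          fgFold_sub_of_ne d hne, fgFold_mk_cancel, List.map_append]
      have e3 : (S.faces.map fun r => FreeGroup.mk r.2).map H =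
          S'.faces.map fun r => FreeGroup.mk r.2 := by
        rw [eF, List.map_map, List.map_map]
        exact List.map_congr_left fun r _ => hH r.2
      have := hfh2.map H
      rw [List.map_cons, e2, e3] at this
      rw [e1]
      exact this
  · intro r hr r' hr' x hx hx'
    rw [eF] at hr hr'
    obtain ⟨r0, hr0, rfl⟩ := List.mem_map.1 hr
    obtain ⟨r1, hr1, rfl⟩ := List.mem_map.1 hr'
    obtain ⟨e, he, rfl⟩ := List.mem_map.1 hx
    obtain ⟨e', he', hee⟩ := List.mem_map.1 hx'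
    change r0.1 = r1.1
    rcases fgFold_cases d' e with rfl | rfl | h1
    · exact absurd rfl (hface r0 hr0 _ he)
    · rcases fgFold_cases d' e' with rfl | rfl | h2
      · exact absurd rfl (hface r1 hr1 _ he')
      · exact absurd hee.symm (fgFold_dinv_ne _)
      · rw [fgFold_sub_inv, fgFold_sub_of_ne d h2] at hee
        exact (hs r1 hr1 r0 hr0 (hee ▸ he') he).symm
    · rcases fgFold_cases d' e' with rfl | rfl | h2
      · exact absurd rfl (hface r1 hr1 _ he')
      · rw [fgFold_sub_inv, fgFold_sub_of_ne d h1] at hee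
        refine hs r0 hr0 r1 hr1 ?_ he'
        rw [hee, dinv_dinv]
        exact he
      · rw [fgFold_sub_of_ne d h1, fgFold_sub_of_ne d h2] at hee
        exact h.sign r0 hr0 r1 hr1 e he (hee ▸ he')
  · unfold meas
    rw [eD, eF, hD]
    simp only [List.length_map, List.length_append, List.length_cons]
    omega

end FSt

end Pool.Agent.Lib.MP_66609f_al
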