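import Mathlib

namespace Pool.Agent.Lib.MP_66609f_al

/-- A group acting freely with finitely many orbits on a locally finite connected structure is
finitely generated. -/
theorem fg_of_reach {A Vt : Type*} [Group A] [MulAction A Vt] [Nonempty Vt]
    (hfree : ∀ (a : A) (v : Vt), a • v = v → a = 1)
    (O : Set Vt) (hO : O.Finite) (hcov : ∀ v, ∃ o ∈ O, ∃ a : A, v = a • o)
    (R : Vt → Vt → Prop) (hinv : ∀ (a : A) v v', R v v' → R (a • v) (a • v'))
    (hfin : ∀ v, {v' | R v v'}.Finite) (I : Subgroup A) (hI : I.FG) (B : Set Vt)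
    (hB : B.Finite) (hreach : ∀ v, ∃ b ∈ B, ∃ a ∈ I, Relation.ReflTransGen R v (a • b)) :
    Group.FG A := by
  have hone : ∀ s t : Vt, {a : A | s = a • t}.Finite := fun s t =>
    Set.Subsingleton.finite fun a ha a' ha' => by
      have h1 : (a⁻¹ * a') • t = t := by
        rw [mul_smul, ← show s = a' • t from ha', show s = a • t from ha, inv_smul_smul]
      exact inv_mul_eq_one.1 (hfree _ _ h1)
  set U : Set Vt := O ∪ B ∪ ⋃ o ∈ O, {v' | R o v'} with hU
  have hUf : U.Finite := (hO.union hB).union (hO.biUnion fun o _ => hfin o)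
  set S : Set A := ⋃ s ∈ U, ⋃ o ∈ O, {a : A | s = a • o} with hS
  have hSf : S.Finite := hUf.biUnion fun s _ => hO.biUnion fun o _ => hone s o
  have hSm : ∀ (a : A) o, o ∈ O → a • o ∈ U → a ∈ I ⊔ Subgroup.closure S := fun a o ho h =>
    Subgroup.mem_sup_right (Subgroup.subset_closure
      (Set.mem_biUnion h (Set.mem_biUnion ho rfl)))
  have hG : (I ⊔ Subgroup.closure S).FG :=
    hI.sup ((Subgroup.fg_iff _).2 ⟨S, rfl, hSf⟩)
  have hgood : ∀ v, ∃ o ∈ O, ∃ a ∈ I ⊔ Subgroup.closure S, v = a • o := by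
    intro v
    obtain ⟨b, hb, a, ha, h⟩ := hreach v
    induction h using Relation.ReflTransGen.head_induction_on with
    | refl =>
      obtain ⟨o, ho, c, rfl⟩ := hcov b
      exact ⟨o, ho, a * c, mul_mem (Subgroup.mem_sup_left ha)
        (hSm c o ho (Or.inl (Or.inr hb))), (mul_smul _ _ _).symm⟩
    | @head v v' hv _ ih =>
      obtain ⟨o', ho', a', ha', rfl⟩ := ih
      obtain ⟨o, ho, c, rfl⟩ := hcov v
      have h1 := hinv c⁻¹ _ _ hv
      rw [inv_smul_smul, ← mul_smul] at h1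
      have h2 := hSm _ o' ho' (Or.inr (Set.mem_biUnion ho h1))
      refine ⟨o, ho, c, ?_, rfl⟩
      have h3 : c = a' * (c⁻¹ * a')⁻¹ := by group
      rw [h3]
      exact mul_mem ha' (inv_mem h2)
  refine ⟨?_⟩
  have htop : I ⊔ Subgroup.closure S = ⊤ := by
    rw [eq_top_iff]
    intro g _
    obtain ⟨v⟩ := ‹Nonempty Vt›
    obtain ⟨o0, ho0, -⟩ := hcov v
    obtain ⟨o, ho, a, ha, h⟩ := hgood (g • o0)
    have h1 : (g⁻¹ * a) • o = o0 := by rw [mul_smul, ← h, inv_smul_smul]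
    have h2 := hSm _ o ho (h1 ▸ Or.inl (Or.inl ho0))
    have h3 : g = a * (g⁻¹ * a)⁻¹ := by group
    rw [h3]
    exact mul_mem ha (inv_mem h2)
  exact htop ▸ hG

end Pool.Agent.Lib.MP_66609f_al
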