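import Pool.Agent.Lib.MP_66609f_al.FGConj

namespace Pool.Agent.Lib.MP_66609f_al

section Path

variable {ι V : Type}

/-- `l` is a path from `a` to `b`. -/
def FGInit_Path (src : ι × Bool → V) : V → List (ι × Bool) → V → Prop
  | a, [], b => a = b
  | a, d :: l, b => src d = a ∧ FGInit_Path src (src (dinv d)) l b

variable {src : ι × Bool → V}

theorem FGInit_append {a b c : V} {l l' : List (ι × Bool)} (h : FGInit_Path src a l b)
    (h' : FGInit_Path src b l' c) : FGInit_Path src a (l ++ l') c := by
  induction l generalizing a with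
  | nil =>
    have e : a = b := h
    rw [e]
    exact h'
  | cons d l ih => exact ⟨h.1, ih h.2⟩

theorem FGInit_split {a c : V} {l l' : List (ι × Bool)} (h : FGInit_Path src a (l ++ l') c) :
    ∃ b, FGInit_Path src b l' c := by
  induction l generalizing a with
  | nil => exact ⟨a, h⟩
  | cons d l ih => exact ih h.2

theorem FGInit_invRev {a b : V} {l : List (ι × Bool)} (h : FGInit_Path src a l b) :
    FGInit_Path src b (FreeGroup.invRev l) a := by
  induction l generalizing a with
  | nil => exact Eq.symm h
  | cons d l ih =>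
    rw [FreeGroup.invRev_cons]
    refine FGInit_append (ih h.2) ?_
    refine ⟨rfl, ?_⟩
    have e : src (dinv (dinv d)) = a := by rw [dinv_dinv]; exact h.1
    exact e

theorem FGInit_closed {X : Type} (S : FSt X ι V) {a : V} {l : List (ι × Bool)}
    (h : FGInit_Path S.src a l a) : S.ClosedPath l := by
  rintro x y (⟨l1, l2, rfl⟩ | ⟨h1, h2⟩)
  · obtain ⟨b, hb⟩ := FGInit_split h
    exact hb.2.1.symm
  · have e1 : S.src y = a := by
      obtain ⟨l', rfl⟩ := List.head?_eq_some_iff.1 h2
      exact h.1
    obtain ⟨l', rfl⟩ := List.getLast?_eq_some_iff.1 h1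
    obtain ⟨b, hb⟩ := FGInit_split h
    exact Eq.trans hb.2 e1.symm

theorem FGInit_ofFn {n : ℕ} (e : Fin n → ι) (v : ℕ → V) (h1 : ∀ i, src (e i, true) = v i)
    (h2 : ∀ i, src (e i, false) = v (i + 1)) :
    FGInit_Path src (v 0) (List.ofFn fun i => (e i, true)) (v n) := by
  induction n generalizing v with
  | zero => exact rfl
  | succ n ih =>
    rw [List.ofFn_succ]
    refine ⟨h1 0, ?_⟩
    have e1 : src (dinv (e 0, true)) = v (0 + 1) := h2 0
    rw [e1]
    exact ih (fun i => e i.succ) (fun k => v (k + 1)) (fun i => h1 i.succ) fun i => h2 i.succ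

theorem FGInit_flatMap {α : Type} {a : V} (L : List α) (f : α → List (ι × Bool))
    (h : ∀ x, FGInit_Path src a (f x) a) : FGInit_Path src a (L.flatMap f) a := by
  induction L with
  | nil => exact rfl
  | cons x L ih =>
    rw [List.flatMap_cons]
    exact FGInit_append (h x) ih

theorem FGInit_mk_flatMap {α : Type} (L : List α) (f : α → List (ι × Bool)) :
    FreeGroup.mk (L.flatMap f) = (L.map fun x => FreeGroup.mk (f x)).prod := by
  induction L with
  | nil => rfl
  | cons x L ih => rw [List.flatMap_cons, List.map_cons, List.prod_cons, ← ih, FreeGroup.mul_mk]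

theorem FGInit_mem_invRev {l : List (ι × Bool)} {d : ι × Bool} :
    d ∈ FreeGroup.invRev l ↔ dinv d ∈ l := by
  unfold FreeGroup.invRev
  rw [List.mem_reverse, List.mem_map]
  constructor
  · rintro ⟨a, ha, rfl⟩
    have : dinv (a.1, !a.2) = a := dinv_dinv a
    rw [this]
    exact ha
  · intro h
    exact ⟨dinv d, h, dinv_dinv d⟩

end Path

theorem FGInit_decomp {X : Type} (R : List (X × Bool)) {g : FreeGroup X}
    (h : g ∈ Subgroup.normalClosure {FreeGroup.mk R}) :
    ∃ L : List (List (X × Bool) × Bool), (L.map fun p => FreeGroup.mk p.1 *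
      FreeGroup.mk (if p.2 then R else FreeGroup.invRev R) * (FreeGroup.mk p.1)⁻¹).prod = g := by
  unfold Subgroup.normalClosure at h
  induction h using Subgroup.closure_induction'' with
  | mem x hx =>
    obtain ⟨a, ha, hc⟩ := Group.mem_conjugatesOfSet_iff.1 hx
    obtain ⟨c, rfl⟩ := isConj_iff.1 hc
    obtain ⟨w, rfl⟩ : ∃ w, FreeGroup.mk w = c := Quot.exists_rep c
    rw [Set.mem_singleton_iff.1 ha]
    exact ⟨[(w, true)], by simp⟩
  | inv_mem x hx =>
    obtain ⟨a, ha, hc⟩ := Group.mem_conjugatesOfSet_iff.1 hx
    obtain ⟨c, rfl⟩ := isConj_iff.1 hc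
    obtain ⟨w, rfl⟩ : ∃ w, FreeGroup.mk w = c := Quot.exists_rep c
    rw [Set.mem_singleton_iff.1 ha]
    refine ⟨[(w, false)], ?_⟩
    simp only [List.map_cons, List.map_nil, List.prod_cons, List.prod_nil, mul_one,
      Bool.false_eq_true, if_false, ← FreeGroup.inv_mk]
    group
  | one => exact ⟨[], rfl⟩
  | mul x y _ _ hx hy =>
    obtain ⟨L, rfl⟩ := hx
    obtain ⟨L', rfl⟩ := hy
    exact ⟨L ++ L', by rw [List.map_append, List.prod_append]⟩

/-- Data of the initial state. -/
structure FGInit_Dat (X : Type) where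
  R : List (X × Bool)
  w : X → List (X × Bool)
  m : ℕ
  u : Fin m → List (X × Bool)
  ε : Fin m → Bool

namespace FGInit_Dat

variable {X : Type} (T : FGInit_Dat X)

/-- Names of the paths. -/
abbrev P : Type := X ⊕ Fin T.m × Bool

/-- The word read along a path. -/
def word : T.P → List (X × Bool)
  | .inl x => T.w x
  | .inr (j, false) => T.u j
  | .inr (j, true) => if T.ε j then T.R else FreeGroup.invRev T.R

/-- Edges. -/
abbrev I : Type := Σ p : T.P, Fin (T.word p).length

/-- Vertices. -/
def V : Type := Option (T.P × ℕ)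

/-- The end of a stick. -/
def hub (j : Fin T.m) : T.V :=
  if (T.u j).length = 0 then none else some (.inr (j, false), (T.u j).length)

/-- Start of a path. -/
def st : T.P → T.V
  | .inl _ => none
  | .inr (_, false) => none
  | .inr (j, true) => T.hub j

/-- End of a path. -/
def en : T.P → T.V
  | .inl _ => none
  | .inr (j, _) => T.hub j

/-- Vertices along a path. -/
def vtx (p : T.P) (k : ℕ) : T.V :=
  if k = 0 then T.st p else if k = (T.word p).length then T.en p else some (p, k)

/-- Origin of a dart. -/
def src (d : T.I × Bool) : T.V := T.vtx d.1.1 (if d.2 then d.1.2 else d.1.2 + 1)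

/-- The darts of a path. -/
def path (p : T.P) : List (T.I × Bool) := List.ofFn fun i : Fin (T.word p).length => (⟨p, i⟩, true)

/-- The path of a dart of the relator. -/
def dp (d : X × Bool) : List (T.I × Bool) :=
  if d.2 then T.path (.inl d.1) else FreeGroup.invRev (T.path (.inl d.1))

/-- A stick with a loop. -/
def lol (j : Fin T.m) : List (T.I × Bool) :=
  T.path (.inr (j, false)) ++ T.path (.inr (j, true)) ++ FreeGroup.invRev (T.path (.inr (j, false)))

/-- The initial state. -/
noncomputable def S [Fintype X] : FSt X T.I T.V where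
  E := Finset.univ
  lab e := (T.word e.1)[e.2]
  src := T.src
  D := T.R.flatMap T.dp ++ FreeGroup.invRev ((List.finRange T.m).flatMap T.lol)
  faces := (List.finRange T.m).map fun j => (T.ε j, T.path (.inr (j, true)))

theorem vtx_len (p : T.P) : T.vtx p (T.word p).length = T.en p := by
  unfold vtx
  split_ifs with h h'
  · rcases p with x | ⟨j, _ | _⟩
    · rfl
    · exact (if_pos h).symm
    · rfl
  · rfl
  · exact absurd rfl h'

theorem path_path (p : T.P) : FGInit_Path T.src (T.st p) (T.path p) (T.en p) := by
  have h := FGInit_ofFn (src := T.src) (fun i : Fin (T.word p).length => (⟨p, i⟩ : T.I)) (T.vtx p)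
    (fun i => rfl) fun i => rfl
  rw [vtx_len] at h
  exact h

theorem path_dp (d : X × Bool) : FGInit_Path T.src none (T.dp d) none := by
  unfold dp
  split_ifs
  · exact T.path_path (.inl d.1)
  · exact FGInit_invRev (T.path_path (.inl d.1))

theorem path_lol (j : Fin T.m) : FGInit_Path T.src none (T.lol j) none :=
  FGInit_append (FGInit_append (T.path_path (.inr (j, false))) (T.path_path (.inr (j, true))))
    (FGInit_invRev (T.path_path (.inr (j, false))))

theorem mem_path (e : T.I) : (e, true) ∈ T.path e.1 := by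
  unfold path
  rw [List.mem_ofFn]
  exact ⟨e.2, rfl⟩

theorem snd_of_mem_path {p : T.P} {d : T.I × Bool} (h : d ∈ T.path p) : d.2 = true := by
  unfold path at h
  obtain ⟨i, rfl⟩ := List.mem_ofFn.1 h
  rfl

theorem length_path (p : T.P) : (T.path p).length = (T.word p).length := List.length_ofFn

theorem length_dp (d : X × Bool) : (T.dp d).length = (T.w d.1).length := by
  unfold dp
  split_ifs
  · exact T.length_path _
  · rw [FreeGroup.invRev_length]
    exact T.length_path _

theorem length_lol (j : Fin T.m) : (T.lol j).length =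
    2 * (T.word (.inr (j, false))).length + (T.word (.inr (j, true))).length := by
  unfold lol
  rw [List.length_append, List.length_append, FreeGroup.invRev_length, length_path, length_path]
  omega

theorem mk_flat : FreeGroup.lift (fun x => FreeGroup.mk (T.path (.inl x))) (FreeGroup.mk T.R) =
    FreeGroup.mk (T.R.flatMap T.dp) := by
  rw [FGInit_mk_flatMap, FreeGroup.lift_mk]
  congr 1
  refine List.map_congr_left fun d _ => ?_
  unfold dp
  rcases d with ⟨x, _ | _⟩
  · exact FreeGroup.inv_mk
  · rfl

theorem mk_lol (j : Fin T.m) : FreeGroup.mk (T.lol j) = FreeGroup.mk (T.path (.inr (j, false))) *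
    FreeGroup.mk (T.path (.inr (j, true))) * (FreeGroup.mk (T.path (.inr (j, false))))⁻¹ := by
  unfold lol
  rw [FreeGroup.inv_mk, FreeGroup.mul_mk, FreeGroup.mul_mk]

variable [Fintype X]

theorem map_path (p : T.P) : (T.path p).map T.S.dl = T.word p := by
  unfold path
  rw [List.map_ofFn]
  exact List.ofFn_getElem

theorem mem_darts (hR : ∀ d, d ∈ T.R) (d : T.I × Bool) : d ∈ T.S.darts := by
  obtain ⟨⟨p, i⟩, b⟩ := d
  have hm := T.mem_path ⟨p, i⟩
  have h1 : ∀ j d, dinv d ∈ T.lol j → d ∈ T.S.darts := fun j d hd =>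
    List.mem_append_left _ (List.mem_append_right _
      (FGInit_mem_invRev.2 (List.mem_flatMap.2 ⟨j, List.mem_finRange j, hd⟩)))
  rcases p with x | ⟨j, _ | _⟩
  · refine List.mem_append_left _ (List.mem_append_left _
      (List.mem_flatMap.2 ⟨(x, b), hR _, ?_⟩))
    cases b
    · exact FGInit_mem_invRev.2 hm
    · exact hm
  · refine h1 j _ ?_
    cases b
    · exact List.mem_append_left _ (List.mem_append_left _ hm)
    · exact List.mem_append_right _ (FGInit_mem_invRev.2 hm)
  · cases b
    · exact h1 j _ (List.mem_append_left _ (List.mem_append_right _ hm))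
    · refine List.mem_append_right _ (List.mem_flatten.2 ⟨_, ?_, hm⟩)
      exact List.mem_map.2 ⟨_, List.mem_map.2 ⟨j, List.mem_finRange j, rfl⟩, rfl⟩

theorem length_darts (hR : GoodQ T.R) : T.S.darts.length = Fintype.card (T.I × Bool) := by
  classical
  have h1 : (T.R.flatMap T.dp).length = 2 * ∑ x, (T.word (.inl x)).length := by
    rw [List.length_flatMap, ← List.sum_toFinset _ hR.1]
    have : T.R.toFinset = Finset.univ :=
      Finset.eq_univ_of_forall fun d => List.mem_toFinset.2 (hR.2.1 d)
    rw [this, Fintype.sum_prod_type, Finset.mul_sum]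
    refine Finset.sum_congr rfl fun x _ => ?_
    rw [Fintype.sum_bool, length_dp, length_dp, two_mul]
    rfl
  have h2 : ((List.finRange T.m).flatMap T.lol).length =
      2 * ∑ j, (T.word (.inr (j, false))).length + ∑ j, (T.word (.inr (j, true))).length := by
    rw [List.length_flatMap, ← Fin.sum_univ_def, Finset.mul_sum, ← Finset.sum_add_distrib]
    exact Finset.sum_congr rfl fun j _ => T.length_lol j
  have h3 : (T.S.faces.map Prod.snd).flatten.length = ∑ j, (T.word (.inr (j, true))).length := by
    rw [List.length_flatten, Fin.sum_univ_def]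
    unfold S
    simp only [List.map_map]
    congr 1
    exact List.map_congr_left fun j _ => T.length_path _
  have h4 : T.S.D.length =
      (T.R.flatMap T.dp).length + ((List.finRange T.m).flatMap T.lol).length := by
    unfold S
    rw [List.length_append, FreeGroup.invRev_length]
  unfold FSt.darts
  rw [List.length_append, h4, h1, h2, h3, Fintype.card_prod, Fintype.card_bool, Fintype.card_sigma,
    Fintype.sum_sum_type, Fintype.sum_prod_type]
  simp only [Fintype.card_fin, Fintype.sum_bool, Finset.sum_add_distrib]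
  omega

theorem nodup_darts (hR : GoodQ T.R) : T.S.darts.Nodup := by
  classical
  have h : T.S.darts.toFinset = Finset.univ :=
    Finset.eq_univ_of_forall fun d => List.mem_toFinset.2 (T.mem_darts hR.2.1 d)
  have h2 : (T.S.darts : Multiset (T.I × Bool)).toFinset.card =
      Multiset.card (T.S.darts : Multiset (T.I × Bool)) := by
    rw [List.toFinset_coe, h, Multiset.coe_card, T.length_darts hR, Finset.card_univ]
  exact Multiset.coe_nodup.1 (Multiset.toFinset_card_eq_card_iff_nodup.1 h2)

theorem count_le [DecidableEq T.V] :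
    T.S.E.card ≤ (T.S.verts.erase none).card + T.S.faces.length + Fintype.card X := by
  classical
  let good : T.I → Prop := fun e => T.src (e, false) = some (e.1, (e.2 : ℕ) + 1)
  have h1 : (Finset.univ.filter good).card ≤ (T.S.verts.erase none).card := by
    refine Finset.card_le_card_of_injOn (fun e => T.src (e, false)) (fun e he => ?_) ?_
    · have hg : T.src (e, false) = some (e.1, (e.2 : ℕ) + 1) := (Finset.mem_filter.1 he).2
      refine Finset.mem_coe.2 (Finset.mem_erase.2 ⟨?_, ?_⟩)
      · intro h0
        exact Option.some_ne_none _ (hg.symm.trans h0)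
      · exact Finset.mem_image.2 ⟨(e, false),
          Finset.mem_product.2 ⟨Finset.mem_univ _, Finset.mem_univ _⟩, rfl⟩
    · rintro ⟨p, i⟩ he ⟨p', i'⟩ he' h
      have hg : T.src (⟨p, i⟩, false) = some (p, (i : ℕ) + 1) := (Finset.mem_filter.1 he).2
      have hg' : T.src (⟨p', i'⟩, false) = some (p', (i' : ℕ) + 1) := (Finset.mem_filter.1 he').2
      have e := Option.some.inj (hg.symm.trans (Eq.trans h hg'))
      obtain ⟨rfl, e2⟩ := Prod.mk.inj e
      have : i = i' := Fin.ext (by omega)
      rw [this]
  have hb : ∀ e : T.I, ¬ good e →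
      (e.2 : ℕ) + 1 = (T.word e.1).length ∧ ∀ j, e.1 ≠ .inr (j, false) := by
    rintro ⟨p, i⟩ he
    have e0 : T.src (⟨p, i⟩, false) = T.vtx p (i + 1) := rfl
    by_cases h : (i : ℕ) + 1 = (T.word p).length
    · refine ⟨h, ?_⟩
      rintro j (rfl : p = _)
      apply he
      have h' : (i : ℕ) + 1 = (T.u j).length := h
      change T.src _ = _
      rw [e0, h, vtx_len]
      exact if_neg (by omega)
    · exfalso
      apply he
      change T.src _ = _
      rw [e0]
      unfold vtx
      rw [if_neg (Nat.succ_ne_zero _), if_neg h]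
  have h2 : (Finset.univ.filter fun e => ¬ good e).card ≤
      (Finset.univ : Finset (X ⊕ Fin T.m)).card := by
    refine Finset.card_le_card_of_injOn (fun e => Sum.map id Prod.fst e.1)
      (fun e _ => Finset.mem_coe.2 (Finset.mem_univ _)) ?_
    rintro ⟨p, i⟩ he ⟨p', i'⟩ he' h
    obtain ⟨a1, a2⟩ := hb _ (Finset.mem_filter.1 he).2
    obtain ⟨b1, b2⟩ := hb _ (Finset.mem_filter.1 he').2
    have e : p = p' := by
      rcases p with x | ⟨j, _ | _⟩
      · rcases p' with x' | ⟨j', _⟩
        · exact congrArg Sum.inl (Sum.inl.inj h)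
        · exact absurd h Sum.inl_ne_inr
      · exact absurd rfl (a2 j)
      · rcases p' with x' | ⟨j', _ | _⟩
        · exact absurd h Sum.inr_ne_inl
        · exact absurd rfl (b2 j')
        · have : j = j' := Sum.inr.inj h
          rw [this]
    subst e
    have : i = i' := Fin.ext (by dsimp only at a1 b1; omega)
    rw [this]
  have h3 := Finset.card_filter_add_card_filter_not (s := (Finset.univ : Finset T.I)) good
  have h4 : T.S.faces.length = T.m := by
    unfold S
    rw [List.length_map, List.length_finRange]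
  rw [Finset.card_univ, Fintype.card_sum, Fintype.card_fin] at h2
  have h5 : T.S.E = Finset.univ := rfl
  rw [h4, h5]
  omega

theorem valid [DecidableEq T.V] (hR : GoodQ T.R) (f0 : X → FreeGroup X)
    (hw : ∀ x, FreeGroup.mk (T.w x) = f0 x) (hne : ∀ x, f0 x ≠ 1)
    (h : ((List.finRange T.m).map fun j => FreeGroup.mk (T.u j) *
      FreeGroup.mk (if T.ε j then T.R else FreeGroup.invRev T.R) * (FreeGroup.mk (T.u j))⁻¹).prod =
        FreeGroup.lift f0 (FreeGroup.mk T.R)) : T.S.Valid T.R f0 := by
  have hl : ∀ p, T.S.labH (FreeGroup.mk (T.path p)) = FreeGroup.mk (T.word p) := fun p => by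
    rw [FSt.labH_mk, map_path]
  have hD : FreeGroup.mk T.S.D = FreeGroup.mk (T.R.flatMap T.dp) *
      (FreeGroup.mk ((List.finRange T.m).flatMap T.lol))⁻¹ := by
    rw [FreeGroup.inv_mk, FreeGroup.mul_mk]
    rfl
  have hface : ∀ r ∈ T.S.faces, ∃ j, r = (T.ε j, T.path (.inr (j, true))) := by
    intro r hr
    obtain ⟨j, -, rfl⟩ := List.mem_map.1 hr
    exact ⟨j, rfl⟩
  refine ⟨T.nodup_darts hR, fun d => iff_of_true (T.mem_darts hR.2.1 d) (Finset.mem_univ _),
    ?_, ?_, ?_, ?_, ?_, ?_, ?_, ?_⟩
  · intro r hr
    obtain ⟨j, rfl⟩ := hface r hr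
    rw [map_path]
    exact List.IsRotated.refl _
  · rw [← FSt.labH_mk, hD, map_mul, map_inv, ← mk_flat, FGInit_mk_flatMap, map_list_prod,
      List.map_map, mul_inv_eq_one]
    have e1 : T.S.labH.comp (FreeGroup.lift fun x => FreeGroup.mk (T.path (.inl x))) =
        FreeGroup.lift f0 := by
      ext x
      rw [MonoidHom.comp_apply, FreeGroup.lift_apply_of, FreeGroup.lift_apply_of, hl]
      exact hw x
    rw [← MonoidHom.comp_apply, e1, ← h]
    congr 1
    refine List.map_congr_left fun j _ => ?_
    rw [Function.comp_apply, mk_lol, map_mul, map_mul, map_inv, hl, hl]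
    rfl
  · exact FGInit_closed T.S (a := none) (FGInit_append (FGInit_flatMap _ _ T.path_dp)
      (FGInit_invRev (FGInit_flatMap _ _ T.path_lol)))
  · intro r hr
    obtain ⟨j, rfl⟩ := hface r hr
    exact FGInit_closed T.S (T.path_path (.inr (j, true)))
  · intro hD0
    obtain ⟨d, -⟩ := List.exists_mem_of_ne_nil _ hD0
    have x : X := (T.S.lab d.1).1
    have hx : 0 < (T.word (.inl x)).length := by
      refine List.length_pos_iff.2 fun h0 => hne x ?_
      have h0' : T.w x = [] := h0
      rw [← hw, h0']
      rfl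
    have hn : T.st (.inl x) ∈ T.S.verts := Finset.mem_image.2 ⟨(⟨.inl x, ⟨0, hx⟩⟩, true),
      Finset.mem_product.2 ⟨Finset.mem_univ _, Finset.mem_univ _⟩, rfl⟩
    have h1 : T.S.E.card ≤ (T.S.verts.erase (T.st (.inl x))).card + T.S.faces.length +
      Fintype.card X := T.count_le
    have h2 := Finset.card_erase_add_one hn
    omega
  · have h1 := T.count_le
    have h2 : (T.S.verts.erase none).card ≤ T.S.verts.card := Finset.card_erase_le
    omega
  · refine ⟨fun x => FreeGroup.mk (T.path (.inl x)), fun x => ?_, ?_⟩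
    · have e : FreeGroup.mk (T.word (.inl x)) = f0 x := hw x
      rw [hl, e, inv_mul_cancel]
      exact Subgroup.one_mem _
    · refine ⟨(1, FreeGroup.mk T.S.D) :: (List.finRange T.m).map fun j =>
        (FreeGroup.mk (T.path (.inr (j, false))), FreeGroup.mk (T.path (.inr (j, true)))), ?_, ?_⟩
      · refine List.Perm.of_eq ?_
        rw [List.map_cons, List.map_map]
        congr 1
        unfold S
        rw [List.map_map]
        rfl
      · rw [List.map_cons, List.prod_cons, List.map_map, mk_flat, hD,
          FGInit_mk_flatMap (List.finRange T.m)]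
        have e : (List.finRange T.m).map (fun j => FreeGroup.mk (T.lol j)) =
            (List.finRange T.m).map ((fun p : FreeGroup T.I × FreeGroup T.I => p.1 * p.2 * p.1⁻¹) ∘
              fun j => (FreeGroup.mk (T.path (.inr (j, false))),
                FreeGroup.mk (T.path (.inr (j, true))))) :=
          List.map_congr_left fun j _ => T.mk_lol j
        rw [← e]
        group
  · intro r hr r' hr' d hd hd'
    obtain ⟨j, rfl⟩ := hface r hr
    obtain ⟨j', rfl⟩ := hface r' hr'
    have h1 := T.snd_of_mem_path hd
    have h2 : (!d.2) = true := T.snd_of_mem_path hd'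
    rw [h1] at h2
    exact absurd h2 (by decide)

end FGInit_Dat

open Classical in
theorem exists_init {X : Type} [Fintype X] {R : List (X × Bool)} (hR : GoodQ R)
    (f0 : X → FreeGroup X) (hne : ∀ x, f0 x ≠ 1)
    (h : FreeGroup.lift f0 (FreeGroup.mk R) ∈ Subgroup.normalClosure {FreeGroup.mk R}) :
    ∃ (ι V : Type) (S : FSt X ι V), S.Valid R f0 := by
  obtain ⟨L, hL⟩ := FGInit_decomp R h
  let T : FGInit_Dat X := ⟨R, fun x => (f0 x).toWord, L.length, fun j => (L.get j).1,
    fun j => (L.get j).2⟩
  refine ⟨T.I, T.V, T.S, T.valid hR f0 (fun x => FreeGroup.mk_toWord) hne ?_⟩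
  rw [← List.map_get_finRange L, List.map_map] at hL
  exact hL

end Pool.Agent.Lib.MP_66609f_al
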