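import Pool.Agent.Lib.MP_66609f_al.FGConj

namespace Pool.Agent.Lib.MP_66609f_al

/-- Paths of darts between two vertices. -/
def FGMerge_Path {ι V : Type} (src : ι × Bool → V) : V → List (ι × Bool) → V → Prop
  | u, [], v => u = v
  | u, a :: l, v => src a = u ∧ FGMerge_Path src (src (dinv a)) l v

theorem FGMerge_append {ι V : Type} (src : ι × Bool → V) (l1 l2 : List (ι × Bool)) (u v : V) :
    FGMerge_Path src u (l1 ++ l2) v ↔ ∃ w, FGMerge_Path src u l1 w ∧ FGMerge_Path src w l2 v := by
  induction l1 generalizing u with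
  | nil =>
    constructor
    · intro h
      exact ⟨u, rfl, h⟩
    · rintro ⟨w, h1, h2⟩
      have e : u = w := h1
      rw [e]
      exact h2
  | cons a l ih =>
    constructor
    · rintro ⟨h1, h2⟩
      obtain ⟨w, h3, h4⟩ := (ih _).1 h2
      exact ⟨w, ⟨h1, h3⟩, h4⟩
    · rintro ⟨w, ⟨h1, h3⟩, h4⟩
      exact ⟨h1, (ih _).2 ⟨w, h3, h4⟩⟩

theorem FGMerge_of_chain {ι V : Type} (src : ι × Bool → V) (v : V) (l : List (ι × Bool))
    (a : ι × Bool) (h1 : ∀ l1 l2 x y, a :: l = l1 ++ x :: y :: l2 → src (dinv x) = src y)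
    (h2 : ∀ x, (a :: l).getLast? = some x → src (dinv x) = v) :
    FGMerge_Path src (src a) (a :: l) v := by
  induction l generalizing a with
  | nil => exact ⟨rfl, h2 a rfl⟩
  | cons b l ih =>
    refine ⟨rfl, ?_⟩
    rw [h1 [] l a b rfl]
    refine ih b (fun l1 l2 x y h => h1 (a :: l1) l2 x y (by rw [h]; rfl)) fun x hx => h2 x ?_
    rw [List.getLast?_cons_cons]
    exact hx

theorem FGMerge_ends {ι V : Type} (src : ι × Bool → V) {l : List (ι × Bool)} {u v : V}
    (h : FGMerge_Path src u l v) (hl : l ≠ []) :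
    (∃ a ∈ l, src a = u) ∧ ∃ a ∈ l, src (dinv a) = v := by
  constructor
  · cases l with
    | nil => exact (hl rfl).elim
    | cons a l => exact ⟨a, List.mem_cons_self, h.1⟩
  · rcases List.eq_nil_or_concat l with h0 | ⟨l0, a, h0⟩
    · exact (hl h0).elim
    · rw [List.concat_eq_append] at h0
      subst h0
      obtain ⟨w, _, h2⟩ := (FGMerge_append src _ _ _ _).1 h
      exact ⟨a, by simp, h2.2⟩

theorem FGMerge_rot {α : Type*} {y : α} {u v : List α} (hn : (y :: u).Nodup)
    (h : (y :: u).IsRotated (y :: v)) : u = v := by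
  obtain ⟨n, hn'⟩ := h
  have hlt : n % (y :: u).length < (y :: u).length := Nat.mod_lt _ (by simp)
  have h0 : ((y :: u).rotate n)[0]'(by simp) = y := by simp only [hn', List.getElem_cons_zero]
  rw [List.getElem_rotate] at h0
  have h1 : (0 + n) % (y :: u).length = 0 := by
    have h2 : (y :: u)[(0 + n) % (y :: u).length]'(Nat.mod_lt _ (by simp)) =
        (y :: u)[0]'(by simp) := h0
    exact hn.getElem_inj_iff.1 h2
  rw [Nat.zero_add] at h1
  rw [← List.rotate_mod, h1, List.rotate_zero] at hn'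
  exact List.tail_eq_of_cons_eq hn'

theorem FGMerge_invRev_rot {α : Type*} {l l' : List (α × Bool)} (h : l.IsRotated l') :
    (FreeGroup.invRev l).IsRotated (FreeGroup.invRev l') := by
  unfold FreeGroup.invRev
  exact (h.map _).reverse

theorem FGMerge_mk_cons {α : Type*} (a : α × Bool) (l : List (α × Bool)) :
    FreeGroup.mk (a :: l) = FreeGroup.mk [a] * FreeGroup.mk l := by
  rw [FreeGroup.mul_mk]
  rfl

theorem FGMerge_fst {α : Type*} {a b : α × Bool} (h : a.1 = b.1) : a = b ∨ a = dinv b := by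
  obtain ⟨a1, a2⟩ := a
  obtain ⟨b1, b2⟩ := b
  simp only at h
  subst h
  cases a2 <;> cases b2 <;> simp [dinv]

/-- The substitution of the dart `d` by the word `w`. -/
def FGMerge_val {ι : Type} (d : ι × Bool) (w : FreeGroup ι) : FreeGroup ι := if d.2 then w else w⁻¹

theorem FGMerge_lift {ι G : Type} [Group G] (f : ι → G) (a : ι × Bool) :
    FreeGroup.lift f (FreeGroup.mk [a]) = if a.2 then f a.1 else (f a.1)⁻¹ := by
  obtain ⟨a1, a2⟩ := a
  cases a2 <;> simp [FreeGroup.lift_mk]

theorem FGMerge_of {ι : Type} (a : ι × Bool) :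
    FreeGroup.mk [a] = if a.2 then FreeGroup.of a.1 else (FreeGroup.of a.1)⁻¹ := by
  obtain ⟨a1, a2⟩ := a
  cases a2
  · exact mk_dinv (a1, true)
  · rfl

namespace FSt

variable {X ι V : Type} [DecidableEq ι] [DecidableEq V] [Fintype X]

omit [DecidableEq ι] [DecidableEq V] [Fintype X] in
theorem FGMerge_path (S : FSt X ι V) {a : ι × Bool} {l : List (ι × Bool)}
    (h : S.ClosedPath (a :: l)) : FGMerge_Path S.src (S.src a) (a :: l) (S.src a) :=
  FGMerge_of_chain S.src _ l a (fun l1 l2 x y e => h x y (Or.inl ⟨l1, l2, e⟩))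
    fun x hx => h x a (Or.inr ⟨hx, rfl⟩)

omit [DecidableEq ι] [DecidableEq V] [Fintype X] in
theorem FGMerge_closed (S : FSt X ι V) {l : List (ι × Bool)} {u : V}
    (h : FGMerge_Path S.src u l u) : S.ClosedPath l := by
  rintro a b (⟨l1, l2, rfl⟩ | ⟨h1, h2⟩)
  · obtain ⟨w, _, h2⟩ := (FGMerge_append S.src _ _ _ _).1 h
    exact h2.2.1.symm
  · obtain ⟨l0, e0⟩ := List.getLast?_eq_some_iff.1 h1
    obtain ⟨l1, e1⟩ := List.head?_eq_some_iff.1 h2
    have a1 : S.src b = u := by
      rw [e1] at h
      exact h.1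
    rw [e0] at h
    obtain ⟨w, _, h3⟩ := (FGMerge_append S.src _ _ _ _).1 h
    rw [a1]
    exact h3.2

theorem step_merge {S : FSt X ι V} {R : List (X × Bool)} {f0 : X → FreeGroup X}
    (hR : GoodQ R) (h : S.Valid R f0) {l1 l2 A A' : List (ι × Bool)} {d d' : ι × Bool}
    {ε : Bool} {F : List (Bool × List (ι × Bool))}
    (hD : S.D = l1 ++ d :: d' :: l2) (hl : S.dl d' = dinv (S.dl d))
    (hF : S.faces = (ε, dinv d :: A) :: (!ε, dinv d' :: A') :: F) :
    ∃ S' : FSt X ι V, S'.Valid R f0 ∧ S'.meas R.length < S.meas R.length := by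
  have hp : S.darts.Perm (d :: d' :: dinv d :: dinv d' ::
      ((l1 ++ (A ++ (A' ++ l2))) ++ (F.map Prod.snd).flatten)) := by
    unfold darts
    rw [hD, hF]
    rw [List.perm_iff_count]
    intro a
    simp only [List.map_cons, List.flatten_cons, List.count_append, List.count_cons]
    omega
  have hn := hp.nodup_iff.1 h.nodup
  simp only [List.nodup_cons, List.mem_cons, not_or] at hn
  obtain ⟨⟨n1, n2, n3, n4⟩, ⟨n5, n6, n7⟩, ⟨n8, n9⟩, n10, n11⟩ := hn
  have hne : d.1 ≠ d'.1 := fun e => (FGMerge_fst e).elim n1 n3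
  have hmem : ∀ e : ι × Bool, e ∈ (l1 ++ (A ++ (A' ++ l2))) ++ (F.map Prod.snd).flatten ↔
      e.1 ∈ (S.E.erase d.1).erase d'.1 := by
    intro e
    rw [Finset.mem_erase, Finset.mem_erase, ← h.mem, hp.mem_iff]
    simp only [List.mem_cons]
    constructor
    · intro he
      refine ⟨fun e1 => ?_, fun e1 => ?_, Or.inr (Or.inr (Or.inr (Or.inr he)))⟩
      · rcases FGMerge_fst e1 with e2 | e2
        · exact n7 (e2 ▸ he)
        · exact n10 (e2 ▸ he)
      · rcases FGMerge_fst e1 with e2 | e2
        · exact n4 (e2 ▸ he)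
        · exact n9 (e2 ▸ he)
    · rintro ⟨e1, e2, e3 | e3 | e3 | e3 | e3⟩
      · exact (e2 (by rw [e3])).elim
      · exact (e1 (by rw [e3])).elim
      · exact (e2 (by rw [e3]; rfl)).elim
      · exact (e1 (by rw [e3]; rfl)).elim
      · exact e3
  have m1 : (ε, dinv d :: A) ∈ S.faces := by rw [hF]; simp
  have m2 : (!ε, dinv d' :: A') ∈ S.faces := by rw [hF]; simp
  have mF : ∀ r ∈ F, r ∈ S.faces := fun r hr => by rw [hF]; simp [hr]
  have r1 : ((dinv d :: A).map S.dl).IsRotated (if ε then R else FreeGroup.invRev R) :=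
    h.face_lab _ m1
  have r2 : ((dinv d' :: A').map S.dl).IsRotated (if !ε then R else FreeGroup.invRev R) :=
    h.face_lab _ m2
  have e12 : (if !ε then R else FreeGroup.invRev R) =
      FreeGroup.invRev (if ε then R else FreeGroup.invRev R) := by
    cases ε <;> simp
  have hlen : ∀ b : Bool, (if b then R else FreeGroup.invRev R).length = R.length := by
    intro b
    cases b <;> simp
  have hnd : ∀ b : Bool, (if b then R else FreeGroup.invRev R).Nodup := by
    intro b
    cases b
    · exact hR.invRev.1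
    · exact hR.1
  have hN : ∀ b : Bool, FreeGroup.mk (if b then R else FreeGroup.invRev R) ∈
      Subgroup.normalClosure {FreeGroup.mk R} := by
    intro b
    have a1 : FreeGroup.mk R ∈ Subgroup.normalClosure {FreeGroup.mk R} :=
      Subgroup.subset_normalClosure rfl
    cases b
    · exact FreeGroup.inv_mk ▸ inv_mem a1
    · exact a1
  have lA : A.length + 1 = R.length := by
    have := r1.perm.length_eq
    rw [hlen, List.length_map, List.length_cons] at this
    exact this
  have lA' : A'.length + 1 = R.length := by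
    have := r2.perm.length_eq
    rw [hlen, List.length_map, List.length_cons] at this
    exact this
  have hR2 := hR.length_eq
  have hA : A ≠ [] := by
    intro e
    rw [e, List.length_nil] at lA
    omega
  have hA' : A' ≠ [] := by
    intro e
    rw [e, List.length_nil] at lA'
    omega
  have hinv : A'.map S.dl = FreeGroup.invRev (A.map S.dl) := by
    have a1 := FGMerge_invRev_rot r1
    rw [← e12] at a1
    have a2 := r2.trans a1.symm
    have a3 := r2.nodup_iff.2 (hnd _)
    rw [List.map_cons, dl_dinv, hl, dinv_dinv] at a2 a3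
    have a4 : FreeGroup.invRev ((dinv d :: A).map S.dl) =
        FreeGroup.invRev (A.map S.dl) ++ [S.dl d] := by
      rw [List.map_cons, dl_dinv]
      unfold FreeGroup.invRev
      rw [List.map_cons, List.reverse_cons]
      congr 2
      exact dinv_dinv _
    rw [a4] at a2
    exact FGMerge_rot a3 (a2.trans List.isRotated_append)
  have hne0 : S.D ≠ [] := by rw [hD]; simp
  obtain ⟨u, hu⟩ : ∃ u, FGMerge_Path S.src u S.D u := by
    have a1 := h.D_closed
    cases e : S.D with
    | nil => exact (hne0 e).elim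
    | cons a l =>
      rw [e] at a1
      exact ⟨_, S.FGMerge_path a1⟩
  rw [hD] at hu
  obtain ⟨w, p1, p2, p3, p4⟩ := (FGMerge_append S.src _ _ _ _).1 hu
  have pA := (S.FGMerge_path (h.face_closed _ m1)).2
  have pA' := (S.FGMerge_path (h.face_closed _ m2)).2
  rw [dinv_dinv] at pA pA'
  have hE1 : d.1 ∈ S.E := (h.mem d).1 (hp.mem_iff.2 (by simp))
  have hE2 : d'.1 ∈ S.E.erase d.1 :=
    Finset.mem_erase.2 ⟨hne.symm, (h.mem d').1 (hp.mem_iff.2 (by simp))⟩
  have hcard : ((S.E.erase d.1).erase d'.1).card + 2 = S.E.card := by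
    have a1 := Finset.card_erase_add_one hE1
    have a2 := Finset.card_erase_add_one hE2
    omega
  have hv : S.verts ⊆ ((((S.E.erase d.1).erase d'.1) ×ˢ (Finset.univ : Finset Bool)).image S.src) := by
    have k : ∀ e : ι × Bool, e.1 ∈ (S.E.erase d.1).erase d'.1 → S.src e ∈
        (((S.E.erase d.1).erase d'.1) ×ˢ (Finset.univ : Finset Bool)).image S.src := fun e he =>
      Finset.mem_image_of_mem _ (Finset.mem_product.2 ⟨he, Finset.mem_univ _⟩)
    obtain ⟨⟨a, ha, ea⟩, ⟨b, hb, eb⟩⟩ := FGMerge_ends S.src pA hA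
    obtain ⟨⟨a', ha', ea'⟩, ⟨b', hb', eb'⟩⟩ := FGMerge_ends S.src pA' hA'
    intro v hv
    obtain ⟨e, he, rfl⟩ := Finset.mem_image.1 hv
    by_cases c1 : e.1 = d.1
    · rcases FGMerge_fst c1 with c | c
      · rw [c, ← ea]
        exact k a ((hmem a).1 (by simp [ha]))
      · rw [c, ← eb]
        exact k (dinv b) ((hmem b).1 (by simp [hb]))
    · by_cases c2 : e.1 = d'.1
      · rcases FGMerge_fst c2 with c | c
        · rw [c, ← ea']
          exact k a' ((hmem a').1 (by simp [ha']))
        · rw [c, ← eb']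
          exact k (dinv b') ((hmem b').1 (by simp [hb']))
      · exact k e (Finset.mem_erase.2 ⟨c2, Finset.mem_erase.2 ⟨c1, (Finset.mem_product.1 he).1⟩⟩)
  have hvc := Finset.card_le_card hv
  have hc := h.count hne0
  rw [hF, List.length_cons, List.length_cons] at hc
  obtain ⟨fh, hf1, hf2⟩ := h.alg
  let g : FreeGroup ι →* FreeGroup ι := FreeGroup.lift fun e =>
    if e = d.1 then FGMerge_val d (FreeGroup.mk A) else
      if e = d'.1 then FGMerge_val d' (FreeGroup.mk A') else FreeGroup.of e
  have g1 : g (FreeGroup.mk [d]) = FreeGroup.mk A := by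
    rw [FGMerge_lift, if_pos rfl]
    unfold FGMerge_val
    cases d.2 <;> simp
  have g2 : g (FreeGroup.mk [d']) = FreeGroup.mk A' := by
    rw [FGMerge_lift, if_neg hne.symm, if_pos rfl]
    unfold FGMerge_val
    cases d'.2 <;> simp
  have g3 : ∀ e : ι × Bool, e.1 ≠ d.1 → e.1 ≠ d'.1 → g (FreeGroup.mk [e]) = FreeGroup.mk [e] := by
    intro e c1 c2
    rw [FGMerge_lift, if_neg c1, if_neg c2, FGMerge_of]
  have g4 : ∀ l : List (ι × Bool),
      (∀ e ∈ l, e ∈ (l1 ++ (A ++ (A' ++ l2))) ++ (F.map Prod.snd).flatten) →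
        g (FreeGroup.mk l) = FreeGroup.mk l := by
    intro l
    induction l with
    | nil => intro _; exact map_one g
    | cons e l ih =>
      intro hl
      have a1 := (hmem e).1 (hl e List.mem_cons_self)
      rw [Finset.mem_erase, Finset.mem_erase] at a1
      rw [FGMerge_mk_cons, map_mul, g3 e a1.2.1 a1.1,
        ih fun x hx => hl x (List.mem_cons_of_mem _ hx)]
  have q1 : ∀ (e : ι × Bool) (B : List (ι × Bool)) (b : Bool),
      ((dinv e :: B).map S.dl).IsRotated (if b then R else FreeGroup.invRev R) →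
      (QuotientGroup.mk' (Subgroup.normalClosure {FreeGroup.mk R})) (S.labH (FreeGroup.mk B)) =
      (QuotientGroup.mk' (Subgroup.normalClosure {FreeGroup.mk R})) (S.labH (FreeGroup.mk [e])) := by
    intro e B b hr
    obtain ⟨c, hc⟩ := isConj_iff.1 (isConj_mk_of_isRotated hr).symm
    have a1 : S.labH (FreeGroup.mk (dinv e :: B)) ∈ Subgroup.normalClosure {FreeGroup.mk R} := by
      rw [labH_mk, ← hc]
      exact Subgroup.normalClosure_normal.conj_mem _ (hN b) c
    rw [FGMerge_mk_cons, map_mul, mk_dinv, map_inv] at a1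
    symm
    exact QuotientGroup.eq.2 a1
  have q2 : ((QuotientGroup.mk' (Subgroup.normalClosure {FreeGroup.mk R})).comp S.labH).comp g =
      (QuotientGroup.mk' (Subgroup.normalClosure {FreeGroup.mk R})).comp S.labH := by
    have k : ∀ e : ι × Bool,
        (((QuotientGroup.mk' (Subgroup.normalClosure {FreeGroup.mk R})).comp S.labH).comp g)
          (FreeGroup.mk [e]) =
        ((QuotientGroup.mk' (Subgroup.normalClosure {FreeGroup.mk R})).comp S.labH)
          (FreeGroup.mk [e]) →
        (((QuotientGroup.mk' (Subgroup.normalClosure {FreeGroup.mk R})).comp S.labH).comp g)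
          (FreeGroup.mk [dinv e]) =
        ((QuotientGroup.mk' (Subgroup.normalClosure {FreeGroup.mk R})).comp S.labH)
          (FreeGroup.mk [dinv e]) := by
      intro e he
      rw [mk_dinv, map_inv, map_inv, he]
    have k1 := q1 d A ε r1
    have k2 := q1 d' A' (!ε) r2
    rw [← g1] at k1
    rw [← g2] at k2
    apply FreeGroup.ext_hom
    intro e
    have e0 : FreeGroup.of e = FreeGroup.mk [(e, true)] := rfl
    rw [e0]
    by_cases c1 : e = d.1
    · rcases FGMerge_fst (a := (e, true)) c1 with c | c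
      · rw [c]; exact k1
      · rw [c]; exact k d k1
    · by_cases c2 : e = d'.1
      · rcases FGMerge_fst (a := (e, true)) c2 with c | c
        · rw [c]; exact k2
        · rw [c]; exact k d' k2
      · rw [MonoidHom.comp_apply, g3 (e, true) c1 c2]
  refine ⟨⟨(S.E.erase d.1).erase d'.1, S.lab, S.src, l1 ++ (A ++ (A' ++ l2)), F⟩,
    ⟨n11, hmem, fun r hr => h.face_lab r (mF r hr), ?_, ?_, fun r hr => h.face_closed r (mF r hr),
      fun _ => ?_, ?_, ⟨fun x => g (fh x), fun x => ?_, ?_⟩,
      fun r hr r' hr' => h.sign r (mF r hr) r' (mF r' hr')⟩, ?_⟩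
  · have a1 := h.D_lab
    rw [hD, List.map_append, List.map_cons, List.map_cons, ← FreeGroup.mul_mk, FGMerge_mk_cons,
      FGMerge_mk_cons (S.dl d'), hl, mk_dinv, mul_inv_cancel_left] at a1
    show FreeGroup.mk ((l1 ++ (A ++ (A' ++ l2))).map S.dl) = 1
    rw [List.map_append, List.map_append, List.map_append, ← FreeGroup.mul_mk, ← FreeGroup.mul_mk,
      ← FreeGroup.mul_mk, hinv, ← FreeGroup.inv_mk, mul_inv_cancel_left]
    exact a1
  · refine S.FGMerge_closed (u := u) ?_
    refine (FGMerge_append S.src _ _ _ _).2 ⟨w, p1, ?_⟩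
    rw [← p2]
    refine (FGMerge_append S.src _ _ _ _).2 ⟨_, pA, ?_⟩
    rw [← p3]
    exact (FGMerge_append S.src _ _ _ _).2 ⟨_, pA', p4⟩
  · show ((S.E.erase d.1).erase d'.1).card + 1 ≤
      ((((S.E.erase d.1).erase d'.1) ×ˢ (Finset.univ : Finset Bool)).image S.src).card +
        F.length + Fintype.card X
    omega
  · show ((S.E.erase d.1).erase d'.1).card ≤
      ((((S.E.erase d.1).erase d'.1) ×ˢ (Finset.univ : Finset Bool)).image S.src).card +
        F.length + Fintype.card X
    omega
  · show (f0 x)⁻¹ * S.labH (g (fh x)) ∈ _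
    have a1 : (S.labH (fh x))⁻¹ * S.labH (g (fh x)) ∈ Subgroup.normalClosure {FreeGroup.mk R} :=
      QuotientGroup.eq.1 (DFunLike.congr_fun q2 (fh x)).symm
    have a2 := mul_mem (hf1 x) a1
    rwa [mul_assoc, mul_inv_cancel_left] at a2
  · show ConjProd (FreeGroup.mk (l1 ++ (A ++ (A' ++ l2))) :: F.map fun r => FreeGroup.mk r.2) _
    have a1 := hf2.map g
    have a2 : g (FreeGroup.lift fh (FreeGroup.mk R)) =
        FreeGroup.lift (fun x => g (fh x)) (FreeGroup.mk R) := by
      have : g.comp (FreeGroup.lift fh) = FreeGroup.lift fun x => g (fh x) := by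
        apply FreeGroup.ext_hom
        intro x
        simp
      exact DFunLike.congr_fun this _
    have a3 : g (FreeGroup.mk S.D) = FreeGroup.mk (l1 ++ (A ++ (A' ++ l2))) := by
      rw [hD, ← FreeGroup.mul_mk, FGMerge_mk_cons, FGMerge_mk_cons d', map_mul, map_mul, map_mul,
        g1, g2, g4 l1 fun e he => by simp [he], g4 l2 fun e he => by simp [he], FreeGroup.mul_mk,
        FreeGroup.mul_mk, FreeGroup.mul_mk]
    have a4 : g (FreeGroup.mk (dinv d :: A)) = 1 := by
      rw [FGMerge_mk_cons, map_mul, mk_dinv, map_inv, g1, g4 A fun e he => by simp [he],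
        inv_mul_cancel]
    have a5 : g (FreeGroup.mk (dinv d' :: A')) = 1 := by
      rw [FGMerge_mk_cons, map_mul, mk_dinv, map_inv, g2, g4 A' fun e he => by simp [he],
        inv_mul_cancel]
    have a6 : (F.map fun r => FreeGroup.mk r.2).map g = F.map fun r => FreeGroup.mk r.2 := by
      rw [List.map_map]
      refine List.map_congr_left fun r hr => g4 r.2 fun e he => ?_
      exact List.mem_append_right _ (List.mem_flatten.2 ⟨r.2, List.mem_map_of_mem hr, he⟩)
    rw [a2, hF, List.map_cons, List.map_cons, List.map_cons, List.map_cons, List.map_cons, a3, a4,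
      a5, a6] at a1
    exact ((a1.perm (List.Perm.swap _ _ _)).drop_one.perm (List.Perm.swap _ _ _)).drop_one
  · unfold meas
    rw [hD, hF]
    simp only [List.length_append, List.length_cons]
    rw [Nat.mul_add, Nat.mul_add]
    omega

end FSt

end Pool.Agent.Lib.MP_66609f_al
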