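import Pool.Agent.Lib.MP_66609f_al.FGNielsen
import Pool.Agent.Lib.MP_66609f_al.FGCancel
import Pool.Agent.Lib.MP_66609f_al.FGFold
import Pool.Agent.Lib.MP_66609f_al.FGMerge
import Pool.Agent.Lib.MP_66609f_al.FGInit

namespace Pool.Agent.Lib.MP_66609f_al

theorem fgMain_rot {α : Type*} {l : List α} {a : α} (h : a ∈ l) : ∃ A, l.IsRotated (a :: A) := by
  obtain ⟨s, t, rfl⟩ := List.append_of_mem h
  exact ⟨t ++ s, List.isRotated_append⟩

theorem fgMain_step {X ι V : Type} [DecidableEq ι] [DecidableEq V] [Fintype X] {S : FSt X ι V}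
    {R : List (X × Bool)} {f0 : X → FreeGroup X} (hR : GoodQ R) (h : S.Valid R f0)
    (hD : S.D ≠ []) : ∃ S' : FSt X ι V, S'.Valid R f0 ∧ S'.meas R.length < S.meas R.length := by
  classical
  obtain ⟨l1, l2, d, d', h1, h2⟩ := S.exists_cancel S.D hD h.D_lab
  by_cases hd : d' = dinv d
  · subst hd
    exact FSt.step_cancel h h1
  have hne : d.1 ≠ d'.1 := by
    intro he
    have h3 : d' = d := by
      refine Prod.ext he.symm ?_
      by_contra h4
      exact hd (Prod.ext he.symm (Bool.eq_not.2 h4))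
    rw [h3] at h2
    have h4 : (S.dl d).2 = !(S.dl d).2 := congrArg Prod.snd h2
    exact (Bool.eq_not_self _).1 h4
  by_cases hs : ∀ r ∈ S.faces, ∀ r' ∈ S.faces, dinv d ∈ r.2 → dinv d' ∈ r'.2 → r.1 = r'.1
  · exact FSt.step_fold h h1 hne h2 hs
  push Not at hs
  obtain ⟨⟨ε, r⟩, hr, ⟨ε', r'⟩, hr', h3, h4, h5⟩ := hs
  obtain rfl : ε' = !ε := Bool.eq_not.2 fun h6 => h5 h6.symm
  have h6 : ((!ε, r') : Bool × List (ι × Bool)) ≠ (ε, r) := fun h7 =>
    h5 (congrArg Prod.fst h7).symm
  have h7 : S.faces.Perm ((ε, r) :: (!ε, r') :: (S.faces.erase (ε, r)).erase (!ε, r')) :=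
    (List.perm_cons_erase hr).trans
      ((List.perm_cons_erase ((List.mem_erase_of_ne h6).2 hr')).cons _)
  obtain ⟨A, hA⟩ := fgMain_rot h3
  obtain ⟨A', hA'⟩ := fgMain_rot h4
  have v1 := h.perm _ h7
  have v2 := v1.rotate_head rfl hA
  have v3 := v2.perm _ (List.Perm.swap _ _ _)
  have v4 := v3.rotate_head rfl hA'
  have v5 := v4.perm _ (List.Perm.swap _ _ _)
  obtain ⟨S', h8, h9⟩ := FSt.step_merge hR v5 h1 h2 rfl
  refine ⟨S', h8, h9.trans_eq ?_⟩
  simp only [FSt.meas, h7.length_eq, List.length_cons]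

theorem fgMain_ind {X ι V : Type} [DecidableEq ι] [DecidableEq V] [Fintype X] [DecidableEq X]
    {R : List (X × Bool)} {f0 : X → FreeGroup X} (hR : GoodQ R) (h5 : 5 ≤ Fintype.card X) (n : ℕ) :
    ∀ S : FSt X ι V, S.meas R.length < n → S.Valid R f0 → ∃ f : X → FreeGroup X, ShortQ R f ∧
      ∀ x, (f0 x)⁻¹ * f x ∈ Subgroup.normalClosure {FreeGroup.mk R} := by
  induction n with
  | zero => exact fun S hS => absurd hS (Nat.not_lt_zero _)
  | succ n ih =>
    intro S hS h
    by_cases hD : S.D = []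
    · exact FSt.end_short hR h5 h hD
    · obtain ⟨S', h1, h2⟩ := fgMain_step hR h hD
      exact ih S' (by omega) h1

theorem fgMain_marking (g : ℕ) :
    IsMarking (surfWord g) (PresentedGroup.of : Fin g × Bool → SurfaceGroup g) := by
  have h : FreeGroup.lift (PresentedGroup.of : Fin g × Bool → SurfaceGroup g) =
      QuotientGroup.mk' (Subgroup.normalClosure {surfRel g}) := by
    ext y
    rw [FreeGroup.lift_apply_of]
    rfl
  unfold IsMarking
  rw [h, mk_surfWord]
  exact ⟨QuotientGroup.mk'_surjective _, QuotientGroup.ker_mk' _⟩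

/-- Nielsen's lifting theorem, in the form needed here. -/
theorem exists_short_lift {X : Type} [Fintype X] [DecidableEq X] {R : List (X × Bool)}
    (hR : GoodQ R) (h5 : 5 ≤ Fintype.card X) (f0 : X → FreeGroup X) (hne : ∀ x, f0 x ≠ 1)
    (h : FreeGroup.lift f0 (FreeGroup.mk R) ∈ Subgroup.normalClosure {FreeGroup.mk R}) :
    ∃ f : X → FreeGroup X, ShortQ R f ∧
      ∀ x, (f0 x)⁻¹ * f x ∈ Subgroup.normalClosure {FreeGroup.mk R} := by
  obtain ⟨ι, V, S, hS⟩ := exists_init hR f0 hne h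
  classical
  exact fgMain_ind hR h5 _ S (Nat.lt_succ_self _) hS

theorem fg_mulAut_surface (g : ℕ) (hg : 3 ≤ g) : Group.FG (MulAut (SurfaceGroup g)) := by
  have : Nonempty (Fin g × Bool) := ⟨(⟨0, by omega⟩, false)⟩
  have hR := goodQ_surfWord g
  have hx := fgMain_marking g
  refine fg_of_lifts hR hx fun φ => ?_
  choose f0 hf0 using fun y => hx.1 (φ (PresentedGroup.of y))
  have hcomp : ∀ w, FreeGroup.lift (PresentedGroup.of : Fin g × Bool → SurfaceGroup g)
      (FreeGroup.lift f0 w) = φ (FreeGroup.lift PresentedGroup.of w) := by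
    intro w
    have h : (FreeGroup.lift (PresentedGroup.of : Fin g × Bool → SurfaceGroup g)).comp
        (FreeGroup.lift f0) = φ.toMonoidHom.comp (FreeGroup.lift PresentedGroup.of) := by
      ext y
      simp [hf0]
    exact DFunLike.congr_fun h w
  have hne : ∀ y, f0 y ≠ 1 := by
    intro y hy
    have h1 := hf0 y
    rw [hy, map_one] at h1
    exact (hx.comp φ).ne_one hR y h1.symm
  have hmem : FreeGroup.lift f0 (FreeGroup.mk (surfWord g)) ∈
      Subgroup.normalClosure {FreeGroup.mk (surfWord g)} := by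
    have h1 : FreeGroup.mk (surfWord g) ∈
        (FreeGroup.lift (PresentedGroup.of : Fin g × Bool → SurfaceGroup g)).ker := by
      rw [hx.2]
      exact Subgroup.subset_normalClosure rfl
    rw [← hx.2, MonoidHom.mem_ker, hcomp, MonoidHom.mem_ker.1 h1, map_one]
  obtain ⟨f, h1, h2⟩ := exists_short_lift hR
    (by rw [Fintype.card_prod, Fintype.card_fin, Fintype.card_bool]; omega) f0 hne hmem
  refine ⟨f, h1, fun y => ?_⟩
  have h3 := h2 y
  rw [← hx.2, MonoidHom.mem_ker, map_mul, map_inv, hf0, inv_mul_eq_one] at h3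
  exact h3.symm

theorem fg_of_ker_units {G : Type*} [Group G] [Group.FG G] (ε : G →* ℤˣ) : Group.FG ε.ker := by
  infer_instance

end Pool.Agent.Lib.MP_66609f_al
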