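import Pool.Agent.Lib.MP_66609f_al.FGQuad

namespace Pool.Agent.Lib.MP_66609f_al

open FreeGroup

section FGMeasAux

variable {X : Type*} [Fintype X] [DecidableEq X]

/-- One step of the numeral of a word. -/
noncomputable def FGMeas_step (acc : ℕ) (x : X × Bool) : ℕ :=
  acc * Fintype.card (X × Bool) + (Fintype.equivFin (X × Bool) x : ℕ)

/-- The numeral of a word. -/
noncomputable def FGMeas_code (l : List (X × Bool)) : ℕ := l.foldl FGMeas_step 0

omit [DecidableEq X] in
theorem FGMeas_foldl_lt (s : List (X × Bool)) {a a' : ℕ} (h : a < a') :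
    s.foldl FGMeas_step a < s.foldl FGMeas_step a' := by
  induction s generalizing a a' with
  | nil => exact h
  | cons x s ih =>
    refine ih (Nat.add_lt_add_right (Nat.mul_lt_mul_of_pos_right h ?_) _)
    exact Fintype.card_pos_iff.2 ⟨x⟩

omit [DecidableEq X] in
theorem FGMeas_foldl_inj (p q : List (X × Bool)) (hl : p.length = q.length) {a a' : ℕ}
    (h : p.foldl FGMeas_step a = q.foldl FGMeas_step a') : a = a' ∧ p = q := by
  induction p generalizing q a a' with
  | nil =>
    cases q with
    | nil => exact ⟨h, rfl⟩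
    | cons y q => simp at hl
  | cons x p ih =>
    cases q with
    | nil => simp at hl
    | cons y q =>
      obtain ⟨h1, h2⟩ := ih q (by simpa using hl) h
      have hx := (Fintype.equivFin (X × Bool) x).2
      have hy := (Fintype.equivFin (X × Bool) y).2
      have h3 := congrArg (· % Fintype.card (X × Bool)) h1
      simp only [FGMeas_step, Nat.mul_add_mod', Nat.mod_eq_of_lt hx, Nat.mod_eq_of_lt hy] at h3
      have h4 : x = y := (Fintype.equivFin (X × Bool)).injective (Fin.ext h3)
      subst h4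
      exact ⟨Nat.eq_of_mul_eq_mul_right (by omega) (Nat.add_right_cancel h1), by rw [h2]⟩

omit [DecidableEq X] in
theorem FGMeas_code_append {p q : List (X × Bool)} (h : FGMeas_code p < FGMeas_code q)
    (s : List (X × Bool)) : FGMeas_code (p ++ s) < FGMeas_code (q ++ s) := by
  simp only [FGMeas_code, List.foldl_append] at h ⊢
  exact FGMeas_foldl_lt s h

/-- The numeral of the first half of a reduced word. -/
noncomputable def FGMeas_key (g : FreeGroup X) : ℕ :=
  FGMeas_code (g.toWord.take ((g.norm + 1) / 2))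

/-- The position of the middle letter. -/
noncomputable def FGMeas_cut (g : FreeGroup X) : ℕ :=
  if g.norm % 2 = 1 ∨ FGMeas_key g < FGMeas_key g⁻¹ then g.norm / 2 else g.norm / 2 - 1

theorem FGMeas_key_ne {g : FreeGroup X} (hg : g ≠ 1) (he : g.norm % 2 = 0) :
    FGMeas_key g ≠ FGMeas_key g⁻¹ := by
  intro h
  obtain ⟨k, hk⟩ : ∃ k, g.toWord.length = 2 * k := ⟨g.norm / 2, by unfold FreeGroup.norm at he ⊢; omega⟩
  have e1 : (g.norm + 1) / 2 = k := by unfold FreeGroup.norm; omega
  have e2 : (invRev g.toWord).take k = invRev (g.toWord.drop k) := by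
    conv_lhs => rw [← List.take_append_drop k g.toWord, invRev_append]
    exact List.take_left' (by rw [invRev_length, List.length_drop]; omega)
  unfold FGMeas_key at h
  rw [norm_inv_eq, e1, toWord_inv, e2] at h
  have e3 := (FGMeas_foldl_inj _ _
    (by rw [invRev_length, List.length_drop, List.length_take]; omega) h).2
  refine hg ?_
  rw [← mk_toWord (x := g), ← List.take_append_drop k g.toWord, ← mul_mk, e3, ← inv_mk,
    inv_mul_cancel]

theorem FGMeas_cut_add {g : FreeGroup X} (hg : g ≠ 1) :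
    FGMeas_cut g + FGMeas_cut g⁻¹ + 1 = g.norm := by
  have h0 : g.norm ≠ 0 := fun h => hg (norm_eq_zero.1 h)
  unfold FGMeas_cut
  rw [inv_inv, norm_inv_eq]
  rcases Nat.mod_two_eq_zero_or_one g.norm with he | he
  · have := FGMeas_key_ne hg he
    split_ifs <;> omega
  · rw [if_pos (Or.inl he), if_pos (Or.inl he)]
    omega

theorem FGMeas_mid {g : FreeGroup X} (hg : g ≠ 1) (x y : X × Bool) :
    g.toWord = g.toWord.take (FGMeas_cut g) ++ g.toWord.getD (FGMeas_cut g) x ::
      invRev (g⁻¹.toWord.take (FGMeas_cut g⁻¹)) ∧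
    g⁻¹.toWord.getD (FGMeas_cut g⁻¹) y = dinv (g.toWord.getD (FGMeas_cut g) x) := by
  have h := FGMeas_cut_add hg
  rw [toWord_inv]
  unfold FreeGroup.norm at h
  generalize FGMeas_cut g = c at h ⊢
  generalize FGMeas_cut g⁻¹ = c' at h ⊢
  generalize g.toWord = w at h ⊢
  obtain ⟨u, z, v, rfl, hu⟩ : ∃ u z v, w = u ++ z :: v ∧ u.length = c :=
    ⟨w.take c, w[c]'(by omega), w.drop (c + 1), by simp, by rw [List.length_take]; omega⟩
  have hv : (invRev v).length = c' := by
    rw [List.length_append, List.length_cons] at h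
    rw [invRev_length]
    omega
  have e : invRev (u ++ z :: v) = invRev v ++ dinv z :: invRev u := by
    simp [invRev, dinv]
  rw [e, List.take_left' hu, List.take_left' hv, invRev_invRev, ← hu, ← hv]
  simp

/-- The measure. -/
noncomputable def FGMeas_mu (f : X → FreeGroup X) : ℕ ×ₗ ℕ :=
  toLex (∑ y, (f y).norm, ∑ y, (FGMeas_key (f y) + FGMeas_key (f y)⁻¹))

omit [Fintype X] [DecidableEq X] in
theorem FGMeas_val (f : X → FreeGroup X) (d : X × Bool) :
    lift f (mk [d]) = if d.2 then f d.1 else (f d.1)⁻¹ := by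
  obtain ⟨y, b⟩ := d
  cases b <;> simp

theorem FGMeas_sum (φ : FreeGroup X → ℕ) (hφ : ∀ g, φ g⁻¹ = φ g) (f : X → FreeGroup X)
    (a b : X × Bool) : ∑ y, φ (fMove a b f y) + φ (lift f (mk [b])) =
      ∑ y, φ (f y) + φ (lift f (mk [a]) * lift f (mk [b])) := by
  have h1 : φ (lift f (mk [b])) = φ (f b.1) := by
    rw [FGMeas_val]
    split_ifs
    · rfl
    · exact hφ _
  have h2 : φ (lift f (mk [a]) * lift f (mk [b])) = φ (fMove a b f b.1) := by
    rw [FGMeas_val f b, fMove, nuMove, if_pos rfl]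
    split_ifs
    · rw [_root_.map_mul, lift_apply_of]
    · rw [_root_.map_mul, lift_apply_of, _root_.map_inv, ← hφ, mul_inv_rev, inv_inv]
  have h3 : ∑ y ∈ Finset.univ.erase b.1, φ (fMove a b f y) =
      ∑ y ∈ Finset.univ.erase b.1, φ (f y) :=
    Finset.sum_congr rfl fun y hy => by
      rw [fMove, nuMove, if_neg (Finset.ne_of_mem_erase hy), lift_apply_of]
  rw [h1, h2, ← Finset.add_sum_erase _ _ (Finset.mem_univ b.1),
    ← Finset.add_sum_erase _ (fun y => φ (f y)) (Finset.mem_univ b.1), h3]
  omega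

theorem FGMeas_move {f : X → FreeGroup X} {a b : X × Bool}
    (h : ¬ FGMeas_mu (fMove a b f) < FGMeas_mu f) :
    (lift f (mk [b])).norm ≤ (lift f (mk [a]) * lift f (mk [b])).norm ∧
    ((lift f (mk [a]) * lift f (mk [b])).norm = (lift f (mk [b])).norm →
      FGMeas_key (lift f (mk [b])) + FGMeas_key (lift f (mk [b]))⁻¹ ≤
        FGMeas_key (lift f (mk [a]) * lift f (mk [b])) +
          FGMeas_key (lift f (mk [a]) * lift f (mk [b]))⁻¹) := by
  have h1 := FGMeas_sum FreeGroup.norm (fun _ => norm_inv_eq) f a b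
  have h2 := FGMeas_sum (fun g => FGMeas_key g + FGMeas_key g⁻¹)
    (fun g => by simp only [inv_inv, add_comm]) f a b
  simp only [FGMeas_mu, Prod.Lex.toLex_lt_toLex] at h
  omega

/-- The middle letter of `α` does not cancel in `α * β`. -/
theorem FGMeas_main {α β : FreeGroup X} (hα : α ≠ 1) (h1 : β.norm ≤ (α * β).norm)
    (h2 : α.norm ≤ (α * β).norm)
    (h3 : (α * β).norm = β.norm →
      FGMeas_key β + FGMeas_key β⁻¹ ≤ FGMeas_key (α * β) + FGMeas_key (α * β)⁻¹) (x : X × Bool) :
    ¬ (α⁻¹.toWord.take (FGMeas_cut α⁻¹) ++ [α⁻¹.toWord.getD (FGMeas_cut α⁻¹) x] <+: β.toWord) := by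
  rintro ⟨t, ht⟩
  have hm := (FGMeas_mid (inv_ne_one.2 hα) x x).1
  have hc := FGMeas_cut_add hα
  rw [inv_inv] at hm
  obtain ⟨q, hq⟩ : ∃ q, q = α⁻¹.toWord.take (FGMeas_cut α⁻¹) ++
    [α⁻¹.toWord.getD (FGMeas_cut α⁻¹) x] := ⟨_, rfl⟩
  obtain ⟨p, hp⟩ : ∃ p, p = α.toWord.take (FGMeas_cut α) := ⟨_, rfl⟩
  have hA : α⁻¹.toWord = q ++ invRev p := by
    rw [hq, hp, List.append_assoc, List.singleton_append]
    exact hm
  rw [← hq] at ht
  have hlq : q.length = FGMeas_cut α⁻¹ + 1 := by
    have : α⁻¹.toWord.length = α.norm := norm_inv_eq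
    rw [hq, List.length_append, List.length_take, List.length_singleton]
    omega
  have hlp : p.length = FGMeas_cut α := by
    have : α.toWord.length = α.norm := rfl
    rw [hp, List.length_take]
    omega
  have hA' : α.toWord = p ++ invRev q := by
    rw [← inv_inv α, toWord_inv, hA, invRev_append, invRev_invRev]
  have hab : α * β = mk (p ++ t) := by
    rw [← mk_toWord (x := α), ← mk_toWord (x := β), hA', ← ht, ← mul_mk, ← mul_mk, ← mul_mk,
      ← inv_mk, mul_assoc, inv_mul_cancel_left]
  have hβ : β.norm = q.length + t.length := by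
    unfold FreeGroup.norm
    rw [← ht, List.length_append]
  have hle : (α * β).norm ≤ p.length + t.length := by
    rw [hab, ← List.length_append]
    exact norm_mk_le
  have hcut : α.norm = 2 * p.length ∧ q.length = p.length ∧ FGMeas_key α < FGMeas_key α⁻¹ := by
    have e1 : FGMeas_cut α = _ := rfl
    have e2 : FGMeas_cut α⁻¹ = _ := rfl
    conv at e1 => rhs; unfold FGMeas_cut
    conv at e2 => rhs; unfold FGMeas_cut
    rw [inv_inv, norm_inv_eq] at e2
    split_ifs at e1 e2 <;> omega
  obtain ⟨c1, c2, c3⟩ := hcut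
  have hn : (α * β).norm = p.length + t.length := by omega
  have hw : (α * β).toWord = p ++ t := by
    refine List.Sublist.eq_of_length ?_ (by rw [List.length_append]; exact hn)
    rw [hab, toWord_mk]
    exact reduce.red.sublist
  have hk : FGMeas_code p < FGMeas_code q := by
    have e : (α.norm + 1) / 2 = p.length := by omega
    unfold FGMeas_key at c3
    rwa [norm_inv_eq, e, hA, hA', List.take_left' rfl, List.take_left' c2] at c3
  obtain ⟨j, hj⟩ : ∃ j, (p.length + t.length + 1) / 2 = p.length + j :=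
    ⟨(p.length + t.length + 1) / 2 - p.length, by omega⟩
  have k1 : FGMeas_key (α * β) < FGMeas_key β := by
    unfold FGMeas_key
    rw [hn, hβ, c2, hj, hw, ← ht, List.take_length_add_append, ← c2, List.take_length_add_append]
    exact FGMeas_code_append hk _
  have k2 : FGMeas_key (α * β)⁻¹ = FGMeas_key β⁻¹ := by
    have e : p.length + j ≤ (invRev t).length := by
      rw [invRev_length]
      omega
    unfold FGMeas_key
    rw [norm_inv_eq, norm_inv_eq, hn, hβ, c2, hj, toWord_inv, toWord_inv, hw, ← ht, invRev_append,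
      invRev_append, List.take_append_of_le_length e, List.take_append_of_le_length e]
  have := h3 (by omega)
  omega

end FGMeasAux

/-- Nielsen's measure: if no move decreases it, middle letters never cancel. -/
theorem exists_meas (X : Type*) [Fintype X] [DecidableEq X] :
    ∃ μ : (X → FreeGroup X) → ℕ ×ₗ ℕ, ∀ f : X → FreeGroup X, (∀ y, f y ≠ 1) →
      ∃ (Lp : X × Bool → List (X × Bool)) (xm : X × Bool → X × Bool), IsMid f Lp xm ∧
        ∀ a b : X × Bool, a.1 ≠ b.1 → ¬ μ (fMove a b f) < μ f →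
          ¬ μ (fMove (dinv b) (dinv a) f) < μ f →
          ¬ (Lp (dinv a) ++ [xm (dinv a)] <+: (FreeGroup.lift f (FreeGroup.mk [b])).toWord) := by
  refine ⟨FGMeas_mu, fun f hf => ?_⟩
  have hne : ∀ d, lift f (mk [d]) ≠ 1 := fun d => by
    rw [FGMeas_val]
    split_ifs
    · exact hf _
    · exact inv_ne_one.2 (hf _)
  have hinv : ∀ d, lift f (mk [dinv d]) = (lift f (mk [d]))⁻¹ := fun d => by
    rw [mk_dinv, _root_.map_inv]
  refine ⟨fun d => (lift f (mk [d])).toWord.take (FGMeas_cut (lift f (mk [d]))),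
    fun d => (lift f (mk [d])).toWord.getD (FGMeas_cut (lift f (mk [d]))) d, fun d => ?_,
    fun a b _ h1 h2 => ?_⟩
  · simp only [hinv]
    exact FGMeas_mid (hne d) d (dinv d)
  · have h3 := (FGMeas_move h2).1
    rw [hinv, hinv, ← mul_inv_rev, norm_inv_eq, norm_inv_eq] at h3
    simp only [hinv]
    exact FGMeas_main (hne a) (FGMeas_move h1).1 h3 (FGMeas_move h1).2 (dinv a)

end Pool.Agent.Lib.MP_66609f_al
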