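import Pool.Agent.Lib.MP_66609f_al.FGQuad

namespace Pool.Agent.Lib.MP_66609f_al

variable {X : Type*} [DecidableEq X]

/-- Cyclically reduced words are shortest in their conjugacy class. -/
theorem length_le_norm_of_conj {L : List (X × Bool)} (hL : FreeGroup.IsCyclicallyReduced L)
    (u w : FreeGroup X) (h : FreeGroup.mk L = u * w * u⁻¹) : L.length ≤ w.norm := by
  have h1 : ∀ n : ℕ, (FreeGroup.mk L ^ n).norm = n * L.length := by
    intro n
    rw [FreeGroup.pow_mk, FreeGroup.norm, FreeGroup.toWord_mk,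
      (hL.flatten_replicate n).isReduced.reduce_eq]
    simp
  have h2 : ∀ n : ℕ, (w ^ n).norm ≤ n * w.norm := by
    intro n
    induction n with
    | zero => simp
    | succ n ih =>
      rw [pow_succ, Nat.succ_mul]
      exact (FreeGroup.norm_mul_le _ _).trans (Nat.add_le_add_right ih _)
  by_contra hcon
  have h3 := h1 (2 * u.norm + 1)
  rw [h, conj_pow] at h3
  have h4 := FreeGroup.norm_mul_le (u * w ^ (2 * u.norm + 1)) u⁻¹
  have h5 := FreeGroup.norm_mul_le u (w ^ (2 * u.norm + 1))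
  have h6 := h2 (2 * u.norm + 1)
  rw [FreeGroup.norm_inv_eq] at h4
  have h7 : (2 * u.norm + 1) * (w.norm + 1) ≤ (2 * u.norm + 1) * L.length :=
    Nat.mul_le_mul_left _ (by omega)
  rw [Nat.mul_add, Nat.mul_one] at h7
  omega

theorem fgTerm_red_invRev {L : List (X × Bool)} (h : FreeGroup.IsReduced L) :
    FreeGroup.IsReduced (FreeGroup.invRev L) := by
  rw [FreeGroup.isReduced_iff_reduce_eq, FreeGroup.reduce_invRev, h.reduce_eq]

theorem fgTerm_junction {c c' : X × Bool} {U V : List (X × Bool)}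
    (hU : FreeGroup.IsReduced (c :: U)) (hV : FreeGroup.IsReduced (c' :: V)) (hne : c ≠ c') :
    FreeGroup.IsReduced (FreeGroup.invRev (c :: U) ++ c' :: V) := by
  refine List.isChain_append.2 ⟨fgTerm_red_invRev hU, hV, fun x hx y hy h1 => ?_⟩
  rw [FreeGroup.invRev_cons, List.getLast?_append] at hx
  have hx' : x = (c.1, !c.2) := by
    simpa [FreeGroup.invRev, eq_comm] using hx
  have hy' : y = c' := by simpa [eq_comm] using hy
  subst hx' hy'
  obtain ⟨c1, c2⟩ := c
  obtain ⟨y1, y2⟩ := y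
  simp only at h1 ⊢
  subst h1
  cases c2 <;> cases y2 <;> simp at hne ⊢

omit [DecidableEq X] in
theorem fgTerm_invRev_concat (A : List (X × Bool)) (x : X × Bool) :
    FreeGroup.invRev (A ++ [x]) = dinv x :: FreeGroup.invRev A := by
  rw [FreeGroup.invRev_append]
  rfl

/-- Cancellation between two initial parts leaves the middle letters. -/
theorem fgTerm_key (x y : X × Bool) (A : List (X × Bool)) : ∀ B : List (X × Bool),
    FreeGroup.IsReduced (A ++ [x]) → FreeGroup.IsReduced (B ++ [y]) → ¬ (A ++ [x] <+: B ++ [y]) →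
      ¬ (B ++ [y] <+: A ++ [x]) → ∃ J : List (X × Bool),
        FreeGroup.mk J = (FreeGroup.mk A)⁻¹ * FreeGroup.mk B ∧
          FreeGroup.IsReduced (dinv x :: J ++ [y]) := by
  have gen : ∀ A B : List (X × Bool), FreeGroup.IsReduced (FreeGroup.invRev (A ++ [x]) ++
      (B ++ [y])) → ∃ J : List (X × Bool),
        FreeGroup.mk J = (FreeGroup.mk A)⁻¹ * FreeGroup.mk B ∧
          FreeGroup.IsReduced (dinv x :: J ++ [y]) := by
    intro A B h
    refine ⟨FreeGroup.invRev A ++ B, by rw [FreeGroup.inv_mk, FreeGroup.mul_mk], ?_⟩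
    rw [fgTerm_invRev_concat, ← List.append_assoc] at h
    exact h
  induction A with
  | nil =>
    intro B hA hB h1 _
    refine gen [] B ?_
    cases B with
    | nil => exact fgTerm_junction hA hB fun e => h1 (by rw [e])
    | cons c B =>
      refine fgTerm_junction hA hB fun e => h1 ?_
      rw [e]
      exact ⟨B ++ [y], rfl⟩
  | cons c A ih =>
    intro B hA hB h1 h2
    cases B with
    | nil =>
      refine gen (c :: A) [] (fgTerm_junction hA hB fun e => h2 ?_)
      rw [e]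
      exact ⟨A ++ [x], rfl⟩
    | cons c' B =>
      by_cases e : c = c'
      · subst e
        obtain ⟨J, hJ, hr⟩ := ih B (List.isChain_cons.1 hA).2 (List.isChain_cons.1 hB).2
          (fun h => h1 (List.cons_prefix_cons.2 ⟨rfl, h⟩))
          (fun h => h2 (List.cons_prefix_cons.2 ⟨rfl, h⟩))
        refine ⟨J, ?_, hr⟩
        have e1 : FreeGroup.mk (c :: A) = FreeGroup.mk [c] * FreeGroup.mk A := rfl
        have e2 : FreeGroup.mk (c :: B) = FreeGroup.mk [c] * FreeGroup.mk B := rfl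
        rw [hJ, e1, e2]
        group
      · exact gen (c :: A) (c' :: B) (fgTerm_junction hA hB e)

theorem fgTerm_chain_iff {α : Type*} (R : α → α → Prop) (a : α) (l : List α) :
    List.IsChain R (a :: l ++ [a]) ↔ ∀ x y, CAdj (a :: l) x y → R x y := by
  rw [List.isChain_iff_forall_rel_of_append_cons_cons]
  constructor
  · rintro h x y (⟨l1, l2, e⟩ | ⟨h1, h2⟩)
    · exact h (l₁ := l1) (l₂ := l2 ++ [a]) (by rw [e]; simp)
    · have e2 : a = y := by simpa using h2
      obtain ⟨l', e⟩ := List.getLast?_eq_some_iff.1 h1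
      exact h (l₁ := l') (l₂ := []) (by rw [e, e2]; simp)
  · intro h x y l1 l2 e
    apply h
    rcases List.eq_nil_or_concat l2 with rfl | ⟨l2', z, rfl⟩
    · have e' : (a :: l) ++ [a] = (l1 ++ [x]) ++ [y] := by rw [e]; simp
      obtain ⟨e1, e2⟩ := List.append_inj' e' rfl
      have e3 : a = y := by simpa using e2
      exact Or.inr ⟨by rw [e1]; simp, by rw [e3]; rfl⟩
    · have e' : (a :: l) ++ [a] = (l1 ++ x :: y :: l2') ++ [z] := by rw [e]; simp
      exact Or.inl ⟨l1, l2', (List.append_inj' e' rfl).1⟩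

theorem fgTerm_val {f : X → FreeGroup X} {Lp : X × Bool → List (X × Bool)}
    {xm : X × Bool → X × Bool} (hm : IsMid f Lp xm) (d : X × Bool) :
    FreeGroup.lift f (FreeGroup.mk [d]) =
      FreeGroup.mk (Lp d) * FreeGroup.mk [xm d] * (FreeGroup.mk (Lp (dinv d)))⁻¹ := by
  rw [← FreeGroup.mk_toWord (x := FreeGroup.lift f (FreeGroup.mk [d])), (hm d).1,
    FreeGroup.inv_mk, FreeGroup.mul_mk, FreeGroup.mul_mk]
  simp

theorem fgTerm_chain {f : X → FreeGroup X} {Lp : X × Bool → List (X × Bool)}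
    {xm : X × Bool → X × Bool} (hm : IsMid f Lp xm) (c : X × Bool) (l : List (X × Bool)) :
    ∀ a : X × Bool, List.IsChain (fun a b => ∃ J : List (X × Bool),
      FreeGroup.mk J = (FreeGroup.mk (Lp (dinv a)))⁻¹ * FreeGroup.mk (Lp b) ∧
        FreeGroup.IsReduced (xm a :: J ++ [xm b])) (a :: l ++ [c]) →
      ∃ Ω : List (X × Bool), FreeGroup.IsReduced (xm a :: Ω ++ [xm c]) ∧
        FreeGroup.mk (xm a :: Ω) = (FreeGroup.mk (Lp a))⁻¹ *
          FreeGroup.lift f (FreeGroup.mk (a :: l)) * FreeGroup.mk (Lp c) ∧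
        l.length ≤ Ω.length ∧ (Ω.length ≤ l.length → List.IsChain
          (fun a b => FreeGroup.mk (Lp (dinv a)) = FreeGroup.mk (Lp b)) (a :: l ++ [c])) := by
  have hnil : ∀ a b : X × Bool,
      FreeGroup.mk [] = (FreeGroup.mk (Lp (dinv a)))⁻¹ * FreeGroup.mk (Lp b) →
        FreeGroup.mk (Lp (dinv a)) = FreeGroup.mk (Lp b) := by
    intro a b h
    exact inv_mul_eq_one.1 h.symm
  induction l with
  | nil =>
    intro a h
    obtain ⟨J, hJ, hr⟩ := (List.isChain_cons_cons.1 h).1
    refine ⟨J, hr, ?_, Nat.zero_le _, fun hl => ?_⟩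
    · have e1 : FreeGroup.mk (xm a :: J) = FreeGroup.mk [xm a] * FreeGroup.mk J := rfl
      rw [e1, hJ, fgTerm_val hm]
      group
    · rw [List.length_eq_zero_iff.1 (Nat.le_zero.1 hl)] at hJ
      exact List.isChain_cons_cons.2 ⟨hnil _ _ hJ, List.isChain_singleton _⟩
  | cons b l ih =>
    intro a h
    obtain ⟨⟨J, hJ, hr⟩, h'⟩ := List.isChain_cons_cons.1 h
    obtain ⟨Ω, h1, h2, h3, h4⟩ := ih b h'
    refine ⟨J ++ xm b :: Ω, ?_, ?_, ?_, fun hl => ?_⟩
    · have h5 := FreeGroup.IsReduced.append_overlap (L₁ := xm a :: J) (L₂ := [xm b])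
        (L₃ := Ω ++ [xm c]) hr h1 (List.cons_ne_nil _ _)
      simpa using h5
    · have e1 : FreeGroup.mk (xm a :: (J ++ xm b :: Ω)) =
          FreeGroup.mk [xm a] * (FreeGroup.mk J * FreeGroup.mk (xm b :: Ω)) := rfl
      have e2 : FreeGroup.mk (a :: b :: l) = FreeGroup.mk [a] * FreeGroup.mk (b :: l) := rfl
      rw [e1, e2, map_mul, hJ, h2, fgTerm_val hm]
      group
    · rw [List.length_append, List.length_cons, List.length_cons]
      omega
    · rw [List.length_append, List.length_cons, List.length_cons] at hl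
      have hJ0 : J.length = 0 := by omega
      rw [List.length_eq_zero_iff.1 hJ0] at hJ
      exact List.isChain_cons_cons.2 ⟨hnil _ _ hJ, h4 (by omega)⟩

theorem terminal_of_mid {Q : List (X × Bool)} (hQ : GoodQ Q) {f : X → FreeGroup X}
    (hf : ShortQ Q f) {Lp : X × Bool → List (X × Bool)} {xm : X × Bool → X × Bool}
    (hm : IsMid f Lp xm)
    (h : ∀ a b, CAdj Q a b →
      ¬ (Lp (dinv a) ++ [xm (dinv a)] <+: (FreeGroup.lift f (FreeGroup.mk [b])).toWord) ∧
      ¬ (Lp b ++ [xm b] <+: (FreeGroup.lift f (FreeGroup.mk [dinv a])).toWord)) :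
    Terminal f := by
  have hpre : ∀ d, Lp d ++ [xm d] <+: (FreeGroup.lift f (FreeGroup.mk [d])).toWord := by
    intro d
    rw [(hm d).1]
    exact ⟨FreeGroup.invRev (Lp (dinv d)), by simp⟩
  have hred : ∀ d, FreeGroup.IsReduced (Lp d ++ [xm d]) := by
    intro d
    obtain ⟨t, ht⟩ := hpre d
    have h0 := FreeGroup.isReduced_toWord (x := FreeGroup.lift f (FreeGroup.mk [d]))
    rw [← ht] at h0
    exact (List.isChain_append.1 h0).1
  cases Q with
  | nil => exact ⟨1, fun y => absurd (hQ.2.1 (y, true)) List.not_mem_nil⟩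
  | cons a l =>
    obtain ⟨Ω, h1, h2, -, h4⟩ := fgTerm_chain hm a l a ((fgTerm_chain_iff _ a l).2 (by
      intro x y hxy
      obtain ⟨J, hJ, hr⟩ := fgTerm_key (xm (dinv x)) (xm y) (Lp (dinv x)) (Lp y) (hred _) (hred _)
        (fun hp => (h x y hxy).1 (hp.trans (hpre y)))
        (fun hp => (h x y hxy).2 (hp.trans (hpre (dinv x))))
      rw [(hm x).2, dinv_dinv] at hr
      exact ⟨J, hJ, hr⟩))
    obtain ⟨u, w, hu, hw⟩ := hf
    have hc : FreeGroup.IsCyclicallyReduced (xm a :: Ω) := by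
      obtain ⟨h5, -, h6⟩ := List.isChain_append.1 h1
      exact ⟨h5, h6⟩
    have h7 := length_le_norm_of_conj hc ((FreeGroup.mk (Lp a))⁻¹ * u) w (by
      rw [h2, hu]
      group)
    rw [List.length_cons] at h7 hw
    have h8 := (fgTerm_chain_iff _ a l).1 (h4 (by omega))
    have h9 := hQ.2.2 {d | FreeGroup.mk (Lp d) = FreeGroup.mk (Lp a)} ⟨a, rfl⟩ (by
      intro x y hx hxy
      have h10 := h8 _ _ hxy
      rw [dinv_dinv] at h10
      exact h10.symm.trans hx)
    have h11 : ∀ d, FreeGroup.mk (Lp d) = FreeGroup.mk (Lp a) := fun d =>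
      (Set.eq_univ_iff_forall.1 h9) d
    refine ⟨FreeGroup.mk (Lp a), fun y => ⟨xm (y, true), ?_⟩⟩
    have h12 := fgTerm_val hm (y, true)
    rw [h11, h11 (dinv (y, true))] at h12
    rw [← h12]
    exact (FreeGroup.lift_apply_of).symm

end Pool.Agent.Lib.MP_66609f_al
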