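import Pool.Agent.Lib.MP_66609f_al.FGMove
import Pool.Agent.Lib.MP_66609f_al.FGMeas
import Pool.Agent.Lib.MP_66609f_al.FGTerm
import Pool.Agent.Lib.MP_66609f_al.FGGrp

namespace Pool.Agent.Lib.MP_66609f_al

theorem fgNielsen_lift {X G G' : Type*} [Group G] [Group G'] (h : G →* G') (f : X → G)
    (w : FreeGroup X) : FreeGroup.lift (fun y => h (f y)) w = h (FreeGroup.lift f w) := by
  have : FreeGroup.lift (fun y => h (f y)) = h.comp (FreeGroup.lift f) := by
    ext y
    simp
  rw [this]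
  rfl

theorem fgNielsen_fMove {X G G' : Type*} [DecidableEq X] [Group G] [Group G'] (h : G →* G')
    (a b : X × Bool) (f : X → G) (y : X) :
    fMove a b (fun y => h (f y)) y = h (fMove a b f y) := fgNielsen_lift h f _

theorem fgNielsen_move1 {X H : Type*} [Fintype X] [DecidableEq X] [Nonempty X] [Group H]
    {Q : List (X × Bool)} (hQ : GoodQ Q) {a b : X × Bool} (hab : CAdj Q a b) :
    ∃ Q', GoodQ Q' ∧ (∀ f : X → H, IsMarking Q f → IsMarking Q' (fMove a b f)) ∧
      ∀ g, ShortQ Q g → ShortQ Q' (fMove a b g) := by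
  have h2 : 2 ≤ Q.length := by
    have := hQ.length_eq
    have := Fintype.card_pos (α := X)
    omega
  obtain ⟨rest, hr⟩ := exists_rotate_of_cadj hab h2
  have hQ' := hQ.rotate hr
  have hne := hQ.fst_ne hab
  have hm : dinv b ∈ rest := by
    have := hQ'.2.1 (dinv b)
    simp only [List.mem_cons] at this
    rcases this with h | h | h
    · exact absurd (congrArg Prod.fst h).symm hne
    · have := congrArg Prod.snd h
      simp [dinv] at this
    · exact h
  obtain ⟨r1, r2, rfl⟩ := List.append_of_mem hm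
  exact ⟨_, goodQ_move hQ', fun f hf => (hf.rotate hr).move hQ',
    fun g hg => (hg.rotate hr).move hQ'⟩

theorem fgNielsen_move {X H : Type*} [Fintype X] [DecidableEq X] [Nonempty X] [Group H]
    {Q : List (X × Bool)} (hQ : GoodQ Q) {a b : X × Bool}
    (hab : CAdj Q a b ∨ CAdj Q (dinv b) (dinv a)) :
    ∃ Q', GoodQ Q' ∧ (∀ f : X → H, IsMarking Q f → IsMarking Q' (fMove a b f)) ∧
      ∀ g, ShortQ Q g → ShortQ Q' (fMove a b g) := by
  rcases hab with hab | hab
  · exact fgNielsen_move1 hQ hab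
  · obtain ⟨Q', h1, h2, h3⟩ := fgNielsen_move1 (H := H) hQ.invRev (cadj_invRev.2 hab)
    exact ⟨Q', h1, fun f hf => h2 f hf.invRev, fun g hg => h3 g hg.invRev⟩

/-- Markings all of whose images have a lift with short relator. -/
def FgNielsenV {X H : Type*} [DecidableEq X] [Group H] (x : X → H) : Type _ :=
  {p : List (X × Bool) × (X → H) // GoodQ p.1 ∧ IsMarking p.1 p.2 ∧
    ∀ φ : MulAut H, ∃ g : X → FreeGroup X, ShortQ p.1 g ∧
      ∀ y, FreeGroup.lift x (g y) = φ (p.2 y)}

instance fgNielsenAct {X H : Type*} [DecidableEq X] [Group H] (x : X → H) :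
    MulAction (MulAut H) (FgNielsenV x) where
  smul φ v := ⟨(v.1.1, fun y => φ (v.1.2 y)), v.2.1, v.2.2.1.comp φ, fun ψ => v.2.2.2 (ψ * φ)⟩
  one_smul _ := rfl
  mul_smul _ _ _ := rfl

theorem fgNielsen_finite {X H : Type*} [Fintype X] [DecidableEq X] [Group H] (x : X → H)
    {F : Set (X → H)} (hF : F.Finite) : {v : FgNielsenV x | v.1.2 ∈ F}.Finite := by
  have h1 := (List.finite_length_eq (X × Bool) (2 * Fintype.card X)).prod hF
  refine (h1.preimage (f := fun v : FgNielsenV x => v.1)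
    (Subtype.val_injective.injOn)).subset fun v hv => ?_
  exact ⟨v.2.1.length_eq, hv⟩

/-- If every automorphism has a lift with short relator, the automorphism group is finitely
generated. -/
theorem fg_of_lifts {X H : Type*} [Fintype X] [DecidableEq X] [Nonempty X] [Group H]
    {R : List (X × Bool)} (hR : GoodQ R) {x : X → H} (hx : IsMarking R x)
    (hl : ∀ φ : MulAut H, ∃ f : X → FreeGroup X, ShortQ R f ∧
      ∀ y, FreeGroup.lift x (f y) = φ (x y)) : Group.FG (MulAut H) := by
  classical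
  have : Nonempty (FgNielsenV x) := ⟨⟨(R, x), hR, hx, hl⟩⟩
  have : Group.FG H := Group.fg_of_surjective hx.1
  have hT : {Q : List (X × Bool) | ∃ v : FgNielsenV x, v.1.1 = Q}.Finite :=
    (List.finite_length_eq (X × Bool) (2 * Fintype.card X)).subset fun Q ⟨v, hv⟩ => by
      rw [← hv]
      exact v.2.1.length_eq
  have := hT.to_subtype
  choose o ho using fun Q : {Q : List (X × Bool) | ∃ v : FgNielsenV x, v.1.1 = Q} => Q.2
  refine fg_of_reach (Vt := FgNielsenV x) (fun φ v h => ?_) (Set.range o) (Set.finite_range o)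
    (fun v => ?_) (fun v v' => ∃ a b, v'.1.2 = fMove a b v.1.2) ?_ (fun v => ?_)
    (MulAut.conj : H →* MulAut H).range
    ((Group.fg_iff_subgroup_fg _).1 (Group.fg_range _))
    {v | v.1.2 ∈ Set.range fun l : X → X × Bool => fun y => FreeGroup.lift x (FreeGroup.mk [l y])}
    (fgNielsen_finite x (Set.finite_range _)) (fun v => ?_)
  · exact v.2.2.1.aut_eq_one φ fun y => congrFun (congrArg (fun w : FgNielsenV x => w.1.2) h) y
  · have h1 := ho ⟨v.1.1, v, rfl⟩
    have h2 := (o ⟨v.1.1, v, rfl⟩).2.2.1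
    rw [h1] at h2
    obtain ⟨φ, hφ⟩ := h2.exists_aut v.2.2.1
    exact ⟨_, ⟨⟨v.1.1, v, rfl⟩, rfl⟩, φ, Subtype.ext (Prod.ext h1.symm (funext fun y => (hφ y).symm))⟩
  · rintro φ v v' ⟨a, b, h⟩
    refine ⟨a, b, funext fun y => ?_⟩
    change φ (v'.1.2 y) = fMove a b (fun y => φ.toMonoidHom (v.1.2 y)) y
    rw [fgNielsen_fMove, h]
    rfl
  · refine (fgNielsen_finite x (Set.finite_range
      fun p : (X × Bool) × (X × Bool) => fMove p.1 p.2 v.1.2)).subset ?_
    rintro v' ⟨a, b, h⟩
    exact ⟨(a, b), h.symm⟩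
  · obtain ⟨μ, hμ⟩ := exists_meas X
    obtain ⟨g, hg, hgx⟩ := v.2.2.2 1
    simp only [MulAut.one_apply] at hgx
    induction g using (InvImage.wf μ wellFounded_lt).induction generalizing v with
    | _ g ih =>
      by_cases hm : ∃ a b, (CAdj v.1.1 a b ∨ CAdj v.1.1 (dinv b) (dinv a)) ∧
          μ (fMove a b g) < μ g
      · obtain ⟨a, b, hab, hlt⟩ := hm
        obtain ⟨Q', h1, h2, h3⟩ := fgNielsen_move (H := H) v.2.1 hab
        have key : ∀ (φ : MulAut H) (g : X → FreeGroup X),
            (∀ y, FreeGroup.lift x (g y) = φ (v.1.2 y)) →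
            ∀ y, FreeGroup.lift x (fMove a b g y) = φ (fMove a b v.1.2 y) := by
          intro φ g hg y
          rw [← fgNielsen_fMove, funext hg]
          exact fgNielsen_fMove φ.toMonoidHom a b v.1.2 y
        let v' : FgNielsenV x := ⟨(Q', fMove a b v.1.2), h1, h2 _ v.2.2.1, fun φ => by
          obtain ⟨g', hg', hg''⟩ := v.2.2.2 φ
          exact ⟨_, h3 _ hg', key φ g' hg''⟩⟩
        obtain ⟨w, hw, φ, hφ, hr⟩ := ih (fMove a b g) hlt v' (h3 _ hg) (key 1 g hgx)
        exact ⟨w, hw, φ, hφ, Relation.ReflTransGen.head ⟨a, b, rfl⟩ hr⟩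
      · have hne : ∀ y, g y ≠ 1 := fun y h => v.2.2.1.ne_one v.2.1 y (by rw [← hgx, h, map_one])
        obtain ⟨Lp, xm, hmid, hstop⟩ := hμ g hne
        obtain ⟨p, hp⟩ := terminal_of_mid v.2.1 hg hmid fun a b hab => by
          have h1 : ¬ μ (fMove a b g) < μ g := fun h => hm ⟨a, b, Or.inl hab, h⟩
          have h2 : ¬ μ (fMove (dinv b) (dinv a) g) < μ g := fun h =>
            hm ⟨dinv b, dinv a, Or.inr (by rwa [dinv_dinv, dinv_dinv]), h⟩
          have h3 := v.2.1.fst_ne hab
          refine ⟨hstop a b h3 h1 h2, ?_⟩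
          have := hstop (dinv b) (dinv a) h3.symm h2 (by rwa [dinv_dinv, dinv_dinv])
          rwa [dinv_dinv] at this
        choose l hl using hp
        refine ⟨(MulAut.conj (FreeGroup.lift x p))⁻¹ • v, ⟨l, funext fun y => ?_⟩,
          MulAut.conj (FreeGroup.lift x p), ⟨_, rfl⟩, ?_⟩
        · change FreeGroup.lift x (FreeGroup.mk [l y]) =
            (MulAut.conj (FreeGroup.lift x p))⁻¹ (v.1.2 y)
          rw [← hgx, hl, MulAut.conj_inv_apply, map_mul, map_mul, map_inv]
          group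
        · rw [smul_inv_smul]

end Pool.Agent.Lib.MP_66609f_al
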