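import Pool.Agent.Lib.MP_66609f_al.FGDefs

namespace Pool.Agent.Lib.MP_66609f_al

theorem dinv_dinv {α : Type*} (d : α × Bool) : dinv (dinv d) = d := by
  obtain ⟨x, b⟩ := d
  simp [dinv]

theorem mk_dinv {α : Type*} (d : α × Bool) :
    FreeGroup.mk [dinv d] = (FreeGroup.mk [d])⁻¹ := by
  rw [FreeGroup.inv_mk]
  rfl

theorem fgQuad_dinv_ne {α : Type*} (d : α × Bool) : dinv d ≠ d := by
  obtain ⟨x, b⟩ := d
  cases b <;> simp [dinv]

theorem fgQuad_dinv_inj {α : Type*} : Function.Injective (dinv : α × Bool → α × Bool) :=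
  Function.LeftInverse.injective dinv_dinv

theorem fgQuad_invRev {α : Type*} (l : List (α × Bool)) :
    FreeGroup.invRev l = (l.map dinv).reverse := rfl

theorem fgQuad_rot {α : Type*} {l l' : List α} (h : l.IsRotated l') :
    ∃ n : ℕ, l' = l.drop n ++ l.take n := by
  obtain ⟨n, hn, e⟩ := List.isRotated_iff_mod.1 h
  exact ⟨n, by rw [← e, List.rotate_eq_drop_append_take hn]⟩

theorem fgQuad_iff {α : Type*} {l : List α} {a b : α} :
    CAdj l a b ↔ (l = [a] ∧ b = a) ∨ ∃ rest, l.IsRotated (a :: b :: rest) := by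
  constructor
  · rintro (⟨l1, l2, rfl⟩ | ⟨h1, h2⟩)
    · exact Or.inr ⟨l2 ++ l1, List.isRotated_append⟩
    · obtain ⟨t, rfl⟩ := List.head?_eq_some_iff.1 h2
      obtain ⟨s, hs⟩ := List.getLast?_eq_some_iff.1 h1
      cases s with
      | nil =>
        left
        simp only [List.nil_append, List.cons.injEq] at hs
        rw [hs.1, hs.2]
        exact ⟨rfl, rfl⟩
      | cons c s =>
        right
        simp only [List.cons_append, List.cons.injEq] at hs
        refine ⟨s, ?_⟩
        rw [hs.2]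
        exact List.isRotated_append (l := b :: s) (l' := [a])
  · rintro (⟨rfl, rfl⟩ | ⟨rest, h⟩)
    · exact Or.inr ⟨rfl, rfl⟩
    · obtain ⟨n, rfl⟩ := fgQuad_rot h.symm
      match n with
      | 0 => exact Or.inl ⟨[], rest, by simp⟩
      | 1 => exact Or.inr ⟨List.getLast?_eq_some_iff.2 ⟨b :: rest, by simp⟩, by simp⟩
      | k + 2 => exact Or.inl ⟨rest.drop k, rest.take k, by simp⟩

theorem cadj_of_isRotated {α : Type*} {l l' : List α} (h : l.IsRotated l') {a b : α}
    (hab : CAdj l a b) : CAdj l' a b := by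
  rcases fgQuad_iff.1 hab with ⟨rfl, rfl⟩ | ⟨rest, h'⟩
  · exact fgQuad_iff.2 (Or.inl ⟨List.isRotated_singleton_iff.1 h.symm, rfl⟩)
  · exact fgQuad_iff.2 (Or.inr ⟨rest, h.symm.trans h'⟩)

theorem exists_rotate_of_cadj {α : Type*} {l : List α} {a b : α} (hab : CAdj l a b)
    (h2 : 2 ≤ l.length) : ∃ rest, l.IsRotated (a :: b :: rest) := by
  rcases fgQuad_iff.1 hab with ⟨rfl, rfl⟩ | h'
  · simp at h2
  · exact h'

theorem exists_cadj_right {α : Type*} {l : List α} {a : α} (ha : a ∈ l) : ∃ b, CAdj l a b := by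
  obtain ⟨s, t, rfl⟩ := List.append_of_mem ha
  have h : (s ++ a :: t).IsRotated (a :: (t ++ s)) := List.isRotated_append
  generalize t ++ s = r at h
  cases r with
  | nil => exact ⟨a, fgQuad_iff.2 (Or.inl ⟨List.isRotated_singleton_iff.1 h, rfl⟩)⟩
  | cons b r => exact ⟨b, fgQuad_iff.2 (Or.inr ⟨r, h⟩)⟩

theorem fgQuad_reverse {α : Type*} {l : List α} {a b : α} (hab : CAdj l a b) :
    CAdj l.reverse b a := by
  rcases hab with ⟨l1, l2, rfl⟩ | ⟨h1, h2⟩
  · exact Or.inl ⟨l2.reverse, l1.reverse, by simp⟩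
  · exact Or.inr ⟨by rw [List.getLast?_reverse, h2], by rw [List.head?_reverse, h1]⟩

theorem fgQuad_map {α β : Type*} (f : α → β) {l : List α} {a b : α} (hab : CAdj l a b) :
    CAdj (l.map f) (f a) (f b) := by
  rcases hab with ⟨l1, l2, rfl⟩ | ⟨h1, h2⟩
  · exact Or.inl ⟨l1.map f, l2.map f, by simp⟩
  · exact Or.inr ⟨by rw [List.getLast?_map, h1]; rfl, by rw [List.head?_map, h2]; rfl⟩

theorem cadj_invRev {α : Type*} {l : List (α × Bool)} {a b : α × Bool} :
    CAdj (FreeGroup.invRev l) a b ↔ CAdj l (dinv b) (dinv a) := by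
  have key : ∀ (l : List (α × Bool)) (a b : α × Bool), CAdj l a b →
      CAdj (FreeGroup.invRev l) (dinv b) (dinv a) := fun l a b h =>
    fgQuad_reverse (fgQuad_map dinv h)
  constructor
  · intro h
    have h' := key _ _ _ h
    rwa [FreeGroup.invRev_invRev] at h'
  · intro h
    have h' := key _ _ _ h
    rwa [dinv_dinv, dinv_dinv] at h'

theorem cadj_map {α β : Type*} (f : α → β) {l : List α} {a b : α} (hab : CAdj l a b) :
    CAdj (l.map f) (f a) (f b) := by
  exact fgQuad_map f hab

theorem fgQuad_cons_eq {α : Type*} {a : α} {s s' : List α} (hn : (a :: s).Nodup)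
    (h : (a :: s).IsRotated (a :: s')) : s = s' := by
  obtain ⟨n, e⟩ := fgQuad_rot h
  cases n with
  | zero => simpa using e.symm
  | succ k =>
    rw [List.drop_succ_cons, List.take_succ_cons] at e
    have e2 := List.take_append_drop k s
    cases hd : s.drop k with
    | nil =>
      rw [hd] at e e2
      rw [List.append_nil] at e2
      rw [e2] at e
      simpa using e.symm
    | cons c r =>
      exfalso
      rw [hd] at e
      have hc : a = c := by simpa using (List.cons.inj e).1
      have hm : c ∈ s := List.mem_of_mem_drop (hd ▸ List.mem_cons_self)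
      exact (List.nodup_cons.1 hn).1 (hc ▸ hm)

theorem cadj_unique_right {α : Type*} {l : List α} (hl : l.Nodup) {a b b' : α}
    (h : CAdj l a b) (h' : CAdj l a b') : b = b' := by
  rcases fgQuad_iff.1 h with ⟨e1, e2⟩ | ⟨r, h1⟩
  · rcases fgQuad_iff.1 h' with ⟨_, e3⟩ | ⟨r', h2⟩
    · rw [e2, e3]
    · have e := h2.perm.length_eq
      rw [e1] at e
      simp at e
  · rcases fgQuad_iff.1 h' with ⟨e1, _⟩ | ⟨r', h2⟩
    · have e := h1.perm.length_eq
      rw [e1] at e
      simp at e
    · exact (List.cons.inj (fgQuad_cons_eq (h1.nodup_iff.1 hl) (h1.symm.trans h2))).1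

theorem cadj_unique_left {α : Type*} {l : List α} (hl : l.Nodup) {a a' b : α}
    (h : CAdj l a b) (h' : CAdj l a' b) : a = a' := by
  exact cadj_unique_right (List.nodup_reverse.2 hl) (fgQuad_reverse h) (fgQuad_reverse h')

theorem isConj_mk_of_isRotated {α : Type*} {l l' : List (α × Bool)} (h : l.IsRotated l') :
    IsConj (FreeGroup.mk l) (FreeGroup.mk l') := by
  obtain ⟨n, rfl⟩ := fgQuad_rot h
  have e : FreeGroup.mk l = FreeGroup.mk (l.take n) * FreeGroup.mk (l.drop n) := by
    rw [FreeGroup.mul_mk, List.take_append_drop]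
  rw [← FreeGroup.mul_mk, e]
  exact isConj_iff.2 ⟨FreeGroup.mk (l.drop n), by group⟩

theorem GoodQ.rotate {X : Type*} {Q Q' : List (X × Bool)} (h : GoodQ Q) (hr : Q.IsRotated Q') :
    GoodQ Q' := by
  refine ⟨hr.nodup_iff.1 h.1, fun d => hr.mem_iff.1 (h.2.1 d), fun S hS hc => ?_⟩
  exact h.2.2 S hS fun a b ha hab => hc a b ha (cadj_of_isRotated hr hab)

theorem GoodQ.invRev {X : Type*} {Q : List (X × Bool)} (h : GoodQ Q) :
    GoodQ (FreeGroup.invRev Q) := by
  refine ⟨?_, fun d => ?_, fun S hS hc => ?_⟩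
  · rw [fgQuad_invRev, List.nodup_reverse]
    exact h.1.map fgQuad_dinv_inj
  · rw [fgQuad_invRev, List.mem_reverse, List.mem_map]
    exact ⟨dinv d, h.2.1 _, dinv_dinv d⟩
  · by_contra hne
    have hne' : Sᶜ.Nonempty := Set.nonempty_compl.2 hne
    have e := h.2.2 Sᶜ hne' (by
      intro a b ha hab hb
      apply ha
      apply hc b a hb
      rw [cadj_invRev, dinv_dinv]
      exact hab)
    obtain ⟨x, hx⟩ := hS
    have hx' : x ∈ Sᶜ := by
      rw [e]
      trivial
    exact hx' hx

theorem GoodQ.length_eq {X : Type*} [Fintype X] {Q : List (X × Bool)} (h : GoodQ Q) :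
    Q.length = 2 * Fintype.card X := by
  classical
  have e : Q.toFinset = Finset.univ := by
    ext d
    simp [h.2.1 d]
  rw [← List.toFinset_card_of_nodup h.1, e, Finset.card_univ, Fintype.card_prod,
    Fintype.card_bool, mul_comm]

theorem GoodQ.fst_ne {X : Type*} [Nonempty X] {Q : List (X × Bool)} (h : GoodQ Q)
    {a b : X × Bool} (hab : CAdj Q a b) : a.1 ≠ b.1 := by
  intro e
  have hb : b = a ∨ b = dinv a := by
    obtain ⟨x, c⟩ := a
    obtain ⟨y, c'⟩ := b
    have e' : x = y := e
    subst e'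
    cases c <;> cases c' <;> simp [dinv]
  rcases hb with hb | hb
  · rw [hb] at hab
    rcases fgQuad_iff.1 hab with ⟨e1, _⟩ | ⟨r, h1⟩
    · have hm := h.2.1 (dinv a)
      rw [e1, List.mem_singleton] at hm
      exact fgQuad_dinv_ne a hm
    · have hn := h1.nodup_iff.1 h.1
      exact (List.nodup_cons.1 hn).1 List.mem_cons_self
  · have e2 := h.2.2 {b} ⟨b, rfl⟩ (by
      intro x y hx hxy
      have hx' : x = b := hx
      rw [hx', hb, dinv_dinv] at hxy
      exact cadj_unique_right h.1 hxy hab)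
    have hm : dinv b ∈ ({b} : Set (X × Bool)) := by
      rw [e2]
      trivial
    exact fgQuad_dinv_ne b hm

theorem fgQuad_mk_flatten {α : Type*} (L : List (List (α × Bool))) :
    FreeGroup.mk L.flatten = (L.map FreeGroup.mk).prod := by
  induction L with
  | nil => rfl
  | cons l L ih => rw [List.flatten_cons, ← FreeGroup.mul_mk, ih, List.map_cons, List.prod_cons]

theorem mk_surfWord (g : ℕ) : FreeGroup.mk (surfWord g) = surfRel g := by
  rw [surfWord, fgQuad_mk_flatten, List.map_ofFn]
  rfl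

theorem fgQuad_flatten {α : Type*} {L : List (List α)} {s t : List α} {a b : α}
    (h : CAdj L (s ++ [a]) (b :: t)) : CAdj L.flatten a b := by
  rcases h with ⟨l1, l2, rfl⟩ | ⟨h1, h2⟩
  · exact Or.inl ⟨l1.flatten ++ s, t ++ l2.flatten, by simp⟩
  · refine Or.inr ⟨?_, ?_⟩
    · obtain ⟨r, rfl⟩ := List.getLast?_eq_some_iff.1 h1
      exact List.getLast?_eq_some_iff.2 ⟨r.flatten ++ s, by simp⟩
    · obtain ⟨r, rfl⟩ := List.head?_eq_some_iff.1 h2
      simp

theorem fgQuad_inner {α : Type*} {L : List (List α)} {s t : List α} {a b : α}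
    (h : s ++ a :: b :: t ∈ L) : CAdj L.flatten a b := by
  obtain ⟨l1, l2, rfl⟩ := List.append_of_mem h
  exact Or.inl ⟨l1.flatten ++ s, t ++ l2.flatten, by simp⟩

theorem fgQuad_closed {α : Type*} {l : List α} (T : Set α)
    (hT : ∀ a b, a ∈ T → CAdj l a b → b ∈ T) {x : α} (hx : x ∈ l) (hxT : x ∈ T) :
    ∀ y ∈ l, y ∈ T := by
  obtain ⟨s, t, e⟩ := List.append_of_mem hx
  have hr : l.IsRotated (x :: (t ++ s)) := by
    rw [e]
    exact List.isRotated_append
  have key : ∀ (r pre : List α) (z : α), l.IsRotated (pre ++ z :: r) → z ∈ T →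
      ∀ y ∈ r, y ∈ T := by
    intro r
    induction r with
    | nil => simp
    | cons w r ih =>
      intro pre z hz hzT y hy
      have hw : w ∈ T := hT z w hzT (cadj_of_isRotated hz.symm (Or.inl ⟨pre, r, rfl⟩))
      rcases List.mem_cons.1 hy with rfl | hy
      · exact hw
      · exact ih (pre ++ [z]) w (by simpa using hz) hw y hy
  intro y hy
  rcases List.mem_cons.1 (hr.mem_iff.1 hy) with rfl | hy
  · exact hxT
  · exact key _ [] x hr hxT y hy

theorem goodQ_surfWord (g : ℕ) : GoodQ (surfWord g) := by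
  refine ⟨?_, ?_, ?_⟩
  · rw [surfWord, List.nodup_flatten, List.pairwise_ofFn]
    constructor
    · intro l hl
      rw [List.mem_ofFn] at hl
      obtain ⟨i, rfl⟩ := hl
      simp
    · intro i j hij
      have hne : i ≠ j := ne_of_lt hij
      simp [List.disjoint_left, hne]
  · rintro ⟨⟨i, c⟩, e⟩
    rw [surfWord, List.mem_flatten]
    refine ⟨_, List.mem_ofFn.2 ⟨i, rfl⟩, ?_⟩
    cases c <;> cases e <;> simp
  · intro S hS hc
    have hm : ∀ i : Fin g,
        [((i, false), true), ((i, true), true), ((i, false), false), ((i, true), false)] ∈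
          List.ofFn fun i : Fin g =>
            [((i, false), true), ((i, true), true), ((i, false), false), ((i, true), false)] :=
      fun i => List.mem_ofFn.2 ⟨i, rfl⟩
    have s1 : ∀ i : Fin g, ((i, false), true) ∈ S → ((i, true), false) ∈ S := fun i h =>
      hc _ _ h (fgQuad_inner (s := [((i, false), true), ((i, true), true)]) (t := []) (hm i))
    have s2 : ∀ i : Fin g, ((i, true), false) ∈ S → ((i, false), false) ∈ S := fun i h =>
      hc _ _ h (fgQuad_inner (s := [((i, false), true)]) (t := [((i, true), false)]) (hm i))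
    have s3 : ∀ i : Fin g, ((i, false), false) ∈ S → ((i, true), true) ∈ S := fun i h =>
      hc _ _ h (fgQuad_inner (s := []) (t := [((i, false), false), ((i, true), false)]) (hm i))
    have s4 : ∀ i j : Fin g, ((i, true), true) ∈ S → CAdj (List.finRange g) i j →
        ((j, false), true) ∈ S := by
      intro i j h hij
      apply hc _ _ h
      have h1 := cadj_map (fun i : Fin g =>
        [((i, false), true), ((i, true), true), ((i, false), false), ((i, true), false)]) hij
      rw [← List.ofFn_eq_map] at h1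
      exact fgQuad_flatten
        (s := [((i, false), true), ((i, true), true), ((i, false), false)]) h1
    obtain ⟨⟨⟨i, c⟩, e⟩, hx⟩ := hS
    have hi : ((i, true), true) ∈ S := by
      cases c <;> cases e
      · exact s3 i hx
      · exact s3 i (s2 i (s1 i hx))
      · exact s3 i (s2 i hx)
      · exact hx
    have hall := fgQuad_closed (l := List.finRange g) {i | ((i, true), true) ∈ S}
      (fun a b ha hab => s3 b (s2 b (s1 b (s4 a b ha hab)))) (List.mem_finRange i) hi
    have ha : ∀ j : Fin g, ((j, false), true) ∈ S := by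
      intro j
      obtain ⟨k, hk⟩ := exists_cadj_right (List.mem_reverse.2 (List.mem_finRange j))
      have hk' := fgQuad_reverse hk
      rw [List.reverse_reverse] at hk'
      exact s4 k j (hall k (List.mem_finRange k)) hk'
    apply Set.eq_univ_of_forall
    rintro ⟨⟨j, c'⟩, e'⟩
    cases c' <;> cases e'
    · exact s2 j (s1 j (ha j))
    · exact ha j
    · exact s1 j (ha j)
    · exact s3 j (s2 j (s1 j (ha j)))

end Pool.Agent.Lib.MP_66609f_al
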