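import Pool.Agent.Lib.MP_66609f_al.ChainW2
import Pool.Agent.Lib.MP_66609f_al.TwRel2

namespace Pool.Agent.Lib.MP_66609f_al

variable {g : ℕ}

/-- Normal form of a class normalising the mirror group. -/
def NF (g : ℕ) (x : Out (piG g)) (v : W (g + 3)) (i k : ℤ) : Prop :=
  ∃ (Δ : MulAut (lamG g)) (φ : MulAut (piG g)), x = oc g φ ∧
    (∀ (γ : piG g) (h : (γ : W (g + 3)) ∈ lamG g),
      ((φ γ : piG g) : W (g + 3)) = v * (Δ ⟨γ, h⟩ : W (g + 3)) * v⁻¹) ∧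
    (∀ j (h : sW g j ∈ lamG g), (Δ ⟨sW g j, h⟩ : W (g + 3)) = sW g (i + j)) ∧
    (∀ h : cc g ∈ lamG g, (Δ ⟨cc g, h⟩ : W (g + 3)) = cc g) ∧
    ∀ h : t2 g * t1 g ∈ lamG g,
      (Δ ⟨t2 g * t1 g, h⟩ : W (g + 3)) = cc g ^ k * (t2 g * t1 g)

theorem fixNF_col1 (hg : 3 ≤ g) : col g (ee g 1) = Multiplicative.ofAdd (1, 0, 0) := by
  have h : ((1 : ℕ) : ZMod (g + 3)).val = 1 := by
    rw [ZMod.val_natCast, Nat.mod_eq_of_lt (by omega)]
  rw [ee, col_sg, colg, h, if_neg (by omega), if_neg (by omega), if_pos rfl]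

theorem fixNF_col2 (hg : 3 ≤ g) : col g (ee g 2) = Multiplicative.ofAdd (0, 1, 0) := by
  have h : ((2 : ℕ) : ZMod (g + 3)).val = 2 := by
    rw [ZMod.val_natCast, Nat.mod_eq_of_lt (by omega)]
  rw [ee, col_sg, colg, h, if_neg (by omega), if_neg (by omega), if_neg (by omega)]

theorem fixNF_colr (hg : 3 ≤ g) : col g (ee g 1 * ee g 2) = Multiplicative.ofAdd (1, 1, 0) := by
  rw [map_mul, fixNF_col1 hg, fixNF_col2 hg]
  decide

theorem fixNF_r_mem (hg : 3 ≤ g) : ee g 1 * ee g 2 ∈ hypG g := by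
  change col g _ ∈ hypP
  rw [fixNF_colr hg]
  exact ⟨rfl, rfl⟩

theorem fixNF_e_mem (hg : 3 ≤ g) : ee g 1 ∈ lamG g := by
  change col g _ ∈ lamP
  rw [fixNF_col1 hg]
  exact rfl

theorem fixNF_hypP (p : PP) (h : p.toAdd.2.2 = 0 ∧ p.toAdd.1 = p.toAdd.2.1) :
    p = 1 ∨ p = Multiplicative.ofAdd (1, 1, 0) := by
  revert p
  decide

theorem fixNF_lamP (p : PP) (h : p.toAdd.2.2 = 0) :
    (p.toAdd.2.2 = 0 ∧ p.toAdd.1 = p.toAdd.2.1) ∨
      (((Multiplicative.ofAdd (1, 0, 0) : PP)⁻¹ * p).toAdd.2.2 = 0 ∧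
        ((Multiplicative.ofAdd (1, 0, 0) : PP)⁻¹ * p).toAdd.1 =
          ((Multiplicative.ofAdd (1, 0, 0) : PP)⁻¹ * p).toAdd.2.1) := by
  revert p
  decide

theorem fixNF_lift {H : Subgroup (W (g + 3))} (hH : piG g ≤ H) (ψ : MulAut (piG g))
    {a b : W (g + 3)} (hb : b ∈ H)
    (h : oc g ψ * oc g (cj g a) * (oc g ψ)⁻¹ = oc g (cj g b)) :
    ∃ b' ∈ H, cj g b' = ψ * cj g a * ψ⁻¹ := by
  rw [← map_inv, ← map_mul, ← map_mul, oc_eq_iff] at h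
  obtain ⟨v, hv, h⟩ := h
  exact ⟨v * b, H.mul_mem (hH hv) hb, by rw [h, map_mul]⟩

theorem fixNF_hyp (hg : 3 ≤ g) (ψ : MulAut (piG g)) (h : oc g ψ * rO g * (oc g ψ)⁻¹ = rO g)
    (a : W (g + 3)) (ha : a ∈ hypG g) : ∃ b ∈ hypG g, cj g b = ψ * cj g a * ψ⁻¹ := by
  rcases fixNF_hypP (col g a) ha with h1 | h1
  · refine fixNF_lift piG_le_hypG ψ (hypG g).one_mem ?_
    rw [oc_cj_of_mem a h1, map_one, map_one, mul_one, mul_inv_cancel]
  · refine fixNF_lift piG_le_hypG ψ (fixNF_r_mem hg) ?_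
    rw [oc_cj_eq a (ee g 1 * ee g 2) (h1.trans (fixNF_colr hg).symm)]
    exact h

theorem fixNF_lam (hg : 3 ≤ g) (ψ : MulAut (piG g)) (h : oc g ψ * rO g * (oc g ψ)⁻¹ = rO g)
    {e : W (g + 3)} (he : e ∈ lamG g) (h' : oc g ψ * ρO g * (oc g ψ)⁻¹ = oc g (cj g e))
    (a : W (g + 3)) (ha : a ∈ lamG g) : ∃ b ∈ lamG g, cj g b = ψ * cj g a * ψ⁻¹ := by
  rcases fixNF_lamP (col g a) ha with h1 | h1
  · obtain ⟨b, hb, h2⟩ := fixNF_hyp hg ψ h a h1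
    exact ⟨b, hypG_le_lamG hb, h2⟩
  · have h2 : (ee g 1)⁻¹ * a ∈ hypG g := by
      change col g _ ∈ hypP
      rw [map_mul, map_inv, fixNF_col1 hg]
      exact h1
    obtain ⟨b, hb, h3⟩ := fixNF_hyp hg ψ h _ h2
    obtain ⟨b', hb', h4⟩ := fixNF_lift (fun _ hx => hypG_le_lamG (piG_le_hypG hx)) ψ he h'
    refine ⟨b' * b, (lamG g).mul_mem hb' (hypG_le_lamG hb), ?_⟩
    rw [map_mul, h3, h4, map_mul, map_inv]
    group

theorem fixNF_cj_coe (φ : MulAut (piG g)) (γ : piG g) :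
    cj g ((φ γ : piG g) : W (g + 3)) = φ * cj g (γ : W (g + 3)) * φ⁻¹ := by
  have h : ∀ δ : piG g, cj g (δ : W (g + 3)) = MulAut.conj δ := fun δ => MulAut.conjNormal_val
  rw [h, h]
  ext y
  simp

theorem fixNF_ext (hg : 3 ≤ g) (φ : MulAut (piG g)) (hx : NrmO g (oc g φ)) :
    ∃ Φ : MulAut (lamG g), (∀ a, (Φ a : W (g + 3)) ∈ hypG g ↔ (a : W (g + 3)) ∈ hypG g) ∧
      ∀ (γ : piG g) (h : (γ : W (g + 3)) ∈ lamG g),
        ((φ γ : piG g) : W (g + 3)) = (Φ ⟨γ, h⟩ : W (g + 3)) := by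
  obtain ⟨h1, h2⟩ := hx
  have hr : oc g φ * rO g * (oc g φ)⁻¹ = rO g := by rw [← h1, mul_inv_cancel_right]
  have hr' : oc g φ⁻¹ * rO g * (oc g φ⁻¹)⁻¹ = rO g := by
    rw [map_inv, inv_inv, mul_assoc, h1, inv_mul_cancel_left]
  have hrl := hypG_le_lamG (fixNF_r_mem hg)
  have hρ : ∃ e ∈ lamG g, oc g φ * ρO g * (oc g φ)⁻¹ = oc g (cj g e) := by
    rcases h2 with h2 | h2
    · refine ⟨ee g 1, fixNF_e_mem hg, ?_⟩
      change _ = ρO g
      rw [mul_inv_eq_iff_eq_mul] at h2 ⊢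
      exact h2.symm
    · refine ⟨(ee g 1 * ee g 2)⁻¹ * ee g 1,
        (lamG g).mul_mem ((lamG g).inv_mem hrl) (fixNF_e_mem hg), ?_⟩
      rw [map_mul, map_mul, map_inv, map_inv]
      change _ = (rO g)⁻¹ * ρO g
      rw [← h1, mul_inv_eq_iff_eq_mul] at h2
      rw [mul_inv_eq_iff_eq_mul, mul_assoc, h2, mul_assoc, inv_mul_cancel_left]
  have hρ' : ∃ e ∈ lamG g, oc g φ⁻¹ * ρO g * (oc g φ⁻¹)⁻¹ = oc g (cj g e) := by
    rw [map_inv, inv_inv, mul_assoc]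
    rcases h2 with h2 | h2
    · refine ⟨ee g 1, fixNF_e_mem hg, ?_⟩
      change _ = ρO g
      rw [mul_inv_eq_iff_eq_mul] at h2
      rw [h2, inv_mul_cancel_left]
    · refine ⟨ee g 1 * ee g 2 * ee g 1, (lamG g).mul_mem hrl (fixNF_e_mem hg), ?_⟩
      rw [map_mul (cj g) (ee g 1 * ee g 2), map_mul]
      change _ = rO g * ρO g
      rw [mul_inv_eq_iff_eq_mul] at h2
      rw [h2, mul_assoc, inv_mul_cancel_left]
  obtain ⟨e, he, hρ⟩ := hρ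
  obtain ⟨e', he', hρ'⟩ := hρ'
  choose f hf hf' using fixNF_lam hg φ hr he hρ
  choose f' hf1 hf1' using fixNF_lam hg φ⁻¹ hr' he' hρ'
  have hinj := cj_injective hg
  let Φ : MulAut (lamG g) :=
    { toFun := fun a => ⟨f a a.2, hf a a.2⟩
      invFun := fun a => ⟨f' a a.2, hf1 a a.2⟩
      left_inv := fun a => Subtype.ext (hinj (by
        change cj g (f' _ _) = _
        rw [hf1', hf']
        group))
      right_inv := fun a => Subtype.ext (hinj (by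
        change cj g (f _ _) = _
        rw [hf', hf1']
        group))
      map_mul' := fun a b => Subtype.ext (hinj (by
        change cj g (f _ _) = cj g (f _ _ * f _ _)
        rw [map_mul, hf', hf', hf', Subgroup.coe_mul, map_mul]
        group)) }
  have hΦ : ∀ a, cj g (Φ a : W (g + 3)) = φ * cj g a * φ⁻¹ := fun a => hf' a a.2
  refine ⟨Φ, fun a => ⟨fun h => ?_, fun h => ?_⟩, fun γ h => hinj ?_⟩
  · obtain ⟨b, hb, h3⟩ := fixNF_hyp hg φ⁻¹ hr' _ h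
    have h4 : b = a := hinj (by
      rw [h3, hΦ]
      group)
    exact h4 ▸ hb
  · obtain ⟨b, hb, h3⟩ := fixNF_hyp hg φ hr _ h
    have h4 : b = Φ a := hinj (by rw [h3, hΦ])
    exact h4 ▸ hb
  · rw [hΦ, fixNF_cj_coe]

theorem exists_NF (hg : 3 ≤ g) (x : Out (piG g)) (hx : NrmO g x) : ∃ v i k, NF g x v i k := by
  obtain ⟨φ, rfl⟩ : ∃ φ, oc g φ = x := QuotientGroup.mk'_surjective _ x
  obtain ⟨Φ, h1, h2⟩ := fixNF_ext hg φ hx
  obtain ⟨K, hP, hs, hc, hX, hν⟩ := exists_chain hg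
  have key : ∀ (Δ : MulAut (lamG g)) (v : W (g + 3)) (i k : ℤ), K.IsDelta Δ i k →
      (∀ a, (Φ a : W (g + 3)) = v * (Δ a : W (g + 3)) * v⁻¹) → NF g (oc g φ) v i k := by
    intro Δ v i k hΔ hv
    refine ⟨Δ, φ, rfl, fun γ h => by rw [h2 γ h, hv], fun j h => ?_, fun h => ?_, fun h => ?_⟩
    · have h3 : (⟨sW g j, h⟩ : lamG g) = K.s j := Subtype.ext (hs j).symm
      rw [h3, hΔ.1, hs]
    · have h3 : (⟨cc g, h⟩ : lamG g) = K.c := Subtype.ext hc.symm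
      rw [h3, hΔ.2.1, hc]
    · have h3 : (⟨t2 g * t1 g, h⟩ : lamG g) = K.X := Subtype.ext hX.symm
      rw [h3, hΔ.2.2, Subgroup.coe_mul, Subgroup.coe_zpow, hc, hX]
  obtain ⟨v, i, k, h | h⟩ := K.classify Φ fun a => by
    rw [hP, Subgroup.mem_subgroupOf, Subgroup.mem_subgroupOf]
    exact h1 a
  · refine ⟨(v : W (g + 3))⁻¹, i, k, key _ _ i k h fun a => ?_⟩
    simp only [MulAut.mul_apply, MulAut.conj_apply, Subgroup.coe_mul, Subgroup.coe_inv]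
    group
  · refine ⟨(v : W (g + 3))⁻¹ * t3 g, i, k, key _ _ i k h fun a => ?_⟩
    have h3 : t3 g * t3 g = 1 := sg_mul_self _
    have h4 : (t3 g)⁻¹ = t3 g := inv_eq_of_mul_eq_one_right h3
    simp only [MulAut.mul_apply, MulAut.conj_apply, hν, Subgroup.coe_mul, Subgroup.coe_inv]
    rw [mul_inv_rev, inv_inv, h4]
    calc (Φ a : W (g + 3)) = (v : W (g + 3))⁻¹ * (t3 g * t3 g) *
          ((v : W (g + 3)) * (Φ a : W (g + 3)) * (v : W (g + 3))⁻¹) * (t3 g * t3 g) * v := by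
          rw [h3]
          group
      _ = _ := by simp only [mul_assoc]

end Pool.Agent.Lib.MP_66609f_al
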