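import Pool.Agent.Lib.MP_66609f_al.G2Coc

namespace Pool.Agent.Lib.MP_66609f_al

variable {E : ℤ × ℤ → ℕ} {χ : P2 →* ℤˣ} {d : P2 → ℤ}

theorem g2Act_comp (χ : P2 →* ℤˣ) (ψ φ : MulAut P2) :
    χ.comp (ψ * φ)⁻¹.toMonoidHom = (χ.comp φ⁻¹.toMonoidHom).comp ψ⁻¹.toMonoidHom := by
  rw [mul_inv_rev]
  rfl

theorem g2Act_mul (E : ℤ × ℤ → ℕ) (χ : P2 →* ℤˣ) (d : P2 → ℤ) (ψ φ : MulAut P2) :
    ThE E χ d (ψ * φ) = ThE E (χ.comp φ⁻¹.toMonoidHom) (d ∘ ⇑(φ⁻¹)) ψ := by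
  unfold ThE
  rw [mul_inv_rev]
  rfl

theorem g2Act_eq_one {H : Type*} [Group H] (χ : H →* ℤˣ) (α : MulAut H) :
    χ.comp α.toMonoidHom = 1 ↔ χ = 1 := by
  constructor
  · intro h
    ext x
    have := DFunLike.congr_fun h (α.symm x)
    simpa using this
  · rintro rfl
    rfl

theorem g2Act_mem (hd : d ∈ Zc χ) (φ : MulAut P2) : d ∘ φ ∈ Zc (χ.comp φ.toMonoidHom) :=
  Zc_comp hd φ.toMonoidHom

theorem g2Act_inn {φ ψ : MulAut P2} (h : φ⁻¹ * ψ ∈ Inn P2) :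
    ∃ g : P2, ∀ x, ψ⁻¹ x = g * φ⁻¹ x * g⁻¹ := by
  obtain ⟨g, hg⟩ := h
  refine ⟨g⁻¹, fun x => ?_⟩
  have h1 : ψ⁻¹ = MulAut.conj g⁻¹ * φ⁻¹ := by
    rw [map_inv, hg, mul_inv_rev, inv_inv, mul_inv_cancel_right]
  rw [h1, MulAut.mul_apply, MulAut.conj_apply]

theorem g2Act_congr (χ : P2 →* ℤˣ) {d d' : P2 → ℤ} (h0 : d ∘ emb false = d' ∘ emb false)
    (h1 : d ∘ emb true = d' ∘ emb true) : Lc χ d = Lc χ d' := by
  have e0 : ∀ w, d (emb false w) = d' (emb false w) := congrFun h0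
  have e1 : ∀ w, d (emb true w) = d' (emb true w) := congrFun h1
  unfold Lc
  rw [h0, h1, e0, e0, e1, e1]

theorem g2Act_zpow {H : Type*} [Group H] {χ : H →* ℤˣ} {d : H → ℤ} (hd : d ∈ Zc χ) {c : H}
    (hc : χ c = 1) (j : ℤ) : d (c ^ j) = j * d c := by
  induction j using Int.induction_on with
  | zero => rw [zpow_zero, Zc_one hd, zero_mul]
  | succ j ih =>
    rw [zpow_add_one, hd, ih, map_zpow, hc, one_zpow, Units.val_one]
    ring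
  | pred j ih =>
    rw [zpow_sub_one, hd, ih, map_zpow, hc, one_zpow, Zc_inv hd, hc, Units.val_one]
    ring

theorem g2Act_isExt_zpow {T : MulAut P2} {α : MulAut F2} (h : IsExt T α 1) (j : ℤ) :
    IsExt (T ^ j) (α ^ j) 1 := by
  induction j using Int.induction_on with
  | zero => rw [zpow_zero, zpow_zero]; exact isExt_one
  | succ j ih =>
    have := ih.mul h
    rwa [mul_one, ← zpow_add_one, ← zpow_add_one] at this
  | pred j ih =>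
    have := ih.mul h.inv
    rwa [inv_one, mul_one, ← zpow_sub_one, ← zpow_sub_one] at this

theorem g2Act_chi_cm (χ : F2 →* ℤˣ) : χ cm = 1 := by
  unfold cm
  rw [map_mul, map_mul, map_mul, map_inv, map_inv, mul_inv_cancel_comm, mul_inv_cancel]

theorem g2Act_sF {χ : F2 →* ℤˣ} (hχ : χ ≠ 1) (d : F2 → ℤ) (n : ℤ) :
    sF χ (fun w => d w + n * dl χ w) = sF χ d + n := by
  unfold sF dl
  by_cases ha : χ ga = 1
  · have hb : χ gb ≠ 1 := fun hb => hχ (by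
      refine FreeGroup.ext_hom _ _ fun x => ?_
      cases x
      · exact ha
      · exact hb)
    rw [if_pos ha, if_pos ha]
    beta_reduce
    rw [if_neg hb, mul_one]
  · rw [if_neg ha, if_neg ha]
    beta_reduce
    rw [if_neg ha, mul_one]

theorem g2Act_wF (χ : F2 →* ℤˣ) (d : F2 → ℤ) (n : ℤ) :
    wF χ (fun w => d w + n * dl χ w) = wF χ d := by
  unfold wF
  ring

/-- The action of the powers of the separating twist. -/
theorem g2Act_T (hd : d ∈ Zc χ) {T : MulAut P2} (h : IsExt T (om ^ 6) 1) (j : ℤ) :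
    χ.comp (T ^ j)⁻¹.toMonoidHom = χ ∧
      (Split χ → Lc χ (d ∘ ⇑((T ^ j)⁻¹)) = ((Lc χ d).1 + 4 * j * (Lc χ d).2, (Lc χ d).2)) ∧
      (¬ Split χ → Lc χ (d ∘ ⇑((T ^ j)⁻¹)) = Lc χ d) := by
  have h1 := (g2Act_isExt_zpow h j).inv
  rw [om_six, inv_one, ← map_zpow, ← map_inv, inv_zpow, inv_inv] at h1
  have e0 : ∀ w, (T ^ j)⁻¹ (emb false w) = emb false (cm ^ j * w * (cm ^ j)⁻¹) := h1.1
  have e1 : ∀ w, (T ^ j)⁻¹ (emb true w) = emb true w := h1.2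
  have hd0 : d ∘ emb false ∈ Zc (χ.comp (emb false)) := Zc_comp hd _
  have f0 : (d ∘ ⇑((T ^ j)⁻¹)) ∘ emb false = fun w => (d ∘ emb false) w +
      4 * j * wF (χ.comp (emb false)) (d ∘ emb false) * dl (χ.comp (emb false)) w := by
    funext w
    have h2 := Zc_conj hd0 (cm ^ j) w
    rw [map_zpow, g2Act_chi_cm, one_zpow, g2Act_zpow hd0 (g2Act_chi_cm _), Zc_cm hd0,
      Units.val_one] at h2
    change d ((T ^ j)⁻¹ (emb false w)) = _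
    rw [e0]
    refine h2.trans ?_
    ring
  have f1 : (d ∘ ⇑((T ^ j)⁻¹)) ∘ emb true = d ∘ emb true := funext fun w => congrArg d (e1 w)
  refine ⟨P2_hom_ext _ _ fun c w => ?_, fun hs => ?_, fun hs => ?_⟩
  · change χ ((T ^ j)⁻¹ (emb c w)) = _
    cases c
    · rw [e0, map_mul, map_mul, map_mul, map_mul, map_inv, map_inv, mul_inv_cancel_comm]
    · rw [e1]
  · unfold Lc
    rw [if_neg hs.1, if_neg hs.2, if_neg hs.1, if_neg hs.2, f0, f1, g2Act_sF hs.1, g2Act_wF]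
    refine Prod.ext ?_ rfl
    dsimp only
    ring
  · by_cases h0 : χ.comp (emb false) = 1
    · refine g2Act_congr χ ?_ f1
      rw [f0]
      funext w
      have : dl (χ.comp (emb false)) w = 0 := by
        rw [h0]
        exact if_pos rfl
      rw [this, mul_zero, add_zero]
    · have h2 : χ.comp (emb true) = 1 := by
        by_contra h2
        exact hs ⟨h0, h2⟩
      have e2 : ∀ w, (d ∘ ⇑((T ^ j)⁻¹)) (emb true w) = d (emb true w) := congrFun f1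
      unfold Lc
      rw [if_neg h0, if_pos h2, if_neg h0, if_pos h2, e2, e2]

theorem g2Act_chi_inn (χ : P2 →* ℤˣ) (φ ψ : MulAut P2) (h : φ⁻¹ * ψ ∈ Inn P2) :
    χ.comp φ⁻¹.toMonoidHom = χ.comp ψ⁻¹.toMonoidHom := by
  obtain ⟨g, hg⟩ := g2Act_inn h
  refine MonoidHom.ext fun x => ?_
  change χ (φ⁻¹ x) = χ (ψ⁻¹ x)
  rw [hg, map_mul, map_mul, map_inv, mul_inv_cancel_comm]

theorem ThE_inn (hE : IsEu E) (hχ : χ ≠ 1) (hd : d ∈ Zc χ) (φ ψ : MulAut P2)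
    (h : φ⁻¹ * ψ ∈ Inn P2) : ThE E χ d φ = ThE E χ d ψ := by
  obtain ⟨g, hg⟩ := g2Act_inn h
  have h1 : d ∘ ⇑(ψ⁻¹) = (χ g : ℤ) • (d ∘ ⇑(φ⁻¹)) + (2 * d g) • dl (χ.comp φ⁻¹.toMonoidHom) := by
    funext x
    change d (ψ⁻¹ x) = _
    rw [hg, Zc_conj hd]
    rfl
  unfold ThE
  rw [← g2Act_chi_inn χ φ ψ h, h1, Lc_add, Lc_smul, Lc_smul,
    Lc_dl (mt (g2Act_eq_one χ φ⁻¹).1 hχ), smul_zero, add_zero]
  rcases Int.units_eq_one_or (χ g) with e | e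
  · rw [e, Units.val_one, one_smul]
  · rw [e, Units.val_neg, Units.val_one, neg_smul, one_smul, hE.neg]

theorem chi_inn (χ : P2 →* ℤˣ) (φ ψ : MulAut P2) (h : φ⁻¹ * ψ ∈ Inn P2) :
    χ.comp φ⁻¹.toMonoidHom = χ.comp ψ⁻¹.toMonoidHom := by
  exact g2Act_chi_inn χ φ ψ h

theorem ThE_lip (hE : IsEu E) (hχ : χ ≠ 1) (hd : d ∈ Zc χ) (ψ : MulAut P2) :
    ∃ C : ℕ, ∀ φ, ThE E χ d (ψ * φ) ≤ ThE E χ d φ + C := by
  have h1 : ∀ χ' : P2 →* ℤˣ, ∃ C : ℕ, χ' ≠ 1 → ∀ d' ∈ Zc χ',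
      ThE E χ' d' ψ ≤ E (Lc χ' d') + C := by
    intro χ'
    by_cases h : χ' = 1
    · exact ⟨0, fun h' => absurd h h'⟩
    · obtain ⟨M, hM⟩ := exists_Lc_equiv h ψ⁻¹
      obtain ⟨C, hC⟩ := hE.lip M
      refine ⟨C, fun _ d' hd' => ?_⟩
      unfold ThE
      rw [hM d' hd']
      exact hC _
  choose C hC using h1
  have := finite_chars
  obtain ⟨K, hK⟩ := (Set.finite_range C).bddAbove
  refine ⟨K, fun φ => ?_⟩
  rw [g2Act_mul]
  exact (hC _ (mt (g2Act_eq_one χ φ⁻¹).1 hχ) _ (g2Act_mem hd φ⁻¹)).trans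
    (Nat.add_le_add_left (hK ⟨_, rfl⟩) _)

theorem split_ext {ψ : MulAut P2} {α β : MulAut F2} (h : IsExt ψ α β) (χ : P2 →* ℤˣ)
    (φ : MulAut P2) :
    Split (χ.comp (ψ * φ)⁻¹.toMonoidHom) ↔ Split (χ.comp φ⁻¹.toMonoidHom) := by
  rw [g2Act_comp]
  generalize χ.comp φ⁻¹.toMonoidHom = χ'
  have e0 : (χ'.comp ψ⁻¹.toMonoidHom).comp (emb false) =
      (χ'.comp (emb false)).comp α⁻¹.toMonoidHom :=
    MonoidHom.ext fun w => congrArg χ' (h.inv.1 w)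
  have e1 : (χ'.comp ψ⁻¹.toMonoidHom).comp (emb true) =
      (χ'.comp (emb true)).comp β⁻¹.toMonoidHom :=
    MonoidHom.ext fun w => congrArg χ' (h.inv.2 w)
  unfold Split
  rw [e0, e1, Ne, Ne, g2Act_eq_one, g2Act_eq_one]

theorem ThE_ph0 (hd : d ∈ Zc χ) {ψ : MulAut P2} {u u' : F2} (hu : u ∈ commutator F2)
    (hu' : u' ∈ commutator F2) (h : IsExt ψ (ph0 u) (ph0 u')) (φ : MulAut P2)
    (hφ : Split (χ.comp φ⁻¹.toMonoidHom)) : ThE E χ d (ψ * φ) = ThE E χ d φ := by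
  rw [g2Act_mul]
  change _ = E (Lc (χ.comp φ⁻¹.toMonoidHom) (d ∘ ⇑(φ⁻¹)))
  have hd' := g2Act_mem hd φ⁻¹
  generalize χ.comp φ⁻¹.toMonoidHom = χ' at hφ hd' ⊢
  generalize d ∘ ⇑(φ⁻¹) = d' at hd' ⊢
  have h1 := h.inv
  rw [← map_inv, ← map_inv] at h1
  have h2 : χ'.comp ψ⁻¹.toMonoidHom = χ' := by
    refine P2_hom_ext _ _ fun c w => ?_
    change χ' (ψ⁻¹ (emb c w)) = _
    cases c
    · rw [h1.1]
      exact chi_ph0 (χ'.comp (emb false)) _ w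
    · rw [h1.2]
      exact chi_ph0 (χ'.comp (emb true)) _ w
  unfold ThE
  rw [h2]
  refine congrArg E (g2Act_congr χ' (funext fun w => ?_) (funext fun w => ?_))
  · change d' (ψ⁻¹ (emb false w)) = _
    rw [h1.1]
    exact Zc_ph0 hφ.1 (Zc_comp hd' _) _ (Subgroup.inv_mem _ hu) w
  · change d' (ψ⁻¹ (emb true w)) = _
    rw [h1.2]
    exact Zc_ph0 hφ.2 (Zc_comp hd' _) _ (Subgroup.inv_mem _ hu') w

theorem ThE_T_split (hE : IsEu E) (hd : d ∈ Zc χ) {T : MulAut P2} (h : IsExt T (om ^ 6) 1)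
    (j : ℤ) (φ : MulAut P2) (hφ : Split (χ.comp φ⁻¹.toMonoidHom)) :
    ThE E χ d (T ^ j * φ) ≤ ThE E χ d φ + 4 * j.natAbs := by
  obtain ⟨h1, h2, -⟩ := g2Act_T (g2Act_mem hd φ⁻¹) h j
  rw [g2Act_mul]
  unfold ThE
  rw [h1, h2 hφ]
  refine (hE.shear _ _ _).trans ?_
  rw [Int.natAbs_mul]
  rfl

theorem ThE_T_not (hχ : χ ≠ 1) (hd : d ∈ Zc χ) {T : MulAut P2} (h : IsExt T (om ^ 6) 1)
    (j : ℤ) (φ : MulAut P2) (hφ : ¬ Split (χ.comp φ⁻¹.toMonoidHom)) :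
    ThE E χ d (T ^ j * φ) = ThE E χ d φ := by
  have _ := hχ
  obtain ⟨h1, -, h2⟩ := g2Act_T (g2Act_mem hd φ⁻¹) h j
  rw [g2Act_mul]
  unfold ThE
  rw [h1, h2 hφ]

theorem ThE_T_low (hE : IsEu E) (hs : Split χ) (hd : d ∈ Zc χ) (h0 : Lc χ d = (0, 1))
    {T : MulAut P2} (h : IsExt T (om ^ 6) 1) (k : ℤ) : 4 * k.natAbs ≤ ThE E χ d (T ^ k) := by
  obtain ⟨h1, h2, -⟩ := g2Act_T hd h k
  unfold ThE
  rw [h1, h2 hs, h0]
  have h3 := hE.low (4 * k)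
  rw [Int.natAbs_mul] at h3
  simpa using h3

end Pool.Agent.Lib.MP_66609f_al
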