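import Pool.Agent.Lib.MP_66609f_al.G2Defs

namespace Pool.Agent.Lib.MP_66609f_al

theorem g2Braid_ext {α β : MulAut F2} (h1 : α ga = β ga) (h2 : α gb = β gb) : α = β := by
  have h : α.toMonoidHom = β.toMonoidHom := by
    ext x
    cases x
    · exact congrArg (fun w => w) h1 ▸ rfl
    · exact congrArg (fun w => w) h2 ▸ rfl
  exact MulEquiv.ext fun x => DFunLike.congr_fun h x

theorem B3_cm (α : MulAut F2) (h : α ∈ B3) : α cm = cm := by
  induction h using Subgroup.closure_induction with
  | mem x hx =>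
    rcases hx with rfl | rfl
    · simp only [cm, map_mul, map_inv, sA_ga, sA_gb]
      group
    · simp only [cm, map_mul, map_inv, sB_ga, sB_gb]
      group
  | one => rfl
  | mul x y _ _ hx hy => rw [MulAut.mul_apply, hy, hx]
  | inv x _ hx =>
    have h := congrArg (x⁻¹ : MulAut F2) hx
    rw [MulAut.inv_apply_self] at h
    exact h.symm

theorem g2Braid_sA_mem : sA ∈ B3 := Subgroup.subset_closure (Or.inl rfl)

theorem g2Braid_sB_mem : sB ∈ B3 := Subgroup.subset_closure (Or.inr rfl)

theorem om_mem : om ∈ B3 := mul_mem g2Braid_sA_mem g2Braid_sB_mem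

theorem g2Braid_ph0_a : ph0 ga = sA ^ 2 := by simp [ph0, ga]

theorem g2Braid_ph0_b : ph0 gb = sB ^ 2 := by simp [ph0, gb]

theorem g2Braid_ind {p : F2 → Prop} (u : F2) (h1 : p 1) (ha : p ga) (hb : p gb)
    (hm : ∀ x y, p x → p y → p (x * y)) (hi : ∀ x, p x → p x⁻¹) : p u := by
  induction u using FreeGroup.induction_on with
  | C1 => exact h1
  | of x => cases x <;> assumption
  | inv_of x hx => exact hi _ hx
  | mul x y hx hy => exact hm _ _ hx hy

theorem ph0_mem (u : F2) : ph0 u ∈ B3 := by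
  induction u using g2Braid_ind with
  | h1 => rw [map_one]; exact one_mem _
  | ha => rw [g2Braid_ph0_a]; exact pow_mem g2Braid_sA_mem 2
  | hb => rw [g2Braid_ph0_b]; exact pow_mem g2Braid_sB_mem 2
  | hm x y hx hy => rw [map_mul]; exact mul_mem hx hy
  | hi x hx => rw [map_inv]; exact inv_mem hx

theorem g2Braid_braid : sA * sB * sA = sB * sA * sB := by
  apply g2Braid_ext <;>
    simp only [MulAut.mul_apply, map_mul, map_inv, sA_ga, sA_gb, sB_ga, sB_gb] <;> group

theorem g2Braid_om_a : om ga = gb⁻¹ := by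
  simp only [om, MulAut.mul_apply, map_mul, map_inv, sA_ga, sA_gb, sB_ga]
  group

theorem g2Braid_om_b : om gb = gb * ga := by
  simp only [om, MulAut.mul_apply, sA_gb, sB_gb]

theorem g2Braid_om3_a : (om ^ 3) ga = gb * ga⁻¹ * gb⁻¹ := by
  simp only [pow_succ, pow_zero, one_mul, MulAut.mul_apply, map_mul, map_inv, g2Braid_om_a,
    g2Braid_om_b]
  group

theorem g2Braid_om3_b : (om ^ 3) gb = gb * ga * gb⁻¹ * ga⁻¹ * gb⁻¹ := by
  simp only [pow_succ, pow_zero, one_mul, MulAut.mul_apply, map_mul, map_inv, g2Braid_om_a,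
    g2Braid_om_b]
  group

theorem om_six : om ^ 6 = MulAut.conj cm⁻¹ := by
  have h : om ^ 6 = om ^ 3 * om ^ 3 := by rw [← pow_add]
  rw [h]
  apply g2Braid_ext <;> rw [MulAut.conj_apply] <;>
    simp only [MulAut.mul_apply, map_mul, map_inv, g2Braid_om3_a, g2Braid_om3_b, cm] <;> group

theorem g2Braid_om_sA : om * sA = sB * om := by
  rw [om, g2Braid_braid, mul_assoc]

theorem g2Braid_om_cube : om ^ 3 = sA * sB ^ 2 * sA * sB ^ 2 := by
  have h : om ^ 3 = sA * sB * (sA * sB * sA) * sB := by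
    simp only [om, pow_succ, pow_zero, one_mul, mul_assoc]
  rw [h, g2Braid_braid]
  simp only [pow_succ, pow_zero, one_mul, mul_assoc]

theorem om_cube_comm (α : MulAut F2) (h : α ∈ B3) : Commute (om ^ 3) α := by
  have hA : Commute (om ^ 3) sA := by
    apply g2Braid_ext <;>
      simp only [MulAut.mul_apply, map_mul, map_inv, g2Braid_om3_a, g2Braid_om3_b, sA_ga,
        sA_gb] <;> group
  have hB : Commute (om ^ 3) sB := by
    apply g2Braid_ext <;>
      simp only [MulAut.mul_apply, map_mul, map_inv, g2Braid_om3_a, g2Braid_om3_b, sB_ga,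
        sB_gb] <;> group
  induction h using Subgroup.closure_induction with
  | mem x hx =>
    rcases hx with rfl | rfl
    · exact hA
    · exact hB
  | one => exact Commute.one_right _
  | mul x y _ _ hx hy => exact hx.mul_right hy
  | inv x _ hx => exact hx.inv_right

theorem g2Braid_rot_a : rot3 ga = gb := by simp [rot3, ga]

theorem g2Braid_rot_b : rot3 gb = (ga * gb)⁻¹ := by simp [rot3, gb]

theorem rot3_three (u : F2) : rot3 (rot3 (rot3 u)) = u := by
  induction u using g2Braid_ind with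
  | h1 => simp
  | ha =>
    simp only [g2Braid_rot_a, g2Braid_rot_b, map_inv, map_mul]
    group
  | hb =>
    simp only [g2Braid_rot_a, g2Braid_rot_b, map_inv, map_mul]
    group
  | hm x y hx hy => simp only [map_mul, hx, hy]
  | hi x hx => simp only [map_inv, hx]

theorem g2Braid_rot_mem (u : F2) (h : u ∈ commutator F2) : rot3 u ∈ commutator F2 := by
  have h1 : (commutator F2).map rot3 ≤ commutator F2 := by
    rw [commutator_def, Subgroup.map_commutator]
    exact Subgroup.commutator_mono le_top le_top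
  exact h1 ⟨u, h, rfl⟩

theorem rot3_iter_mem (n : ℕ) (u : F2) (h : u ∈ commutator F2) : rot3^[n] u ∈ commutator F2 := by
  induction n with
  | zero => exact h
  | succ n ih =>
    rw [Function.iterate_succ_apply']
    exact g2Braid_rot_mem _ ih

theorem cw_mem (i : ℤ) : cw i ∈ commutator F2 := by
  have h : cm ∈ commutator F2 :=
    Subgroup.commutator_mem_commutator (Subgroup.mem_top ga) (Subgroup.mem_top gb)
  exact (Subgroup.commutator_normal ⊤ ⊤).conj_mem _ h _

theorem g2Braid_indH_of (e : ℕ) (m : Gen × ZMod 3) :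
    indH e (FreeGroup.of m) = rot3^[e * m.2.val] (cw m.1.idx) := by
  simp [indH]

theorem indH_mem (e : ℕ) (w : FT) : indH e w ∈ commutator F2 := by
  induction w using FreeGroup.induction_on with
  | C1 => rw [map_one]; exact one_mem _
  | of x => rw [g2Braid_indH_of]; exact rot3_iter_mem _ _ (cw_mem _)
  | inv_of x hx => rw [map_inv]; exact inv_mem hx
  | mul x y hx hy => rw [map_mul]; exact mul_mem hx hy

/-- The exponent sum of the second generator. -/
def g2Braid_n : F2 →* Multiplicative ℤ :=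
  FreeGroup.lift fun x => if x then Multiplicative.ofAdd 1 else 1

theorem g2Braid_om_ph0 (u : F2) :
    om * ph0 u * om⁻¹ = ph0 (rot3 u) * (om ^ 3) ^ (g2Braid_n u).toAdd := by
  have hc : ∀ (x : F2) (k : ℤ), Commute ((om ^ 3) ^ k) (ph0 x) := fun x k =>
    (om_cube_comm _ (ph0_mem x)).zpow_left k
  induction u using g2Braid_ind with
  | h1 => simp
  | ha =>
    have h1 : g2Braid_n ga = 1 := by simp [g2Braid_n, ga]
    rw [h1, g2Braid_rot_a, g2Braid_ph0_a, g2Braid_ph0_b, toAdd_one, zpow_zero, mul_one,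
      mul_inv_eq_iff_eq_mul, pow_two, pow_two, ← mul_assoc, g2Braid_om_sA, mul_assoc,
      g2Braid_om_sA, mul_assoc]
  | hb =>
    have h1 : g2Braid_n gb = Multiplicative.ofAdd 1 := by simp [g2Braid_n, gb]
    rw [h1, g2Braid_rot_b, toAdd_ofAdd, ← (hc _ _).eq, zpow_one, map_inv, map_mul, g2Braid_ph0_a,
      g2Braid_ph0_b, g2Braid_om_cube, om]
    simp only [pow_two]
    group
  | hm x y hx hy =>
    have h1 : om * ph0 (x * y) * om⁻¹ = (om * ph0 x * om⁻¹) * (om * ph0 y * om⁻¹) := by
      rw [map_mul]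
      group
    rw [h1, hx, hy, map_mul, map_mul, map_mul, toAdd_mul, zpow_add, mul_assoc, ← mul_assoc _ (ph0 _),
      (hc _ _).eq]
    simp only [mul_assoc]
  | hi x hx =>
    have h1 : om * ph0 x⁻¹ * om⁻¹ = (om * ph0 x * om⁻¹)⁻¹ := by
      rw [map_inv]
      group
    rw [h1, hx, map_inv, map_inv, map_inv, toAdd_inv, zpow_neg, ← (hc _ _).eq, mul_inv_rev]

theorem om_ph0 (u : F2) (h : u ∈ commutator F2) : om * ph0 u * om⁻¹ = ph0 (rot3 u) := by
  have h1 : g2Braid_n u = 1 := Abelianization.commutator_subset_ker g2Braid_n h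
  rw [g2Braid_om_ph0, h1, toAdd_one, zpow_zero, mul_one]

theorem g2Braid_om_sq (u : F2) (h : u ∈ commutator F2) :
    om ^ 2 * ph0 u * (om ^ 2)⁻¹ = ph0 (rot3 (rot3 u)) := by
  rw [← om_ph0 _ (g2Braid_rot_mem u h), ← om_ph0 u h, pow_two]
  group

theorem g2Braid_iter_mod (n : ℕ) (u : F2) : rot3^[n] u = rot3^[n % 3] u := by
  have h : ∀ k, rot3^[3 * k] u = u := by
    intro k
    induction k with
    | zero => rfl
    | succ k ih =>
      rw [Nat.mul_succ, Nat.add_comm, Function.iterate_add_apply, ih]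
      exact rot3_three u
  conv_lhs => rw [← Nat.mod_add_div n 3, Function.iterate_add_apply, h]

theorem om_sq_indH (m : Gen) (f : ZMod 3) :
    om ^ 2 * ph0 (indH 2 (FreeGroup.of (m, f))) * (om ^ 2)⁻¹ =
      ph0 (indH 2 (FreeGroup.of (m, f + 1))) := by
  rw [g2Braid_om_sq _ (indH_mem _ _), g2Braid_indH_of, g2Braid_indH_of]
  have h1 : (2 * (f + 1).val) % 3 = (2 * f.val + 1 + 1) % 3 := by revert f; decide
  show ph0 (rot3 (rot3 (rot3^[2 * f.val] (cw m.idx)))) = ph0 (rot3^[2 * (f + 1).val] (cw m.idx))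
  rw [g2Braid_iter_mod (2 * (f + 1).val), h1, ← g2Braid_iter_mod, Function.iterate_succ_apply',
    Function.iterate_succ_apply']

theorem om_sq_inv_indH (m : Gen) (f : ZMod 3) :
    (om ^ 2)⁻¹ * ph0 (indH 1 (FreeGroup.of (m, f))) * om ^ 2 =
      ph0 (indH 1 (FreeGroup.of (m, f + 1))) := by
  have h0 := g2Braid_om_sq _ (indH_mem 1 (FreeGroup.of (m, f + 1)))
  have h2 : rot3 (rot3 (indH 1 (FreeGroup.of (m, f + 1)))) = indH 1 (FreeGroup.of (m, f)) := by
    rw [g2Braid_indH_of, g2Braid_indH_of]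
    have h1 : (1 * f.val) % 3 = (1 * (f + 1).val + 1 + 1) % 3 := by clear h0; revert f; decide
    show rot3 (rot3 (rot3^[1 * (f + 1).val] (cw m.idx))) = rot3^[1 * f.val] (cw m.idx)
    rw [g2Braid_iter_mod (1 * f.val), h1, ← g2Braid_iter_mod, Function.iterate_succ_apply',
      Function.iterate_succ_apply']
  rw [h2] at h0
  rw [← h0]
  group

/-- Pure braids act trivially on homology modulo two. -/
theorem chi_ph0 (χ : F2 →* ℤˣ) (u w : F2) : χ (ph0 u w) = χ w := by
  have key : ∀ α : MulAut F2, χ (α ga) = χ ga → χ (α gb) = χ gb → ∀ w, χ (α w) = χ w := by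
    intro α h1 h2 w
    induction w using g2Braid_ind with
    | h1 => simp
    | ha => exact h1
    | hb => exact h2
    | hm x y hx hy => simp only [map_mul, hx, hy]
    | hi x hx => simp only [map_inv, hx]
  induction u using g2Braid_ind generalizing w with
  | h1 => simp
  | ha =>
    rw [g2Braid_ph0_a]
    refine key _ ?_ ?_ w <;>
      simp only [pow_two, MulAut.mul_apply, map_mul, sA_ga, sA_gb]
    rw [mul_assoc, Int.units_mul_self, mul_one]
  | hb =>
    rw [g2Braid_ph0_b]
    refine key _ ?_ ?_ w <;>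
      simp only [pow_two, MulAut.mul_apply, map_mul, map_inv, sB_ga, sB_gb]
    rw [mul_assoc, Int.units_mul_self, mul_one]
  | hm x y hx hy => rw [map_mul, MulAut.mul_apply, hx, hy]
  | hi x hx =>
    have h := hx (ph0 x⁻¹ w)
    rw [← MulAut.mul_apply, ← map_mul, mul_inv_cancel, map_one, MulAut.one_apply] at h
    exact h.symm

theorem exists_chi_om : ∃ χ : F2 →* ℤˣ, χ ((om ^ 2) ga) ≠ χ ga := by
  refine ⟨FreeGroup.lift fun x => if x then -1 else 1, ?_⟩
  simp only [pow_two, MulAut.mul_apply, map_mul, map_inv, g2Braid_om_a, g2Braid_om_b]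
  simp [ga, gb]

end Pool.Agent.Lib.MP_66609f_al
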