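import Pool.Agent.Lib.MP_66609f_al.G2Defs

namespace Pool.Agent.Lib.MP_66609f_al

/-- Number of steps of the subtractive Euclidean algorithm. -/
def g2Eu_eu (a b : ℕ) : ℕ :=
  if a = 0 ∨ b = 0 then 0
  else if b ≤ a then g2Eu_eu (a - b) b + 1 else g2Eu_eu a (b - a) + 1
termination_by a + b
decreasing_by all_goals omega

lemma g2Eu_zero_left (b : ℕ) : g2Eu_eu 0 b = 0 := by rw [g2Eu_eu]; simp

lemma g2Eu_zero_right (a : ℕ) : g2Eu_eu a 0 = 0 := by rw [g2Eu_eu]; simp

lemma g2Eu_add_left (a b : ℕ) (hb : 0 < b) : g2Eu_eu (a + b) b = g2Eu_eu a b + 1 := by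
  rw [g2Eu_eu, if_neg (by omega), if_pos (by omega), Nat.add_sub_cancel]

lemma g2Eu_add_right (a b : ℕ) (ha : 0 < a) (hb : 0 < b) :
    g2Eu_eu a (a + b) = g2Eu_eu a b + 1 := by
  rw [g2Eu_eu, if_neg (by omega), if_neg (by omega), Nat.add_sub_cancel_left]

lemma g2Eu_symm_aux (n : ℕ) : ∀ a b, a + b ≤ n → g2Eu_eu a b = g2Eu_eu b a := by
  induction n with
  | zero =>
    intro a b h
    obtain rfl : a = 0 := by omega
    rw [g2Eu_zero_left, g2Eu_zero_right]
  | succ n ih =>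
    have key : ∀ a b, a + b ≤ n + 1 → a < b → g2Eu_eu a b = g2Eu_eu b a := by
      intro a b h hab
      rcases Nat.eq_zero_or_pos a with rfl | ha
      · rw [g2Eu_zero_left, g2Eu_zero_right]
      obtain ⟨c, rfl⟩ := Nat.exists_eq_add_of_le hab.le
      rw [g2Eu_add_right a c ha (by omega), add_comm a c, g2Eu_add_left c a ha,
        ih a c (by omega)]
    intro a b h
    rcases lt_trichotomy a b with hab | rfl | hab
    · exact key a b h hab
    · rfl
    · exact (key b a (by omega) hab).symm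

lemma g2Eu_symm (a b : ℕ) : g2Eu_eu a b = g2Eu_eu b a := g2Eu_symm_aux _ a b le_rfl

lemma g2Eu_step (a a' b : ℕ) (h : a' = a + b ∨ a = a' + b ∨ a + a' = b) :
    g2Eu_eu a' b ≤ g2Eu_eu a b + 1 := by
  rcases Nat.eq_zero_or_pos b with rfl | hb
  · rw [g2Eu_zero_right]; omega
  rcases h with rfl | rfl | rfl
  · rw [g2Eu_add_left a b hb]
  · rw [g2Eu_add_left a' b hb]; omega
  · rcases Nat.eq_zero_or_pos a' with rfl | ha'
    · rw [g2Eu_zero_left]; omega
    rcases Nat.eq_zero_or_pos a with rfl | ha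
    · have := g2Eu_add_left 0 a' ha'
      rw [g2Eu_zero_left] at this
      rw [zero_add] at this ⊢
      omega
    rw [g2Eu_add_right a a' ha ha', add_comm a a', g2Eu_add_right a' a ha' ha, g2Eu_symm a a']
    omega

lemma g2Eu_one (k : ℕ) : g2Eu_eu k 1 = k := by
  induction k with
  | zero => exact g2Eu_zero_left 1
  | succ k ih => rw [g2Eu_add_left k 1 one_pos, ih]

/-- The length function on pairs of integers. -/
def g2Eu_E (v : ℤ × ℤ) : ℕ := g2Eu_eu v.1.natAbs v.2.natAbs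

lemma g2Eu_E_swap (s w : ℤ) : g2Eu_E (s, w) = g2Eu_E (w, s) := g2Eu_symm _ _

lemma g2Eu_E_add (s w : ℤ) : g2Eu_E (s + w, w) ≤ g2Eu_E (s, w) + 1 :=
  g2Eu_step _ _ _ (by simp only; omega)

lemma g2Eu_E_sub (s w : ℤ) : g2Eu_E (s - w, w) ≤ g2Eu_E (s, w) + 1 :=
  g2Eu_step _ _ _ (by simp only; omega)

lemma g2Eu_shear (s w j : ℤ) : g2Eu_E (s + j * w, w) ≤ g2Eu_E (s, w) + j.natAbs := by
  induction j using Int.induction_on with
  | zero => simp
  | succ n ih =>
    have h := g2Eu_E_add (s + n * w) w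
    have e : s + ((n : ℤ) + 1) * w = s + n * w + w := by ring
    rw [e]
    omega
  | pred n ih =>
    have h := g2Eu_E_sub (s + -(n : ℤ) * w) w
    have e : s + (-(n : ℤ) - 1) * w = s + -(n : ℤ) * w - w := by ring
    rw [e]
    omega

lemma g2Eu_lip_aux (n : ℕ) : ∀ a b c d e : ℤ, c.natAbs ≤ n → (a * d - b * c) * e = 1 →
    ∃ C : ℕ, ∀ s w : ℤ, g2Eu_E (a * s + b * w, c * s + d * w) ≤ g2Eu_E (s, w) + C := by
  have base : ∀ a b d e : ℤ, (a * d - b * 0) * e = 1 →
      ∃ C : ℕ, ∀ s w : ℤ, g2Eu_E (a * s + b * w, 0 * s + d * w) ≤ g2Eu_E (s, w) + C := by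
    intro a b d e h
    have ha : a = 1 ∨ a = -1 := Int.eq_one_or_neg_one_of_mul_eq_one (v := d * e) (by linarith)
    have hd : d = 1 ∨ d = -1 := Int.eq_one_or_neg_one_of_mul_eq_one (v := a * e) (by linarith)
    refine ⟨(a * b).natAbs, fun s w => ?_⟩
    have h1 := g2Eu_shear s w (a * b)
    have e1 : (a * s + b * w).natAbs = (s + a * b * w).natAbs := by
      rcases ha with rfl | rfl
      · congr 1; ring
      · rw [← Int.natAbs_neg]; congr 1; ring
    have e2 : (0 * s + d * w).natAbs = w.natAbs := by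
      rcases hd with rfl | rfl <;> simp
    simp only [g2Eu_E] at h1 ⊢
    rw [e1, e2]
    exact h1
  induction n with
  | zero =>
    intro a b c d e hc h
    obtain rfl : c = 0 := by omega
    exact base a b d e h
  | succ n ih =>
    intro a b c d e hc h
    by_cases hc0 : c = 0
    · subst hc0; exact base a b d e h
    have hr : (a % c).natAbs ≤ n := by
      have h1 := Int.emod_nonneg a hc0
      have h2 := Int.emod_lt_abs a hc0
      have h3 : |c| = c.natAbs := Int.abs_eq_natAbs c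
      omega
    have hdiv : a % c = a - c * (a / c) := Int.emod_def a c
    obtain ⟨C, hC⟩ := ih c d (a % c) (b - a / c * d) (-e) hr (by rw [hdiv]; linear_combination h)
    refine ⟨C + (a / c).natAbs, fun s w => ?_⟩
    have h1 := hC s w
    have h2 := g2Eu_shear (a % c * s + (b - a / c * d) * w) (c * s + d * w) (a / c)
    have e1 : a % c * s + (b - a / c * d) * w + a / c * (c * s + d * w) = a * s + b * w := by
      rw [hdiv]; ring
    rw [e1, g2Eu_E_swap (a % c * s + (b - a / c * d) * w)] at h2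
    omega

theorem exists_isEu : ∃ E : ℤ × ℤ → ℕ, IsEu E := by
  refine ⟨g2Eu_E, fun v => by simp [g2Eu_E], fun M => ?_, g2Eu_shear, fun k => ?_⟩
  · have hM : ∀ s w : ℤ, M (s, w) = ((M (1, 0)).1 * s + (M (0, 1)).1 * w,
        (M (1, 0)).2 * s + (M (0, 1)).2 * w) := by
      intro s w
      have e : ((s, w) : ℤ × ℤ) = s • ((1, 0) : ℤ × ℤ) + w • ((0, 1) : ℤ × ℤ) := by simp
      rw [e, map_add, map_zsmul, map_zsmul]
      ext <;> simp [mul_comm]
    obtain ⟨⟨x, y⟩, h1⟩ := M.surjective (1, 0)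
    obtain ⟨⟨z, t⟩, h2⟩ := M.surjective (0, 1)
    rw [hM, Prod.mk.injEq] at h1 h2
    obtain ⟨C, hC⟩ := g2Eu_lip_aux _ (M (1, 0)).1 (M (0, 1)).1 (M (1, 0)).2 (M (0, 1)).2
      (x * t - z * y) le_rfl (by
        linear_combination ((M (1, 0)).2 * z + (M (0, 1)).2 * t) * h1.1 + h2.2
          - ((M (1, 0)).1 * z + (M (0, 1)).1 * t) * h1.2)
    refine ⟨C, fun v => ?_⟩
    obtain ⟨s, w⟩ := v
    rw [hM]
    exact hC s w
  · simp only [g2Eu_E, Int.natAbs_one, g2Eu_one, le_refl]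

end Pool.Agent.Lib.MP_66609f_al
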