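import Pool.Agent.Lib.MP_66609f_al.G2Braid

namespace Pool.Agent.Lib.MP_66609f_al

theorem g2Ind_idx_inj : Function.Injective Gen.idx := by
  intro m m' h
  rcases m with _ | _ | _ | _ | (_ | _ | _ | _ | _) <;>
    rcases m' with _ | _ | _ | _ | (_ | _ | _ | _ | _) <;>
    simp_all [Gen.idx, St.num]

theorem g2Ind_idx_pos (m : Gen) : 1 ≤ m.idx := by
  rcases m with _ | _ | _ | _ | (_ | _ | _ | _ | _) <;> simp [Gen.idx, St.num]

/-- Decoding of an index. -/
noncomputable def g2Ind_dec (f : ZMod 3) : ℤ → FT :=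
  Function.extend Gen.idx (fun m => FreeGroup.of (m, f)) (fun _ => 1)

theorem g2Ind_dec_idx (f : ZMod 3) (m : Gen) : g2Ind_dec f m.idx = FreeGroup.of (m, f) :=
  g2Ind_idx_inj.extend_apply _ _ m

theorem g2Ind_dec_nonpos (f : ZMod 3) {k : ℤ} (hk : k ≤ 0) : g2Ind_dec f k = 1 := by
  unfold g2Ind_dec
  rw [Function.extend_apply']
  rintro ⟨m, rfl⟩
  have := g2Ind_idx_pos m
  omega

/-- Labels of the horizontal edges. -/
noncomputable def g2Ind_labA (p : ℤ × ℤ) : FT :=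
  if p.2 = 1 then (g2Ind_dec 0 p.1)⁻¹ else if p.2 = p.1 - 1 then g2Ind_dec 2 (-p.1) else 1

/-- Labels of the vertical edges. -/
noncomputable def g2Ind_labB (p : ℤ × ℤ) : FT :=
  if p.1 = -1 then (g2Ind_dec 1 (p.2 + 1))⁻¹ else 1

/-- One step in direction `v`, recording the label of the edge. -/
def g2Ind_step (lab : ℤ × ℤ → FT) (v : ℤ × ℤ) : Equiv.Perm (FT × (ℤ × ℤ)) where
  toFun q := (q.1 * lab q.2, q.2 + v)
  invFun q := (q.1 * (lab (q.2 - v))⁻¹, q.2 - v)
  left_inv q := by simp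
  right_inv q := by simp

/-- The action of the free group on recorded positions. -/
noncomputable def g2Ind_act : F2 →* Equiv.Perm (FT × (ℤ × ℤ)) :=
  FreeGroup.lift fun b =>
    if b then (g2Ind_step g2Ind_labB (0, 1))⁻¹ else (g2Ind_step g2Ind_labA (1, 0))⁻¹

/-- Reading a word from left to right. -/
noncomputable def g2Ind_run (w : F2) (q : FT × (ℤ × ℤ)) : FT × (ℤ × ℤ) := g2Ind_act w⁻¹ q

theorem g2Ind_run_one (q : FT × (ℤ × ℤ)) : g2Ind_run 1 q = q := by
  simp [g2Ind_run]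

theorem g2Ind_run_mul (u w : F2) (q : FT × (ℤ × ℤ)) :
    g2Ind_run (u * w) q = g2Ind_run w (g2Ind_run u q) := by
  simp [g2Ind_run]

theorem g2Ind_run_inv {u : F2} {q q' : FT × (ℤ × ℤ)} (h : g2Ind_run u q = q') :
    g2Ind_run u⁻¹ q' = q := by
  rw [← h, ← g2Ind_run_mul, mul_inv_cancel, g2Ind_run_one]

theorem g2Ind_run_a (g : FT) (x y : ℤ) :
    g2Ind_run ga (g, (x, y)) = (g * g2Ind_labA (x, y), (x + 1, y)) := by
  simp [g2Ind_run, g2Ind_act, ga, g2Ind_step]

theorem g2Ind_run_b (g : FT) (x y : ℤ) :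
    g2Ind_run gb (g, (x, y)) = (g * g2Ind_labB (x, y), (x, y + 1)) := by
  simp [g2Ind_run, g2Ind_act, gb, g2Ind_step]

theorem g2Ind_run_a' (g : FT) (x y : ℤ) :
    g2Ind_run ga⁻¹ (g, (x, y)) = (g * (g2Ind_labA (x - 1, y))⁻¹, (x - 1, y)) := by
  apply g2Ind_run_inv
  rw [g2Ind_run_a]
  simp

theorem g2Ind_run_b' (g : FT) (x y : ℤ) :
    g2Ind_run gb⁻¹ (g, (x, y)) = (g * (g2Ind_labB (x, y - 1))⁻¹, (x, y - 1)) := by
  apply g2Ind_run_inv
  rw [g2Ind_run_b]
  simp

/-- The loop `x` based at the origin records `y`. -/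
def g2Ind_Rel (x : F2) (y : FT) : Prop := ∀ g, g2Ind_run x (g, (0, 0)) = (g * y, (0, 0))

theorem g2Ind_rel_one : g2Ind_Rel 1 1 := by
  intro g
  simp [g2Ind_run_one]

theorem g2Ind_rel_mul {x x' : F2} {y y' : FT} (h : g2Ind_Rel x y) (h' : g2Ind_Rel x' y') :
    g2Ind_Rel (x * x') (y * y') := by
  intro g
  rw [g2Ind_run_mul, h, h', mul_assoc]

theorem g2Ind_rel_inv {x : F2} {y : FT} (h : g2Ind_Rel x y) : g2Ind_Rel x⁻¹ y⁻¹ := by
  intro g
  apply g2Ind_run_inv
  rw [h]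
  simp

theorem g2Ind_run_pow (u : F2) (s t : ℤ)
    (hu : ∀ (g : FT) (l : ℕ), g2Ind_run u (g, (l * s, l * t)) = (g, ((l + 1) * s, (l + 1) * t)))
    (g : FT) (n : ℕ) : g2Ind_run (u ^ n) (g, (0, 0)) = (g, (n * s, n * t)) := by
  induction n with
  | zero => simp [g2Ind_run_one]
  | succ n ih =>
    rw [pow_succ, g2Ind_run_mul, ih, hu]
    simp

theorem g2Ind_rel_conj (u c : F2) (y : FT) (s t i : ℤ) (hi : 1 ≤ i)
    (hu : ∀ (g : FT) (l : ℕ), g2Ind_run u (g, (l * s, l * t)) = (g, ((l + 1) * s, (l + 1) * t)))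
    (hc : ∀ g : FT, g2Ind_run c (g, (i * s, i * t)) = (g * y, (i * s, i * t))) :
    g2Ind_Rel (u ^ i * c * (u ^ i)⁻¹) y := by
  obtain ⟨n, rfl⟩ := Int.eq_ofNat_of_zero_le (show 0 ≤ i by omega)
  intro g
  rw [zpow_natCast, g2Ind_run_mul, g2Ind_run_mul, g2Ind_run_pow u s t hu, hc]
  exact g2Ind_run_inv (g2Ind_run_pow u s t hu _ n)

theorem g2Ind_rot_a : rot3 ga = gb := by simp [rot3, ga]

theorem g2Ind_rot_b : rot3 gb = (ga * gb)⁻¹ := by simp [rot3, gb]

theorem g2Ind_fam0 (m : Gen) : g2Ind_Rel (cw m.idx) (FreeGroup.of (m, 0)) := by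
  have hi := g2Ind_idx_pos m
  refine g2Ind_rel_conj ga cm _ 1 0 _ hi ?_ ?_
  · intro g l
    rw [g2Ind_run_a]
    have : g2Ind_labA ((l : ℤ) * 1, (l : ℤ) * 0) = 1 := by
      unfold g2Ind_labA
      rw [if_neg (by simp)]
      split_ifs
      · exact g2Ind_dec_nonpos _ (by simp)
      · rfl
    rw [this]
    simp
  · intro g
    have h1 : g2Ind_labA (m.idx, 0) = 1 := by
      unfold g2Ind_labA
      rw [if_neg (by simp)]
      split_ifs
      · exact g2Ind_dec_nonpos _ (by simp; omega)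
      · rfl
    have h2 : g2Ind_labB (m.idx + 1, 0) = 1 := by
      unfold g2Ind_labB
      rw [if_neg (by simp; omega)]
    have h3 : g2Ind_labB (m.idx, 0) = 1 := by
      unfold g2Ind_labB
      rw [if_neg (by simp; omega)]
    have h4 : g2Ind_labA (m.idx, 1) = (FreeGroup.of (m, 0))⁻¹ := by
      unfold g2Ind_labA
      rw [if_pos rfl, g2Ind_dec_idx]
    simp only [cm, g2Ind_run_mul, g2Ind_run_a, g2Ind_run_b, g2Ind_run_a', g2Ind_run_b', mul_one,
      mul_zero, zero_add, add_sub_cancel_right, sub_self, h1, h2, h3, h4, inv_inv, inv_one]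

theorem g2Ind_fam1 (m : Gen) : g2Ind_Rel (rot3 (cw m.idx)) (FreeGroup.of (m, 1)) := by
  have hi := g2Ind_idx_pos m
  have e : rot3 (cw m.idx) = gb ^ m.idx * (ga⁻¹ * gb⁻¹ * ga * gb) * (gb ^ m.idx)⁻¹ := by
    simp only [cw, cm, map_mul, map_inv, map_zpow, g2Ind_rot_a, g2Ind_rot_b]
    group
  rw [e]
  refine g2Ind_rel_conj gb _ _ 0 1 _ hi ?_ ?_
  · intro g l
    rw [g2Ind_run_b]
    have : g2Ind_labB ((l : ℤ) * 0, (l : ℤ) * 1) = 1 := by
      unfold g2Ind_labB
      rw [if_neg (by simp)]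
    rw [this]
    simp
  · intro g
    have h1 : ∀ y : ℤ, 0 ≤ y → g2Ind_labA (-1, y) = 1 := by
      intro y hy
      unfold g2Ind_labA
      split_ifs with c1 c2
      · rw [g2Ind_dec_nonpos _ (by simp), inv_one]
      · simp only at c2
        omega
      · rfl
    have h2 : g2Ind_labB (-1, m.idx - 1) = (FreeGroup.of (m, 1))⁻¹ := by
      unfold g2Ind_labB
      rw [if_pos rfl]
      simp only [sub_add_cancel]
      rw [g2Ind_dec_idx]
    have h3 : g2Ind_labB (0, m.idx - 1) = 1 := by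
      unfold g2Ind_labB
      rw [if_neg (by simp)]
    simp only [g2Ind_run_mul, g2Ind_run_a, g2Ind_run_b, g2Ind_run_a', g2Ind_run_b', mul_one,
      mul_zero, zero_sub, neg_add_cancel, sub_add_cancel, h1 m.idx (by omega),
      h1 (m.idx - 1) (by omega), h2, h3, inv_inv, inv_one]

theorem g2Ind_fam2 (m : Gen) : g2Ind_Rel (rot3 (rot3 (cw m.idx))) (FreeGroup.of (m, 2)) := by
  have hi := g2Ind_idx_pos m
  have e : rot3 (rot3 (cw m.idx)) =
      (gb⁻¹ * ga⁻¹) ^ m.idx * (gb⁻¹ * ga * gb * ga⁻¹) * ((gb⁻¹ * ga⁻¹) ^ m.idx)⁻¹ := by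
    simp only [cw, cm, map_mul, map_inv, map_zpow, g2Ind_rot_a, g2Ind_rot_b, mul_inv_rev]
    congr 2
    group
  rw [e]
  have hB : ∀ x y : ℤ, y < 0 → g2Ind_labB (x, y) = 1 := by
    intro x y hy
    unfold g2Ind_labB
    split_ifs
    · rw [g2Ind_dec_nonpos _ (by simp; omega), inv_one]
    · rfl
  have hA : ∀ x : ℤ, x < 0 → g2Ind_labA (x, x) = 1 := by
    intro x hx
    unfold g2Ind_labA
    rw [if_neg (by simp; omega), if_neg (by simp; omega)]
  refine g2Ind_rel_conj _ _ _ (-1) (-1) _ hi ?_ ?_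
  · intro g l
    rw [g2Ind_run_mul, g2Ind_run_b', g2Ind_run_a', hB _ _ (by omega), hA _ (by omega)]
    simp only [inv_one, mul_one, Prod.mk.injEq, true_and]
    constructor <;> ring
  · intro g
    have h2 : g2Ind_labA (-m.idx, -m.idx - 1) = FreeGroup.of (m, 2) := by
      unfold g2Ind_labA
      rw [if_neg (by simp; omega), if_pos rfl]
      simp only [neg_neg]
      rw [g2Ind_dec_idx]
    simp only [g2Ind_run_mul, g2Ind_run_a, g2Ind_run_b, g2Ind_run_a', g2Ind_run_b', mul_one,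
      mul_neg, sub_add_cancel, add_sub_cancel_right, h2, hB _ (-m.idx - 1) (by omega),
      hA (-m.idx) (by omega), inv_one]

theorem g2Ind_zmod (f : ZMod 3) : f = 0 ∨ f = 1 ∨ f = 2 := by
  revert f
  decide

theorem g2Ind_rel (w : FT) : g2Ind_Rel (indH 1 w) w := by
  induction w using FreeGroup.induction_on with
  | C1 => simpa using g2Ind_rel_one
  | of m =>
    obtain ⟨m, f⟩ := m
    rw [indH, FreeGroup.lift_apply_of]
    rcases g2Ind_zmod f with rfl | rfl | rfl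
    · exact g2Ind_fam0 m
    · exact g2Ind_fam1 m
    · exact g2Ind_fam2 m
  | inv_of m ih =>
    rw [map_inv]
    exact g2Ind_rel_inv ih
  | mul x y hx hy =>
    rw [map_mul]
    exact g2Ind_rel_mul hx hy

theorem indH_one_injective : Function.Injective (indH 1) := by
  intro w w' h
  have h1 := g2Ind_rel w 1
  have h2 := g2Ind_rel w' 1
  rw [h, h2] at h1
  simpa using h1.symm

/-- Doubling the family index. -/
def g2Ind_dbl : FT →* FT := FreeGroup.map fun m => (m.1, 2 * m.2)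

theorem g2Ind_dbl_dbl (w : FT) : g2Ind_dbl (g2Ind_dbl w) = w := by
  have : g2Ind_dbl.comp g2Ind_dbl = MonoidHom.id FT := by
    ext m
    obtain ⟨m, f⟩ := m
    have h : ∀ f : ZMod 3, 2 * (2 * f) = f := by decide
    simp [g2Ind_dbl, h]
  exact DFunLike.congr_fun this w

theorem g2Ind_two (w : FT) : indH 2 w = indH 1 (g2Ind_dbl w) := by
  have : indH 2 = (indH 1).comp g2Ind_dbl := by
    ext m
    obtain ⟨m, f⟩ := m
    simp only [g2Ind_dbl, indH, MonoidHom.comp_apply, FreeGroup.map.of, FreeGroup.lift_apply_of]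
    rcases g2Ind_zmod f with rfl | rfl | rfl
    · rfl
    · rfl
    · exact congrArg _ (rot3_three (rot3 (cw m.idx)))
  rw [this]
  rfl

theorem indH_two_injective : Function.Injective (indH 2) := by
  intro w w' h
  rw [g2Ind_two, g2Ind_two] at h
  have := congrArg g2Ind_dbl (indH_one_injective h)
  rwa [g2Ind_dbl_dbl, g2Ind_dbl_dbl] at this

end Pool.Agent.Lib.MP_66609f_al
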