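import Pool.Agent.Lib.MP_66609f_al.G2Act
import Pool.Agent.Lib.MP_66609f_al.G2Eu
import Pool.Agent.Lib.MP_66609f_al.G2Ind

namespace Pool.Agent.Lib.MP_66609f_al

/-- The class of an orientation-preserving automorphism. -/
def g2cls : AutPlus 2 →* Mod 2 :=
  ((QuotientGroup.mk' (Inn P2)).comp (AutPlus 2).subtype).codRestrict (Mod 2)
    fun φ => ⟨φ.1, φ.2, rfl⟩

theorem g2cls_eq_iff (φ ψ : AutPlus 2) :
    g2cls φ = g2cls ψ ↔ (φ : MulAut P2)⁻¹ * (ψ : MulAut P2) ∈ Inn P2 := by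
  rw [← QuotientGroup.eq]
  exact Subtype.ext_iff

theorem g2cls_surj (x : Mod 2) : ∃ φ, g2cls φ = x := by
  obtain ⟨_, φ, hφ, rfl⟩ := x
  exact ⟨⟨φ, hφ⟩, rfl⟩

/-- A representative. -/
noncomputable def g2rep (x : Mod 2) : MulAut P2 := (g2cls_surj x).choose

theorem g2rep_cls (φ : AutPlus 2) : (g2rep (g2cls φ))⁻¹ * (φ : MulAut P2) ∈ Inn P2 :=
  (g2cls_eq_iff _ _).1 (g2cls_surj (g2cls φ)).choose_spec

def g2ph (u : F2) : B3 := ⟨ph0 u, ph0_mem u⟩

def g2phH : F2 →* B3 := ph0.codRestrict B3 ph0_mem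

def g2om : B3 := ⟨om, om_mem⟩

/-- The machine elements in the product of the two braid groups. -/
def g2mach : FT →* B3 × B3 :=
  MonoidHom.prod (g2phH.comp ((indH 2).comp (pr3 false))) (g2phH.comp ((indH 1).comp (pr3 true)))

theorem g2mach_false (m : Gen × ZMod 3) (h : m.1.crd = false) :
    g2mach (FreeGroup.of m) = (g2phH (indH 2 (FreeGroup.of m)), 1) := by
  simp [g2mach, pr3, h]

theorem g2mach_true (m : Gen × ZMod 3) (h : m.1.crd = true) :
    g2mach (FreeGroup.of m) = (1, g2phH (indH 1 (FreeGroup.of m))) := by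
  simp [g2mach, pr3, h]

theorem g2om_six_comm (α : B3) : Commute (g2om ^ 6) α := by
  have h := (om_cube_comm α α.2).pow_left 2
  rw [← pow_mul] at h
  exact Subtype.ext h

theorem nonempty_setup2 : Nonempty (Setup2 (Mod 2)) := by
  obtain ⟨X, hX⟩ := exists_ext
  obtain ⟨E, hE⟩ := exists_isEu
  obtain ⟨χ, hχs⟩ := exists_split
  have hχ : χ ≠ 1 := by
    rintro rfl
    exact hχs.1 (MonoidHom.one_comp _)
  obtain ⟨d, hd, hd0⟩ := Lc_surj hχ (0, 1)
  let Y : B3 × B3 →* Mod 2 := g2cls.comp X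
  have hY : ∀ p, Y p = g2cls (X p) := fun _ => rfl
  have hlift : ∀ w : FT, FreeGroup.lift (fun m => Y (g2mach (FreeGroup.of m))) w =
      Y (g2mach w) := by
    intro w
    have h : FreeGroup.lift (fun m => Y (g2mach (FreeGroup.of m))) = Y.comp g2mach := by
      ext m
      simp
    rw [h]
    rfl
  have hTh : ∀ φ : AutPlus 2, ThE E χ d (g2rep (g2cls φ)) = ThE E χ d φ := fun φ =>
    ThE_inn hE hχ hd _ _ (g2rep_cls φ)
  have hH : ∀ φ : AutPlus 2, Split (χ.comp (g2rep (g2cls φ))⁻¹.toMonoidHom) ↔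
      Split (χ.comp (φ : MulAut P2)⁻¹.toMonoidHom) := fun φ => by
    rw [chi_inn χ _ _ (g2rep_cls φ)]
  have hHY : ∀ p (g : Mod 2), Split (χ.comp (g2rep (Y p * g))⁻¹.toMonoidHom) ↔
      Split (χ.comp (g2rep g)⁻¹.toMonoidHom) := by
    intro p g
    obtain ⟨φ, rfl⟩ := g2cls_surj g
    rw [hY, ← map_mul, hH, hH]
    exact split_ext (hX p) χ φ
  have hT : IsExt (X (g2om ^ 6, 1) : MulAut P2) (om ^ 6) 1 := hX (g2om ^ 6, 1)
  have hM : ∀ w, IsExt (X (g2mach w) : MulAut P2) (ph0 (indH 2 (pr3 false w)))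
      (ph0 (indH 1 (pr3 true w))) := fun w => hX (g2mach w)
  refine ⟨{
    T := Y (g2om ^ 6, 1)
    κ := Y (g2om ^ 2, (g2om ^ 2)⁻¹)
    gn := fun m => Y (g2mach (FreeGroup.of m))
    Θ := fun x => ThE E χ d (g2rep x)
    H := fun x => Split (χ.comp (g2rep x)⁻¹.toMonoidHom)
    κ3 := ?_
    κT := ?_
    T_gn := ?_
    κ_gn := ?_
    comm := ?_
    det := ?_
    detκ := ?_
    th0 := ⟨0, fun k => ?_⟩
    th1 := ?_
    th2 := ⟨0, fun j w g hg => ?_⟩
    th3 := ⟨0, fun j g hg => ?_⟩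
    H_one := ?_
    H_T := fun g => hHY _ g
    H_gn := fun m g => hHY _ g
    H_κ := fun g => hHY _ g }⟩
  · rw [← map_pow, hY, ← map_one g2cls, eq_comm, g2cls_eq_iff]
    have h1 := hX ((g2om ^ 2, (g2om ^ 2)⁻¹) ^ 3)
    have h2 : (((g2om ^ 2, (g2om ^ 2)⁻¹) ^ 3 : B3 × B3).1 : MulAut F2) = om ^ 6 := by
      show (om ^ 2) ^ 3 = om ^ 6
      rw [← pow_mul]
    have h3 : (((g2om ^ 2, (g2om ^ 2)⁻¹) ^ 3 : B3 × B3).2 : MulAut F2) = (om ^ 6)⁻¹ := by
      show ((om ^ 2)⁻¹) ^ 3 = (om ^ 6)⁻¹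
      rw [inv_pow, ← pow_mul]
    rw [h2, h3] at h1
    rw [h1.unique isExt_conj]
    exact ⟨(emb false cm)⁻¹, by simp⟩
  · apply Commute.map
    exact Commute.prod (g2om_six_comm _).symm (Commute.one_right _)
  · intro m
    apply Commute.map
    exact Commute.prod (g2om_six_comm _) (Commute.one_left _)
  · intro m f
    rw [← map_inv, ← map_mul, ← map_mul]
    congr 1
    cases h : m.crd
    · rw [g2mach_false (m, f) h, g2mach_false (m, f + 1) h]
      refine Prod.ext (Subtype.ext (om_sq_indH m f)) ?_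
      simp
    · rw [g2mach_true (m, f) h, g2mach_true (m, f + 1) h]
      refine Prod.ext ?_ (Subtype.ext ?_)
      · simp
      · have h1 := om_sq_inv_indH m f
        show (om ^ 2)⁻¹ * ph0 (indH 1 (FreeGroup.of (m, f))) * ((om ^ 2)⁻¹)⁻¹ = _
        rw [inv_inv]
        exact h1
  · intro m m' h h'
    apply Commute.map
    rw [g2mach_false m h, g2mach_true m' h']
    exact Commute.prod (Commute.one_right _) (Commute.one_left _)
  · intro w hw c
    rw [hlift, hY, ← map_one g2cls, eq_comm, g2cls_eq_iff] at hw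
    have h1 : (X (g2mach w) : MulAut P2) ∈ Inn P2 := by simpa using hw
    cases c
    · apply indH_two_injective
      rw [map_one]
      exact ph0_ab _ fun α x => ((hM w).ab_of_inn h1 α x).1
    · apply indH_one_injective
      rw [map_one]
      exact ph0_ab _ fun α x => ((hM w).ab_of_inn h1 α x).2
  · intro w hw
    rw [hlift, hY, hY, g2cls_eq_iff] at hw
    obtain ⟨χ', hχ'⟩ := exists_chi_om
    have h1 : IsExt (X (g2om ^ 2, (g2om ^ 2)⁻¹) : MulAut P2) (om ^ 2) (om ^ 2)⁻¹ :=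
      hX (g2om ^ 2, (g2om ^ 2)⁻¹)
    have h2 := (((hM w).inv.mul h1).ab_of_inn hw χ' ga).1
    rw [MulAut.mul_apply, ← map_inv, chi_ph0] at h2
    exact hχ' h2
  · rw [← map_zpow, hY, hTh, map_zpow]
    exact ThE_T_low hE hχs hd hd0 hT k
  · intro s
    obtain ⟨ψ, rfl⟩ := g2cls_surj s
    obtain ⟨C, hC⟩ := ThE_lip hE hχ hd (ψ : MulAut P2)
    refine ⟨C, fun g => ?_⟩
    obtain ⟨φ, rfl⟩ := g2cls_surj g
    rw [← map_mul, hTh, hTh]
    exact hC φ
  · obtain ⟨φ, rfl⟩ := g2cls_surj g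
    rw [hH] at hg
    rw [hlift, ← map_zpow, hY, hY, ← map_mul, ← map_mul, hTh, hTh, map_zpow, mul_assoc]
    have h1 := ThE_T_split hE hd hT j ((X (g2mach w) : MulAut P2) * φ)
      ((split_ext (hM w) χ φ).2 hg)
    rw [ThE_ph0 hd (indH_mem _ _) (indH_mem _ _) (hM w) φ hg] at h1
    exact h1
  · obtain ⟨φ, rfl⟩ := g2cls_surj g
    rw [hH] at hg
    rw [← map_zpow, hY, ← map_mul, hTh, hTh, map_zpow]
    exact (ThE_T_not hχ hd hT j φ hg).le
  · rw [← map_one g2cls, hH]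
    exact hχs

end Pool.Agent.Lib.MP_66609f_al
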