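import Pool.Agent.Lib.MP_66609f_al.G2Braid

namespace Pool.Agent.Lib.MP_66609f_al

theorem g2Ext_emb_of (c b : Bool) :
    emb c (FreeGroup.of b) = PresentedGroup.of ((if c then 1 else 0 : Fin 2), b) := by
  simp [emb]

theorem g2Ext_false_ga : emb false ga = PresentedGroup.of ((0 : Fin 2), false) := g2Ext_emb_of _ _

theorem g2Ext_false_gb : emb false gb = PresentedGroup.of ((0 : Fin 2), true) := g2Ext_emb_of _ _

theorem g2Ext_true_ga : emb true ga = PresentedGroup.of ((1 : Fin 2), false) := g2Ext_emb_of _ _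

theorem g2Ext_true_gb : emb true gb = PresentedGroup.of ((1 : Fin 2), true) := g2Ext_emb_of _ _

theorem g2Ext_lift {H : Type*} [Group H] (f : Fin 2 × Bool → H) :
    FreeGroup.lift f (surfRel 2) = f (0, false) * f (0, true) * (f (0, false))⁻¹ * (f (0, true))⁻¹ *
      (f (1, false) * f (1, true) * (f (1, false))⁻¹ * (f (1, true))⁻¹) := by
  simp [surfRel, List.ofFn_succ]

theorem g2Ext_map_cm {H : Type*} [Group H] (f : F2 →* H) :
    f cm = f ga * f gb * (f ga)⁻¹ * (f gb)⁻¹ := by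
  simp [cm]

theorem emb_cm : emb false cm * emb true cm = 1 := by
  rw [g2Ext_map_cm, g2Ext_map_cm, g2Ext_false_ga, g2Ext_false_gb, g2Ext_true_ga, g2Ext_true_gb]
  have h := g2Ext_lift (fun k => (PresentedGroup.of k : P2))
  rw [← h]
  have h2 : FreeGroup.lift (fun k => (PresentedGroup.of k : P2)) =
      PresentedGroup.mk ({surfRel 2} : Set (FreeGroup (Fin 2 × Bool))) := by
    ext k
    simp [PresentedGroup.of]
  rw [h2]
  exact PresentedGroup.one_of_mem (Set.mem_singleton _)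

theorem g2Ext_of_mem (k : Fin 2 × Bool) : (PresentedGroup.of k : P2) ∈
    ({emb false ga, emb false gb, emb true ga, emb true gb} : Set P2) := by
  rw [g2Ext_false_ga, g2Ext_false_gb, g2Ext_true_ga, g2Ext_true_gb]
  obtain ⟨i, b⟩ := k
  fin_cases i <;> cases b <;> simp

theorem closure_emb :
    Subgroup.closure ({emb false ga, emb false gb, emb true ga, emb true gb} : Set P2) = ⊤ := by
  rw [eq_top_iff, ← PresentedGroup.closure_range_of]
  apply Subgroup.closure_mono
  rintro _ ⟨k, rfl⟩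
  exact g2Ext_of_mem k

/-- Homomorphisms out of the surface group of genus two. -/
theorem exists_P2_hom {H : Type*} [Group H] (f g : F2 →* H) (h : f cm * g cm = 1) :
    ∃ F : P2 →* H, (∀ w, F (emb false w) = f w) ∧ ∀ w, F (emb true w) = g w := by
  let t : Fin 2 × Bool → H := fun k =>
    if k.1 = 0 then f (FreeGroup.of k.2) else g (FreeGroup.of k.2)
  have ht : ∀ r ∈ ({surfRel 2} : Set (FreeGroup (Fin 2 × Bool))), FreeGroup.lift t r = 1 := by
    intro r hr
    rw [Set.mem_singleton_iff] at hr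
    subst hr
    rw [g2Ext_lift, ← h, g2Ext_map_cm, g2Ext_map_cm]
    simp [t, ga, gb]
  refine ⟨PresentedGroup.toGroup ht, fun w => ?_, fun w => ?_⟩
  · have : (PresentedGroup.toGroup ht).comp (emb false) = f := by
      ext b
      simp [g2Ext_emb_of, t]
    exact DFunLike.congr_fun this w
  · have : (PresentedGroup.toGroup ht).comp (emb true) = g := by
      ext b
      simp [g2Ext_emb_of, t]
    exact DFunLike.congr_fun this w

theorem P2_hom_ext {H : Type*} [Group H] (F F' : P2 →* H)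
    (h : ∀ c w, F (emb c w) = F' (emb c w)) : F = F' := by
  apply MonoidHom.eq_of_eqOn_dense closure_emb
  intro x hx
  simp only [Set.mem_insert_iff, Set.mem_singleton_iff] at hx
  rcases hx with rfl | rfl | rfl | rfl <;> exact h _ _

theorem IsExt.unique {φ ψ : MulAut P2} {α β : MulAut F2} (h : IsExt φ α β) (h' : IsExt ψ α β) :
    φ = ψ := by
  have : φ.toMonoidHom = ψ.toMonoidHom := P2_hom_ext _ _ fun c w => by
    cases c
    · exact (h.1 w).trans (h'.1 w).symm
    · exact (h.2 w).trans (h'.2 w).symm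
  ext x
  exact DFunLike.congr_fun this x

theorem isExt_one : IsExt 1 1 1 := ⟨fun _ => rfl, fun _ => rfl⟩

theorem IsExt.mul {φ ψ : MulAut P2} {α β α' β' : MulAut F2} (h : IsExt φ α β)
    (h' : IsExt ψ α' β') : IsExt (φ * ψ) (α * α') (β * β') := by
  constructor <;> intro w
  · rw [MulAut.mul_apply, MulAut.mul_apply, h'.1, h.1]
  · rw [MulAut.mul_apply, MulAut.mul_apply, h'.2, h.2]

theorem IsExt.inv {φ : MulAut P2} {α β : MulAut F2} (h : IsExt φ α β) :
    IsExt φ⁻¹ α⁻¹ β⁻¹ := by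
  constructor <;> intro w
  · have := h.1 (α⁻¹ w)
    rw [MulAut.apply_inv_self] at this
    rw [← this, MulAut.inv_apply_self]
  · have := h.2 (β⁻¹ w)
    rw [MulAut.apply_inv_self] at this
    rw [← this, MulAut.inv_apply_self]

theorem g2Ext_exists {α β : MulAut F2} (hα : α ∈ B3) (hβ : β ∈ B3) : ∃ φ, IsExt φ α β := by
  have key : ∀ α β : MulAut F2, α ∈ B3 → β ∈ B3 → ∃ F : P2 →* P2,
      (∀ w, F (emb false w) = emb false (α w)) ∧ ∀ w, F (emb true w) = emb true (β w) := by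
    intro α β hα hβ
    refine exists_P2_hom ((emb false).comp α.toMonoidHom) ((emb true).comp β.toMonoidHom) ?_
    change emb false (α cm) * emb true (β cm) = 1
    rw [B3_cm α hα, B3_cm β hβ, emb_cm]
  obtain ⟨F, hF, hF'⟩ := key α β hα hβ
  obtain ⟨G, hG, hG'⟩ := key α⁻¹ β⁻¹ (B3.inv_mem hα) (B3.inv_mem hβ)
  refine ⟨MonoidHom.toMulEquiv F G (P2_hom_ext _ _ fun c w => ?_) (P2_hom_ext _ _ fun c w => ?_),
    hF, hF'⟩
  · cases c
    · rw [MonoidHom.comp_apply, hF, hG, MulAut.inv_apply_self, MonoidHom.id_apply]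
    · rw [MonoidHom.comp_apply, hF', hG', MulAut.inv_apply_self, MonoidHom.id_apply]
  · cases c
    · rw [MonoidHom.comp_apply, hG, hF, MulAut.apply_inv_self, MonoidHom.id_apply]
    · rw [MonoidHom.comp_apply, hG', hF', MulAut.apply_inv_self, MonoidHom.id_apply]

theorem g2Ext_expo_of (j k : Fin 2 × Bool) :
    expo 2 j (PresentedGroup.of k) = Multiplicative.ofAdd (if k = j then (1 : ℤ) else 0) := by
  simp [expo]

/-- A homomorphism to the integers is a combination of the exponent sums. -/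
theorem g2Ext_comb (f : P2 →* Multiplicative ℤ) (x : P2) :
    (f x).toAdd = (f (emb false ga)).toAdd * (expo 2 (0, false) x).toAdd +
      (f (emb false gb)).toAdd * (expo 2 (0, true) x).toAdd +
      (f (emb true ga)).toAdd * (expo 2 (1, false) x).toAdd +
      (f (emb true gb)).toAdd * (expo 2 (1, true) x).toAdd := by
  have hx : x ∈ Subgroup.closure
      ({emb false ga, emb false gb, emb true ga, emb true gb} : Set P2) := by
    rw [closure_emb]; trivial
  induction hx using Subgroup.closure_induction with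
  | mem x hx =>
    simp only [Set.mem_insert_iff, Set.mem_singleton_iff] at hx
    rcases hx with rfl | rfl | rfl | rfl <;>
      simp [g2Ext_false_ga, g2Ext_false_gb, g2Ext_true_ga, g2Ext_true_gb, g2Ext_expo_of]
  | one => simp
  | mul x y _ _ hx hy =>
    simp only [map_mul, toAdd_mul, hx, hy]
    ring
  | inv x _ hx =>
    simp only [map_inv, toAdd_inv, hx]
    ring

theorem g2Ext_comb' (φ : MulAut P2) (j : Fin 2 × Bool) (x : P2) :
    (expo 2 j (φ x)).toAdd = (expo 2 j (φ (emb false ga))).toAdd * (expo 2 (0, false) x).toAdd +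
      (expo 2 j (φ (emb false gb))).toAdd * (expo 2 (0, true) x).toAdd +
      (expo 2 j (φ (emb true ga))).toAdd * (expo 2 (1, false) x).toAdd +
      (expo 2 j (φ (emb true gb))).toAdd * (expo 2 (1, true) x).toAdd :=
  g2Ext_comb ((expo 2 j).comp φ.toMonoidHom) x

theorem g2Ext_twist {φ : MulAut P2} {α β : MulAut F2} (h : IsExt φ α β)
    (hc : (α = sA ∧ β = 1) ∨ (α = sB ∧ β = 1) ∨ (α = 1 ∧ β = sA) ∨ (α = 1 ∧ β = sB)) :
    φ ∈ AutPlus 2 := by
  intro x y
  simp only [interForm, Fin.sum_univ_two]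
  rw [g2Ext_comb' φ (0, false) x, g2Ext_comb' φ (0, true) x, g2Ext_comb' φ (1, false) x,
    g2Ext_comb' φ (1, true) x, g2Ext_comb' φ (0, false) y, g2Ext_comb' φ (0, true) y,
    g2Ext_comb' φ (1, false) y, g2Ext_comb' φ (1, true) y]
  simp only [h.1, h.2]
  rcases hc with ⟨rfl, rfl⟩ | ⟨rfl, rfl⟩ | ⟨rfl, rfl⟩ | ⟨rfl, rfl⟩ <;>
    simp [sA_ga, sA_gb, sB_ga, sB_gb, g2Ext_false_ga, g2Ext_false_gb, g2Ext_true_ga,
      g2Ext_true_gb, g2Ext_expo_of] <;> ring

/-- Pairs which extend to an automorphism preserving the intersection form. -/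
def g2ExtT : Subgroup (MulAut F2 × MulAut F2) where
  carrier := {p | ∃ φ ∈ AutPlus 2, IsExt φ p.1 p.2}
  one_mem' := ⟨1, (AutPlus 2).one_mem, isExt_one⟩
  mul_mem' := by
    rintro p q ⟨φ, hφ, h⟩ ⟨ψ, hψ, h'⟩
    exact ⟨φ * ψ, (AutPlus 2).mul_mem hφ hψ, h.mul h'⟩
  inv_mem' := by
    rintro p ⟨φ, hφ, h⟩
    exact ⟨φ⁻¹, (AutPlus 2).inv_mem hφ, h.inv⟩

theorem g2Ext_mem {α β : MulAut F2} (hα : α ∈ B3) (hβ : β ∈ B3) : (α, β) ∈ g2ExtT := by
  have hA : sA ∈ B3 := Subgroup.subset_closure (by simp)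
  have hB : sB ∈ B3 := Subgroup.subset_closure (by simp)
  have h1 : B3 ≤ g2ExtT.comap (MonoidHom.inl _ _) := by
    refine (Subgroup.closure_le _).2 ?_
    rintro _ (rfl | rfl)
    · obtain ⟨φ, h⟩ := g2Ext_exists hA B3.one_mem
      exact ⟨φ, g2Ext_twist h (by simp), h⟩
    · obtain ⟨φ, h⟩ := g2Ext_exists hB B3.one_mem
      exact ⟨φ, g2Ext_twist h (by simp), h⟩
  have h2 : B3 ≤ g2ExtT.comap (MonoidHom.inr _ _) := by
    refine (Subgroup.closure_le _).2 ?_
    rintro _ (rfl | rfl)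
    · obtain ⟨φ, h⟩ := g2Ext_exists B3.one_mem hA
      exact ⟨φ, g2Ext_twist h (by simp), h⟩
    · obtain ⟨φ, h⟩ := g2Ext_exists B3.one_mem hB
      exact ⟨φ, g2Ext_twist h (by simp), h⟩
  have h3 : ((α, 1) : MulAut F2 × MulAut F2) * (1, β) ∈ g2ExtT := g2ExtT.mul_mem (h1 hα) (h2 hβ)
  simpa using h3

/-- The homomorphism from two copies of the braid group. -/
theorem exists_ext : ∃ X : B3 × B3 →* AutPlus 2,
    ∀ p, IsExt (X p : MulAut P2) (p.1 : MulAut F2) (p.2 : MulAut F2) := by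
  have h : ∀ p : B3 × B3, ∃ φ : AutPlus 2,
      IsExt (φ : MulAut P2) (p.1 : MulAut F2) (p.2 : MulAut F2) := fun p => by
    obtain ⟨φ, hφ, h⟩ := g2Ext_mem p.1.2 p.2.2
    exact ⟨⟨φ, hφ⟩, h⟩
  choose X hX using h
  exact ⟨MonoidHom.mk' X fun p q => Subtype.ext ((hX (p * q)).unique ((hX p).mul (hX q))), hX⟩

theorem isExt_conj : IsExt (MulAut.conj (emb false cm)⁻¹) (om ^ 6) (om ^ 6)⁻¹ := by
  rw [om_six]
  constructor <;> intro w
  · simp
  · rw [inv_eq_of_mul_eq_one_right emb_cm, ← map_inv, inv_inv]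
    simp

/-- An inner automorphism acts trivially on characters of the handles. -/
theorem IsExt.ab_of_inn {φ : MulAut P2} {α β : MulAut F2} (h : IsExt φ α β) (hφ : φ ∈ Inn P2)
    {A : Type*} [CommGroup A] (χ : F2 →* A) (w : F2) : χ (α w) = χ w ∧ χ (β w) = χ w := by
  obtain ⟨x, rfl⟩ := hφ
  have hc : χ cm = 1 := by
    rw [g2Ext_map_cm, mul_comm (χ ga) (χ gb)]
    group
  have hF : ∀ (F : P2 →* A) (y : P2), F (MulAut.conj x y) = F y := fun F y => by
    rw [MulAut.conj_apply, map_mul, map_mul, map_inv, mul_inv_cancel_comm]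
  constructor
  · obtain ⟨F, h1, -⟩ := exists_P2_hom χ 1 (by rw [hc]; simp)
    rw [← h1, ← h.1, hF, h1]
  · obtain ⟨F, -, h1⟩ := exists_P2_hom 1 χ (by rw [hc]; simp)
    rw [← h1, ← h.2, hF, h1]

end Pool.Agent.Lib.MP_66609f_al
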