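import Pool.Agent.Lib.MP_66609f_al.G2San
import Pool.Agent.Lib.MP_66609f_al.G2Ext

namespace Pool.Agent.Lib.MP_66609f_al

theorem g2Coc_eq_one_iff (χ : F2 →* ℤˣ) : χ = 1 ↔ χ ga = 1 ∧ χ gb = 1 := by
  constructor
  · rintro rfl
    exact ⟨rfl, rfl⟩
  · rintro ⟨h1, h2⟩
    apply FreeGroup.ext_hom
    intro x
    cases x
    · exact h1
    · exact h2

theorem g2Coc_chi_cm {A : Type*} [CommGroup A] (χ : F2 →* A) : χ cm = 1 := by
  simp [cm]

theorem g2Coc_ne_one {χ : P2 →* ℤˣ} (hχ : χ ≠ 1) (h : χ.comp (emb false) = 1) :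
    χ.comp (emb true) ≠ 1 := by
  intro h'
  apply hχ
  apply P2_hom_ext
  intro c w
  cases c
  · exact DFunLike.congr_fun h w
  · exact DFunLike.congr_fun h' w

theorem g2Coc_w_add {χ : P2 →* ℤˣ} {d : P2 → ℤ} (hd : d ∈ Zc χ) :
    wF (χ.comp (emb false)) (d ∘ emb false) + wF (χ.comp (emb true)) (d ∘ emb true) = 0 := by
  have h1 := Zc_cm (Zc_comp hd (emb false))
  have h2 := Zc_cm (Zc_comp hd (emb true))
  have h3 := hd (emb false cm) (emb true cm)
  have h4 : χ (emb false cm) = 1 := g2Coc_chi_cm (χ.comp (emb false))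
  rw [emb_cm, Zc_one hd, h4] at h3
  simp only [Function.comp_apply] at h1 h2
  rw [h1, h2] at h3
  simp only [Units.val_one, one_mul] at h3
  omega

theorem g2Coc_w_one (d : F2 → ℤ) : wF 1 d = 0 := by
  simp [wF, dl]

theorem g2Coc_of_w {χ : F2 →* ℤˣ} (hχ : χ ≠ 1) {d : F2 → ℤ} (h : wF χ d = 0) :
    d ga = sF χ d * dl χ ga ∧ d gb = sF χ d * dl χ gb := by
  rw [Ne, g2Coc_eq_one_iff] at hχ
  unfold wF at h
  unfold sF
  unfold dl at h ⊢
  by_cases h1 : χ ga = 1 <;> by_cases h2 : χ gb = 1 <;> simp_all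
  omega

theorem g2Coc_dl_comp {H H' : Type*} [Group H] [Group H'] (χ : H →* ℤˣ) (f : H' →* H) (x : H') :
    dl (χ.comp f) x = dl χ (f x) := rfl

theorem g2Coc_sF_dl {χ : F2 →* ℤˣ} (hχ : χ ≠ 1) : sF χ (dl χ) = 1 := by
  rw [Ne, g2Coc_eq_one_iff] at hχ
  unfold sF dl
  by_cases h1 : χ ga = 1 <;> by_cases h2 : χ gb = 1 <;> simp_all

theorem Lc_add (χ : P2 →* ℤˣ) (d d' : P2 → ℤ) : Lc χ (d + d') = Lc χ d + Lc χ d' := by
  unfold Lc
  split_ifs
  · simp
  · simp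
  · unfold sF wF
    refine Prod.ext ?_ ?_
    · simp only [Prod.fst_add, Function.comp_apply, Pi.add_apply]
      split_ifs <;> ring
    · simp only [Prod.snd_add, Function.comp_apply, Pi.add_apply]
      ring

theorem Lc_smul (χ : P2 →* ℤˣ) (n : ℤ) (d : P2 → ℤ) : Lc χ (n • d) = n • Lc χ d := by
  unfold Lc
  split_ifs
  · simp
  · simp
  · unfold sF wF
    refine Prod.ext ?_ ?_
    · simp only [Prod.smul_fst, Function.comp_apply, Pi.smul_apply, smul_eq_mul]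
      split_ifs <;> ring
    · simp only [Prod.smul_snd, Function.comp_apply, Pi.smul_apply, smul_eq_mul]
      ring

theorem Lc_dl {χ : P2 →* ℤˣ} (hχ : χ ≠ 1) : Lc χ (dl χ) = 0 := by
  have _ := hχ
  unfold Lc
  split_ifs with h1 h2
  · have := (g2Coc_eq_one_iff _).1 h1
    simp only [MonoidHom.comp_apply] at this
    simp [dl, this.1, this.2]
  · have := (g2Coc_eq_one_iff _).1 h2
    simp only [MonoidHom.comp_apply] at this
    simp [dl, this.1, this.2]
  · have e1 : dl χ ∘ emb false = dl (χ.comp (emb false)) := rfl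
    have e2 : dl χ ∘ emb true = dl (χ.comp (emb true)) := rfl
    rw [e1, e2, g2Coc_sF_dl h1, g2Coc_sF_dl h2]
    refine Prod.ext (by simp) ?_
    simp only [wF, Prod.snd_zero]
    ring

theorem g2Coc_ext {χ : P2 →* ℤˣ} {d : P2 → ℤ} (hd : d ∈ Zc χ) (n : ℤ)
    (h : ∀ c, d (emb c ga) = n * dl χ (emb c ga) ∧ d (emb c gb) = n * dl χ (emb c gb)) :
    d = n • dl χ := by
  refine Zc_ext hd ((Zc χ).zsmul_mem (dl_mem χ) n) closure_emb ?_
  intro x hx
  simp only [Set.mem_insert_iff, Set.mem_singleton_iff] at hx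
  rcases hx with rfl | rfl | rfl | rfl
  · exact (h false).1
  · exact (h false).2
  · exact (h true).1
  · exact (h true).2

theorem Lc_ker {χ : P2 →* ℤˣ} (hχ : χ ≠ 1) {d : P2 → ℤ} (hd : d ∈ Zc χ) (h : Lc χ d = 0) :
    ∃ n : ℤ, d = n • dl χ := by
  have hw := g2Coc_w_add hd
  unfold Lc at h
  split_ifs at h with h1 h2
  · have h2 := g2Coc_ne_one hχ h1
    rw [h1, g2Coc_w_one, zero_add] at hw
    have h3 := g2Coc_of_w h2 hw
    have h4 := (g2Coc_eq_one_iff _).1 h1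
    simp only [MonoidHom.comp_apply] at h4
    simp only [Prod.mk_eq_zero] at h
    refine ⟨sF (χ.comp (emb true)) (d ∘ emb true), g2Coc_ext hd _ fun c => ?_⟩
    cases c
    · simp [dl, h.1, h.2, h4.1, h4.2]
    · exact h3
  · rw [h2, g2Coc_w_one, add_zero] at hw
    have h3 := g2Coc_of_w h1 hw
    have h4 := (g2Coc_eq_one_iff _).1 h2
    simp only [MonoidHom.comp_apply] at h4
    simp only [Prod.mk_eq_zero] at h
    refine ⟨sF (χ.comp (emb false)) (d ∘ emb false), g2Coc_ext hd _ fun c => ?_⟩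
    cases c
    · exact h3
    · simp [dl, h.1, h.2, h4.1, h4.2]
  · simp only [Prod.mk_eq_zero] at h
    rw [h.2, zero_add] at hw
    have h3 := g2Coc_of_w h1 h.2
    have h4 := g2Coc_of_w h2 hw
    refine ⟨sF (χ.comp (emb false)) (d ∘ emb false), g2Coc_ext hd _ fun c => ?_⟩
    cases c
    · exact h3
    · rw [sub_eq_zero.1 h.1]
      exact h4

/-- The affine map `t ↦ u t + c`. -/
def g2Coc_aff (u : ℤˣ) (c : ℤ) : Equiv.Perm ℤ where
  toFun t := (u : ℤ) * t + c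
  invFun t := (u : ℤ) * (t - c)
  left_inv t := by
    rcases Int.units_eq_one_or u with rfl | rfl <;> simp
  right_inv t := by
    rcases Int.units_eq_one_or u with rfl | rfl <;> simp

theorem g2Coc_aff_closure {H : Type*} [Group H] (χ : H →* ℤˣ) (F : H →* Equiv.Perm ℤ)
    {s : Set H} (hs : Subgroup.closure s = ⊤)
    (h : ∀ x ∈ s, ∀ t, F x t = (χ x : ℤ) * t + F x 0) (x : H) :
    ∀ t, F x t = (χ x : ℤ) * t + F x 0 := by
  have hx : x ∈ Subgroup.closure s := hs ▸ Subgroup.mem_top x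
  induction hx using Subgroup.closure_induction with
  | mem x hx => exact h x hx
  | one => intro t; simp
  | mul x y _ _ ihx ihy =>
    intro t
    rw [map_mul, map_mul, Equiv.Perm.mul_apply, Equiv.Perm.mul_apply, ihx (F y t), ihx (F y 0),
      ihy t]
    push_cast
    ring
  | inv x _ ih =>
    intro t
    have e : ∀ t, F x (F x⁻¹ t) = t := fun t => by
      rw [← Equiv.Perm.mul_apply, ← map_mul, mul_inv_cancel, map_one, Equiv.Perm.one_apply]
    have e1 := ih (F x⁻¹ t)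
    have e2 := ih (F x⁻¹ 0)
    rw [e] at e1 e2
    rw [map_inv χ]
    rcases Int.units_eq_one_or (χ x) with h1 | h1 <;> rw [h1] at e1 e2 ⊢ <;> simp at e1 e2 ⊢ <;>
      omega

theorem g2Coc_aff_mem {H : Type*} [Group H] (χ : H →* ℤˣ) (F : H →* Equiv.Perm ℤ)
    (h : ∀ x t, F x t = (χ x : ℤ) * t + F x 0) : (fun x => F x 0) ∈ Zc χ := by
  intro x y
  change F (x * y) 0 = F x 0 + (χ x : ℤ) * F y 0
  rw [map_mul, Equiv.Perm.mul_apply, h x (F y 0), add_comm]

theorem g2Coc_free (χ : F2 →* ℤˣ) (a b : ℤ) :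
    ∃ F : F2 →* Equiv.Perm ℤ, (∀ x t, F x t = (χ x : ℤ) * t + F x 0) ∧ F ga 0 = a ∧
      F gb 0 = b := by
  let F : F2 →* Equiv.Perm ℤ :=
    FreeGroup.lift fun x => g2Coc_aff (χ (FreeGroup.of x)) (if x then b else a)
  have hF : ∀ x t, F (FreeGroup.of x) t =
      (χ (FreeGroup.of x) : ℤ) * t + (if x then b else a) := by
    intro x t
    simp only [F, FreeGroup.lift_apply_of]
    rfl
  refine ⟨F, g2Coc_aff_closure χ F (FreeGroup.closure_range_of Bool) ?_, ?_, ?_⟩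
  · rintro _ ⟨x, rfl⟩ t
    rw [hF, hF]
    ring
  · rw [ga, hF]
    simp
  · rw [gb, hF]
    simp

theorem g2Coc_exists (χ : P2 →* ℤˣ) (a1 b1 a2 b2 : ℤ)
    (h : a1 * dl χ (emb false gb) - b1 * dl χ (emb false ga) +
      (a2 * dl χ (emb true gb) - b2 * dl χ (emb true ga)) = 0) :
    ∃ d ∈ Zc χ, d (emb false ga) = a1 ∧ d (emb false gb) = b1 ∧ d (emb true ga) = a2 ∧
      d (emb true gb) = b2 := by
  obtain ⟨f, hf, fa, fb⟩ := g2Coc_free (χ.comp (emb false)) a1 b1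
  obtain ⟨g, hg, ga', gb'⟩ := g2Coc_free (χ.comp (emb true)) a2 b2
  have h1 := Zc_cm (g2Coc_aff_mem _ f hf)
  have h2 := Zc_cm (g2Coc_aff_mem _ g hg)
  simp only [wF, fa, fb, ga', gb', g2Coc_dl_comp] at h1 h2
  have hc : f cm * g cm = 1 := by
    ext t
    rw [Equiv.Perm.mul_apply, hf, hg, g2Coc_chi_cm, g2Coc_chi_cm, h1, h2]
    simp only [Units.val_one, one_mul, Equiv.Perm.one_apply]
    omega
  obtain ⟨F, F1, F2'⟩ := exists_P2_hom f g hc
  refine ⟨fun x => F x 0, g2Coc_aff_mem χ F (g2Coc_aff_closure χ F closure_emb ?_), ?_, ?_, ?_,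
    ?_⟩
  · intro x hx t
    simp only [Set.mem_insert_iff, Set.mem_singleton_iff] at hx
    rcases hx with rfl | rfl | rfl | rfl
    · rw [F1]; exact hf _ t
    · rw [F1]; exact hf _ t
    · rw [F2']; exact hg _ t
    · rw [F2']; exact hg _ t
  · simp only [F1, fa]
  · simp only [F1, fb]
  · simp only [F2', ga']
  · simp only [F2', gb']

theorem g2Coc_solve {χ : F2 →* ℤˣ} (hχ : χ ≠ 1) (s w : ℤ) :
    ∃ a b : ℤ, a * dl χ gb - b * dl χ ga = w ∧ (if χ ga = 1 then b else a) = s := by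
  rw [Ne, g2Coc_eq_one_iff] at hχ
  unfold dl
  by_cases h1 : χ ga = 1 <;> by_cases h2 : χ gb = 1
  · exact absurd ⟨h1, h2⟩ hχ
  · exact ⟨w, s, by simp [h1, h2], by simp [h1]⟩
  · exact ⟨s, -w, by simp [h1, h2], by simp [h1]⟩
  · exact ⟨s, s - w, by simp [h1, h2], by simp [h1]⟩

theorem Lc_surj {χ : P2 →* ℤˣ} (hχ : χ ≠ 1) (v : ℤ × ℤ) : ∃ d ∈ Zc χ, Lc χ d = v := by
  have _ := hχ
  by_cases h1 : χ.comp (emb false) = 1
  · have h4 := (g2Coc_eq_one_iff _).1 h1
    simp only [MonoidHom.comp_apply] at h4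
    obtain ⟨d, hd, e1, e2, -, -⟩ := g2Coc_exists χ v.1 v.2 0 0 (by simp [dl, h4.1, h4.2])
    refine ⟨d, hd, ?_⟩
    unfold Lc
    rw [if_pos h1, e1, e2]
  · by_cases h2 : χ.comp (emb true) = 1
    · have h4 := (g2Coc_eq_one_iff _).1 h2
      simp only [MonoidHom.comp_apply] at h4
      obtain ⟨d, hd, -, -, e1, e2⟩ := g2Coc_exists χ 0 0 v.1 v.2 (by simp [dl, h4.1, h4.2])
      refine ⟨d, hd, ?_⟩
      unfold Lc
      rw [if_neg h1, if_pos h2, e1, e2]
    · obtain ⟨a1, b1, p1, q1⟩ := g2Coc_solve h1 v.1 v.2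
      obtain ⟨a2, b2, p2, q2⟩ := g2Coc_solve h2 0 (-v.2)
      simp only [g2Coc_dl_comp] at p1 p2
      obtain ⟨d, hd, e1, e2, e3, e4⟩ := g2Coc_exists χ a1 b1 a2 b2 (by rw [p1, p2]; ring)
      refine ⟨d, hd, ?_⟩
      unfold Lc
      rw [if_neg h1, if_neg h2]
      refine Prod.ext ?_ ?_
      · simp only [sF, Function.comp_apply, e1, e2, e3, e4, q1, q2, sub_zero]
      · simp only [wF, Function.comp_apply, e1, e2, g2Coc_dl_comp, p1]

theorem g2Coc_Lc_zero (χ : P2 →* ℤˣ) : Lc χ 0 = 0 := by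
  have := Lc_smul χ 0 0
  simpa using this

theorem exists_Lc_equiv {χ : P2 →* ℤˣ} (hχ : χ ≠ 1) (φ : MulAut P2) :
    ∃ M : ℤ × ℤ ≃+ ℤ × ℤ, ∀ d ∈ Zc χ, Lc (χ.comp φ.toMonoidHom) (d ∘ φ) = M (Lc χ d) := by
  have hback : (χ.comp φ.toMonoidHom).comp φ⁻¹.toMonoidHom = χ := by
    ext1 x
    simp
  have hχ' : χ.comp φ.toMonoidHom ≠ 1 := by
    intro h
    apply hχ
    rw [← hback, h]
    rfl
  let L1 : Zc χ →+ ℤ × ℤ :=
    { toFun := fun d => Lc χ d
      map_zero' := g2Coc_Lc_zero χ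
      map_add' := fun d d' => Lc_add χ d d' }
  let L2 : Zc χ →+ ℤ × ℤ :=
    { toFun := fun d => Lc (χ.comp φ.toMonoidHom) ((d : P2 → ℤ) ∘ φ)
      map_zero' := g2Coc_Lc_zero _
      map_add' := fun d d' => Lc_add _ ((d : P2 → ℤ) ∘ φ) ((d' : P2 → ℤ) ∘ φ) }
  have s1 : Function.Surjective L1 := fun v => by
    obtain ⟨d, hd, e⟩ := Lc_surj hχ v
    exact ⟨⟨d, hd⟩, e⟩
  have s2 : Function.Surjective L2 := fun v => by
    obtain ⟨d, hd, e⟩ := Lc_surj hχ' v
    have hd' := Zc_comp hd φ⁻¹.toMonoidHom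
    rw [hback] at hd'
    refine ⟨⟨_, hd'⟩, ?_⟩
    rw [← e]
    change Lc _ _ = _
    congr 1
    funext x
    simp
  have hk : L1.ker = L2.ker := by
    ext d
    rw [AddMonoidHom.mem_ker, AddMonoidHom.mem_ker]
    constructor
    · intro h
      obtain ⟨n, hn⟩ := Lc_ker hχ d.2 h
      change Lc _ _ = _
      have e : (d : P2 → ℤ) ∘ φ = n • dl (χ.comp φ.toMonoidHom) := by
        rw [hn]
        rfl
      rw [e, Lc_smul, Lc_dl hχ', smul_zero]
    · intro h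
      obtain ⟨n, hn⟩ := Lc_ker hχ' (Zc_comp d.2 φ.toMonoidHom) h
      change Lc _ _ = _
      have e : (d : P2 → ℤ) = n • dl χ := by
        funext x
        have := congrFun hn (φ⁻¹ x)
        simpa [g2Coc_dl_comp] using this
      rw [e, Lc_smul, Lc_dl hχ, smul_zero]
  refine ⟨((QuotientAddGroup.quotientKerEquivOfSurjective L1 s1).symm.trans
    (QuotientAddGroup.quotientAddEquivOfEq hk)).trans
    (QuotientAddGroup.quotientKerEquivOfSurjective L2 s2), fun d hd => ?_⟩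
  have e : (QuotientAddGroup.quotientKerEquivOfSurjective L1 s1).symm (Lc χ d) =
      QuotientAddGroup.mk (⟨d, hd⟩ : Zc χ) := by
    rw [AddEquiv.symm_apply_eq]
    rfl
  rw [AddEquiv.trans_apply, AddEquiv.trans_apply, e]
  rfl

theorem finite_chars : Finite (P2 →* ℤˣ) := by
  refine Finite.of_injective (fun χ : P2 →* ℤˣ =>
    (χ (emb false ga), χ (emb false gb), χ (emb true ga), χ (emb true gb))) ?_
  intro χ χ' h
  simp only [Prod.mk.injEq] at h
  refine MonoidHom.eq_of_eqOn_dense closure_emb ?_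
  intro x hx
  simp only [Set.mem_insert_iff, Set.mem_singleton_iff] at hx
  rcases hx with rfl | rfl | rfl | rfl
  · exact h.1
  · exact h.2.1
  · exact h.2.2.1
  · exact h.2.2.2

theorem exists_split : ∃ χ : P2 →* ℤˣ, Split χ := by
  let f : F2 →* ℤˣ := FreeGroup.lift fun _ => -1
  obtain ⟨F, F1, F2'⟩ := exists_P2_hom f f (by rw [g2Coc_chi_cm, mul_one])
  have hf : f ga = -1 := by simp [f, ga]
  refine ⟨F, fun h => ?_, fun h => ?_⟩
  · have := ((g2Coc_eq_one_iff _).1 h).1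
    rw [MonoidHom.comp_apply, F1, hf] at this
    exact absurd this (by decide)
  · have := ((g2Coc_eq_one_iff _).1 h).1
    rw [MonoidHom.comp_apply, F2', hf] at this
    exact absurd this (by decide)

end Pool.Agent.Lib.MP_66609f_al
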