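import Mathlib

namespace Pool.Agent.Lib.MP_66609f_al

/-- Elements whose orbit under the symmetries is as small as possible. -/
def Phi {G : Type*} [Group G] (r : G) (ρ : G ≃* G) : Set G :=
  {g | r * g = g * r ∧ (ρ g = g ∨ ρ g = g * r) ∧ (g * g = 1 ∨ g * g = r)}

theorem parity_four {X : Type*} (σ τ : X → X) (A : Finset X) (h1 : ∀ a ∈ A, σ a ∈ A)
    (h2 : ∀ a ∈ A, τ a ∈ A) (h3 : ∀ a ∈ A, σ (σ a) = a) (h4 : ∀ a ∈ A, τ (τ a) = a)
    (h5 : ∀ a ∈ A, σ (τ a) = τ (σ a)) (h6 : ∀ a ∈ A, σ a ≠ a) (h7 : ∀ a ∈ A, τ a ≠ a)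
    (h8 : ∀ a ∈ A, σ (τ a) ≠ a) : 4 ∣ A.card := by
  classical
  induction A using Finset.strongInduction with
  | H A ih =>
    rcases A.eq_empty_or_nonempty with rfl | ⟨a, ha⟩
    · simp
    · have hO : ({a, σ a, τ a, σ (τ a)} : Finset X) ⊆ A := by
        intro x hx
        simp only [Finset.mem_insert, Finset.mem_singleton] at hx
        rcases hx with rfl | rfl | rfl | rfl
        · exact ha
        · exact h1 _ ha
        · exact h2 _ ha
        · exact h1 _ (h2 _ ha)
      have e1 : a ≠ σ a := (h6 a ha).symm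
      have e2 : a ≠ τ a := (h7 a ha).symm
      have e3 : a ≠ σ (τ a) := (h8 a ha).symm
      have e4 : σ a ≠ τ a := fun h => e3 (by rw [← h, h3 a ha])
      have e5 : σ a ≠ σ (τ a) := fun h => e2 (by
        have := congrArg σ h
        rwa [h3 a ha, h3 _ (h2 a ha)] at this)
      have e6 : τ a ≠ σ (τ a) := (h6 _ (h2 a ha)).symm
      have hc : ({a, σ a, τ a, σ (τ a)} : Finset X).card = 4 := by
        rw [Finset.card_insert_of_notMem (by simp [e1, e2, e3]),
          Finset.card_insert_of_notMem (by simp [e4, e5]), Finset.card_pair e6]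
      have hss : A \ {a, σ a, τ a, σ (τ a)} ⊂ A :=
        Finset.sdiff_ssubset hO ⟨a, by simp⟩
      have key := ih _ hss
        (fun b hb => by
          obtain ⟨hb1, hb2⟩ := Finset.mem_sdiff.1 hb
          refine Finset.mem_sdiff.2 ⟨h1 b hb1, fun hx => hb2 ?_⟩
          have hb3 := h3 b hb1
          simp only [Finset.mem_insert, Finset.mem_singleton] at hx ⊢
          rcases hx with hx | hx | hx | hx <;> rw [hx] at hb3
          · exact Or.inr (Or.inl hb3.symm)
          · rw [h3 a ha] at hb3; exact Or.inl hb3.symm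
          · exact Or.inr (Or.inr (Or.inr hb3.symm))
          · rw [h3 _ (h2 a ha)] at hb3; exact Or.inr (Or.inr (Or.inl hb3.symm)))
        (fun b hb => by
          obtain ⟨hb1, hb2⟩ := Finset.mem_sdiff.1 hb
          refine Finset.mem_sdiff.2 ⟨h2 b hb1, fun hx => hb2 ?_⟩
          have hb3 := h4 b hb1
          simp only [Finset.mem_insert, Finset.mem_singleton] at hx ⊢
          rcases hx with hx | hx | hx | hx <;> rw [hx] at hb3
          · exact Or.inr (Or.inr (Or.inl hb3.symm))
          · rw [← h5 a ha] at hb3; exact Or.inr (Or.inr (Or.inr hb3.symm))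
          · rw [h4 a ha] at hb3; exact Or.inl hb3.symm
          · rw [h5 a ha, h4 _ (h1 a ha)] at hb3; exact Or.inr (Or.inl hb3.symm))
        (fun b hb => h3 b (Finset.mem_sdiff.1 hb).1) (fun b hb => h4 b (Finset.mem_sdiff.1 hb).1)
        (fun b hb => h5 b (Finset.mem_sdiff.1 hb).1) (fun b hb => h6 b (Finset.mem_sdiff.1 hb).1)
        (fun b hb => h7 b (Finset.mem_sdiff.1 hb).1) (fun b hb => h8 b (Finset.mem_sdiff.1 hb).1)
      have := Finset.card_sdiff_add_card_eq_card hO
      rw [← this, hc]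
      exact dvd_add key (dvd_refl 4)

theorem card_mod_four {G : Type*} [Group G] (r : G) (ρ : G ≃* G) (hr : r * r = 1) (hr1 : r ≠ 1)
    (hρ : ∀ g, ρ (ρ g) = g) (hρr : ρ r = r) (B : Set G) (hB : B.Finite)
    (h1 : ∀ g ∈ B, r * g ∈ B) (h2 : ∀ g ∈ B, g * r ∈ B) (h3 : ∀ g ∈ B, g⁻¹ ∈ B)
    (h4 : ∀ g ∈ B, ρ g ∈ B) :
    (B.ncard : ZMod 4) = ((B ∩ Phi r ρ).ncard : ZMod 4) := by
  classical
  have hri : r⁻¹ = r := inv_eq_of_mul_eq_one_right hr
  have hrr : ∀ g : G, r * (r * g) = g := fun g => by rw [← mul_assoc, hr, one_mul]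
  have hrr' : ∀ g : G, g * r * r = g := fun g => by rw [mul_assoc, hr, mul_one]
  have hne : ∀ g : G, r * g ≠ g := fun g h => hr1 (mul_right_cancel (h.trans (one_mul g).symm))
  have hne' : ∀ g : G, g * r ≠ g := fun g h => hr1 (mul_left_cancel (h.trans (mul_one g).symm))
  have hsq : ∀ g : G, r * g = g * r → r * g * (r * g) = g * g := fun g h => by
    rw [mul_assoc, ← mul_assoc g r g, ← h, mul_assoc r g g, hrr]
  have hcm : ∀ g : G, r * g = g * r → r * (r * g) = r * g * r := fun g h => by
    rw [mul_assoc, ← h]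
  obtain ⟨A, rfl⟩ : ∃ A : Finset G, (A : Set G) = B := ⟨hB.toFinset, hB.coe_toFinset⟩
  simp only [Finset.mem_coe] at h1 h2 h3 h4
  have k1 : 4 ∣ (A.filter fun g => ¬ r * g = g * r).card := by
    refine parity_four (fun g => r * g) (fun g => g * r) _ ?_ ?_ (fun g _ => hrr g)
      (fun g _ => hrr' g) (fun g _ => (mul_assoc _ _ _).symm) (fun g _ => hne g)
      (fun g _ => hne' g) ?_
    · intro g hg
      obtain ⟨ha, hb⟩ := Finset.mem_filter.1 hg
      exact Finset.mem_filter.2 ⟨h1 g ha, fun h => hb (by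
        rw [mul_assoc] at h; exact mul_left_cancel h)⟩
    · intro g hg
      obtain ⟨ha, hb⟩ := Finset.mem_filter.1 hg
      exact Finset.mem_filter.2 ⟨h2 g ha, fun h => hb (by
        rw [← mul_assoc] at h; exact mul_right_cancel h)⟩
    · intro g hg h
      obtain ⟨_, hb⟩ := Finset.mem_filter.1 hg
      refine hb ?_
      have := congrArg (fun x => r * x) h
      simp only [hrr] at this
      exact this.symm
  have k2 : 4 ∣ ((A.filter fun g => r * g = g * r).filter
      fun g => ¬ (g * g = 1 ∨ g * g = r)).card := by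
    refine parity_four (fun g => r * g) (fun g => g⁻¹) _ ?_ ?_ (fun g _ => hrr g)
      (fun g _ => inv_inv g) ?_ (fun g _ => hne g) ?_ ?_
    · intro g hg
      simp only [Finset.mem_filter] at hg ⊢
      obtain ⟨⟨ha, hb⟩, hc⟩ := hg
      exact ⟨⟨h1 g ha, hcm g hb⟩, by rwa [hsq g hb]⟩
    · intro g hg
      simp only [Finset.mem_filter] at hg ⊢
      obtain ⟨⟨ha, hb⟩, hc⟩ := hg
      refine ⟨⟨h3 g ha, ?_⟩, fun h => hc ?_⟩
      · have := congrArg (fun x => x⁻¹) hb
        simp only [mul_inv_rev, hri] at this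
        exact this.symm
      · rw [← mul_inv_rev] at h
        rcases h with h | h
        · exact Or.inl (inv_eq_one.1 h)
        · exact Or.inr (by rw [← hri, ← h, inv_inv])
    · intro g hg
      simp only [Finset.mem_filter] at hg
      obtain ⟨⟨_, hb⟩, _⟩ := hg
      show r * g⁻¹ = (r * g)⁻¹
      rw [hb, mul_inv_rev, hri]
    · intro g hg h
      simp only [Finset.mem_filter] at hg
      refine hg.2 (Or.inl ?_)
      have h' : g⁻¹ = g := h
      calc g * g = g * g⁻¹ := by rw [h']
        _ = 1 := mul_inv_cancel g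
    · intro g hg h
      simp only [Finset.mem_filter] at hg
      refine hg.2 (Or.inr ?_)
      have h' : r * g⁻¹ = g := h
      calc g * g = r * g⁻¹ * g := by rw [h']
        _ = r := inv_mul_cancel_right r g
  have k3 : 4 ∣ (((A.filter fun g => r * g = g * r).filter
      fun g => (g * g = 1 ∨ g * g = r)).filter fun g => ¬ (ρ g = g ∨ ρ g = g * r)).card := by
    refine parity_four (fun g => r * g) (fun g => ρ g) _ ?_ ?_ (fun g _ => hrr g)
      (fun g _ => hρ g) ?_ (fun g _ => hne g) ?_ ?_
    · intro g hg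
      simp only [Finset.mem_filter] at hg ⊢
      obtain ⟨⟨⟨ha, hb⟩, hc⟩, hd⟩ := hg
      refine ⟨⟨⟨h1 g ha, hcm g hb⟩, by rwa [hsq g hb]⟩, fun h => hd ?_⟩
      rw [map_mul, hρr, mul_assoc] at h
      rcases h with h | h
      · exact Or.inl (mul_left_cancel h)
      · exact Or.inr (mul_left_cancel h)
    · intro g hg
      simp only [Finset.mem_filter] at hg ⊢
      obtain ⟨⟨⟨ha, hb⟩, hc⟩, hd⟩ := hg
      refine ⟨⟨⟨h4 g ha, ?_⟩, ?_⟩, fun h => hd ?_⟩
      · have := congrArg ρ hb
        rwa [map_mul, map_mul, hρr] at this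
      · rw [← map_mul]
        rcases hc with h | h
        · exact Or.inl (by rw [h, map_one])
        · exact Or.inr (by rw [h, hρr])
      · rw [hρ] at h
        rcases h with h | h
        · exact Or.inl h.symm
        · refine Or.inr ?_
          calc ρ g = ρ g * r * r := (hrr' _).symm
            _ = g * r := by rw [← h]
    · intro g _
      show r * ρ g = ρ (r * g)
      rw [map_mul, hρr]
    · intro g hg h
      simp only [Finset.mem_filter] at hg
      exact hg.2 (Or.inl h)
    · intro g hg h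
      simp only [Finset.mem_filter] at hg
      refine hg.2 (Or.inr ?_)
      have h' : r * ρ g = g := h
      calc ρ g = r * (r * ρ g) := (hrr _).symm
        _ = r * g := by rw [h']
        _ = g * r := hg.1.1.2
  have e0 : (A : Set G) ∩ Phi r ρ = ((((A.filter fun g => r * g = g * r).filter
      fun g => (g * g = 1 ∨ g * g = r)).filter fun g => (ρ g = g ∨ ρ g = g * r) : Finset G) :
        Set G) := by
    ext g
    simp only [Phi, Set.mem_inter_iff, Finset.mem_coe, Set.mem_ofPred_eq, Finset.mem_filter]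
    tauto
  rw [e0, Set.ncard_coe_finset, Set.ncard_coe_finset]
  have c1 := Finset.card_filter_add_card_filter_not (s := A) (fun g => r * g = g * r)
  have c2 := Finset.card_filter_add_card_filter_not (s := A.filter fun g => r * g = g * r)
    (fun g => (g * g = 1 ∨ g * g = r))
  have c3 := Finset.card_filter_add_card_filter_not (s := (A.filter fun g => r * g = g * r).filter
      fun g => (g * g = 1 ∨ g * g = r)) (fun g => (ρ g = g ∨ ρ g = g * r))
  rw [ZMod.natCast_eq_natCast_iff']
  omega

end Pool.Agent.Lib.MP_66609f_al
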