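import Pool.Agent.Lib.MP_66609f_al.Mach
import Pool.Agent.Lib.MP_66609f_al.Parity

/-! The abstract setting and the generating set. -/

namespace Pool.Agent.Lib.MP_66609f_al

/-- Free group on `x = (false,false)`, `t = (false,true)`, `y = (true,false)`, `u = (true,true)`. -/
abbrev FW : Type := FreeGroup (Bool × Bool)

/-- Projection of `FW` onto the free group of one coordinate. -/
def pc (c : Bool) : FW →* FreeGroup Bool :=
  FreeGroup.lift fun b => if b.1 = c then FreeGroup.of b.2 else 1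

/-- The four families: `f.1` inverts the generators, `f.2` swaps the coordinates. -/
def fam (f : Bool × Bool) : FW →* FW :=
  FreeGroup.lift fun b =>
    if f.1 then (FreeGroup.of (xor b.1 f.2, b.2))⁻¹ else FreeGroup.of (xor b.1 f.2, b.2)

def St.num : St → ℤ
  | .A => 3 | .B => 4 | .C => 5 | .D => 6 | .Q => 7

def Gen.idx : Gen → ℤ
  | .x => 1 | .t => 2 | .gs s => s.num | .y => 10 | .u => 11

def Y0 : FW := FreeGroup.of (false, true) * FreeGroup.of (true, true) ^ (10 : ℤ)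

/-- Realisation of the machine generators in `FW`. -/
def realG (m : Gen) : FW :=
  if m.crd then
    Y0 * (FreeGroup.of (true, true) ^ (m.idx - 10) * FreeGroup.of (true, false) *
      (FreeGroup.of (true, true) ^ (m.idx - 10))⁻¹) * Y0⁻¹
  else
    Y0 * (FreeGroup.of (false, true) ^ (m.idx - 1) * FreeGroup.of (false, false) *
      (FreeGroup.of (false, true) ^ (m.idx - 1))⁻¹) * Y0⁻¹

def realH : FreeGroup Gen →* FW := FreeGroup.lift realG

/-- The abstract hypotheses. `gn` lists the elements `x, t, y, u`. -/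
structure Setup (G : Type*) [Group G] where
  r : G
  T : G
  τ : G
  gn : Bool × Bool → G
  ρ : G ≃* G
  Θ : G → ℕ
  H : G → Prop
  rr : r * r = 1
  r_ne : r ≠ 1
  ρρ : ∀ g, ρ (ρ g) = g
  ρr : ρ r = r
  ρT : ρ T = T
  ρτ : ρ τ = τ
  ττ : τ * τ = 1
  rT : Commute r T
  rτ : Commute r τ
  τT : τ * T * τ⁻¹ = T⁻¹
  r_gn : ∀ b, Commute r (gn b)
  T_gn : ∀ b, Commute T (gn b)
  ρ_gn : ∀ b, ρ (gn b) = (gn b)⁻¹
  τ_gn : ∀ b, τ * gn b * τ⁻¹ = gn (!b.1, b.2)
  xy : Commute (gn (false, false)) (gn (true, false))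
  xu : Commute (gn (false, false)) (gn (true, true))
  det : ∀ w : FW, FreeGroup.lift gn w = 1 ∨ FreeGroup.lift gn w = r → pc false w = 1
  th0 : ∃ C : ℕ, ∀ k : ℤ, 2 * k.natAbs ≤ Θ (T ^ k) + C
  th1 : ∀ s, ∃ C : ℕ, ∀ g, Θ (s * g) ≤ Θ g + C
  th2 : ∃ C : ℕ, ∀ (j : ℤ) g, Θ (T ^ j * g) ≤ Θ g + 2 * j.natAbs + C ∧
    (¬ H g → Θ (T ^ j * g) ≤ Θ g + j.natAbs + C)
  th3 : ∃ C : ℕ, ∀ (w : FW) g, H g → Θ (FreeGroup.lift gn w * g) ≤ Θ g + C
  H_one : H 1
  H_gn : ∀ (w : FW) g, H g → H (FreeGroup.lift gn w * g)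
  H_nrm : ∀ f g, r * f = f * r → (ρ f = f ∨ ρ f = f * r) → H g → H (f * g)
  fix1 : ∀ f, r * f = f * r → (ρ f = f ∨ ρ f = f * r) → f * T * f⁻¹ = T ∨ f * T * f⁻¹ = T⁻¹
  fix2 : ∃ F : Set G, F.Finite ∧ ∀ f, r * f = f * r → (ρ f = f ∨ ρ f = f * r) →
    ∃ f0 ∈ F, ∃ k : ℤ, f = T ^ k * f0
  sep : ∀ f f' (w w' : FW), r * f = f * r → (ρ f = f ∨ ρ f = f * r) → f * T * f⁻¹ = T⁻¹ →
    r * f' = f' * r → (ρ f' = f' ∨ ρ f' = f' * r) → f' * T * f'⁻¹ = T⁻¹ →
    FreeGroup.lift gn w * f * FreeGroup.lift gn w' = f' →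
    ∃ k : ℤ, f' = T ^ k * f ∨ f' = T ^ k * f * r

namespace Setup

variable {G : Type*} [Group G] (S : Setup G)

/-- Evaluation of words in `x, t, y, u`. -/
def ev : FW →* G := FreeGroup.lift S.gn

/-- The machine element of family `(f, false)`. -/
def mach (f : Bool) (w : FreeGroup Gen) : G := S.ev (fam (f, false) (realH w))

def rr' (ε : Bool) : G := if ε then S.r else 1

/-- The finite data on which the generating set depends. -/
structure Data where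
  L0 : Set G
  L0_fin : L0.Finite
  L0_one : 1 ∈ L0
  L0_left : ∀ s ∈ L0, S.r * s ∈ L0
  L0_right : ∀ s ∈ L0, s * S.r ∈ L0
  L0_inv : ∀ s ∈ L0, s⁻¹ ∈ L0
  L0_ρ : ∀ s ∈ L0, S.ρ s ∈ L0
  R : Set G
  R_fin : R.Finite
  R_phi : ∀ g ∈ R, g ∈ Phi S.r S.ρ ∧ g * S.T * g⁻¹ = S.T⁻¹
  τ_not : S.τ ∉ R
  R_inj : ∀ g ∈ insert S.τ R, ∀ g' ∈ insert S.τ R, ∀ (k : ℤ) (ε : Bool),
    g' = S.T ^ k * g * S.rr' ε → g' = g
  R_cover : ∀ g ∈ Phi S.r S.ρ, g * S.T * g⁻¹ = S.T⁻¹ →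
    ∃ g0 ∈ insert S.τ R, ∃ (k : ℤ) (ε : Bool), g = S.T ^ k * g0 * S.rr' ε

end Setup

/-- Descriptions of letters. -/
inductive Let (G : Type*) : Type _
  | zero (s : G)
  | one (neg f : Bool) (e : Ed) (j : ℕ) (ε : Bool)
  | two (g : G) (j : ℤ) (ε : Bool)
  | three (j : ℕ) (ε : Bool)
  | four (kind f : Bool) (j : ℕ) (ε : Bool)

namespace Setup

variable {G : Type*} [Group G] (S : Setup G)

def value : Let G → G
  | .zero s => s
  | .one false f e j ε => S.T ^ (j : ℤ) * S.mach f e.val * S.rr' ε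
  | .one true f e j ε => S.T ^ (-(j : ℤ)) * (S.mach f e.val)⁻¹ * S.rr' ε
  | .two g j ε => S.T ^ j * g * S.rr' ε
  | .three j ε => S.T ^ (j : ℤ) * S.τ * S.rr' ε
  | .four false f j ε => S.T ^ (-(j : ℤ)) * (S.mach f eta * S.τ) * S.rr' ε
  | .four true f j ε => S.T ^ (-(j : ℤ)) * (S.τ * (S.mach f eta)⁻¹) * S.rr' ε

variable {S}

def Data.Valid (D : S.Data) (q v : ℕ) : Let G → Prop
  | .zero s => s ∈ D.L0
  | .one _ _ e j _ => j + e.pen ≤ v
  | .two g j _ => g ∈ D.R ∧ j.natAbs + q ≤ v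
  | .three j _ => j + q ≤ v
  | .four _ _ j _ => j + q ≤ v

/-- The generating set. -/
def Data.gens (D : S.Data) (q v : ℕ) : Set G := {x | ∃ a, D.Valid q v a ∧ S.value a = x}

end Setup

def Let.IsOne {G : Type*} : Let G → Prop
  | .one _ _ _ _ _ => True
  | _ => False

def Let.IsZero {G : Type*} : Let G → Prop
  | .zero _ => True
  | _ => False

namespace Setup

variable {G : Type*} [Group G] {S : Setup G}

/-- Words of small deficiency have exactly one letter that is not of type one, and it is not of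
type zero. -/
def Data.Shape (D : S.Data) (q v : ℕ) : Prop :=
  ∀ (l : List (Let G)) (g : G) (k : ℤ) (ε : Bool), (∀ a ∈ l, D.Valid q v a) →
    g ∈ insert S.τ D.R → (l.map S.value).prod = S.T ^ k * g * S.rr' ε →
    (l.length : ℤ) * v - q - 1 ≤ |k| →
    ∃ (l1 l2 : List (Let G)) (a : Let G), l = l1 ++ a :: l2 ∧ (∀ b ∈ l1, b.IsOne) ∧
      (∀ b ∈ l2, b.IsOne) ∧ ¬ a.IsOne ∧ ¬ a.IsZero

end Setup

end Pool.Agent.Lib.MP_66609f_al
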