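import Pool.Agent.Lib.MP_66609f_al.Set2
import Pool.Agent.Lib.MP_66609f_al.Setup

/-! Genus two: concrete definitions. -/

namespace Pool.Agent.Lib.MP_66609f_al

abbrev F2 : Type := FreeGroup Bool

def ga : F2 := FreeGroup.of false

def gb : F2 := FreeGroup.of true

/-- The commutator of the two generators. -/
def cm : F2 := ga * gb * ga⁻¹ * gb⁻¹

/-- The twist `a ↦ a`, `b ↦ b a`. -/
def sA : MulAut F2 :=
  MonoidHom.toMulEquiv (FreeGroup.lift fun x => if x then gb * ga else ga)
    (FreeGroup.lift fun x => if x then gb * ga⁻¹ else ga)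
    (by ext x; cases x <;> simp [ga, gb]) (by ext x; cases x <;> simp [ga, gb])

/-- The twist `a ↦ a b⁻¹`, `b ↦ b`. -/
def sB : MulAut F2 :=
  MonoidHom.toMulEquiv (FreeGroup.lift fun x => if x then gb else ga * gb⁻¹)
    (FreeGroup.lift fun x => if x then gb else ga * gb)
    (by ext x; cases x <;> simp [ga, gb]) (by ext x; cases x <;> simp [ga, gb])

theorem sA_ga : sA ga = ga := by simp [sA, ga]

theorem sA_gb : sA gb = gb * ga := by simp [sA, gb]

theorem sB_ga : sB ga = ga * gb⁻¹ := by simp [sB, ga]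

theorem sB_gb : sB gb = gb := by simp [sB, gb]

def om : MulAut F2 := sA * sB

/-- The pure braid group modulo its centre. -/
def ph0 : F2 →* MulAut F2 := FreeGroup.lift fun x => if x then sB ^ 2 else sA ^ 2

/-- The endomorphism `a ↦ b`, `b ↦ (a b)⁻¹`, of order three. -/
def rot3 : F2 →* F2 := FreeGroup.lift fun x => if x then (ga * gb)⁻¹ else gb

/-- A conjugate of the commutator. -/
def cw (i : ℤ) : F2 := ga ^ i * cm * (ga ^ i)⁻¹

/-- The three families of conjugates. -/
def indH (e : ℕ) : FT →* F2 := FreeGroup.lift fun m => rot3^[e * m.2.val] (cw m.1.idx)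

/-- The subgroup generated by the two twists. -/
def B3 : Subgroup (MulAut F2) := Subgroup.closure {sA, sB}

/-- Crossed homomorphisms. -/
def Zc {H : Type*} [Group H] (χ : H →* ℤˣ) : AddSubgroup (H → ℤ) where
  carrier := {d | ∀ x y, d (x * y) = d x + (χ x : ℤ) * d y}
  zero_mem' := by intro x y; simp
  add_mem' := by
    intro d d' h h' x y
    simp only [Pi.add_apply]
    rw [h, h']
    ring
  neg_mem' := by
    intro d h x y
    simp only [Pi.neg_apply]
    rw [h]
    ring

/-- The indicator function of the complement of the kernel. -/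
def dl {H : Type*} [Group H] (χ : H →* ℤˣ) (x : H) : ℤ := if χ x = 1 then 0 else 1

/-- Half the value of a crossed homomorphism on the commutator. -/
def wF (χ : F2 →* ℤˣ) (d : F2 → ℤ) : ℤ := d ga * dl χ gb - d gb * dl χ ga

/-- The other coordinate. -/
def sF (χ : F2 →* ℤˣ) (d : F2 → ℤ) : ℤ := if χ ga = 1 then d gb else d ga

abbrev P2 : Type := SurfaceGroup 2

/-- The two handles. -/
def emb (c : Bool) : F2 →* P2 :=
  FreeGroup.lift fun b => PresentedGroup.of ((if c then 1 else 0 : Fin 2), b)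

/-- Coordinates on crossed homomorphisms modulo `dl`. -/
noncomputable def Lc (χ : P2 →* ℤˣ) (d : P2 → ℤ) : ℤ × ℤ := by
  classical
  exact if χ.comp (emb false) = 1 then (d (emb false ga), d (emb false gb))
    else if χ.comp (emb true) = 1 then (d (emb true ga), d (emb true gb))
    else (sF (χ.comp (emb false)) (d ∘ emb false) - sF (χ.comp (emb true)) (d ∘ emb true),
      wF (χ.comp (emb false)) (d ∘ emb false))

/-- The character is non-trivial on both handles. -/
def Split (χ : P2 →* ℤˣ) : Prop := χ.comp (emb false) ≠ 1 ∧ χ.comp (emb true) ≠ 1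

/-- `φ` acts on the two handles by `α` and `β`. -/
def IsExt (φ : MulAut P2) (α β : MulAut F2) : Prop :=
  (∀ w, φ (emb false w) = emb false (α w)) ∧ ∀ w, φ (emb true w) = emb true (β w)

/-- The properties of the length of the subtractive Euclidean algorithm. -/
structure IsEu (E : ℤ × ℤ → ℕ) : Prop where
  neg : ∀ v, E (-v) = E v
  lip : ∀ M : ℤ × ℤ ≃+ ℤ × ℤ, ∃ C : ℕ, ∀ v, E (M v) ≤ E v + C
  shear : ∀ s w j : ℤ, E (s + j * w, w) ≤ E (s, w) + j.natAbs
  low : ∀ k : ℤ, k.natAbs ≤ E (k, 1)

/-- The potential. -/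
noncomputable def ThE (E : ℤ × ℤ → ℕ) (χ : P2 →* ℤˣ) (d : P2 → ℤ) (φ : MulAut P2) : ℕ :=
  E (Lc (χ.comp φ⁻¹.toMonoidHom) (d ∘ ⇑(φ⁻¹)))

end Pool.Agent.Lib.MP_66609f_al
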