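import Pool.Agent.Lib.MP_66609f_al.G2Braid
import Pool.Agent.Lib.MP_66609f_al.Sanov

namespace Pool.Agent.Lib.MP_66609f_al

/-- The exponent sum of a generator. -/
def g2San_ex (b : Bool) : F2 →* Multiplicative ℤ :=
  FreeGroup.lift fun x => if x = b then Multiplicative.ofAdd 1 else 1

/-- The exponent vector. -/
def g2San_vec (w : F2) : Fin 2 → ℤ := ![(g2San_ex false w).toAdd, (g2San_ex true w).toAdd]

theorem g2San_vec_mul (x y : F2) : g2San_vec (x * y) = g2San_vec x + g2San_vec y := by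
  ext i
  fin_cases i <;> simp [g2San_vec]

theorem g2San_vec_inv (x : F2) : g2San_vec x⁻¹ = -g2San_vec x := by
  ext i
  fin_cases i <;> simp [g2San_vec]

theorem g2San_vec_one : g2San_vec 1 = 0 := by
  ext i
  fin_cases i <;> simp [g2San_vec]

theorem g2San_vec_a : g2San_vec ga = ![1, 0] := by
  ext i
  fin_cases i <;> simp [g2San_vec, g2San_ex, ga]

theorem g2San_vec_b : g2San_vec gb = ![0, 1] := by
  ext i
  fin_cases i <;> simp [g2San_vec, g2San_ex, gb]

/-- The matrix representation. -/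
def g2San_M : F2 →* Matrix.SpecialLinearGroup (Fin 2) ℤ := FreeGroup.lift fun x => sanM (!x)

theorem g2San_key (α : MulAut F2) (M : Matrix (Fin 2) (Fin 2) ℤ)
    (h1 : g2San_vec (α ga) = M.mulVec (g2San_vec ga))
    (h2 : g2San_vec (α gb) = M.mulVec (g2San_vec gb)) (w : F2) :
    g2San_vec (α w) = M.mulVec (g2San_vec w) := by
  induction w using g2Braid_ind with
  | h1 => rw [map_one, g2San_vec_one, Matrix.mulVec_zero]
  | ha => exact h1
  | hb => exact h2
  | hm x y hx hy => rw [map_mul, g2San_vec_mul, g2San_vec_mul, hx, hy, Matrix.mulVec_add]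
  | hi x hx => rw [map_inv, g2San_vec_inv, g2San_vec_inv, hx, Matrix.mulVec_neg]

theorem g2San_act (u w : F2) :
    g2San_vec (ph0 u w) = (g2San_M u : Matrix (Fin 2) (Fin 2) ℤ).mulVec (g2San_vec w) := by
  induction u using g2Braid_ind generalizing w with
  | h1 => simp
  | ha =>
    have h : g2San_M ga = sanM true := by simp [g2San_M, ga]
    rw [g2Braid_ph0_a, h]
    refine g2San_key _ _ ?_ ?_ w <;>
      simp only [pow_two, MulAut.mul_apply, map_mul, sA_ga, sA_gb, g2San_vec_mul, g2San_vec_a,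
        g2San_vec_b] <;> ext i <;> fin_cases i <;>
      simp [sanM, Matrix.mulVec, dotProduct, Fin.sum_univ_two]
  | hb =>
    have h : g2San_M gb = sanM false := by simp [g2San_M, gb]
    rw [g2Braid_ph0_b, h]
    refine g2San_key _ _ ?_ ?_ w <;>
      simp only [pow_two, MulAut.mul_apply, map_mul, map_inv, sB_ga, sB_gb, g2San_vec_mul,
        g2San_vec_inv, g2San_vec_a, g2San_vec_b] <;> ext i <;> fin_cases i <;>
      simp [sanM, Matrix.mulVec, dotProduct, Fin.sum_univ_two]
  | hm x y hx hy =>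
    rw [map_mul, MulAut.mul_apply, hx, hy, map_mul, Matrix.SpecialLinearGroup.coe_mul,
      Matrix.mulVec_mulVec]
  | hi x hx =>
    have h := hx (ph0 x⁻¹ w)
    rw [← MulAut.mul_apply, ← map_mul, mul_inv_cancel, map_one, MulAut.one_apply] at h
    rw [h, Matrix.mulVec_mulVec, ← Matrix.SpecialLinearGroup.coe_mul, ← map_mul, inv_mul_cancel,
      map_one, Matrix.SpecialLinearGroup.coe_one, Matrix.one_mulVec]

/-- An element acting trivially on homology is trivial. -/
theorem ph0_ab (u : F2) (h : ∀ (α : F2 →* Multiplicative ℤ) (w : F2), α (ph0 u w) = α w) :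
    u = 1 := by
  have h1 : ∀ w, (g2San_M u : Matrix (Fin 2) (Fin 2) ℤ).mulVec (g2San_vec w) = g2San_vec w := by
    intro w
    rw [← g2San_act]
    simp only [g2San_vec, h]
  have h2 : g2San_M u = 1 := by
    have ha := h1 ga
    have hb := h1 gb
    rw [g2San_vec_a] at ha
    rw [g2San_vec_b] at hb
    ext i j
    have e1 := congrFun ha i
    have e2 := congrFun hb i
    fin_cases i <;> fin_cases j <;>
      simp [Matrix.mulVec, dotProduct, Fin.sum_univ_two] at e1 e2 ⊢ <;> assumption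
  have h3 : ∀ w : F2, FreeGroup.lift sanM (FreeGroup.map not w) = g2San_M w := by
    intro w
    have e : (FreeGroup.lift sanM).comp (FreeGroup.map not) = g2San_M := by
      ext x : 1
      simp [g2San_M]
    exact DFunLike.congr_fun e w
  have h4 : FreeGroup.map not u = 1 := sanov _ (by rw [map_mul, h3, h2, mul_one])
  have h5 : FreeGroup.map not (FreeGroup.map not u) = u := by
    rw [FreeGroup.map.comp]
    have e : (not ∘ not : Bool → Bool) = id := by
      ext x
      simp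
    rw [e]
    exact FreeGroup.map.id u
  rw [← h5, h4, map_one]

theorem dl_mem {H : Type*} [Group H] (χ : H →* ℤˣ) : dl χ ∈ Zc χ := by
  intro x y
  simp only [dl, map_mul]
  rcases Int.units_eq_one_or (χ x) with h | h <;> rcases Int.units_eq_one_or (χ y) with h' | h' <;>
    simp [h, h']

theorem Zc_one {H : Type*} [Group H] {χ : H →* ℤˣ} {d : H → ℤ} (h : d ∈ Zc χ) : d 1 = 0 := by
  have h1 := h 1 1
  simp only [mul_one, map_one, Units.val_one, one_mul] at h1
  omega

theorem Zc_inv {H : Type*} [Group H] {χ : H →* ℤˣ} {d : H → ℤ} (h : d ∈ Zc χ) (x : H) :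
    d x⁻¹ = -((χ x : ℤ) * d x) := by
  have h1 := h x x⁻¹
  rw [mul_inv_cancel, Zc_one h] at h1
  rcases Int.units_eq_one_or (χ x) with e | e <;> rw [e] at h1 ⊢ <;> simp at h1 ⊢ <;> omega

theorem Zc_conj {H : Type*} [Group H] {χ : H →* ℤˣ} {d : H → ℤ} (h : d ∈ Zc χ) (g x : H) :
    d (g * x * g⁻¹) = (χ g : ℤ) * d x + 2 * d g * dl χ x := by
  rw [h, h, Zc_inv h, map_mul, dl]
  rcases Int.units_eq_one_or (χ x) with e | e <;> rcases Int.units_eq_one_or (χ g) with e' | e' <;>
    simp [e, e'] <;> ring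

theorem Zc_comp {H H' : Type*} [Group H] [Group H'] {χ : H →* ℤˣ} {d : H → ℤ} (h : d ∈ Zc χ)
    (f : H' →* H) : d ∘ f ∈ Zc (χ.comp f) := by
  intro x y
  simp only [Function.comp_apply, map_mul f, MonoidHom.comp_apply]
  exact h _ _

/-- Crossed homomorphisms are determined by their values on a generating set. -/
theorem Zc_ext {H : Type*} [Group H] {χ : H →* ℤˣ} {d d' : H → ℤ} (h : d ∈ Zc χ) (h' : d' ∈ Zc χ)
    {s : Set H} (hs : Subgroup.closure s = ⊤) (e : ∀ x ∈ s, d x = d' x) : d = d' := by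
  ext x
  have hx : x ∈ Subgroup.closure s := hs ▸ Subgroup.mem_top x
  induction hx using Subgroup.closure_induction with
  | mem x hx => exact e x hx
  | one => rw [Zc_one h, Zc_one h']
  | mul x y _ _ hx hy => rw [h, h', hx, hy]
  | inv x _ hx => rw [Zc_inv h, Zc_inv h', hx]

theorem Zc_cm {χ : F2 →* ℤˣ} {d : F2 → ℤ} (h : d ∈ Zc χ) : d cm = 2 * wF χ d := by
  rw [cm, h, Zc_conj h, Zc_inv h, wF, map_mul, map_mul, map_inv, dl, dl]
  rcases Int.units_eq_one_or (χ ga) with e | e <;> rcases Int.units_eq_one_or (χ gb) with e' | e' <;>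
    simp [e, e'] <;> ring

/-- The linking homomorphism. -/
def g2San_lam (χ : F2 →* ℤˣ) : F2 →* Multiplicative ℤ :=
  FreeGroup.lift fun x => if χ (FreeGroup.of x) = 1 then Multiplicative.ofAdd (-2) else 1

theorem g2San_ext {χ : F2 →* ℤˣ} {d d' : F2 → ℤ} (h : d ∈ Zc χ) (h' : d' ∈ Zc χ)
    (ha : d ga = d' ga) (hb : d gb = d' gb) (w : F2) : d w = d' w := by
  induction w using g2Braid_ind with
  | h1 => rw [Zc_one h, Zc_one h']
  | ha => exact ha
  | hb => exact hb
  | hm x y hx hy => rw [h, h', hx, hy]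
  | hi x hx => rw [Zc_inv h, Zc_inv h', hx]

theorem g2San_comp {χ : F2 →* ℤˣ} {d : F2 → ℤ} (h : d ∈ Zc χ) (u : F2) :
    (fun w => d (ph0 u w)) ∈ Zc χ := by
  intro x y
  simp only [map_mul (ph0 u)]
  rw [h, chi_ph0]

theorem g2San_formula {χ : F2 →* ℤˣ} (hχ : χ ≠ 1) (u : F2) : ∀ {d : F2 → ℤ} (_ : d ∈ Zc χ) (w : F2),
    d (ph0 u w) = d w + (g2San_lam χ u).toAdd * wF χ d * dl χ w := by
  have hne : ¬ (χ ga = 1 ∧ χ gb = 1) := by
    rintro ⟨h1, h2⟩
    apply hχ
    ext x : 1
    cases x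
    · exact h1
    · exact h2
  have hc : (χ ga = 1 ∧ χ gb = -1) ∨ (χ ga = -1 ∧ χ gb = 1) ∨ (χ ga = -1 ∧ χ gb = -1) := by
    rcases Int.units_eq_one_or (χ ga) with e1 | e1 <;>
      rcases Int.units_eq_one_or (χ gb) with e2 | e2
    · exact absurd ⟨e1, e2⟩ hne
    · exact Or.inl ⟨e1, e2⟩
    · exact Or.inr (Or.inl ⟨e1, e2⟩)
    · exact Or.inr (Or.inr ⟨e1, e2⟩)
  have hmem : ∀ {d : F2 → ℤ} (_ : d ∈ Zc χ) (k : ℤ), (fun w => d w + k * dl χ w) ∈ Zc χ := by
    intro d h k
    exact add_mem h (zsmul_mem (dl_mem χ) k)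
  have hw : ∀ (d : F2 → ℤ) (k : ℤ), wF χ (fun w => d w + k * dl χ w) = wF χ d := by
    intro d k
    simp only [wF]
    ring
  have hdl : ∀ u w, dl χ (ph0 u w) = dl χ w := fun u w => by simp only [dl, chi_ph0]
  induction u using g2Braid_ind with
  | h1 => intro d h w; simp
  | ha =>
    intro d h w
    have e : g2San_lam χ ga = if χ ga = 1 then Multiplicative.ofAdd (-2) else 1 :=
      FreeGroup.lift_apply_of
    refine g2San_ext (g2San_comp h ga) (hmem h _) ?_ ?_ w <;> rw [e, g2Braid_ph0_a] <;>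
      simp only [pow_two, MulAut.mul_apply, map_mul, sA_ga, sA_gb] <;> (try rw [h, h, map_mul]) <;>
      simp only [wF, dl] <;>
      rcases hc with ⟨e1, e2⟩ | ⟨e1, e2⟩ | ⟨e1, e2⟩ <;>
      first
        | (simp [e1, e2]; done)
        | (simp [e1, e2]; ring)
  | hb =>
    intro d h w
    have e : g2San_lam χ gb = if χ gb = 1 then Multiplicative.ofAdd (-2) else 1 :=
      FreeGroup.lift_apply_of
    refine g2San_ext (g2San_comp h gb) (hmem h _) ?_ ?_ w <;> rw [e, g2Braid_ph0_b] <;>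
      simp only [pow_two, MulAut.mul_apply, map_mul, map_inv, sB_ga, sB_gb] <;>
      (try rw [h, h, Zc_inv h, map_mul, map_inv]) <;>
      simp only [wF, dl] <;>
      rcases hc with ⟨e1, e2⟩ | ⟨e1, e2⟩ | ⟨e1, e2⟩ <;>
      first
        | (simp [e1, e2]; done)
        | (simp [e1, e2]; ring)
  | hm x y hx hy =>
    intro d h w
    have h1 := hy (g2San_comp h x) w
    have h2 : (fun w => d (ph0 x w)) =
        fun w => d w + (g2San_lam χ x).toAdd * wF χ d * dl χ w := funext fun w => hx h w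
    rw [map_mul, MulAut.mul_apply, h1, h2, hw, map_mul, toAdd_mul]
    rw [hx h]
    ring
  | hi x hx =>
    intro d h w
    have h1 := hx h (ph0 x⁻¹ w)
    rw [← MulAut.mul_apply, ← map_mul, mul_inv_cancel, map_one, MulAut.one_apply, hdl] at h1
    rw [map_inv (g2San_lam χ), toAdd_inv, h1]
    ring

/-- Commutators of pure braids act trivially on twisted cocycles. -/
theorem Zc_ph0 {χ : F2 →* ℤˣ} (hχ : χ ≠ 1) {d : F2 → ℤ} (h : d ∈ Zc χ) (u : F2)
    (hu : u ∈ commutator F2) (w : F2) : d (ph0 u w) = d w := by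
  have h1 : g2San_lam χ u = 1 := Abelianization.commutator_subset_ker (g2San_lam χ) hu
  rw [g2San_formula hχ u h, h1]
  simp

end Pool.Agent.Lib.MP_66609f_al
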