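import Pool.Agent.Lib.MP_66609f_al.Half

namespace Pool.Agent.Lib.MP_66609f_al

open Pointwise

namespace HS

variable {X : Type*} (Z : HS X)

theorem d_comm (u v : X) : Z.d u v = Z.d v u := by
  unfold d
  have h : {A | A ∈ Z.H ∧ v ∈ A ∧ u ∉ A} = compl '' {A | A ∈ Z.H ∧ u ∈ A ∧ v ∉ A} := by
    ext A
    constructor
    · rintro ⟨h1, h2, h3⟩
      exact ⟨Aᶜ, ⟨Z.compl_mem A h1, h3, fun h => h h2⟩, compl_compl A⟩
    · rintro ⟨B, ⟨h1, h2, h3⟩, rfl⟩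
      exact ⟨Z.compl_mem B h1, h3, fun h => h h2⟩
  rw [h, Set.ncard_image_of_injective _ compl_injective]

theorem d_self (u : X) : Z.d u u = 0 := by
  unfold d
  have h : {A | A ∈ Z.H ∧ u ∈ A ∧ u ∉ A} = ∅ := by
    ext A
    constructor
    · rintro ⟨_, h2, h3⟩
      exact (h3 h2).elim
    · intro h
      exact h.elim
  rw [h, Set.ncard_empty]

theorem eq_of_d_eq_zero (u v : X) (h : Z.d u v = 0) : u = v := by
  unfold d at h
  rw [Set.ncard_eq_zero (Z.fin u v)] at h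
  apply Z.sep
  intro A hA hu
  by_contra hv
  have : A ∈ ({A | A ∈ Z.H ∧ u ∈ A ∧ v ∉ A} : Set (Set X)) := ⟨hA, hu, hv⟩
  rw [h] at this
  exact this

/-- Splitting the separating set along a third point. -/
theorem halfBasic_split (u v w : X) :
    Z.d u v = {A | A ∈ Z.H ∧ u ∈ A ∧ v ∉ A ∧ w ∈ A}.ncard
      + {A | A ∈ Z.H ∧ u ∈ A ∧ v ∉ A ∧ w ∉ A}.ncard := by
  unfold d
  have h1 : {A | A ∈ Z.H ∧ u ∈ A ∧ v ∉ A ∧ w ∈ A}.Finite :=
    (Z.fin u v).subset (fun A hA => ⟨hA.1, hA.2.1, hA.2.2.1⟩)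
  have h2 : {A | A ∈ Z.H ∧ u ∈ A ∧ v ∉ A ∧ w ∉ A}.Finite :=
    (Z.fin u v).subset (fun A hA => ⟨hA.1, hA.2.1, hA.2.2.1⟩)
  rw [← Set.ncard_union_eq _ h1 h2]
  · congr 1
    ext A
    constructor
    · rintro ⟨a, b, c⟩
      by_cases hw : w ∈ A
      · exact Or.inl ⟨a, b, c, hw⟩
      · exact Or.inr ⟨a, b, c, hw⟩
    · rintro (⟨a, b, c, _⟩ | ⟨a, b, c, _⟩)
      · exact ⟨a, b, c⟩
      · exact ⟨a, b, c⟩
  · rw [Set.disjoint_left]
    rintro A ⟨_, _, _, h⟩ ⟨_, _, _, h'⟩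
    exact h' h

theorem d_add (x y z : X) : Z.d x y + Z.d y z = Z.d x z + 2 * Z.gp x z y := by
  have e1 := Z.halfBasic_split x y z
  have e2 := Z.halfBasic_split y z x
  have e3 := Z.halfBasic_split x z y
  have f1 : {A | A ∈ Z.H ∧ x ∈ A ∧ y ∉ A ∧ z ∈ A}.ncard = Z.gp x z y := by
    unfold gp
    have h : {A | A ∈ Z.H ∧ y ∈ A ∧ x ∉ A ∧ z ∉ A}
        = compl '' {A | A ∈ Z.H ∧ x ∈ A ∧ y ∉ A ∧ z ∈ A} := by
      ext A
      constructor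
      · rintro ⟨h1, h2, h3, h4⟩
        exact ⟨Aᶜ, ⟨Z.compl_mem A h1, h3, fun h => h h2, h4⟩, compl_compl A⟩
      · rintro ⟨B, ⟨h1, h2, h3, h4⟩, rfl⟩
        exact ⟨Z.compl_mem B h1, h3, fun h => h h2, fun h => h h4⟩
    rw [h, Set.ncard_image_of_injective _ compl_injective]
  have f2 : {A | A ∈ Z.H ∧ y ∈ A ∧ z ∉ A ∧ x ∉ A}.ncard = Z.gp x z y := by
    unfold gp
    congr 1
    ext A
    constructor
    · rintro ⟨a, b, c, e⟩
      exact ⟨a, b, e, c⟩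
    · rintro ⟨a, b, c, e⟩
      exact ⟨a, b, e, c⟩
  have f3 : {A | A ∈ Z.H ∧ x ∈ A ∧ y ∉ A ∧ z ∉ A}.ncard
      = {A | A ∈ Z.H ∧ x ∈ A ∧ z ∉ A ∧ y ∉ A}.ncard := by
    congr 1
    ext A
    constructor
    · rintro ⟨a, b, c, e⟩
      exact ⟨a, b, e, c⟩
    · rintro ⟨a, b, c, e⟩
      exact ⟨a, b, e, c⟩
  have f4 : {A | A ∈ Z.H ∧ y ∈ A ∧ z ∉ A ∧ x ∈ A}.ncard
      = {A | A ∈ Z.H ∧ x ∈ A ∧ z ∉ A ∧ y ∈ A}.ncard := by
    congr 1
    ext A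
    constructor
    · rintro ⟨a, b, c, e⟩
      exact ⟨a, e, c, b⟩
    · rintro ⟨a, b, c, e⟩
      exact ⟨a, e, c, b⟩
  omega

theorem d_triangle (x y z : X) : Z.d x z ≤ Z.d x y + Z.d y z := by
  have := Z.d_add x y z
  omega

/-- One step towards `v`. -/
theorem halfBasic_step (o o1 v : X) (A1 : Set X)
    (h : {A | A ∈ Z.H ∧ o ∈ A ∧ o1 ∉ A} = {A1}) (hv : v ∉ A1) :
    Z.d o o1 = 1 ∧ Z.d o1 v + 1 = Z.d o v := by
  have h1 : Z.d o o1 = 1 := by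
    unfold d
    rw [h, Set.ncard_singleton]
  have h2 : Z.gp o v o1 = 0 := by
    unfold gp
    have : {A | A ∈ Z.H ∧ o1 ∈ A ∧ o ∉ A ∧ v ∉ A} = ∅ := by
      ext A
      constructor
      · rintro ⟨a, b, c, e⟩
        have hm : Aᶜ ∈ ({A | A ∈ Z.H ∧ o ∈ A ∧ o1 ∉ A} : Set (Set X)) :=
          ⟨Z.compl_mem A a, c, fun h => h b⟩
        rw [h] at hm
        have hm' : Aᶜ = A1 := hm
        exact (hv (hm' ▸ e)).elim
      · intro h
        exact h.elim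
    rw [this, Set.ncard_empty]
  have h3 := Z.d_add o o1 v
  exact ⟨h1, by omega⟩

theorem halfBasic_geod (v : X) (n : ℕ) : ∀ u, Z.d u v = n → ∃ q : ℕ → X, q 0 = u ∧ q n = v ∧
    ∀ i j, i ≤ j → j ≤ n → Z.d (q i) (q j) = j - i := by
  induction n with
  | zero =>
    intro u hu
    refine ⟨fun _ => u, rfl, Z.eq_of_d_eq_zero u v hu, ?_⟩
    intro i j hij hj
    rw [Z.d_self]
    omega
  | succ n ih =>
    intro u hu
    have hne : {A | A ∈ Z.H ∧ u ∈ A ∧ v ∉ A}.Nonempty := by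
      apply Set.nonempty_of_ncard_ne_zero
      unfold d at hu
      omega
    obtain ⟨A, hA, huA, hvA⟩ := hne
    obtain ⟨o1, A1, h1, h2, _⟩ := Z.step u v v ⟨A, hA, huA, hvA, hvA⟩
    obtain ⟨e1, e2⟩ := Z.halfBasic_step u o1 v A1 h1 h2
    obtain ⟨q, hq0, hqn, hq⟩ := ih o1 (by omega)
    refine ⟨fun i => Nat.casesOn i u q, rfl, hqn, ?_⟩
    intro i j hij hj
    cases i with
    | zero =>
      cases j with
      | zero => exact Z.d_self u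
      | succ j =>
        show Z.d u (q j) = j + 1 - 0
        have a1 := hq 0 j (Nat.zero_le _) (by omega)
        have a2 := hq j n (by omega) le_rfl
        rw [hq0] at a1
        rw [hqn] at a2
        have a3 := Z.d_triangle u o1 (q j)
        have a4 := Z.d_triangle u (q j) v
        omega
    | succ i =>
      cases j with
      | zero => omega
      | succ j =>
        show Z.d (q i) (q j) = j + 1 - (i + 1)
        rw [hq i j (by omega) (by omega)]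
        omega

theorem exists_geod (u v : X) : ∃ q : ℕ → X, q 0 = u ∧ q (Z.d u v) = v ∧
    ∀ i j, i ≤ j → j ≤ Z.d u v → Z.d (q i) (q j) = j - i :=
  Z.halfBasic_geod v _ u rfl

/-- A foot between two nested half-spaces. -/
theorem exists_foot (A B : Set X) (hA : A ∈ Z.H) (hB : B ∈ Z.H) (h : B ⊂ A) :
    ∃ o, ∀ z' z, z' ∉ A → z ∈ B → Z.gp z' z o ≤ 1 := by
  classical
  obtain ⟨b, hb⟩ := Z.nonempty B hB
  obtain ⟨a, ha⟩ := Z.nonempty Aᶜ (Z.compl_mem A hA)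
  have hex : ∃ n, ∃ o z0, o ∉ A ∧ z0 ∈ B ∧ Z.d o z0 = n := ⟨_, a, b, ha, hb, rfl⟩
  obtain ⟨o, z0, ho, hz0, hd⟩ := Nat.find_spec hex
  have hmin : ∀ o1, o1 ∉ A → Z.d o z0 ≤ Z.d o1 z0 := by
    intro o1 ho1
    rw [hd]
    exact Nat.find_min' hex ⟨o1, z0, ho1, hz0, rfl⟩
  refine ⟨o, fun z' z hz' hz => ?_⟩
  have key : ∀ U, U ∈ Z.H → o ∈ U → z' ∉ U → z0 ∈ U := by
    intro U hU hoU hz'U
    by_contra hz0U
    obtain ⟨o1, A1, h1, h2, h3⟩ := Z.step o z0 z' ⟨U, hU, hoU, hz0U, hz'U⟩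
    have ho1 : o1 ∉ A := by
      intro ho1
      have hm : Aᶜ ∈ ({A | A ∈ Z.H ∧ o ∈ A ∧ o1 ∉ A} : Set (Set X)) :=
        ⟨Z.compl_mem A hA, ho, fun h => h ho1⟩
      rw [h1] at hm
      have hm' : Aᶜ = A1 := hm
      exact h3 (hm' ▸ hz')
    have e := (Z.halfBasic_step o o1 z0 A1 h1 h2).2
    have := hmin o1 ho1
    omega
  have hsub : B ⊆ A := h.1
  have cA : ∀ U, U ∈ Z.H → o ∈ U → z' ∉ U → z ∉ U → Cross U A := by
    intro U hU h1 h2 h3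
    exact ⟨⟨z0, key U hU h1 h2, hsub hz0⟩, ⟨o, h1, ho⟩, ⟨z, h3, hsub hz⟩, ⟨z', h2, hz'⟩⟩
  have cB : ∀ U, U ∈ Z.H → o ∈ U → z' ∉ U → z ∉ U → Cross U B := by
    intro U hU h1 h2 h3
    exact ⟨⟨z0, key U hU h1 h2, hz0⟩, ⟨o, h1, fun hh => ho (hsub hh)⟩, ⟨z, h3, hz⟩,
      ⟨z', h2, fun hh => hz' (hsub hh)⟩⟩
  unfold gp
  have hfin : {U | U ∈ Z.H ∧ o ∈ U ∧ z' ∉ U ∧ z ∉ U}.Finite :=
    (Z.fin o z').subset (fun U hU => ⟨hU.1, hU.2.1, hU.2.2.1⟩)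
  rw [Set.ncard_le_one hfin]
  rintro U1 ⟨a1, a2, a3, a4⟩ U2 ⟨b1, b2, b3, b4⟩
  rcases Z.k22 U1 a1 U2 b1 A hA B hB (cA U1 a1 a2 a3 a4) (cB U1 a1 a2 a3 a4)
    (cA U2 b1 b2 b3 b4) (cB U2 b1 b2 b3 b4) with (e | e) | (e | e)
  · exact e
  · exfalso
    rw [e] at a2
    exact a2 b2
  · exact (h.ne e.symm).elim
  · exfalso
    have := hsub hz0
    rw [e] at this
    exact this hz0

end HS

end Pool.Agent.Lib.MP_66609f_al
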