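import Pool.Agent.Lib.MP_66609f_al.HalfMorse
import Pool.Agent.Lib.MP_66609f_al.HalfPos

namespace Pool.Agent.Lib.MP_66609f_al

open Pointwise

namespace HS

variable {X : Type*} (Z : HS X) {Γ : Type*} [Group Γ] [MulAction Γ X]

theorem halfCmp_count {S : Set (Set X)} (hS : S.Finite) (R : ℕ) (f : ℕ → Set X)
    (hf : Function.Injective f) (hm : ∀ t, t ≤ R → f t ∈ S) : R + 1 ≤ S.ncard := by
  have h1 : (f '' (Finset.range (R + 1) : Set ℕ)).ncard ≤ S.ncard := by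
    refine Set.ncard_le_ncard ?_ hS
    rintro _ ⟨t, ht, rfl⟩
    exact hm t (by have := Finset.mem_range.1 (Finset.mem_coe.1 ht); omega)
  rwa [Set.ncard_image_of_injective _ hf, Set.ncard_coe_finset, Finset.card_range] at h1

theorem halfCmp_inj {a : Γ} {A : Set X} (h : Z.Skew a A) {k l : ℤ}
    (e : a ^ k • A = a ^ l • A) : k = l := by
  rcases lt_trichotomy k l with hkl | hkl | hkl
  · exact absurd e.symm (Z.zpow_smul_ssubset h hkl).ne
  · exact hkl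
  · exact absurd e (Z.zpow_smul_ssubset h hkl).ne

theorem halfCmp_fin (u w m : X) : {A | A ∈ Z.H ∧ m ∈ A ∧ u ∉ A ∧ w ∉ A}.Finite :=
  (Z.fin m u).subset fun _ hA => ⟨hA.1, hA.2.1, hA.2.2.1⟩

theorem halfCmp_up (hΓ : Z.Inv Γ) {a : Γ} {A : Set X} (h : Z.Skew a A) {R : ℕ} {u w m : X}
    (hg : Z.gp u w m ≤ R) : pos a A m - R ≤ pos a A u ∨ pos a A m - R ≤ pos a A w := by
  by_contra hc
  rw [not_or, not_le, not_le] at hc
  have := halfCmp_count (Z.halfCmp_fin u w m) R (fun t => a ^ (pos a A m - t) • A)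
    (fun s t e => by have := Z.halfCmp_inj h e; omega) (fun t ht => by
      refine ⟨hΓ _ _ h.1, (Z.mem_iff_le_pos hΓ h _ _).2 (by omega), ?_, ?_⟩
      · rw [Z.mem_iff_le_pos hΓ h]; omega
      · rw [Z.mem_iff_le_pos hΓ h]; omega)
  unfold gp at hg
  omega

theorem halfCmp_down (hΓ : Z.Inv Γ) {a : Γ} {A : Set X} (h : Z.Skew a A) {R : ℕ} {u w m : X}
    (hg : Z.gp u w m ≤ R) : pos a A u ≤ pos a A m + R ∨ pos a A w ≤ pos a A m + R := by
  by_contra hc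
  rw [not_or, not_le, not_le] at hc
  have := halfCmp_count (Z.halfCmp_fin u w m) R (fun t => (a ^ (pos a A m + 1 + t) • A)ᶜ)
    (fun s t e => by have := Z.halfCmp_inj h (compl_injective e); omega) (fun t ht => by
      refine ⟨Z.compl_mem _ (hΓ _ _ h.1), ?_, ?_, ?_⟩
      · rw [Set.mem_compl_iff, Z.mem_iff_le_pos hΓ h]; omega
      · rw [Set.mem_compl_iff, not_not, Z.mem_iff_le_pos hΓ h]; omega
      · rw [Set.mem_compl_iff, not_not, Z.mem_iff_le_pos hΓ h]; omega)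
  unfold gp at hg
  omega

theorem halfCmp_equi {Ψ : X ≃ X} {a a' : Γ} (h : ∀ z, Ψ (a • z) = a' • Ψ z) (j : ℤ) (z : X) :
    Ψ (a ^ j • z) = a' ^ j • Ψ z := by
  have hi : ∀ z, Ψ (a⁻¹ • z) = a'⁻¹ • Ψ z := fun z => by
    rw [eq_inv_smul_iff, ← h, smul_inv_smul]
  induction j using Int.induction_on generalizing z with
  | zero => simp
  | succ n ih => rw [zpow_add_one, zpow_add_one, mul_smul, mul_smul, ih, h]
  | pred n ih => rw [zpow_sub_one, zpow_sub_one, mul_smul, mul_smul, ih, hi]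

theorem halfCmp_foot (hΓ : Z.Inv Γ) {a : Γ} {A : Set X} (h : Z.Skew a A) :
    ∃ o, ∀ (j : ℤ) (u w : X), pos a A u < j → j + 1 ≤ pos a A w → Z.gp u w (a ^ j • o) ≤ 1 := by
  obtain ⟨o, ho⟩ := Z.exists_foot A (a • A) h.1 (hΓ _ _ h.1) h.2
  refine ⟨o, fun j u w hu hw => ?_⟩
  have e : Z.gp u w (a ^ j • o) = Z.gp (a ^ (-j) • u) (a ^ (-j) • w) o := by
    rw [← Z.gp_smul hΓ (a ^ j) (a ^ (-j) • u), smul_smul, smul_smul, ← zpow_add, add_neg_cancel,
      zpow_zero, one_smul, one_smul]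
  rw [e]
  refine ho _ _ ?_ ?_
  · have := (Z.mem_iff_le_pos hΓ h (a ^ (-j) • u) 0).not
    rw [zpow_zero, one_smul, Z.pos_zpow_smul hΓ h] at this
    exact this.2 (by omega)
  · have := Z.mem_iff_le_pos hΓ h (a ^ (-j) • w) 1
    rw [zpow_one, Z.pos_zpow_smul hΓ h] at this
    exact this.2 (by omega)

/-- Comparison of positions under an equivariant bi-Lipschitz bijection. -/
theorem cmp (hΓ : Z.Inv Γ) (K : ℕ) : ∃ C : ℕ, ∀ Ψ : X ≃ X, Z.BiLip K Ψ →
    ∀ (a a' : Γ) (A A' : Set X), Z.Skew a A → Z.Skew a' A' → (∀ z, Ψ (a • z) = a' • Ψ z) →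
      ∃ lo : ℤ, ∀ z, lo ≤ pos a' A' (Ψ z) - pos a A z ∧ pos a' A' (Ψ z) - pos a A z ≤ lo + C := by
  obtain ⟨R, hR⟩ := Z.bcl K
  refine ⟨2 * R + 2, fun Ψ hΨ a a' A A' h h' he => ?_⟩
  obtain ⟨o, ho⟩ := Z.halfCmp_foot hΓ h
  refine ⟨pos a' A' (Ψ o) - 1 - R, fun z => ⟨?_, ?_⟩⟩
  · obtain ⟨M, hM1, hM2⟩ : ∃ M : ℤ, pos a A o + M < pos a A z - 1 ∧ M < pos a A z - 1 - R :=
      ⟨min (pos a A z - 2 - pos a A o) (pos a A z - 2 - R),
        by have := min_le_left (pos a A z - 2 - pos a A o) (pos a A z - 2 - R); omega,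
        by have := min_le_right (pos a A z - 2 - pos a A o) (pos a A z - 2 - R); omega⟩
    have h1 := ho (pos a A z - 1) (a ^ M • o) z (by rw [Z.pos_zpow_smul hΓ h]; exact hM1)
      (by omega)
    have h2 := Z.halfCmp_up hΓ h' (hR Ψ hΨ _ _ _ h1)
    rw [halfCmp_equi he, halfCmp_equi he, Z.pos_zpow_smul hΓ h', Z.pos_zpow_smul hΓ h'] at h2
    omega
  · obtain ⟨M, hM1, hM2⟩ : ∃ M : ℤ, pos a A z + 1 + 1 ≤ pos a A o + M ∧ pos a A z + 1 + R < M :=
      ⟨max (pos a A z + 2 - pos a A o) (pos a A z + 2 + R),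
        by have := le_max_left (pos a A z + 2 - pos a A o) (pos a A z + 2 + R); omega,
        by have := le_max_right (pos a A z + 2 - pos a A o) (pos a A z + 2 + R); omega⟩
    have h1 := ho (pos a A z + 1) z (a ^ M • o) (by omega)
      (by rw [Z.pos_zpow_smul hΓ h]; exact hM1)
    have h2 := Z.halfCmp_down hΓ h' (hR Ψ hΨ _ _ _ h1)
    rw [halfCmp_equi he, halfCmp_equi he, Z.pos_zpow_smul hΓ h', Z.pos_zpow_smul hΓ h'] at h2
    push_cast
    omega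

/-- Two half-spaces skewered by the same element give comparable positions. -/
theorem cmp_id (hΓ : Z.Inv Γ) : ∃ C : ℕ, ∀ (a : Γ) (A A' : Set X), Z.Skew a A → Z.Skew a A' →
      ∃ lo : ℤ, ∀ z, lo ≤ pos a A' z - pos a A z ∧ pos a A' z - pos a A z ≤ lo + C := by
  obtain ⟨C, hC⟩ := Z.cmp hΓ 1
  exact ⟨C, fun a A A' h h' => hC (Equiv.refl X) ⟨fun u v => by simp, fun u v => by simp⟩
    a a A A' h h' fun z => rfl⟩

end HS

end Pool.Agent.Lib.MP_66609f_al
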