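import Pool.Agent.Lib.MP_66609f_al.HalfBasic

namespace Pool.Agent.Lib.MP_66609f_al

open Pointwise

/-- The arithmetic core of the stability of quasi-geodesics. -/
theorem halfMorse_core (K L : ℕ) (h : ℕ → ℕ) (dd δ : ℕ → ℕ → ℕ) (h0 : h 0 = 0) (hL : h L = 0)
    (lo : ∀ i j, i ≤ j → j ≤ L → j - i ≤ K * dd i j)
    (up : ∀ i j, i ≤ j → j ≤ L → dd i j ≤ K * (j - i))
    (h1 : ∀ i j, dd i j ≤ h i + h j + δ i j)
    (h2 : ∀ i j, h i ≤ h j + dd i j) (h2' : ∀ i j, h j ≤ h i + dd i j)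
    (tri : ∀ i j k, δ i k ≤ δ i j + δ j k)
    (con : ∀ i j, dd i j + 2 ≤ h i → δ i j ≤ 1) (hK : 1 ≤ K) (l : ℕ) (hl : l ≤ L) :
    h l ≤ (K * (2 * K) + 2) + K * (2 * K * (2 * (K * (2 * K) + 2) + K + 1)) := by
  classical
  set D := K * (2 * K) + 2 with hD
  by_cases c : h l < D
  · omega
  have ej : ∃ j, l ≤ j ∧ j ≤ L ∧ h j < D := ⟨L, hl, le_rfl, by omega⟩
  obtain ⟨j1, j2, j3⟩ := Nat.find_spec ej
  have jmin : ∀ m, l ≤ m → m < Nat.find ej → D ≤ h m := fun m a b => by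
    have := Nat.find_min ej b
    omega
  set j := Nat.find ej
  have i1 : Nat.findGreatest (fun i => h i < D) l ≤ l := Nat.findGreatest_le l
  have i2 : h (Nat.findGreatest (fun i => h i < D) l) < D :=
    Nat.findGreatest_spec (P := fun i => h i < D) (Nat.zero_le l) (by omega)
  have imax : ∀ m, Nat.findGreatest (fun i => h i < D) l < m → m ≤ l → D ≤ h m := fun m a b =>
    not_lt.1 (Nat.findGreatest_is_greatest (P := fun i => h i < D) a b)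
  set i := Nat.findGreatest (fun i => h i < D) l
  have il : i < l := lt_of_le_of_ne i1 fun e => c (e ▸ i2)
  have lj : l < j := lt_of_le_of_ne j1 fun e => c (e ▸ j3)
  have mid : ∀ m, i < m → m < j → D ≤ h m := fun m a b => by
    by_cases e : m ≤ l
    · exact imax m a e
    · exact jmin m (by omega) b
  have short : ∀ m m', i < m → m < j → m ≤ m' → m' ≤ j → m' - m ≤ 2 * K → δ m m' ≤ 1 := by
    intro m m' a b e f g
    have k1 := up m m' e (by omega)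
    have k2 : K * (m' - m) ≤ K * (2 * K) := Nat.mul_le_mul_left K g
    have k3 := mid m a b
    exact con m m' (by omega)
  have key : ∀ m, i + 1 ≤ m → m ≤ j → 2 * K * δ (i + 1) m ≤ m - (i + 1) + 2 * K := by
    intro m
    induction m using Nat.strong_induction_on with
    | _ m ih =>
      intro a b
      by_cases e : m - (i + 1) ≤ 2 * K
      · have k1 := short (i + 1) m (by omega) (by omega) a b e
        have k2 : 2 * K * δ (i + 1) m ≤ 2 * K * 1 := Nat.mul_le_mul_left _ k1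
        omega
      · have k1 := ih (m - 2 * K) (by omega) (by omega) (by omega)
        have k2 := short (m - 2 * K) m (by omega) (by omega) (by omega) b (by omega)
        have k3 := tri (i + 1) (m - 2 * K) m
        have k4 : 2 * K * δ (i + 1) m ≤ 2 * K * (δ (i + 1) (m - 2 * K) + 1) :=
          Nat.mul_le_mul_left _ (by omega)
        rw [Nat.mul_add] at k4
        omega
  have k1 := key j (by omega) le_rfl
  have k2 := lo (i + 1) j (by omega) j2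
  have k3 := h1 (i + 1) j
  have k4 := h2' i (i + 1)
  have k5 := up i (i + 1) (by omega) (by omega)
  rw [Nat.add_sub_cancel_left, Nat.mul_one] at k5
  have k6 : K * dd (i + 1) j ≤ K * (2 * D + K + δ (i + 1) j) := Nat.mul_le_mul_left _ (by omega)
  have k7 : j - (i + 1) ≤ 2 * K * (2 * D + K + 1) := by
    have e1 : 2 * (K * (2 * D + K + δ (i + 1) j)) =
        2 * K * (2 * D + K) + 2 * K * δ (i + 1) j := by ring
    have e2 : 2 * K * (2 * D + K + 1) = 2 * K * (2 * D + K) + 2 * K := by ring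
    omega
  have k8 := h2 l j
  have k9 := up l j j1 j2
  have k10 : K * (j - l) ≤ K * (2 * K * (2 * D + K + 1)) := Nat.mul_le_mul_left _ (by omega)
  omega

namespace HS

variable {X : Type*} (Z : HS X)

/-- The half-spaces separating `x` from both `z` and `q`. -/
def halfMorseP (x z q : X) : Set (Set X) := {A | A ∈ Z.H ∧ x ∈ A ∧ z ∉ A ∧ q ∉ A}

/-- The size of the symmetric difference of two projections. -/
noncomputable def halfMorseD (x z q q' : X) : ℕ :=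
  (symmDiff (Z.halfMorseP x z q) (Z.halfMorseP x z q')).ncard

theorem halfMorse_finP (x z q : X) : (Z.halfMorseP x z q).Finite :=
  (Z.fin x z).subset fun _ hA => ⟨hA.1, hA.2.1, hA.2.2.1⟩

theorem halfMorse_finD (x z q q' : X) :
    (symmDiff (Z.halfMorseP x z q) (Z.halfMorseP x z q')).Finite :=
  ((Z.halfMorse_finP x z q).union (Z.halfMorse_finP x z q')).subset Set.symmDiff_subset_union

theorem halfMorse_finG (x z q : X) : {A | A ∈ Z.H ∧ q ∈ A ∧ x ∉ A ∧ z ∉ A}.Finite :=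
  (Z.fin q x).subset fun _ hA => ⟨hA.1, hA.2.1, hA.2.2.1⟩

theorem halfMorse_mem {x z q q' : X} {A : Set X} :
    A ∈ symmDiff (Z.halfMorseP x z q) (Z.halfMorseP x z q') ↔
      A ∈ Z.H ∧ x ∈ A ∧ z ∉ A ∧ ((q ∈ A ∧ q' ∉ A) ∨ (q ∉ A ∧ q' ∈ A)) := by
  simp only [Set.mem_symmDiff, halfMorseP, Set.mem_ofPred_eq]
  tauto

theorem halfMorse_lip (x z q q' : X) : Z.gp x z q ≤ Z.gp x z q' + Z.d q q' := by
  refine le_trans (Set.ncard_le_ncard ?_ ((Z.halfMorse_finG x z q').union (Z.fin q q')))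
    (Set.ncard_union_le _ _)
  intro A hA
  by_cases c : q' ∈ A
  · exact Or.inl ⟨hA.1, c, hA.2.2⟩
  · exact Or.inr ⟨hA.1, hA.2.1, c⟩

theorem halfMorse_D_le (x z q q' : X) : Z.halfMorseD x z q q' ≤ Z.d q q' := by
  classical
  refine Set.ncard_le_ncard_of_injOn (fun A => if q ∈ A then A else Aᶜ) (fun A hA => ?_)
    (fun A hA B hB e => ?_) (Z.fin q q')
  · obtain ⟨a1, -, -, a4⟩ := Z.halfMorse_mem.1 hA
    rcases a4 with ⟨b1, b2⟩ | ⟨b1, b2⟩
    · rw [if_pos b1]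
      exact ⟨a1, b1, b2⟩
    · rw [if_neg b1]
      exact ⟨Z.compl_mem _ a1, b1, fun c => c b2⟩
  · have a2 := (Z.halfMorse_mem.1 hA).2.1
    have b2 := (Z.halfMorse_mem.1 hB).2.1
    by_cases c1 : q ∈ A <;> by_cases c2 : q ∈ B <;> simp only [c1, c2, if_true, if_false] at e
    · exact e
    · exact absurd b2 (show x ∈ Bᶜ from e ▸ a2)
    · exact absurd a2 (show x ∈ Aᶜ from e ▸ b2)
    · exact compl_injective e

theorem halfMorse_d_le (x z q q' : X) :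
    Z.d q q' ≤ Z.gp x z q + Z.gp x z q' + Z.halfMorseD x z q q' := by
  classical
  have sub : {A | A ∈ Z.H ∧ q ∈ A ∧ q' ∉ A} ⊆
      ({A | A ∈ Z.H ∧ q ∈ A ∧ x ∉ A ∧ z ∉ A} ∪ compl '' {A | A ∈ Z.H ∧ q' ∈ A ∧ x ∉ A ∧ z ∉ A}) ∪
        (fun A => if q ∈ A then A else Aᶜ) ''
          symmDiff (Z.halfMorseP x z q) (Z.halfMorseP x z q') := by
    rintro A ⟨a1, a2, a3⟩
    by_cases c1 : x ∈ A <;> by_cases c2 : z ∈ A
    · exact Or.inl (Or.inr ⟨Aᶜ, ⟨Z.compl_mem _ a1, a3, fun c => c c1, fun c => c c2⟩,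
        compl_compl A⟩)
    · exact Or.inr ⟨A, Z.halfMorse_mem.2 ⟨a1, c1, c2, Or.inl ⟨a2, a3⟩⟩, if_pos a2⟩
    · refine Or.inr ⟨Aᶜ, Z.halfMorse_mem.2 ⟨Z.compl_mem _ a1, c1, fun c => c c2,
        Or.inr ⟨fun c => c a2, a3⟩⟩, ?_⟩
      have : q ∉ Aᶜ := fun c => c a2
      simp only [this, if_false, compl_compl]
    · exact Or.inl (Or.inl ⟨a1, a2, c1, c2⟩)
  refine le_trans (Set.ncard_le_ncard sub (((Z.halfMorse_finG x z q).union
    ((Z.halfMorse_finG x z q').image _)).union ((Z.halfMorse_finD x z q q').image _))) ?_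
  refine (Set.ncard_union_le _ _).trans (add_le_add ((Set.ncard_union_le _ _).trans
    (add_le_add le_rfl (Set.ncard_image_le (Z.halfMorse_finG x z q'))))
    (Set.ncard_image_le (Z.halfMorse_finD x z q q')))

theorem halfMorse_tri (x z q q' q'' : X) :
    Z.halfMorseD x z q q'' ≤ Z.halfMorseD x z q q' + Z.halfMorseD x z q' q'' :=
  le_trans (Set.ncard_le_ncard (symmDiff_triangle _ _ _)
    ((Z.halfMorse_finD x z q q').union (Z.halfMorse_finD x z q' q''))) (Set.ncard_union_le _ _)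

theorem halfMorse_no22 {A1 A2 B1 B2 : Set X} (a1 : A1 ∈ Z.H) (a2 : A2 ∈ Z.H) (b1 : B1 ∈ Z.H)
    (b2 : B2 ∈ Z.H) (hA : A1 ≠ A2) (hB : B1 ≠ B2) {u v : X} (u1 : u ∈ A1) (u2 : u ∈ A2)
    (v1 : v ∈ B1) (v2 : v ∈ B2) (c1 : Cross A1 B1) (c2 : Cross A1 B2) (c3 : Cross A2 B1)
    (c4 : Cross A2 B2) : False := by
  rcases Z.k22 A1 a1 A2 a2 B1 b1 B2 b2 c1 c2 c3 c4 with (e | e) | (e | e)
  · exact hA e
  · exact (show u ∈ A2ᶜ from e ▸ u1) u2
  · exact hB e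
  · exact (show v ∈ B2ᶜ from e ▸ v1) v2

theorem halfMorse_con (x z q q' : X) (h : Z.d q q' + 2 ≤ Z.gp x z q) :
    Z.halfMorseD x z q q' ≤ 1 := by
  by_contra hc
  obtain ⟨A1, a1, A2, a2, hA⟩ := (Set.one_lt_ncard (Z.halfMorse_finD x z q q')).1 (not_le.1 hc)
  have fin : {A | A ∈ Z.H ∧ q ∈ A ∧ q' ∈ A ∧ x ∉ A ∧ z ∉ A}.Finite :=
    (Z.fin q x).subset fun _ hA => ⟨hA.1, hA.2.1, hA.2.2.2.1⟩
  have le : Z.gp x z q ≤ {A | A ∈ Z.H ∧ q ∈ A ∧ q' ∈ A ∧ x ∉ A ∧ z ∉ A}.ncard + Z.d q q' := by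
    refine le_trans (Set.ncard_le_ncard ?_ (fin.union (Z.fin q q'))) (Set.ncard_union_le _ _)
    intro A hA
    by_cases c : q' ∈ A
    · exact Or.inl ⟨hA.1, hA.2.1, c, hA.2.2⟩
    · exact Or.inr ⟨hA.1, hA.2.1, c⟩
  obtain ⟨B1, b1, B2, b2, hB⟩ := (Set.one_lt_ncard fin).1 (by omega)
  have cr : ∀ A ∈ symmDiff (Z.halfMorseP x z q) (Z.halfMorseP x z q'),
      ∀ B ∈ {A | A ∈ Z.H ∧ q ∈ A ∧ q' ∈ A ∧ x ∉ A ∧ z ∉ A}, Cross A B := by
    rintro A hA B ⟨-, e1, e2, e3, e4⟩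
    obtain ⟨-, f1, f2, ⟨f3, f4⟩ | ⟨f3, f4⟩⟩ := Z.halfMorse_mem.1 hA
    · exact ⟨⟨q, f3, e1⟩, ⟨x, f1, e3⟩, ⟨q', f4, e2⟩, ⟨z, f2, e4⟩⟩
    · exact ⟨⟨q', f4, e2⟩, ⟨x, f1, e3⟩, ⟨q, f3, e1⟩, ⟨z, f2, e4⟩⟩
  exact Z.halfMorse_no22 (Z.halfMorse_mem.1 a1).1 (Z.halfMorse_mem.1 a2).1 b1.1 b2.1 hA hB
    (Z.halfMorse_mem.1 a1).2.1 (Z.halfMorse_mem.1 a2).2.1 b1.2.1 b2.2.1
    (cr _ a1 _ b1) (cr _ a1 _ b2) (cr _ a2 _ b1) (cr _ a2 _ b2)

theorem halfMorse_min (x z q q' : X) :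
    (Z.halfMorseP x z q \ Z.halfMorseP x z q').ncard ≤ 1 ∨
      (Z.halfMorseP x z q' \ Z.halfMorseP x z q).ncard ≤ 1 := by
  by_contra hc
  rw [not_or, not_le, not_le] at hc
  obtain ⟨A1, a1, A2, a2, hA⟩ := (Set.one_lt_ncard (Z.halfMorse_finP x z q).sdiff).1 hc.1
  obtain ⟨B1, b1, B2, b2, hB⟩ := (Set.one_lt_ncard (Z.halfMorse_finP x z q').sdiff).1 hc.2
  have cr : ∀ A ∈ Z.halfMorseP x z q \ Z.halfMorseP x z q',
      ∀ B ∈ Z.halfMorseP x z q' \ Z.halfMorseP x z q, Cross A B := by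
    rintro A ⟨⟨e1, e2, e3, e4⟩, e5⟩ B ⟨⟨f1, f2, f3, f4⟩, f5⟩
    have e6 : q' ∈ A := by
      by_contra c
      exact e5 ⟨e1, e2, e3, c⟩
    have f6 : q ∈ B := by
      by_contra c
      exact f5 ⟨f1, f2, f3, c⟩
    exact ⟨⟨x, e2, f2⟩, ⟨q', e6, f4⟩, ⟨q, e4, f6⟩, ⟨z, e3, f3⟩⟩
  exact Z.halfMorse_no22 a1.1.1 a2.1.1 b1.1.1 b2.1.1 hA hB a1.1.2.1 a2.1.2.1 b1.1.2.1 b2.1.2.1
    (cr _ a1 _ b1) (cr _ a1 _ b2) (cr _ a2 _ b1) (cr _ a2 _ b2)

theorem halfMorse_card (x z q q' : X) :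
    (Z.halfMorseP x z q).ncard ≤ (Z.halfMorseP x z q').ncard + Z.halfMorseD x z q q' := by
  refine le_trans (Set.ncard_le_ncard ?_
    ((Z.halfMorse_finP x z q').union (Z.halfMorse_finD x z q q'))) (Set.ncard_union_le _ _)
  intro A hA
  by_cases c : A ∈ Z.halfMorseP x z q'
  · exact Or.inl c
  · exact Or.inr (Or.inl ⟨hA, c⟩)

theorem halfMorse_close (x z q q' : X) (k : ℕ)
    (h1 : (Z.halfMorseP x z q').ncard ≤ (Z.halfMorseP x z q).ncard)
    (h2 : (Z.halfMorseP x z q).ncard ≤ (Z.halfMorseP x z q').ncard + k) :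
    Z.halfMorseD x z q q' ≤ k + 2 := by
  have e1 := Set.ncard_inter_add_ncard_sdiff_eq_ncard (Z.halfMorseP x z q) (Z.halfMorseP x z q')
    (Z.halfMorse_finP x z q)
  have e2 := Set.ncard_inter_add_ncard_sdiff_eq_ncard (Z.halfMorseP x z q') (Z.halfMorseP x z q)
    (Z.halfMorse_finP x z q')
  rw [Set.inter_comm] at e2
  have e3 : Z.halfMorseD x z q q' ≤ (Z.halfMorseP x z q \ Z.halfMorseP x z q').ncard +
      (Z.halfMorseP x z q' \ Z.halfMorseP x z q).ncard := Set.ncard_union_le _ _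
  have e4 := Z.halfMorse_min x z q q'
  omega

theorem halfMorse_bcl (K : ℕ) (hK : 1 ≤ K) : ∃ R : ℕ, ∀ Ψ : X ≃ X, Z.BiLip K Ψ →
    ∀ x y z, Z.gp x z y ≤ 1 → Z.gp (Ψ x) (Ψ z) (Ψ y) ≤ R := by
  classical
  refine ⟨K * ((K * (2 * K) + 2) + K * (2 * K * (2 * (K * (2 * K) + 2) + K + 1)) + 1 + (K + 2)),
    fun Ψ hΨ x y z hy => ?_⟩
  obtain ⟨g, g0, gL, gd⟩ := Z.exists_geod (Ψ x) (Ψ z)
  set L := Z.d (Ψ x) (Ψ z) with hL
  have q0 : Ψ.symm (g 0) = x := by rw [g0, Equiv.symm_apply_apply]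
  have qL : Ψ.symm (g L) = z := by rw [gL, Equiv.symm_apply_apply]
  have up : ∀ i j, i ≤ j → j ≤ L → Z.d (Ψ.symm (g i)) (Ψ.symm (g j)) ≤ K * (j - i) := by
    intro i j a b
    have := hΨ.2 (Ψ.symm (g i)) (Ψ.symm (g j))
    rwa [Equiv.apply_symm_apply, Equiv.apply_symm_apply, gd i j a b] at this
  have core := halfMorse_core K L (fun i => Z.gp x z (Ψ.symm (g i)))
    (fun i j => Z.d (Ψ.symm (g i)) (Ψ.symm (g j)))
    (fun i j => Z.halfMorseD x z (Ψ.symm (g i)) (Ψ.symm (g j)))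
    (by
      simp only [q0, gp]
      rw [Set.ncard_eq_zero (Z.halfMorse_finG x z x)]
      exact Set.eq_empty_of_forall_notMem fun A hA => hA.2.2.1 hA.2.1)
    (by
      simp only [qL, gp]
      rw [Set.ncard_eq_zero (Z.halfMorse_finG x z z)]
      exact Set.eq_empty_of_forall_notMem fun A hA => hA.2.2.2 hA.2.1)
    (fun i j a b => by
      have := hΨ.1 (Ψ.symm (g i)) (Ψ.symm (g j))
      rwa [Equiv.apply_symm_apply, Equiv.apply_symm_apply, gd i j a b] at this)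
    up (fun i j => Z.halfMorse_d_le _ _ _ _) (fun i j => Z.halfMorse_lip _ _ _ _)
    (fun i j => by
      have := Z.halfMorse_lip x z (Ψ.symm (g j)) (Ψ.symm (g i))
      rwa [Z.d_comm] at this)
    (fun i j k => Z.halfMorse_tri _ _ _ _ _) (fun i j => Z.halfMorse_con _ _ _ _) hK
  have ex : ∃ i, i ≤ L ∧ (Z.halfMorseP x z y).ncard ≤ (Z.halfMorseP x z (Ψ.symm (g i))).ncard := by
    refine ⟨L, le_rfl, ?_⟩
    rw [qL]
    exact Set.ncard_le_ncard (fun A hA => ⟨hA.1, hA.2.1, hA.2.2.1, hA.2.2.1⟩)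
      (Z.halfMorse_finP x z z)
  obtain ⟨i1, i2⟩ := Nat.find_spec ex
  have imin := fun m => Nat.find_min ex (m := m)
  set i := Nat.find ex
  have i3 : (Z.halfMorseP x z (Ψ.symm (g i))).ncard ≤ (Z.halfMorseP x z y).ncard + K := by
    rcases Nat.eq_zero_or_pos i with e | e
    · rw [e, q0, (Set.ncard_eq_zero (Z.halfMorse_finP x z x)).2
        (Set.eq_empty_of_forall_notMem fun A hA => hA.2.2.2 hA.2.1)]
      exact Nat.zero_le _
    · have k1 := imin (i - 1) (by omega)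
      have k2 := Z.halfMorse_card x z (Ψ.symm (g i)) (Ψ.symm (g (i - 1)))
      have k3 := Z.halfMorse_D_le x z (Ψ.symm (g i)) (Ψ.symm (g (i - 1)))
      have k4 := up (i - 1) i (by omega) i1
      rw [Z.d_comm, show i - (i - 1) = 1 by omega, Nat.mul_one] at k4
      omega
  have k1 := Z.halfMorse_close x z (Ψ.symm (g i)) y K i2 i3
  have k2 := Z.halfMorse_d_le x z (Ψ.symm (g i)) y
  have k3 := core i i1
  have k4 := hΨ.1 (Ψ.symm (g i)) y
  rw [Equiv.apply_symm_apply, Z.d_comm] at k4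
  have k5 := Z.halfMorse_lip (Ψ x) (Ψ z) (Ψ y) (g i)
  have k6 := Z.d_add (Ψ x) (g i) (Ψ z)
  have k7 := gd 0 i (Nat.zero_le _) i1
  have k8 := gd i L i1 le_rfl
  rw [g0] at k7
  rw [gL] at k8
  refine k5.trans (le_trans ?_ (k4.trans (Nat.mul_le_mul_left K ?_)))
  · omega
  · omega

/-- Bounded cancellation. -/
theorem bcl (K : ℕ) : ∃ R : ℕ, ∀ Ψ : X ≃ X, Z.BiLip K Ψ → ∀ x y z, Z.gp x z y ≤ 1 →
    Z.gp (Ψ x) (Ψ z) (Ψ y) ≤ R := by
  obtain ⟨R, hR⟩ := Z.halfMorse_bcl (K + 1) (by omega)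
  exact ⟨R, fun Ψ hΨ => hR Ψ
    ⟨fun u v => (hΨ.1 u v).trans (Nat.mul_le_mul_right _ (Nat.le_succ K)),
      fun u v => (hΨ.2 u v).trans (Nat.mul_le_mul_right _ (Nat.le_succ K))⟩⟩

end HS

end Pool.Agent.Lib.MP_66609f_al
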