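import Pool.Agent.Lib.MP_66609f_al.Defs

namespace Pool.Agent.Lib.MP_66609f_al

/-- The mapping class group as a type: the elements of the subgroup `Mod g` of `Out`. -/
def MCG (g : ℕ) : Type := Mod g

/-- The group structure of the subgroup `Mod g`. -/
instance mcgGroup (g : ℕ) : Group (MCG g) := Subgroup.toGroup (Mod g)

end Pool.Agent.Lib.MP_66609f_al
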