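import Pool.Agent.Lib.MP_66609f_al.Periodic

/-! The doubling machine: definitions. -/

namespace Pool.Agent.Lib.MP_66609f_al

inductive St : Type
  | A | B | C | D | Q
  deriving DecidableEq

inductive Ed : Type
  | aa | ab | bb | ba | bc | cc | cd | dd | da | q1 | q2 | cq | qc
  deriving DecidableEq

inductive Gen : Type
  | x | t | y | u | gs (s : St)
  deriving DecidableEq

instance : Finite Ed :=
  Finite.of_injective (fun e : Ed => (match e with
    | .aa => 0 | .ab => 1 | .bb => 2 | .ba => 3 | .bc => 4 | .cc => 5 | .cd => 6 | .dd => 7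
    | .da => 8 | .q1 => 9 | .q2 => 10 | .cq => 11 | .qc => 12 : Fin 13))
    (by intro a b; cases a <;> cases b <;> simp)

def Ed.src : Ed → St
  | .aa => .A | .ab => .A | .bb => .B | .ba => .B | .bc => .B | .cc => .C | .cd => .C
  | .dd => .D | .da => .D | .q1 => .Q | .q2 => .Q | .cq => .C | .qc => .Q

def Ed.tgt : Ed → St
  | .aa => .A | .ab => .B | .bb => .B | .ba => .A | .bc => .C | .cc => .C | .cd => .D
  | .dd => .D | .da => .A | .q1 => .Q | .q2 => .Q | .cq => .Q | .qc => .C

def Ed.pen : Ed → ℕ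
  | .da => 1 | .cq => 1 | .qc => 1 | _ => 0

def Ed.lab : Ed → FreeGroup Gen
  | .aa => (FreeGroup.of .x)⁻¹ * FreeGroup.of .y * FreeGroup.of .y
  | .ab => FreeGroup.of .t
  | .bb => FreeGroup.of .x * (FreeGroup.of .y)⁻¹
  | .ba => FreeGroup.of .u
  | .bc => FreeGroup.of .u
  | .cc => (FreeGroup.of .x)⁻¹
  | .cd => 1
  | .dd => (FreeGroup.of .u)⁻¹ * (FreeGroup.of .t)⁻¹
  | .da => FreeGroup.of .x
  | .q1 => FreeGroup.of .x
  | .q2 => FreeGroup.of .x * FreeGroup.of .x
  | .cq => 1
  | .qc => 1

/-- The value of an edge: its label conjugated into the two states. -/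
def Ed.val (e : Ed) : FreeGroup Gen :=
  (FreeGroup.of (.gs e.src))⁻¹ * e.lab * FreeGroup.of (.gs e.tgt)

/-- The coordinate of a generator. -/
def Gen.crd : Gen → Bool
  | .y => true | .u => true | _ => false

/-- Projection onto one coordinate. -/
def pr (c : Bool) : FreeGroup Gen →* FreeGroup Gen :=
  FreeGroup.lift fun m => if m.crd = c then FreeGroup.of m else 1

/-- Trivial in both coordinates. -/
def Closed (w : FreeGroup Gen) : Prop := pr false w = 1 ∧ pr true w = 1

def penSum (l : List Ed) : ℕ := (l.map Ed.pen).sum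

def valProd (l : List Ed) : FreeGroup Gen := (l.map Ed.val).prod

def labProd (l : List Ed) : FreeGroup Gen := (l.map Ed.lab).prod

/-- `l` is a path in the state graph from `s` to `s'`. -/
def IsPath : St → List Ed → St → Prop
  | s, [], s' => s = s'
  | s, e :: l, s' => e.src = s ∧ IsPath e.tgt l s'

/-- The sparse set of lengths. -/
def lenE : Set ℕ := {n | ∃ k : ℕ, 1 ≤ k ∧ n + 1 = 4 * 2 ^ k + 3 * k}

def eta : FreeGroup Gen := (FreeGroup.of (.gs .C))⁻¹ * FreeGroup.of (.gs .Q)

/-- Exponent sum of the state letter `Q`. -/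
def phiQ : FreeGroup Gen →* Multiplicative ℤ :=
  FreeGroup.lift fun m => if m = .gs .Q then Multiplicative.ofAdd 1 else 1

end Pool.Agent.Lib.MP_66609f_al
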