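import Pool.Agent.Lib.MP_66609f_al.Mach
import Pool.Agent.Lib.MP_66609f_al.MachEq

namespace Pool.Agent.Lib.MP_66609f_al

theorem machLoop_valProd (s s' : St) (l : List Ed) (h : IsPath s l s') :
    valProd l = (FreeGroup.of (.gs s))⁻¹ * labProd l * FreeGroup.of (.gs s') := by
  induction l generalizing s with
  | nil =>
    have h' : s = s' := h
    subst h'
    simp [valProd, labProd]
  | cons e l ih =>
    obtain ⟨h1, h2⟩ := h
    subst h1
    have h3 := ih _ h2
    simp only [valProd, labProd, List.map_cons, List.prod_cons] at h3 ⊢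
    rw [h3, Ed.val]
    group

/-- Elements represented by a word without state letters. -/
def machLoop_NG (w : FreeGroup Gen) : Prop :=
  ∃ L : List (Gen × Bool), (∀ a ∈ L, ∀ s, a.1 ≠ Gen.gs s) ∧ w = FreeGroup.mk L

theorem machLoop_NG_one : machLoop_NG 1 := ⟨[], by simp, rfl⟩

theorem machLoop_NG_mul {v w : FreeGroup Gen} (hv : machLoop_NG v) (hw : machLoop_NG w) :
    machLoop_NG (v * w) := by
  obtain ⟨L, h1, rfl⟩ := hv
  obtain ⟨L', h2, rfl⟩ := hw
  refine ⟨L ++ L', fun a ha => ?_, FreeGroup.mul_mk⟩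
  rcases List.mem_append.1 ha with h | h
  · exact h1 a h
  · exact h2 a h

theorem machLoop_NG_x : machLoop_NG (FreeGroup.of Gen.x) := ⟨[(.x, true)], by simp, rfl⟩

theorem machLoop_NG_t : machLoop_NG (FreeGroup.of Gen.t) := ⟨[(.t, true)], by simp, rfl⟩

theorem machLoop_NG_x' : machLoop_NG (FreeGroup.of Gen.x)⁻¹ := ⟨[(.x, false)], by simp, rfl⟩

theorem machLoop_NG_t' : machLoop_NG (FreeGroup.of Gen.t)⁻¹ := ⟨[(.t, false)], by simp, rfl⟩

theorem machLoop_NG_lab (e : Ed) : machLoop_NG (pr false e.lab) := by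
  cases e <;> simp [Ed.lab, pr, Gen.crd, machLoop_NG_one, machLoop_NG_x, machLoop_NG_t,
    machLoop_NG_x', machLoop_NG_t', machLoop_NG_mul machLoop_NG_x machLoop_NG_x]

theorem machLoop_NG_labProd (l : List Ed) : machLoop_NG (pr false (labProd l)) := by
  induction l with
  | nil => simpa [labProd] using machLoop_NG_one
  | cons e l ih =>
    have h : labProd (e :: l) = e.lab * labProd l := by simp [labProd]
    rw [h, map_mul]
    exact machLoop_NG_mul (machLoop_NG_lab e) ih

theorem machLoop_NG_toWord {w : FreeGroup Gen} (h : machLoop_NG w) :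
    ∀ a ∈ w.toWord, ∀ s, a.1 ≠ Gen.gs s := by
  obtain ⟨L, h1, rfl⟩ := h
  intro a ha
  rw [FreeGroup.toWord_mk] at ha
  exact h1 a ((FreeGroup.Red.sublist FreeGroup.reduce.red).subset ha)

theorem machLoop_pr_gs (s : St) : pr false (FreeGroup.of (.gs s)) = FreeGroup.of (.gs s) := by
  simp [pr, Gen.crd]

theorem machLoop_close {i j : St} {l2 l3 : List Ed} {P : List (Gen × Bool)} (hp : IsPath i l2 j)
    (hn : ¬ (i = j ∧ pr false (labProd l2) = 1)) (hP : FreeGroup.IsReduced P)
    (hh : ∀ b ∈ P.head?, ∃ i', i' ≠ j ∧ b = (Gen.gs i', false))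
    (hv : pr false (valProd l3) = FreeGroup.mk P) :
    ∃ P' : List (Gen × Bool), FreeGroup.IsReduced ((Gen.gs i, false) :: P') ∧
      pr false (valProd (l2 ++ l3)) = FreeGroup.mk ((Gen.gs i, false) :: P') := by
  have hW := machLoop_NG_toWord (machLoop_NG_labProd l2)
  refine ⟨(pr false (labProd l2)).toWord ++ (Gen.gs j, true) :: P, ?_, ?_⟩
  · unfold FreeGroup.IsReduced
    refine List.isChain_cons.2 ⟨fun b hb hab => ?_, List.isChain_append.2
      ⟨FreeGroup.isReduced_toWord, List.isChain_cons.2 ⟨fun b hb hab => ?_, hP⟩,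
        fun a ha b hb hab => ?_⟩⟩
    · exfalso
      cases hw : (pr false (labProd l2)).toWord with
      | nil =>
        rw [hw] at hb
        have h1 : b = (Gen.gs j, true) := by simpa [eq_comm] using hb
        subst h1
        exact hn ⟨Gen.gs.inj hab, FreeGroup.toWord_eq_nil_iff.1 hw⟩
      | cons a L =>
        rw [hw] at hb hW
        have h1 : b = a := by simpa [eq_comm] using hb
        subst h1
        exact hW b List.mem_cons_self i hab.symm
    · obtain ⟨i', h1, rfl⟩ := hh b hb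
      exact absurd (Gen.gs.inj hab).symm h1
    · have h1 : b = (Gen.gs j, true) := by simpa [eq_comm] using hb
      subst h1
      exact absurd hab (hW a (List.mem_of_mem_getLast? ha) j)
  · have h1 : valProd (l2 ++ l3) = valProd l2 * valProd l3 := by simp [valProd]
    have h2 : FreeGroup.mk ((Gen.gs i, false) ::
          ((pr false (labProd l2)).toWord ++ (Gen.gs j, true) :: P)) =
        FreeGroup.mk [(Gen.gs i, false)] * FreeGroup.mk (pr false (labProd l2)).toWord *
          FreeGroup.mk [(Gen.gs j, true)] * FreeGroup.mk P := by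
      simp only [FreeGroup.mul_mk, List.cons_append, List.nil_append, List.append_assoc]
    rw [h1, map_mul, hv, machLoop_valProd i j l2 hp, map_mul, map_mul, map_inv, machLoop_pr_gs,
      machLoop_pr_gs, h2, FreeGroup.mk_toWord]
    rfl

theorem machLoop_main (l : List Ed) (hl : l ≠ [])
    (hno : ∀ (l1 l2 l3 : List Ed) (s : St), l = l1 ++ l2 ++ l3 → l2 ≠ [] → IsPath s l2 s →
      pr false (labProd l2) ≠ 1) :
    ∃ (i j : St) (l2 l3 : List Ed) (P : List (Gen × Bool)), l = l2 ++ l3 ∧ l2 ≠ [] ∧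
      IsPath i l2 j ∧ FreeGroup.IsReduced P ∧
      (∀ b ∈ P.head?, ∃ i', i' ≠ j ∧ b = (Gen.gs i', false)) ∧
      pr false (valProd l3) = FreeGroup.mk P := by
  induction l with
  | nil => exact absurd rfl hl
  | cons e l ih =>
    by_cases h0 : l = []
    · subst h0
      refine ⟨e.src, e.tgt, [e], [], [], rfl, by simp, ⟨rfl, rfl⟩, FreeGroup.IsReduced.nil,
        by simp, ?_⟩
      exact map_one (pr false)
    · have hno' : ∀ (l1 l2 l3 : List Ed) (s : St), l = l1 ++ l2 ++ l3 → l2 ≠ [] → IsPath s l2 s →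
          pr false (labProd l2) ≠ 1 := fun l1 l2 l3 s h =>
        hno (e :: l1) l2 l3 s (by rw [h]; rfl)
      obtain ⟨i, j, l2, l3, P, h1, h2, h3, h4, h5, h6⟩ := ih h0 hno'
      by_cases hi : e.tgt = i
      · subst hi
        exact ⟨e.src, j, e :: l2, l3, P, by rw [h1]; rfl, by simp, ⟨rfl, h3⟩, h4, h5, h6⟩
      · have hn : ¬ (i = j ∧ pr false (labProd l2) = 1) := by
          rintro ⟨rfl, h⟩
          exact hno' [] l2 l3 i h1 h2 h3 h
        obtain ⟨P', h7, h8⟩ := machLoop_close h3 hn h4 h5 h6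
        refine ⟨e.src, e.tgt, [e], l, _, rfl, by simp, ⟨rfl, rfl⟩, h7, fun b hb => ?_, h1 ▸ h8⟩
        exact ⟨i, fun h => hi h.symm, by simpa [eq_comm] using hb⟩

/-- A nonempty word trivial in the first coordinate contains a closed path of the state graph
whose labels multiply to one in the first coordinate. -/
theorem exists_loop (l : List Ed) (hl : l ≠ []) (h : pr false (valProd l) = 1) :
    ∃ (l1 l2 l3 : List Ed) (s : St), l = l1 ++ l2 ++ l3 ∧ l2 ≠ [] ∧ IsPath s l2 s ∧
      pr false (labProd l2) = 1 := by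
  by_contra hc
  have hno : ∀ (l1 l2 l3 : List Ed) (s : St), l = l1 ++ l2 ++ l3 → l2 ≠ [] → IsPath s l2 s →
      pr false (labProd l2) ≠ 1 := fun l1 l2 l3 s h1 h2 h3 h4 => hc ⟨l1, l2, l3, s, h1, h2, h3, h4⟩
  obtain ⟨i, j, l2, l3, P, h1, h2, h3, h4, h5, h6⟩ := machLoop_main l hl hno
  have hn : ¬ (i = j ∧ pr false (labProd l2) = 1) := by
    rintro ⟨rfl, h'⟩
    exact hno [] l2 l3 i h1 h2 h3 h'
  obtain ⟨P', h7, h8⟩ := machLoop_close h3 hn h4 h5 h6
  rw [← h1, h] at h8
  have h9 := congrArg FreeGroup.toWord h8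
  rw [FreeGroup.toWord_one, FreeGroup.toWord_mk, h7.reduce_eq] at h9
  exact absurd h9.symm (List.cons_ne_nil _ _)

theorem valProd_of_isPath (s s' : St) (l : List Ed) (h : IsPath s l s') :
    valProd l = (FreeGroup.of (.gs s))⁻¹ * labProd l * FreeGroup.of (.gs s') := by
  exact machLoop_valProd s s' l h

end Pool.Agent.Lib.MP_66609f_al
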