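import Pool.Agent.Lib.MP_66609f_al.Defs

namespace Pool.Agent.Lib.MP_66609f_al

/-- An alternating nondegenerate form on a group, rescaled by signs under automorphisms. -/
structure OrData (H : Type*) [Group H] where
  ω : H → H → ℤ
  ε : MulAut H →* ℤˣ
  mul_left : ∀ x y z, ω (x * y) z = ω x z + ω y z
  anti : ∀ x y, ω x y = -ω y x
  nondeg : ∀ u, (∀ x, ω x u = 0) → ∀ α : H →* Multiplicative ℤ, α u = 1
  map : ∀ (φ : MulAut H) x y, ω (φ x) (φ y) = (ε φ : ℤ) * ω x y

/-- The form with a fixed second argument as a homomorphism. -/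
def OrData.orient_hom {H : Type*} [Group H] (O : OrData H) (y : H) : H →* Multiplicative ℤ :=
  MonoidHom.mk' (fun x => Multiplicative.ofAdd (O.ω x y)) fun a b => by
    rw [O.mul_left, ofAdd_add]

theorem OrData.orient_hom_apply {H : Type*} [Group H] (O : OrData H) (x y : H) :
    (O.orient_hom y x).toAdd = O.ω x y := rfl

theorem OrData.orient_conj {H : Type*} [Group H] (O : OrData H) (x a y : H) :
    O.ω (MulAut.conj x a) y = O.ω a y := by
  have h : O.orient_hom y (MulAut.conj x a) = O.orient_hom y a := by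
    rw [MulAut.conj_apply, map_mul, map_mul, map_inv, mul_inv_cancel_comm]
  exact congrArg Multiplicative.toAdd h

theorem OrData.orient_ex {H : Type*} [Group H] (O : OrData H) (α : H →* Multiplicative ℤ) (u : H)
    (hu : α u ≠ 1) : ∃ x, O.ω x u ≠ 0 := by
  by_contra h
  exact hu (O.nondeg u (fun x => by_contra fun hx => h ⟨x, hx⟩) α)

theorem OrData.ε_conj {H : Type*} [Group H] (O : OrData H) (α : H →* Multiplicative ℤ) (u : H)
    (hu : α u ≠ 1) (x : H) : O.ε (MulAut.conj x) = 1 := by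
  obtain ⟨y, hy⟩ := O.orient_ex α u hu
  have h := O.map (MulAut.conj x) y u
  rw [O.orient_conj, O.anti, O.orient_conj, ← O.anti] at h
  apply Units.ext
  exact mul_right_cancel₀ hy (h.symm.trans (one_mul _).symm)

/-- Transport along an isomorphism. -/
theorem OrData.transport {H H' : Type*} [Group H] [Group H'] (O : OrData H) (e : H ≃* H') :
    ∃ O' : OrData H', Nonempty
      (O.ε.ker.map (QuotientGroup.mk' (Inn H)) ≃* O'.ε.ker.map (QuotientGroup.mk' (Inn H'))) := by
  let c : MulAut H ≃* MulAut H' := MulAut.congr e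
  have hc : ∀ (φ : MulAut H') x, c.symm φ x = e.symm (φ (e x)) := fun _ _ => rfl
  have hc' : ∀ (φ : MulAut H) x, c φ x = e (φ (e.symm x)) := fun _ _ => rfl
  let O' : OrData H' :=
    { ω := fun x y => O.ω (e.symm x) (e.symm y)
      ε := O.ε.comp c.symm.toMonoidHom
      mul_left := fun x y z => by rw [map_mul, O.mul_left]
      anti := fun x y => O.anti _ _
      nondeg := fun u hu α => by
        have h := O.nondeg (e.symm u) (fun x => by simpa using hu (e x)) (α.comp e.toMonoidHom)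
        simpa using h
      map := fun φ x y => by
        have h := O.map (c.symm φ) (e.symm x) (e.symm y)
        rw [hc, hc, e.apply_symm_apply, e.apply_symm_apply] at h
        exact h }
  have hI : (Inn H).map (c : MulAut H →* MulAut H') = Inn H' := by
    ext φ
    constructor
    · rintro ⟨_, ⟨x, rfl⟩, rfl⟩
      refine ⟨e x, ?_⟩
      ext y
      change _ = c (MulAut.conj x) y
      rw [hc']
      simp
    · rintro ⟨x, rfl⟩
      refine ⟨MulAut.conj (e.symm x), ⟨_, rfl⟩, ?_⟩
      ext y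
      change c (MulAut.conj (e.symm x)) y = _
      rw [hc']
      simp
  let q := QuotientGroup.congr (Inn H) (Inn H') c hI
  refine ⟨O', ⟨(q.subgroupMap _).trans (MulEquiv.subgroupCongr ?_)⟩⟩
  ext z
  constructor
  · rintro ⟨_, ⟨φ, hφ, rfl⟩, rfl⟩
    refine ⟨c φ, ?_, rfl⟩
    change O.ε (c.symm (c φ)) = 1
    rw [c.symm_apply_apply]
    exact hφ
  · rintro ⟨φ, hφ, rfl⟩
    refine ⟨_, ⟨c.symm φ, hφ, rfl⟩, ?_⟩
    change QuotientGroup.mk' (Inn H') (c (c.symm φ)) = _
    rw [c.apply_symm_apply]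

/-- The transvection trick. -/
theorem OrData.ε_eq {H : Type*} [Group H] (O : OrData H) (σ ρ : MulAut H)
    (lam : H →* Multiplicative ℤ) (u y0 : H) (a b : ℤˣ) (hσ : O.ε σ = 1)
    (h1 : ∀ (α : H →* Multiplicative ℤ) γ,
      (α (σ γ)).toAdd = (α γ).toAdd + 2 * (lam γ).toAdd * (α u).toAdd)
    (hy : (lam y0).toAdd = 1)
    (hu : ∃ α : H →* Multiplicative ℤ, α u ≠ 1)
    (ha : ∀ γ, (lam (ρ γ)).toAdd = a * (lam γ).toAdd)
    (hb : ρ u = u ^ (b : ℤ)) : O.ε ρ = a * b := by
  have hl : ∀ x y, O.ω (σ x) y = O.ω x y + 2 * (lam x).toAdd * O.ω u y :=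
    fun x y => h1 (O.orient_hom y) x
  have huu : O.ω u u = 0 := by
    have := O.anti u u
    omega
  have hk : ∀ x, O.ω x u = (lam x).toAdd * O.ω y0 u := by
    intro x
    have h := O.map σ x y0
    rw [hσ, hl, O.anti x (σ y0), O.anti u (σ y0), hl, hl, hy, huu, O.anti y0 x, O.anti u x] at h
    simp only [Units.val_one] at h
    linarith
  obtain ⟨α, hα⟩ := hu
  obtain ⟨x, hx⟩ := O.orient_ex α u hα
  have hk0 : O.ω y0 u ≠ 0 := fun h => hx (by rw [hk, h, mul_zero])
  have h := O.map ρ y0 u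
  rw [hb, O.anti, ← O.orient_hom_apply, map_zpow, toAdd_zpow, O.orient_hom_apply, O.anti u,
    hk (ρ y0), ha, hy] at h
  apply Units.ext
  refine mul_right_cancel₀ hk0 (h.symm.trans ?_)
  rw [Units.val_mul, smul_eq_mul]
  ring

end Pool.Agent.Lib.MP_66609f_al
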