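import Pool.Agent.Lib.MP_66609f_al.MachMain

namespace Pool.Agent.Lib.MP_66609f_al

/-- Eventually periodic sequences modulo three. -/
def EvPer3 (c : ℕ → ZMod 3) : Prop := ∃ p N : ℕ, 0 < p ∧ ∀ n, N ≤ n → c (n + p) = c n

/-- Reduction modulo three. -/
def per3_red (Q : Polynomial ℂ) : periodic_sol Q →ₗ[ℤ] (ℕ → ZMod 3) :=
  (LinearMap.pi fun n => (Int.castAddHom (ZMod 3)).toIntLinearMap.comp
    (LinearMap.proj n : (ℕ → ℤ) →ₗ[ℤ] ℤ)).comp (periodic_sol Q).subtype

theorem per3_finite {Q : Polynomial ℂ} (hQ : Q ≠ 0) :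
    Finite (LinearMap.range (per3_red Q)) := by
  have := periodic_fg hQ
  refine Module.finite_of_fg_torsion _ fun x =>
    ⟨⟨3, mem_nonZeroDivisors_of_ne_zero (by norm_num)⟩, ?_⟩
  ext n
  show (3 : ℤ) • x.1 n = 0
  rw [zsmul_eq_mul]
  have h : ((3 : ℤ) : ZMod 3) = 0 := by decide
  rw [h, zero_mul]

theorem evPer3_of_rational (c : ℕ → ℕ) (h : IsRational (PowerSeries.mk fun n => (c n : ℂ))) :
    EvPer3 fun n => (c n : ZMod 3) := by
  obtain ⟨P, Q, hQ, hPQ⟩ := h
  have hmem : ∀ k, (fun n => (c (P.natDegree + 1 + k + n) : ℤ)) ∈ periodic_sol Q := by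
    intro k n
    have h1 := congrArg (PowerSeries.coeff (P.natDegree + 1 + k + n + Q.natDegree)) hPQ
    rw [PowerSeries.coeff_mul, Polynomial.coeff_coe,
      Polynomial.coeff_eq_zero_of_natDegree_lt (by omega),
      Finset.Nat.sum_antidiagonal_eq_sum_range_succ_mk] at h1
    rw [← h1]
    have h2 : Finset.range (Q.natDegree + 1) ⊆
        Finset.range (P.natDegree + 1 + k + n + Q.natDegree).succ :=
      Finset.range_subset_range.2 (by omega)
    rw [← Finset.sum_subset h2]
    · refine Finset.sum_congr rfl fun i hi => ?_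
      have hi' := Finset.mem_range.1 hi
      have h3 : P.natDegree + 1 + k + (n + Q.natDegree - i) =
          P.natDegree + 1 + k + n + Q.natDegree - i := by omega
      simp only [Polynomial.coeff_coe, PowerSeries.coeff_mk, Int.cast_natCast, h3]
    · intro i _ hi
      have hi' : Q.natDegree < i := by
        rw [Finset.mem_range] at hi
        omega
      simp only [Polynomial.coeff_coe]
      rw [Polynomial.coeff_eq_zero_of_natDegree_lt hi', zero_mul]
  have := per3_finite hQ
  let F : ℕ → LinearMap.range (per3_red Q) :=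
    fun k => ⟨per3_red Q ⟨_, hmem k⟩, LinearMap.mem_range_self _ _⟩
  have key : ∀ k k', k < k' → F k = F k' → EvPer3 fun n => (c n : ZMod 3) := by
    intro k k' hk hF
    refine ⟨k' - k, P.natDegree + 1 + k, by omega, fun n hn => ?_⟩
    have h1 : (((c (P.natDegree + 1 + k + (n - (P.natDegree + 1 + k))) : ℤ) : ZMod 3)) =
        ((c (P.natDegree + 1 + k' + (n - (P.natDegree + 1 + k))) : ℤ) : ZMod 3) :=
      congrFun (congrArg Subtype.val hF) (n - (P.natDegree + 1 + k))
    have h2 : P.natDegree + 1 + k + (n - (P.natDegree + 1 + k)) = n := by omega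
    have h3 : P.natDegree + 1 + k' + (n - (P.natDegree + 1 + k)) = n + (k' - k) := by omega
    rw [h2, h3, Int.cast_natCast, Int.cast_natCast] at h1
    exact h1.symm
  obtain ⟨k, k', hne, hF⟩ := Finite.exists_ne_map_eq_of_infinite F
  rcases lt_or_gt_of_ne hne with hlt | hgt
  · exact key k k' hlt hF
  · exact key k' k hgt hF.symm

open Classical in
theorem not_evPer3_of_lenE (c : ℕ → ZMod 3) (N : ℕ)
    (h : ∀ n, N ≤ n → c n = 1 + (if n ∈ lenE then 2 else 0) + (if n - 1 ∈ lenE then 1 else 0)) :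
    ¬ EvPer3 c := by
  rintro ⟨p, M, hp, hper⟩
  set k := p + N + M + 1 with hk
  have hk2 : k < 2 ^ k := Nat.lt_two_pow_self
  have h1 : 4 * 2 ^ k + 3 * k - 1 ∈ lenE := ⟨k, by omega, by omega⟩
  have hgap : ∀ m, 4 * 2 ^ k + 3 * k - 1 < m → m ≤ 4 * 2 ^ k + 3 * k + p → m ∉ lenE := by
    rintro m hm1 hm2 ⟨j, -, hj⟩
    rcases le_or_gt j k with hjk | hjk
    · have : 2 ^ j ≤ 2 ^ k := Nat.pow_le_pow_right (by norm_num) hjk
      omega
    · have : 2 ^ (k + 1) ≤ 2 ^ j := Nat.pow_le_pow_right (by norm_num) hjk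
      rw [pow_succ] at this
      omega
  have h3 := hper (4 * 2 ^ k + 3 * k) (by omega)
  rw [h _ (by omega), h _ (by omega), if_pos h1, if_neg (hgap _ (by omega) (by omega)),
    if_neg (hgap _ (by omega) (by omega)), if_neg (hgap _ (by omega) (by omega))] at h3
  exact absurd h3 (by decide)

/-- Counting modulo three with a map of order three. -/
theorem card_mod_three {α : Type*} (σ : α → α) (A : Set α) (hA : A.Finite)
    (h1 : ∀ x ∈ A, σ x ∈ A) (h3 : ∀ x ∈ A, σ (σ (σ x)) = x) :
    (A.ncard : ZMod 3) = ({x ∈ A | σ x = x}.ncard : ZMod 3) := by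
  classical
  have : Fintype A := hA.fintype
  have : Fact (Nat.Prime 3) := ⟨Nat.prime_three⟩
  let f : Function.End A := fun x => ⟨σ x, h1 x x.2⟩
  have hf : f ^ 3 ^ 1 = 1 := by
    funext x
    apply Subtype.ext
    exact h3 x x.2
  have h4 := Equiv.Perm.card_fixedPoints_modEq hf
  have h5 : A.ncard = Fintype.card A := by
    rw [← Nat.card_coe_set_eq, Nat.card_eq_fintype_card]
  have h6 : {x ∈ A | σ x = x}.ncard = Fintype.card (Function.fixedPoints f) := by
    rw [← Nat.card_coe_set_eq, ← Nat.card_eq_fintype_card]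
    refine Nat.card_congr
      { toFun := fun x => ⟨⟨x.1, x.2.1⟩, Subtype.ext x.2.2⟩
        invFun := fun x => ⟨x.1.1, x.1.2, congrArg Subtype.val x.2⟩
        left_inv := fun x => rfl
        right_inv := fun x => rfl }
  rw [h5, h6]
  exact (ZMod.natCast_eq_natCast_iff _ _ 3).2 h4

end Pool.Agent.Lib.MP_66609f_al
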