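import Pool.Agent.Lib.MP_66609f_al.Defs

namespace Pool.Agent.Lib.MP_66609f_al

/-- Eventually periodic sequences modulo four. -/
def EvPer (c : ℕ → ZMod 4) : Prop := ∃ p N : ℕ, 0 < p ∧ ∀ n, N ≤ n → c (n + p) = c n

/-- Integer sequences satisfying the linear recurrence given by `Q`. -/
def periodic_sol (Q : Polynomial ℂ) : Submodule ℤ (ℕ → ℤ) where
  carrier := {s | ∀ n, ∑ i ∈ Finset.range (Q.natDegree + 1),
    Q.coeff i * (s (n + Q.natDegree - i) : ℂ) = 0}
  add_mem' := by
    intro s t hs ht n
    simp only [Pi.add_apply, Int.cast_add, mul_add, Finset.sum_add_distrib]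
    rw [hs n, ht n, add_zero]
  zero_mem' := by
    intro n
    simp
  smul_mem' := by
    intro k s hs n
    have h := congrArg (fun z => (k : ℂ) * z) (hs n)
    simp only [Finset.mul_sum, mul_zero] at h
    rw [← h]
    refine Finset.sum_congr rfl fun i _ => ?_
    simp only [Pi.smul_apply, smul_eq_mul, Int.cast_mul]
    ring

theorem periodic_eq_zero {Q : Polynomial ℂ} (hQ : Q ≠ 0) {s : ℕ → ℤ} (hs : s ∈ periodic_sol Q)
    (h0 : ∀ m < Q.natDegree, s m = 0) (m : ℕ) : s m = 0 := by
  induction m using Nat.strong_induction_on with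
  | _ m ih =>
    by_cases hm : m < Q.natDegree
    · exact h0 m hm
    · have ha : Q.natTrailingDegree ≤ Q.natDegree := Q.natTrailingDegree_le_natDegree
      have h1 := hs (m - Q.natDegree + Q.natTrailingDegree)
      rw [Finset.sum_eq_single Q.natTrailingDegree] at h1
      · have h2 : m - Q.natDegree + Q.natTrailingDegree + Q.natDegree - Q.natTrailingDegree = m := by
          omega
        rw [h2] at h1
        rcases mul_eq_zero.1 h1 with h3 | h3
        · exact absurd (Polynomial.coeff_natTrailingDegree_eq_zero.1 h3) hQ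
        · exact_mod_cast h3
      · intro i hi hne
        rcases lt_or_gt_of_ne hne with hlt | hgt
        · rw [Polynomial.coeff_eq_zero_of_lt_natTrailingDegree hlt, zero_mul]
        · have hi' := Finset.mem_range.1 hi
          rw [ih _ (by omega), Int.cast_zero, mul_zero]
      · intro h
        exact absurd (Finset.mem_range.2 (by omega)) h

theorem periodic_fg {Q : Polynomial ℂ} (hQ : Q ≠ 0) : Module.Finite ℤ (periodic_sol Q) := by
  let φ : periodic_sol Q →ₗ[ℤ] (Fin Q.natDegree → ℤ) :=
    (LinearMap.funLeft ℤ ℤ fun i : Fin Q.natDegree => (i : ℕ)).comp (periodic_sol Q).subtype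
  refine Module.Finite.of_injective φ ?_
  rw [injective_iff_map_eq_zero]
  intro s hs
  ext m
  exact periodic_eq_zero hQ s.2 (fun m hm => congrFun hs ⟨m, hm⟩) m

/-- Reduction modulo four. -/
def periodic_red (Q : Polynomial ℂ) : periodic_sol Q →ₗ[ℤ] (ℕ → ZMod 4) :=
  (LinearMap.pi fun n => (Int.castAddHom (ZMod 4)).toIntLinearMap.comp
    (LinearMap.proj n : (ℕ → ℤ) →ₗ[ℤ] ℤ)).comp (periodic_sol Q).subtype

theorem periodic_finite {Q : Polynomial ℂ} (hQ : Q ≠ 0) :
    Finite (LinearMap.range (periodic_red Q)) := by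
  have := periodic_fg hQ
  refine Module.finite_of_fg_torsion _ fun x => ⟨⟨4, mem_nonZeroDivisors_of_ne_zero (by norm_num)⟩, ?_⟩
  ext n
  show (4 : ℤ) • x.1 n = 0
  rw [zsmul_eq_mul]
  have h : ((4 : ℤ) : ZMod 4) = 0 := by decide
  rw [h, zero_mul]

theorem evPer_of_rational (c : ℕ → ℕ) (h : IsRational (PowerSeries.mk fun n => (c n : ℂ))) :
    EvPer fun n => (c n : ZMod 4) := by
  obtain ⟨P, Q, hQ, hPQ⟩ := h
  have hmem : ∀ k, (fun n => (c (P.natDegree + 1 + k + n) : ℤ)) ∈ periodic_sol Q := by
    intro k n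
    have h1 := congrArg (PowerSeries.coeff (P.natDegree + 1 + k + n + Q.natDegree)) hPQ
    rw [PowerSeries.coeff_mul, Polynomial.coeff_coe,
      Polynomial.coeff_eq_zero_of_natDegree_lt (by omega),
      Finset.Nat.sum_antidiagonal_eq_sum_range_succ_mk] at h1
    rw [← h1]
    have h2 : Finset.range (Q.natDegree + 1) ⊆
        Finset.range (P.natDegree + 1 + k + n + Q.natDegree).succ :=
      Finset.range_subset_range.2 (by omega)
    rw [← Finset.sum_subset h2]
    · refine Finset.sum_congr rfl fun i hi => ?_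
      have hi' := Finset.mem_range.1 hi
      have h3 : P.natDegree + 1 + k + (n + Q.natDegree - i) =
          P.natDegree + 1 + k + n + Q.natDegree - i := by omega
      simp only [Polynomial.coeff_coe, PowerSeries.coeff_mk, Int.cast_natCast, h3]
    · intro i _ hi
      have hi' : Q.natDegree < i := by
        rw [Finset.mem_range] at hi
        omega
      simp only [Polynomial.coeff_coe]
      rw [Polynomial.coeff_eq_zero_of_natDegree_lt hi', zero_mul]
  have := periodic_finite hQ
  let F : ℕ → LinearMap.range (periodic_red Q) :=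
    fun k => ⟨periodic_red Q ⟨_, hmem k⟩, LinearMap.mem_range_self _ _⟩
  have key : ∀ k k', k < k' → F k = F k' → EvPer fun n => (c n : ZMod 4) := by
    intro k k' hk hF
    refine ⟨k' - k, P.natDegree + 1 + k, by omega, fun n hn => ?_⟩
    have h1 : (((c (P.natDegree + 1 + k + (n - (P.natDegree + 1 + k))) : ℤ) : ZMod 4)) =
        ((c (P.natDegree + 1 + k' + (n - (P.natDegree + 1 + k))) : ℤ) : ZMod 4) :=
      congrFun (congrArg Subtype.val hF) (n - (P.natDegree + 1 + k))
    have h2 : P.natDegree + 1 + k + (n - (P.natDegree + 1 + k)) = n := by omega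
    have h3 : P.natDegree + 1 + k' + (n - (P.natDegree + 1 + k)) = n + (k' - k) := by omega
    rw [h2, h3, Int.cast_natCast, Int.cast_natCast] at h1
    exact h1.symm
  obtain ⟨k, k', hne, hF⟩ := Finite.exists_ne_map_eq_of_infinite F
  rcases lt_or_gt_of_ne hne with hlt | hgt
  · exact key k k' hlt hF
  · exact key k' k hgt hF.symm

end Pool.Agent.Lib.MP_66609f_al
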