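import Pool.Agent.Lib.MP_66609f_al.Setup

/-! The group of a sphere with `N` cone points of order two, by generators and relations. -/

namespace Pool.Agent.Lib.MP_66609f_al

def piRels (N : ℕ) : Set (FreeGroup (Fin N)) :=
  {r | (∃ i, r = FreeGroup.of i * FreeGroup.of i) ∨ r = (List.ofFn FreeGroup.of).prod}

abbrev PiA (N : ℕ) : Type := PresentedGroup (piRels N)

/-- The generator number `k` (or `1` if `k` is out of range). -/
def yy (N k : ℕ) : PiA N := if h : k < N then PresentedGroup.of (⟨k, h⟩ : Fin N) else 1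

/-- `φ` is the Artin half twist exchanging the points `j` and `j + 1`. -/
def IsArt {N : ℕ} (φ : MulAut (PiA N)) (j : ℕ) : Prop :=
  φ (yy N j) = yy N j * yy N (j + 1) * yy N j ∧ φ (yy N (j + 1)) = yy N j ∧
    ∀ k, k ≠ j → k ≠ j + 1 → φ (yy N k) = yy N k

/-- `σ` is the parity homomorphism. -/
def IsPar {N : ℕ} (σ : PiA N →* Multiplicative (ZMod 2)) : Prop :=
  ∀ k, k < N → σ (yy N k) = Multiplicative.ofAdd 1

end Pool.Agent.Lib.MP_66609f_al
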