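import Pool.Agent.Lib.MP_66609f_al.CocBasic
import Pool.Agent.Lib.MP_66609f_al.Setup

namespace Pool.Agent.Lib.MP_66609f_al

variable {g : ℕ}

noncomputable def twT (hg : 3 ≤ g) : (Tw g)ˣ := (exists_twist hg _ _ (twOK_T hg)).choose

noncomputable def twU (hg : 3 ≤ g) : (Tw g)ˣ := (exists_twist hg _ _ (twOK_U hg)).choose

noncomputable def twL (hg : 3 ≤ g) : (Tw g)ˣ := (exists_twist hg _ _ (twOK_L hg)).choose

noncomputable def twM (hg : 3 ≤ g) : (Tw g)ˣ := (exists_twist hg _ _ (twOK_M hg)).choose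

theorem twT_spec (hg : 3 ≤ g) :
    IsTwist (twT hg : Tw g) ((g + 2 : ℕ) : ZMod (g + 3)) (kapT 1) :=
  (exists_twist hg _ _ (twOK_T hg)).choose_spec

theorem twU_spec (hg : 3 ≤ g) : IsTwist (twU hg : Tw g) ((2 : ℕ) : ZMod (g + 3)) kapU :=
  (exists_twist hg _ _ (twOK_U hg)).choose_spec

theorem twL_spec (hg : 3 ≤ g) : IsTwist (twL hg : Tw g) ((2 : ℕ) : ZMod (g + 3)) kapL :=
  (exists_twist hg _ _ (twOK_L hg)).choose_spec

theorem twM_spec (hg : 3 ≤ g) : IsTwist (twM hg : Tw g) ((1 : ℕ) : ZMod (g + 3)) kapM :=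
  (exists_twist hg _ _ (twOK_M hg)).choose_spec

/-- The elements `x, t, y, u` built from three braid generators `U, M, L`. -/
def gnOf {H : Type*} [Group H] (U M L : H) : Bool × Bool → H
  | (false, false) => U ^ 2
  | (false, true) => (L * M) ^ 3
  | (true, false) => L ^ 2
  | (true, true) => (M * U) ^ 3

noncomputable def gnTw (hg : 3 ≤ g) : Bool × Bool → (Tw g)ˣ := gnOf (twU hg) (twM hg) (twL hg)

noncomputable def evTw (hg : 3 ≤ g) : FW →* (Tw g)ˣ := FreeGroup.lift (gnTw hg)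

/-- The automorphism `T` of the surface group. -/
noncomputable def autT (hg : 3 ≤ g) : MulAut (piG g) := Tw.res g (twT hg)

/-- Automorphisms of the surface group given by words in `x, t, y, u`. -/
noncomputable def autW (hg : 3 ≤ g) : FW →* MulAut (piG g) := (Tw.res g).comp (evTw hg)

/-- The classes `r`, `ρ`, `τ`, `T` in `Out`. -/
def rO (g : ℕ) : Out (piG g) := oc g (cj g (ee g 1 * ee g 2))

def ρO (g : ℕ) : Out (piG g) := oc g (cj g (ee g 1))

def τO (g : ℕ) : Out (piG g) := oc g (cj g (t3 g * ee g 1))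

noncomputable def TO (hg : 3 ≤ g) : Out (piG g) := oc g (autT hg)

/-- Classes commuting with `r` and, up to `r`, with `ρ`. -/
def NrmO (g : ℕ) (x : Out (piG g)) : Prop :=
  rO g * x = x * rO g ∧ (ρO g * x * (ρO g)⁻¹ = x ∨ ρO g * x * (ρO g)⁻¹ = x * rO g)

end Pool.Agent.Lib.MP_66609f_al
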