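import Pool.Agent.Lib.MP_66609f_al.PiA
import Pool.Agent.Lib.MP_66609f_al.TwDefs

namespace Pool.Agent.Lib.MP_66609f_al

variable {N : ℕ}

theorem piABasic_yy (i : Fin N) : yy N i = PresentedGroup.of i := by
  rw [yy, dif_pos i.2]

theorem piABasic_ofFn {M : Type*} (f : ℕ → M) :
    (List.ofFn fun i : Fin N => f i) = (List.range N).map f := by
  apply List.ext_getElem
  · simp
  · intro i h1 h2
    simp

theorem yy_mul_self (k : ℕ) : yy N k * yy N k = 1 := by
  by_cases h : k < N
  · rw [yy, dif_pos h]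
    have h1 : (FreeGroup.of (⟨k, h⟩ : Fin N) * FreeGroup.of ⟨k, h⟩) ∈ piRels N :=
      Or.inl ⟨_, rfl⟩
    have h2 := PresentedGroup.one_of_mem h1
    rw [map_mul] at h2
    exact h2
  · rw [yy, dif_neg h, mul_one]

theorem yy_prod : ((List.range N).map (yy N)).prod = 1 := by
  have h1 : (List.ofFn (FreeGroup.of : Fin N → FreeGroup (Fin N))).prod ∈ piRels N := Or.inr rfl
  have h2 := PresentedGroup.one_of_mem h1
  rw [map_list_prod, List.map_ofFn] at h2
  rw [← piABasic_ofFn, ← h2]
  have e : (fun i : Fin N => yy N i) = (PresentedGroup.mk (piRels N)) ∘ FreeGroup.of := by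
    funext i
    exact piABasic_yy i
  rw [e]

theorem piA_hom_ext {M : Type*} [Group M] (f f' : PiA N →* M)
    (h : ∀ k, k < N → f (yy N k) = f' (yy N k)) : f = f' := by
  apply PresentedGroup.ext
  intro i
  rw [← piABasic_yy]
  exact h i i.2

theorem piA_induction {p : PiA N → Prop} (h1 : p 1)
    (hs : ∀ w k, k < N → p w → p (w * yy N k)) (w : PiA N) : p w := by
  have hw : w ∈ Subgroup.closure (Set.range (PresentedGroup.of : Fin N → PiA N)) := by
    rw [PresentedGroup.closure_range_of (piRels N)]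
    trivial
  induction hw using Subgroup.closure_induction_right with
  | one => exact h1
  | mul_right x _ y hy ih =>
    obtain ⟨i, rfl⟩ := hy
    rw [← piABasic_yy]
    exact hs _ _ i.2 ih
  | mul_inv_cancel x _ y hy ih =>
    obtain ⟨i, rfl⟩ := hy
    rw [← piABasic_yy, inv_eq_of_mul_eq_one_right (yy_mul_self (i : ℕ))]
    exact hs _ _ i.2 ih

theorem exists_piA_hom {M : Type*} [Group M] (f : ℕ → M) (h1 : ∀ k, k < N → f k * f k = 1)
    (h2 : ((List.range N).map f).prod = 1) :
    ∃ φ : PiA N →* M, ∀ k, k < N → φ (yy N k) = f k := by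
  have h : ∀ r ∈ piRels N, FreeGroup.lift (fun i : Fin N => f i) r = 1 := by
    rintro r (⟨i, rfl⟩ | rfl)
    · rw [map_mul, FreeGroup.lift_apply_of]
      exact h1 i i.2
    · rw [map_list_prod, List.map_ofFn, ← h2, ← piABasic_ofFn]
      have e : (FreeGroup.lift fun i : Fin N => f i) ∘ FreeGroup.of = fun i : Fin N => f i := by
        funext i
        exact FreeGroup.lift_apply_of
      rw [e]
  refine ⟨PresentedGroup.toGroup h, fun k hk => ?_⟩
  rw [yy, dif_pos hk]
  exact PresentedGroup.toGroup.of h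

theorem piABasic_prod_eq {M : Type*} [Group M] (f f' : ℕ → M) (j : ℕ) (hj : j + 1 < N)
    (h1 : f j * f (j + 1) = f' j * f' (j + 1)) (h2 : ∀ k, k ≠ j → k ≠ j + 1 → f k = f' k) :
    ((List.range N).map f).prod = ((List.range N).map f').prod := by
  have hN : j + 2 ≤ N := hj
  induction N, hN using Nat.le_induction with
  | base =>
    have e : (List.range j).map f = (List.range j).map f' := by
      apply List.map_congr_left
      intro k hk
      rw [List.mem_range] at hk
      exact h2 k (by omega) (by omega)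
    simp only [List.range_succ, List.map_append, List.prod_append, List.map_cons, List.map_nil,
      List.prod_cons, List.prod_nil, mul_one, mul_assoc]
    rw [e, h1]
  | succ m hm ih =>
    simp only [List.range_succ, List.map_append, List.prod_append, List.map_cons, List.map_nil,
      List.prod_cons, List.prod_nil, mul_one]
    rw [ih (by omega), h2 m (by omega) (by omega)]

theorem piABasic_hom (j : ℕ) (hj : j + 1 < N) (a b : PiA N) (ha : a * a = 1) (hb : b * b = 1)
    (hab : a * b = yy N j * yy N (j + 1)) :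
    ∃ φ : PiA N →* PiA N, φ (yy N j) = a ∧ φ (yy N (j + 1)) = b ∧
      ∀ k, k ≠ j → k ≠ j + 1 → φ (yy N k) = yy N k := by
  obtain ⟨φ, hφ⟩ := exists_piA_hom (N := N)
    (fun k => if k = j then a else if k = j + 1 then b else yy N k)
    (by
      intro k _
      split_ifs
      · exact ha
      · exact hb
      · exact yy_mul_self k)
    (by
      rw [← yy_prod (N := N)]
      apply piABasic_prod_eq _ _ j hj
      · simpa using hab
      · intro k h1 h2
        rw [if_neg h1, if_neg h2])
  refine ⟨φ, ?_, ?_, ?_⟩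
  · rw [hφ j (by omega), if_pos rfl]
  · rw [hφ (j + 1) hj, if_neg (by omega), if_pos rfl]
  · intro k h1 h2
    by_cases hk : k < N
    · rw [hφ k hk, if_neg h1, if_neg h2]
    · rw [yy, dif_neg hk, map_one]

theorem piABasic_cancel (k : ℕ) (x : PiA N) : yy N k * (yy N k * x) = x := by
  rw [← mul_assoc, yy_mul_self, one_mul]

theorem piABasic_inv (k : ℕ) : (yy N k)⁻¹ = yy N k :=
  inv_eq_of_mul_eq_one_right (yy_mul_self k)

theorem exists_art (j : ℕ) (hj : j + 1 < N) : ∃ φ : MulAut (PiA N), IsArt φ j := by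
  obtain ⟨φ, h1, h2, h3⟩ := piABasic_hom j hj (yy N j * yy N (j + 1) * yy N j) (yy N j)
    (by simp only [mul_assoc, piABasic_cancel, yy_mul_self]) (yy_mul_self j)
    (by simp only [mul_assoc, yy_mul_self, mul_one])
  obtain ⟨ψ, g1, g2, g3⟩ := piABasic_hom j hj (yy N (j + 1))
    (yy N (j + 1) * yy N j * yy N (j + 1)) (yy_mul_self _)
    (by simp only [mul_assoc, piABasic_cancel, yy_mul_self])
    (by simp only [mul_assoc, piABasic_cancel])
  have e1 : ψ.comp φ = MonoidHom.id _ := by
    apply piA_hom_ext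
    intro k _
    rw [MonoidHom.comp_apply, MonoidHom.id_apply]
    by_cases k1 : k = j
    · rw [k1, h1, map_mul, map_mul, g1, g2]
      simp only [mul_assoc, piABasic_cancel, yy_mul_self, mul_one]
    · by_cases k2 : k = j + 1
      · rw [k2, h2, g1]
      · rw [h3 k k1 k2, g3 k k1 k2]
  have e2 : φ.comp ψ = MonoidHom.id _ := by
    apply piA_hom_ext
    intro k _
    rw [MonoidHom.comp_apply, MonoidHom.id_apply]
    by_cases k1 : k = j
    · rw [k1, g1, h2]
    · by_cases k2 : k = j + 1
      · rw [k2, g2, map_mul, map_mul, h1, h2]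
        simp only [mul_assoc, piABasic_cancel, yy_mul_self, mul_one]
      · rw [g3 k k1 k2, h3 k k1 k2]
  exact ⟨MonoidHom.toMulEquiv φ ψ e1 e2, h1, h2, h3⟩

theorem exists_par (g : ℕ) : ∃ σ : PiA (2 * g + 2) →* Multiplicative (ZMod 2), IsPar σ := by
  have h : (Multiplicative.ofAdd (1 : ZMod 2)) * Multiplicative.ofAdd 1 = 1 := by decide
  refine exists_piA_hom (fun _ => Multiplicative.ofAdd (1 : ZMod 2)) (fun _ _ => h) ?_
  rw [List.map_const', List.prod_replicate, List.length_range,
    show 2 * g + 2 = 2 * (g + 1) by ring, pow_mul, pow_two, h, one_pow]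

/-- Squares of half twists act by conjugation on two points. -/
theorem art_sq {φ : MulAut (PiA N)} {j : ℕ} (h : IsArt φ j) (k : ℕ) :
    (φ ^ 2) (yy N k) = if k = j ∨ k = j + 1 then
      (yy N j * yy N (j + 1)) * yy N k * (yy N j * yy N (j + 1))⁻¹ else yy N k := by
  obtain ⟨h1, h2, h3⟩ := h
  rw [pow_two, MulAut.mul_apply]
  by_cases k1 : k = j
  · rw [if_pos (Or.inl k1), k1, h1, map_mul, map_mul, h1, h2]
    simp only [mul_inv_rev, piABasic_inv, mul_assoc, piABasic_cancel]
  · by_cases k2 : k = j + 1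
    · rw [if_pos (Or.inr k2), k2, h2, h1]
      simp only [mul_inv_rev, piABasic_inv, mul_assoc, piABasic_cancel]
    · rw [if_neg (by tauto), h3 k k1 k2, h3 k k1 k2]

/-- Full twists on three points. -/
theorem art_cube {φ ψ : MulAut (PiA N)} {j : ℕ} (h : IsArt φ j) (h' : IsArt ψ (j + 1)) (k : ℕ) :
    ((φ * ψ) ^ 3) (yy N k) = if k = j ∨ k = j + 1 ∨ k = j + 2 then
      (yy N j * yy N (j + 1) * yy N (j + 2)) * yy N k *
        (yy N j * yy N (j + 1) * yy N (j + 2))⁻¹ else yy N k := by
  obtain ⟨h1, h2, h3⟩ := h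
  obtain ⟨g1, g2, g3⟩ := h'
  have hc : φ (yy N (j + 2)) = yy N (j + 2) := h3 _ (by omega) (by omega)
  have a1 : (φ * ψ) (yy N j) = yy N j * yy N (j + 1) * yy N j := by
    rw [MulAut.mul_apply, g3 j (by omega) (by omega), h1]
  have a2 : (φ * ψ) (yy N (j + 1)) = yy N j * yy N (j + 2) * yy N j := by
    rw [MulAut.mul_apply, g1, map_mul, map_mul, h2, hc]
  have a3 : (φ * ψ) (yy N (j + 2)) = yy N j := by
    rw [MulAut.mul_apply, g2, h2]
  have a4 : ∀ k, k ≠ j → k ≠ j + 1 → k ≠ j + 2 → (φ * ψ) (yy N k) = yy N k := by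
    intro k k1 k2 k3
    rw [MulAut.mul_apply, g3 k k2 k3, h3 k k1 k2]
  generalize φ * ψ = θ at a1 a2 a3 a4
  rw [pow_three, MulAut.mul_apply, MulAut.mul_apply]
  by_cases k1 : k = j
  · rw [if_pos (Or.inl k1), k1]
    simp only [a1, a2, a3, map_mul, mul_inv_rev, piABasic_inv, mul_assoc, piABasic_cancel]
  · by_cases k2 : k = j + 1
    · rw [if_pos (Or.inr (Or.inl k2)), k2]
      simp only [a1, a2, a3, map_mul, mul_inv_rev, piABasic_inv, mul_assoc, piABasic_cancel]
    · by_cases k3 : k = j + 2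
      · rw [if_pos (Or.inr (Or.inr k3)), k3]
        simp only [a1, a2, a3, map_mul, mul_inv_rev, piABasic_inv, mul_assoc, piABasic_cancel]
      · rw [if_neg (by tauto), a4 k k1 k2 k3, a4 k k1 k2 k3, a4 k k1 k2 k3]

theorem piABasic_conj (a b : PiA N) (P : Prop) [Decidable P] :
    IsConj b (if P then a * b * a⁻¹ else b) := by
  split_ifs
  · exact isConj_iff.2 ⟨a, rfl⟩
  · exact IsConj.refl b

/-- Words in `x, t, y, u` are pure. -/
theorem gnOf_pure {L M U : MulAut (PiA N)} {j : ℕ} (hL : IsArt L j) (hM : IsArt M (j + 1))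
    (hU : IsArt U (j + 2)) (w : FW) (k : ℕ) :
    IsConj (yy N k) (FreeGroup.lift (gnOf U M L) w (yy N k)) := by
  induction w using FreeGroup.induction_on with
  | C1 =>
    rw [map_one]
    exact IsConj.refl _
  | of b =>
    rw [FreeGroup.lift_apply_of]
    obtain ⟨b1, b2⟩ := b
    cases b1 <;> cases b2
    · show IsConj (yy N k) ((U ^ 2) (yy N k))
      rw [art_sq hU]
      exact piABasic_conj _ _ _
    · show IsConj (yy N k) (((L * M) ^ 3) (yy N k))
      rw [art_cube hL hM]
      exact piABasic_conj _ _ _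
    · show IsConj (yy N k) ((L ^ 2) (yy N k))
      rw [art_sq hL]
      exact piABasic_conj _ _ _
    · show IsConj (yy N k) (((M * U) ^ 3) (yy N k))
      rw [art_cube hM hU]
      exact piABasic_conj _ _ _
  | inv_of b ih =>
    rw [map_inv]
    generalize FreeGroup.lift (gnOf U M L) (FreeGroup.of b) = θ at ih
    have e := (θ⁻¹ : MulAut (PiA N)).toMonoidHom.map_isConj ih
    have e' : IsConj (θ⁻¹ (yy N k)) (θ⁻¹ (θ (yy N k))) := e
    rw [← MulAut.mul_apply, inv_mul_cancel, MulAut.one_apply] at e'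
    exact e'.symm
  | mul x y ihx ihy =>
    rw [map_mul, MulAut.mul_apply]
    exact ihx.trans ((FreeGroup.lift (gnOf U M L) x).toMonoidHom.map_isConj ihy)

end Pool.Agent.Lib.MP_66609f_al
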