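import Pool.Agent.Lib.MP_66609f_al.PiABasic

namespace Pool.Agent.Lib.MP_66609f_al

/-- The cone points as elements of the Coxeter group. -/
def yW (g k : ℕ) : W (g + 3) :=
  if k + 2 ≤ g then t3 g * ee g (g - k) * ee g (g - k - 1) * t3 g
  else if k + 3 ≤ 2 * g then ee g (k + 2 - g) * ee g (k + 3 - g)
  else if k = 2 * g - 2 then ee g g * t2 g * t3 g * ee g g
  else if k = 2 * g - 1 then ee g g * t1 g * t2 g * ee g g
  else if k = 2 * g then t2 g * t1 g
  else t3 g * t2 g

/-- Products going up from the middle. -/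
def piIsoU {M : Type*} [Group M] (f : ℕ → M) (g : ℕ) : ℕ → M
  | 0 => 1
  | m + 1 => piIsoU f g m * f (g - 1 + m)

/-- Products going down from the middle. -/
def piIsoL {M : Type*} [Group M] (f : ℕ → M) (g : ℕ) : ℕ → M
  | 0 => 1
  | m + 1 => f (g - 2 - m) * piIsoL f g m

theorem piIso_prod {M : Type*} [Group M] (f : ℕ → M) {g : ℕ} (hg : 3 ≤ g) :
    ((List.range (2 * g + 2)).map f).prod = piIsoL f g (g - 1) * piIsoU f g (g - 1) *
      f (2 * g - 2) * f (2 * g - 1) * f (2 * g) * f (2 * g + 1) := by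
  have hP : ∀ n, ((List.range (n + 1)).map f).prod = ((List.range n).map f).prod * f n := by
    intro n
    rw [List.range_succ, List.map_append, List.prod_append]
    simp
  have hU : ∀ m, ((List.range (g - 1 + m)).map f).prod =
      ((List.range (g - 1)).map f).prod * piIsoU f g m := by
    intro m
    induction m with
    | zero => simp [piIsoU]
    | succ m ih => rw [← add_assoc, hP, ih, piIsoU, mul_assoc]
  have hL : ∀ m, m ≤ g - 1 → ((List.range (g - 1)).map f).prod =
      ((List.range (g - 1 - m)).map f).prod * piIsoL f g m := by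
    intro m
    induction m with
    | zero => simp [piIsoL]
    | succ m ih =>
      intro hm
      rw [ih (by omega), piIsoL, show g - 1 - m = (g - 2 - m) + 1 by omega, hP,
        show g - 1 - (m + 1) = g - 2 - m by omega, mul_assoc]
  have h1 := hL (g - 1) le_rfl
  have h2 := hU (g - 1)
  rw [Nat.sub_self] at h1
  simp only [List.range_zero, List.map_nil, List.prod_nil, one_mul] at h1
  rw [h1, show g - 1 + (g - 1) = 2 * g - 2 by omega] at h2
  have h3 := hP (2 * g - 2)
  have h4 := hP (2 * g - 1)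
  rw [show 2 * g - 2 + 1 = 2 * g - 1 by omega] at h3
  rw [show 2 * g - 1 + 1 = 2 * g by omega] at h4
  rw [show 2 * g + 2 = 2 * g + 1 + 1 by omega, hP, hP, h4, h3, h2]

theorem piIso_ee_sq (g n : ℕ) : ee g n * ee g n = 1 := sg_mul_self _

theorem piIso_ee_sq' (g n : ℕ) (w : W (g + 3)) : ee g n * (ee g n * w) = w := by
  rw [← mul_assoc, piIso_ee_sq, one_mul]

theorem piIso_ee_inv (g n : ℕ) : (ee g n)⁻¹ = ee g n := sg_inv _

theorem piIso_comm (g n : ℕ) : ee g (n + 1) * ee g n = ee g n * ee g (n + 1) := by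
  have h := sg_comm ((n : ℕ) : ZMod (g + 3))
  simp only [ee, Nat.cast_add, Nat.cast_one]
  exact h.eq.symm

theorem piIso_comm' (g n : ℕ) (w : W (g + 3)) :
    ee g (n + 1) * (ee g n * w) = ee g n * (ee g (n + 1) * w) := by
  rw [← mul_assoc, piIso_comm, mul_assoc]

theorem piIso_wrap (g : ℕ) : ee g (g + 2) * ee g 0 = ee g 0 * ee g (g + 2) := by
  have h := piIso_comm g (g + 2)
  have h2 : ee g (g + 2 + 1) = ee g 0 := by
    unfold ee
    rw [show g + 2 + 1 = g + 3 by omega, ZMod.natCast_self, Nat.cast_zero]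
  rw [h2] at h
  exact h.symm

theorem piIso_wrap' (g : ℕ) (w : W (g + 3)) :
    ee g (g + 2) * (ee g 0 * w) = ee g 0 * (ee g (g + 2) * w) := by
  rw [← mul_assoc, piIso_wrap, mul_assoc]

theorem piIso_y1 {g k : ℕ} (h : k + 2 ≤ g) :
    yW g k = ee g 0 * ee g (g - k - 1 + 1) * ee g (g - k - 1) * ee g 0 := by
  rw [yW, if_pos h, show g - k - 1 + 1 = g - k by omega]
  rfl

theorem piIso_y2 {g k : ℕ} (h : g < k + 2) (h' : k + 3 ≤ 2 * g) :
    yW g k = ee g (k + 2 - g) * ee g (k + 2 - g + 1) := by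
  rw [yW, if_neg (by omega), if_pos h', show k + 2 - g + 1 = k + 3 - g by omega]

theorem piIso_y3 {g : ℕ} (hg : 3 ≤ g) :
    yW g (2 * g - 2) = ee g g * ee g (g + 2) * ee g 0 * ee g g := by
  rw [yW, if_neg (by omega), if_neg (by omega), if_pos rfl]
  rfl

theorem piIso_y4 {g : ℕ} (hg : 3 ≤ g) :
    yW g (2 * g - 1) = ee g g * ee g (g + 1) * ee g (g + 2) * ee g g := by
  rw [yW, if_neg (by omega), if_neg (by omega), if_neg (by omega), if_pos rfl]
  rfl

theorem piIso_y5 {g : ℕ} (hg : 3 ≤ g) : yW g (2 * g) = ee g (g + 2) * ee g (g + 1) := by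
  rw [yW, if_neg (by omega), if_neg (by omega), if_neg (by omega), if_neg (by omega), if_pos rfl]
  rfl

theorem piIso_y6 {g : ℕ} (hg : 3 ≤ g) : yW g (2 * g + 1) = ee g 0 * ee g (g + 2) := by
  rw [yW, if_neg (by omega), if_neg (by omega), if_neg (by omega), if_neg (by omega),
    if_neg (by omega)]
  rfl

theorem piIso_cases {g : ℕ} (hg : 3 ≤ g) {k : ℕ} (hk : k < 2 * g + 2) :
    k + 2 ≤ g ∨ (g < k + 2 ∧ k + 3 ≤ 2 * g) ∨ k = 2 * g - 2 ∨ k = 2 * g - 1 ∨ k = 2 * g ∨
      k = 2 * g + 1 := by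
  omega

theorem piIso_t12 (g : ℕ) (w : W (g + 3)) :
    ee g (g + 2) * (ee g (g + 1) * w) = ee g (g + 1) * (ee g (g + 2) * w) :=
  piIso_comm' g (g + 1) w

theorem piIso_t12' (g : ℕ) : ee g (g + 2) * ee g (g + 1) = ee g (g + 1) * ee g (g + 2) :=
  piIso_comm g (g + 1)

theorem piIso_e01 (g : ℕ) (w : W (g + 3)) :
    ee g 1 * (ee g 0 * w) = ee g 0 * (ee g 1 * w) := piIso_comm' g 0 w

theorem piIso_e01' (g : ℕ) : ee g 1 * ee g 0 = ee g 0 * ee g 1 := piIso_comm g 0

theorem piIso_y_sq {g : ℕ} (hg : 3 ≤ g) (k : ℕ) (hk : k < 2 * g + 2) :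
    yW g k * yW g k = 1 := by
  rcases piIso_cases hg hk with h | ⟨h, h'⟩ | rfl | rfl | rfl | rfl
  · rw [piIso_y1 h]
    simp only [mul_assoc, piIso_ee_sq', piIso_comm', piIso_ee_sq]
  · rw [piIso_y2 h h']
    simp only [mul_assoc, piIso_ee_sq', piIso_comm', piIso_ee_sq]
  · rw [piIso_y3 hg]
    simp only [mul_assoc, piIso_ee_sq', piIso_wrap', piIso_ee_sq]
  · rw [piIso_y4 hg]
    simp only [mul_assoc, piIso_ee_sq', piIso_t12, piIso_ee_sq]
  · rw [piIso_y5 hg]
    simp only [mul_assoc, piIso_ee_sq', piIso_t12, piIso_t12', piIso_ee_sq]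
  · rw [piIso_y6 hg]
    simp only [mul_assoc, piIso_ee_sq', piIso_wrap', piIso_ee_sq]

theorem piIso_U_yW {g : ℕ} (hg : 3 ≤ g) (m : ℕ) (hm : m + 1 ≤ g) :
    piIsoU (yW g) g m = ee g 1 * ee g (m + 1) := by
  induction m with
  | zero => rw [piIsoU, zero_add, piIso_ee_sq]
  | succ m ih =>
    rw [piIsoU, ih (by omega), piIso_y2 (by omega) (by omega),
      show g - 1 + m + 2 - g = m + 1 by omega]
    simp only [mul_assoc, piIso_ee_sq']

theorem piIso_L_yW {g : ℕ} (m : ℕ) (hm : m + 1 ≤ g) :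
    piIsoL (yW g) g m = ee g 0 * ee g (m + 1) * ee g 1 * ee g 0 := by
  induction m with
  | zero => simp only [piIsoL, zero_add, mul_assoc, piIso_ee_sq, one_mul]
  | succ m ih =>
    rw [piIsoL, ih (by omega), piIso_y1 (by omega),
      show g - (g - 2 - m) - 1 = m + 1 by omega]
    simp only [mul_assoc, piIso_ee_sq']

theorem piIso_y_prod {g : ℕ} (hg : 3 ≤ g) :
    ((List.range (2 * g + 2)).map (yW g)).prod = 1 := by
  rw [piIso_prod _ hg, piIso_U_yW hg _ (by omega), piIso_L_yW _ (by omega), piIso_y3 hg,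
    piIso_y4 hg, piIso_y5 hg, piIso_y6 hg, show g - 1 + 1 = g by omega]
  simp only [mul_assoc, piIso_e01, piIso_ee_sq', piIso_wrap', piIso_t12]
  rw [piIso_comm' g g, piIso_ee_sq', piIso_ee_sq', piIso_ee_sq', piIso_ee_sq]

/-- First state bit. -/
def piIsoA (p : PP) : Bool := decide (p.toAdd.1 + p.toAdd.2.1 = 1)

/-- Second state bit. -/
def piIsoB (p : PP) : Bool := decide (p.toAdd.2.2 = 1)

theorem piIsoA_mul (p q : PP) : piIsoA (p * q) = xor (piIsoA p) (piIsoA q) := by
  revert p q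
  decide

theorem piIsoB_mul (p q : PP) : piIsoB (p * q) = xor (piIsoB p) (piIsoB q) := by
  revert p q
  decide

theorem piIso_mem_hypP (p : PP) : p ∈ hypP ↔ piIsoA p = false ∧ piIsoB p = false := by
  change (p.toAdd.2.2 = 0 ∧ p.toAdd.1 = p.toAdd.2.1) ↔ _
  revert p
  decide

theorem piIso_val {g n : ℕ} (hn : n < g + 3) : ((n : ℕ) : ZMod (g + 3)).val = n := by
  rw [ZMod.val_natCast, Nat.mod_eq_of_lt hn]

theorem piIso_col_e {g n : ℕ} (h1 : 1 ≤ n) (h2 : n ≤ g) :
    piIsoA (colg g (n : ZMod (g + 3))) = true ∧ piIsoB (colg g (n : ZMod (g + 3))) = false := by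
  unfold colg
  rw [piIso_val (by omega), if_neg (by omega), if_neg (by omega)]
  split_ifs <;> decide

theorem piIso_col_t {g n : ℕ} (h : n = 0 ∨ n = g + 1 ∨ n = g + 2) :
    piIsoA (colg g (n : ZMod (g + 3))) = false ∧ piIsoB (colg g (n : ZMod (g + 3))) = true := by
  unfold colg
  rw [piIso_val (by omega)]
  split_ifs with h1 h2 h3
  · decide
  · decide
  · omega
  · omega

/-- The values of the inverse cocycle. -/
def piIsoD {M : Type*} [Group M] (f : ℕ → M) (g : ℕ) (b a : Bool) (n : ℕ) : M :=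
  if n = 0 then 1
  else if n ≤ g then
    (match b, a with
      | false, false => (piIsoU f g (n - 1))⁻¹
      | false, true => piIsoU f g (n - 1)
      | true, false => piIsoL f g (n - 1)
      | true, true => (piIsoL f g (n - 1))⁻¹)
  else if n = g + 1 then
    (match b, a with
      | false, false => f (2 * g) * f (2 * g + 1)
      | true, false => f (2 * g + 1) * f (2 * g)
      | false, true =>
        piIsoU f g (g - 1) * (f (2 * g - 1) * f (2 * g - 2)) * (piIsoU f g (g - 1))⁻¹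
      | true, true =>
        piIsoU f g (g - 1) * (f (2 * g - 2) * f (2 * g - 1)) * (piIsoU f g (g - 1))⁻¹)
  else
    (match a with
      | false => f (2 * g + 1)
      | true => piIsoU f g (g - 1) * f (2 * g - 2) * (piIsoU f g (g - 1))⁻¹)

theorem piIsoD_zero {M : Type*} [Group M] (f : ℕ → M) (g : ℕ) (b a : Bool) :
    piIsoD f g b a 0 = 1 := by
  rw [piIsoD.eq_def, if_pos rfl]

theorem piIsoD_e {M : Type*} [Group M] (f : ℕ → M) {g m : ℕ} (h : m + 1 ≤ g) (b a : Bool) :
    piIsoD f g b a (m + 1) =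
      (match b, a with
      | false, false => (piIsoU f g m)⁻¹
      | false, true => piIsoU f g m
      | true, false => piIsoL f g m
      | true, true => (piIsoL f g m)⁻¹) := by
  rw [piIsoD.eq_def, if_neg (by omega), if_pos h]
  rfl

theorem piIsoD_g {M : Type*} [Group M] (f : ℕ → M) {g : ℕ} (hg : 3 ≤ g) (b a : Bool) :
    piIsoD f g b a g =
      (match b, a with
      | false, false => (piIsoU f g (g - 1))⁻¹
      | false, true => piIsoU f g (g - 1)
      | true, false => piIsoL f g (g - 1)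
      | true, true => (piIsoL f g (g - 1))⁻¹) := by
  rw [piIsoD.eq_def, if_neg (by omega), if_pos le_rfl]

theorem piIsoD_t1 {M : Type*} [Group M] (f : ℕ → M) (g : ℕ) (b a : Bool) :
    piIsoD f g b a (g + 1) =
      (match b, a with
      | false, false => f (2 * g) * f (2 * g + 1)
      | true, false => f (2 * g + 1) * f (2 * g)
      | false, true =>
        piIsoU f g (g - 1) * (f (2 * g - 1) * f (2 * g - 2)) * (piIsoU f g (g - 1))⁻¹
      | true, true =>
        piIsoU f g (g - 1) * (f (2 * g - 2) * f (2 * g - 1)) * (piIsoU f g (g - 1))⁻¹) := by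
  rw [piIsoD.eq_def, if_neg (by omega), if_neg (by omega), if_pos rfl]

theorem piIsoD_t2 {M : Type*} [Group M] (f : ℕ → M) (g : ℕ) (b a : Bool) :
    piIsoD f g b a (g + 2) =
      (match a with
      | false => f (2 * g + 1)
      | true => piIsoU f g (g - 1) * f (2 * g - 2) * (piIsoU f g (g - 1))⁻¹) := by
  rw [piIsoD.eq_def, if_neg (by omega), if_neg (by omega), if_neg (by omega)]

theorem piIso_zmod {g : ℕ} (i : ZMod (g + 3)) : ∃ n : ℕ, i = (n : ZMod (g + 3)) ∧
    (n = 0 ∨ (∃ m, n = m + 1 ∧ m + 1 ≤ g) ∨ n = g + 1 ∨ n = g + 2) := by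
  refine ⟨i.val, (ZMod.natCast_zmod_val i).symm, ?_⟩
  have h := ZMod.val_lt i
  rcases Nat.eq_zero_or_pos i.val with h0 | h0
  · exact Or.inl h0
  · by_cases h1 : i.val ≤ g
    · exact Or.inr (Or.inl ⟨i.val - 1, by omega, by omega⟩)
    · omega

theorem piIso_yy_sq' {N : ℕ} (k : ℕ) (w : PiA N) : yy N k * (yy N k * w) = w := by
  rw [← mul_assoc, yy_mul_self, one_mul]

theorem piIso_yy_inv {N : ℕ} (k : ℕ) : (yy N k)⁻¹ = yy N k :=
  inv_eq_of_mul_eq_one_right (yy_mul_self k)

theorem piIso_exists_coc {g : ℕ} (hg : 3 ≤ g) : ∃ A : Coc g (PiA (2 * g + 2)), ∀ p n,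
    n < g + 3 → A.F p (ee g n) = piIsoD (yy (2 * g + 2)) g (piIsoB p) (piIsoA p) n := by
  refine (exists_coc (g := g)
    (fun p i => piIsoD (yy (2 * g + 2)) g (piIsoB p) (piIsoA p) i.val) ?_ ?_).imp
      fun A hA p n hn => by rw [ee, hA, piIso_val hn]
  · intro p i
    obtain ⟨n, rfl, h | ⟨m, rfl, hm⟩ | h | h⟩ := piIso_zmod i
    · subst h
      rw [piIso_val (by omega), piIsoD_zero, piIsoD_zero, one_mul]
    · obtain ⟨h1, h2⟩ := piIso_col_e (g := g) (n := m + 1) (by omega) hm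
      rw [piIso_val (by omega), piIsoA_mul, piIsoB_mul, h1, h2, piIsoD_e _ hm, piIsoD_e _ hm]
      cases piIsoA p <;> cases piIsoB p <;> simp
    · obtain ⟨h1, h2⟩ := piIso_col_t (g := g) (n := n) (by omega)
      rw [piIso_val (by omega), piIsoA_mul, piIsoB_mul, h1, h2, h, piIsoD_t1, piIsoD_t1]
      cases piIsoA p <;> cases piIsoB p <;> simp [mul_assoc, piIso_yy_sq', yy_mul_self]
    · obtain ⟨h1, h2⟩ := piIso_col_t (g := g) (n := n) (by omega)
      rw [piIso_val (by omega), piIsoA_mul, piIsoB_mul, h1, h2, h, piIsoD_t2, piIsoD_t2]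
      cases piIsoA p <;> cases piIsoB p <;> simp [mul_assoc, piIso_yy_sq', yy_mul_self]
  · intro p i
    obtain ⟨n, rfl, h⟩ := piIso_zmod i
    have e : ((n : ℕ) : ZMod (g + 3)) + 1 = ((n + 1 : ℕ) : ZMod (g + 3)) := by push_cast; rfl
    rw [e]
    rcases h with h | ⟨m, rfl, hm⟩ | h | h
    · subst h
      rw [piIso_val (by omega), piIso_val (by omega), piIsoD_zero, piIsoD_zero,
        piIsoD_e _ (by omega), piIsoD_e _ (by omega)]
      cases piIsoA (p * colg g ((0 : ℕ) : ZMod (g + 3))) <;>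
        cases piIsoB (p * colg g ((0 : ℕ) : ZMod (g + 3))) <;>
        cases piIsoA (p * colg g ((0 + 1 : ℕ) : ZMod (g + 3))) <;>
        cases piIsoB (p * colg g ((0 + 1 : ℕ) : ZMod (g + 3))) <;> simp [piIsoU, piIsoL]
    · obtain ⟨h1, h2⟩ := piIso_col_e (g := g) (n := m + 1) (by omega) hm
      rcases Nat.lt_or_ge (m + 1) g with hl | hl
      · obtain ⟨h3, h4⟩ := piIso_col_e (g := g) (n := m + 1 + 1) (by omega) hl
        rw [piIso_val (by omega), piIso_val (by omega)]
        simp only [piIsoA_mul, piIsoB_mul, h1, h2, h3, h4, piIsoD_e _ hm, piIsoD_e _ hl]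
        cases piIsoA p <;> cases piIsoB p <;>
          simp [piIsoU, piIsoL, mul_assoc, piIso_yy_sq', yy_mul_self, piIso_yy_inv]
      · obtain rfl : g = m + 1 := by omega
        obtain ⟨h3, h4⟩ := piIso_col_t (g := m + 1) (n := m + 1 + 1) (by omega)
        have h5 := piIso_prod (yy (2 * (m + 1) + 2)) hg
        rw [yy_prod] at h5
        have h6 : piIsoL (yy (2 * (m + 1) + 2)) (m + 1) (m + 1 - 1) =
            (piIsoU (yy (2 * (m + 1) + 2)) (m + 1) (m + 1 - 1) * yy _ (2 * (m + 1) - 2) *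
              yy _ (2 * (m + 1) - 1) * yy _ (2 * (m + 1)) * yy _ (2 * (m + 1) + 1))⁻¹ := by
          rw [eq_inv_iff_mul_eq_one, h5]
          simp only [mul_assoc]
        rw [piIso_val (by omega), piIso_val (by omega)]
        simp only [piIsoA_mul, piIsoB_mul, h1, h2, h3, h4, piIsoD_g _ hg, piIsoD_t1, h6]
        generalize piIsoU (yy (2 * (m + 1) + 2)) (m + 1) (m + 1 - 1) = u
        generalize 2 * (m + 1) - 2 = k1
        generalize 2 * (m + 1) - 1 = k2
        generalize 2 * (m + 1) + 1 = k4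
        cases piIsoA p <;> cases piIsoB p <;>
          simp [mul_assoc, piIso_yy_sq', yy_mul_self, piIso_yy_inv]
    · subst h
      obtain ⟨h1, h2⟩ := piIso_col_t (g := g) (n := g + 1) (by omega)
      obtain ⟨h3, h4⟩ := piIso_col_t (g := g) (n := g + 1 + 1) (by omega)
      rw [piIso_val (by omega), piIso_val (by omega)]
      simp only [piIsoA_mul, piIsoB_mul, h1, h2, h3, h4, piIsoD_t1]
      rw [show g + 1 + 1 = g + 2 from rfl, piIsoD_t2]
      cases piIsoA p <;> cases piIsoB p <;> simp [mul_assoc, piIso_yy_sq', yy_mul_self]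
    · subst h
      have e2 : ((g + 2 + 1 : ℕ) : ZMod (g + 3)) = ((0 : ℕ) : ZMod (g + 3)) := by
        rw [show g + 2 + 1 = g + 3 by omega, ZMod.natCast_self, Nat.cast_zero]
      obtain ⟨h1, h2⟩ := piIso_col_t (g := g) (n := g + 2) (by omega)
      obtain ⟨h3, h4⟩ := piIso_col_t (g := g) (n := 0) (by omega)
      rw [e2, piIso_val (by omega), piIso_val (by omega)]
      simp only [piIsoA_mul, piIsoB_mul, h1, h2, h3, h4, piIsoD_t2, piIsoD_zero]
      cases piIsoA p <;> cases piIsoB p <;> simp [mul_assoc, piIso_yy_sq', yy_mul_self]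

theorem piIso_col_ee (g n : ℕ) : col g (ee g n) = colg g (n : ZMod (g + 3)) := col_sg _

theorem piIso_col_y {g : ℕ} (hg : 3 ≤ g) (k : ℕ) (hk : k < 2 * g + 2) :
    piIsoA (col g (yW g k)) = false ∧ piIsoB (col g (yW g k)) = false := by
  have a0 := piIso_col_t (g := g) (n := 0) (by omega)
  have a1 := piIso_col_t (g := g) (n := g + 1) (by omega)
  have a2 := piIso_col_t (g := g) (n := g + 2) (by omega)
  have a3 := piIso_col_e (g := g) (n := g) (by omega) le_rfl
  rcases piIso_cases hg hk with h | ⟨h, h'⟩ | rfl | rfl | rfl | rfl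
  · have b1 := piIso_col_e (g := g) (n := g - k - 1 + 1) (by omega) (by omega)
    have b2 := piIso_col_e (g := g) (n := g - k - 1) (by omega) (by omega)
    rw [piIso_y1 h]
    simp only [map_mul, piIso_col_ee, piIsoA_mul, piIsoB_mul, a0.1, a0.2, b1.1, b1.2, b2.1, b2.2]
    decide
  · have b1 := piIso_col_e (g := g) (n := k + 2 - g + 1) (by omega) (by omega)
    have b2 := piIso_col_e (g := g) (n := k + 2 - g) (by omega) (by omega)
    rw [piIso_y2 h h']
    simp only [map_mul, piIso_col_ee, piIsoA_mul, piIsoB_mul, b1.1, b1.2, b2.1, b2.2]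
    decide
  · rw [piIso_y3 hg]
    simp only [map_mul, piIso_col_ee, piIsoA_mul, piIsoB_mul, a0.1, a0.2, a2.1, a2.2, a3.1, a3.2]
    decide
  · rw [piIso_y4 hg]
    simp only [map_mul, piIso_col_ee, piIsoA_mul, piIsoB_mul, a1.1, a1.2, a2.1, a2.2, a3.1, a3.2]
    decide
  · rw [piIso_y5 hg]
    simp only [map_mul, piIso_col_ee, piIsoA_mul, piIsoB_mul, a1.1, a1.2, a2.1, a2.2]
    decide
  · rw [piIso_y6 hg]
    simp only [map_mul, piIso_col_ee, piIsoA_mul, piIsoB_mul, a0.1, a0.2, a2.1, a2.2]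
    decide

theorem piIso_F_y {g : ℕ} (hg : 3 ≤ g) (A : Coc g (PiA (2 * g + 2)))
    (hA : ∀ p n, n < g + 3 →
      A.F p (ee g n) = piIsoD (yy (2 * g + 2)) g (piIsoB p) (piIsoA p) n)
    (p : PP) (ha : piIsoA p = false) (hb : piIsoB p = false) (k : ℕ) (hk : k < 2 * g + 2) :
    A.F p (yW g k) = yy _ k := by
  have a0 := piIso_col_t (g := g) (n := 0) (by omega)
  have a1 := piIso_col_t (g := g) (n := g + 1) (by omega)
  have a2 := piIso_col_t (g := g) (n := g + 2) (by omega)
  have a3 := piIso_col_e (g := g) (n := g) (by omega) le_rfl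
  have c0 := fun p => hA p 0 (by omega)
  have c1 := fun p => hA p (g + 1) (by omega)
  have c2 := fun p => hA p (g + 2) (by omega)
  have c3 := fun p => hA p g (by omega)
  rcases piIso_cases hg hk with h | ⟨h, h'⟩ | rfl | rfl | rfl | rfl
  · obtain ⟨m, hm⟩ : ∃ m, g - k - 1 = m + 1 := ⟨g - k - 2, by omega⟩
    have b1 := piIso_col_e (g := g) (n := m + 1 + 1) (by omega) (by omega)
    have d1 := fun p => hA p (m + 1 + 1) (by omega)
    have d2 := fun p => hA p (m + 1) (by omega)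
    rw [piIso_y1 h, hm]
    simp only [A.mul, c0, d1, d2, map_mul, piIso_col_ee, piIsoA_mul, piIsoB_mul, a0.1, a0.2, b1.1,
      b1.2, ha, hb, piIsoD_zero, piIsoD_e _ (show m + 1 ≤ g by omega),
      piIsoD_e _ (show m + 1 + 1 ≤ g by omega)]
    simp [piIsoL, show g - 2 - m = k by omega]
  · obtain ⟨m, hm⟩ : ∃ m, k + 2 - g = m + 1 := ⟨k + 1 - g, by omega⟩
    have b2 := piIso_col_e (g := g) (n := m + 1) (by omega) (by omega)
    have d1 := fun p => hA p (m + 1 + 1) (by omega)
    have d2 := fun p => hA p (m + 1) (by omega)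
    rw [piIso_y2 h h', hm]
    simp only [A.mul, d1, d2, piIso_col_ee, piIsoA_mul, piIsoB_mul, b2.1,
      b2.2, ha, hb, piIsoD_e _ (show m + 1 ≤ g by omega),
      piIsoD_e _ (show m + 1 + 1 ≤ g by omega)]
    simp [piIsoU, show g - 1 + m = k by omega]
  · rw [piIso_y3 hg]
    simp only [A.mul, c0, c2, c3, map_mul, piIso_col_ee, piIsoA_mul, piIsoB_mul, a0.1, a0.2,
      a2.1, a2.2, a3.1, a3.2, ha, hb, piIsoD_zero, piIsoD_g _ hg, piIsoD_t2]
    simp [mul_assoc]
  · rw [piIso_y4 hg]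
    simp only [A.mul, c1, c2, c3, map_mul, piIso_col_ee, piIsoA_mul, piIsoB_mul, a1.1, a1.2,
      a2.1, a2.2, a3.1, a3.2, ha, hb, piIsoD_g _ hg, piIsoD_t2, piIsoD_t1]
    simp [mul_assoc, yy_mul_self]
  · rw [piIso_y5 hg]
    simp only [A.mul, c1, c2, piIso_col_ee, piIsoA_mul, piIsoB_mul,
      a2.1, a2.2, ha, hb, piIsoD_t2, piIsoD_t1]
    simp [piIso_yy_sq']
  · rw [piIso_y6 hg]
    simp only [A.mul, c0, c2, piIso_col_ee, piIsoA_mul, piIsoB_mul, a0.1, a0.2,
      ha, hb, piIsoD_zero, piIsoD_t2]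
    simp

/-- Coset representatives. -/
def piIsoR (g : ℕ) : Bool → Bool → W (g + 3)
  | false, false => 1
  | false, true => ee g 1
  | true, false => ee g 0
  | true, true => ee g 0 * ee g 1

theorem piIso_j_D {g : ℕ} (hg : 3 ≤ g) (j : PiA (2 * g + 2) →* W (g + 3))
    (hj : ∀ k, k < 2 * g + 2 → j (yy _ k) = yW g k) (p : PP) (i : ZMod (g + 3)) :
    j (piIsoD (yy (2 * g + 2)) g (piIsoB p) (piIsoA p) i.val) *
      piIsoR g (piIsoB (p * colg g i)) (piIsoA (p * colg g i)) =
      piIsoR g (piIsoB p) (piIsoA p) * sg i := by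
  have hU : ∀ m, m + 1 ≤ g → j (piIsoU (yy (2 * g + 2)) g m) = ee g 1 * ee g (m + 1) := by
    intro m hm
    rw [← piIso_U_yW hg m hm]
    induction m with
    | zero => simp [piIsoU]
    | succ m ih => rw [piIsoU, piIsoU, map_mul, ih (by omega), hj _ (by omega)]
  have hL : ∀ m, m + 1 ≤ g →
      j (piIsoL (yy (2 * g + 2)) g m) = ee g 0 * ee g (m + 1) * ee g 1 * ee g 0 := by
    intro m hm
    rw [← piIso_L_yW m hm]
    induction m with
    | zero => simp [piIsoL]
    | succ m ih => rw [piIsoL, piIsoL, map_mul, ih (by omega), hj _ (by omega)]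
  have hUg := hU (g - 1) (by omega)
  rw [show g - 1 + 1 = g by omega] at hUg
  have y3 := (hj _ (by omega)).trans (piIso_y3 hg)
  have y4 := (hj _ (by omega)).trans (piIso_y4 hg)
  have y5 := (hj _ (by omega)).trans (piIso_y5 hg)
  have y6 := (hj _ (by omega)).trans (piIso_y6 hg)
  obtain ⟨n, rfl, h | ⟨m, rfl, hm⟩ | h | h⟩ := piIso_zmod i
  · subst h
    obtain ⟨h1, h2⟩ := piIso_col_t (g := g) (n := 0) (by omega)
    rw [piIso_val (by omega), piIsoA_mul, piIsoB_mul, h1, h2, piIsoD_zero]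
    change _ = _ * ee g 0
    cases piIsoA p <;> cases piIsoB p <;>
      simp [piIsoR, mul_assoc, piIso_ee_sq', piIso_ee_sq, piIso_e01']
  · obtain ⟨h1, h2⟩ := piIso_col_e (g := g) (n := m + 1) (by omega) hm
    rw [piIso_val (by omega), piIsoA_mul, piIsoB_mul, h1, h2, piIsoD_e _ hm]
    change _ = _ * ee g (m + 1)
    cases piIsoA p <;> cases piIsoB p <;>
      simp [piIsoR, hU m hm, hL m hm, mul_assoc, piIso_ee_sq', piIso_ee_sq, piIso_ee_inv]
  · subst h
    obtain ⟨h1, h2⟩ := piIso_col_t (g := g) (n := g + 1) (by omega)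
    rw [piIso_val (by omega), piIsoA_mul, piIsoB_mul, h1, h2, piIsoD_t1]
    change _ = _ * ee g (g + 1)
    cases piIsoA p <;> cases piIsoB p <;>
      simp [piIsoR, hUg, y3, y4, y5, y6, mul_assoc, piIso_ee_sq', piIso_ee_sq, piIso_ee_inv,
        piIso_e01, piIso_wrap', piIso_wrap, piIso_t12, piIso_t12']
  · subst h
    obtain ⟨h1, h2⟩ := piIso_col_t (g := g) (n := g + 2) (by omega)
    rw [piIso_val (by omega), piIsoA_mul, piIsoB_mul, h1, h2, piIsoD_t2]
    change _ = _ * ee g (g + 2)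
    cases piIsoA p <;> cases piIsoB p <;>
      simp [piIsoR, hUg, y3, y6, mul_assoc, piIso_ee_sq', piIso_ee_sq, piIso_ee_inv,
        piIso_e01, piIso_wrap]

/-- The presentation of the group of the sphere with cone points. -/
theorem exists_hypIso {g : ℕ} (hg : 3 ≤ g) : ∃ f : PiA (2 * g + 2) ≃* hypG g,
    ∀ k, k < 2 * g + 2 → ((f (yy _ k) : hypG g) : W (g + 3)) = yW g k := by
  obtain ⟨j, hj⟩ := exists_piA_hom (N := 2 * g + 2) (yW g) (piIso_y_sq hg) (piIso_y_prod hg)
  obtain ⟨A, hA⟩ := piIso_exists_coc hg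
  have hm : ∀ w, j w ∈ hypG g := by
    intro w
    induction w using piA_induction with
    | h1 => rw [map_one]; exact one_mem _
    | hs w k hk ih =>
      rw [map_mul, hj k hk]
      exact mul_mem ih ((piIso_mem_hypP _).2 (piIso_col_y hg k hk))
  have hl : ∀ w, A.F 1 (j w) = w := by
    intro w
    induction w using piA_induction with
    | h1 => rw [map_one, A.F_one]
    | hs w k hk ih =>
      obtain ⟨h1, h2⟩ := (piIso_mem_hypP _).1 (hm w)
      rw [map_mul, hj k hk, A.mul, ih, one_mul, piIso_F_y hg A hA _ h1 h2 k hk]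
  have hr : ∀ w, j (A.F 1 w) * piIsoR g (piIsoB (col g w)) (piIsoA (col g w)) = w := by
    intro w
    induction w using cox_induction with
    | h1 =>
      rw [A.F_one, map_one, map_one, one_mul]
      rfl
    | hs w i ih =>
      have h1 := hA (col g w) i.val (ZMod.val_lt i)
      rw [ee, ZMod.natCast_zmod_val] at h1
      rw [A.mul, one_mul, map_mul, map_mul, col_sg, h1, mul_assoc, piIso_j_D hg j hj,
        ← mul_assoc, ih]
  refine ⟨MulEquiv.ofBijective (j.codRestrict (hypG g) hm) ⟨fun a b h => ?_, fun w => ?_⟩,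
    fun k hk => hj k hk⟩
  · have h1 : j a = j b := congrArg Subtype.val h
    rw [← hl a, h1, hl]
  · obtain ⟨h1, h2⟩ := (piIso_mem_hypP _).1 w.2
    refine ⟨A.F 1 w, Subtype.ext ?_⟩
    have h3 := hr w
    rw [h1, h2, piIsoR, mul_one] at h3
    exact h3

end Pool.Agent.Lib.MP_66609f_al
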