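import Pool.Agent.Lib.MP_66609f_al.Per3

/-! Genus two: the abstract setting and the generating set. -/

namespace Pool.Agent.Lib.MP_66609f_al

/-- Free group on three copies of the machine generators. -/
abbrev FT : Type := FreeGroup (Gen × ZMod 3)

/-- The copy `f` of the machine generators. -/
def fam3 (f : ZMod 3) : FreeGroup Gen →* FT := FreeGroup.map fun m => (m, f)

/-- Projection onto one coordinate. -/
def pr3 (c : Bool) : FT →* FT :=
  FreeGroup.lift fun m => if m.1.crd = c then FreeGroup.of m else 1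

/-- Cyclic shift of the copies. -/
def sh3 (i : ZMod 3) : FT →* FT := FreeGroup.map fun m => (m.1, m.2 + i)

/-- The abstract hypotheses. -/
structure Setup2 (G : Type*) [Group G] where
  T : G
  κ : G
  gn : Gen × ZMod 3 → G
  Θ : G → ℕ
  H : G → Prop
  κ3 : κ ^ 3 = 1
  κT : Commute κ T
  T_gn : ∀ m, Commute T (gn m)
  κ_gn : ∀ m f, κ * gn (m, f) * κ⁻¹ = gn (m, f + 1)
  comm : ∀ m m' : Gen × ZMod 3, m.1.crd = false → m'.1.crd = true → Commute (gn m) (gn m')
  det : ∀ w : FT, FreeGroup.lift gn w = 1 → ∀ c, pr3 c w = 1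
  detκ : ∀ w : FT, FreeGroup.lift gn w ≠ κ
  th0 : ∃ C : ℕ, ∀ k : ℤ, 4 * k.natAbs ≤ Θ (T ^ k) + C
  th1 : ∀ s, ∃ C : ℕ, ∀ g, Θ (s * g) ≤ Θ g + C
  th2 : ∃ C : ℕ, ∀ (j : ℤ) (w : FT) g, H g →
    Θ (T ^ j * FreeGroup.lift gn w * g) ≤ Θ g + 4 * j.natAbs + C
  th3 : ∃ C : ℕ, ∀ (j : ℤ) g, ¬ H g → Θ (T ^ j * g) ≤ Θ g + C
  H_one : H 1
  H_T : ∀ g, H (T * g) ↔ H g
  H_gn : ∀ m g, H (gn m * g) ↔ H g
  H_κ : ∀ g, H (κ * g) ↔ H g

/-- Descriptions of letters. -/
inductive Let2 (G : Type*) : Type _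
  | zero (s : G)
  | one (neg : Bool) (f : ZMod 3) (e : Ed) (j : ℕ)
  | two (j : ℤ) (i : ZMod 3)

def Let2.IsOne {G : Type*} : Let2 G → Prop
  | .one _ _ _ _ => True
  | _ => False

def Let2.IsZero {G : Type*} : Let2 G → Prop
  | .zero _ => True
  | _ => False

/-- The exponent of `T` in a letter. -/
def Let2.jz {G : Type*} : Let2 G → ℤ
  | .zero _ => 0
  | .one false _ _ j => j
  | .one true _ _ j => -(j : ℤ)
  | .two j _ => j

namespace Setup2

variable {G : Type*} [Group G] (S : Setup2 G)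

/-- Evaluation of words. -/
def ev : FT →* G := FreeGroup.lift S.gn

def value : Let2 G → G
  | .zero s => s
  | .one false f e j => S.T ^ (j : ℤ) * S.ev (fam3 f e.val)
  | .one true f e j => S.T ^ (-(j : ℤ)) * (S.ev (fam3 f e.val))⁻¹
  | .two j i => S.T ^ j * S.κ ^ i.val

/-- The finite data on which the generating set depends. -/
structure Data where
  L0 : Set G
  L0_fin : L0.Finite
  L0_left : ∀ s ∈ L0, S.κ * s ∈ L0
  L0_right : ∀ s ∈ L0, s * S.κ ∈ L0
  L0_inv : ∀ s ∈ L0, s⁻¹ ∈ L0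

variable {S}

def Data.Valid (D : S.Data) (v : ℕ) : Let2 G → Prop
  | .zero s => s ∈ D.L0
  | .one _ _ e j => j + e.pen ≤ v
  | .two j _ => j.natAbs + 2 ≤ v

/-- The generating set. -/
def Data.gens (D : S.Data) (v : ℕ) : Set G := {x | ∃ a, D.Valid v a ∧ S.value a = x}

/-- Products of at most `n` letters. -/
def Data.setB (D : S.Data) (v n : ℕ) : Set G :=
  {g | ∃ l : List (Let2 G), l.length ≤ n ∧ (∀ a ∈ l, D.Valid v a) ∧ (l.map S.value).prod = g}

/-- Products of at most `n` letters, one of which is not of type one. -/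
def Data.setA (D : S.Data) (v n : ℕ) : Set G :=
  {g | ∃ l : List (Let2 G), l.length ≤ n ∧ (∀ a ∈ l, D.Valid v a) ∧ (∃ a ∈ l, ¬ a.IsOne) ∧
    (l.map S.value).prod = g}

/-- Words of small deficiency have no letter of type zero. -/
def Data.Shape (D : S.Data) (v : ℕ) : Prop :=
  ∀ (l : List (Let2 G)) (k : ℤ), (∀ a ∈ l, D.Valid v a) → (l.map S.value).prod = S.T ^ k →
    (l.length : ℤ) * v - 4 ≤ |k| → ∀ a ∈ l, ¬ a.IsZero

end Setup2

end Pool.Agent.Lib.MP_66609f_al
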