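import Pool.Agent.Lib.MP_66609f_al.TwDefs
import Pool.Agent.Lib.MP_66609f_al.CoxCent
import Pool.Agent.Lib.MP_66609f_al.HalfCmp

/-! The twisting function: definitions. -/

namespace Pool.Agent.Lib.MP_66609f_al

variable {g : ℕ}

/-- The attracting ends of `b` and `b'` have positions at most `d` apart along `a`. -/
def Near (hg : 3 ≤ g) (a b b' : W (g + 3)) (d : ℕ) : Prop :=
  ∃ A, (coxHS (g + 3) (five_le hg)).Skew a A ∧ ∃ z ∈ piG g, ∃ z' ∈ piG g,
    ∀ᶠ N : ℕ in Filter.atTop, |pos a A (b ^ N * z) - pos a A (b' ^ N * z')| ≤ d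

/-- Conjugates of powers of `c`. -/
def IsParal (g : ℕ) (a : W (g + 3)) : Prop := ∃ (w : W (g + 3)) (m : ℤ), a = w * cc g ^ m * w⁻¹

open Classical in
/-- The automorphism `φ` extended by `1` outside the surface group. -/
noncomputable def ap (φ : MulAut (piG g)) (w : W (g + 3)) : W (g + 3) :=
  if h : w ∈ piG g then (φ ⟨w, h⟩ : piG g) else 1

def bb' (g : ℕ) : W (g + 3) := ee g 1 * ee g 3

def bb (g : ℕ) : W (g + 3) := t2 g * bb' g * t2 g

/-- Conjugation by the last mirror. -/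
def eg (g : ℕ) (w : W (g + 3)) : W (g + 3) := ee g g * w * ee g g

def ThetaLe (hg : 3 ≤ g) (φ : MulAut (piG g)) (d : ℕ) : Prop :=
  ∃ d1 d2, d = d1 + d2 ∧ Near hg (ap φ (cc g)) (ap φ (bb g)) (ap φ (bb' g)) d1 ∧
    Near hg (ap φ (eg g (cc g))) (ap φ (eg g (bb g))) (ap φ (eg g (bb' g))) d2

/-- The twisting function on `Out`. -/
noncomputable def ThetaO (hg : 3 ≤ g) (x : Out (piG g)) : ℕ :=
  sInf {d | ∃ φ, oc g φ = x ∧ ThetaLe hg φ d}

/-- Both curves are sent to curves parallel to `c`. -/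
def HO (g : ℕ) (x : Out (piG g)) : Prop :=
  ∃ φ, oc g φ = x ∧ IsParal g (ap φ (cc g)) ∧ IsParal g (ap φ (eg g (cc g)))

/-- Automorphisms preserving the sides of the wall `t1` and fixing both curves. -/
def SFix (g : ℕ) (φ : MulAut (piG g)) : Prop :=
  (∀ γ : piG g, side (t1 g) (φ γ : piG g) = side (t1 g) (γ : W (g + 3))) ∧
    ap φ (cc g) = cc g ∧ ap φ (eg g (cc g)) = eg g (cc g)

end Pool.Agent.Lib.MP_66609f_al
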