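import Pool.Agent.Lib.MP_66609f_al.ColFacts2

namespace Pool.Agent.Lib.MP_66609f_al

open Pointwise

variable {g : ℕ}

theorem thLow_cast_ne {a b : ℕ} (ha : a < g + 3) (hb : b < g + 3) (hab : a ≠ b) :
    ((a : ℕ) : ZMod (g + 3)) ≠ ((b : ℕ) : ZMod (g + 3)) := by
  intro h
  rw [ZMod.natCast_eq_natCast_iff', Nat.mod_eq_of_lt ha, Nat.mod_eq_of_lt hb] at h
  exact hab h

theorem thLow_sg_refl {n : ℕ} (i : ZMod n) : IsReflOf i (sg i) := ⟨1, by simp⟩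

theorem thLow_sg_ne {n : ℕ} {i j : ZMod n} (h : i ≠ j) : (sg i : W n) ≠ sg j := by
  intro e
  apply h
  exact isReflOf_unique (thLow_sg_refl i) (e ▸ thLow_sg_refl j)

theorem thLow_side_sg_ne {n : ℕ} {i j : ZMod n} (h : i ≠ j) : side (sg i : W n) (sg j) = false := by
  have h1 := side_sg (sg i : W n) j
  have h2 := thLow_sg_ne h
  cases hs : side (sg i : W n) (sg j)
  · rfl
  · exact absurd (h1.1 hs) h2

theorem thLow_ee_comm (a : ℕ) : Commute (ee g a) (ee g (a + 1)) := by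
  have := sg_comm ((a : ℕ) : ZMod (g + 3))
  unfold ee
  rw [Nat.cast_add, Nat.cast_one]
  exact this

theorem thLow_ee_inv (a : ℕ) : (ee g a)⁻¹ = ee g a := sg_inv _

theorem thLow_ee_mul_self (a : ℕ) : ee g a * ee g a = 1 := sg_mul_self _

theorem thLow_ee_top : ee g (g + 2 + 1) = ee g 0 := by
  unfold ee
  congr 1
  have : ((g + 3 : ℕ) : ZMod (g + 3)) = 0 := ZMod.natCast_self _
  rw [Nat.cast_zero]
  exact this

theorem thLow_t2_t1 : Commute (t2 g) (t1 g) := (thLow_ee_comm (g + 1)).symm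

theorem thLow_t2_t3 : Commute (t2 g) (t3 g) := by
  have := thLow_ee_comm (g := g) (g + 2)
  rw [thLow_ee_top] at this
  exact this

theorem thLow_t2_cc : Commute (t2 g) (cc g) := thLow_t2_t1.mul_right thLow_t2_t3

theorem thLow_skew_cc (hg : 3 ≤ g) :
    (coxHS (g + 3) (five_le hg)).Skew (cc g) (half (t1 g) true) := by
  have h := ut_skew (five_le hg) ((g + 2 : ℕ) : ZMod (g + 3))
  rw [← cc_eq_ut] at h
  have e : ((g + 2 : ℕ) : ZMod (g + 3)) - 1 = ((g + 1 : ℕ) : ZMod (g + 3)) := by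
    push_cast
    ring
  rw [e] at h
  exact h

theorem thLow_skew_bb' (hg : 3 ≤ g) :
    (coxHS (g + 3) (five_le hg)).Skew (bb' g) (half (ee g 1) true) := by
  have h := ut_skew (five_le hg) ((2 : ℕ) : ZMod (g + 3))
  have e1 : ((2 : ℕ) : ZMod (g + 3)) - 1 = ((1 : ℕ) : ZMod (g + 3)) := by
    push_cast
    ring
  have e2 : ((2 : ℕ) : ZMod (g + 3)) + 1 = ((3 : ℕ) : ZMod (g + 3)) := by
    push_cast
    ring
  unfold ut at h
  rw [e1, e2] at h
  exact h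

theorem thLow_not_t1 (hg : 3 ≤ g) (w : W (g + 3)) (hw : side (ee g 1) w = true) :
    side (t1 g) w = false := by
  have h0 : ((1 : ℕ) : ZMod (g + 3)) ≠ ((g + 1 : ℕ) : ZMod (g + 3)) :=
    thLow_cast_ne (by omega) (by omega) (by omega)
  have h1 : ((1 : ℕ) : ZMod (g + 3)) ≠ ((g + 1 : ℕ) : ZMod (g + 3)) + 1 := by
    have e : ((g + 1 : ℕ) : ZMod (g + 3)) + 1 = ((g + 2 : ℕ) : ZMod (g + 3)) := by
      push_cast
      ring
    rw [e]
    exact thLow_cast_ne (by omega) (by omega) (by omega)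
  have h2 : ((g + 1 : ℕ) : ZMod (g + 3)) ≠ ((1 : ℕ) : ZMod (g + 3)) + 1 := by
    have e : ((1 : ℕ) : ZMod (g + 3)) + 1 = ((2 : ℕ) : ZMod (g + 3)) := by
      push_cast
      ring
    rw [e]
    exact thLow_cast_ne (by omega) (by omega) (by omega)
  have h := not_side_side h0 h1 h2 w
  cases hs : side (t1 g) w
  · rfl
  · exact absurd ⟨hw, hs⟩ h

/-- On the far side of `e₁` the position along `c` is `-1`. -/
theorem thLow_pos_e1 (hg : 3 ≤ g) (w : W (g + 3)) (hw : side (ee g 1) w = true) :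
    pos (cc g) (half (t1 g) true) w = -1 := by
  have hS := thLow_skew_cc hg
  have hI := coxHS_inv (five_le hg)
  have h0 : ¬ (0 : ℤ) ≤ pos (cc g) (half (t1 g) true) w := by
    rw [← HS.mem_iff_le_pos _ hI hS, zpow_zero, one_smul]
    change ¬ side (t1 g) w = true
    rw [thLow_not_t1 hg w hw]
    simp
  have h1 : (-1 : ℤ) ≤ pos (cc g) (half (t1 g) true) w := by
    rw [← HS.mem_iff_le_pos _ hI hS, zpow_neg_one, Set.mem_inv_smul_set_iff]
    change side (t1 g) (t1 g * t3 g * w) = true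
    have hr : IsRefl (t1 g) := ⟨_, thLow_sg_refl _⟩
    rw [mul_assoc, side_refl_mul hr]
    have h3 : side (ee g 1) (t3 g * w) = true := by
      rw [side_mul]
      have hc : Commute (t3 g) (ee g 1) := thLow_ee_comm (g := g) 0
      have e : (t3 g)⁻¹ * ee g 1 * t3 g = ee g 1 := by
        rw [mul_assoc, ← hc.eq, inv_mul_cancel_left]
      have hne : side (ee g 1) (t3 g) = false :=
        thLow_side_sg_ne (thLow_cast_ne (by omega) (by omega) (by omega))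
      rw [e, hw, hne]
      rfl
    rw [thLow_not_t1 hg _ h3]
    rfl
  omega

theorem thLow_pos_t2 (w : W (g + 3)) :
    pos (cc g) (half (t1 g) true) (t2 g * w) = pos (cc g) (half (t1 g) true) w := by
  have h := HS.pos_conj (cc g) (half (t1 g) true) (t2 g) w
  have e1 : t2 g * cc g * (t2 g)⁻¹ = cc g := by
    rw [thLow_t2_cc.eq, mul_inv_cancel_right]
  have e2 : t2 g * t1 g * (t2 g)⁻¹ = t1 g := by
    rw [thLow_t2_t1.eq, mul_inv_cancel_right]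
  have hne : side (t1 g) (t2 g) = false :=
    thLow_side_sg_ne (thLow_cast_ne (by omega) (by omega) (by omega))
  rw [e1, smul_half, e2, hne] at h
  exact h

theorem thLow_ev_bb' (hg : 3 ≤ g) (z : W (g + 3)) : ∀ᶠ N : ℕ in Filter.atTop,
    pos (cc g) (half (t1 g) true) (bb' g ^ N * z) = -1 := by
  filter_upwards [HS.eventually_mem _ (coxHS_inv (five_le hg)) (thLow_skew_bb' hg) z] with N hN
  exact thLow_pos_e1 hg _ hN

theorem thLow_conj_pow (v b z : W (g + 3)) (N : ℕ) :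
    (v * b * v⁻¹) ^ N * z = v * (b ^ N * (v⁻¹ * z)) := by
  rw [conj_pow]
  simp only [mul_assoc]

theorem thLow_ev_bb (hg : 3 ≤ g) (z : W (g + 3)) : ∀ᶠ N : ℕ in Filter.atTop,
    pos (cc g) (half (t1 g) true) (bb g ^ N * z) = -1 := by
  filter_upwards [thLow_ev_bb' hg ((t2 g)⁻¹ * z)] with N hN
  have e : bb g = t2 g * bb' g * (t2 g)⁻¹ := by
    have : (t2 g)⁻¹ = t2 g := thLow_ee_inv _
    rw [this]
    rfl
  rw [e, thLow_conj_pow, thLow_pos_t2, hN]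

/-- The ends of `bb` and `bb'` have bounded position along `c`, for every base point. -/
theorem pos_bb_bound (hg : 3 ≤ g) : ∃ C : ℕ, ∀ z : W (g + 3), ∀ᶠ N : ℕ in Filter.atTop,
    |pos (cc g) (half (t1 g) true) (bb g ^ N * z)| ≤ C ∧
      |pos (cc g) (half (t1 g) true) (bb' g ^ N * z)| ≤ C := by
  refine ⟨1, fun z => ?_⟩
  filter_upwards [thLow_ev_bb hg z, thLow_ev_bb' hg z] with N h1 h2
  rw [h1, h2]
  simp

theorem thLow_eg_eq (w : W (g + 3)) : eg g w = ee g g * w * (ee g g)⁻¹ := by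
  rw [thLow_ee_inv]
  rfl

theorem thLow_ap_one (w : W (g + 3)) (hw : w ∈ piG g) : ap (1 : MulAut (piG g)) w = w := by
  unfold ap
  rw [dif_pos hw]
  rfl

theorem thetaLe_one (hg : 3 ≤ g) : ∃ d, ThetaLe hg 1 d := by
  refine ⟨0, 0, 0, rfl, ?_, ?_⟩
  · rw [thLow_ap_one _ (cc_mem_piG hg), thLow_ap_one _ (bb_mem hg), thLow_ap_one _ (bb'_mem hg)]
    refine ⟨_, thLow_skew_cc hg, 1, one_mem _, 1, one_mem _, ?_⟩
    filter_upwards [thLow_ev_bb hg 1, thLow_ev_bb' hg 1] with N h1 h2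
    rw [h1, h2]
    simp
  · rw [thLow_ap_one _ (eg_mem _ (cc_mem_piG hg)), thLow_ap_one _ (eg_mem _ (bb_mem hg)),
      thLow_ap_one _ (eg_mem _ (bb'_mem hg)), thLow_eg_eq, thLow_eg_eq, thLow_eg_eq]
    refine ⟨_, HS.skew_conj _ (coxHS_inv (five_le hg)) (thLow_skew_cc hg) (ee g g), 1, one_mem _,
      1, one_mem _, ?_⟩
    filter_upwards [thLow_ev_bb hg ((ee g g)⁻¹ * 1), thLow_ev_bb' hg ((ee g g)⁻¹ * 1)] with N h1 h2
    rw [thLow_conj_pow, thLow_conj_pow, ← smul_eq_mul (ee g g) (bb g ^ N * _),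
      ← smul_eq_mul (ee g g) (bb' g ^ N * _), HS.pos_conj, HS.pos_conj, h1, h2]
    simp

/-- The twisting of `c^m bb c^(-m)` against `bb'` along `c` is at least `|m|` up to a constant. -/
theorem thLow_key (hg : 3 ≤ g) : ∃ C : ℕ, ∀ (m : ℤ) (d : ℕ) (A : Set (W (g + 3))),
    (coxHS (g + 3) (five_le hg)).Skew (cc g) A → ∀ z z' : W (g + 3),
    (∀ᶠ N : ℕ in Filter.atTop, |pos (cc g) A ((cc g ^ m * bb g * (cc g ^ m)⁻¹) ^ N * z) -
      pos (cc g) A (bb' g ^ N * z')| ≤ d) → m.natAbs ≤ d + C := by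
  have hI := coxHS_inv (five_le hg)
  obtain ⟨C, hC⟩ := HS.cmp_id _ hI
  refine ⟨C, fun m d A hA z z' h => ?_⟩
  obtain ⟨lo, hlo⟩ := hC _ _ _ (thLow_skew_cc hg) hA
  obtain ⟨N, h1, h2, h3⟩ :=
    (h.and ((thLow_ev_bb hg ((cc g ^ m)⁻¹ * z)).and (thLow_ev_bb' hg z'))).exists
  have h4 := hlo ((cc g ^ m * bb g * (cc g ^ m)⁻¹) ^ N * z)
  have h5 := hlo (bb' g ^ N * z')
  have h6 : pos (cc g) (half (t1 g) true) ((cc g ^ m * bb g * (cc g ^ m)⁻¹) ^ N * z) = -1 + m := by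
    rw [thLow_conj_pow, ← smul_eq_mul (cc g ^ m), HS.pos_zpow_smul _ hI (thLow_skew_cc hg), h2]
  rw [h6] at h4
  rw [h3] at h5
  rw [abs_le] at h1
  omega

theorem thLow_mem_WJ {a : ℕ} (ha : a < g + 2) :
    ee g a ∈ WJ ({((g + 2 : ℕ) : ZMod (g + 3))}ᶜ : Set (ZMod (g + 3))) :=
  Subgroup.subset_closure ⟨_, thLow_cast_ne (by omega) (by omega) (by omega), rfl⟩

theorem thLow_natAbs_chi (p : PP) (k : ℤ) : (kapT 1 p * k).natAbs = k.natAbs := by
  unfold kapT chi sgn2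
  split_ifs <;> simp

theorem thLow_F_bb (hg : 3 ≤ g) (k : ℤ) (p : PP) :
    ((twT hg ^ k : (Tw g)ˣ) : Tw g).F p (bb g) =
      cc g ^ (kapT 1 p * k) * bb g * (cc g ^ (kapT 1 p * k))⁻¹ := by
  have hT := IsTwist.zpow hg (twT_spec hg) (twOK_T hg) k
  have hb' : bb' g ∈ WJ ({((g + 2 : ℕ) : ZMod (g + 3))}ᶜ : Set (ZMod (g + 3))) :=
    mul_mem (thLow_mem_WJ (by omega)) (thLow_mem_WJ (by omega))
  have hcol : col g (bb' g) = 1 := bb'_mem hg
  have hcol2 : col g (t2 g) = colg g ((g + 2 : ℕ) : ZMod (g + 3)) := col_sg _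
  have hF : ∀ q, ((twT hg ^ k : (Tw g)ˣ) : Tw g).F q (t2 g) = cc g ^ (kapT 1 q * k) * t2 g := by
    intro q
    rw [cc_eq_ut]
    exact hT.1 q
  have hneg := ((twOK_T hg).1 p).2.1
  unfold bb
  rw [Tw.mul, Tw.mul, map_mul, hcol, mul_one, hcol2, hF, hF, hT.fix _ _ hb', hneg, neg_mul,
    zpow_neg]
  have hc : Commute (t2 g) (cc g ^ (kapT 1 p * k))⁻¹ := (thLow_t2_cc.zpow_right _).inv_right
  simp only [mul_assoc]
  rw [← hc.eq]

theorem thLow_F_eg (hg : 3 ≤ g) (k : ℤ) (w : W (g + 3)) :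
    ((twT hg ^ k : (Tw g)ˣ) : Tw g).F 1 (eg g w) =
      eg g (((twT hg ^ k : (Tw g)ˣ) : Tw g).F (col g (ee g g)) w) := by
  have hT := IsTwist.zpow hg (twT_spec hg) (twOK_T hg) k
  have he : ee g g ∈ WJ ({((g + 2 : ℕ) : ZMod (g + 3))}ᶜ : Set (ZMod (g + 3))) :=
    thLow_mem_WJ (by omega)
  unfold eg
  rw [Tw.mul, Tw.mul, hT.fix _ _ he, hT.fix _ _ he, one_mul]

theorem thLow_ap_T (hg : 3 ≤ g) (k : ℤ) (w : W (g + 3)) (hw : w ∈ piG g) :
    ap (autT hg ^ k) w = ((twT hg ^ k : (Tw g)ˣ) : Tw g).F 1 w := by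
  unfold ap autT
  rw [dif_pos hw, ← map_zpow, Tw.res_apply]

theorem thetaLe_T (hg : 3 ≤ g) : ∃ C : ℕ, ∀ (k : ℤ) (d : ℕ), ThetaLe hg (autT hg ^ k) d →
    2 * k.natAbs ≤ d + C := by
  obtain ⟨C, hC⟩ := thLow_key hg
  have hI := coxHS_inv (five_le hg)
  refine ⟨2 * C, fun k d h => ?_⟩
  obtain ⟨d1, d2, rfl, h1, h2⟩ := h
  have hT := IsTwist.zpow hg (twT_spec hg) (twOK_T hg) k
  have hb' : bb' g ∈ WJ ({((g + 2 : ℕ) : ZMod (g + 3))}ᶜ : Set (ZMod (g + 3))) :=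
    mul_mem (thLow_mem_WJ (by omega)) (thLow_mem_WJ (by omega))
  have hc : cc g ∈ WJ ({((g + 2 : ℕ) : ZMod (g + 3))}ᶜ : Set (ZMod (g + 3))) :=
    mul_mem (thLow_mem_WJ (by omega)) (thLow_mem_WJ (by omega))
  rw [thLow_ap_T hg k _ (cc_mem_piG hg), thLow_ap_T hg k _ (bb_mem hg),
    thLow_ap_T hg k _ (bb'_mem hg), hT.fix _ _ hc, hT.fix _ _ hb', thLow_F_bb] at h1
  rw [thLow_ap_T hg k _ (eg_mem _ (cc_mem_piG hg)), thLow_ap_T hg k _ (eg_mem _ (bb_mem hg)),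
    thLow_ap_T hg k _ (eg_mem _ (bb'_mem hg)), thLow_F_eg, thLow_F_eg, thLow_F_eg,
    hT.fix _ _ hc, hT.fix _ _ hb', thLow_F_bb, thLow_eg_eq, thLow_eg_eq, thLow_eg_eq] at h2
  obtain ⟨A1, hA1, z1, -, z1', -, h1⟩ := h1
  obtain ⟨A2, hA2, z2, -, z2', -, h2⟩ := h2
  have k1 := hC _ _ _ hA1 _ _ h1
  have hA2' := HS.skew_conj _ hI hA2 (ee g g)⁻¹
  have e : (ee g g)⁻¹ * (ee g g * cc g * (ee g g)⁻¹) * (ee g g)⁻¹⁻¹ = cc g := by group
  rw [e] at hA2'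
  have hp : ∀ x : W (g + 3), pos (ee g g * cc g * (ee g g)⁻¹) A2 (ee g g * x) =
      pos (cc g) ((ee g g)⁻¹ • A2) x := by
    intro x
    have := HS.pos_conj (cc g) ((ee g g)⁻¹ • A2) (ee g g) x
    rw [smul_inv_smul] at this
    exact this
  have k2 := hC (kapT 1 (col g (ee g g)) * k) d2 _ hA2' ((ee g g)⁻¹ * z2) ((ee g g)⁻¹ * z2') (by
    filter_upwards [h2] with N hN
    rw [thLow_conj_pow, thLow_conj_pow (ee g g), hp, hp] at hN
    exact hN)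
  rw [thLow_natAbs_chi] at k1 k2
  omega

end Pool.Agent.Lib.MP_66609f_al
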