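import Pool.Agent.Lib.MP_66609f_al.ThNear
import Pool.Agent.Lib.MP_66609f_al.ThLow
import Pool.Agent.Lib.MP_66609f_al.FixNF

namespace Pool.Agent.Lib.MP_66609f_al

variable {g : ℕ}

theorem thMain_ap_mem (φ : MulAut (piG g)) {w : W (g + 3)} (hw : w ∈ piG g) :
    ap φ w = (φ ⟨w, hw⟩ : piG g) := by
  unfold ap
  rw [dif_pos hw]

theorem thMain_ap_mul (ψ φ : MulAut (piG g)) {w : W (g + 3)} (hw : w ∈ piG g) :
    ap (ψ * φ) w = (ψ (φ ⟨w, hw⟩) : piG g) := by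
  rw [thMain_ap_mem _ hw, MulAut.mul_apply]

theorem thMain_cj_apply (v : W (g + 3)) (γ : piG g) :
    ((cj g v γ : piG g) : W (g + 3)) = v * γ * v⁻¹ := by
  unfold cj
  rw [MulAut.conjNormal_apply]

theorem thMain_ap_cj (v : W (g + 3)) (φ : MulAut (piG g)) {w : W (g + 3)} (hw : w ∈ piG g) :
    ap (cj g v * φ) w = v * ap φ w * v⁻¹ := by
  rw [thMain_ap_mul _ _ hw, thMain_cj_apply, thMain_ap_mem _ hw]

theorem thMain_paral_conj (v a : W (g + 3)) (h : IsParal g a) : IsParal g (v * a * v⁻¹) := by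
  obtain ⟨w, m, rfl⟩ := h
  exact ⟨v * w, m, by group⟩

theorem thMain_thetaLe_cj (hg : 3 ≤ g) (v : W (g + 3)) (hv : v ∈ piG g) (φ : MulAut (piG g))
    (d : ℕ) (h : ThetaLe hg φ d) : ThetaLe hg (cj g v * φ) d := by
  obtain ⟨d1, d2, rfl, h1, h2⟩ := h
  refine ⟨d1, d2, rfl, ?_, ?_⟩
  · rw [thMain_ap_cj _ _ (cc_mem_piG hg), thMain_ap_cj _ _ (bb_mem hg),
      thMain_ap_cj _ _ (bb'_mem hg)]
    exact near_conj hg v hv _ _ _ _ h1
  · rw [thMain_ap_cj _ _ (eg_mem _ (cc_mem_piG hg)), thMain_ap_cj _ _ (eg_mem _ (bb_mem hg)),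
      thMain_ap_cj _ _ (eg_mem _ (bb'_mem hg))]
    exact near_conj hg v hv _ _ _ _ h2

/-- A general transfer lemma: how `ThetaLe` changes under left multiplication. -/
theorem thMain_thetaLe_mul (hg : 3 ≤ g) (ψ φ : MulAut (piG g)) (d e1 e2 : ℕ)
    (h1 : ∀ (b b' : piG g) (d : ℕ),
      Near hg (φ ⟨_, cc_mem_piG hg⟩ : piG g) b b' d →
        Near hg (ψ (φ ⟨_, cc_mem_piG hg⟩) : piG g) (ψ b : piG g) (ψ b' : piG g) (d + e1))
    (h2 : ∀ (b b' : piG g) (d : ℕ),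
      Near hg (φ ⟨_, eg_mem _ (cc_mem_piG hg)⟩ : piG g) b b' d →
        Near hg (ψ (φ ⟨_, eg_mem _ (cc_mem_piG hg)⟩) : piG g) (ψ b : piG g) (ψ b' : piG g)
          (d + e2))
    (h : ThetaLe hg φ d) : ThetaLe hg (ψ * φ) (d + (e1 + e2)) := by
  obtain ⟨d1, d2, rfl, k1, k2⟩ := h
  refine ⟨d1 + e1, d2 + e2, by ring, ?_, ?_⟩
  · rw [thMain_ap_mul _ _ (cc_mem_piG hg), thMain_ap_mul _ _ (bb_mem hg),
      thMain_ap_mul _ _ (bb'_mem hg)]
    rw [thMain_ap_mem _ (cc_mem_piG hg), thMain_ap_mem _ (bb_mem hg),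
      thMain_ap_mem _ (bb'_mem hg)] at k1
    exact h1 _ _ _ k1
  · rw [thMain_ap_mul _ _ (eg_mem _ (cc_mem_piG hg)), thMain_ap_mul _ _ (eg_mem _ (bb_mem hg)),
      thMain_ap_mul _ _ (eg_mem _ (bb'_mem hg))]
    rw [thMain_ap_mem _ (eg_mem _ (cc_mem_piG hg)), thMain_ap_mem _ (eg_mem _ (bb_mem hg)),
      thMain_ap_mem _ (eg_mem _ (bb'_mem hg))] at k2
    exact h2 _ _ _ k2

theorem thMain_exists_thetaLe (hg : 3 ≤ g) (φ : MulAut (piG g)) : ∃ d, ThetaLe hg φ d := by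
  obtain ⟨d, hd⟩ := thetaLe_one hg
  obtain ⟨C, hC⟩ := near_aut hg φ
  have h := thMain_thetaLe_mul hg φ 1 d C C (fun b b' d h => hC _ b b' d h)
    (fun b b' d h => hC _ b b' d h) hd
  rw [mul_one] at h
  exact ⟨_, h⟩

theorem thMain_exists_lift (x : Out (piG g)) : ∃ φ, oc g φ = x :=
  QuotientGroup.mk'_surjective _ x

theorem thMain_exists_min (hg : 3 ≤ g) (x : Out (piG g)) :
    ∃ φ, oc g φ = x ∧ ThetaLe hg φ (ThetaO hg x) := by
  obtain ⟨φ, hφ⟩ := thMain_exists_lift x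
  obtain ⟨d, hd⟩ := thMain_exists_thetaLe hg φ
  have hne : ({d | ∃ φ, oc g φ = x ∧ ThetaLe hg φ d} : Set ℕ).Nonempty := ⟨d, φ, hφ, hd⟩
  exact Nat.sInf_mem hne

theorem thMain_le (hg : 3 ≤ g) (φ : MulAut (piG g)) (d : ℕ) (h : ThetaLe hg φ d) :
    ThetaO hg (oc g φ) ≤ d :=
  Nat.sInf_le ⟨φ, rfl, h⟩

/-- `HO` can be read on every lift. -/
theorem thMain_HO_lift (hg : 3 ≤ g) (φ : MulAut (piG g)) (h : HO g (oc g φ)) :
    IsParal g (ap φ (cc g)) ∧ IsParal g (ap φ (eg g (cc g))) := by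
  obtain ⟨ψ, hψ, h1, h2⟩ := h
  obtain ⟨v, -, rfl⟩ := (oc_eq_iff φ ψ).1 hψ.symm
  rw [thMain_ap_cj _ _ (cc_mem_piG hg), thMain_ap_cj _ _ (eg_mem _ (cc_mem_piG hg))]
  exact ⟨thMain_paral_conj _ _ h1, thMain_paral_conj _ _ h2⟩

theorem theta0 (hg : 3 ≤ g) : ∃ C : ℕ, ∀ k : ℤ, 2 * k.natAbs ≤ ThetaO hg (TO hg ^ k) + C := by
  obtain ⟨C, hC⟩ := thetaLe_T hg
  refine ⟨C, fun k => ?_⟩
  obtain ⟨φ, hφ, hd⟩ := thMain_exists_min hg (TO hg ^ k)
  have h1 : oc g (autT hg ^ k) = oc g φ := by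
    rw [hφ, map_zpow]
    rfl
  obtain ⟨v, hv, h2⟩ := (oc_eq_iff _ _).1 h1
  apply hC
  rw [h2]
  exact thMain_thetaLe_cj hg v hv φ _ hd

theorem theta1 (hg : 3 ≤ g) (s : Out (piG g)) :
    ∃ C : ℕ, ∀ x, ThetaO hg (s * x) ≤ ThetaO hg x + C := by
  obtain ⟨ψ, rfl⟩ := thMain_exists_lift s
  obtain ⟨C, hC⟩ := near_aut hg ψ
  refine ⟨C + C, fun x => ?_⟩
  obtain ⟨φ, hφ, hd⟩ := thMain_exists_min hg x
  have h := thMain_thetaLe_mul hg ψ φ _ C C (fun b b' d h => hC _ b b' d h)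
    (fun b b' d h => hC _ b b' d h) hd
  have h2 := thMain_le hg _ _ h
  rw [map_mul, hφ] at h2
  exact h2

theorem theta2 (hg : 3 ≤ g) : ∃ C : ℕ, ∀ (j : ℤ) x,
    ThetaO hg (TO hg ^ j * x) ≤ ThetaO hg x + 2 * j.natAbs + C ∧
      (¬ HO g x → ThetaO hg (TO hg ^ j * x) ≤ ThetaO hg x + j.natAbs + C) := by
  classical
  obtain ⟨C, hC⟩ := near_T hg
  refine ⟨C + C, fun j x => ?_⟩
  obtain ⟨φ, hφ, hd⟩ := thMain_exists_min hg x
  have h := thMain_thetaLe_mul hg (autT hg ^ j) φ _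
    (C + if IsParal g (φ ⟨_, cc_mem_piG hg⟩ : piG g) then j.natAbs else 0)
    (C + if IsParal g (φ ⟨_, eg_mem _ (cc_mem_piG hg)⟩ : piG g) then j.natAbs else 0)
    (fun b b' d h => by
      have := hC j _ b b' d h
      rwa [add_assoc] at this)
    (fun b b' d h => by
      have := hC j _ b b' d h
      rwa [add_assoc] at this) hd
  have h2 := thMain_le hg _ _ h
  rw [map_mul, hφ, map_zpow] at h2
  have e : oc g (autT hg) = TO hg := rfl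
  rw [e] at h2
  constructor
  · refine h2.trans ?_
    split_ifs <;> omega
  · intro hH
    refine h2.trans ?_
    split_ifs with k1 k2
    · exfalso
      apply hH
      refine ⟨φ, hφ, ?_, ?_⟩
      · rw [thMain_ap_mem _ (cc_mem_piG hg)]
        exact k1
      · rw [thMain_ap_mem _ (eg_mem _ (cc_mem_piG hg))]
        exact k2
    all_goals omega

theorem theta3 (hg : 3 ≤ g) : ∃ C : ℕ, ∀ (w : FW) x, HO g x →
    ThetaO hg (oc g (autW hg w) * x) ≤ ThetaO hg x + C := by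
  obtain ⟨C, hC⟩ := near_sfix hg
  refine ⟨C + C, fun w x hx => ?_⟩
  obtain ⟨φ, hφ, hd⟩ := thMain_exists_min hg x
  rw [← hφ] at hx
  obtain ⟨k1, k2⟩ := thMain_HO_lift hg φ hx
  rw [thMain_ap_mem _ (cc_mem_piG hg)] at k1
  rw [thMain_ap_mem _ (eg_mem _ (cc_mem_piG hg))] at k2
  have h := thMain_thetaLe_mul hg (autW hg w) φ _ C C
    (fun b b' d h => hC _ _ b b' d (sfix_autW hg w) k1 h)
    (fun b b' d h => hC _ _ b b' d (sfix_autW hg w) k2 h) hd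
  have h2 := thMain_le hg _ _ h
  rw [map_mul, hφ] at h2
  exact h2

theorem HO_one (hg : 3 ≤ g) : HO g 1 := by
  refine ⟨1, map_one _, ?_, ?_⟩
  · rw [thMain_ap_mem _ (cc_mem_piG hg)]
    exact ⟨1, 1, by simp⟩
  · rw [thMain_ap_mem _ (eg_mem _ (cc_mem_piG hg))]
    refine ⟨ee g g, 1, ?_⟩
    have e : (ee g g)⁻¹ = ee g g := inv_eq_of_mul_eq_one_right (sg_mul_self _)
    rw [e]
    simp [eg]

/-- Transfer of `HO` along an automorphism preserving parallel elements. -/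
theorem thMain_HO_mul (hg : 3 ≤ g) (ψ : MulAut (piG g))
    (hψ : ∀ a : piG g, IsParal g a → IsParal g (ψ a : piG g)) (x : Out (piG g)) (h : HO g x) :
    HO g (oc g ψ * x) := by
  obtain ⟨φ, rfl, h1, h2⟩ := h
  refine ⟨ψ * φ, map_mul _ _ _, ?_, ?_⟩
  · rw [thMain_ap_mul _ _ (cc_mem_piG hg)]
    rw [thMain_ap_mem _ (cc_mem_piG hg)] at h1
    exact hψ _ h1
  · rw [thMain_ap_mul _ _ (eg_mem _ (cc_mem_piG hg))]
    rw [thMain_ap_mem _ (eg_mem _ (cc_mem_piG hg))] at h2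
    exact hψ _ h2

theorem HO_autW (hg : 3 ≤ g) (w : FW) (x : Out (piG g)) (h : HO g x) :
    HO g (oc g (autW hg w) * x) := by
  exact thMain_HO_mul hg _ (fun a ha => paral_sfix hg _ a (sfix_autW hg w) ha) x h

theorem thMain_col_t3 : col g (t3 g) = Multiplicative.ofAdd (0, 0, 1) := by
  unfold t3 ee
  rw [col_sg]
  unfold colg
  rw [if_pos]
  left
  simp

theorem thMain_lam_or (w : W (g + 3)) : w ∈ lamG g ∨ w * t3 g ∈ lamG g := by
  have key : ∀ p : PP, p ∈ lamP ∨ p * Multiplicative.ofAdd (0, 0, 1) ∈ lamP := by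
    intro p
    change p.toAdd.2.2 = 0 ∨ (p * Multiplicative.ofAdd (0, 0, 1)).toAdd.2.2 = 0
    revert p
    decide
  rcases key (col g w) with h | h
  · exact Or.inl h
  · right
    change col g (w * t3 g) ∈ lamP
    rw [map_mul, thMain_col_t3]
    exact h

theorem thMain_t3_cc : (t3 g)⁻¹ * cc g * t3 g = (cc g)⁻¹ := by
  have e3 : t3 g * t3 g = 1 := sg_mul_self _
  have i3 : (t3 g)⁻¹ = t3 g := inv_eq_of_mul_eq_one_right e3
  have i1 : (t1 g)⁻¹ = t1 g := inv_eq_of_mul_eq_one_right (sg_mul_self _)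
  unfold cc
  rw [mul_inv_rev, i3, i1, mul_assoc, mul_assoc, e3, mul_one]

/-- Parallel elements are conjugate to powers of `c` inside the mirror group. -/
theorem thMain_paral_lam (a : W (g + 3)) (h : IsParal g a) :
    ∃ w ∈ lamG g, ∃ m : ℤ, a = w * cc g ^ m * w⁻¹ := by
  obtain ⟨w, m, rfl⟩ := h
  rcases thMain_lam_or w with hw | hw
  · exact ⟨w, hw, m, rfl⟩
  · refine ⟨w * t3 g, hw, -m, ?_⟩
    have h1 : cc g ^ (-m) = (t3 g)⁻¹ * cc g ^ m * t3 g := by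
      rw [zpow_neg, ← inv_zpow, ← thMain_t3_cc]
      have := conj_zpow (i := m) (a := (t3 g)⁻¹) (b := cc g)
      rwa [inv_inv] at this
    rw [h1]
    group

theorem HO_nrm (hg : 3 ≤ g) (f x : Out (piG g)) (hf : NrmO g f) (h : HO g x) :
    HO g (f * x) := by
  obtain ⟨v, i, k, Δ, φ, rfl, h1, -, h3, -⟩ := exists_NF hg f hf
  refine thMain_HO_mul hg φ (fun a ha => ?_) x h
  have hal : (a : W (g + 3)) ∈ lamG g := hypG_le_lamG (piG_le_hypG a.2)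
  have hc : cc g ∈ lamG g := hypG_le_lamG (piG_le_hypG (cc_mem_piG hg))
  rw [h1 a hal]
  apply thMain_paral_conj
  obtain ⟨w, hw, m, e⟩ := thMain_paral_lam _ ha
  have e2 : (⟨a, hal⟩ : lamG g) = ⟨w, hw⟩ * ⟨cc g, hc⟩ ^ m * (⟨w, hw⟩ : lamG g)⁻¹ := by
    apply Subtype.ext
    simpa using e
  refine ⟨(Δ ⟨w, hw⟩ : lamG g), m, ?_⟩
  rw [e2, map_mul, map_mul, map_zpow, map_inv]
  simp [h3 hc]

end Pool.Agent.Lib.MP_66609f_al
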