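import Pool.Agent.Lib.MP_66609f_al.ThT

namespace Pool.Agent.Lib.MP_66609f_al

open Pointwise

variable {g : ℕ}

theorem thNear_ne_one (hg : 3 ≤ g) {a : W (g + 3)} {A : Set (W (g + 3))}
    (h : (coxHS (g + 3) (five_le hg)).Skew a A) : a ≠ 1 := by
  rintro rfl
  have h2 := h.2
  rw [one_smul] at h2
  exact h2.ne rfl

theorem thNear_map (ψ : MulAut (piG g)) (b z : piG g) (N : ℕ) :
    ((ψ (b ^ N * z) : piG g) : W (g + 3)) =
      ((ψ b : piG g) : W (g + 3)) ^ N * ((ψ z : piG g) : W (g + 3)) := by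
  rw [map_mul, map_pow]
  rfl

/-- The general transfer step. -/
theorem thNear_transfer (hg : 3 ≤ g) (ψ : MulAut (piG g)) (a b b' : piG g) (d e : ℕ)
    (H : ∀ A, (coxHS (g + 3) (five_le hg)).Skew (a : W (g + 3)) A →
      ∃ A', (coxHS (g + 3) (five_le hg)).Skew ((ψ a : piG g) : W (g + 3)) A' ∧ ∃ lo : ℤ,
        ∀ z : piG g, lo ≤ pos ((ψ a : piG g) : W (g + 3)) A' ((ψ z : piG g) : W (g + 3)) -
            pos (a : W (g + 3)) A (z : W (g + 3)) ∧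
          pos ((ψ a : piG g) : W (g + 3)) A' ((ψ z : piG g) : W (g + 3)) -
            pos (a : W (g + 3)) A (z : W (g + 3)) ≤ lo + e)
    (h : Near hg a b b' d) :
    Near hg (ψ a : piG g) (ψ b : piG g) (ψ b' : piG g) (d + e) := by
  obtain ⟨A, hA, z, hz, z', hz', hN⟩ := h
  obtain ⟨A', hA', lo, hlo⟩ := H A hA
  refine ⟨A', hA', (ψ ⟨z, hz⟩ : piG g), (ψ ⟨z, hz⟩).2, (ψ ⟨z', hz'⟩ : piG g),
    (ψ ⟨z', hz'⟩).2, ?_⟩
  filter_upwards [hN] with N hN
  have h1 := hlo (b ^ N * ⟨z, hz⟩)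
  have h2 := hlo (b' ^ N * ⟨z', hz'⟩)
  rw [thNear_map] at h1 h2
  have e1 : ((b ^ N * ⟨z, hz⟩ : piG g) : W (g + 3)) = (b : W (g + 3)) ^ N * z := rfl
  have e2 : ((b' ^ N * ⟨z', hz'⟩ : piG g) : W (g + 3)) = (b' : W (g + 3)) ^ N * z' := rfl
  rw [e1] at h1
  rw [e2] at h2
  rw [abs_le] at hN ⊢
  push_cast
  constructor <;> linarith [h1.1, h1.2, h2.1, h2.2, hN.1, hN.2]

theorem near_aut (hg : 3 ≤ g) (ψ : MulAut (piG g)) : ∃ C : ℕ, ∀ (a b b' : piG g) (d : ℕ),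
    Near hg a b b' d → Near hg (ψ a : piG g) (ψ b : piG g) (ψ b' : piG g) (d + C) := by
  obtain ⟨K, Ψ, hΨ, hmul, hone⟩ := exists_biLip hg ψ
  obtain ⟨C, hC⟩ := (coxHS (g + 3) (five_le hg)).cmp (coxHS_inv (five_le hg)) K
  refine ⟨C, fun a b b' d h => thNear_transfer hg ψ a b b' d C (fun A hA => ?_) h⟩
  have ha : a ≠ 1 := by
    intro e
    exact thNear_ne_one hg hA (by rw [e]; rfl)
  have ha' : ((ψ a : piG g) : W (g + 3)) ≠ 1 := by
    intro e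
    apply ha
    apply ψ.injective
    rw [map_one]
    exact Subtype.ext e
  obtain ⟨A', hA'⟩ := exists_skew hg _ (ψ a).2 ha'
  obtain ⟨lo, hlo⟩ := hC Ψ hΨ _ _ A A' hA hA' (fun z => hmul a z)
  refine ⟨A', hA', lo, fun z => ?_⟩
  have h1 := hlo z
  have h2 : Ψ z = (ψ z : piG g) := by
    have := hmul z 1
    rwa [mul_one, hone, mul_one] at this
  rwa [h2] at h1

open Classical in
theorem near_T (hg : 3 ≤ g) : ∃ C : ℕ, ∀ (j : ℤ) (a b b' : piG g) (d : ℕ),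
    Near hg a b b' d → Near hg ((autT hg ^ j) a : piG g) ((autT hg ^ j) b : piG g)
      ((autT hg ^ j) b' : piG g) (d + C + if IsParal g a then j.natAbs else 0) := by
  obtain ⟨C, hC⟩ := pos_T hg
  refine ⟨C, fun j a b b' d h => ?_⟩
  rw [add_assoc]
  refine thNear_transfer hg (autT hg ^ j) a b b' d _ (fun A hA => ?_) h
  have e : ∀ γ : piG g, (((autT hg ^ j) γ : piG g) : W (g + 3)) =
      ((twT hg ^ j : (Tw g)ˣ) : Tw g).F 1 γ := by
    intro γ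
    unfold autT
    rw [← map_zpow, Tw.res_apply]
  obtain ⟨A', hA', lo, hlo⟩ := hC j a A a.2 hA
  refine ⟨A', by rw [e]; exact hA', lo, fun z => ?_⟩
  rw [e, e]
  refine ⟨(hlo z).1, (hlo z).2.trans (le_of_eq ?_)⟩
  split_ifs
  · push_cast
    ring
  · push_cast
    ring

/-- The shape of a parallel element and of its image. -/
theorem thNear_shape (hg : 3 ≤ g) (ψ : MulAut (piG g)) (a : piG g) (h : SFix g ψ)
    (ha : IsParal g a) : ∃ (γ : piG g) (u : W (g + 3)) (m : ℤ), Commute u (t1 g) ∧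
      (a : W (g + 3)) = (γ * u) * cc g ^ m * (γ * u)⁻¹ ∧
      ((ψ a : piG g) : W (g + 3)) =
        ((ψ γ : piG g) * u) * cc g ^ m * ((ψ γ : piG g) * u)⁻¹ := by
  obtain ⟨w, m, e⟩ := ha
  obtain ⟨γ, hγ, u, rfl, hu, hc⟩ := exists_rep_t1 hg w
  have hcc := cc_mem_piG hg
  have hec := eg_mem _ hcc
  have f1 : ψ ⟨cc g, hcc⟩ = ⟨cc g, hcc⟩ := by
    apply Subtype.ext
    have := h.2.1
    unfold ap at this
    rwa [dif_pos hcc] at this
  have f2 : ψ ⟨eg g (cc g), hec⟩ = ⟨eg g (cc g), hec⟩ := by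
    apply Subtype.ext
    have := h.2.2
    unfold ap at this
    rwa [dif_pos hec] at this
  have hm : u * cc g * u⁻¹ ∈ piG g := (piG_normal g).conj_mem _ hcc u
  have f3 : ψ ⟨u * cc g * u⁻¹, hm⟩ = ⟨u * cc g * u⁻¹, hm⟩ := by
    rcases hc with k | k | k | k
    · have : (⟨u * cc g * u⁻¹, hm⟩ : piG g) = ⟨cc g, hcc⟩ := Subtype.ext k
      rw [this, f1]
    · have : (⟨u * cc g * u⁻¹, hm⟩ : piG g) = ⟨cc g, hcc⟩⁻¹ := Subtype.ext k
      rw [this, map_inv, f1]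
    · have : (⟨u * cc g * u⁻¹, hm⟩ : piG g) = ⟨eg g (cc g), hec⟩ := Subtype.ext k
      rw [this, f2]
    · have : (⟨u * cc g * u⁻¹, hm⟩ : piG g) = ⟨eg g (cc g), hec⟩⁻¹ := Subtype.ext k
      rw [this, map_inv, f2]
  refine ⟨⟨γ, hγ⟩, u, m, hu, e, ?_⟩
  have e2 : a = ⟨γ, hγ⟩ * (⟨u * cc g * u⁻¹, hm⟩ : piG g) ^ m * (⟨γ, hγ⟩ : piG g)⁻¹ := by
    apply Subtype.ext
    rw [e]
    simp only [Subgroup.coe_mul, SubgroupClass.coe_zpow, Subgroup.coe_inv, conj_zpow]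
    group
  rw [e2, map_mul, map_mul, map_zpow, map_inv, f3]
  simp only [Subgroup.coe_mul, SubgroupClass.coe_zpow, Subgroup.coe_inv, conj_zpow]
  group

theorem thNear_skew_cc (hg : 3 ≤ g) (m : ℤ) (hm : m ≠ 0) :
    ∃ β, (coxHS (g + 3) (five_le hg)).Skew (cc g ^ m) (half (t1 g) β) := by
  have h0 := ut_skew (five_le hg) ((g + 2 : ℕ) : ZMod (g + 3))
  have e : ((g + 2 : ℕ) : ZMod (g + 3)) - 1 = ((g + 1 : ℕ) : ZMod (g + 3)) := by
    push_cast
    ring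
  rw [← cc_eq_ut, e] at h0
  have h1 : (coxHS (g + 3) (five_le hg)).Skew (cc g) (half (t1 g) true) := h0
  rcases lt_or_gt_of_ne hm with hneg | hpos
  · refine ⟨false, ?_⟩
    have h2 := (coxHS (g + 3) (five_le hg)).skew_inv (coxHS_inv (five_le hg)) h1
    rw [half_compl] at h2
    have h3 := (coxHS (g + 3) (five_le hg)).skew_pow h2 m.natAbs (by omega)
    have e2 : (cc g)⁻¹ ^ m.natAbs = cc g ^ m := by
      rw [← zpow_natCast, inv_zpow, ← zpow_neg]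
      congr 1
      omega
    rw [e2] at h3
    exact h3
  · refine ⟨true, ?_⟩
    have h3 := (coxHS (g + 3) (five_le hg)).skew_pow h1 m.natAbs (by omega)
    have e2 : cc g ^ m.natAbs = cc g ^ m := by
      rw [← zpow_natCast]
      congr 1
      omega
    rw [e2] at h3
    exact h3

theorem thNear_mem (γ z : W (g + 3)) (u : W (g + 3)) (hu : Commute u (t1 g)) (β : Bool) :
    z ∈ (γ * u) • half (t1 g) β ↔
      xor (side (t1 g) u⁻¹) (side (t1 g) (γ⁻¹ * z)) = β := by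
  rw [Set.mem_smul_set_iff_inv_smul_mem, smul_eq_mul, mul_inv_rev, mul_assoc]
  change side (t1 g) (u⁻¹ * (γ⁻¹ * z)) = β ↔ _
  rw [side_mul, inv_inv, hu.eq, mul_assoc (t1 g), mul_inv_cancel, mul_one]

theorem near_sfix (hg : 3 ≤ g) : ∃ C : ℕ, ∀ (ψ : MulAut (piG g)) (a b b' : piG g) (d : ℕ),
    SFix g ψ → IsParal g a → Near hg a b b' d →
    Near hg (ψ a : piG g) (ψ b : piG g) (ψ b' : piG g) (d + C) := by
  obtain ⟨C, hC⟩ := (coxHS (g + 3) (five_le hg)).cmp_id (coxHS_inv (five_le hg))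
  refine ⟨C, fun ψ a b b' d hψ ha h => thNear_transfer hg ψ a b b' d C (fun A hA => ?_) h⟩
  obtain ⟨γ, u, m, hu, e1, e2⟩ := thNear_shape hg ψ a hψ ha
  have hm : m ≠ 0 := by
    rintro rfl
    apply thNear_ne_one hg hA
    rw [e1]
    simp
  obtain ⟨β, hβ⟩ := thNear_skew_cc hg m hm
  have s1 := (coxHS (g + 3) (five_le hg)).skew_conj (coxHS_inv (five_le hg)) hβ
    ((γ : W (g + 3)) * u)
  have s2 := (coxHS (g + 3) (five_le hg)).skew_conj (coxHS_inv (five_le hg)) hβ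
    (((ψ γ : piG g) : W (g + 3)) * u)
  rw [← e1] at s1
  rw [← e2] at s2
  obtain ⟨lo, hlo⟩ := hC _ _ _ hA s1
  refine ⟨_, s2, lo, fun z => ?_⟩
  have key : pos ((ψ a : piG g) : W (g + 3)) ((((ψ γ : piG g) : W (g + 3)) * u) • half (t1 g) β)
      ((ψ z : piG g) : W (g + 3)) =
      pos (a : W (g + 3)) (((γ : W (g + 3)) * u) • half (t1 g) β) (z : W (g + 3)) := by
    unfold pos
    congr 1
    ext k
    simp only [Set.mem_ofPred_eq]
    rw [smul_smul, smul_smul, ← mul_assoc, ← mul_assoc, thNear_mem _ _ _ hu, thNear_mem _ _ _ hu]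
    have k1 := hψ.1 ((a ^ k * γ)⁻¹ * z)
    rw [map_mul, map_inv, map_mul, map_zpow] at k1
    simp only [Subgroup.coe_mul, SubgroupClass.coe_zpow, Subgroup.coe_inv] at k1
    rw [k1]
  rw [key]
  exact hlo z

theorem paral_sfix (hg : 3 ≤ g) (ψ : MulAut (piG g)) (a : piG g) (h : SFix g ψ)
    (ha : IsParal g a) : IsParal g (ψ a : piG g) := by
  obtain ⟨γ, u, m, -, -, e2⟩ := thNear_shape hg ψ a h ha
  exact ⟨_, m, e2⟩

theorem near_conj (hg : 3 ≤ g) (v : W (g + 3)) (hv : v ∈ piG g) (a b b' : W (g + 3)) (d : ℕ)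
    (h : Near hg a b b' d) : Near hg (v * a * v⁻¹) (v * b * v⁻¹) (v * b' * v⁻¹) d := by
  obtain ⟨A, hA, z, hz, z', hz', hN⟩ := h
  refine ⟨v • A, (coxHS (g + 3) (five_le hg)).skew_conj (coxHS_inv (five_le hg)) hA v,
    v * z, mul_mem hv hz, v * z', mul_mem hv hz', ?_⟩
  filter_upwards [hN] with N hN
  have e : ∀ c y : W (g + 3), (v * c * v⁻¹) ^ N * (v * y) = v • (c ^ N * y) := by
    intro c y
    rw [conj_pow, smul_eq_mul]
    group
  rw [e, e, HS.pos_conj, HS.pos_conj]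
  exact hN

end Pool.Agent.Lib.MP_66609f_al
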