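import Pool.Agent.Lib.MP_66609f_al.ColFacts2

namespace Pool.Agent.Lib.MP_66609f_al

open Pointwise

variable {g : ℕ}

theorem thT_mem_smul {n : ℕ} (w z : W n) (B : Set (W n)) : z ∈ w • B ↔ w⁻¹ * z ∈ B :=
  Set.mem_smul_set_iff_inv_smul_mem

theorem thT_F_half (T : Tw g) (s : W (g + 3)) (hside : ∀ p w, side s (T.F p w) = side s w)
    (p : PP) (w z : W (g + 3)) (b : Bool) :
    T.F p z ∈ T.F p w • half s b ↔ z ∈ w • half s b := by
  rw [thT_mem_smul, thT_mem_smul]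
  have e : T.F p z = T.F p w * T.F (p * col g w) (w⁻¹ * z) := by
    rw [← T.mul, mul_inv_cancel_left]
  rw [e, inv_mul_cancel_left]
  change side _ _ = b ↔ side _ _ = b
  rw [hside]

theorem thT_isReflOf {n : ℕ} (i : ZMod n) : IsReflOf i (sg i) := ⟨1, by simp⟩

theorem thT_side_false {n : ℕ} (i : ZMod n) (w : W n) (hw : w ∈ WJ {i}ᶜ) :
    side (sg i) w = false := by
  by_contra h
  have h1 : side (sg i) w = true := by simpa using h
  exact (mem_WJ_iff _ w).1 hw (sg i) i h1 (thT_isReflOf i) rfl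

theorem thT_comm_half {n : ℕ} (i : ZMod n) (d : W n) (hd : d ∈ WJ {i}ᶜ)
    (h : Commute d (sg i)) : d • half (sg i) true = half (sg i) true := by
  have e : d * sg i * d⁻¹ = sg i := by rw [h.eq, mul_inv_cancel_right]
  rw [smul_half, e, thT_side_false i d hd]
  rfl

theorem thT_isHalfOf {n : ℕ} (i : ZMod n) (b : Bool) : IsHalfOf i (half (sg i) b) :=
  ⟨sg i, b, thT_isReflOf i, rfl⟩

theorem thT_disj {n : ℕ} (hn : 5 ≤ n) (i : ZMod n) (d : W n) (hd : d ∈ WJ {i}ᶜ)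
    (h : ¬ Commute d (sg i)) : Disjoint (d • half (sg i) true) (half (sg i) true) := by
  have hss : side (sg i) (sg i) = true := (side_sg _ _).2 rfl
  have hd' : d⁻¹ ∈ WJ {i}ᶜ := Subgroup.inv_mem _ hd
  have n1 : sg i ≠ d * sg i * d⁻¹ := fun e => h (by
    change d * sg i = sg i * d
    conv_rhs => rw [e]
    rw [inv_mul_cancel_right])
  have n2 : sg i ≠ d⁻¹ * sg i * d⁻¹⁻¹ := fun e => h (by
    change d * sg i = sg i * d
    conv_lhs => rw [e]
    rw [inv_inv, mul_assoc, mul_inv_cancel_left])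
  rw [Set.disjoint_iff_inter_eq_empty]
  by_contra hne
  refine not_cross_same hn (isHalfOf_smul (thT_isHalfOf i true) d) (thT_isHalfOf i true)
    ⟨Set.nonempty_iff_ne_empty.2 hne, ⟨d * sg i, ?_, ?_⟩, ⟨sg i, ?_, hss⟩, ⟨1, ?_, ?_⟩⟩
  · rw [thT_mem_smul, inv_mul_cancel_left]
    exact hss
  · change ¬ side (sg i) (d * sg i) = true
    rw [side_mul_sg _ _ _ n1, thT_side_false i d hd]
    simp
  · rw [Set.mem_compl_iff, thT_mem_smul]
    change ¬ side (sg i) (d⁻¹ * sg i) = true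
    rw [side_mul_sg _ _ _ n2, thT_side_false i _ hd']
    simp
  · rw [Set.mem_compl_iff, thT_mem_smul, mul_one]
    change ¬ side (sg i) d⁻¹ = true
    rw [thT_side_false i _ hd']
    simp
  · change ¬ side (sg i) 1 = true
    rw [side_one]
    simp

/-- Points outside a fixed wall move by at most two slabs. -/
theorem thT_near (hg : 3 ≤ g) (T : Tw g) (i : ZMod (g + 3))
    (hfix : ∀ p w, w ∈ WJ {i}ᶜ → T.F p w = w)
    (hside : ∀ p w, side (sg i) (T.F p w) = side (sg i) w) (a : W (g + 3)) (ha : a ∈ WJ {i}ᶜ)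
    (A : Set (W (g + 3))) (hA : (coxHS (g + 3) (five_le hg)).Skew a A) (p : PP) (u : W (g + 3))
    (hu : ∀ d ∈ WJ {i}ᶜ, u ∈ d • half (sg i) true → ¬ Commute (d⁻¹ * a * d) (sg i)) :
    |pos a A (T.F p u) - pos a A u| ≤ 2 := by
  by_cases h : u ∈ WJ {i}ᶜ
  · rw [hfix p u h]
    simp
  obtain ⟨d, hd, k, hk, hs⟩ := exists_first_exit _ u h
  have hki : k = i := by simpa using hk
  subst hki
  have h1 : u ∈ d • half (sg k) true := (thT_mem_smul _ _ _).2 hs
  have h2 : T.F p u ∈ d • half (sg k) true := by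
    have := (thT_F_half T _ hside p d u true).2 h1
    rwa [hfix p d hd] at this
  have hm : d⁻¹ * a * d ∈ WJ {k}ᶜ :=
    Subgroup.mul_mem _ (Subgroup.mul_mem _ (Subgroup.inv_mem _ hd) ha) hd
  have hdis := thT_disj (five_le hg) k _ hm (hu d hd h1)
  refine HS.branch _ (coxHS_inv _) hA (d • half (sg k) true)
    ⟨k, isHalfOf_smul (thT_isHalfOf k true) d⟩ ?_ ⟨1, ?_, ?_⟩ _ _ h2 h1
  · rw [Set.disjoint_left]
    intro x hx hx'
    rw [thT_mem_smul, thT_mem_smul] at hx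
    rw [thT_mem_smul] at hx'
    refine Set.disjoint_left.1 hdis ?_ hx'
    rw [thT_mem_smul]
    have e : (d⁻¹ * a * d)⁻¹ * (d⁻¹ * x) = d⁻¹ * (a⁻¹ * x) := by group
    rw [e]
    exact hx
  · rw [thT_mem_smul, mul_one]
    change ¬ side (sg k) d⁻¹ = true
    rw [thT_side_false k _ (Subgroup.inv_mem _ hd)]
    simp
  · rw [thT_mem_smul, thT_mem_smul, mul_one]
    change ¬ side (sg k) (d⁻¹ * a⁻¹) = true
    rw [thT_side_false k _ (Subgroup.mul_mem _ (Subgroup.inv_mem _ hd) (Subgroup.inv_mem _ ha))]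
    simp

theorem thT_ediv (q i : ℤ) (M : ℕ) (hM : 0 < M) :
    min i 0 ≤ (q + i) / (M : ℤ) - q / M ∧ (q + i) / (M : ℤ) - q / M ≤ max i 0 := by
  have hM' : (0 : ℤ) < M := by exact_mod_cast hM
  have e : (q + i * M) / (M : ℤ) = q / M + i := Int.add_mul_ediv_right q i hM'.ne'
  rcases le_total 0 i with hi | hi
  · have h1 : q / (M : ℤ) ≤ (q + i) / M := Int.ediv_le_ediv hM' (by linarith)
    have h2 : (q + i) / (M : ℤ) ≤ (q + i * M) / M := Int.ediv_le_ediv hM' (by nlinarith)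
    rw [min_eq_right hi, max_eq_left hi]
    constructor <;> linarith
  · have h1 : (q + i) / (M : ℤ) ≤ q / M := Int.ediv_le_ediv hM' (by linarith)
    have h2 : (q + i * M) / (M : ℤ) ≤ (q + i) / M := Int.ediv_le_ediv hM' (by nlinarith)
    rw [min_eq_left hi, max_eq_right hi]
    constructor <;> linarith

/-- Multiplication by a root of the skewering element. -/
theorem thT_shift {X Γ : Type*} [Group Γ] [MulAction Γ X] (Z : HS X) (hΓ : Z.Inv Γ) :
    ∃ C : ℕ, ∀ (e : Γ) (E A : Set X) (m i : ℤ), m ≠ 0 → Z.Skew e E → Z.Skew (e ^ m) A →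
      ∃ lo : ℤ, lo ≤ 0 ∧ 0 ≤ lo + C + |i| ∧ ∀ x,
        lo ≤ pos (e ^ m) A (e ^ i • x) - pos (e ^ m) A x ∧
          pos (e ^ m) A (e ^ i • x) - pos (e ^ m) A x ≤ lo + C + |i| := by
  obtain ⟨C, hC⟩ := Z.cmp_id hΓ
  have key : ∀ (e : Γ) (E A : Set X) (M : ℕ) (i : ℤ), 0 < M → Z.Skew e E → Z.Skew (e ^ M) A →
      ∃ lo : ℤ, lo ≤ 0 ∧ 0 ≤ lo + (2 * C : ℕ) + |i| ∧ ∀ x,
        lo ≤ pos (e ^ M) A (e ^ i • x) - pos (e ^ M) A x ∧
          pos (e ^ M) A (e ^ i • x) - pos (e ^ M) A x ≤ lo + (2 * C : ℕ) + |i| := by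
    intro e E A M i hM hE hA
    obtain ⟨lo, hlo⟩ := hC (e ^ M) E A (Z.skew_pow hE M hM) hA
    have hmm : max i 0 = min i 0 + |i| := by
      rcases le_total 0 i with hi | hi
      · rw [min_eq_right hi, max_eq_left hi, abs_of_nonneg hi, zero_add]
      · rw [min_eq_left hi, max_eq_right hi, abs_of_nonpos hi, add_neg_cancel]
    have hC0 : (0 : ℤ) ≤ C := Int.natCast_nonneg C
    have m1 : min i 0 ≤ 0 := min_le_right _ _
    have m2 : 0 ≤ max i 0 := le_max_right _ _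
    refine ⟨min i 0 - C, by linarith, by push_cast; linarith, fun x => ?_⟩
    have h1 := hlo x
    have h2 := hlo (e ^ i • x)
    rw [Z.pos_pow hΓ hE M hM] at h1 h2
    rw [Z.pos_zpow_smul hΓ hE] at h2
    have h3 := thT_ediv (pos e E x) i M hM
    push_cast
    constructor <;> linarith [h1.1, h1.2, h2.1, h2.2, h3.1, h3.2]
  refine ⟨2 * C, fun e E A m i hm hE hA => ?_⟩
  obtain ⟨M, rfl | rfl⟩ := Int.eq_nat_or_neg m
  · rw [zpow_natCast] at hA ⊢
    exact key e E A M i (by omega) hE hA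
  · have e1 : e ^ (-(M : ℤ)) = e⁻¹ ^ M := by rw [zpow_neg, zpow_natCast, inv_pow]
    have e2 : e ^ i = e⁻¹ ^ (-i) := by rw [inv_zpow', neg_neg]
    rw [e1] at hA ⊢
    rw [e2, ← abs_neg i]
    exact key e⁻¹ Eᶜ A M (-i) (by omega) (Z.skew_inv hΓ hE) hA

theorem thT_ut_mem {n : ℕ} (hn : 5 ≤ n) (i : ZMod n) : ut i ∈ WJ {i}ᶜ := by
  have : Fact (1 < n) := ⟨by omega⟩
  have h1 : i - 1 ≠ i := by simp
  have h2 : i + 1 ≠ i := by simp
  exact Subgroup.mul_mem _ (Subgroup.subset_closure ⟨i - 1, h1, rfl⟩)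
    (Subgroup.subset_closure ⟨i + 1, h2, rfl⟩)

theorem thT_ut_comm {n : ℕ} (i : ZMod n) : Commute (ut i) (sg i) := by
  have h1 : Commute (sg (i - 1)) (sg i) := by
    have := sg_comm (i - 1)
    rwa [sub_add_cancel] at this
  exact Commute.mul_left h1 (sg_comm i).symm

/-- The case of a power of the translation along the wall. -/
theorem thT_paral (hg : 3 ≤ g) : ∃ C : ℕ, ∀ (T : Tw g) (i : ZMod (g + 3)) (κ : PP → ℤ),
    IsTwist T i κ → (∀ p w, side (sg i) (T.F p w) = side (sg i) w) → ∀ (m : ℤ), m ≠ 0 →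
    ∀ (A : Set (W (g + 3))), (coxHS (g + 3) (five_le hg)).Skew (ut i ^ m) A → ∀ p : PP,
      ∃ lo : ℤ, ∀ u, lo ≤ pos (ut i ^ m) A (T.F p u) - pos (ut i ^ m) A u ∧
        pos (ut i ^ m) A (T.F p u) - pos (ut i ^ m) A u ≤ lo + C + |κ p| := by
  obtain ⟨C, hC⟩ := thT_shift (coxHS (g + 3) (five_le hg)) (coxHS_inv (five_le hg))
  refine ⟨C + 4, fun T i κ hT hside m hm A hA p => ?_⟩
  have hmem : ut i ^ m ∈ WJ {i}ᶜ := Subgroup.zpow_mem _ (thT_ut_mem (five_le hg) i) m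
  have hcm : Commute (ut i ^ m) (sg i) := (thT_ut_comm i).zpow_left m
  have near : ∀ A : Set (W (g + 3)), (coxHS (g + 3) (five_le hg)).Skew (ut i ^ m) A →
      ∀ (q : PP) (u : W (g + 3)), ¬ side (sg i) u = true →
        |pos (ut i ^ m) A (T.F q u) - pos (ut i ^ m) A u| ≤ 2 := by
    intro A hA q u hu
    refine thT_near hg T i hT.fix hside _ hmem A hA q u fun d hd hud hc => hu ?_
    have c1 : Commute (ut i ^ m) (d * sg i * d⁻¹) := by
      have e := hc.eq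
      change ut i ^ m * (d * sg i * d⁻¹) = d * sg i * d⁻¹ * ut i ^ m
      calc ut i ^ m * (d * sg i * d⁻¹) = d * (d⁻¹ * ut i ^ m * d * sg i) * d⁻¹ := by group
        _ = d * (sg i * (d⁻¹ * ut i ^ m * d)) * d⁻¹ := by rw [e]
        _ = d * sg i * d⁻¹ * ut i ^ m := by group
    have c2 := refl_eq_of_commute_ut (five_le hg) i m hm _ ⟨i, d, rfl⟩ c1
    have c3 : Commute d (sg i) := by
      change d * sg i = sg i * d
      conv_rhs => rw [← c2]
      rw [inv_mul_cancel_right]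
    rw [thT_comm_half i d hd c3] at hud
    exact hud
  obtain ⟨lo, hlo0, hlo1, hlo⟩ := hC (ut i) _ A m (κ p) hm (ut_skew (five_le hg) i) hA
  refine ⟨lo - 2, fun u => ?_⟩
  by_cases hu : side (sg i) u = true
  · have hconj : sg i * ut i ^ m * (sg i)⁻¹ = ut i ^ m := by
      rw [← hcm.eq, mul_inv_cancel_right]
    have hA' := HS.skew_conj _ (coxHS_inv (five_le hg)) hA (sg i)
    rw [hconj] at hA'
    have hp : ∀ x, pos (ut i ^ m) (sg i • A) x = pos (ut i ^ m) A (sg i * x) := by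
      intro x
      have := HS.pos_conj (ut i ^ m) A (sg i) (sg i * x)
      rwa [hconj, smul_eq_mul, ← mul_assoc, sg_mul_self, one_mul] at this
    have hu' : ¬ side (sg i) (sg i * u) = true := by
      rw [side_refl_mul ⟨i, thT_isReflOf i⟩, hu]
      simp
    have h1 := near _ hA' (p * col g (sg i)) _ hu'
    rw [hp, hp, ← mul_assoc, sg_mul_self, one_mul] at h1
    have e : T.F p u = ut i ^ κ p • (sg i * T.F (p * col g (sg i)) (sg i * u)) := by
      rw [smul_eq_mul, ← mul_assoc, ← hT.1 p, ← T.mul, ← mul_assoc, sg_mul_self, one_mul]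
    have h2 := hlo (sg i * T.F (p * col g (sg i)) (sg i * u))
    rw [← e] at h2
    rw [abs_le] at h1
    push_cast
    constructor <;> linarith [h1.1, h1.2, h2.1, h2.2]
  · have h1 := near A hA p u hu
    rw [abs_le] at h1
    push_cast
    constructor <;> linarith [h1.1, h1.2]

/-- Reduction to an element of the fixed parabolic subgroup. -/
theorem thT_reduce (hg : 3 ≤ g) (T : Tw g) (a w : W (g + 3)) (ha : a ∈ piG g)
    (hfix : ∀ p, T.F p (w⁻¹ * a * w) = w⁻¹ * a * w) (A : Set (W (g + 3)))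
    (hA : (coxHS (g + 3) (five_le hg)).Skew a A) :
    (coxHS (g + 3) (five_le hg)).Skew (w⁻¹ * a * w) (w⁻¹ • A) ∧
      ∃ A', (coxHS (g + 3) (five_le hg)).Skew (T.F 1 a) A' ∧ ∀ z,
        pos (T.F 1 a) A' (T.F 1 z) - pos a A z =
          pos (w⁻¹ * a * w) (w⁻¹ • A) (T.F (col g w) (w⁻¹ * z)) -
            pos (w⁻¹ * a * w) (w⁻¹ • A) (w⁻¹ * z) := by
  have h0 : (coxHS (g + 3) (five_le hg)).Skew (w⁻¹ * a * w) (w⁻¹ • A) := by
    have := HS.skew_conj _ (coxHS_inv (five_le hg)) hA w⁻¹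
    rwa [inv_inv] at this
  have hca : col g a = 1 := ha
  have e1 : T.F 1 a * T.F 1 w = T.F 1 w * (w⁻¹ * a * w) := by
    have e2 : a * w = w * (w⁻¹ * a * w) := by group
    have e3 := T.mul 1 a w
    rw [hca, mul_one, e2, T.mul, hfix] at e3
    exact e3.symm
  have e4 : T.F 1 a = T.F 1 w * (w⁻¹ * a * w) * (T.F 1 w)⁻¹ := by
    rw [← e1, mul_inv_cancel_right]
  refine ⟨h0, T.F 1 w • w⁻¹ • A, ?_, fun z => ?_⟩
  · rw [e4]
    exact HS.skew_conj _ (coxHS_inv (five_le hg)) h0 _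
  · have e5 : T.F 1 z = T.F 1 w • T.F (col g w) (w⁻¹ * z) := by
      have := T.mul 1 w (w⁻¹ * z)
      rwa [mul_inv_cancel_left, one_mul] at this
    have e6 := HS.pos_conj a A w⁻¹ z
    rw [inv_inv, smul_eq_mul] at e6
    rw [e4, e5, HS.pos_conj, e6]

/-- The case of a skewered wall of the twisting type. -/
theorem thT_skew (hg : 3 ≤ g) (T : (Tw g)ˣ) (i : ZMod (g + 3))
    (hside : ∀ p w, side (sg i) ((T : Tw g).F p w) = side (sg i) w) (a : W (g + 3))
    (ha : a ∈ piG g) (B : Set (W (g + 3))) (hB : IsHalfOf i B)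
    (hA : (coxHS (g + 3) (five_le hg)).Skew a B) :
    ∃ B', (coxHS (g + 3) (five_le hg)).Skew ((T : Tw g).F 1 a) B' ∧ ∀ z,
      pos ((T : Tw g).F 1 a) B' ((T : Tw g).F 1 z) = pos a B z := by
  obtain ⟨t, b, ⟨w, rfl⟩, rfl⟩ := hB
  obtain ⟨b', hb'⟩ : ∃ b', half (w * sg i * w⁻¹) b = w • half (sg i) b' := by
    refine ⟨xor b (side (w * sg i * w⁻¹) w), ?_⟩
    rw [smul_half, Bool.xor_assoc, Bool.xor_self, Bool.xor_false]
  rw [hb'] at hA ⊢
  have hz : ∀ k : ℤ, (T : Tw g).F 1 (a ^ k * w) = (T : Tw g).F 1 a ^ k * (T : Tw g).F 1 w := by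
    intro k
    have hk : col g (a ^ k) = 1 := Subgroup.zpow_mem _ ha k
    have e := congrArg Subtype.val (map_zpow (Tw.res g T) ⟨a, ha⟩ k)
    rw [Tw.mul, hk, mul_one]
    exact congrArg (· * (T : Tw g).F 1 w) e
  have hmem : ∀ (k : ℤ) z,
      (T : Tw g).F 1 z ∈ (T : Tw g).F 1 a ^ k • (T : Tw g).F 1 w • half (sg i) b' ↔
        z ∈ a ^ k • w • half (sg i) b' := by
    intro k z
    rw [smul_smul, smul_smul, ← hz, thT_F_half _ _ hside]
  have hsurj : ∀ y, ∃ z, (T : Tw g).F 1 z = y := by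
    intro y
    refine ⟨((T⁻¹ : (Tw g)ˣ) : Tw g).F 1 y, ?_⟩
    rw [← Tw.mul_F, Units.mul_inv, Tw.one_F]
  refine ⟨(T : Tw g).F 1 w • half (sg i) b',
    ⟨⟨i, isHalfOf_smul (thT_isHalfOf i b') _⟩, ?_, ?_⟩, fun z => ?_⟩
  · intro y hy
    obtain ⟨z, rfl⟩ := hsurj y
    have h1 := hmem 1 z
    rw [zpow_one, zpow_one] at h1
    exact (thT_F_half _ _ hside 1 w z b').2 (hA.2.1 (h1.1 hy))
  · intro hsub
    refine hA.2.2 fun z hz' => ?_
    have h1 := hmem 1 z
    rw [zpow_one, zpow_one] at h1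
    exact h1.1 (hsub ((thT_F_half _ _ hside 1 w z b').2 hz'))
  · unfold pos
    simp only [hmem]

theorem thT_abs_chi (p : PP) (j : ℤ) : |kapT 1 p * j| = |j| := by
  unfold kapT chi sgn2
  split_ifs <;> simp

open Classical in
/-- How the powers of `T` move positions. -/
theorem pos_T (hg : 3 ≤ g) : ∃ C : ℕ, ∀ (j : ℤ) (a : W (g + 3)) (A : Set (W (g + 3))),
    a ∈ piG g → (coxHS (g + 3) (five_le hg)).Skew a A →
    ∃ A', (coxHS (g + 3) (five_le hg)).Skew (((twT hg ^ j : (Tw g)ˣ) : Tw g).F 1 a) A' ∧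
      ∃ lo : ℤ, ∀ z,
        lo ≤ pos (((twT hg ^ j : (Tw g)ˣ) : Tw g).F 1 a) A'
          (((twT hg ^ j : (Tw g)ˣ) : Tw g).F 1 z) - pos a A z ∧
        pos (((twT hg ^ j : (Tw g)ˣ) : Tw g).F 1 a) A'
          (((twT hg ^ j : (Tw g)ˣ) : Tw g).F 1 z) - pos a A z ≤
          lo + C + if IsParal g a then |j| else 0 := by
  obtain ⟨C1, hC1⟩ := thT_paral hg
  obtain ⟨C2, hC2⟩ := HS.cmp_id _ (coxHS_inv (five_le hg))
  refine ⟨C1 + C2 + 4, fun j a A ha hA => ?_⟩
  have hT := (twT_spec hg).zpow hg (twOK_T hg) j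
  have hside : ∀ p w, side (sg ((g + 2 : ℕ) : ZMod (g + 3)))
      (((twT hg ^ j : (Tw g)ˣ) : Tw g).F p w) = side (sg ((g + 2 : ℕ) : ZMod (g + 3))) w :=
    side_t2_T hg j
  have p1 : (0 : ℤ) ≤ C1 := Int.natCast_nonneg _
  have p2 : (0 : ℤ) ≤ C2 := Int.natCast_nonneg _
  have hpi : ∀ w : W (g + 3), w⁻¹ * a * w ∈ piG g := fun w => by
    have := (piG_normal g).conj_mem a ha w⁻¹
    rwa [inv_inv] at this
  by_cases hP : IsParal g a
  · rw [if_pos hP]
    obtain ⟨w, m, hw⟩ := hP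
    have e : w⁻¹ * a * w = ut ((g + 2 : ℕ) : ZMod (g + 3)) ^ m := by
      rw [hw, cc_eq_ut]
      group
    have hm : m ≠ 0 := by
      rintro rfl
      have e1 : a = 1 := by simpa using hw
      have := hA.2
      rw [e1, one_smul] at this
      exact this.2 this.1
    obtain ⟨h0, A', hA', hpos⟩ := thT_reduce hg _ a w ha (fun p => hT.fix p _ (by
      rw [e]
      exact Subgroup.zpow_mem _ (thT_ut_mem (five_le hg) _) m)) A hA
    rw [e] at h0 hpos
    obtain ⟨lo, hlo⟩ := hC1 _ _ _ hT hside m hm _ h0 (col g w)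
    refine ⟨A', hA', lo, fun z => ?_⟩
    have h1 := hlo (w⁻¹ * z)
    rw [thT_abs_chi] at h1
    push_cast
    rw [hpos z]
    constructor <;> linarith [h1.1, h1.2]
  · rw [if_neg hP]
    rcases skew_or_elliptic (five_le hg) {((g + 2 : ℕ) : ZMod (g + 3))} a
      (fun w i _ hc => side_false_of_commute hg _ (hpi w) i hc) with ⟨i, hi, B, hB, hs⟩ | ⟨w, hw⟩
    · have hi' : i = ((g + 2 : ℕ) : ZMod (g + 3)) := hi
      subst hi'
      obtain ⟨B', hB', hpos⟩ := thT_skew hg _ _ hside a ha B hB hs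
      obtain ⟨lo, hlo⟩ := hC2 a A B hA hs
      refine ⟨B', hB', lo, fun z => ?_⟩
      have h1 := hlo z
      rw [hpos z]
      push_cast
      constructor <;> linarith [h1.1, h1.2]
    · obtain ⟨h0, A', hA', hpos⟩ := thT_reduce hg _ a w ha (fun p => hT.fix p _ hw) A hA
      refine ⟨A', hA', -2, fun z => ?_⟩
      have h1 := thT_near hg _ _ hT.fix hside _ hw _ h0 (col g w) (w⁻¹ * z) fun d _ _ hc => hP (by
        have e : d⁻¹ * (w⁻¹ * a * w) * d = (w * d)⁻¹ * a * (w * d) := by group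
        rw [e] at hc
        obtain ⟨m, hm⟩ := commute_t2_pi hg _ (hpi (w * d)) hc
        refine ⟨w * d, m, ?_⟩
        rw [← hm]
        group)
      rw [abs_le] at h1
      rw [hpos z]
      push_cast
      constructor <;> linarith [h1.1, h1.2]

end Pool.Agent.Lib.MP_66609f_al
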