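import Pool.Agent.Lib.MP_66609f_al.TwDefs

namespace Pool.Agent.Lib.MP_66609f_al

variable {g : ℕ}

/-- The four generators `t3, e1, e2, e3`. -/
def twRelS (g : ℕ) (x : Fin 4) : W (g + 3) := sg ((x.val : ℕ) : ZMod (g + 3))

/-- Evaluation of words in `t3, e1, e2, e3`. -/
def twRelEv (g : ℕ) (l : List (Fin 4)) : W (g + 3) := (l.map (twRelS g)).prod

/-- Colours of `t3, e1, e2, e3`. -/
def twRelCl (x : Fin 4) : PP :=
  if x.val = 0 then Multiplicative.ofAdd (0, 0, 1)
  else if x.val % 2 = 1 then Multiplicative.ofAdd (1, 0, 0) else Multiplicative.ofAdd (0, 1, 0)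

/-- Cancelling a letter against a word. -/
def twRelIns (x : Fin 4) : List (Fin 4) → Option (List (Fin 4))
  | [] => none
  | y :: l => if x = y then some l
      else if x.val + 1 = y.val ∨ y.val + 1 = x.val then (twRelIns x l).map (fun l' => y :: l')
      else none

/-- Reducing a word. -/
def twRelRed : List (Fin 4) → List (Fin 4)
  | [] => []
  | x :: l => (twRelIns x (twRelRed l)).getD (x :: twRelRed l)

/-- A cocycle on words. -/
def twRelAct (D : PP → Fin 4 → List (Fin 4)) : PP → List (Fin 4) → List (Fin 4)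
  | _, [] => []
  | p, x :: l => D p x ++ twRelAct D (p * twRelCl x) l

def twRelDU (p : PP) (x : Fin 4) : List (Fin 4) :=
  if x = 2 then (if chi p = 1 then (if ori p = 1 then [1, 3, 2] else [3, 1, 2]) else [2]) else [x]

def twRelDL (p : PP) (x : Fin 4) : List (Fin 4) :=
  if x = 2 then (if chi p = 1 then [2] else (if ori p = 1 then [1, 3, 2] else [3, 1, 2])) else [x]

def twRelDM (p : PP) (x : Fin 4) : List (Fin 4) :=
  if x = 1 then (if ori p = 1 then [0, 2, 0, 2, 1] else [2, 0, 2, 0, 1]) else [x]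

theorem twRel_ev_nil : twRelEv g [] = 1 := rfl

theorem twRel_ev_cons (x : Fin 4) (l : List (Fin 4)) :
    twRelEv g (x :: l) = twRelS g x * twRelEv g l := by
  simp [twRelEv]

theorem twRel_ev_append (l l' : List (Fin 4)) :
    twRelEv g (l ++ l') = twRelEv g l * twRelEv g l' := by
  simp [twRelEv]

theorem twRel_s_inv (x : Fin 4) : (twRelS g x)⁻¹ = twRelS g x := sg_inv _

theorem twRel_ev_reverse (l : List (Fin 4)) : twRelEv g l.reverse = (twRelEv g l)⁻¹ := by
  induction l with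
  | nil => simp [twRelEv]
  | cons x l ih =>
    rw [List.reverse_cons, twRel_ev_append, ih, twRel_ev_cons, twRel_ev_cons, twRel_ev_nil,
      mul_one, mul_inv_rev, twRel_s_inv]

theorem twRel_s_comm (x y : Fin 4) (h : x.val + 1 = y.val) :
    Commute (twRelS g x) (twRelS g y) := by
  have h1 := sg_comm ((x.val : ℕ) : ZMod (g + 3))
  unfold twRelS
  rw [← h, Nat.cast_add, Nat.cast_one]
  exact h1

theorem twRel_ins (x : Fin 4) (l l' : List (Fin 4)) (h : twRelIns x l = some l') :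
    twRelS g x * twRelEv g l = twRelEv g l' := by
  induction l generalizing l' with
  | nil => simp [twRelIns] at h
  | cons y l ih =>
    unfold twRelIns at h
    split_ifs at h with h1 h2
    · obtain rfl : l = l' := by simpa using h
      subst h1
      rw [twRel_ev_cons, ← mul_assoc]
      unfold twRelS
      rw [sg_mul_self, one_mul]
    · obtain ⟨l'', h3, rfl⟩ := Option.map_eq_some_iff.1 h
      have hc : Commute (twRelS g x) (twRelS g y) := by
        rcases h2 with h2 | h2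
        · exact twRel_s_comm x y h2
        · exact (twRel_s_comm y x h2).symm
      rw [twRel_ev_cons, twRel_ev_cons, ← mul_assoc, hc.eq, mul_assoc, ih _ h3]

theorem twRel_red (l : List (Fin 4)) : twRelEv g (twRelRed l) = twRelEv g l := by
  induction l with
  | nil => rfl
  | cons x l ih =>
    unfold twRelRed
    cases h : twRelIns x (twRelRed l) with
    | none => rw [Option.getD_none, twRel_ev_cons, twRel_ev_cons, ih]
    | some l' => rw [Option.getD_some, ← twRel_ins x _ _ h, twRel_ev_cons, ih]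

theorem twRel_eq_of_red (l l' : List (Fin 4)) (h : twRelRed (l ++ l'.reverse) = []) :
    twRelEv g l = twRelEv g l' := by
  have h1 := twRel_red (g := g) (l ++ l'.reverse)
  rw [h, twRel_ev_nil, twRel_ev_append, twRel_ev_reverse] at h1
  exact mul_inv_eq_one.1 h1.symm

theorem twRel_val (a : ℕ) (ha : a < g + 3) : ((a : ℕ) : ZMod (g + 3)).val = a :=
  ZMod.val_cast_of_lt ha

theorem twRel_ne (a b : ℕ) (ha : a < g + 3) (hb : b < g + 3) (hab : a ≠ b) :
    ((a : ℕ) : ZMod (g + 3)) ≠ ((b : ℕ) : ZMod (g + 3)) := by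
  intro h
  apply hab
  rw [← twRel_val a ha, ← twRel_val b hb, h]

theorem twRel_col (hg : 3 ≤ g) (x : Fin 4) : col g (twRelS g x) = twRelCl x := by
  have hx := x.isLt
  unfold twRelS twRelCl
  rw [col_sg]
  unfold colg
  rw [twRel_val x.val (by omega)]
  by_cases h0 : x.val = 0
  · rw [if_pos (Or.inl h0), if_pos h0]
  · rw [if_neg (by omega), if_neg (by omega), if_neg h0]

theorem twRel_act (hg : 3 ≤ g) (A : Tw g) (D : PP → Fin 4 → List (Fin 4))
    (hD : ∀ p x, A.F p (twRelS g x) = twRelEv g (D p x)) (l : List (Fin 4)) (p : PP) :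
    A.F p (twRelEv g l) = twRelEv g (twRelAct D p l) := by
  induction l generalizing p with
  | nil => exact A.F_one p
  | cons x l ih =>
    rw [twRel_ev_cons, A.mul, hD, twRel_col hg, ih, ← twRel_ev_append]
    rfl

theorem twRel_ut (a : ℕ) :
    ut (((a + 1 : ℕ) : ℕ) : ZMod (g + 3)) =
      sg ((a : ℕ) : ZMod (g + 3)) * sg ((a + 2 : ℕ) : ZMod (g + 3)) := by
  unfold ut
  have h1 : (((a + 1 : ℕ) : ℕ) : ZMod (g + 3)) - 1 = ((a : ℕ) : ZMod (g + 3)) := by
    push_cast
    ring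
  have h2 : (((a + 1 : ℕ) : ℕ) : ZMod (g + 3)) + 1 = ((a + 2 : ℕ) : ZMod (g + 3)) := by
    push_cast
    ring
  rw [h1, h2]

theorem twRel_ut2 : ut (((2 : ℕ) : ℕ) : ZMod (g + 3)) = twRelS g 1 * twRelS g 3 :=
  twRel_ut 1

theorem twRel_ut1 : ut (((1 : ℕ) : ℕ) : ZMod (g + 3)) = twRelS g 0 * twRelS g 2 :=
  twRel_ut 0

theorem twRel_ori (p : PP) (h : ¬ ori p = 1) : ori p = -1 := by
  revert p
  decide

theorem twRel_other (hg : 3 ≤ g) {A : Tw g} {κ : PP → ℤ} (y : Fin 4)
    (h : IsTwist A ((y.val : ℕ) : ZMod (g + 3)) κ) (p : PP) (x : Fin 4) (hx : x ≠ y) :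
    A.F p (twRelS g x) = twRelEv g [x] := by
  have h1 := x.isLt
  have h2 := y.isLt
  rw [twRel_ev_cons, twRel_ev_nil, mul_one]
  exact h.2 p _ (twRel_ne _ _ (by omega) (by omega) (fun h3 => hx (Fin.ext h3)))

theorem twRel_DU (hg : 3 ≤ g) (p : PP) (x : Fin 4) :
    (twU hg : Tw g).F p (twRelS g x) = twRelEv g (twRelDU p x) := by
  unfold twRelDU
  by_cases hx : x = 2
  · subst hx
    have h1 : (twU hg : Tw g).F p (twRelS g 2) =
        (twRelS g 1 * twRelS g 3) ^ kapU p * twRelS g 2 := by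
      rw [← twRel_ut2]
      exact (twU_spec hg).1 p
    rw [if_pos rfl, h1]
    unfold kapU
    split_ifs with h2 h3
    · simp [h3, twRelEv, mul_assoc]
    · simp [twRel_ori p h3, twRelEv, mul_assoc, twRel_s_inv]
    · simp [twRelEv]
  · rw [if_neg hx]
    exact twRel_other hg 2 (twU_spec hg) p x hx

theorem twRel_DL (hg : 3 ≤ g) (p : PP) (x : Fin 4) :
    (twL hg : Tw g).F p (twRelS g x) = twRelEv g (twRelDL p x) := by
  unfold twRelDL
  by_cases hx : x = 2
  · subst hx
    have h1 : (twL hg : Tw g).F p (twRelS g 2) =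
        (twRelS g 1 * twRelS g 3) ^ kapL p * twRelS g 2 := by
      rw [← twRel_ut2]
      exact (twL_spec hg).1 p
    rw [if_pos rfl, h1]
    unfold kapL
    split_ifs with h2 h3
    · simp [twRelEv]
    · simp [h3, twRelEv, mul_assoc]
    · simp [twRel_ori p h3, twRelEv, mul_assoc, twRel_s_inv]
  · rw [if_neg hx]
    exact twRel_other hg 2 (twL_spec hg) p x hx

theorem twRel_DM (hg : 3 ≤ g) (p : PP) (x : Fin 4) :
    (twM hg : Tw g).F p (twRelS g x) = twRelEv g (twRelDM p x) := by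
  unfold twRelDM
  by_cases hx : x = 1
  · subst hx
    have h1 : (twM hg : Tw g).F p (twRelS g 1) =
        (twRelS g 0 * twRelS g 2) ^ kapM p * twRelS g 1 := by
      rw [← twRel_ut1]
      exact (twM_spec hg).1 p
    rw [if_pos rfl, h1]
    unfold kapM
    split_ifs with h3
    · rw [h3, mul_one, zpow_two]
      simp [twRelEv, mul_assoc]
    · rw [twRel_ori p h3, mul_neg, mul_one, zpow_neg, zpow_two]
      simp [twRelEv, mul_assoc, twRel_s_inv]
  · rw [if_neg hx]
    exact twRel_other hg 1 (twM_spec hg) p x hx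

theorem twRel_braid (hg : 3 ≤ g) (A B : Tw g) (κ κ' : PP → ℤ)
    (hA : IsTwist A ((2 : ℕ) : ZMod (g + 3)) κ) (hB : IsTwist B ((1 : ℕ) : ZMod (g + 3)) κ')
    (D E : PP → Fin 4 → List (Fin 4))
    (hD : ∀ p x, A.F p (twRelS g x) = twRelEv g (D p x))
    (hE : ∀ p x, B.F p (twRelS g x) = twRelEv g (E p x))
    (h : ∀ p x, twRelRed (twRelAct D p (twRelAct E p (D p x)) ++
      (twRelAct E p (twRelAct D p (E p x))).reverse) = []) :
    A * B * A = B * A * B := by
  have key : ∀ p x, (A * B * A).F p (twRelS g x) = (B * A * B).F p (twRelS g x) := by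
    intro p x
    simp only [Tw.mul_F]
    rw [hD, hE, twRel_act hg B E hE, twRel_act hg A D hD, twRel_act hg A D hD,
      twRel_act hg B E hE]
    exact twRel_eq_of_red _ _ (h p x)
  refine Tw.ext_gen _ _ fun p j => ?_
  by_cases h1 : j = ((1 : ℕ) : ZMod (g + 3))
  · subst h1
    exact key p 1
  by_cases h2 : j = ((2 : ℕ) : ZMod (g + 3))
  · subst h2
    exact key p 2
  simp only [Tw.mul_F, hA.2 p j h2, hB.2 p j h1]

theorem twRel_comm {A B : Tw g} {i j : ZMod (g + 3)} {κ κ' : PP → ℤ} (hA : IsTwist A i κ)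
    (hB : IsTwist B j κ') (h0 : i ≠ j) (h1 : i - 1 ≠ j) (h2 : i + 1 ≠ j) (h3 : j - 1 ≠ i)
    (h4 : j + 1 ≠ i) : A * B = B * A := by
  have mem : ∀ a b : ZMod (g + 3), a ≠ b → (sg a : W (g + 3)) ∈ WJ ({b}ᶜ : Set (ZMod (g + 3))) :=
    fun a b hab => Subgroup.subset_closure ⟨a, hab, rfl⟩
  have fx : ∀ (a b : ZMod (g + 3)) (k : ℤ), a ≠ b → a - 1 ≠ b → a + 1 ≠ b →
      ut a ^ k * sg a ∈ WJ ({b}ᶜ : Set (ZMod (g + 3))) := fun a b k e0 e1 e2 =>
    Subgroup.mul_mem _ (Subgroup.zpow_mem _ (Subgroup.mul_mem _ (mem _ _ e1) (mem _ _ e2)) k)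
      (mem _ _ e0)
  refine Tw.ext_gen _ _ fun p l => ?_
  simp only [Tw.mul_F]
  by_cases e1 : l = i
  · subst e1
    rw [hB.2 p l h0, hA.1 p, hB.fix p _ (fx _ _ _ h0 h1 h2)]
  by_cases e2 : l = j
  · subst e2
    rw [hA.2 p l e1, hB.1 p, hA.fix p _ (fx _ _ _ e1 h3 h4)]
  rw [hB.2 p l e2, hA.2 p l e1, hB.2 p l e2]

theorem twRel_commT (hg : 3 ≤ g) {A B : Tw g} {κ κ' : PP → ℤ} (a : ℕ) (ha : a ≤ 1)
    (hA : IsTwist A ((g + 2 : ℕ) : ZMod (g + 3)) κ)
    (hB : IsTwist B ((a + 1 : ℕ) : ZMod (g + 3)) κ') : A * B = B * A := by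
  have e1 : ((g + 2 : ℕ) : ZMod (g + 3)) - 1 = ((g + 1 : ℕ) : ZMod (g + 3)) := by
    push_cast
    ring
  have e2 : ((g + 2 : ℕ) : ZMod (g + 3)) + 1 = ((0 : ℕ) : ZMod (g + 3)) := by
    have h0 : ((g + 3 : ℕ) : ZMod (g + 3)) = 0 := ZMod.natCast_self _
    push_cast at h0 ⊢
    rw [← h0]
    ring
  have e3 : ((a + 1 : ℕ) : ZMod (g + 3)) - 1 = ((a : ℕ) : ZMod (g + 3)) := by
    push_cast
    ring
  have e4 : ((a + 1 : ℕ) : ZMod (g + 3)) + 1 = ((a + 2 : ℕ) : ZMod (g + 3)) := by
    push_cast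
    ring
  refine twRel_comm hA hB ?_ ?_ ?_ ?_ ?_
  · exact twRel_ne _ _ (by omega) (by omega) (by omega)
  · rw [e1]
    exact twRel_ne _ _ (by omega) (by omega) (by omega)
  · rw [e2]
    exact twRel_ne _ _ (by omega) (by omega) (by omega)
  · rw [e3]
    exact twRel_ne _ _ (by omega) (by omega) (by omega)
  · rw [e4]
    exact twRel_ne _ _ (by omega) (by omega) (by omega)

theorem braid_UM (hg : 3 ≤ g) : twU hg * twM hg * twU hg = twM hg * twU hg * twM hg := by
  apply Units.ext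
  simp only [Units.val_mul]
  exact twRel_braid hg _ _ _ _ (twU_spec hg) (twM_spec hg) twRelDU twRelDM (twRel_DU hg)
    (twRel_DM hg) (by decide)

theorem braid_LM (hg : 3 ≤ g) : twL hg * twM hg * twL hg = twM hg * twL hg * twM hg := by
  apply Units.ext
  simp only [Units.val_mul]
  exact twRel_braid hg _ _ _ _ (twL_spec hg) (twM_spec hg) twRelDL twRelDM (twRel_DL hg)
    (twRel_DM hg) (by decide)

theorem comm_UL (hg : 3 ≤ g) : Commute (twU hg) (twL hg) := by
  apply Units.ext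
  simp only [Units.val_mul]
  have h1 := IsTwist.mul hg (twU_spec hg) (twL_spec hg) (twOK_L hg)
  have h2 := IsTwist.mul hg (twL_spec hg) (twU_spec hg) (twOK_U hg)
  have h3 : (fun p => kapL p + kapU p) = fun p => kapU p + kapL p := by
    funext p
    rw [add_comm]
  rw [h3] at h2
  exact h1.unique h2

theorem comm_TU (hg : 3 ≤ g) : Commute (twT hg) (twU hg) := by
  apply Units.ext
  simp only [Units.val_mul]
  exact twRel_commT hg 1 le_rfl (twT_spec hg) (twU_spec hg)

theorem comm_TM (hg : 3 ≤ g) : Commute (twT hg) (twM hg) := by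
  apply Units.ext
  simp only [Units.val_mul]
  exact twRel_commT hg 0 (by omega) (twT_spec hg) (twM_spec hg)

theorem comm_TL (hg : 3 ≤ g) : Commute (twT hg) (twL hg) := by
  apply Units.ext
  simp only [Units.val_mul]
  exact twRel_commT hg 1 le_rfl (twT_spec hg) (twL_spec hg)

end Pool.Agent.Lib.MP_66609f_al
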